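import Mathlib.RingTheory.AlgebraicIndependent.Basic
import Mathlib.RingTheory.Nullstellensatz
import Pool.Agent.MP_cbf1af_ag.cmp2.Defs

/-! Period matrices and Mumford-Tate groups of the cohomology groups `H^j = ⋀^j H^1` of an
abelian variety `ℂ^g / ⊕ ℤ b k`. -/

namespace Pool.Agent.MTG

open Matrix

noncomputable section

/-- The subgroup `G` of `GL(ℂ)` is the zero set of polynomials with rational coefficients in the
entries. -/
def IsQGroup {κ : Type} [Fintype κ] [DecidableEq κ] (G : Subgroup (GL κ ℂ)) : Prop :=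
  ∃ S : Set (MvPolynomial (κ × κ) ℚ), ∀ x : GL κ ℂ, x ∈ G ↔
    ∀ P ∈ S, MvPolynomial.aeval (fun p : κ × κ => (x : Matrix κ κ ℂ) p.1 p.2) P = 0

/-- The complex points of the smallest algebraic subgroup over `ℚ` which contains `H`. -/
def hull {κ : Type} [Fintype κ] [DecidableEq κ] (H : Set (GL κ ℂ)) : Subgroup (GL κ ℂ) :=
  sInf {G | IsQGroup G ∧ H ⊆ G}

/-- The dimension of an algebraic group: the transcendence degree of its coordinate ring. -/
def dim {κ : Type} [Fintype κ] [DecidableEq κ] (G : Subgroup (GL κ ℂ)) : Cardinal :=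
  Algebra.trdeg ℂ (MvPolynomial (κ × κ) ℂ ⧸ MvPolynomial.vanishingIdeal ℂ
    {e : κ × κ → ℂ | ∃ x ∈ G, e = fun p => (x : Matrix κ κ ℂ) p.1 p.2})

/-- subsets with `j` elements: they index a basis of the `j`-th exterior power -/
abbrev Sub (n j : ℕ) : Type := {s : Finset (Fin n) // s.card = j}

/-- the matrix of the `j × j` minors -/
def minors {R : Type} [CommRing R] (j : ℕ) {n m : ℕ} (x : Matrix (Fin n) (Fin m) R) :
    Matrix (Sub n j) (Sub m j) R :=
  Matrix.of fun s t => (x.submatrix (s.1.orderEmbOfFin s.2) (t.1.orderEmbOfFin t.2)).det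

/-- `x` is the matrix on `H^1(A, ℝ)` of the multiplication by a complex number on `ℂ^g` -/
def IsHodge {g n : ℕ} (b : Fin n → Fin g → ℂ) (x : Matrix (Fin n) (Fin n) ℝ) : Prop :=
  ∃ z : ℂ, z ≠ 0 ∧ ∀ k, z • b k = ∑ l, x k l • b l

/-- the image `h(𝕊(ℝ))` of the Deligne torus in `GL(H^j)` -/
def hodge {g n : ℕ} (b : Fin n → Fin g → ℂ) (j : ℕ) : Set (GL (Sub n j) ℂ) :=
  {y | ∃ x, IsHodge b x ∧ (y : Matrix (Sub n j) (Sub n j) ℂ) = (minors j x).map fun r => (r : ℂ)}

/-- the Mumford-Tate group of `H^j` -/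
def MT {g n : ℕ} (b : Fin n → Fin g → ℂ) (j : ℕ) : Subgroup (GL (Sub n j) ℂ) := hull (hodge b j)

/-- `t` is the matrix on `H^1(A, ℚ)` of an element of `End(A) ⊗ ℚ` -/
def IsEnd {g n : ℕ} (b : Fin n → Fin g → ℂ) (t : Matrix (Fin n) (Fin n) ℚ) : Prop :=
  ∃ φ : (Fin g → ℂ) →ₗ[ℂ] (Fin g → ℂ), ∀ k, φ (b k) = ∑ l, (t k l : ℂ) • b l

/-- complex multiplication: `End(A) ⊗ ℚ` contains a commutative reduced subalgebra of degree
`n = 2 g` -/
def IsCM {g n : ℕ} (b : Fin n → Fin g → ℂ) : Prop :=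
  ∃ T : Subalgebra ℚ (Matrix (Fin n) (Fin n) ℚ), (∀ x ∈ T, ∀ y ∈ T, x * y = y * x) ∧
    IsReduced T ∧ Module.finrank ℚ T = n ∧ ∀ t ∈ T, IsEnd b t

/-- the period matrix of `H^1`: the integrals of `dz_i` and `dζ_i` along the cycles `b k` -/
def period {g n : ℕ} (η : (Fin g → ℂ) → (Fin g → ℂ) →ₗ[ℂ] ℂ) (b : Fin n → Fin g → ℂ) :
    Matrix (Fin n) (Fin (g + g)) ℂ :=
  Matrix.of fun k => Fin.append (b k) fun i => η (b k) (Pi.single i 1)

/-- the field generated by the entries of a matrix -/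
def entryField {ι κ : Type} (x : Matrix ι κ ℂ) : IntermediateField ℚ ℂ :=
  IntermediateField.adjoin ℚ {r | ∃ i j, r = x i j}

/-- the field generated by the quotients of two entries of a matrix -/
def quotField {ι κ : Type} (x : Matrix ι κ ℂ) : IntermediateField ℚ ℂ :=
  IntermediateField.adjoin ℚ {r | ∃ i j k l, r = x i j / x k l}

end

end Pool.Agent.MTG
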