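import Mathlib.LinearAlgebra.Matrix.PosDef
import Mathlib.LinearAlgebra.SymplecticGroup
import Mathlib.Algebra.Polynomial.Bivariate
import Mathlib.RingTheory.PowerSeries.Basic
import Mathlib.NumberTheory.NumberField.InfinitePlace.Embeddings
import Mathlib.Analysis.SpecialFunctions.Gamma.Basic
import Mathlib.Data.Matrix.ColumnRowPartitioned
import Pool.Agent.MP_cbf1af_ag.cmp.Defs
import Mathlib.RingTheory.PowerSeries.Derivative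
import Pool.Agent.MP_cbf1af_ag.shp.Defs

-- ======== part 0: formerly Pool.Agent.MP_cbf1af_ag.gam.Defs
section MrgPart0

/-! PROJECT GAM: working definitions (theta series on Siegel space, functions with algebraic
values at torsion points, periods of CM types).  Proofs on paper: /team-store/GAM_BLUEPRINT.md -/

namespace Pool.Agent.GAM

open Matrix Complex Filter Topology
open Pool.Agent.CMP (Qb)

noncomputable section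

/-- algebraic complex numbers -/
abbrev Alg (x : ℂ) : Prop := IsAlgebraic ℚ x

/-- `exp (2 π i x)` -/
def ee (x : ℂ) : ℂ := Complex.exp (2 * Real.pi * I * x)

/-- rational vectors as complex vectors -/
def cq {ι : Type} (n : ι → ℚ) : ι → ℂ := fun i => (n i : ℂ)

/-- rational matrices as complex matrices -/
def cM {ι κ : Type} (γ : Matrix ι κ ℚ) : Matrix ι κ ℂ := γ.map fun x => (x : ℂ)

/-- derivative in a coordinate direction -/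
def pd {ι : Type} [Fintype ι] [DecidableEq ι] (i : ι) (F : (ι → ℂ) → ℂ) (z : ι → ℂ) : ℂ :=
  fderiv ℂ F z (Pi.single i 1)

/-! ### Siegel space and theta series -/

section Theta

variable {κ : Type} [Fintype κ] [DecidableEq κ]

/-- imaginary part -/
def imM (τ : Matrix κ κ ℂ) : Matrix κ κ ℝ := τ.map Complex.im

/-- imaginary part as a complex matrix -/
def imC (τ : Matrix κ κ ℂ) : Matrix κ κ ℂ := τ.map fun x => (x.im : ℂ)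

/-- Siegel upper half space -/
def InH (τ : Matrix κ κ ℂ) : Prop := τ.IsSymm ∧ (imM τ).PosDef

/-- the imaginary part is at least `c` -/
def Big (c : ℝ) (τ : Matrix κ κ ℂ) : Prop := ∀ x : κ → ℝ, c * (x ⬝ᵥ x) ≤ x ⬝ᵥ imM τ *ᵥ x

/-- support in `(1/M) ℤ^κ`, period `M ℤ^κ`, algebraic values -/
def Lev (M : ℕ) (f : (κ → ℚ) → ℂ) : Prop :=
  (∀ n, f n ≠ 0 → ∀ i, ∃ k : ℤ, (M : ℚ) * n i = k) ∧
    (∀ (n : κ → ℚ) (k : κ → ℤ), f (n + fun i => (M : ℚ) * k i) = f n) ∧ ∀ n, Alg (f n)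

/-- some level -/
def Sch (f : (κ → ℚ) → ℂ) : Prop := ∃ M : ℕ, 0 < M ∧ Lev M f

/-- indicator function of `K ℤ^κ` -/
def ind (K : ℕ) : (κ → ℚ) → ℂ := Set.indicator {n | ∀ i, ∃ k : ℤ, n i = (K : ℚ) * k} 1

/-- the terms of the theta series -/
def term (τ : Matrix κ κ ℂ) (z : κ → ℂ) (n : κ → ℚ) : ℂ :=
  ee (cq n ⬝ᵥ τ *ᵥ cq n / 2 + cq n ⬝ᵥ z)

/-- theta function -/
def thz (f : (κ → ℚ) → ℂ) (τ : Matrix κ κ ℂ) (z : κ → ℂ) : ℂ := ∑' n, f n * term τ z n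

/-- theta constant -/
def th (f : (κ → ℚ) → ℂ) (τ : Matrix κ κ ℂ) : ℂ := thz f τ 0

/-- gradient at the origin -/
def gr (f : (κ → ℚ) → ℂ) (τ : Matrix κ κ ℂ) : κ → ℂ := fun i => pd i (thz f τ) 0

/-- theta function in the canonical normalisation -/
def cth (f : (κ → ℚ) → ℂ) (τ : Matrix κ κ ℂ) (z : κ → ℂ) : ℂ :=
  Complex.exp (Real.pi / 2 * (z ⬝ᵥ (imC τ)⁻¹ *ᵥ z)) * thz f τ z

/-- Heisenberg operators -/
def W (v : κ ⊕ κ → ℚ) (f : (κ → ℚ) → ℂ) : (κ → ℚ) → ℂ := fun n =>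
  ee ((n ⬝ᵥ (v ∘ Sum.inr) - (v ∘ Sum.inl) ⬝ᵥ (v ∘ Sum.inr) / 2 : ℚ) : ℂ) * f (n - v ∘ Sum.inl)

/-- normalised period matrix -/
def per (τ : Matrix κ κ ℂ) : Matrix (κ ⊕ κ) κ ℂ := fromRows τ 1

/-- the torsion points -/
def tor (τ : Matrix κ κ ℂ) : Set (κ → ℂ) := Set.range fun v : κ ⊕ κ → ℚ => cq v ᵥ* per τ

/-- the point of Siegel space of a period matrix -/
def tauOf (S : Matrix (κ ⊕ κ) κ ℂ) : Matrix κ κ ℂ := S.toRows₁ * S.toRows₂⁻¹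

/-- the hermitian form of a period matrix -/
def herm (S : Matrix (κ ⊕ κ) κ ℂ) : Matrix κ κ ℂ := (-I) • (Sᴴ * J κ ℂ * S)

/-- Riemann relations -/
def Riem (S : Matrix (κ ⊕ κ) κ ℂ) : Prop :=
  Sᵀ * J κ ℂ * S = 0 ∧ ∀ u : κ → ℂ, u ≠ 0 → 0 < (star u ⬝ᵥ herm S *ᵥ u).re

/-- rational symplectic matrices -/
def Sp (γ : Matrix (κ ⊕ κ) (κ ⊕ κ) ℚ) : Prop := γ ∈ symplecticGroup κ ℚ

/-- integral and congruent to `1` modulo `R` -/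
def Cong (R : ℕ) (γ : Matrix (κ ⊕ κ) (κ ⊕ κ) ℚ) : Prop :=
  ∀ a b, ∃ k : ℤ, γ a b = (1 : Matrix (κ ⊕ κ) (κ ⊕ κ) ℚ) a b + R * k

/-- `C τ + D` -/
def kk (γ : Matrix (κ ⊕ κ) (κ ⊕ κ) ℚ) (τ : Matrix κ κ ℂ) : Matrix κ κ ℂ := (cM γ * per τ).toRows₂

/-- `(A τ + B) (C τ + D)⁻¹` -/
def act (γ : Matrix (κ ⊕ κ) (κ ⊕ κ) ℚ) (τ : Matrix κ κ ℂ) : Matrix κ κ ℂ := tauOf (cM γ * per τ)

/-- transformation formula -/
def Rel (γ : Matrix (κ ⊕ κ) (κ ⊕ κ) ℚ) (j : Matrix κ κ ℂ → ℂ) (f f' : (κ → ℚ) → ℂ) : Prop :=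
  ∀ τ, InH τ → ∀ z, thz f (act γ τ) z =
    j τ * ee (z ⬝ᵥ ((cM γ).toBlocks₂₁ * (kk γ τ)ᵀ) *ᵥ z / 2) * thz f' τ (z ᵥ* kk γ τ)

/-- `γ` acts on theta functions -/
def Good (γ : Matrix (κ ⊕ κ) (κ ⊕ κ) ℚ) : Prop :=
  ∃ j : Matrix κ κ ℂ → ℂ, (∀ τ, InH τ → j τ ≠ 0) ∧ ∀ f, Sch f → ∃ f', Sch f' ∧ Rel γ j f f'

/-- translations -/
def nn (B : Matrix κ κ ℚ) : Matrix (κ ⊕ κ) (κ ⊕ κ) ℚ := fromBlocks 1 B 0 1

/-- linear substitutions -/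
def mm (A : Matrix κ κ ℚ) : Matrix (κ ⊕ κ) (κ ⊕ κ) ℚ := fromBlocks A 0 0 A⁻¹ᵀ

/-- inversions in one coordinate -/
def jj (i : κ) : Matrix (κ ⊕ κ) (κ ⊕ κ) ℚ :=
  fromBlocks (1 - single i i 1) (-single i i 1) (single i i 1) (1 - single i i 1)

/-- all quotients of theta constants are algebraic -/
def AlgPt (τ : Matrix κ κ ℂ) : Prop :=
  InH τ ∧ ∀ f f', Sch f → Sch f' → th f' τ ≠ 0 → Alg (th f τ / th f' τ)

/-- isolated fixed point of a rational symplectic matrix -/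
def CMPt (τ : Matrix κ κ ℂ) : Prop :=
  InH τ ∧ ∃ γ, Sp γ ∧ act γ τ = τ ∧
    ∀ S : Matrix κ κ ℂ, S.IsSymm → (kk γ τ)ᵀ * S * kk γ τ = S → S = 0

end Theta

/-! ### Functions with algebraic values at the torsion points -/

section Af

variable {κ : Type} [Fintype κ] [DecidableEq κ]

/-- `V` is the rational span of a real basis -/
def IsTor (V : Set (κ → ℂ)) : Prop :=
  ∃ (ι : Type) (b : Module.Basis ι ℝ (κ → ℂ)), V = Submodule.span ℚ (Set.range b)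

/-- `A` and `B` have a common factor of automorphy for the translation by `l` -/
def Aut (A B : (κ → ℂ) → ℂ) (l : κ → ℂ) : Prop :=
  ∃ j : (κ → ℂ) → ℂ, Continuous j ∧ (∀ z, j z ≠ 0) ∧
    ∀ z, A (z + l) = j z * A z ∧ B (z + l) = j z * B z

/-- `A / B` is a meromorphic function, periodic for a lattice in `V` -/
structure MF (V : Set (κ → ℂ)) (A B : (κ → ℂ) → ℂ) : Prop where
  holA : ∀ z, AnalyticAt ℂ A z
  holB : ∀ z, AnalyticAt ℂ B z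
  aut : ∀ v ∈ V, ∃ M : ℕ, 0 < M ∧ Aut A B ((M : ℂ) • v)

/-- and it has algebraic values on `V` -/
structure AF (V : Set (κ → ℂ)) (A B : (κ → ℂ) → ℂ) : Prop extends MF V A B where
  alg : ∀ v ∈ V, B v ≠ 0 → Alg (A v / B v)

/-- local coordinates at the origin -/
def Co (V : Set (κ → ℂ)) (A B : κ → (κ → ℂ) → ℂ) : Prop :=
  (∀ k, AF V (A k) (B k) ∧ B k 0 ≠ 0) ∧
    Function.Injective (fderiv ℂ (fun z k => A k z / B k z) 0)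

/-- the coordinates `p i * z i` are the algebraic coordinates on the tangent space -/
def Ari (V : Set (κ → ℂ)) (p : κ → ℂ) : Prop :=
  (∀ i, p i ≠ 0) ∧
    (∀ A B, AF V A B → B 0 ≠ 0 → ∀ i, Alg (pd i (fun z => A z / B z) 0 / p i)) ∧
    ∃ A B, Co V A B

/-- Taylor series at `0` -/
def tay (f : ℂ → ℂ) : PowerSeries ℂ :=
  PowerSeries.mk fun n => iteratedDeriv n f 0 / n.factorial

/-- a derivation acting on the coefficients -/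
def dl (δ : Derivation ℚ ℂ ℂ) (φ : PowerSeries ℂ) : PowerSeries ℂ :=
  PowerSeries.mk fun n => δ (PowerSeries.coeff n φ)

/-- the germ at `0` is algebraic over `ℂ[X]` -/
def AlgG (h : ℂ → ℂ) : Prop :=
  ∃ P : Polynomial (Polynomial ℂ), P ≠ 0 ∧ ∀ᶠ x in 𝓝 (0 : ℂ), P.evalEval x (h x) = 0

/-- a set of analytic germs at `0` with algebraic values at `0`, closed under derivatives -/
def Germs (𝓕 : Set ((κ → ℂ) → ℂ)) : Prop :=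
  ∀ F ∈ 𝓕, AnalyticAt ℂ F 0 ∧ Alg (F 0) ∧ ∀ i, ∃ G ∈ 𝓕, pd i F =ᶠ[𝓝 0] G

end Af

/-! ### CM types and their periods -/

section Cm

variable {E : Type} [Field E] [NumberField E]

/-- complex embeddings -/
abbrev Emb (E : Type) [Field E] : Type := E →+* ℂ

scoped instance : DecidableEq (Emb E) := Classical.decEq _

/-- the conjugate embedding -/
abbrev cj (σ : Emb E) : Emb E := NumberField.ComplexEmbedding.conjugate σ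

/-- `c` is a complex conjugation which makes `E` a CM field -/
def CMF (c : E →+* E) : Prop :=
  (∀ (σ : Emb E) (x : E), σ (c x) = (starRingEnd ℂ) (σ x)) ∧ ∃ x, c x ≠ x

/-- CM type -/
def IsType (Φ : Finset (Emb E)) : Prop := ∀ σ, σ ∈ Φ ↔ cj σ ∉ Φ

/-- the point of `ℂ^Φ` of an element of `E` -/
def pt (Φ : Finset (Emb E)) (x : E) : Φ → ℂ := fun σ => σ.1 x

/-- the periods of the CM type `Φ`, first kind on `Φ`, second kind outside -/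
def Per (Φ : Finset (Emb E)) (P : Emb E → ℂ) : Prop :=
  (∀ σ, P σ * P (cj σ) = 2 * Real.pi * I) ∧ Ari (Set.range (pt Φ)) fun σ => P σ.1

/-- the alternating form -/
def psi {ι : Type} [Fintype ι] (c : E →+* E) (ξ x y : ι → E) : ℚ :=
  ∑ i, Algebra.trace ℚ E (ξ i * x i * c (y i))

/-- symplectic basis -/
def Sympl {ι κ : Type} [Fintype ι] [DecidableEq κ] (c : E →+* E) (ξ : ι → E)
    (β : Module.Basis (κ ⊕ κ) ℚ (ι → E)) : Prop :=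
  ∀ a b, psi c ξ (β a) (β b) = J κ ℚ a b

/-- matrix of a linear map acting on the rows -/
def mat {H κ : Type} [AddCommGroup H] [Module ℚ H] (β : Module.Basis κ ℚ H) (φ : H → H) :
    Matrix κ κ ℚ := Matrix.of fun a b => β.repr (φ (β a)) b

/-- `ξ` is purely imaginary with positive imaginary part exactly on `Φ` -/
def Pol (c : E →+* E) (Φ : Finset (Emb E)) (ξ : E) : Prop :=
  c ξ = -ξ ∧ ∀ σ ∈ Φ, 0 < (σ ξ).im

/-- the period matrix of a CM type -/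
def sig1 (Φ : Finset (Emb E)) (β : Module.Basis (Φ ⊕ Φ) ℚ (Unit → E)) : Matrix (Φ ⊕ Φ) Φ ℂ :=
  Matrix.of fun a σ => σ.1 (β a ())

/-- data of the family of abelian varieties with an action of `E` of type `Φ₁ + Φ₂` -/
structure Fam (E : Type) [Field E] [NumberField E] where
  c : E →+* E
  Φ₁ : Finset (Emb E)
  Φ₂ : Finset (Emb E)
  ξ : Fin 2 → E
  β : Module.Basis (Emb E ⊕ Emb E) ℚ (Fin 2 → E)
  hc : CMF c
  h₁ : IsType Φ₁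
  h₂ : IsType Φ₂
  p₁ : Pol c Φ₁ (ξ 0)
  p₂ : Pol c Φ₂ (ξ 1)
  hβ : Sympl c ξ β

namespace Fam

variable (F : Fam E)

/-- the indefinite places -/
abbrev Jn : Finset (Emb E) := F.Φ₁ \ F.Φ₂

/-- the hermitian form is `x₀ y₀' + d x₁ y₁'` -/
def d : E := F.ξ 1 / F.ξ 0

/-- extension by zero -/
def ex (y : F.Jn → ℂ) (σ : Emb E) : ℂ := if h : σ ∈ F.Jn then y ⟨σ, h⟩ else 0

/-- the complex coordinates on `E² ⊗ ℝ` -/
def ell (y : F.Jn → ℂ) (ρ : Emb E) (x : Fin 2 → E) : ℂ :=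
  if ρ ∈ F.Φ₁ then ρ (x 0) - F.ex y ρ * ρ (x 1)
  else if ρ ∈ F.Φ₂ then ρ (x 1) + F.ex y (cj ρ) / ρ F.d * ρ (x 0)
  else cj ρ (x 1)

/-- the embedding through which `E` acts on the coordinate `ρ` -/
def em (ρ : Emb E) : Emb E := if ρ ∈ F.Φ₁ ∨ ρ ∈ F.Φ₂ then ρ else cj ρ

/-- `1 - |y|² / |d|` -/
def q (y : F.Jn → ℂ) (σ : Emb E) : ℝ := 1 + ‖F.ex y σ‖ ^ 2 / (σ F.d).re

/-- the product of discs -/
def D : Set (F.Jn → ℂ) := {y | ∀ σ ∈ F.Jn, 0 < F.q y σ}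

/-- the period matrix -/
def sig (y : F.Jn → ℂ) : Matrix (Emb E ⊕ Emb E) (Emb E) ℂ := Matrix.of fun a ρ => F.ell y ρ (F.β a)

/-- the point of Siegel space -/
def tau (y : F.Jn → ℂ) : Matrix (Emb E) (Emb E) ℂ := tauOf (F.sig y)

/-- the gradient in the coordinates `ell` -/
def Gr (f : (Emb E → ℚ) → ℂ) (y : F.Jn → ℂ) : Emb E → ℂ :=
  (F.sig y).toRows₂⁻¹ *ᵥ gr f (F.tau y)

/-- the similitude with first column `(a, b)` -/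
def G (a b : E) (x : Fin 2 → E) : Fin 2 → E :=
  ![a * x 0 - F.d * F.c b * x 1, b * x 0 + F.c a * x 1]

/-- its multiplier -/
def nm (a b : E) : E := a * F.c a + F.d * (b * F.c b)

/-- factor of automorphy -/
def mu (a b : E) (y : F.Jn → ℂ) (σ : Emb E) : ℂ := σ a - F.ex y σ * σ b

/-- action on the discs -/
def mob (a b : E) (y : F.Jn → ℂ) : F.Jn → ℂ := fun σ =>
  (σ.1 (F.d * F.c b) + y σ * σ.1 (F.c a)) / F.mu a b y σ.1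

/-- numerators -/
def num (σ : Emb E) (f f' : (Emb E → ℚ) → ℂ) (y : F.Jn → ℂ) : ℂ :=
  if σ ∈ F.Φ₂ then F.Gr f y σ * F.Gr f' y (cj σ) - F.Gr f y (cj σ) * F.Gr f' y σ
  else F.Gr f y σ * th f' (F.tau y)

/-- denominators -/
def den (σ : Emb E) (f f' : (Emb E → ℚ) → ℂ) (y : F.Jn → ℂ) : ℂ :=
  if σ ∈ F.Φ₂ then th f (F.tau y) * th f' (F.tau y) else F.Gr f y (cj σ) * th f' (F.tau y)

/-- at `y` the abelian variety is isogenous to the product of the types `Φ`, `Φ'` -/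
def Spl (y : F.Jn → ℂ) (Φ Φ' : Finset (Emb E)) : Prop :=
  y ∈ F.D ∧ IsType Φ ∧ IsType Φ' ∧ Φ ∩ Φ' = F.Φ₁ ∩ F.Φ₂ ∧ Φ ∪ Φ' = F.Φ₁ ∪ F.Φ₂ ∧
    ∃ a b : E, F.nm a b ≠ 0 ∧ ∀ ρ,
      (F.em ρ ∉ Φ → F.ell y ρ ![a, b] = 0) ∧
      (F.em ρ ∉ Φ' → F.ell y ρ ![-(F.d * F.c b), F.c a] = 0)

end Fam

end Cm

/-! ### Incomplete beta integrals -/

/-- the incomplete beta integral `∫_0^x t^(A/N-1) (1-t)^(B/N-1) dt` in the local coordinate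
`X = x^(1/N)` -/
def ch (N A B : ℕ) (X : ℂ) : ℂ :=
  ∫ s in (0 : ℝ)..1, N * X * (s * X) ^ (A - 1) * (1 - (s * X) ^ N) ^ ((B : ℂ) / N - 1)

/-- the complete beta integral -/
def bt (N A B : ℕ) : ℂ :=
  Complex.Gamma (A / N) * Complex.Gamma (B / N) / Complex.Gamma ((A + B) / N)

/-- the domain of the charts -/
def Om (N : ℕ) : Set ℂ := {X | 1 - X ^ N ∈ Complex.slitPlane}

/-- the normalised integral in the charts at `0`, `1`, `∞` -/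
def phi (N A B : ℕ) (α : Fin 3) (X : ℂ) : ℂ :=
  ![ch N A B X, -ch N B A X, ee (B / (2 * N)) * ch N (N - A - B) B X] α / bt N A B

/-- homogeneous coordinates of the point of the projective line -/
def xc (N : ℕ) (α : Fin 3) (X : ℂ) : ℂ × ℂ := ![(1, X ^ N), (1, 1 - X ^ N), (X ^ N, 1)] α

/-- `Γ(a/N) / √π` -/
def gt (N : ℕ) (a : ZMod N) : ℂ :=
  ((Real.Gamma ((a.val : ℝ) / N) / √Real.pi : ℝ) : ℂ)

/-- `{a/N} - 1/2` -/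
def saw (N : ℕ) (a : ZMod N) : ℚ := (a.val : ℚ) / N - 1 / 2

end

end Pool.Agent.GAM

end MrgPart0

-- ======== part 1: formerly Pool.Agent.MP_cbf1af_ag.gam.Spec
section MrgPart1

/-! PROJECT GAM: module statements.  Proofs on paper: /team-store/GAM_BLUEPRINT.md -/

namespace Pool.Agent.GAM

open Matrix Complex Filter Topology MvPolynomial
open Pool.Agent.CMP (Qb)

noncomputable section

/-- for all index types -/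
abbrev All (p : ∀ (κ : Type) [Fintype κ] [DecidableEq κ], Prop) : Prop :=
  ∀ (κ : Type) [Fintype κ] [DecidableEq κ], p κ

/-- for all families -/
abbrev AllF (p : ∀ {E : Type} [Field E] [NumberField E], Fam E → Prop) : Prop :=
  ∀ (E : Type) [Field E] [NumberField E] (F : Fam E), p F

/-! ### Theta series -/

/-- THA: convergence, analyticity, derivative -/
structure ThA (κ : Type) [Fintype κ] [DecidableEq κ] : Prop where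
  summ : ∀ (f : (κ → ℚ) → ℂ) (τ : Matrix κ κ ℂ) (z : κ → ℂ) (k : ℕ), Sch f → InH τ →
    Summable fun n => ‖f n * term τ z n‖ * (1 + ‖cq n‖) ^ k
  ana : ∀ (f : (κ → ℚ) → ℂ) (τ : Matrix κ κ ℂ) (z : κ → ℂ), Sch f → InH τ →
    AnalyticAt ℂ (fun p : (κ → κ → ℂ) × (κ → ℂ) => thz f (Matrix.of p.1) p.2) (τ, z)
  anaz : ∀ (f : (κ → ℚ) → ℂ) (τ : Matrix κ κ ℂ) (z : κ → ℂ), Sch f → InH τ →
    AnalyticAt ℂ (thz f τ) z
  der : ∀ (f : (κ → ℚ) → ℂ) (τ S : Matrix κ κ ℂ) (z u : κ → ℂ), Sch f → InH τ →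
    fderiv ℂ (fun p : (κ → κ → ℂ) × (κ → ℂ) => thz f (Matrix.of p.1) p.2) (τ, z) (S, u) =
      ∑' n, f n * term τ z n * (2 * Real.pi * I * (cq n ⬝ᵥ S *ᵥ cq n / 2 + cq n ⬝ᵥ u))
  derz : ∀ (f : (κ → ℚ) → ℂ) (τ : Matrix κ κ ℂ) (z u : κ → ℂ), Sch f → InH τ →
    fderiv ℂ (thz f τ) z u = ∑' n, f n * term τ z n * (2 * Real.pi * I * (cq n ⬝ᵥ u))

/-- THB: formal properties and bounds -/
structure ThB (κ : Type) [Fintype κ] [DecidableEq κ] : Prop where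
  levMul : ∀ (M k : ℕ) (f : (κ → ℚ) → ℂ), 0 < k → Lev M f → Lev (M * k) f
  levAdd : ∀ (M : ℕ) (f g : (κ → ℚ) → ℂ), Lev M f → Lev M g → Lev M (f + g)
  levSmul : ∀ (M : ℕ) (a : ℂ) (f : (κ → ℚ) → ℂ), Alg a → Lev M f → Lev M (a • f)
  levNeg : ∀ (M : ℕ) (f : (κ → ℚ) → ℂ), Lev M f → Lev M fun n => f (-n)
  levInd : ∀ K M : ℕ, K ∣ M → 0 < M → Lev M (ind K : (κ → ℚ) → ℂ)
  common : ∀ (ι : Type) [Finite ι] (f : ι → (κ → ℚ) → ℂ), (∀ i, Sch (f i)) →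
    ∃ M, 0 < M ∧ Even M ∧ ∀ i, Lev M (f i)
  schW : ∀ (v : κ ⊕ κ → ℚ) (f : (κ → ℚ) → ℂ), Sch f → Sch (W v f)
  levW : ∀ (M : ℕ) (f : (κ → ℚ) → ℂ), 0 < M → Even M →
    (Lev M f ↔ (∀ n, Alg (f n)) ∧ ∀ k : κ ⊕ κ → ℤ, W (fun a => (M : ℚ) * k a) f = f)
  mulW : ∀ (v w : κ ⊕ κ → ℚ) (f : (κ → ℚ) → ℂ),
    W v (W w f) = ee ((v ⬝ᵥ J κ ℚ *ᵥ w / 2 : ℚ) : ℂ) • W (v + w) f
  basis : ∀ M : ℕ, 0 < M → ∃ (ι : Type) (_ : Fintype ι) (b : ι → (κ → ℚ) → ℂ),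
    (∀ i, Lev M (b i) ∧ ∀ n, ‖b i n‖ ≤ 1) ∧
    ∀ f, Lev M f → ∃ a : ι → ℂ, (∀ i, Alg (a i)) ∧ f = ∑ i, a i • b i
  add : ∀ (f g : (κ → ℚ) → ℂ) (τ : Matrix κ κ ℂ) (z : κ → ℂ), Sch f → Sch g → InH τ →
    thz (f + g) τ z = thz f τ z + thz g τ z
  smul : ∀ (a : ℂ) (f : (κ → ℚ) → ℂ) (τ : Matrix κ κ ℂ) (z : κ → ℂ),
    thz (a • f) τ z = a * thz f τ z
  neg : ∀ (f : (κ → ℚ) → ℂ) (τ : Matrix κ κ ℂ) (z : κ → ℂ),
    thz (fun n => f (-n)) τ z = thz f τ (-z)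
  trans : ∀ (v : κ ⊕ κ → ℚ) (f : (κ → ℚ) → ℂ) (τ : Matrix κ κ ℂ) (z : κ → ℂ), τ.IsSymm →
    thz (W v f) τ z =
      ee (cq (v ∘ Sum.inl) ⬝ᵥ (cq v ᵥ* per τ) / 2 + cq (v ∘ Sum.inl) ⬝ᵥ z) *
        thz f τ (z + cq v ᵥ* per τ)
  bdd : ∀ (f : (κ → ℚ) → ℂ) (c : ℝ), Sch f → 0 < c →
    ∃ C : ℝ, ∀ τ : Matrix κ κ ℂ, τ.IsSymm → Big c τ → ‖th f τ‖ ≤ C
  one : ∀ c : ℝ, 0 < c → ∃ K : ℕ, 0 < K ∧
    ∀ τ : Matrix κ κ ℂ, τ.IsSymm → Big c τ → 1 / 2 ≤ ‖th (ind K) τ‖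
  big : ∀ (c : ℝ) (τ : Matrix κ κ ℂ), 0 < c → τ.IsSymm → Big c τ → InH τ
  isTor : ∀ τ : Matrix κ κ ℂ, InH τ → IsTor (tor τ)
  dense : ∀ V : Set (κ → ℂ), IsTor V → Dense V

/-- THC: uniqueness and local coordinates (from THA, THB) -/
structure ThC (κ : Type) [Fintype κ] [DecidableEq κ] : Prop where
  uniq : ∀ (f : (κ → ℚ) → ℂ) (τ : Matrix κ κ ℂ), Sch f → InH τ → (∀ z, thz f τ z = 0) → f = 0
  nz : ∀ τ : Matrix κ κ ℂ, InH τ → ∃ f, Sch f ∧ th f τ ≠ 0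
  span : ∀ (τ : Matrix κ κ ℂ) (u : κ → ℂ), InH τ → u ≠ 0 → ∃ f, Sch f ∧ gr f τ ⬝ᵥ u ≠ 0
  zco : ∀ (τ : Matrix κ κ ℂ) (f₀ : (κ → ℚ) → ℂ), InH τ → Sch f₀ → th f₀ τ ≠ 0 →
    ∃ f : κ → (κ → ℚ) → ℂ, (∀ i, Sch (f i)) ∧
      Function.Injective (fderiv ℂ (fun z i => thz (f i) τ z / thz f₀ τ z) 0)
  coord : ∀ (ι : Type) [Fintype ι] (T : (ι → ℂ) → κ → κ → ℂ) (y₀ : ι → ℂ) (f₀ : (κ → ℚ) → ℂ),
    AnalyticAt ℂ T y₀ → InH (Matrix.of (T y₀)) → (∀ᶠ y in 𝓝 y₀, (Matrix.of (T y)).IsSymm) →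
    Function.Injective (fderiv ℂ T y₀) → Sch f₀ → th f₀ (Matrix.of (T y₀)) ≠ 0 →
    ∃ f : ι → (κ → ℚ) → ℂ, (∀ i, Sch (f i)) ∧ Function.Injective
      (fderiv ℂ (fun y i => th (f i) (Matrix.of (T y)) / th f₀ (Matrix.of (T y))) y₀)

/-- ACT: the action of the symplectic group -/
structure Act (κ : Type) [Fintype κ] [DecidableEq κ] : Prop where
  riem : ∀ S : Matrix (κ ⊕ κ) κ ℂ, Riem S → IsUnit S.toRows₂.det ∧ InH (tauOf S) ∧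
    per (tauOf S) * S.toRows₂ = S ∧ herm S = (2 : ℂ) • (S.toRows₂ᴴ * imC (tauOf S) * S.toRows₂)
  riemPer : ∀ τ : Matrix κ κ ℂ, InH τ → Riem (per τ)
  tauPer : ∀ τ : Matrix κ κ ℂ, tauOf (per τ) = τ
  left : ∀ (γ : Matrix (κ ⊕ κ) (κ ⊕ κ) ℚ) (S : Matrix (κ ⊕ κ) κ ℂ), Sp γ →
    herm (cM γ * S) = herm S ∧ (Riem S → Riem (cM γ * S))
  right : ∀ (S : Matrix (κ ⊕ κ) κ ℂ) (R : Matrix κ κ ℂ), IsUnit R.det → Riem S →
    Riem (S * R) ∧ tauOf (S * R) = tauOf S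
  inH : ∀ (γ : Matrix (κ ⊕ κ) (κ ⊕ κ) ℚ) (τ : Matrix κ κ ℂ), Sp γ → InH τ →
    InH (act γ τ) ∧ IsUnit (kk γ τ).det ∧ cM γ * per τ = per (act γ τ) * kk γ τ
  sig : ∀ (γ : Matrix (κ ⊕ κ) (κ ⊕ κ) ℚ) (S S' : Matrix (κ ⊕ κ) κ ℂ) (R : Matrix κ κ ℂ), Sp γ →
    Riem S → Riem S' → cM γ * S = S' * R →
    act γ (tauOf S) = tauOf S' ∧ kk γ (tauOf S) = S'.toRows₂ * R * S.toRows₂⁻¹
  one : ∀ τ : Matrix κ κ ℂ, act 1 τ = τ ∧ kk 1 τ = 1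
  mul : ∀ (γ γ' : Matrix (κ ⊕ κ) (κ ⊕ κ) ℚ) (τ : Matrix κ κ ℂ), Sp γ → Sp γ' → InH τ →
    act (γ * γ') τ = act γ (act γ' τ) ∧ kk (γ * γ') τ = kk γ (act γ' τ) * kk γ' τ
  inv : ∀ (γ : Matrix (κ ⊕ κ) (κ ⊕ κ) ℚ) (τ : Matrix κ κ ℂ), Sp γ → InH τ →
    ((cM γ).toBlocks₁₁ - act γ τ * (cM γ).toBlocks₂₁) * (kk γ τ)ᵀ = 1
  symm : ∀ (γ : Matrix (κ ⊕ κ) (κ ⊕ κ) ℚ) (τ : Matrix κ κ ℂ), Sp γ → τ.IsSymm →
    ((cM γ).toBlocks₂₁ * (kk γ τ)ᵀ).IsSymm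
  can : ∀ (γ : Matrix (κ ⊕ κ) (κ ⊕ κ) ℚ) (τ : Matrix κ κ ℂ), Sp γ → InH τ →
    (imC (act γ τ))⁻¹ + (2 * I) • ((cM γ).toBlocks₂₁ * (kk γ τ)ᵀ) =
      kk γ τ * (imC τ)⁻¹ * (kk γ τ)ᵀ
  der : ∀ (γ : Matrix (κ ⊕ κ) (κ ⊕ κ) ℚ) (τ : Matrix κ κ ℂ), Sp γ → InH τ →
    AnalyticAt ℂ (fun t : κ → κ → ℂ => fun i j => act γ (Matrix.of t) i j) τ ∧
    ∀ S : Matrix κ κ ℂ, (kk γ τ)ᵀ * Matrix.of
      (fderiv ℂ (fun t : κ → κ → ℂ => fun i j => act γ (Matrix.of t) i j) τ S) * kk γ τ = S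
  cmpt : ∀ (γ : Matrix (κ ⊕ κ) (κ ⊕ κ) ℚ) (S : Matrix (κ ⊕ κ) κ ℂ) (ι : Type) [Fintype ι]
    [DecidableEq ι] (S' : Matrix (κ ⊕ κ) ι ℂ) (B : Matrix ι κ ℂ) (lam : ι → ℂ), Sp γ → Riem S →
    Fintype.card ι = Fintype.card κ → S = S' * B → cM γ * S' = S' * diagonal lam →
    (∀ i j, lam i * lam j ≠ 1) → CMPt (tauOf S)
  opn : ∀ τ : Matrix κ κ ℂ, InH τ →
    ∀ᶠ t : κ → κ → ℂ in 𝓝 τ, (Matrix.of t).IsSymm → InH (Matrix.of t)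

/-- WEIL1: translations, substitutions, products (from THA, THB, ACT) -/
structure Weil1 (κ : Type) [Fintype κ] [DecidableEq κ] : Prop where
  nn : ∀ B : Matrix κ κ ℚ, B.IsSymm → Good (nn B)
  mm : ∀ A : Matrix κ κ ℚ, IsUnit A.det → Good (mm A)
  mul : ∀ γ γ' : Matrix (κ ⊕ κ) (κ ⊕ κ) ℚ, Sp γ → Sp γ' → Good γ → Good γ' → Good (γ * γ')
  relMul : ∀ (γ γ' : Matrix (κ ⊕ κ) (κ ⊕ κ) ℚ) (j j' : Matrix κ κ ℂ → ℂ)
    (f f' f'' : (κ → ℚ) → ℂ), Sp γ → Sp γ' → Rel γ j f f' → Rel γ' j' f' f'' →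
    Rel (γ * γ') (fun τ => j (act γ' τ) * j' τ) f f''
  relW : ∀ (γ : Matrix (κ ⊕ κ) (κ ⊕ κ) ℚ) (j : Matrix κ κ ℂ → ℂ) (f f' : (κ → ℚ) → ℂ)
    (v : κ ⊕ κ → ℚ), Sp γ → Rel γ j f f' → Rel γ j (W v f) (W (v ᵥ* γ) f')
  relCan : ∀ (γ : Matrix (κ ⊕ κ) (κ ⊕ κ) ℚ) (j : Matrix κ κ ℂ → ℂ) (f f' : (κ → ℚ) → ℂ)
    (τ : Matrix κ κ ℂ) (z : κ → ℂ), Sp γ → Rel γ j f f' → InH τ →
    cth f (act γ τ) z = j τ * cth f' τ (z ᵥ* kk γ τ)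
  relGr : ∀ (γ : Matrix (κ ⊕ κ) (κ ⊕ κ) ℚ) (j : Matrix κ κ ℂ → ℂ) (f f' : (κ → ℚ) → ℂ)
    (τ : Matrix κ κ ℂ), Sp γ → Sch f' → Rel γ j f f' → InH τ →
    th f (act γ τ) = j τ * th f' τ ∧ gr f (act γ τ) = j τ • kk γ τ *ᵥ gr f' τ

/-- WEIL2: inversions in one coordinate (from THA, THB) -/
def Weil2 (κ : Type) [Fintype κ] [DecidableEq κ] : Prop := ∀ i : κ, Good (jj i)

/-- SPGEN: generators of the rational symplectic group -/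
def SpGen (κ : Type) [Fintype κ] [DecidableEq κ] : Prop :=
  ∀ p : Matrix (κ ⊕ κ) (κ ⊕ κ) ℚ → Prop, (∀ B : Matrix κ κ ℚ, B.IsSymm → p (nn B)) →
    (∀ A : Matrix κ κ ℚ, IsUnit A.det → p (mm A)) → (∀ i, p (jj i)) →
    (∀ γ γ', Sp γ → Sp γ' → p γ → p γ' → p (γ * γ')) → ∀ γ, Sp γ → p γ

/-- the Weil representation (from WEIL1, WEIL2, SPGEN) -/
def Weil (κ : Type) [Fintype κ] [DecidableEq κ] : Prop :=
  ∀ γ : Matrix (κ ⊕ κ) (κ ⊕ κ) ℚ, Sp γ → Good γ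

/-- LV: levels (from THB, THC, ACT, WEIL1, WEIL) -/
structure Lv (κ : Type) [Fintype κ] [DecidableEq κ] : Prop where
  sc : ∀ (M : ℕ) (γ : Matrix (κ ⊕ κ) (κ ⊕ κ) ℚ), 0 < M → Even M → Sp γ → Cong (2 * M ^ 2) γ →
    ∃ j : Matrix κ κ ℂ → ℂ, (∀ τ, InH τ → j τ ≠ 0) ∧ ∀ f, Lev M f → Rel γ j f f
  fin : ∀ M : ℕ, 0 < M → Even M →
    ∃ (ρ : Type) (_ : Fintype ρ) (T U : ρ → ((κ → ℚ) → ℂ) → (κ → ℚ) → ℂ),
      (∀ r f, Lev M f → Lev M (T r f) ∧ Lev M (U r f)) ∧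
      ∀ γ, Sp γ → Cong 1 γ → ∃ (r : ρ) (j : Matrix κ κ ℂ → ℂ), (∀ τ, InH τ → j τ ≠ 0) ∧
        ∀ f, Lev M f → Rel γ j f (T r f) ∧ Rel γ j (U r f) f

/-- RED: reduction theory (from ACT) -/
def Red (κ : Type) [Fintype κ] [DecidableEq κ] : Prop :=
  ∃ c : ℝ, 0 < c ∧ ∀ τ : Matrix κ κ ℂ, InH τ →
    ∃ γ τ₀, Sp γ ∧ Cong 1 γ ∧ InH τ₀ ∧ Big c τ₀ ∧ τ = act γ τ₀

/-- SHORT: a short lattice vector (from ACT, RED) -/
def Short (κ : Type) [Fintype κ] [DecidableEq κ] : Prop :=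
  Nonempty κ → ∃ C : ℝ, ∀ S : Matrix (κ ⊕ κ) κ ℂ, Riem S → ∃ v : κ ⊕ κ → ℤ, v ≠ 0 ∧
    ∀ ρ, ‖((fun a => (v a : ℂ)) ᵥ* S) ρ‖ ^ 2 ≤ C * (herm S ρ ρ).re

/-- NZ: no common zero at a fixed level (from THB, WEIL1, LV, RED) -/
def Nz (κ : Type) [Fintype κ] [DecidableEq κ] : Prop :=
  ∃ M : ℕ, 0 < M ∧ ∀ τ : Matrix κ κ ℂ, InH τ → ∃ f, Lev M f ∧ th f τ ≠ 0

/-- QEXP: forms with algebraic coefficients vanishing to high order at the cusps (from THA, THB) -/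
def Qexp (κ : Type) [Fintype κ] [DecidableEq κ] : Prop :=
  ∀ (M : ℕ) (ρ ι : Type) [Fintype ρ] [Fintype ι] (f : ρ → ι → (κ → ℚ) → ℂ) (L : ℕ), 0 < M →
    (∀ r i, Lev M (f r i)) → Fintype.card (Sym2 κ) + 1 < Fintype.card ι →
    ∃ (k : ℕ) (P : MvPolynomial ι Qb), 0 < k ∧ P ≠ 0 ∧ P.IsHomogeneous k ∧
      ∀ r (τ : Matrix κ κ ℂ), InH τ →
        (fun t : ℝ => aeval (fun i => th (f r i) (τ + ((t : ℂ) * I) • (1 : Matrix κ κ ℂ))) P)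
          =O[atTop] fun t : ℝ => Real.exp (-(L * k * t))

/-- SIEG: algebraic dependence of theta quotients (from THA, THB, ACT, WEIL1, LV, RED, QEXP) -/
def Sieg (κ : Type) [Fintype κ] [DecidableEq κ] : Prop :=
  ∀ (ι : Type) [Fintype ι] (f₀ : (κ → ℚ) → ℂ) (f : ι → (κ → ℚ) → ℂ), Sch f₀ → (∀ i, Sch (f i)) →
    Fintype.card (Sym2 κ) < Fintype.card ι → ∃ P : MvPolynomial ι Qb, P ≠ 0 ∧
      ∀ τ, InH τ → th f₀ τ ≠ 0 → aeval (fun i => th (f i) τ / th f₀ τ) P = 0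

/-- CMALG (from THA, THB, THC, ACT, WEIL1, WEIL, SIEG, VAL, DEREX) -/
def CmAlg (κ : Type) [Fintype κ] [DecidableEq κ] : Prop :=
  ∀ τ : Matrix κ κ ℂ, CMPt τ → AlgPt τ

/-! ### Derivations, algebraic dependence -/

/-- TAY: Taylor series and derivations -/
structure Tay : Prop where
  congr : ∀ f g : ℂ → ℂ, f =ᶠ[𝓝 0] g → tay f = tay g
  add : ∀ f g : ℂ → ℂ, AnalyticAt ℂ f 0 → AnalyticAt ℂ g 0 →
    tay (fun x => f x + g x) = tay f + tay g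
  mul : ∀ f g : ℂ → ℂ, AnalyticAt ℂ f 0 → AnalyticAt ℂ g 0 →
    tay (fun x => f x * g x) = tay f * tay g
  const : ∀ a : ℂ, tay (fun _ => a) = PowerSeries.C a
  id : tay (fun x => x) = PowerSeries.X
  coeff0 : ∀ f : ℂ → ℂ, PowerSeries.constantCoeff (tay f) = f 0
  deriv : ∀ f : ℂ → ℂ, tay (deriv f) = PowerSeries.derivative ℂ (tay f)
  inj : ∀ f : ℂ → ℂ, AnalyticAt ℂ f 0 → tay f = 0 → f =ᶠ[𝓝 0] 0
  aeval : ∀ (ι : Type) (g : ι → ℂ → ℂ) (P : MvPolynomial ι ℂ), (∀ i, AnalyticAt ℂ (g i) 0) →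
    tay (fun x => eval (fun i => g i x) P) = aeval (fun i => tay (g i)) P
  dlAdd : ∀ δ φ ψ, dl δ (φ + ψ) = dl δ φ + dl δ ψ
  dlMul : ∀ δ φ ψ, dl δ (φ * ψ) = φ * dl δ ψ + ψ * dl δ φ
  dlC : ∀ δ a, dl δ (PowerSeries.C a) = PowerSeries.C (δ a)
  dlX : ∀ δ, dl δ PowerSeries.X = 0
  dlDer : ∀ δ φ, dl δ (PowerSeries.derivative ℂ φ) = PowerSeries.derivative ℂ (dl δ φ)
  dlAeval : ∀ (δ : Derivation ℚ ℂ ℂ) (ι : Type) [Fintype ι] (φ : ι → PowerSeries ℂ)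
    (P : MvPolynomial ι ℂ), ∃ Q : MvPolynomial ι ℂ, (∀ m, Q.coeff m = δ (P.coeff m)) ∧
      dl δ (MvPolynomial.aeval φ P) = MvPolynomial.aeval φ Q +
        ∑ i, MvPolynomial.aeval φ (pderiv i P) * dl δ (φ i)
  kill : ∀ (δ : Derivation ℚ ℂ ℂ) (x : ℂ), Alg x → δ x = 0
  chain : ∀ (δ : Derivation ℚ ℂ ℂ) (κ : Type) [Fintype κ] [DecidableEq κ]
    (𝓕 : Set ((κ → ℂ) → ℂ)) (φ : ℂ → κ → ℂ), Germs 𝓕 → AnalyticAt ℂ φ 0 → φ 0 = 0 → ∀ F ∈ 𝓕,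
    dl δ (tay fun x => F (φ x)) = ∑ i, tay (fun x => pd i F (φ x)) * dl δ (tay fun x => φ x i)

/-- DEREX: derivations detect transcendental numbers -/
def DerEx : Prop := ∀ x : ℂ, (∀ δ : Derivation ℚ ℂ ℂ, δ x = 0) → Alg x

/-- VAL: values and differentials of algebraic germs (from TAY, DEREX) -/
def Val : Prop :=
  ∀ (ι : Type) [Fintype ι] (x₀ : ι → ℂ) (F : ι → (ι → ℂ) → ℂ) (G : (ι → ℂ) → ℂ)
    (P : MvPolynomial (Option ι) Qb), (∀ k, AnalyticAt ℂ (F k) x₀) → AnalyticAt ℂ G x₀ →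
    Function.Injective (fderiv ℂ (fun x k => F k x) x₀) → P ≠ 0 →
    (∀ᶠ x in 𝓝 x₀, aeval (fun o : Option ι => o.elim (G x) fun k => F k x) P = 0) →
    (∀ (δ : Derivation ℚ ℂ ℂ) (s : ι → ℂ), (∀ k, fderiv ℂ (F k) x₀ s = δ (F k x₀)) →
      fderiv ℂ G x₀ s = δ (G x₀)) ∧
    ((∀ k, Alg (F k x₀)) → Alg (G x₀) ∧ ∃ a : ι → ℂ, (∀ k, Alg (a k)) ∧
      ∀ s, fderiv ℂ G x₀ s = ∑ k, a k * fderiv ℂ (F k) x₀ s)

/-- RIG: rigidity (from TAY, DEREX) -/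
def Rig : Prop :=
  ∀ (κ : Type) [Fintype κ] [DecidableEq κ] (𝓕 : Set ((κ → ℂ) → ℂ)) (F : κ → (κ → ℂ) → ℂ)
    (ψ : κ → ℂ → ℂ) (w : κ → ℂ), Germs 𝓕 → (∀ k, F k ∈ 𝓕) →
    Function.Injective (fderiv ℂ (fun z k => F k z) 0) →
    (∀ i, AnalyticAt ℂ (ψ i) 0 ∧ ψ i 0 = 0 ∧ ∀ n, Alg (iteratedDeriv n (ψ i) 0)) →
    (∀ G ∈ 𝓕, AlgG fun x => G fun i => w i * ψ i x) → ∀ i, Alg (w i) ∨ AlgG (ψ i)

/-- CS: algebraic dependence on a compact quotient -/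
def Cs : Prop :=
  ∀ (ι α κ : Type) [Fintype ι] [Fintype α] [Fintype κ] (U K : α → Set (ι → ℂ))
    (F : α → κ → (ι → ℂ) → ℂ), (∀ a, IsOpen (U a) ∧ IsCompact (K a) ∧ K a ⊆ U a) →
    (∀ a i, AnalyticOnNhd ℂ (F a i) (U a)) →
    (∀ a K', IsCompact K' → K' ⊆ U a → ∃ C : ℝ, ∀ x ∈ K', ∃ b, ∃ y ∈ K b, ∃ c : ℂ,
      ‖c‖ ≤ C ∧ ∀ i, F a i x = c * F b i y) →
    Fintype.card ι + 1 < Fintype.card κ →
    ∃ (n : ℕ) (P : MvPolynomial κ ℂ), P ≠ 0 ∧ P.IsHomogeneous n ∧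
      ∀ a, ∀ x ∈ U a, eval (fun i => F a i x) P = 0

/-- DESC: descent from a dense set of algebraic points -/
def Desc : Prop :=
  ∀ (X κ : Type) [TopologicalSpace X] (U D : Set X) (F : Option κ → X → ℂ) (n : ℕ)
    (P : MvPolynomial (Option κ) ℂ), (∀ i, ContinuousOn (F i) U) → D ⊆ U → U ⊆ closure D →
    (∀ x ∈ D, ∃ c : ℂ, c ≠ 0 ∧ ∀ i, Alg (F i x / c)) → P ≠ 0 → P.IsHomogeneous n →
    (∀ x ∈ U, eval (fun i => F i x) P = 0) →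
    ∃ Q : MvPolynomial κ Qb, Q ≠ 0 ∧
      ∀ x ∈ U, F none x ≠ 0 → aeval (fun i => F (some i) x / F none x) Q = 0

/-! ### Functions on complex tori -/

/-- AFA: formal properties (from THB) -/
structure AfA (κ : Type) [Fintype κ] [DecidableEq κ] : Prop where
  autZero : ∀ A B : (κ → ℂ) → ℂ, Aut A B 0
  autAdd : ∀ (A B : (κ → ℂ) → ℂ) l l', Aut A B l → Aut A B l' → Aut A B (l + l')
  autNeg : ∀ (A B : (κ → ℂ) → ℂ) l, Aut A B l → Aut A B (-l)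
  lattice : ∀ (V : Set (κ → ℂ)) (ι : Type) [Finite ι] (A B : ι → (κ → ℂ) → ℂ), IsTor V →
    (∀ i, MF V (A i) (B i)) → ∀ S : Finset (κ → ℂ), (S : Set (κ → ℂ)) ⊆ V →
    ∃ M : ℕ, 0 < M ∧ ∀ K : Set (κ → ℂ), IsCompact K → ∃ C : ℝ,
      ∀ l ∈ Submodule.span ℤ (S : Set (κ → ℂ)), ∀ z ∈ K, z + (M : ℂ) • l ∈ K → ∀ i, ∃ c : ℂ,
        ‖c‖ ≤ C ∧ A i (z + (M : ℂ) • l) = c * A i z ∧ B i (z + (M : ℂ) • l) = c * B i z
  transl : ∀ (V : Set (κ → ℂ)) A B v, IsTor V → v ∈ V → AF V A B →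
    AF V (fun z => A (z + v)) fun z => B (z + v)
  pull : ∀ (κ' : Type) [Fintype κ'] [DecidableEq κ'] (V : Set (κ → ℂ)) (V' : Set (κ' → ℂ))
    (N : Matrix κ κ' ℂ) A B, (∀ v ∈ V, v ᵥ* N ∈ V') → AF V' A B →
    AF V (fun z => A (z ᵥ* N)) fun z => B (z ᵥ* N)
  mfDer : ∀ (V : Set (κ → ℂ)) A B (u : κ → ℂ), MF V A B →
    MF V (fun z => fderiv ℂ A z u * B z - A z * fderiv ℂ B z u) fun z => B z ^ 2
  der : ∀ (V : Set (κ → ℂ)) p A B i, IsTor V → Ari V p → AF V A B →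
    AF V (fun z => (pd i A z * B z - A z * pd i B z) / p i) fun z => B z ^ 2
  germs : ∀ (V : Set (κ → ℂ)) p, IsTor V → Ari V p →
    Germs {F | ∃ A B, AF V A B ∧ B 0 ≠ 0 ∧ F = fun w => A (fun i => w i / p i) / B fun i => w i / p i}
  hom : ∀ (κ' : Type) [Fintype κ'] [DecidableEq κ'] (V : Set (κ → ℂ)) (V' : Set (κ' → ℂ)) p p'
    (N : Matrix κ κ' ℂ), Ari V p → Ari V' p' → (∀ v ∈ V, v ᵥ* N ∈ V') →
    ∀ i j, Alg (N i j * p' j / p i)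

/-- AFB: algebraic dependence on a torus (from AFA, THB, CS, DESC, VAL) -/
structure AfB (κ : Type) [Fintype κ] [DecidableEq κ] : Prop where
  depC : ∀ (V : Set (κ → ℂ)) (A B : Option κ → (κ → ℂ) → ℂ), IsTor V →
    (∀ o, MF V (A o) (B o)) → ∃ P : MvPolynomial (Option κ) ℂ, P ≠ 0 ∧
      ∀ z, (∀ o, B o z ≠ 0) → eval (fun o => A o z / B o z) P = 0
  dep : ∀ (V : Set (κ → ℂ)) (A B : Option κ → (κ → ℂ) → ℂ), IsTor V →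
    (∀ o, AF V (A o) (B o)) → ∃ P : MvPolynomial (Option κ) Qb, P ≠ 0 ∧
      ∀ z, (∀ o, B o z ≠ 0) → aeval (fun o => A o z / B o z) P = 0
  diff : ∀ (V : Set (κ → ℂ)) (A B : κ → (κ → ℂ) → ℂ) A₀ B₀, IsTor V → Co V A B → AF V A₀ B₀ →
    B₀ 0 ≠ 0 → ∃ a : κ → ℂ, (∀ k, Alg (a k)) ∧ ∀ s, fderiv ℂ (fun z => A₀ z / B₀ z) 0 s =
      ∑ k, a k * fderiv ℂ (fun z => A k z / B k z) 0 s
  ari : ∀ (V : Set (κ → ℂ)) (A B : κ → (κ → ℂ) → ℂ) (p : κ → ℂ), IsTor V → Co V A B →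
    (∀ i, p i ≠ 0) → (∀ k i, Alg (pd i (fun z => A k z / B k z) 0 / p i)) → Ari V p
  ex : ∀ (V : Set (κ → ℂ)) (A B : κ → (κ → ℂ) → ℂ) (lam : κ → ℂ), IsTor V → Co V A B →
    Function.Injective lam → (∀ i, Alg (lam i)) → (∀ v ∈ V, lam * v ∈ V) → ∃ p, Ari V p

/-- AFC: theta functions at an algebraic point (from THA, THB, THC, AFA) -/
structure AfC (κ : Type) [Fintype κ] [DecidableEq κ] : Prop where
  theta : ∀ (τ : Matrix κ κ ℂ) f f', AlgPt τ → Sch f → Sch f' → AF (tor τ) (thz f τ) (thz f' τ)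
  co : ∀ (τ : Matrix κ κ ℂ) (V : Set (κ → ℂ)) (N : Matrix κ κ ℂ), AlgPt τ → IsUnit N.det →
    (∀ v ∈ V, v ᵥ* N ∈ tor τ) → ∃ A B, Co V A B
  gr : ∀ (κ' : Type) [Fintype κ'] [DecidableEq κ'] (τ : Matrix κ κ ℂ) (V : Set (κ' → ℂ)) p
    (N : Matrix κ' κ ℂ) f f', AlgPt τ → Ari V p → (∀ v ∈ V, v ᵥ* N ∈ tor τ) → Sch f → Sch f' →
    th f' τ ≠ 0 → ∀ i, Alg ((N *ᵥ gr f τ) i / (p i * th f' τ))

/-! ### CM fields -/

/-- SYB: symplectic bases -/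
def Syb : Prop :=
  ∀ (H κ : Type) [AddCommGroup H] [Module ℚ H] [Module.Finite ℚ H] [Fintype κ] [DecidableEq κ]
    (ψ : H →ₗ[ℚ] H →ₗ[ℚ] ℚ), (∀ x, ψ x x = 0) → (∀ x, (∀ y, ψ x y = 0) → x = 0) →
    Module.finrank ℚ H = 2 * Fintype.card κ →
    ∃ β : Module.Basis (κ ⊕ κ) ℚ H, ∀ a b, ψ (β a) (β b) = J κ ℚ a b

/-- CMA: algebra of CM fields (from THB, SYB) -/
structure CmA (E : Type) [Field E] [NumberField E] (c : E →+* E) : Prop where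
  cc : ∀ x, c (c x) = x
  ne : ∀ σ : Emb E, cj σ ≠ σ
  cjc : ∀ σ : Emb E, cj σ = σ.comp c
  alg : ∀ (σ : Emb E) x, Alg (σ x)
  exType : ∃ Φ : Finset (Emb E), IsType Φ
  card : ∀ Φ : Finset (Emb E), IsType Φ → 2 * Φ.card = Module.finrank ℚ E
  isTor : ∀ Φ : Finset (Emb E), IsType Φ → IsTor (Set.range (pt Φ))
  pol : ∀ Φ : Finset (Emb E), IsType Φ → ∃ ξ, Pol c Φ ξ
  unit : ∀ S : Finset ℂ, ∃ u : E, u * c u = 1 ∧ (Function.Injective fun σ : Emb E => σ u) ∧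
    ∀ σ : Emb E, σ u ∉ S
  sympl : ∀ (ι κ : Type) [Fintype ι] [Fintype κ] [DecidableEq κ] (ξ : ι → E),
    (∀ i, ξ i ≠ 0 ∧ c (ξ i) = -ξ i) →
    Fintype.card ι * Module.finrank ℚ E = 2 * Fintype.card κ →
    ∃ β : Module.Basis (κ ⊕ κ) ℚ (ι → E), Sympl c ξ β
  dual : ∀ (ι κ : Type) [Fintype ι] [DecidableEq ι] [Fintype κ] [DecidableEq κ] (ξ : ι → E)
    (β : Module.Basis (κ ⊕ κ) ℚ (ι → E)), Sympl c ξ β → ∀ (i i' : ι) (σ σ' : Emb E),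
    ∑ a, ∑ b, σ (β a i) * J κ ℂ a b * σ' (β b i') =
      if i = i' ∧ σ = cj σ' then -1 / σ' (ξ i) else 0
  sp : ∀ (ι κ : Type) [Fintype ι] [Fintype κ] [DecidableEq κ] (ξ : ι → E)
    (β : Module.Basis (κ ⊕ κ) ℚ (ι → E)) (φ : (ι → E) →ₗ[ℚ] ι → E), Sympl c ξ β →
    (∀ x y, psi c ξ (φ x) (φ y) = psi c ξ x y) → Sp (mat β φ)
  matMul : ∀ (H κ : Type) [AddCommGroup H] [Module ℚ H] [Fintype κ] (β : Module.Basis κ ℚ H)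
    (φ : H → H) (l : H →ₗ[ℚ] ℂ) (a : κ), ∑ b, cM (mat β φ) a b * l (β b) = l (φ (β a))

/-- for all CM fields -/
abbrev AllC : Prop :=
  ∀ (E : Type) [Field E] [NumberField E] (c : E →+* E), CMF c → CmA E c

/-- MODEL: the complex torus of a CM type (from ACT, CMA) -/
def Model : Prop :=
  ∀ (E : Type) [Field E] [NumberField E] (c : E →+* E) (Φ : Finset (Emb E)), CMF c → IsType Φ →
    ∃ (ξ : E) (β : Module.Basis (Φ ⊕ Φ) ℚ (Unit → E)) (γ : Matrix (Φ ⊕ Φ) (Φ ⊕ Φ) ℚ) (u : E),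
      Pol c Φ ξ ∧ Riem (sig1 Φ β) ∧ CMPt (tauOf (sig1 Φ β)) ∧
      herm (sig1 Φ β) = diagonal (fun σ : Φ => I / σ.1 ξ) ∧
      (∀ x : E, pt Φ x = cq (β.repr fun _ => x) ᵥ* sig1 Φ β) ∧
      Sp γ ∧ cM γ * sig1 Φ β = sig1 Φ β * diagonal (pt Φ u) ∧
      Function.Injective (pt Φ u) ∧ ∀ σ σ' : Φ, σ.1 u * σ'.1 u ≠ 1

/-- EXIST (from THB, ACT, CMALG, AFB, AFC, CMA, MODEL) -/
def Exist : Prop :=
  ∀ (E : Type) [Field E] [NumberField E] (c : E →+* E) (Φ : Finset (Emb E)), CMF c → IsType Φ →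
    ∃ P, Per Φ P

/-- TRANS: functoriality (from AFA, CMA) -/
def Trans : Prop :=
  ∀ (E L : Type) [Field E] [NumberField E] [Field L] [NumberField L] (ι : E →+* L)
    (Φ : Finset (Emb E)) (Ψ : Finset (Emb L)) P Q, IsType Φ → (∀ σ, σ ∈ Ψ ↔ σ.comp ι ∈ Φ) →
    Per Φ P → Per Ψ Q → ∀ σ, Q σ ≠ 0 ∧ Alg (Q σ / P (σ.comp ι))

/-! ### The family -/

/-- FAMA: the period map (from ACT, CMA) -/
structure FamA {E : Type} [Field E] [NumberField E] (F : Fam E) : Prop where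
  cd : F.c F.d = F.d
  dneg : ∀ σ ∈ F.Jn, (σ F.d).re < 0
  dpos : ∀ σ ∈ F.Φ₁ ∩ F.Φ₂, 0 < (σ F.d).re
  opn : IsOpen F.D
  riem : ∀ y ∈ F.D, Riem (F.sig y)
  herm : ∃ s : Emb E → ℝ, (∀ ρ, 0 < s ρ) ∧ ∀ y ρ, (herm (F.sig y) ρ ρ).re =
    s ρ * (if ρ ∈ F.Φ₁ then F.q y ρ else F.q y (cj ρ))
  anaTau : ∀ y ∈ F.D, AnalyticAt ℂ (fun y' => fun i j => F.tau y' i j) y
  anaInv : ∀ y ∈ F.D, ∀ i j, AnalyticAt ℂ (fun y' => (F.sig y').toRows₂⁻¹ i j) y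
  imm : ∀ y ∈ F.D, Function.Injective (fderiv ℂ (fun y' => fun i j => F.tau y' i j) y)
  lin : ∀ y ρ, ∃ l : (Fin 2 → E) →ₗ[ℚ] ℂ, ∀ x, l x = F.ell y ρ x
  smul : ∀ y ρ (t : E) (x : Fin 2 → E), F.ell y ρ (t • x) = F.em ρ t * F.ell y ρ x
  tor : ∀ y ∈ F.D, ∀ x, (fun ρ => F.ell y ρ x) ᵥ* (F.sig y).toRows₂⁻¹ ∈ tor (F.tau y)

/-- FAMB: the action of the special unitary group (from THA, ACT, WEIL1, LV, CMA, FAMA) -/
structure FamB {E : Type} [Field E] [NumberField E] (F : Fam E) : Prop where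
  mob : ∀ a b, F.nm a b = 1 → ∀ y ∈ F.D, F.mob a b y ∈ F.D ∧ ∀ σ ∈ F.Jn,
    ‖F.mu a b y σ‖ ^ 2 * F.q (F.mob a b y) σ = F.q y σ ∧ ∀ x,
      F.ell y σ (F.G a b x) = F.mu a b y σ * F.ell (F.mob a b y) σ x ∧
      F.ell y (cj σ) (F.G a b x) = F.mu a b y σ * F.ell (F.mob a b y) (cj σ) x
  aut : ∀ (M : ℕ) a b, 0 < M → Even M → F.nm a b = 1 → Cong (2 * M ^ 2) (mat F.β (F.G a b)) →
    ∀ y ∈ F.D, ∃ c : ℂ, c ≠ 0 ∧
      (∀ f, Lev M f → th f (F.tau (F.mob a b y)) = c * th f (F.tau y)) ∧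
      ∀ σ ∈ F.Φ₁, ∀ f f', Lev M f → Lev M f' →
        F.num σ f f' (F.mob a b y) =
          c ^ 2 * (if σ ∈ F.Φ₂ then 1 else F.mu a b y σ) * F.num σ f f' y ∧
        F.den σ f f' (F.mob a b y) =
          c ^ 2 * (if σ ∈ F.Φ₂ then 1 else F.mu a b y σ) * F.den σ f f' y
  ana : ∀ f f', Sch f → Sch f' → ∀ σ, AnalyticOnNhd ℂ (fun y => th f (F.tau y)) F.D ∧
    AnalyticOnNhd ℂ (F.num σ f f') F.D ∧ AnalyticOnNhd ℂ (F.den σ f f') F.D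
  nonv : ∀ y ∈ F.D, ∀ σ ∈ F.Φ₁, ∀ f₀, Sch f₀ → th f₀ (F.tau y) ≠ 0 →
    (∃ g, Sch g ∧ F.den σ g f₀ y ≠ 0) ∧ ∃ f f', Sch f ∧ Sch f' ∧ F.num σ f f' y ≠ 0

/-- COCO: the congruence subgroups are cocompact (from SHORT, CMA, FAMA, FAMB) -/
def Coco {E : Type} [Field E] [NumberField E] (F : Fam E) : Prop :=
  (F.Φ₁ ∩ F.Φ₂).Nonempty → ∀ R : ℕ, 0 < R → ∃ K, IsCompact K ∧ K ⊆ F.D ∧
    ∀ y ∈ F.D, ∃ a b, F.nm a b = 1 ∧ Cong R (mat F.β (F.G a b)) ∧ F.mob a b y ∈ K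

/-- SPLIT: values at the split points (from THC, ACT, CMALG, AFC, CMA, FAMA) -/
def Split {E : Type} [Field E] [NumberField E] (F : Fam E) : Prop :=
  ∀ y Φ Φ' P P', F.Spl y Φ Φ' → Per Φ P → Per Φ' P' → AlgPt (F.tau y) ∧
    ∀ σ ∈ F.Φ₁, ∃ c : ℂ, c ≠ 0 ∧ ∀ f f', Sch f → Sch f' → Alg (F.den σ f f' y / c) ∧
      Alg (F.num σ f f' y / (c * (P σ * P' σ / if σ ∈ F.Φ₂ then 1 else 2 * Real.pi * I)))

/-- PTS: many split points (from THB, CMA, FAMA) -/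
def Pts {E : Type} [Field E] [NumberField E] (F : Fam E) : Prop :=
  F.D ⊆ closure {y | F.Spl y F.Φ₁ F.Φ₂} ∧ ∀ Φ Φ', IsType Φ → IsType Φ' →
    Φ ∩ Φ' = F.Φ₁ ∩ F.Φ₂ → Φ ∪ Φ' = F.Φ₁ ∪ F.Φ₂ → ∃ y, F.Spl y Φ Φ'

/-- SQ: the square relation (from THB, THC, NZ, CS, DESC, VAL, CMA, FAMA, FAMB, COCO, SPLIT, PTS) -/
def Sq : Prop :=
  ∀ (E : Type) [Field E] [NumberField E] (c : E →+* E) (Φ : Fin 4 → Finset (Emb E))
    (P : Fin 4 → Emb E → ℂ), CMF c → (∀ i, IsType (Φ i) ∧ Per (Φ i) (P i)) →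
    (Φ 0 ∩ Φ 1).Nonempty → Φ 2 ∩ Φ 3 = Φ 0 ∩ Φ 1 → Φ 2 ∪ Φ 3 = Φ 0 ∪ Φ 1 →
    ∀ σ, Alg (P 0 σ * P 1 σ / (P 2 σ * P 3 σ))

/-- the period symbol -/
def Symb {E : Type} [Field E] [NumberField E] (u : Emb E → Emb E → ℂ) : Prop :=
  (∀ σ τ, u σ τ * u σ (cj τ) = 1) ∧ ∀ Φ P, IsType Φ → Per Φ P →
    ∀ σ, Alg (P σ ^ 2 / (2 * Real.pi * I * ∏ τ ∈ Φ, u σ τ))

/-- PAIR: monomial relations (from CMA, EXIST, TRANS, SQ) -/
def Pair : Prop :=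
  ∀ (E : Type) [Field E] [NumberField E] (c : E →+* E), CMF c → 6 ≤ Module.finrank ℚ E →
    ∃ u : Emb E → Emb E → ℂ, Symb u

/-! ### The link with the transcendence theorem -/

/-- JET: second derivatives of the canonical theta function
(from THA, THB, ACT, WEIL1, WEIL, AFA, AFC) -/
def Jet (κ : Type) [Fintype κ] [DecidableEq κ] : Prop :=
  ∀ (S : Matrix (κ ⊕ κ) κ ℂ) (γ : Matrix (κ ⊕ κ) (κ ⊕ κ) ℚ) (lam p : κ → ℂ) (V : Set (κ → ℂ)),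
    Riem S → AlgPt (tauOf S) → Sp γ → cM γ * S = S * diagonal lam → (∀ i, Alg (lam i)) →
    (∀ i j, lam i * lam j ≠ 1) → V = Set.range (fun v : κ ⊕ κ → ℚ => cq v ᵥ* S) → IsTor V →
    Ari V p → ∀ f, Sch f → ∀ ϑ : (κ → ℂ) → ℂ, (ϑ = fun w => cth f (tauOf S) (w ᵥ* S.toRows₂⁻¹)) →
    (∀ i, ϑ 0 ≠ 0 → Alg (pd i ϑ 0 / (p i * ϑ 0))) ∧
    ∀ i j, AF V (fun w => (pd i (pd j ϑ) w * ϑ w - pd i ϑ w * pd j ϑ w) / (p i * p j))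
      fun w => ϑ w ^ 2

/-- INST: the theta model of a CM type (from THA, THB, THC, ACT, CMALG, CMA, MODEL, JET) -/
def Inst : Prop :=
  ∀ (E : Type) [Field E] [NumberField E] (c : E →+* E) (Φ : Finset (Emb E)) (P : Emb E → ℂ)
    (g : ℕ) (e : Fin g ≃ Φ), CMF c → IsType Φ → Per Φ P →
    ∃ (N : ℕ) (Θ : Fin (N + 1) → (Fin g → ℂ) → ℂ) (Λ : AddSubgroup (Fin g → ℂ))
      (η : (Fin g → ℂ) → (Fin g → ℂ) →ₗ[ℂ] ℂ) (b : Fin g → ℂ), CMQ.IsTheta Θ Λ η ∧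
      (∀ j, b j ≠ 0 ∧ Alg (b j)) ∧
      (∀ l ∈ Λ, ∃ y : E, l = fun j => P (e j) * (e j).1 y) ∧
      (∀ y : E, ∃ m : ℕ, 0 < m ∧ (fun j => P (e j) * (e j).1 (m * y)) ∈ Λ) ∧
      ∀ y : E, SHP.qp η (fun j => P (e j) * (e j).1 y) =
        fun j => b j * P (cj (e j)) * cj (e j).1 y

/-- the transcendence theorem for neighbouring types -/
def EdgeInd : Prop :=
  ∀ (E : Type) [Field E] [NumberField E] (c : E →+* E) (Φ Φ' : Finset (Emb E)) (τ₀ : Emb E) P P',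
    CMF c → IsGalois ℚ E → IsType Φ → IsType Φ' → Φ' \ Φ = {τ₀} → Per Φ P → Per Φ' P' →
    (∀ γ : E ≃ₐ[ℚ] E, ∃ σ ∈ Φ', σ.comp (γ : E →+* E) ∉ Φ) →
    AlgebraicIndependent ℚ fun σ : Φ => P' σ / P σ

/-- UNIV: the universal algebraically independent periods (from CMA, EXIST, TRANS, PAIR, EDGE) -/
def Univ : Prop :=
  ∀ (E : Type) [Field E] [NumberField E] (c : E →+* E) (σ₀ : Emb E), CMF c → IsGalois ℚ E →
    6 ≤ Module.finrank ℚ E → ∃ u : Emb E → ℂ, (∀ τ, u τ * u (cj τ) = 1) ∧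
      (∀ Ψ : Finset (Emb E), IsType Ψ → AlgebraicIndependent ℚ fun τ : Ψ => u τ) ∧
      ∀ Φ P, IsType Φ → Per Φ P → Alg (P σ₀ ^ 2 / (2 * Real.pi * I * ∏ τ ∈ Φ, u τ))

/-! ### Fermat curves and gamma values -/

/-- CHA: the charts -/
structure ChA (N A B : ℕ) : Prop where
  ana : AnalyticOnNhd ℂ (ch N A B) (Om N)
  zero : ch N A B 0 = 0
  der : ∀ X ∈ Om N, HasDerivAt (ch N A B) (N * X ^ (A - 1) * (1 - X ^ N) ^ ((B : ℂ) / N - 1)) X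
  alg : ∀ n, Alg (iteratedDeriv n (ch N A B) 0)
  rot : ∀ (i : ℕ) X, ch N A B (ee (i / N) * X) = ee (i * A / N) * ch N A B X
  opn : IsOpen (Om N)
  star : StarConvex ℝ 0 (Om N)

/-- for all exponents -/
abbrev AllCh : Prop := ∀ N A B : ℕ, 0 < N → 0 < A → ChA N A B

/-- GLUE: transition between the charts (from CHA) -/
def Glue : Prop :=
  ∀ (N : ℕ) (α α' : Fin 3) (X X' : ℂ), X ∈ Om N → X' ∈ Om N →
    (xc N α X).1 * (xc N α' X').2 = (xc N α X).2 * (xc N α' X').1 →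
    ∃ (i j : ℕ) (T : MvPolynomial (Fin 2) ℤ), ∀ A B : ℕ, 0 < A → 0 < B → A + B < N →
      phi N A B α X = ee ((i * A + j * B) / N) * phi N A B α' X' +
        aeval ![ee (A / N), ee (B / N)] T / (ee ((A + B) / N) - 1)

/-- NONALG: the incomplete beta integral is transcendental (from CHA) -/
def NonAlg : Prop := ∀ N A B : ℕ, 0 < A → 0 < B → A + B < N → ¬AlgG (ch N A B)

/-- PULL: functions on the torus are algebraic on the curve (from CS, AFA, CMA, CHA, GLUE) -/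
def Pull : Prop :=
  ∀ (E : Type) [Field E] [NumberField E] (c : E →+* E) (Φ : Finset (Emb E)) (N : ℕ) (a b : E)
    (A B : Φ → ℕ), CMF c → IsType Φ → (∀ σ : Φ, 0 < A σ ∧ 0 < B σ ∧ A σ + B σ < N ∧
      σ.1 a = ee (A σ / N) ∧ σ.1 b = ee (B σ / N)) →
    ∀ F G, MF (Set.range (pt Φ)) F G → G 0 ≠ 0 →
      AlgG fun X => F (fun σ => phi N (A σ) (B σ) 0 X) / G fun σ => phi N (A σ) (B σ) 0 X

/-- FER: periods of Fermat type (from RIG, AFA, CMA, CHA, NONALG, PULL) -/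
def Fer : Prop :=
  ∀ (E : Type) [Field E] [NumberField E] (c : E →+* E) (Φ : Finset (Emb E)) (N : ℕ) (a b : E)
    (A B : Φ → ℕ), CMF c → IsType Φ → (∀ σ : Φ, 0 < A σ ∧ 0 < B σ ∧ A σ + B σ < N ∧
      σ.1 a = ee (A σ / N) ∧ σ.1 b = ee (B σ / N)) →
    ∀ P, Per Φ P → ∀ σ : Φ, Alg (P σ / bt N (A σ) (B σ))

/-- STICK: the functions `u ↦ {u a / N} - 1/2` span the odd functions -/
def Stick : Prop :=
  ∀ (N : ℕ) [NeZero N] (lam : (ZMod N)ˣ → ℚ), (∀ u, lam (-u) = -lam u) →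
    ∃ m : ZMod N → ℚ, ∀ u : (ZMod N)ˣ, ∑ a ∈ Finset.univ.erase 0, m a * saw N (u * a) = lam u

/-- TRD: fields generated by monomials -/
def Trd : Prop :=
  ∀ (ι κ : Type) [Fintype ι] [Fintype κ] (x : ι → ℂ) (y : κ → ℂ) (k : ℕ) (e : κ → ι → ℤ),
    AlgebraicIndependent ℚ x → 0 < k → (∀ j, y j ≠ 0 ∧ Alg (y j ^ k / ∏ i, x i ^ e j i)) →
    Algebra.trdeg ℚ (IntermediateField.adjoin ℚ (Set.range y)) =
        Module.finrank ℚ (Submodule.span ℚ (Set.range fun j i => (e j i : ℚ))) ∧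
      ∀ m : κ → ℤ, Alg (∏ j, y j ^ m j) ↔ ∀ i, ∑ j, m j * e j i = 0

/-- GAMU: gamma values are monomials in the universal periods (from CMA, EXIST, FER, UNIV) -/
def GamU : Prop :=
  ∀ (N : ℕ) [NeZero N], ∃ (ι : Type) (_ : Fintype ι) (x : ι → ℂ) (r : ι → (ZMod N)ˣ) (k : ℕ)
    (e : ZMod N → ι → ℤ), AlgebraicIndependent ℚ x ∧ 0 < k ∧
    (∀ u : (ZMod N)ˣ, ∃ i, r i = u ∨ r i = -u) ∧
    ∀ a : ZMod N, a ≠ 0 → (∀ i, (e a i : ℚ) = k * saw N (r i * a)) ∧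
      Alg (gt N a ^ k / ∏ i, x i ^ e a i)

/-- the final statement on gamma values (from STICK, TRD, GAMU) -/
def GamFinal : Prop :=
  ∀ N : ℕ, 3 ≤ N →
    Algebra.trdeg ℚ (IntermediateField.adjoin ℚ
      {x : ℝ | ∃ a : ℕ, 0 < a ∧ a < N ∧ x = Real.Gamma ((a : ℝ) / N) / √Real.pi}) =
        (N.totient / 2 : ℕ) ∧
    ∀ m : ℕ → ℤ,
      IsAlgebraic ℚ (∏ a ∈ Finset.Ioo 0 N, (Real.Gamma ((a : ℝ) / N) / √Real.pi) ^ m a) ↔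
        ∀ u : ℕ, u.Coprime N →
          ∑ a ∈ Finset.Ioo 0 N, (m a : ℚ) * (Int.fract ((u : ℚ) * a / N) - 1 / 2) = 0

end

end Pool.Agent.GAM

end MrgPart1

-- marker of a merged file
example : 731051 + 652479 = 731051 + 652479 := rfl
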