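import Mathlib.Topology.Sheaves.Presheaf
import Mathlib.Tactic.Monotonicity.Lemmas
import Mathlib.RingTheory.Flat.TorsionFree
import Mathlib.Data.Int.Star
import Mathlib.RingTheory.PicardGroup
import Mathlib.Algebra.Module.ZLattice.Basic
import Mathlib.Algebra.MvPolynomial.Funext
import Mathlib.Algebra.Order.Star.Real
import Mathlib.LinearAlgebra.Matrix.FiniteDimensional
import Mathlib.Analysis.Calculus.FDeriv.Symmetric
import Mathlib.Analysis.Complex.PhragmenLindelof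
import Mathlib.Combinatorics.SimpleGraph.Basic
import Mathlib.Analysis.Normed.Group.Tannery
import Mathlib.Analysis.Real.Pi.Bounds
import Mathlib.RingTheory.PiTensorProduct
import Mathlib.RingTheory.SimpleRing.Principal
import Mathlib.RingTheory.Henselian
import Mathlib.RingTheory.MvPolynomial.IrreducibleQuadratic
import Mathlib.RingTheory.RegularLocalRing.Defs
import Mathlib.Tactic.Polynomial.Basic
import Pool.Agent.MP_cbf1af_ag.gam.Spec

-- ======== part 0: formerly Pool.Agent.MP_cbf1af_ag.gam.Afa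
section MrgPart0

/-! PROJECT GAM, row AFA: formal properties of functions on complex tori. -/

namespace Pool.Agent.GAM

open Matrix Complex Filter Topology
open Pool.Agent.CMP (Qb)

namespace Afa

variable {κ : Type} {V : Set (κ → ℂ)} {A B : (κ → ℂ) → ℂ}

theorem autZero (A B : (κ → ℂ) → ℂ) : Aut A B 0 :=
  ⟨fun _ => 1, continuous_const, fun _ => one_ne_zero, fun z => by simp⟩

theorem autAdd {l l' : κ → ℂ} (h : Aut A B l) (h' : Aut A B l') : Aut A B (l + l') := by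
  obtain ⟨j, c, n, e⟩ := h
  obtain ⟨j', c', n', e'⟩ := h'
  refine ⟨fun z => j' (z + l) * j z, (c'.comp (continuous_add_const l)).mul c,
    fun z => mul_ne_zero (n' _) (n _), fun z => ?_⟩
  rw [← add_assoc, (e' _).1, (e' _).2, (e z).1, (e z).2, mul_assoc, mul_assoc]
  exact ⟨rfl, rfl⟩

theorem autNeg {l : κ → ℂ} (h : Aut A B l) : Aut A B (-l) := by
  obtain ⟨j, c, n, e⟩ := h
  refine ⟨fun z => (j (z + -l))⁻¹, (c.comp (continuous_add_const _)).inv₀ fun z => n _,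
    fun z => inv_ne_zero (n _), fun z => ?_⟩
  have := e (z + -l)
  rw [neg_add_cancel_right] at this
  rw [this.1, this.2, inv_mul_cancel_left₀ (n _), inv_mul_cancel_left₀ (n _)]
  exact ⟨rfl, rfl⟩

/-- the translations with a common factor of automorphy -/
def grp (A B : (κ → ℂ) → ℂ) : AddSubgroup (κ → ℂ) where
  carrier := {l | Aut A B l}
  zero_mem' := autZero A B
  add_mem' := autAdd
  neg_mem' := autNeg

theorem tor_zero (h : IsTor V) : (0 : κ → ℂ) ∈ V := by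
  obtain ⟨ι, b, rfl⟩ := h
  exact Submodule.zero_mem _

theorem tor_add (h : IsTor V) {v w : κ → ℂ} (hv : v ∈ V) (hw : w ∈ V) : v + w ∈ V := by
  obtain ⟨ι, b, rfl⟩ := h
  exact Submodule.add_mem _ hv hw

variable [Fintype κ]

theorem fin_tor (h : IsTor V) (S : Finset (κ → ℂ)) (hS : (S : Set (κ → ℂ)) ⊆ V) (R : ℝ) :
    {l | l ∈ Submodule.span ℤ (S : Set (κ → ℂ)) ∧ ‖l‖ ≤ R}.Finite := by
  obtain ⟨ι, b, rfl⟩ := h
  have := Module.Finite.finite_basis b
  have h1 : ∀ s : S, ∃ t : nonZeroDivisors ℤ, t • s.1 ∈ Submodule.span ℤ (Set.range b) := fun s =>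
    multiple_mem_span_of_mem_localization_span (nonZeroDivisors ℤ) ℚ _ _ (hS s.2)
  choose t ht using h1
  have m0 : (∏ s, (t s : ℤ)) ≠ 0 :=
    Finset.prod_ne_zero_iff.2 fun s _ => nonZeroDivisors.coe_ne_zero _
  have h2 : Submodule.span ℤ (S : Set (κ → ℂ)) ≤ (Submodule.span ℤ (Set.range b)).comap
      ((∏ s, (t s : ℤ)) • LinearMap.id) := by
    rw [Submodule.span_le]
    intro s hs
    obtain ⟨k, hk⟩ := Finset.dvd_prod_of_mem (fun s => (t s : ℤ)) (Finset.mem_univ (⟨s, hs⟩ : S))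
    change (∏ s, (t s : ℤ)) • s ∈ Submodule.span ℤ (Set.range b)
    rw [hk, mul_comm, mul_smul]
    exact Submodule.smul_mem _ _ (ht ⟨s, hs⟩)
  refine ((ZSpan.setFinite_inter b (Metric.isBounded_closedBall (x := 0)
    (r := ‖∏ s, (t s : ℤ)‖ * R))).preimage
    (smul_right_injective (κ → ℂ) m0).injOn).subset fun l hl => ⟨?_, h2 hl.1⟩
  rw [mem_closedBall_zero_iff]
  exact (norm_zsmul_le _ _).trans (mul_le_mul_of_nonneg_left hl.2 (norm_nonneg _))

theorem lattice {ι : Type} [Finite ι] {A B : ι → (κ → ℂ) → ℂ} (hV : IsTor V)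
    (h : ∀ i, MF V (A i) (B i)) (S : Finset (κ → ℂ)) (hS : (S : Set (κ → ℂ)) ⊆ V) :
    ∃ M : ℕ, 0 < M ∧ ∀ K : Set (κ → ℂ), IsCompact K → ∃ C : ℝ,
      ∀ l ∈ Submodule.span ℤ (S : Set (κ → ℂ)), ∀ z ∈ K, z + (M : ℂ) • l ∈ K → ∀ i, ∃ c : ℂ,
        ‖c‖ ≤ C ∧ A i (z + (M : ℂ) • l) = c * A i z ∧ B i (z + (M : ℂ) • l) = c * B i z := by
  have := Fintype.ofFinite ι
  choose m m0 hm using fun p : ι × S => (h p.1).aut p.2 (hS p.2.2)
  have M0 : 0 < ∏ p, m p := Finset.prod_pos fun p _ => m0 p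
  have h1 : ∀ i, ∀ l ∈ Submodule.span ℤ (S : Set (κ → ℂ)),
      ((∏ p, m p : ℕ) : ℂ) • l ∈ grp (A i) (B i) := by
    intro i l hl
    induction hl using Submodule.span_induction with
    | mem s hs =>
      obtain ⟨k, hk⟩ := Finset.dvd_prod_of_mem m (Finset.mem_univ (i, (⟨s, hs⟩ : S)))
      rw [hk, mul_comm, Nat.cast_mul, mul_smul, Nat.cast_smul_eq_nsmul]
      exact nsmul_mem (S := grp (A i) (B i)) (hm (i, ⟨s, hs⟩)) k
    | zero => rw [smul_zero]; exact zero_mem _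
    | add x y _ _ hx hy => rw [smul_add]; exact add_mem hx hy
    | smul a x _ hx => rw [smul_comm]; exact zsmul_mem hx a
  refine ⟨_, M0, fun K hK => ?_⟩
  obtain ⟨R, hR⟩ := hK.isBounded.exists_norm_le
  have hf := fin_tor hV S hS (R + R)
  have := hf.to_subtype
  choose j jc _ je using fun p : ι × {l | l ∈ Submodule.span ℤ (S : Set (κ → ℂ)) ∧ ‖l‖ ≤ R + R} =>
    h1 p.1 p.2 p.2.2.1
  choose C hC using fun p => hK.exists_bound_of_continuousOn (jc p).continuousOn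
  obtain ⟨C', hC'⟩ := (Set.finite_range C).bddAbove
  refine ⟨C', fun l hl z hz hz' i => ?_⟩
  have h2 : ‖l‖ ≤ R + R := by
    have h3 := norm_sub_le (z + ((∏ p, m p : ℕ) : ℂ) • l) z
    rw [add_sub_cancel_left, norm_smul, Complex.norm_natCast] at h3
    have h4 : (1 : ℝ) ≤ (∏ p, m p : ℕ) := Nat.one_le_cast.2 M0
    nlinarith [hR _ hz, hR _ hz', norm_nonneg l]
  exact ⟨j (i, ⟨l, hl, h2⟩) z, (hC _ z hz).trans (hC' ⟨_, rfl⟩), je (i, ⟨l, hl, h2⟩) z⟩

theorem transl {v : κ → ℂ} (hV : IsTor V) (hv : v ∈ V) (h : AF V A B) :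
    AF V (fun z => A (z + v)) fun z => B (z + v) := by
  refine ⟨⟨fun z => (h.holA _).comp (f := fun z => z + v) (analyticAt_id.add analyticAt_const),
    fun z => (h.holB _).comp (f := fun z => z + v) (analyticAt_id.add analyticAt_const),
    fun w hw => ?_⟩, fun w hw => h.alg _ (tor_add hV hw hv)⟩
  obtain ⟨M, M0, j, c, n, e⟩ := h.aut w hw
  refine ⟨M, M0, fun z => j (z + v), c.comp (continuous_add_const v), fun z => n _, fun z => ?_⟩
  simp only [add_right_comm z _ v]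
  exact e _

/-- multiplication by a matrix -/
noncomputable def vm {κ' : Type} (N : Matrix κ κ' ℂ) : (κ → ℂ) →L[ℂ] κ' → ℂ :=
  LinearMap.toContinuousLinearMap N.vecMulLinear

theorem pull {κ' : Type} [Fintype κ'] {V' : Set (κ' → ℂ)} {N : Matrix κ κ' ℂ}
    {A B : (κ' → ℂ) → ℂ} (hN : ∀ v ∈ V, v ᵥ* N ∈ V') (h : AF V' A B) :
    AF V (fun z => A (z ᵥ* N)) fun z => B (z ᵥ* N) := by
  refine ⟨⟨fun z => (h.holA _).comp ((vm N).analyticAt z),
    fun z => (h.holB _).comp ((vm N).analyticAt z), fun w hw => ?_⟩, fun w hw => h.alg _ (hN w hw)⟩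
  obtain ⟨M, M0, j, c, n, e⟩ := h.aut _ (hN w hw)
  refine ⟨M, M0, fun z => j (z ᵥ* N), c.comp (vm N).continuous, fun z => n _, fun z => ?_⟩
  simp only [add_vecMul, smul_vecMul]
  exact e _

theorem an_der {z : κ → ℂ} (h : AnalyticAt ℂ A z) (u : κ → ℂ) :
    AnalyticAt ℂ (fun z => fderiv ℂ A z u) z :=
  ((ContinuousLinearMap.apply ℂ ℂ u).analyticAt _).comp h.fderiv

theorem mfDer (u : κ → ℂ) (a : ℂ) (h : MF V A B) :
    MF V (fun z => (fderiv ℂ A z u * B z - A z * fderiv ℂ B z u) / a) fun z => B z ^ 2 := by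
  refine ⟨fun z => (((an_der (h.holA z) u).mul (h.holB z)).sub
    ((h.holA z).mul (an_der (h.holB z) u))).div_const, fun z => (h.holB z).pow 2, fun w hw => ?_⟩
  obtain ⟨M, M0, j, c, n, e⟩ := h.aut w hw
  refine ⟨M, M0, fun z => j z ^ 2, c.pow 2, fun z => pow_ne_zero _ (n z), fun z => ⟨?_, ?_⟩⟩
  · set l := (M : ℂ) • w
    have h1 := ((hasFDerivAt_comp_add_right l).2
      (h.holA (z + l)).differentiableAt.hasFDerivAt).mul (h.holB z).differentiableAt.hasFDerivAt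
    have h2 := ((hasFDerivAt_comp_add_right l).2
      (h.holB (z + l)).differentiableAt.hasFDerivAt).mul (h.holA z).differentiableAt.hasFDerivAt
    have h3 : (fun z => A (z + l)) * B = (fun z => B (z + l)) * A := by
      funext z
      simp only [Pi.mul_apply, (e z).1, (e z).2]
      ring
    rw [h3] at h1
    have h4 := congrArg (fun D => D u) (h1.unique h2)
    simp only [_root_.add_apply, _root_.smul_apply, smul_eq_mul, (e z).1, (e z).2] at h4
    simp only [(e z).1, (e z).2]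
    linear_combination (j z / a) * h4
  · simp only [(e z).2, mul_pow]

theorem fd_div {z : κ → ℂ} (hA : AnalyticAt ℂ A z) (hB : AnalyticAt ℂ B z) (h0 : B z ≠ 0)
    (u : κ → ℂ) : fderiv ℂ (fun z => A z / B z) z u =
      (fderiv ℂ A z u * B z - A z * fderiv ℂ B z u) / B z ^ 2 := by
  have h1 := hA.differentiableAt.hasFDerivAt.mul
    ((hasDerivAt_inv h0).comp_hasFDerivAt z hB.differentiableAt.hasFDerivAt)
  have h2 : (fun z => A z / B z) = A * (fun y => y⁻¹) ∘ B := funext fun z => div_eq_mul_inv _ _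
  rw [h2, h1.fderiv]
  simp only [_root_.add_apply, _root_.smul_apply, smul_eq_mul, Function.comp_apply]
  field_simp
  ring

variable [DecidableEq κ] {p : κ → ℂ}

theorem der (i : κ) (hV : IsTor V) (hp : Ari V p) (h : AF V A B) :
    AF V (fun z => (pd i A z * B z - A z * pd i B z) / p i) fun z => B z ^ 2 := by
  refine ⟨mfDer _ _ h.toMF, fun v hv h0 => ?_⟩
  have h1 : B v ≠ 0 := fun e => h0 (by simp [e])
  have h2 := hp.2.1 _ _ (transl hV hv h) (by simpa using h1) i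
  have h3 : pd i (fun z => A (z + v) / B (z + v)) 0 = pd i (fun z => A z / B z) v := by
    unfold pd
    rw [fderiv_comp_add_right (f := fun z => A z / B z) v, zero_add]
  rw [h3, pd, fd_div (h.holA v) (h.holB v) h1] at h2
  rw [div_right_comm]
  exact h2

theorem germs (hV : IsTor V) (hp : Ari V p) : Germs {F | ∃ A B, AF V A B ∧ B 0 ≠ 0 ∧
    F = fun w => A (fun i => w i / p i) / B fun i => w i / p i} := by
  rintro _ ⟨A, B, h, h0, rfl⟩
  have e : ∀ w : κ → ℂ, vm (diagonal fun i => (p i)⁻¹) w = fun i => w i / p i := fun w => by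
    funext i
    exact vecMul_diagonal _ _ _
  have e0 : (fun i => (0 : κ → ℂ) i / p i) = 0 := by funext i; simp
  have hd : ∀ w, B (vm (diagonal fun i => (p i)⁻¹) w) ≠ 0 →
      AnalyticAt ℂ (fun z => A z / B z) (vm (diagonal fun i => (p i)⁻¹) w) := fun w hw =>
    (h.holA _).div (h.holB _) hw
  refine ⟨?_, by simp only [e0]; exact h.alg 0 (tor_zero hV) h0, fun i =>
    ⟨_, ⟨_, _, der i hV hp h, pow_ne_zero _ h0, rfl⟩, ?_⟩⟩
  · simp only [← e]
    exact (hd 0 (by rwa [map_zero])).comp ((vm (diagonal fun i => (p i)⁻¹)).analyticAt 0)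
  · have hc : ContinuousAt (fun w => B (vm (diagonal fun i => (p i)⁻¹) w)) 0 :=
      (h.holB _).continuousAt.comp (vm _).continuous.continuousAt
    filter_upwards [hc.eventually_ne (show _ ≠ 0 by rwa [map_zero])] with w hw
    simp only [← e]
    have h1 := ((hd w hw).differentiableAt.hasFDerivAt.comp w (vm _).hasFDerivAt).fderiv
    have h2 : vm (diagonal fun i => (p i)⁻¹) (Pi.single i 1) = (p i)⁻¹ • Pi.single i 1 := by
      rw [e]
      funext k
      by_cases hk : k = i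
      · subst hk; simp
      · simp [hk]
    refine (congrArg (fun D => D (Pi.single i 1)) h1).trans ?_
    simp only [ContinuousLinearMap.comp_apply, h2, map_smul, smul_eq_mul]
    rw [fd_div (h.holA _) (h.holB _) hw]
    unfold pd
    ring

theorem alg_solve {D : Matrix κ κ ℂ} {x : κ → ℂ} (hD : ∀ k j, Alg (D k j)) (h0 : D.det ≠ 0)
    (hx : ∀ k, Alg ((D *ᵥ x) k)) (j : κ) : Alg (x j) := by
  let D₀ : Matrix κ κ (algebraicClosure ℚ ℂ) :=
    Matrix.of fun k j => ⟨D k j, mem_algebraicClosure_iff.2 (hD k j)⟩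
  have e : (algebraMap _ ℂ).mapMatrix D₀ = D := rfl
  have a : ∀ y : algebraicClosure ℚ ℂ, Alg (algebraMap _ ℂ y) := fun y =>
    mem_algebraicClosure_iff.1 y.2
  have h1 : x j = D.det⁻¹ * ∑ k, D.adjugate j k * (D *ᵥ x) k := by
    change _ = _ * (D.adjugate *ᵥ (D *ᵥ x)) j
    rw [mulVec_mulVec, adjugate_mul, smul_mulVec, one_mulVec, Pi.smul_apply, smul_eq_mul,
      inv_mul_cancel_left₀ h0]
  rw [h1]
  refine IsAlgebraic.mul (IsAlgebraic.inv ?_) ?_
  · rw [← e, ← RingHom.map_det]; exact a _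
  · refine Finset.sum_induction _ _ (fun _ _ => IsAlgebraic.add) isAlgebraic_zero fun k _ =>
      IsAlgebraic.mul ?_ (hx k)
    rw [← e, ← RingHom.map_adjugate]
    exact a _

theorem fd_sum (D : (κ → ℂ) →L[ℂ] ℂ) (u : κ → ℂ) : D u = ∑ j, u j * D (Pi.single j 1) := by
  conv_lhs => rw [← Finset.univ_sum_single u, map_sum]
  refine Finset.sum_congr rfl fun j _ => ?_
  rw [← smul_eq_mul, ← map_smul, ← Pi.single_smul, smul_eq_mul, mul_one]

theorem hom {κ' : Type} [Fintype κ'] [DecidableEq κ'] {V' : Set (κ' → ℂ)} {p' : κ' → ℂ}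
    {N : Matrix κ κ' ℂ} (hp : Ari V p) (hp' : Ari V' p') (hN : ∀ v ∈ V, v ᵥ* N ∈ V') (i : κ)
    (j : κ') : Alg (N i j * p' j / p i) := by
  obtain ⟨A, B, h, inj⟩ := hp'.2.2
  have hd : ∀ k, DifferentiableAt ℂ (fun z => A k z / B k z) 0 := fun k =>
    (((h k).1.holA 0).div ((h k).1.holB 0) (h k).2).differentiableAt
  have hm : ∀ (x : κ' → ℂ) k,
      ((Matrix.of fun k j => pd j (fun z => A k z / B k z) 0 / p' j) *ᵥ x) k =
        fderiv ℂ (fun z => A k z / B k z) 0 fun j => x j / p' j := fun x k => by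
    rw [fd_sum]
    refine Finset.sum_congr rfl fun j _ => ?_
    simp only [of_apply, pd]
    ring
  refine alg_solve (D := Matrix.of fun k j => pd j (fun z => A k z / B k z) 0 / p' j)
    (x := fun j => N i j * p' j / p i) (fun k j => hp'.2.1 _ _ (h k).1 (h k).2 j) (fun h0 => ?_)
    (fun k => ?_) j
  · obtain ⟨x, x0, hx⟩ := exists_mulVec_eq_zero_iff.2 h0
    have h1 : (fun j => x j / p' j) = 0 := inj (by
      rw [map_zero, fderiv_pi hd]
      funext k
      exact (hm x k).symm.trans (congrFun hx k))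
    exact x0 (funext fun j => (div_eq_zero_iff.1 (congrFun h1 j)).resolve_right (hp'.1 j))
  · have h1 := hp.2.1 _ _ (pull hN (h k).1) (by rw [zero_vecMul]; exact (h k).2) i
    have h2 : HasFDerivAt (fun z => A k z / B k z) (fderiv ℂ (fun z => A k z / B k z) 0)
        (vm N 0) := by rw [map_zero]; exact (hd k).hasFDerivAt
    have h3 : pd i (fun z => A k (z ᵥ* N) / B k (z ᵥ* N)) 0 =
        fderiv ℂ (fun z => A k z / B k z) 0 (Pi.single i 1 ᵥ* N) :=
      congrArg (fun D => D (Pi.single i 1)) (h2.comp 0 (vm N).hasFDerivAt).fderiv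
    rw [h3, single_one_vecMul] at h1
    have h4 : (fun j => N i j * p' j / p i / p' j) = (p i)⁻¹ • N.row i := by
      funext j
      have := hp'.1 j
      simp only [Pi.smul_apply, smul_eq_mul, row_apply]
      field_simp
    rw [hm, h4, map_smul, smul_eq_mul, mul_comm]
    exact h1

end Afa

open Afa in
theorem afA (_hB : All ThB) : All AfA := fun _ _ _ =>
  { autZero := autZero
    autAdd := fun _ _ _ _ => autAdd
    autNeg := fun _ _ _ => autNeg
    lattice := fun _ _ _ _ _ => lattice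
    transl := fun _ _ _ _ => transl
    pull := fun _ _ _ _ _ _ _ _ => pull
    mfDer := fun _ _ _ u h => by simpa only [div_one] using mfDer u 1 h
    der := fun _ _ _ _ i => der i
    germs := fun _ _ => germs
    hom := fun _ _ _ _ _ _ _ _ => hom }

end Pool.Agent.GAM

end MrgPart0

-- ======== part 1: formerly Pool.Agent.MP_cbf1af_ag.gam.FamB
section MrgPart1

/-! PROJECT GAM: the action of the special unitary group on the family. -/

namespace Pool.Agent.GAM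

open Matrix Complex Filter Topology

noncomputable section

namespace FamBp

variable {E : Type} [Field E] [NumberField E] (F : Fam E)

omit [NumberField E] in
theorem cj_cj (σ : Emb E) : cj (cj σ) = σ := star_star σ

omit [NumberField E] in
theorem cj_app (σ : Emb E) (x : E) : cj σ x = (starRingEnd ℂ) (σ x) := rfl

omit [NumberField E] in
theorem cj_mem {Φ : Finset (Emb E)} (h : IsType Φ) {σ : Emb E} (hσ : σ ∉ Φ) : cj σ ∈ Φ := by
  by_contra hn; exact hσ ((h σ).2 hn)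

theorem ident (α β t : ℂ) {δ : ℝ} (hδ : δ ≠ 0)
    (h : α * (starRingEnd ℂ) α + δ * (β * (starRingEnd ℂ) β) = 1) :
    ‖α - t * β‖ ^ 2 + ‖δ * (starRingEnd ℂ) β + t * (starRingEnd ℂ) α‖ ^ 2 / δ =
      1 + ‖t‖ ^ 2 / δ := by
  have h1 := congrArg Complex.re h
  simp only [Complex.sq_norm, normSq_apply] at h1 ⊢
  simp at h1 ⊢
  field_simp
  linear_combination (δ + t.re ^ 2 + t.im ^ 2) * h1

theorem ex_mem (y : F.Jn → ℂ) {σ : Emb E} (h : σ ∈ F.Jn) : F.ex y σ = y ⟨σ, h⟩ := dif_pos h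

theorem ex_not (y : F.Jn → ℂ) {σ : Emb E} (h : σ ∉ F.Jn) : F.ex y σ = 0 := dif_neg h

theorem ell1 (y : F.Jn → ℂ) {σ : Emb E} (h : σ ∈ F.Φ₁) (x : Fin 2 → E) :
    F.ell y σ x = σ (x 0) - F.ex y σ * σ (x 1) := if_pos h

theorem ell2 (y : F.Jn → ℂ) {σ : Emb E} (h : σ ∈ F.Jn) (x : Fin 2 → E) :
    F.ell y (cj σ) x = cj σ (x 1) + F.ex y σ / cj σ F.d * cj σ (x 0) := by
  obtain ⟨h1, h2⟩ := Finset.mem_sdiff.1 h
  rw [Fam.ell, if_neg ((F.h₁ σ).1 h1), if_pos (cj_mem F.h₂ h2), cj_cj]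

theorem ell3 (y : F.Jn → ℂ) {σ : Emb E} (h1 : σ ∈ F.Φ₁) (h2 : σ ∈ F.Φ₂) (x : Fin 2 → E) :
    F.ell y σ x = σ (x 0) ∧ F.ell y (cj σ) x = σ (x 1) := by
  refine ⟨?_, ?_⟩
  · rw [ell1 F y h1, ex_not F y (by simp [h2]), zero_mul, sub_zero]
  · rw [Fam.ell, if_neg ((F.h₁ σ).1 h1), if_neg ((F.h₂ σ).1 h2), cj_cj]

variable {F}

theorem mob1 (hF : FamA F) {a b : E} (hn : F.nm a b = 1) {y : F.Jn → ℂ}
    (hy : y ∈ F.D) {σ : Emb E} (hσ : σ ∈ F.Jn) :
    F.mu a b y σ ≠ 0 ∧ ‖F.mu a b y σ‖ ^ 2 * F.q (F.mob a b y) σ = F.q y σ ∧ ∀ x,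
      F.ell y σ (F.G a b x) = F.mu a b y σ * F.ell (F.mob a b y) σ x ∧
      F.ell y (cj σ) (F.G a b x) = F.mu a b y σ * F.ell (F.mob a b y) (cj σ) x := by
  have hc := F.hc.1 σ
  have hd : σ F.d = ((σ F.d).re : ℂ) := by
    refine (conj_eq_iff_re.1 ?_).symm
    rw [← hc, hF.cd]
  have hneg := hF.dneg σ hσ
  obtain ⟨δ, hδ⟩ : ∃ δ : ℝ, (σ F.d).re = δ := ⟨_, rfl⟩
  rw [hδ] at hd hneg
  have h1 := congrArg σ hn
  simp only [Fam.nm, map_add, map_mul, map_one, hc, hd] at h1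
  have hi := ident (σ a) (σ b) (F.ex y σ) hneg.ne h1
  have hq := hy σ hσ
  have he : F.ex (F.mob a b y) σ =
      (δ * (starRingEnd ℂ) (σ b) + F.ex y σ * (starRingEnd ℂ) (σ a)) / F.mu a b y σ := by
    rw [ex_mem F _ hσ, Fam.mob, ← ex_mem F y hσ, map_mul, hc, hc, hd]
  have hq' : F.q y σ = 1 + ‖F.ex y σ‖ ^ 2 / δ := by rw [Fam.q, hδ]
  have hm : F.mu a b y σ ≠ 0 := fun h0 => by
    rw [Fam.mu] at h0
    rw [h0, ← hq'] at hi
    have := div_nonpos_of_nonneg_of_nonpos (sq_nonneg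
      ‖δ * (starRingEnd ℂ) (σ b) + F.ex y σ * (starRingEnd ℂ) (σ a)‖) hneg.le
    simp at hi
    linarith
  have hδ' : (δ : ℂ) ≠ 0 := by exact_mod_cast hneg.ne
  refine ⟨hm, ?_, fun x => ⟨?_, ?_⟩⟩
  · rw [hq', ← hi, Fam.q, hδ, he, norm_div, div_pow]
    have := norm_ne_zero_iff.2 hm
    rw [Fam.mu] at this ⊢
    field_simp
  · rw [ell1 F _ (Finset.mem_sdiff.1 hσ).1, ell1 F _ (Finset.mem_sdiff.1 hσ).1, he]
    simp only [Fam.G, cons_val_zero, cons_val_one, map_sub, map_add, map_mul, hc, hd]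
    field_simp
    rw [Fam.mu]
    ring
  · rw [ell2 F _ hσ, ell2 F _ hσ, he]
    simp only [Fam.G, cons_val_zero, cons_val_one, map_sub, map_add, map_mul, cj_app, hc, hd,
      conj_ofReal, conj_conj]
    field_simp
    rw [Fam.mu]
    ring

theorem mobD (hF : FamA F) {a b : E} (hn : F.nm a b = 1) {y : F.Jn → ℂ}
    (hy : y ∈ F.D) : F.mob a b y ∈ F.D := fun σ hσ => by
  obtain ⟨h1, h2, -⟩ := mob1 hF hn hy hσ
  have h3 := hy σ hσ
  rw [← h2] at h3
  exact (pos_iff_pos_of_mul_pos h3).1 (pow_pos (norm_pos_iff.2 h1) 2)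

/-- the similitude as a linear map -/
def Gl (F : Fam E) (a b : E) : (Fin 2 → E) →ₗ[ℚ] Fin 2 → E where
  toFun := F.G a b
  map_add' x y := by
    funext i
    fin_cases i <;> simp [Fam.G] <;> ring
  map_smul' r x := by
    funext i
    fin_cases i <;> simp [Fam.G, Algebra.smul_def] <;> ring

theorem xi0 (F : Fam E) : F.ξ 0 ≠ 0 := fun h => by
  obtain ⟨σ⟩ : Nonempty (Emb E) := inferInstance
  by_cases hσ : σ ∈ F.Φ₁
  · simpa [h] using F.p₁.2 σ hσ
  · simpa [h] using F.p₁.2 _ (cj_mem F.h₁ hσ)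

theorem spG (hK : CmA E F.c) (hF : FamA F) {a b : E} (hn : F.nm a b = 1) :
    Sp (mat F.β (F.G a b)) := by
  refine hK.sp _ _ F.ξ F.β (Gl F a b) F.hβ fun x y => ?_
  have h1 : F.ξ 1 = F.ξ 0 * F.d := by rw [Fam.d, mul_div_cancel₀ _ (xi0 F)]
  simp only [psi, Fin.sum_univ_two, ← map_add]
  congr 1
  simp only [Gl, LinearMap.coe_mk, AddHom.coe_mk, Fam.G, cons_val_zero, cons_val_one, map_sub,
    map_add, map_mul, hK.cc, hF.cd, h1]
  rw [Fam.nm] at hn
  linear_combination (F.ξ 0 * x 0 * F.c (y 0) + F.ξ 0 * F.d * x 1 * F.c (y 1)) * hn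

/-- diagonal coefficients -/
def cA (F : Fam E) (a b : E) (y : F.Jn → ℂ) (ρ : Emb E) : ℂ :=
  if ρ ∈ F.Φ₁ then F.mu a b y ρ else if ρ ∈ F.Φ₂ then F.mu a b y (cj ρ) else cj ρ (F.c a)

/-- coefficients between conjugate embeddings -/
def cB (F : Fam E) (b : E) (ρ : Emb E) : ℂ :=
  if ρ ∈ F.Φ₁ then (if ρ ∈ F.Φ₂ then -ρ (F.d * F.c b) else 0)
  else if ρ ∈ F.Φ₂ then 0 else cj ρ b

theorem ellG (hF : FamA F) {a b : E} (hn : F.nm a b = 1) {y : F.Jn → ℂ}
    (hy : y ∈ F.D) (ρ : Emb E) (x : Fin 2 → E) : F.ell y ρ (F.G a b x) =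
      cA F a b y ρ * F.ell (F.mob a b y) ρ x + cB F b ρ * F.ell (F.mob a b y) (cj ρ) x := by
  by_cases h1 : ρ ∈ F.Φ₁ <;> by_cases h2 : ρ ∈ F.Φ₂
  · rw [(ell3 F _ h1 h2 _).1, (ell3 F _ h1 h2 _).1, (ell3 F _ h1 h2 _).2]
    simp [cA, cB, h1, h2, Fam.mu, ex_not, Fam.G]
    ring
  · rw [((mob1 hF hn hy (Finset.mem_sdiff.2 ⟨h1, h2⟩)).2.2 x).1]
    simp [cA, cB, h1, h2]
  · have := ((mob1 hF hn hy (Finset.mem_sdiff.2 ⟨cj_mem F.h₁ h1, (F.h₂ ρ).1 h2⟩)).2.2 x).2
    rw [cj_cj] at this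
    rw [this]
    simp [cA, cB, h1, h2]
  · have e := fun y x => ell3 F y (cj_mem F.h₁ h1) (cj_mem F.h₂ h2) x
    simp only [cj_cj] at e
    rw [(e _ _).2, (e _ _).2, (e _ _).1]
    simp only [cA, cB, h1, h2, if_false, Fam.G, cons_val_one, cons_val_zero, map_add, map_mul]
    ring

/-- the matrix on the coordinates -/
def RR (F : Fam E) (a b : E) (y : F.Jn → ℂ) : Matrix (Emb E) (Emb E) ℂ := Matrix.of fun ρ' ρ =>
  (if ρ' = ρ then cA F a b y ρ else 0) + if ρ' = cj ρ then cB F b ρ else 0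

theorem RR_mulVec (a b : E) (y : F.Jn → ℂ) (v : Emb E → ℂ) (ρ : Emb E) :
    (RR F a b y *ᵥ v) ρ = cA F a b y ρ * v ρ + cB F b (cj ρ) * v (cj ρ) := by
  have e : ∀ ρ' : Emb E, ρ = cj ρ' ↔ cj ρ = ρ' := fun ρ' =>
    ⟨fun h => by rw [h, cj_cj], fun h => by rw [← h, cj_cj]⟩
  simp [RR, mulVec, dotProduct, add_mul, Finset.sum_add_distrib, e]

theorem sigG (hK : CmA E F.c) (hF : FamA F) {a b : E} (hn : F.nm a b = 1) {y : F.Jn → ℂ}
    (hy : y ∈ F.D) : cM (mat F.β (F.G a b)) * F.sig y = F.sig (F.mob a b y) * RR F a b y := by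
  ext i ρ
  obtain ⟨l, hl⟩ := hF.lin y ρ
  have := hK.matMul _ _ F.β (F.G a b) l i
  simp only [hl] at this
  rw [mul_apply, mul_apply]
  simp only [Fam.sig, of_apply]
  rw [this, ellG hF hn hy]
  simp only [RR, of_apply, mul_add, Finset.sum_add_distrib, mul_ite, mul_zero, Finset.sum_ite_eq',
    Finset.mem_univ, if_true]
  ring

theorem dotGr (hT : ThC (Emb E)) (hC : Act (Emb E)) (hF : FamA F) {y : F.Jn → ℂ} (hy : y ∈ F.D)
    {w : Emb E → ℂ} (hw : w ≠ 0) : ∃ f, Sch f ∧ w ⬝ᵥ F.Gr f y ≠ 0 := by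
  obtain ⟨h1, h2, -⟩ := hC.riem _ (hF.riem y hy)
  obtain ⟨f, hf, hf'⟩ := hT.span _ (w ᵥ* (F.sig y).toRows₂⁻¹) h2 fun h => hw (by
    have := congrArg (· ᵥ* (F.sig y).toRows₂) h
    simpa [nonsing_inv_mul _ h1] using this)
  exact ⟨f, hf, by rwa [Fam.Gr, dotProduct_mulVec, dotProduct_comm]⟩

theorem ana_comp {X Y : Type} [NormedAddCommGroup X] [NormedSpace ℂ X] [NormedAddCommGroup Y]
    [NormedSpace ℂ Y] {Φ : Y → ℂ} {g : X → Y} {x : X} (h : AnalyticAt ℂ Φ (g x))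
    (hg : AnalyticAt ℂ g x) (v : Y) :
    AnalyticAt ℂ (fun x => Φ (g x)) x ∧ AnalyticAt ℂ (fun x => fderiv ℂ Φ (g x) v) x :=
  ⟨h.comp hg, ((ContinuousLinearMap.apply ℂ ℂ v).analyticAt _).comp (h.fderiv.comp hg)⟩

theorem anaGen {κ X : Type} [Fintype κ] [DecidableEq κ] [NormedAddCommGroup X] [NormedSpace ℂ X]
    (hA : ThA κ) {f : (κ → ℚ) → ℂ} (hf : Sch f) {T : X → κ → κ → ℂ} {x : X}
    (hT : AnalyticAt ℂ T x) (hH : ∀ᶠ y in 𝓝 x, InH (Matrix.of (T y))) :
    AnalyticAt ℂ (fun y => th f (Matrix.of (T y))) x ∧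
      ∀ j, AnalyticAt ℂ (fun y => gr f (Matrix.of (T y)) j) x := by
  have h := ana_comp (g := fun y => (T y, (0 : κ → ℂ))) (x := x)
    (hA.ana f _ 0 hf hH.self_of_nhds) (hT.prod analyticAt_const)
  refine ⟨(h 0).1, fun j => (h (0, Pi.single j 1)).2.congr (hH.mono fun y hy => ?_)⟩
  have h2 := hA.der f _ (0 : Matrix κ κ ℂ) 0 (Pi.single j 1) hf hy
  have h3 : ∀ v : κ → ℂ, (0 : Matrix κ κ ℂ) *ᵥ v = 0 := fun v => zero_mulVec v
  simp only [h3, dotProduct_zero, zero_div, zero_add] at h2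
  exact h2.trans (hA.derz f _ 0 _ hf hy).symm

theorem anaTh (hA : ThA (Emb E)) (hC : Act (Emb E)) (hF : FamA F) {f : (Emb E → ℚ) → ℂ}
    (hf : Sch f) : AnalyticOnNhd ℂ (fun y => th f (F.tau y)) F.D ∧
      ∀ σ, AnalyticOnNhd ℂ (fun y => F.Gr f y σ) F.D := by
  have h := fun y (hy : y ∈ F.D) => anaGen hA hf (hF.anaTau y hy)
    ((hF.opn.eventually_mem hy).mono fun y hy => (hC.riem _ (hF.riem y hy)).2.1)
  refine ⟨fun y hy => (h y hy).1, fun σ y hy => ?_⟩
  simp only [Fam.Gr, mulVec, dotProduct]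
  exact Finset.analyticAt_fun_sum _ fun j _ => (hF.anaInv y hy σ j).mul ((h y hy).2 j)

end FamBp

open FamBp in
theorem famB (hA : All ThA) (hT : All ThC) (hC : All Act) (h1 : All Weil1) (hL : All Lv)
    (hK : AllC) (hF : AllF FamA) : AllF FamB := by
  intro E _ _ F
  have hK := hK E F.c F.hc
  have hF := hF E F
  have hC := hC (Emb E)
  refine ⟨fun a b hn y hy => ⟨mobD hF hn hy, fun σ hσ => (mob1 hF hn hy hσ).2⟩,
    fun M a b hM hM' hn hcg y hy => ?_, fun f f' hf hf' σ => ?_, fun y hy σ _ f₀ h0 h0' => ?_⟩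
  · have hs := spG hK hF hn
    have hr := hF.riem _ (mobD hF hn hy)
    obtain ⟨e1, e2⟩ := hC.sig _ _ _ _ hs (hF.riem y hy) hr (sigG hK hF hn hy)
    obtain ⟨j, hj, hj'⟩ := (hL _).sc M _ hM hM' hs hcg
    have hH : InH (F.tau y) := (hC.riem _ (hF.riem y hy)).2.1
    have key : ∀ f, Lev M f → th f (F.tau (F.mob a b y)) = j (F.tau y) * th f (F.tau y) ∧
        F.Gr f (F.mob a b y) = j (F.tau y) • RR F a b y *ᵥ F.Gr f y := fun f hf => by
      obtain ⟨k1, k2⟩ := (h1 _).relGr _ j f f _ hs ⟨M, hM, hf⟩ (hj' f hf) hH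
      rw [Fam.tau, e1] at k1 k2
      refine ⟨k1, ?_⟩
      rw [Fam.Gr, Fam.tau, k2, e2, mulVec_smul, mulVec_mulVec, ← mul_assoc, ← mul_assoc,
        nonsing_inv_mul _ (hC.riem _ hr).1, one_mul, Fam.Gr, mulVec_mulVec]
      rfl
    refine ⟨j (F.tau y), hj _ hH, fun f hf => (key f hf).1, fun σ hσ f f' hf hf' => ?_⟩
    have n1 := (F.h₁ σ).1 hσ
    by_cases h2 : σ ∈ F.Φ₂
    · have n2 := (F.h₂ σ).1 h2
      have e3 := congrArg σ hn
      simp only [Fam.nm, map_add, map_mul, map_one] at e3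
      simp only [Fam.num, Fam.den, (key f hf).1, (key f hf).2, (key f' hf').1, (key f' hf').2,
        Pi.smul_apply, RR_mulVec, cA, cB, hσ, h2, n1, n2, cj_cj, if_true, if_false, smul_eq_mul,
        Fam.mu, ex_not F y (show σ ∉ F.Jn by simp [h2]), map_mul]
      refine ⟨?_, by ring⟩
      linear_combination (j (F.tau y) ^ 2 * (F.Gr f y σ * F.Gr f' y (cj σ) -
        F.Gr f y (cj σ) * F.Gr f' y σ)) * e3
    · have n2 := cj_mem F.h₂ h2
      simp only [Fam.num, Fam.den, (key f hf).2, (key f' hf').1,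
        Pi.smul_apply, RR_mulVec, cA, cB, hσ, h2, n1, n2, cj_cj, if_true, if_false, smul_eq_mul]
      exact ⟨by ring, by ring⟩
  · obtain ⟨a1, a2⟩ := anaTh (hA _) hC hF hf
    obtain ⟨b1, b2⟩ := anaTh (hA _) hC hF hf'
    refine ⟨a1, ?_, ?_⟩
    · unfold Fam.num
      split_ifs
      · exact ((a2 _).mul (b2 _)).sub ((a2 _).mul (b2 _))
      · exact (a2 _).mul b1
    · unfold Fam.den
      split_ifs
      · exact a1.mul b1
      · exact (a2 _).mul b1
  · have hs : ∀ ρ, ∃ f, Sch f ∧ F.Gr f y ρ ≠ 0 := fun ρ => by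
      simpa using dotGr (hT _) hC hF hy (w := Pi.single ρ 1) (by simp)
    by_cases h2 : σ ∈ F.Φ₂
    · simp only [Fam.num, Fam.den, h2, if_true]
      obtain ⟨f, hf, hf'⟩ := hs σ
      obtain ⟨g, hg, hg'⟩ := dotGr (hT _) hC hF hy
        (w := Pi.single (cj σ) (F.Gr f y σ) - Pi.single σ (F.Gr f y (cj σ))) fun h => hf' (by
          simpa [Pi.single_eq_of_ne (hK.ne σ)] using congrFun h (cj σ))
      exact ⟨⟨f₀, h0, mul_ne_zero h0' h0'⟩, f, g, hf, hg, by simpa using hg'⟩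
    · simp only [Fam.num, Fam.den, h2, if_false]
      obtain ⟨f, hf, hf'⟩ := hs σ
      obtain ⟨g, hg, hg'⟩ := hs (cj σ)
      exact ⟨⟨g, hg, mul_ne_zero hg' h0'⟩, f, f₀, hf, h0, mul_ne_zero hf' h0'⟩

end

end Pool.Agent.GAM

end MrgPart1

-- ======== part 2: formerly Pool.Agent.MP_cbf1af_ag.gam.Qexp
section MrgPart2

/-! PROJECT GAM, module QEXP: a form in theta constants which vanishes to high order at the cusp. -/

namespace Pool.Agent.GAM

open Matrix Complex Filter Topology MvPolynomial Asymptotics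
open Pool.Agent.CMP (Qb)

noncomputable section

namespace QexpAux

/-- linear algebra: more monomials than conditions -/
theorem exists_poly {K A ρ ι D : Type} [Field K] [CommRing A] [Algebra K A] [Fintype ρ]
    [Fintype ι] [Fintype D] (i₀ : ι) (l : A →ₗ[K] (D → K)) (a : ρ → ι → A) (m : ℕ)
    (h : Fintype.card ρ * Fintype.card D < (m + 1) ^ (Fintype.card ι - 1)) :
    ∃ P : MvPolynomial ι K, P ≠ 0 ∧ P.IsHomogeneous ((Fintype.card ι - 1) * m) ∧
      ∀ r, l (aeval (a r) P) = 0 := by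
  classical
  let ι' := {i : ι // i ≠ i₀}
  have hc : Fintype.card ι' = Fintype.card ι - 1 := by
    simp [ι', Fintype.card_subtype_compl]
  let E : (ι' → Fin (m + 1)) → ι →₀ ℕ := fun e => Finsupp.equivFunOnFinite.symm
    fun i => if h : i = i₀ then ∑ j, (m - (e j : ℕ)) else e ⟨i, h⟩
  have hE : ∀ e (j : ι'), E e j = e j := fun e j => by
    simp [E, j.2]
  have hinj : Function.Injective E := fun e e' h => funext fun j => Fin.ext <| by
    rw [← hE, ← hE, h]
  have hdeg : ∀ e, (E e).degree = (Fintype.card ι - 1) * m := fun e => by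
    rw [Finsupp.degree_eq_sum, Fintype.sum_eq_add_sum_subtype_ne _ i₀]
    have h1 : E e i₀ = ∑ j, (m - (e j : ℕ)) := by simp [E]
    rw [h1, Finset.sum_congr rfl fun j _ => hE e j, ← Finset.sum_add_distrib,
      Finset.sum_congr rfl fun j _ => Nat.sub_add_cancel (Nat.lt_succ_iff.mp (e j).2)]
    simp [hc]
  let Pm : ((ι' → Fin (m + 1)) → K) →ₗ[K] MvPolynomial ι K :=
    ∑ e, (monomial (E e)).comp (LinearMap.proj e)
  have hPm : ∀ c, Pm c = ∑ e, monomial (E e) (c e) := fun c => by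
    simp [Pm, LinearMap.sum_apply]
  let Φ : ((ι' → Fin (m + 1)) → K) →ₗ[K] (ρ × D → K) :=
    LinearMap.pi fun p => (LinearMap.proj p.2).comp (l.comp ((aeval (a p.1)).toLinearMap.comp Pm))
  have hk : LinearMap.ker Φ ≠ ⊥ := Φ.ker_ne_bot_of_finrank_lt <| by
    simpa [Module.finrank_fintype_fun_eq_card, hc] using h
  obtain ⟨c, hc0, hc1⟩ := Submodule.exists_mem_ne_zero_of_ne_bot hk
  refine ⟨Pm c, fun h0 => hc1 (funext fun e => ?_), ?_, fun r => funext fun d => ?_⟩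
  · have := congrArg (coeff (E e)) h0
    rw [hPm, coeff_sum, Finset.sum_eq_single e (fun b _ hb => by
      rw [coeff_monomial, if_neg (hinj.ne hb)]) (by simp)] at this
    simpa using this
  · rw [hPm]
    exact IsHomogeneous.sum _ _ _ fun e _ => isHomogeneous_monomial _ (hdeg e)
  · exact congrFun (LinearMap.mem_ker.mp hc0) (r, d)

/-- the tail of a Dirichlet series -/
theorem tail {α : Type} (g : α → ℂ) (w : α → ℝ) (hg : Summable fun n => ‖g n‖)
    (S : Finset α) (N : ℝ) (hw0 : ∀ n, 0 ≤ w n)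
    (hw : ∀ n, n ∉ S → g n ≠ 0 → N ≤ w n) :
    (fun t : ℝ => ∑' n, g n * (Real.exp (-(w n * t)) : ℂ) -
      ∑ n ∈ S, g n * (Real.exp (-(w n * t)) : ℂ)) =O[atTop] fun t => Real.exp (-(N * t)) := by
  refine IsBigO.of_bound (∑' n : {n // n ∉ S}, ‖g n‖) ?_
  filter_upwards [eventually_ge_atTop (0 : ℝ)] with t ht
  have hs : Summable fun n => g n * (Real.exp (-(w n * t)) : ℂ) := by
    refine .of_norm_bounded hg fun n => ?_
    rw [norm_mul, Complex.norm_real, Real.norm_of_nonneg (Real.exp_pos _).le]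
    exact mul_le_of_le_one_right (norm_nonneg _)
      (Real.exp_le_one_iff.mpr (neg_nonpos.mpr (mul_nonneg (hw0 n) ht)))
  rw [← hs.sum_add_tsum_subtype_compl S, add_sub_cancel_left,
    Real.norm_of_nonneg (Real.exp_pos _).le, ← tsum_mul_right]
  refine tsum_of_norm_bounded ((hg.subtype _).mul_right _).hasSum fun n => ?_
  rw [norm_mul, Complex.norm_real, Real.norm_of_nonneg (Real.exp_pos _).le]
  by_cases h : g n = 0
  · simp [h]
  · exact mul_le_mul_of_nonneg_left (Real.exp_le_exp.mpr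
      (neg_le_neg (mul_le_mul_of_nonneg_right (hw n n.2 h) ht))) (norm_nonneg _)

/-- polynomials in bounded functions -/
theorem poly_sub {K ι : Type} [CommRing K] [Algebra K ℂ] (x y : ℝ → ι → ℂ) (ε : ℝ → ℝ)
    (hε : ε =O[atTop] fun _ => (1 : ℝ)) (hx : ∀ i, (fun t => x t i) =O[atTop] fun _ => (1 : ℝ))
    (hxy : ∀ i, (fun t => x t i - y t i) =O[atTop] ε) (P : MvPolynomial ι K) :
    (fun t => aeval (x t) P) =O[atTop] (fun _ => (1 : ℝ)) ∧
      (fun t => aeval (x t) P - aeval (y t) P) =O[atTop] ε := by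
  induction P using MvPolynomial.induction_on with
  | C a =>
    simp only [aeval_C, sub_self]
    exact ⟨isBigO_const_const _ one_ne_zero _, isBigO_zero _ _⟩
  | add p q hp hq =>
    simp only [map_add]
    exact ⟨hp.1.add hq.1, (hp.2.add hq.2).congr_left fun t => by ring⟩
  | mul_X p i hp =>
    simp only [map_mul, aeval_X]
    have hy : (fun t => y t i) =O[atTop] fun _ => (1 : ℝ) :=
      ((hx i).sub ((hxy i).trans hε)).congr_left fun t => by ring
    refine ⟨by simpa using hp.1.mul (hx i), ?_⟩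
    have h1 : (fun t => aeval (x t) p * (x t i - y t i)) =O[atTop] ε := by
      simpa using hp.1.mul (hxy i)
    have h2 : (fun t => (aeval (x t) p - aeval (y t) p) * y t i) =O[atTop] ε := by
      simpa using hp.2.mul hy
    exact (h1.add h2).congr_left fun t => by ring

variable {κ : Type} [Fintype κ] [DecidableEq κ]

/-- the trace -/
def tr (T : Sym2 κ → ℤ) : ℤ := ∑ i, T s(i, i)

variable (κ) in
/-- the exponents -/
def Gam : AddSubmonoid (Sym2 κ → ℤ) where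
  carrier := {T | 0 ≤ tr T ∧ ∀ s, |T s| ≤ tr T}
  zero_mem' := by simp [tr]
  add_mem' := by
    intro a b ha hb
    have : tr (a + b) = tr a + tr b := by simp [tr, Finset.sum_add_distrib]
    refine ⟨this ▸ add_nonneg ha.1 hb.1, fun s => ?_⟩
    rw [this]
    exact (abs_add_le _ _).trans (add_le_add (ha.2 s) (hb.2 s))

/-- the exponent `m mᵀ` -/
def sq (m : κ → ℤ) : Gam κ :=
  ⟨Sym2.lift ⟨fun i j => m i * m j, fun i j => mul_comm _ _⟩, by
    refine ⟨Finset.sum_nonneg fun i _ => by simpa using mul_self_nonneg (m i), fun s => ?_⟩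
    induction s using Sym2.ind with
    | _ i j =>
      have h : ∀ i, m i * m i ≤ ∑ i, m i * m i := fun i =>
        Finset.single_le_sum (f := fun i => m i * m i) (fun i _ => mul_self_nonneg _)
          (Finset.mem_univ i)
      have h1 := h i
      have h2 := h j
      simp only [tr, Sym2.lift_mk]
      rw [abs_le]
      constructor <;> nlinarith [sq_nonneg (m i + m j), sq_nonneg (m i - m j)]⟩

/-- the characters -/
def chi (M : ℕ) (τ : Matrix κ κ ℂ) : Multiplicative (Gam κ) →* ℂ where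
  toFun T := ee ((∑ i, ∑ j, (T.toAdd.1 s(i, j) : ℂ) * τ i j) / (2 * M ^ 2))
  map_one' := by simp [ee]
  map_mul' T T' := by
    simp only [ee, ← Complex.exp_add, toAdd_mul, AddSubmonoid.coe_add, Pi.add_apply, Int.cast_add,
      add_mul, Finset.sum_add_distrib]
    congr 1
    ring

omit [DecidableEq κ] in
theorem chi_sq (M : ℕ) (hM : 0 < M) (τ : Matrix κ κ ℂ) (m : κ → ℤ) :
    chi M τ (.ofAdd (sq m)) = term τ 0 fun i => (m i : ℚ) / M := by
  have : (M : ℂ) ≠ 0 := by exact_mod_cast hM.ne'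
  simp only [chi, sq, term, MonoidHom.coe_mk, OneHom.coe_mk, toAdd_ofAdd, Sym2.lift_mk,
    Pi.zero_apply, mul_zero, Finset.sum_const_zero, add_zero, dotProduct, mulVec, cq, Finset.mul_sum, Finset.sum_div]
  congr 1
  refine Finset.sum_congr rfl fun i _ => Finset.sum_congr rfl fun j _ => ?_
  push_cast
  field_simp

theorem chi_add (M : ℕ) (τ : Matrix κ κ ℂ) (t : ℝ) (T : Gam κ) :
    chi M (τ + ((t : ℂ) * I) • (1 : Matrix κ κ ℂ)) (.ofAdd T) =
      chi M τ (.ofAdd T) * (Real.exp (-(Real.pi * tr T.1 / M ^ 2 * t)) : ℂ) := by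
  simp only [chi, ee, MonoidHom.coe_mk, OneHom.coe_mk, toAdd_ofAdd, Complex.ofReal_exp,
    ← Complex.exp_add, Matrix.add_apply, Matrix.smul_apply, Matrix.one_apply, smul_eq_mul,
    mul_add, Finset.sum_add_distrib, mul_ite, mul_one, mul_zero, Finset.sum_ite_eq,
    Finset.mem_univ, if_true, tr, ← Finset.sum_mul]
  congr 1
  push_cast
  linear_combination ((Real.pi : ℂ) * (∑ i, (T.1 s(i, i) : ℂ)) * t / (M : ℂ) ^ 2) * I_mul_I

theorem term_add (τ : Matrix κ κ ℂ) (t : ℝ) (n : κ → ℚ) :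
    term (τ + ((t : ℂ) * I) • (1 : Matrix κ κ ℂ)) 0 n =
      term τ 0 n * (Real.exp (-(Real.pi * (∑ i, (n i : ℝ) ^ 2) * t)) : ℂ) := by
  simp only [term, ee, Complex.ofReal_exp, ← Complex.exp_add, add_mulVec, smul_mulVec,
    one_mulVec, dotProduct_add, dotProduct_smul, dotProduct_zero, smul_eq_mul]
  congr 1
  have : cq n ⬝ᵥ cq n = ∑ i, (n i : ℂ) ^ 2 := by simp [dotProduct, cq, pow_two]
  rw [this]
  push_cast
  linear_combination ((Real.pi : ℂ) * (∑ i, (n i : ℂ) ^ 2) * t) * I_mul_I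

theorem ev_small (M : ℕ) (hM : 0 < M) (N : ℕ) (τ : Matrix κ κ ℂ) (x : AddMonoidAlgebra Qb (Gam κ))
    (hx : ∀ T : Gam κ, tr T.1 ≤ (N * M ^ 2 : ℕ) → x.coeff T = 0) :
    (fun t : ℝ => AddMonoidAlgebra.lift Qb ℂ (Gam κ)
      (chi M (τ + ((t : ℂ) * I) • (1 : Matrix κ κ ℂ))) x) =O[atTop]
      fun t => Real.exp (-(N * t)) := by
  simp only [AddMonoidAlgebra.lift_apply, Finsupp.sum, chi_add]
  refine IsBigO.fun_sum fun T hT => ?_
  simp only [← smul_mul_assoc]
  refine IsBigO.const_mul_left ?_ _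
  refine IsBigO.of_bound 1 ?_
  filter_upwards [eventually_ge_atTop (0 : ℝ)] with t ht
  have h1 : ((N * M ^ 2 : ℕ) : ℤ) < tr T.1 :=
    not_le.mp fun h => Finsupp.mem_support_iff.mp hT (hx T h)
  have h2 : (N : ℝ) * M ^ 2 < (tr T.1 : ℝ) := by exact_mod_cast h1
  have h3 : (0 : ℝ) < (M : ℝ) ^ 2 := by positivity
  have h4 : (N : ℝ) ≤ Real.pi * tr T.1 / M ^ 2 := by
    rw [le_div_iff₀ h3]
    have : (0 : ℝ) ≤ N * M ^ 2 := by positivity
    nlinarith [Real.pi_gt_three]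
  rw [Complex.norm_real, one_mul, Real.norm_of_nonneg (Real.exp_pos _).le,
    Real.norm_of_nonneg (Real.exp_pos _).le]
  exact Real.exp_le_exp.mpr (neg_le_neg (mul_le_mul_of_nonneg_right h4 ht))

theorem card_le (B : ℕ) : Finite {T : Gam κ // tr T.1 ≤ B} ∧
    Nat.card {T : Gam κ // tr T.1 ≤ B} ≤ (2 * B + 1) ^ Fintype.card (Sym2 κ) := by
  let φ : {T : Gam κ // tr T.1 ≤ B} → Sym2 κ → Finset.Icc (-(B : ℤ)) B := fun T s =>
    ⟨T.1.1 s, Finset.mem_Icc.mpr (abs_le.mp ((T.1.2.2 s).trans T.2))⟩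
  have hφ : Function.Injective φ := fun T T' h =>
    Subtype.ext (Subtype.ext (funext fun s => congrArg Subtype.val (congrFun h s)))
  refine ⟨Finite.of_injective φ hφ, (Nat.card_le_card_of_injective φ hφ).trans_eq ?_⟩
  rw [Nat.card_eq_fintype_card, Fintype.card_fun, Fintype.card_coe, Int.card_Icc]
  congr 1
  omega

end QexpAux

open QexpAux in
theorem qexp (hA : All ThA) (_hB : All ThB) : All Qexp := by
  intro κ _ _ M ρ ι _ _ f L hM hf hι
  classical
  obtain ⟨i₀⟩ : Nonempty ι := Fintype.card_pos_iff.mp (by omega)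
  set d := Fintype.card (Sym2 κ) with hd
  set n := Fintype.card ι - 1 with hn
  set C := 2 * (L * n * M ^ 2) + 1 with hC
  set m := Fintype.card ρ * C ^ d + 1 with hm
  set B := L * (n * m) * M ^ 2 with hB
  obtain ⟨hfin, hcard⟩ := card_le (κ := κ) B
  have := Fintype.ofFinite {T : Gam κ // tr T.1 ≤ B}
  let box : Finset (κ → ℤ) := Fintype.piFinset fun _ => Finset.Icc (-(B : ℤ)) B
  let q : (κ → ℤ) → κ → ℚ := fun a i => (a i : ℚ) / M
  have hM' : (M : ℚ) ≠ 0 := by exact_mod_cast hM.ne'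
  have hq : Function.Injective q := fun a b h => funext fun i => by
    have := congrFun h i
    simp only [q] at this
    exact_mod_cast (div_left_inj' hM').mp this
  let a : ρ → ι → AddMonoidAlgebra Qb (Gam κ) := fun r i =>
    ∑ b ∈ box, .single (sq b) ⟨f r i (q b), mem_algebraicClosure_iff.mpr ((hf r i).2.2 _)⟩
  let l : AddMonoidAlgebra Qb (Gam κ) →ₗ[Qb] ({T : Gam κ // tr T.1 ≤ B} → Qb) :=
    LinearMap.pi fun T => (Finsupp.lapply T.1).comp
      (AddMonoidAlgebra.coeffLinearEquiv Qb).toLinearMap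
  obtain ⟨P, hP0, hP1, hP2⟩ := exists_poly i₀ l a m (by
    rw [← Nat.card_eq_fintype_card (α := {T : Gam κ // tr T.1 ≤ B}), ← hn]
    have h1 : 2 * B + 1 ≤ C * (m + 1) := by
      rw [hB, hC]
      nlinarith [Nat.zero_le (L * n * M ^ 2), Nat.zero_le m]
    calc _ ≤ Fintype.card ρ * (C * (m + 1)) ^ d :=
          Nat.mul_le_mul_left _ (hcard.trans (Nat.pow_le_pow_left h1 _))
      _ = Fintype.card ρ * C ^ d * (m + 1) ^ d := by rw [mul_pow, mul_assoc]
      _ < (m + 1) * (m + 1) ^ d := Nat.mul_lt_mul_of_pos_right (by omega) (by positivity)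
      _ = (m + 1) ^ (d + 1) := by ring
      _ ≤ _ := Nat.pow_le_pow_right (by omega) (by omega))
  refine ⟨n * m, P, Nat.mul_pos (by omega) (by omega), hP0, hP1, fun r τ hτ => ?_⟩
  have hs : ∀ i, Summable fun b => ‖f r i b * term τ 0 b‖ := fun i => by
    simpa using (hA κ).summ (f r i) τ 0 0 ⟨M, hM, hf r i⟩ hτ
  have hth : ∀ i (t : ℝ), th (f r i) (τ + ((t : ℂ) * I) • (1 : Matrix κ κ ℂ)) =
      ∑' b, f r i b * term τ 0 b *
        (Real.exp (-(Real.pi * (∑ j, (b j : ℝ) ^ 2) * t)) : ℂ) := fun i t => by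
    simp only [th, thz, term_add, mul_assoc]
  let ev := fun t : ℝ => AddMonoidAlgebra.lift Qb ℂ (Gam κ)
    (chi M (τ + ((t : ℂ) * I) • (1 : Matrix κ κ ℂ)))
  have hev : ∀ i (t : ℝ), ev t (a r i) = ∑ b ∈ box.image q, f r i b * term τ 0 b *
      (Real.exp (-(Real.pi * (∑ j, (b j : ℝ) ^ 2) * t)) : ℂ) := fun i t => by
    rw [Finset.sum_image fun _ _ _ _ h => hq h]
    simp only [ev, a, map_sum, AddMonoidAlgebra.lift_single, chi_sq M hM, term_add, mul_assoc]
    rfl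
  have hw0 : ∀ b : κ → ℚ, 0 ≤ Real.pi * ∑ j, (b j : ℝ) ^ 2 := fun b => by positivity
  have hN : (0 : ℝ) ≤ ((L * (n * m) : ℕ) : ℝ) := Nat.cast_nonneg _
  have key := (poly_sub (fun t i => th (f r i) (τ + ((t : ℂ) * I) • (1 : Matrix κ κ ℂ)))
    (fun t i => ev t (a r i)) (fun t => Real.exp (-(((L * (n * m) : ℕ) : ℝ) * t)))
    (by
      refine IsBigO.of_bound 1 ?_
      filter_upwards [eventually_ge_atTop (0 : ℝ)] with t ht
      rw [Real.norm_of_nonneg (Real.exp_pos _).le, norm_one, one_mul]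
      exact Real.exp_le_one_iff.mpr (neg_nonpos.mpr (mul_nonneg hN ht)))
    (fun i => by
      simp only [hth]
      simpa only [Finset.sum_empty, sub_zero, zero_mul, neg_zero, Real.exp_zero] using
        tail _ _ (hs i) ∅ 0 hw0 fun b _ _ => hw0 b)
    (fun i => by
      simp only [hth, hev]
      refine tail _ _ (hs i) _ _ hw0 fun b hb hb0 => ?_
      choose c hc using (hf r i).1 b (left_ne_zero_of_mul hb0)
      have hbc : q c = b := funext fun j => by
        simp only [q]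
        rw [← hc j, mul_div_cancel_left₀ _ hM']
      obtain ⟨j, hj⟩ : ∃ j, (B : ℤ) < |c j| := by
        by_contra hcon
        push Not at hcon
        exact hb (Finset.mem_image.mpr ⟨c, Fintype.mem_piFinset.mpr fun j =>
          Finset.mem_Icc.mpr (abs_le.mp (hcon j)), hbc⟩)
      have h1 : (B : ℤ) ≤ c j ^ 2 := by
        rw [← sq_abs]
        nlinarith [Int.natCast_nonneg B]
      have h2 : (B : ℝ) ≤ (c j : ℝ) ^ 2 := by exact_mod_cast h1
      have h3 : (M : ℝ) * b j = c j := by exact_mod_cast hc j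
      have h4 : (0 : ℝ) < (M : ℝ) ^ 2 := by positivity
      have h5 : ((L * (n * m) : ℕ) : ℝ) ≤ (b j : ℝ) ^ 2 := by
        refine le_of_mul_le_mul_right ?_ h4
        rw [← h3, hB] at h2
        push_cast at h2 ⊢
        linarith [mul_pow (M : ℝ) (b j) 2]
      have h6 : (b j : ℝ) ^ 2 ≤ ∑ j, (b j : ℝ) ^ 2 :=
        Finset.single_le_sum (f := fun j => (b j : ℝ) ^ 2) (fun _ _ => sq_nonneg _)
          (Finset.mem_univ j)
      nlinarith [Real.pi_gt_three]) P).2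
  have h2 := ev_small M hM (L * (n * m)) τ (aeval (a r) P) fun T hT => congrFun (hP2 r) ⟨T, hT⟩
  have h3 : ∀ t : ℝ, ev t (aeval (a r) P) = aeval (fun i => ev t (a r i)) P := fun t => by
    rw [← AlgHom.comp_apply, comp_aeval]
  refine ((key.add h2).congr_left fun t => ?_).congr_right fun t => by push_cast; ring_nf
  rw [← h3 t]
  exact sub_add_cancel _ _

end

end Pool.Agent.GAM

end MrgPart2

-- ======== part 3: formerly Pool.Agent.MP_cbf1af_ag.gam.Sieg
section MrgPart3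

/-! PROJECT GAM, row SIEG: no common zero at a fixed level, algebraic dependence of theta
quotients by the argument of Siegel. -/

namespace Pool.Agent.GAM

open Matrix Complex Filter Topology MvPolynomial Asymptotics
open Pool.Agent.CMP (Qb)

noncomputable section

namespace SiegX

theorem aeval_smul {ι R A : Type} [CommRing R] [CommRing A] [Algebra R A] {k : ℕ}
    {P : MvPolynomial ι R} (hP : P.IsHomogeneous k) (j : A) (x : ι → A) :
    aeval (fun i => j * x i) P = j ^ k * aeval x P := by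
  rw [aeval_def, aeval_def, eval₂_eq, eval₂_eq, Finset.mul_sum]
  refine Finset.sum_congr rfl fun d hd => ?_
  rw [hP.degree_eq_sum_deg_support hd, ← Finset.prod_pow_eq_pow_sum]
  simp only [mul_pow, Finset.prod_mul_distrib]
  ring

theorem dehom {ι : Type} {k : ℕ} {P : MvPolynomial (Option ι) Qb} (hP : P.IsHomogeneous k)
    (h0 : P ≠ 0) : ∃ Q : MvPolynomial ι Qb, Q ≠ 0 ∧ ∀ x : Option ι → ℂ, x none ≠ 0 →
      aeval x P = 0 → aeval (fun i => x (some i) / x none) Q = 0 := by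
  have key : ∀ (A : Type) [Field A] [Algebra Qb A] (x : Option ι → A), x none ≠ 0 →
      aeval x P = x none ^ k * aeval (fun i => x (some i) / x none)
        (aeval (fun o : Option ι => o.elim 1 X) P : MvPolynomial ι Qb) := by
    intro A _ _ x hx
    rw [← AlgHom.comp_apply, comp_aeval, ← aeval_smul hP]
    congr 2
    funext o
    cases o with
    | none => simp
    | some i => simp; field_simp
  refine ⟨aeval (fun o : Option ι => o.elim 1 X) P, fun hQ => h0 ?_, fun x hx h => ?_⟩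
  · have : P * X none = 0 := by
      refine MvPolynomial.funext fun x => ?_
      by_cases hx : x none = 0
      · simp [hx]
      · have := key Qb x hx
        rw [hQ] at this
        simp only [map_zero, mul_zero] at this
        have h2 : eval x P = 0 := this
        simp [h2]
    exact (mul_eq_zero.1 this).resolve_right (X_ne_zero _)
  · have := key ℂ x hx
    rw [h] at this
    exact (mul_eq_zero.1 this.symm).resolve_left (pow_ne_zero _ hx)

theorem diff_aeval {ι : Type} (P : MvPolynomial ι Qb) (x : ι → ℂ → ℂ) (z : ℂ)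
    (hx : ∀ i, DifferentiableAt ℂ (x i) z) :
    DifferentiableAt ℂ (fun w => aeval (fun i => x i w) P) z := by
  induction P using MvPolynomial.induction_on with
  | C a => simp
  | add p q hp hq => simp only [map_add]; exact hp.add hq
  | mul_X p i hp => simp only [map_mul, aeval_X]; exact hp.mul (hx i)

theorem bdd_aeval {ι : Type} (P : MvPolynomial ι Qb) (C : ℝ) :
    ∃ B : ℝ, 0 ≤ B ∧ ∀ x : ι → ℂ, (∀ i, ‖x i‖ ≤ C) → ‖aeval x P‖ ≤ B := by
  induction P using MvPolynomial.induction_on with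
  | C a => exact ⟨‖(a : ℂ)‖, norm_nonneg _, fun x _ => by simp⟩
  | add p q hp hq =>
    obtain ⟨B, hB, h⟩ := hp
    obtain ⟨B', hB', h'⟩ := hq
    exact ⟨B + B', by positivity, fun x hx => by
      rw [map_add]; exact (norm_add_le _ _).trans (add_le_add (h x hx) (h' x hx))⟩
  | mul_X p i hp =>
    obtain ⟨B, hB, h⟩ := hp
    refine ⟨B * |C|, by positivity, fun x hx => ?_⟩
    rw [map_mul, aeval_X, norm_mul]
    exact mul_le_mul (h x hx) ((hx i).trans (le_abs_self _)) (norm_nonneg _) hB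

variable {κ : Type} [Fintype κ] [DecidableEq κ]

theorem th_sum (hB : ThB κ) {M : ℕ} (hM : 0 < M) {ι : Type} (b : ι → (κ → ℚ) → ℂ) (a : ι → ℂ)
    (hb : ∀ i, Lev M (b i)) (ha : ∀ i, Alg (a i)) {τ : Matrix κ κ ℂ} (hτ : InH τ)
    (s : Finset ι) :
    Lev M (∑ i ∈ s, a i • b i) ∧ th (∑ i ∈ s, a i • b i) τ = ∑ i ∈ s, a i * th (b i) τ := by
  classical
  induction s using Finset.induction_on with
  | empty =>
    refine ⟨⟨fun n h => absurd rfl h, fun n k => rfl, fun n => isAlgebraic_zero⟩, ?_⟩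
    simp [th, thz]
  | insert i s hi ih =>
    rw [Finset.sum_insert hi, Finset.sum_insert hi]
    have h1 := hB.levSmul M (a i) (b i) (ha i) (hb i)
    refine ⟨hB.levAdd M _ _ h1 ih.1, ?_⟩
    unfold th at ih ⊢
    rw [hB.add _ _ _ _ ⟨M, hM, h1⟩ ⟨M, hM, ih.1⟩ hτ, hB.smul, ih.2]

omit [Fintype κ] in
theorem shift_symm {τ : Matrix κ κ ℂ} (h : τ.IsSymm) (w : ℂ) :
    (τ + w • (1 : Matrix κ κ ℂ)).IsSymm :=
  h.add (Matrix.isSymm_one.smul w)

theorem shift_big {τ : Matrix κ κ ℂ} {c : ℝ} (h : Big c τ) (w : ℂ) {c' : ℝ}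
    (hc : c' ≤ c + w.im) : Big c' (τ + w • (1 : Matrix κ κ ℂ)) := by
  intro x
  have e : imM (τ + w • (1 : Matrix κ κ ℂ)) = imM τ + w.im • (1 : Matrix κ κ ℝ) := by
    ext i j
    by_cases hij : i = j <;> simp [imM, hij]
  have hx : 0 ≤ x ⬝ᵥ x := Finset.sum_nonneg fun i _ => mul_self_nonneg _
  rw [e, add_mulVec, dotProduct_add, smul_mulVec, one_mulVec, dotProduct_smul, smul_eq_mul]
  nlinarith [h x]

theorem diff_th (hA : ThA κ) {f : (κ → ℚ) → ℂ} (hf : Sch f) (τ : Matrix κ κ ℂ) (z : ℂ)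
    (h : InH (τ + (z * I) • (1 : Matrix κ κ ℂ))) :
    DifferentiableAt ℂ (fun w : ℂ => th f (τ + (w * I) • (1 : Matrix κ κ ℂ))) z := by
  have h1 := (hA.ana f _ 0 hf h).differentiableAt
  obtain ⟨φ, hφ⟩ : ∃ φ : ℂ → (κ → κ → ℂ) × (κ → ℂ),
      φ = fun w => (fun i j => τ i j + w * I * (1 : Matrix κ κ ℂ) i j, 0) := ⟨_, rfl⟩
  have h2 : DifferentiableAt ℂ φ z := by
    rw [hφ]
    refine DifferentiableAt.prodMk ?_ (differentiableAt_const _)
    refine differentiableAt_pi.2 fun i => differentiableAt_pi.2 fun j => ?_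
    fun_prop
  have h3 : ∀ w, φ w = ((τ + (w * I) • (1 : Matrix κ κ ℂ) : Matrix κ κ ℂ), 0) := by
    intro w
    rw [hφ]
    rfl
  have h5 : DifferentiableAt ℂ
      (fun p : (κ → κ → ℂ) × (κ → ℂ) => thz f (Matrix.of p.1) p.2) (φ z) := by
    rw [h3]
    exact h1
  have h4 := h5.comp z h2
  refine h4.congr_of_eventuallyEq (Eventually.of_forall fun w => ?_)
  simp only [Function.comp_apply, h3]
  rfl

/-- the estimate on a half plane -/
theorem pl (F : ℂ → ℂ) (a S x : ℝ) (ha : 0 ≤ a) (hx : 0 ≤ x)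
    (hd : ∀ z : ℂ, 0 ≤ z.re → DifferentiableAt ℂ F z) (hS : ∀ z : ℂ, 0 ≤ z.re → ‖F z‖ ≤ S)
    (hO : (fun t : ℝ => F t) =O[atTop] fun t : ℝ => Real.exp (-(a * t))) :
    ‖F x‖ ≤ S * Real.exp (-(a * x)) := by
  have hn : ∀ z : ℂ, ‖F z * Complex.exp (a * z)‖ = ‖F z‖ * Real.exp (a * z.re) := by
    intro z
    rw [norm_mul, Complex.norm_exp]
    simp
  have main : ‖F x * Complex.exp (a * (x : ℂ))‖ ≤ S := by
    refine PhragmenLindelof.right_half_plane_of_bounded_on_real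
      (f := fun z => F z * Complex.exp (a * z)) ?_ ⟨1, by norm_num, a, ?_⟩ ?_ ?_ (by simpa using hx)
    · refine DifferentiableOn.diffContOnCl fun z hz => ?_
      rw [Complex.closure_setOfPred_lt_re] at hz
      exact ((hd z hz).mul (by fun_prop)).differentiableWithinAt
    · refine IsBigO.of_bound S ?_
      refine Filter.mem_inf_of_right fun z hz => ?_
      have hz' : 0 ≤ z.re := le_of_lt hz
      simp only [Set.mem_ofPred_eq]
      rw [hn, Real.rpow_one, Real.norm_of_nonneg (Real.exp_pos _).le]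
      exact mul_le_mul (hS z hz') (Real.exp_le_exp.2
        (mul_le_mul_of_nonneg_left (Complex.re_le_norm z) ha)) (Real.exp_pos _).le
        ((norm_nonneg _).trans (hS z hz'))
    · obtain ⟨C, hC⟩ := hO.bound
      refine ⟨C, ?_⟩
      rw [eventually_map]
      filter_upwards [hC] with t ht
      rw [hn, Complex.ofReal_re]
      rw [Real.norm_of_nonneg (Real.exp_pos _).le] at ht
      calc ‖F t‖ * Real.exp (a * t) ≤ C * Real.exp (-(a * t)) * Real.exp (a * t) :=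
            mul_le_mul_of_nonneg_right ht (Real.exp_pos _).le
        _ = C := by rw [mul_assoc, ← Real.exp_add]; simp
    · intro t
      rw [hn]
      simpa using hS (t * I) (by simp)
  rw [hn, Complex.ofReal_re] at main
  rw [Real.exp_neg, ← div_eq_mul_inv, le_div_iff₀ (Real.exp_pos _)]
  exact main

end SiegX

open SiegX

theorem nz (hB : All ThB) (hW : All Weil1) (hL : All Lv) (hR : All Red) : All Nz := by
  intro κ _ _
  obtain ⟨c, hc, hred⟩ := hR κ
  obtain ⟨K, hK, h1⟩ := (hB κ).one c hc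
  have hM : 0 < K * 2 := by omega
  obtain ⟨ρ, _, T, U, hTU, hfin⟩ := (hL κ).fin (K * 2) hM (by simp)
  have hl : Lev (K * 2) (ind K : (κ → ℚ) → ℂ) := (hB κ).levInd K _ (Dvd.intro _ rfl) hM
  refine ⟨K * 2, hM, fun τ hτ => ?_⟩
  obtain ⟨γ, τ₀, hγ, hc1, h0, hbig, rfl⟩ := hred τ hτ
  obtain ⟨r, j, hj, hrel⟩ := hfin γ hγ hc1
  refine ⟨U r (ind K), (hTU r _ hl).2, ?_⟩
  rw [((hW κ).relGr γ j _ _ τ₀ hγ ⟨_, hM, hl⟩ (hrel _ hl).2 h0).1]
  refine mul_ne_zero (hj _ h0) fun h => ?_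
  have := h1 τ₀ h0.1 hbig
  rw [h, norm_zero] at this
  norm_num at this

theorem sieg (hA : All ThA) (hB : All ThB) (hC : All Act) (hW : All Weil1) (hL : All Lv)
    (hR : All Red) (hQ : All Qexp) : All Sieg := by
  intro κ _ _ ι _ f₀ f hf₀ hf hcard
  have hA := hA κ
  have hB := hB κ
  obtain ⟨c, hc, hred⟩ := hR κ
  obtain ⟨K, hK, h1⟩ := hB.one c hc
  set g : Option ι → (κ → ℚ) → ℂ := fun o => o.elim f₀ f with hg
  obtain ⟨M, hM, hMe, hlev⟩ := hB.common (Option (Option ι)) (fun o => o.elim (ind K) g) (by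
    rintro (_ | _ | i)
    · exact ⟨K, hK, hB.levInd K K dvd_rfl hK⟩
    · exact hf₀
    · exact hf i)
  have hl : Lev M (ind K : (κ → ℚ) → ℂ) := hlev none
  have hgl : ∀ o, Lev M (g o) := fun o => hlev (some o)
  obtain ⟨ρ, _, T, U, hTU, hfin⟩ := (hL κ).fin M hM hMe
  obtain ⟨β, _, b, hb, hbas⟩ := hB.basis M hM
  have hbl : ∀ i, Lev M (b i) := fun i => (hb i).1
  choose a ha hU using fun r => hbas (U r (ind K)) (hTU r _ hl).2
  -- the constants
  obtain ⟨A, hA0, hAr⟩ : ∃ A : ℝ, 0 < A ∧ ∀ r i, ‖a r i‖ ≤ A := by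
    obtain ⟨A, hA⟩ := (Set.finite_range fun p : ρ × β => ‖a p.1 p.2‖).bddAbove
    exact ⟨|A| + 1, by positivity, fun r i =>
      (hA ⟨(r, i), rfl⟩).trans ((le_abs_self _).trans (by linarith))⟩
  obtain ⟨C, hC0, hCr⟩ : ∃ C : ℝ, 0 < C ∧ ∀ r (τ : Matrix κ κ ℂ), τ.IsSymm → Big (c / 2) τ →
      ∑ i, ‖th (T r (b i)) τ‖ ≤ C := by
    choose C hC using fun p : ρ × β =>
      hB.bdd (T p.1 (b p.2)) (c / 2) ⟨M, hM, (hTU _ _ (hbl _)).1⟩ (by positivity)
    obtain ⟨D, hD⟩ := (Set.finite_range fun r : ρ => ∑ i, C (r, i)).bddAbove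
    exact ⟨|D| + 1, by positivity, fun r τ hs hτ =>
      (Finset.sum_le_sum fun i _ => hC (r, i) τ hs hτ).trans
        ((hD ⟨r, rfl⟩).trans ((le_abs_self _).trans (by linarith)))⟩
  obtain ⟨D, hD⟩ : ∃ D : ℝ, ∀ r o (τ : Matrix κ κ ℂ), τ.IsSymm → Big c τ →
      ‖th (T r (g o)) τ‖ ≤ D := by
    choose C hC using fun p : ρ × Option ι =>
      hB.bdd (T p.1 (g p.2)) c ⟨M, hM, (hTU _ _ (hgl _)).1⟩ hc
    obtain ⟨D, hD⟩ := (Set.finite_range C).bddAbove
    exact ⟨D, fun r o τ hs hτ => (hC (r, o) τ hs hτ).trans (hD ⟨(r, o), rfl⟩)⟩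
  obtain ⟨L, hLc⟩ : ∃ L : ℕ, 2 * A * C * Real.exp (-(L * (c / 2))) ≤ 1 / 2 := by
    obtain ⟨L, hL⟩ := exists_nat_ge (4 * A * C / (c / 2))
    refine ⟨L, ?_⟩
    rw [div_le_iff₀ (by positivity)] at hL
    rw [Real.exp_neg, ← div_eq_mul_inv, div_le_iff₀ (Real.exp_pos _)]
    have := Real.add_one_le_exp (L * (c / 2))
    linarith
  obtain ⟨k, P, hk, hP0, hP, hO⟩ := hQ κ M ρ (Option ι) (fun r o => T r (g o)) L hM
    (fun r o => (hTU _ _ (hgl _)).1) (by rw [Fintype.card_option]; omega)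
  obtain ⟨B, hB0, hBd⟩ := bdd_aeval P D
  set w : Matrix κ κ ℂ → ℝ := fun τ => ∑ i, ‖th (b i) τ‖ with hw
  set F : Matrix κ κ ℂ → ℂ := fun τ => aeval (fun o => th (g o) τ) P with hF
  have hw0 : ∀ τ, 0 ≤ w τ := fun τ => Finset.sum_nonneg fun i _ => norm_nonneg _
  -- the transformation rules
  have tr : ∀ γ, Sp γ → Cong 1 γ → ∃ (r : ρ) (j : Matrix κ κ ℂ → ℂ), ∀ τ, InH τ → j τ ≠ 0 ∧
      F (act γ τ) = j τ ^ k * aeval (fun o => th (T r (g o)) τ) P ∧
      w (act γ τ) = ‖j τ‖ * ∑ i, ‖th (T r (b i)) τ‖ ∧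
      (Big c τ → ‖j τ‖ ≤ 2 * A * w (act γ τ)) := by
    intro γ hγ hc1
    obtain ⟨r, j, hj, hrel⟩ := hfin γ hγ hc1
    refine ⟨r, j, fun τ hτ => ?_⟩
    have e : ∀ f, Lev M f → th f (act γ τ) = j τ * th (T r f) τ := fun f hf =>
      ((hW κ).relGr γ j _ _ τ hγ ⟨M, hM, (hTU _ _ hf).1⟩ (hrel _ hf).1 hτ).1
    refine ⟨hj τ hτ, ?_, ?_, fun hbig => ?_⟩
    · rw [← aeval_smul hP]
      simp only [hF, e _ (hgl _)]
    · simp only [hw, e _ (hbl _), norm_mul, Finset.mul_sum]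
    · have e1 := ((hW κ).relGr γ j _ _ τ hγ ⟨M, hM, hl⟩ (hrel _ hl).2 hτ).1
      rw [hU r, (th_sum hB hM b (a r) hbl (ha r) ((hC κ).inH γ τ hγ hτ).1 _).2] at e1
      have e2 : ‖j τ‖ * ‖th (ind K) τ‖ ≤ A * w (act γ τ) := by
        rw [← norm_mul, ← e1, hw, Finset.mul_sum]
        refine (norm_sum_le _ _).trans (Finset.sum_le_sum fun i _ => ?_)
        rw [norm_mul]
        exact mul_le_mul_of_nonneg_right (hAr r i) (norm_nonneg _)
      have := h1 τ hτ.1 hbig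
      nlinarith [norm_nonneg (j τ)]
  have start : ∀ τ, InH τ → ‖F τ‖ ≤ B * (2 * A) ^ k * w τ ^ k := by
    intro τ hτ
    obtain ⟨γ, τ₀, hγ, hc1, h0, hbig, rfl⟩ := hred τ hτ
    obtain ⟨r, j, hj⟩ := tr γ hγ hc1
    obtain ⟨-, e1, -, e3⟩ := hj τ₀ h0
    rw [e1, norm_mul, norm_pow, mul_assoc, ← mul_pow, mul_comm]
    exact mul_le_mul (hBd _ fun o => hD r o τ₀ h0.1 hbig)
      (pow_le_pow_left₀ (norm_nonneg _) (e3 hbig) k) (by positivity) hB0
  have step : ∀ s : ℝ, 0 ≤ s → (∀ τ, InH τ → ‖F τ‖ ≤ s * w τ ^ k) →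
      ∀ τ, InH τ → ‖F τ‖ ≤ s / 2 * w τ ^ k := by
    intro s hs hyp τ hτ
    obtain ⟨γ, τ₀, hγ, hc1, h0, hbig, rfl⟩ := hred τ hτ
    obtain ⟨r, j, hj⟩ := tr γ hγ hc1
    set τ₁ : Matrix κ κ ℂ := τ₀ + (-((c / 2 : ℝ) : ℂ) * I) • (1 : Matrix κ κ ℂ) with hτ₁
    have s1 : τ₁.IsSymm := shift_symm h0.1 _
    have b1 : Big (c / 2) τ₁ := shift_big hbig _ (by simp)
    have bz : ∀ z : ℂ, 0 ≤ z.re → Big (c / 2) (τ₁ + (z * I) • (1 : Matrix κ κ ℂ)) :=
      fun z hz => shift_big b1 _ (by simpa using hz)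
    have hz : ∀ z : ℂ, 0 ≤ z.re → InH (τ₁ + (z * I) • (1 : Matrix κ κ ℂ)) :=
      fun z hz => hB.big (c / 2) _ (by positivity) (shift_symm s1 _) (bz z hz)
    have main := pl (fun z : ℂ =>
        aeval (fun o => th (T r (g o)) (τ₁ + (z * I) • (1 : Matrix κ κ ℂ))) P)
      (L * k) (s * C ^ k) (c / 2) (by positivity) (by positivity)
      (fun z h => diff_aeval P _ z fun o =>
        diff_th hA ⟨M, hM, (hTU _ _ (hgl _)).1⟩ τ₁ z (hz z h))
      (fun z h => by
        obtain ⟨j0, e1, e2, -⟩ := hj _ (hz z h)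
        have := hyp _ ((hC κ).inH γ _ hγ (hz z h)).1
        rw [e1, e2, norm_mul, norm_pow, mul_pow, mul_left_comm] at this
        refine (le_of_mul_le_mul_left this (pow_pos (norm_pos_iff.2 j0) k)).trans ?_
        exact mul_le_mul_of_nonneg_left (pow_le_pow_left₀
          (Finset.sum_nonneg fun i _ => norm_nonneg _) (hCr r _ (shift_symm s1 _) (bz z h)) k) hs)
      (hO r τ₁ (hB.big (c / 2) _ (by positivity) s1 b1))
    have e0 : τ₁ + (((c / 2 : ℝ) : ℂ) * I) • (1 : Matrix κ κ ℂ) = τ₀ := by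
      rw [hτ₁, add_assoc, ← add_smul]; simp
    simp only [e0] at main
    obtain ⟨-, e1, -, e3⟩ := hj τ₀ h0
    have e4 : Real.exp (-(L * k * (c / 2))) = Real.exp (-(L * (c / 2))) ^ k := by
      rw [← Real.exp_nat_mul]; congr 1; ring
    have e5 : (2 * A * C * Real.exp (-(L * (c / 2)))) ^ k ≤ 1 / 2 :=
      (pow_le_of_le_one (by positivity) (hLc.trans (by norm_num)) hk.ne').trans hLc
    rw [e1, norm_mul, norm_pow]
    calc _ ≤ (2 * A * w (act γ τ₀)) ^ k * (s * C ^ k * Real.exp (-(L * k * (c / 2)))) :=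
          mul_le_mul (pow_le_pow_left₀ (norm_nonneg _) (e3 hbig) k) main (norm_nonneg _)
            (pow_nonneg (mul_nonneg (by positivity) (hw0 _)) _)
      _ = s * (2 * A * C * Real.exp (-(L * (c / 2)))) ^ k * w (act γ τ₀) ^ k := by
          rw [e4]; simp only [mul_pow]; ring
      _ ≤ s * (1 / 2) * w (act γ τ₀) ^ k :=
          mul_le_mul_of_nonneg_right (mul_le_mul_of_nonneg_left e5 hs) (pow_nonneg (hw0 _) _)
      _ = _ := by ring
  have all : ∀ n : ℕ, ∀ τ, InH τ → ‖F τ‖ ≤ B * (2 * A) ^ k * (1 / 2) ^ n * w τ ^ k := by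
    intro n
    induction n with
    | zero => simpa using start
    | succ n ih =>
      intro τ hτ
      have := step _ (by positivity) ih τ hτ
      calc _ ≤ _ := this
        _ = _ := by ring
  have zero : ∀ τ, InH τ → F τ = 0 := by
    intro τ hτ
    have ht : Tendsto (fun n : ℕ => B * (2 * A) ^ k * (1 / 2 : ℝ) ^ n * w τ ^ k) atTop
        (𝓝 (B * (2 * A) ^ k * 0 * w τ ^ k)) :=
      ((tendsto_pow_atTop_nhds_zero_of_lt_one (by norm_num) (by norm_num)).const_mul _).mul_const _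
    have := ge_of_tendsto' ht fun n => all n τ hτ
    simpa using this
  obtain ⟨Q, hQ0, hQ⟩ := dehom hP hP0
  exact ⟨Q, hQ0, fun τ hτ h => hQ (fun o => th (g o) τ) h (zero τ hτ)⟩

end

end Pool.Agent.GAM

end MrgPart3

-- ======== part 4: formerly Pool.Agent.MP_cbf1af_ag.gam.Split
section MrgPart4

/-! PROJECT GAM, row SPLIT: values at the split points. -/

namespace Pool.Agent.GAM

open Matrix Complex

namespace Spt

variable {E : Type} [Field E] [NumberField E] (F : Fam E)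

omit [NumberField E] in
theorem cj_cj (σ : Emb E) : cj (cj σ) = σ := NumberField.ComplexEmbedding.involutive_conjugate E σ

theorem sum_em (hK : CmA E F.c) {σ : Emb E} (hσ : σ ∈ F.Φ₁ ∨ σ ∈ F.Φ₂) (g : Emb E → ℂ) :
    ∑ ρ, (if F.em ρ = σ then g ρ else 0) =
      g σ + if σ ∈ F.Φ₁ ∧ σ ∈ F.Φ₂ then g (cj σ) else 0 := by
  have h : ∀ ρ, (if F.em ρ = σ then g ρ else 0) = (if ρ = σ then g ρ else 0) +
      if ρ = cj σ then (if σ ∈ F.Φ₁ ∧ σ ∈ F.Φ₂ then g ρ else 0) else 0 := by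
    intro ρ
    by_cases h1 : ρ = σ
    · subst h1
      rw [if_pos (show F.em ρ = ρ from if_pos hσ), if_pos rfl, if_neg (hK.ne ρ).symm, add_zero]
    · rw [if_neg h1, zero_add]
      by_cases h2 : ρ = cj σ
      · subst h2
        rw [if_pos rfl]
        refine if_congr ?_ rfl rfl
        unfold Fam.em
        rw [F.h₁ σ, F.h₂ σ]
        split_ifs with h3
        · exact iff_of_false h1 (by tauto)
        · exact iff_of_true (cj_cj σ) (by tauto)
      · rw [if_neg h2, if_neg]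
        unfold Fam.em
        split_ifs
        · exact h1
        · rintro rfl
          exact h2 (cj_cj ρ).symm
  simp only [h, Finset.sum_add_distrib, Finset.sum_ite_eq', Finset.mem_univ, if_true]

/-- the block of the isogeny -/
noncomputable def blk (y : F.Jn → ℂ) (Ψ : Finset (Emb E)) (e : Fin 2 → E) : Matrix Ψ (Emb E) ℂ :=
  Matrix.of fun σ ρ => if F.em ρ = σ.1 then F.ell y ρ e else 0

theorem pt_blk {y : F.Jn → ℂ} {Ψ : Finset (Emb E)} {e : Fin 2 → E}
    (h : ∀ ρ, F.em ρ ∉ Ψ → F.ell y ρ e = 0) (x : E) (ρ : Emb E) :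
    ∑ σ : Ψ, σ.1 x * blk F y Ψ e σ ρ = F.em ρ x * F.ell y ρ e := by
  by_cases hm : F.em ρ ∈ Ψ
  · rw [Finset.sum_eq_single ⟨_, hm⟩]
    · simp [blk]
    · intro σ _ hσ
      rw [blk, of_apply, if_neg fun e => hσ (Subtype.ext e.symm), mul_zero]
    · simp
  · rw [h ρ hm, mul_zero]
    refine Finset.sum_eq_zero fun σ _ => ?_
    rw [blk, of_apply, if_neg fun e : F.em ρ = σ.1 => hm (e ▸ σ.2), mul_zero]

theorem key (hG : All AfC) (hF : FamA F) {y : F.Jn → ℂ} (hy : y ∈ F.D) (ha : AlgPt (F.tau y))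
    {Ψ : Finset (Emb E)} {e : Fin 2 → E} (h : ∀ ρ, F.em ρ ∉ Ψ → F.ell y ρ e = 0)
    {Q : Emb E → ℂ} (hQ : Per Ψ Q) {f f₀ : (Emb E → ℚ) → ℂ} (hf : Sch f) (hf₀ : Sch f₀)
    (h0 : th f₀ (F.tau y) ≠ 0) {σ : Emb E} (hσ : σ ∈ Ψ) :
    Alg ((∑ ρ, if F.em ρ = σ then F.ell y ρ e * F.Gr f y ρ else 0) /
      (Q σ * th f₀ (F.tau y))) := by
  have := (hG _).gr Ψ (F.tau y) _ _ (blk F y Ψ e * (F.sig y).toRows₂⁻¹) f f₀ ha hQ.2 (by
    rintro _ ⟨x, rfl⟩
    rw [← vecMul_vecMul]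
    have e1 : pt Ψ x ᵥ* blk F y Ψ e = fun ρ => F.ell y ρ (x • e) := by
      funext ρ
      rw [hF.smul, ← pt_blk F h]
      rfl
    rw [e1]
    exact hF.tor y hy _) hf hf₀ h0 ⟨σ, hσ⟩
  rw [← mulVec_mulVec] at this
  convert this using 2
  simp only [mulVec, dotProduct, blk, of_apply, ite_mul, zero_mul]
  rfl

/-- first coordinate -/
noncomputable def co0 (a b : E) : (Fin 2 → E) →ₗ[E] E :=
  (F.c a / F.nm a b) • LinearMap.proj 0 + (F.d * F.c b / F.nm a b) • LinearMap.proj 1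

/-- second coordinate -/
noncomputable def co1 (a b : E) : (Fin 2 → E) →ₗ[E] E :=
  (a / F.nm a b) • LinearMap.proj 1 - (b / F.nm a b) • LinearMap.proj 0

theorem co0_apply (a b : E) (x : Fin 2 → E) :
    co0 F a b x = (F.c a * x 0 + F.d * F.c b * x 1) / F.nm a b := by
  simp [co0]; ring

theorem co1_apply (a b : E) (x : Fin 2 → E) :
    co1 F a b x = (a * x 1 - b * x 0) / F.nm a b := by
  simp [co1]; ring

theorem dec {a b : E} (hn : F.nm a b ≠ 0) (x : Fin 2 → E) :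
    x = co0 F a b x • ![a, b] + co1 F a b x • ![-(F.d * F.c b), F.c a] := by
  funext i
  rw [co0_apply, co1_apply]
  fin_cases i
  · simp only [Fin.zero_eta, Pi.add_apply, Pi.smul_apply, cons_val_zero, smul_eq_mul]
    field_simp
    unfold Fam.nm
    ring
  · simp only [Fin.mk_one, Pi.add_apply, Pi.smul_apply, cons_val_one, cons_val_zero, smul_eq_mul]
    field_simp
    unfold Fam.nm
    ring

theorem ell_dec (hF : FamA F) {a b : E} (hn : F.nm a b ≠ 0) (y : F.Jn → ℂ) (ρ : Emb E)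
    (x : Fin 2 → E) : F.ell y ρ x = F.em ρ (co0 F a b x) * F.ell y ρ ![a, b] +
      F.em ρ (co1 F a b x) * F.ell y ρ ![-(F.d * F.c b), F.c a] := by
  obtain ⟨l, hl⟩ := hF.lin y ρ
  rw [← hF.smul, ← hF.smul, ← hl, ← hl, ← hl, ← map_add, ← dec F hn]

theorem ell_one (y : F.Jn → ℂ) (ρ : Emb E) : ∃ x, F.ell y ρ x = 1 := by
  unfold Fam.ell
  split_ifs
  · exact ⟨![1, 0], by simp⟩
  · exact ⟨![0, 1], by simp⟩
  · exact ⟨![0, 1], by simp⟩

/-- the automorphism which acts by `u`, `u'` on the two factors -/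
noncomputable def aut (a b u u' : E) : (Fin 2 → E) →ₗ[E] Fin 2 → E :=
  (u • co0 F a b).smulRight ![a, b] + (u' • co1 F a b).smulRight ![-(F.d * F.c b), F.c a]

theorem aut_apply (a b u u' : E) (x : Fin 2 → E) : aut F a b u u' x =
    (u * co0 F a b x) • ![a, b] + (u' * co1 F a b x) • ![-(F.d * F.c b), F.c a] := rfl

theorem co0_aut {a b : E} (hn : F.nm a b ≠ 0) (u u' : E) (x : Fin 2 → E) :
    co0 F a b (aut F a b u u' x) = co0 F a b x * u := by
  rw [aut_apply, co0_apply F a b (_ + _)]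
  simp only [Pi.add_apply, Pi.smul_apply, cons_val_one, cons_val_zero, smul_eq_mul]
  field_simp
  unfold Fam.nm
  ring

theorem co1_aut {a b : E} (hn : F.nm a b ≠ 0) (u u' : E) (x : Fin 2 → E) :
    co1 F a b (aut F a b u u' x) = co1 F a b x * u' := by
  rw [aut_apply, co1_apply F a b (_ + _)]
  simp only [Pi.add_apply, Pi.smul_apply, cons_val_one, cons_val_zero, smul_eq_mul]
  field_simp
  unfold Fam.nm
  ring

theorem psi_dec (hK : CmA E F.c) (hF : FamA F) (h0 : F.ξ 0 ≠ 0) (a b s s' t t' : E) :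
    psi F.c F.ξ (s • ![a, b] + s' • ![-(F.d * F.c b), F.c a])
      (t • ![a, b] + t' • ![-(F.d * F.c b), F.c a]) =
      Algebra.trace ℚ E (F.ξ 0 * F.nm a b * (s * F.c t + F.d * (s' * F.c t'))) := by
  unfold psi
  rw [Fin.sum_univ_two, ← map_add]
  congr 1
  have h1 : F.ξ 1 = F.ξ 0 * F.d := by unfold Fam.d; field_simp
  simp only [Pi.add_apply, Pi.smul_apply, cons_val_one, cons_val_zero, smul_eq_mul, map_add,
    map_mul, map_neg, hK.cc, hF.cd, h1]
  unfold Fam.nm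
  ring

theorem algPt (hC : All Act) (hM : All CmAlg) (hK : CmA E F.c) (hF : FamA F) {y : F.Jn → ℂ}
    {Φ Φ' : Finset (Emb E)} (h : F.Spl y Φ Φ') : AlgPt (F.tau y) := by
  obtain ⟨hy, t1, t2, -, -, a, b, hn, he⟩ := h
  obtain ⟨u, u1, u2, -⟩ := hK.unit ∅
  obtain ⟨u', u1', u2', u3'⟩ := hK.unit (Finset.univ.image fun σ : Emb E => (σ u)⁻¹)
  have h0 : F.ξ 0 ≠ 0 := fun h0 => by
    have h1 := hK.card _ F.h₁
    have h2 : 0 < Module.finrank ℚ E := Module.finrank_pos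
    obtain ⟨σ, hσ⟩ := Finset.card_pos.1 (show 0 < F.Φ₁.card by omega)
    have := F.p₁.2 σ hσ
    simp [h0] at this
  have same : ∀ (Ψ : Finset (Emb E)) (w : E), IsType Ψ → w * F.c w = 1 →
      (Function.Injective fun σ : Emb E => σ w) → ∀ σ τ : Ψ, σ.1 w * τ.1 w ≠ 1 := by
    intro Ψ w t w1 w2 σ τ e
    have e1 : τ.1 w * cj τ.1 w = 1 := by rw [hK.cjc, RingHom.comp_apply, ← map_mul, w1, map_one]
    have e2 : σ.1 w = cj τ.1 w := by linear_combination (cj τ.1 w) * e - σ.1 w * e1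
    exact (t τ.1).1 τ.2 (w2 e2 ▸ σ.2)
  have cross : ∀ σ τ : Emb E, σ u * τ u' ≠ 1 := fun σ τ e =>
    u3' τ (Finset.mem_image.2 ⟨σ, Finset.mem_univ _, (eq_inv_of_mul_eq_one_right e).symm⟩)
  let φ := (aut F a b u u').restrictScalars ℚ
  have hsp : Sp (mat F.β φ) := hK.sp _ _ F.ξ F.β φ F.hβ fun x x' => by
    conv_rhs => rw [dec F hn x, dec F hn x', psi_dec F hK hF h0]
    change psi F.c F.ξ (aut F a b u u' x) (aut F a b u u' x') = _
    rw [aut_apply, aut_apply, psi_dec F hK hF h0]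
    congr 2
    rw [map_mul, map_mul]
    linear_combination (co0 F a b x * F.c (co0 F a b x')) * u1 +
      F.d * (co1 F a b x * F.c (co1 F a b x')) * u1'
  refine hM _ _ ((hC _).cmpt (mat F.β φ) (F.sig y) (Φ ⊕ Φ')
    (Matrix.of fun r => Sum.elim (fun σ => σ.1 (co0 F a b (F.β r))) fun σ => σ.1 (co1 F a b (F.β r)))
    (Matrix.fromRows (blk F y Φ ![a, b]) (blk F y Φ' ![-(F.d * F.c b), F.c a]))
    (Sum.elim (fun σ => σ.1 u) fun σ => σ.1 u') hsp (hF.riem y hy) ?_ ?_ ?_ ?_)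
  · have h1 := hK.card _ t1
    have h2 := hK.card _ t2
    rw [Fintype.card_sum, Fintype.card_coe, Fintype.card_coe, NumberField.Embeddings.card]
    omega
  · ext r ρ
    rw [mul_apply, Fintype.sum_sum_type]
    simp only [of_apply, Sum.elim_inl, Sum.elim_inr, fromRows_apply_inl, fromRows_apply_inr]
    rw [pt_blk F fun ρ => (he ρ).1, pt_blk F fun ρ => (he ρ).2, ← ell_dec F hF hn]
    rfl
  · ext r i
    rw [mul_diagonal, mul_apply]
    rcases i with σ | σ
    · have := hK.matMul _ _ F.β φ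
        (σ.1.toRatAlgHom.toLinearMap ∘ₗ (co0 F a b).restrictScalars ℚ) r
      refine this.trans ?_
      change σ.1 (co0 F a b (aut F a b u u' (F.β r))) = _
      rw [co0_aut F hn, map_mul]
      rfl
    · have := hK.matMul _ _ F.β φ
        (σ.1.toRatAlgHom.toLinearMap ∘ₗ (co1 F a b).restrictScalars ℚ) r
      refine this.trans ?_
      change σ.1 (co1 F a b (aut F a b u u' (F.β r))) = _
      rw [co1_aut F hn, map_mul]
      rfl
  · rintro (σ | σ) (τ | τ)
    · exact same Φ u t1 u1 u2 σ τ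
    · exact cross _ _
    · rw [mul_comm]; exact cross _ _
    · exact same Φ' u' t2 u1' u2' σ τ

/-- the indefinite case -/
theorem indef {θ p p' q' G G' t w w' l l' : ℂ} (hθ : θ ≠ 0) (hp : p ≠ 0)
    (hq : p' * q' = 2 * Real.pi * I) (hw : Alg w) (hw' : Alg w') (e : w * l = 1) (e' : w' * l' = 1)
    (a : Alg (l * G / (p * θ))) (a' : Alg (l' * G' / (q' * θ))) (ht : Alg (t / θ)) :
    Alg (G' * t / (q' * θ ^ 2)) ∧ Alg (G * t / (q' * θ ^ 2 * (p * p' / (2 * Real.pi * I)))) := by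
  have h0 : p' * q' ≠ 0 := hq ▸ two_pi_I_ne_zero
  have h1 := left_ne_zero_of_mul h0
  have h2 := right_ne_zero_of_mul h0
  constructor
  · convert hw'.mul (a'.mul ht) using 1
    rw [show G' * t = w' * l' * (G' * t) by rw [e', one_mul]]
    field_simp
  · convert hw.mul (a.mul ht) using 1
    rw [show G * t = w * l * (G * t) by rw [e, one_mul], ← hq]
    field_simp

end Spt

open Spt in
theorem split (hT : All ThC) (hC : All Act) (hM : All CmAlg) (hG : All AfC) (hK : AllC)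
    (hF : AllF FamA) : AllF Split := by
  intro E _ _ F y Φ Φ' P P' h hP hP'
  have K := hK E F.c F.hc
  have A := hF E F
  have ha := algPt F hC hM K A h
  refine ⟨ha, fun σ hσ => ?_⟩
  obtain ⟨hy, t1, t2, hi, hu, a, b, hn, he⟩ := h
  obtain ⟨f₀, s₀, h0⟩ := (hT _).nz _ ha.1
  have k1 := fun f hf τ hτ => key F hG A hy ha (fun ρ => (he ρ).1) hP (f := f) hf s₀ h0 (σ := τ) hτ
  have k2 := fun f hf τ hτ => key F hG A hy ha (fun ρ => (he ρ).2) hP' (f := f) hf s₀ h0 (σ := τ) hτ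
  have p0 : ∀ τ, P τ ≠ 0 := fun τ => left_ne_zero_of_mul (hP.1 τ ▸ two_pi_I_ne_zero)
  have p0' : ∀ τ, P' τ ≠ 0 := fun τ => left_ne_zero_of_mul (hP'.1 τ ▸ two_pi_I_ne_zero)
  by_cases h2 : σ ∈ F.Φ₂
  · have hm : σ ∈ Φ ∩ Φ' := hi ▸ Finset.mem_inter.2 ⟨hσ, h2⟩
    obtain ⟨m1, m2⟩ := Finset.mem_inter.1 hm
    have l1 : ∀ x, F.ell y σ x = σ (x 0) := fun x => by
      simp [Fam.ell, Fam.ex, hσ, h2]
    have l2 : ∀ x, F.ell y (cj σ) x = σ (x 1) := fun x => by
      rw [Fam.ell, if_neg ((F.h₁ σ).1 hσ), if_neg ((F.h₂ σ).1 h2), cj_cj]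
    refine ⟨th f₀ (F.tau y) ^ 2, pow_ne_zero _ h0, fun f f' hf hf' => ⟨?_, ?_⟩⟩
    · convert (ha.2 f f₀ hf s₀ h0).mul (ha.2 f' f₀ hf' s₀ h0) using 1
      rw [Fam.den, if_pos h2]
      field_simp
    · have a1 := k1 f hf σ m1
      have a2 := k2 f hf σ m2
      have a3 := k1 f' hf' σ m1
      have a4 := k2 f' hf' σ m2
      rw [sum_em F K (Or.inl hσ), if_pos ⟨hσ, h2⟩, l1, l2] at a1 a2 a3 a4
      have n0 : σ (F.nm a b) ≠ 0 := (map_ne_zero σ).2 hn
      convert ((a1.mul a4).sub (a2.mul a3)).mul (K.alg σ (F.nm a b)).inv using 1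
      have := p0 σ
      have := p0' σ
      rw [Fam.num, if_pos h2, if_pos h2]
      field_simp
      simp only [Fam.nm, cons_val_zero, cons_val_one, map_add, map_mul, map_neg]
      ring
  · have c1 : cj σ ∉ F.Φ₁ := (F.h₁ σ).1 hσ
    have c2 : cj σ ∈ F.Φ₂ := by
      by_contra h'
      exact h2 ((F.h₂ σ).2 h')
    have e1 : F.em σ = σ := if_pos (Or.inl hσ)
    have e2 : F.em (cj σ) = cj σ := if_pos (Or.inr c2)
    have s1 : ∀ g : Emb E → ℂ, ∑ ρ, (if F.em ρ = σ then g ρ else 0) = g σ := fun g => by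
      rw [sum_em F K (Or.inl hσ), if_neg fun h => h2 h.2, add_zero]
    have s2 : ∀ g : Emb E → ℂ, ∑ ρ, (if F.em ρ = cj σ then g ρ else 0) = g (cj σ) := fun g => by
      rw [sum_em F K (Or.inr c2), if_neg fun h => c1 h.1, add_zero]
    obtain ⟨x, hx⟩ := ell_one F y σ
    obtain ⟨x', hx'⟩ := ell_one F y (cj σ)
    rw [ell_dec F A hn] at hx hx'
    simp only [Fam.num, Fam.den, if_neg h2]
    by_cases m1 : σ ∈ Φ
    · have m2 : σ ∉ Φ' := fun h' => h2 (Finset.mem_inter.1 (hi ▸ Finset.mem_inter.2 ⟨m1, h'⟩)).2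
      have m3 : cj σ ∈ Φ' := by
        by_contra h'
        exact m2 ((t2 σ).2 h')
      rw [(he σ).2 (e1.symm ▸ m2), mul_zero, add_zero] at hx
      rw [(he (cj σ)).1 (e2.symm ▸ (t1 σ).1 m1), mul_zero, zero_add] at hx'
      refine ⟨P' (cj σ) * th f₀ (F.tau y) ^ 2, mul_ne_zero (p0' _) (pow_ne_zero _ h0),
        fun f f' hf hf' => ?_⟩
      have a1 := k1 f hf σ m1
      have a2 := k2 f hf _ m3
      rw [s1] at a1
      rw [s2] at a2
      exact indef h0 (p0 σ) (hP'.1 σ) (K.alg _ _) (K.alg _ _) hx hx' a1 a2 (ha.2 f' f₀ hf' s₀ h0)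
    · have m2 : σ ∈ Φ' :=
        (Finset.mem_union.1 (hu ▸ Finset.mem_union.2 (Or.inl hσ))).resolve_left m1
      have m3 : cj σ ∈ Φ := by
        by_contra h'
        exact m1 ((t1 σ).2 h')
      rw [(he σ).1 (e1.symm ▸ m1), mul_zero, zero_add] at hx
      rw [(he (cj σ)).2 (e2.symm ▸ (t2 σ).1 m2), mul_zero, add_zero] at hx'
      refine ⟨P (cj σ) * th f₀ (F.tau y) ^ 2, mul_ne_zero (p0 _) (pow_ne_zero _ h0),
        fun f f' hf hf' => ?_⟩
      have a1 := k2 f hf σ m2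
      have a2 := k1 f hf _ m3
      rw [s1] at a1
      rw [s2] at a2
      rw [mul_comm (P σ)]
      exact indef h0 (p0' σ) (hP.1 σ) (K.alg _ _) (K.alg _ _) hx hx' a1 a2 (ha.2 f' f₀ hf' s₀ h0)

end Pool.Agent.GAM

end MrgPart4

-- ======== part 5: formerly Pool.Agent.MP_cbf1af_ag.gam.Tay
section MrgPart5

/-! PROJECT GAM: Taylor series and derivations acting on coefficients. -/

namespace Pool.Agent.GAM

open Matrix Complex Filter Topology MvPolynomial

noncomputable section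

namespace TayA

lemma coeff_tay (f : ℂ → ℂ) (n : ℕ) :
    PowerSeries.coeff n (tay f) = iteratedDeriv n f 0 / n.factorial := by simp [tay]

lemma coeff_dl (δ : Derivation ℚ ℂ ℂ) (φ : PowerSeries ℂ) (n : ℕ) :
    PowerSeries.coeff n (dl δ φ) = δ (PowerSeries.coeff n φ) := by simp [dl]

lemma fact_ne (n : ℕ) : (n.factorial : ℂ) ≠ 0 := by exact_mod_cast n.factorial_ne_zero

lemma t_congr {f g : ℂ → ℂ} (h : f =ᶠ[𝓝 0] g) : tay f = tay g := by
  ext n; rw [coeff_tay, coeff_tay, h.iteratedDeriv_eq]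

lemma t_add {f g : ℂ → ℂ} (hf : AnalyticAt ℂ f 0) (hg : AnalyticAt ℂ g 0) :
    tay (fun x => f x + g x) = tay f + tay g := by
  ext n
  rw [map_add, coeff_tay, coeff_tay, coeff_tay,
    iteratedDeriv_fun_add hf.contDiffAt hg.contDiffAt, add_div]

lemma t_mul {f g : ℂ → ℂ} (hf : AnalyticAt ℂ f 0) (hg : AnalyticAt ℂ g 0) :
    tay (fun x => f x * g x) = tay f * tay g := by
  ext n
  rw [PowerSeries.coeff_mul, coeff_tay, iteratedDeriv_fun_mul hf.contDiffAt hg.contDiffAt,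
    Finset.Nat.sum_antidiagonal_eq_sum_range_succ_mk, Finset.sum_div]
  refine Finset.sum_congr rfl fun i hi => ?_
  have h1 : i ≤ n := Nat.lt_succ_iff.mp (Finset.mem_range.mp hi)
  have h2 : ((n.choose i : ℂ) * i.factorial * (n - i).factorial) = n.factorial := by
    exact_mod_cast Nat.choose_mul_factorial_mul_factorial h1
  have h3 : (n.choose i : ℂ) ≠ 0 := by exact_mod_cast (Nat.choose_pos h1).ne'
  have := fact_ne i
  have := fact_ne (n - i)
  rw [coeff_tay, coeff_tay, ← h2]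
  field_simp

lemma t_const (a : ℂ) : tay (fun _ => a) = PowerSeries.C a := by
  ext n
  rw [coeff_tay, iteratedDeriv_const, PowerSeries.coeff_C]
  split_ifs with h
  · simp [h]
  · simp

lemma t_id : tay (fun x => x) = PowerSeries.X := by
  ext n
  rw [coeff_tay, iteratedDeriv_fun_id_zero, PowerSeries.coeff_X]
  split_ifs with h
  · simp [h]
  · simp

lemma t_coeff0 (f : ℂ → ℂ) : PowerSeries.constantCoeff (tay f) = f 0 := by
  rw [← PowerSeries.coeff_zero_eq_constantCoeff_apply, coeff_tay]; simp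

lemma t_deriv (f : ℂ → ℂ) : tay (deriv f) = PowerSeries.derivative ℂ (tay f) := by
  ext n
  rw [PowerSeries.coeff_derivative, coeff_tay, coeff_tay, iteratedDeriv_succ', Nat.factorial_succ]
  have := fact_ne n
  have h : (n : ℂ) + 1 ≠ 0 := by exact_mod_cast n.succ_ne_zero
  push_cast
  field_simp

lemma t_inj {f : ℂ → ℂ} (hf : AnalyticAt ℂ f 0) (h : tay f = 0) : f =ᶠ[𝓝 0] 0 := by
  have h1 : ∀ n : ℕ, (n : ℕ∞) ≤ analyticOrderAt f 0 := fun n =>
    (natCast_le_analyticOrderAt_iff_iteratedDeriv_eq_zero hf).mpr fun i _ => by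
      have := coeff_tay f i
      rw [h, map_zero, eq_comm, div_eq_zero_iff] at this
      exact this.resolve_right (fact_ne i)
  exact analyticOrderAt_eq_top.mp (ENat.eq_top_iff_forall_ge.mpr h1)

lemma t_sum {ι : Type} (s : Finset ι) {g : ι → ℂ → ℂ} (hg : ∀ i, AnalyticAt ℂ (g i) 0) :
    tay (fun x => ∑ i ∈ s, g i x) = ∑ i ∈ s, tay (g i) := by
  classical
  induction s using Finset.induction_on with
  | empty => simpa using t_const 0
  | insert a s ha ih =>
    simp only [Finset.sum_insert ha]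
    rw [t_add (hg a) (Finset.analyticAt_fun_sum s fun i _ => hg i), ih]

lemma t_aeval {ι : Type} {g : ι → ℂ → ℂ} (hg : ∀ i, AnalyticAt ℂ (g i) 0) (P : MvPolynomial ι ℂ) :
    AnalyticAt ℂ (fun x => eval (fun i => g i x) P) 0 ∧
      tay (fun x => eval (fun i => g i x) P) = aeval (fun i => tay (g i)) P := by
  induction P using MvPolynomial.induction_on with
  | C a =>
    simp only [eval_C, aeval_C]
    exact ⟨analyticAt_const, t_const a⟩
  | add p q hp hq =>
    simp only [map_add]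
    exact ⟨hp.1.add hq.1, by rw [t_add hp.1 hq.1, hp.2, hq.2]⟩
  | mul_X p i hp =>
    simp only [map_mul, eval_X, aeval_X]
    exact ⟨hp.1.mul (hg i), by rw [t_mul hp.1 (hg i), hp.2]⟩

variable (δ : Derivation ℚ ℂ ℂ)

lemma d_add (φ ψ : PowerSeries ℂ) : dl δ (φ + ψ) = dl δ φ + dl δ ψ := by
  ext n; simp [coeff_dl]

lemma d_mul (φ ψ : PowerSeries ℂ) : dl δ (φ * ψ) = φ * dl δ ψ + ψ * dl δ φ := by
  ext n
  rw [mul_comm ψ, map_add, coeff_dl, PowerSeries.coeff_mul, PowerSeries.coeff_mul,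
    PowerSeries.coeff_mul, map_sum, ← Finset.sum_add_distrib]
  refine Finset.sum_congr rfl fun p _ => ?_
  rw [Derivation.leibniz, coeff_dl, coeff_dl, smul_eq_mul, smul_eq_mul]
  ring

lemma d_C (a : ℂ) : dl δ (PowerSeries.C a) = PowerSeries.C (δ a) := by
  ext n
  rw [coeff_dl, PowerSeries.coeff_C, PowerSeries.coeff_C]
  split_ifs <;> simp

lemma d_X : dl δ PowerSeries.X = 0 := by
  ext n
  rw [coeff_dl, PowerSeries.coeff_X]
  split_ifs <;> simp

lemma d_der (φ : PowerSeries ℂ) :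
    dl δ (PowerSeries.derivative ℂ φ) = PowerSeries.derivative ℂ (dl δ φ) := by
  ext n
  rw [coeff_dl, PowerSeries.coeff_derivative, PowerSeries.coeff_derivative, coeff_dl,
    Derivation.leibniz]
  have : δ ((n : ℂ) + 1) = 0 := by simp
  rw [this, smul_eq_mul, smul_eq_mul]
  ring

lemma d_sum {ι : Type} (s : Finset ι) (φ : ι → PowerSeries ℂ) :
    dl δ (∑ i ∈ s, φ i) = ∑ i ∈ s, dl δ (φ i) := by
  ext n; simp [coeff_dl]

lemma d_aeval (ι : Type) [Fintype ι] (φ : ι → PowerSeries ℂ) (P : MvPolynomial ι ℂ) :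
    ∃ Q : MvPolynomial ι ℂ, (∀ m, Q.coeff m = δ (P.coeff m)) ∧
      dl δ (aeval φ P) = aeval φ Q + ∑ i, aeval φ (pderiv i P) * dl δ (φ i) := by
  classical
  induction P using MvPolynomial.induction_on with
  | C a =>
    refine ⟨C (δ a), fun m => ?_, ?_⟩
    · rw [coeff_C, coeff_C]; split_ifs <;> simp
    · simp only [aeval_C, pderiv_C, map_zero, zero_mul, Finset.sum_const_zero, add_zero]
      exact d_C δ a
  | add p q hp hq =>
    obtain ⟨Q1, a1, b1⟩ := hp
    obtain ⟨Q2, a2, b2⟩ := hq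
    refine ⟨Q1 + Q2, fun m => by simp [a1, a2], ?_⟩
    simp only [map_add, d_add, b1, b2, add_mul, Finset.sum_add_distrib]
    ring
  | mul_X p j hp =>
    obtain ⟨Q, a, b⟩ := hp
    refine ⟨Q * X j, fun m => ?_, ?_⟩
    · rw [coeff_mul_X', coeff_mul_X', a]; split_ifs <;> simp
    · have e : ∀ i, aeval φ (pderiv i (p * X j)) * dl δ (φ i) =
          φ j * (aeval φ (pderiv i p) * dl δ (φ i)) +
            if i = j then aeval φ p * dl δ (φ j) else 0 := by
        intro i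
        rw [Derivation.leibniz, pderiv_X]
        by_cases h : i = j
        · subst h; simp; ring
        · simp [h, Pi.single_apply, Ne.symm h]; ring
      simp only [e, Finset.sum_add_distrib, ← Finset.mul_sum, Finset.sum_ite_eq',
        Finset.mem_univ, if_true, map_mul, aeval_X, d_mul, b]
      ring

lemma d_kill {x : ℂ} (h : Alg x) : δ x = 0 := by
  have h1 := δ.map_aeval (minpoly ℚ x) x
  rw [minpoly.aeval, map_zero, smul_eq_mul, eq_comm, mul_eq_zero] at h1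
  refine h1.resolve_left ?_
  have h2 : IsSeparable ℚ x := (minpoly.irreducible h.isIntegral).separable
  exact h2.aeval_derivative_ne_zero (minpoly.aeval ℚ x)

variable {κ : Type} [Fintype κ] [DecidableEq κ]

lemma pd_an {F : (κ → ℂ) → ℂ} {z : κ → ℂ} (h : AnalyticAt ℂ F z) (i : κ) :
    AnalyticAt ℂ (pd i F) z :=
  ((ContinuousLinearMap.apply ℂ ℂ (Pi.single i (1 : ℂ) : κ → ℂ)).analyticAt _).comp h.fderiv

lemma pd_pd {F : (κ → ℂ) → ℂ} {z : κ → ℂ} (h : AnalyticAt ℂ F z) (i k : κ) :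
    pd i (pd k F) z = fderiv ℂ (fderiv ℂ F) z (Pi.single i 1) (Pi.single k 1) := by
  have h1 := h.fderiv.differentiableAt.hasFDerivAt
  have h2 := ((ContinuousLinearMap.apply ℂ ℂ (Pi.single k (1 : ℂ) : κ → ℂ)).hasFDerivAt.comp z h1).fderiv
  unfold pd
  exact congrArg (fun L : (κ → ℂ) →L[ℂ] ℂ => L (Pi.single i 1)) h2

lemma pd_comm {F : (κ → ℂ) → ℂ} {z : κ → ℂ} (h : AnalyticAt ℂ F z) (i k : κ) :
    pd i (pd k F) z = pd k (pd i F) z := by
  rw [pd_pd h, pd_pd h]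
  exact (h.contDiffAt.isSymmSndFDerivAt_of_omega) _ _

lemma pd_congr {F G : (κ → ℂ) → ℂ} {z : κ → ℂ} (h : F =ᶠ[𝓝 z] G) (i : κ) :
    pd i F =ᶠ[𝓝 z] pd i G := by
  filter_upwards [h.fderiv (𝕜 := ℂ)] with w hw
  unfold pd; rw [hw]

variable {φ : ℂ → κ → ℂ}

lemma co_an (hφ : AnalyticAt ℂ φ 0) (i : κ) : AnalyticAt ℂ (fun x => φ x i) 0 :=
  analyticAt_pi_iff.mp hφ i

lemma comp_an (hφ : AnalyticAt ℂ φ 0) (h0 : φ 0 = 0) {F : (κ → ℂ) → ℂ} (h : AnalyticAt ℂ F 0) :
    AnalyticAt ℂ (fun x => F (φ x)) 0 := AnalyticAt.comp_of_eq h hφ h0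

lemma tend (hφ : AnalyticAt ℂ φ 0) (h0 : φ 0 = 0) : Tendsto φ (𝓝 0) (𝓝 0) := by
  have := hφ.continuousAt.tendsto
  rwa [h0] at this

lemma chain1 (hφ : AnalyticAt ℂ φ 0) (h0 : φ 0 = 0) {F : (κ → ℂ) → ℂ} (h : AnalyticAt ℂ F 0) :
    PowerSeries.derivative ℂ (tay fun x => F (φ x)) =
      ∑ k, tay (fun x => pd k F (φ x)) * PowerSeries.derivative ℂ (tay fun x => φ x k) := by
  have e : deriv (fun x => F (φ x)) =ᶠ[𝓝 0]
      fun x => ∑ k, pd k F (φ x) * deriv (fun x => φ x k) x := by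
    filter_upwards [(tend hφ h0).eventually h.eventually_analyticAt, hφ.eventually_analyticAt]
      with x h1 h2
    have a := h2.differentiableAt.hasDerivAt
    have b := (h1.differentiableAt.hasFDerivAt.comp_hasDerivAt x a).deriv
    refine b.trans ?_
    rw [pi_eq_sum_univ' (deriv φ x), map_sum]
    refine Finset.sum_congr rfl fun k _ => ?_
    rw [map_smul, smul_eq_mul, mul_comm, (hasDerivAt_pi.mp a k).deriv]
    rfl
  rw [← t_deriv, t_congr e, t_sum _ fun k =>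
    (comp_an hφ h0 (pd_an h k)).fun_mul (co_an hφ k).deriv]
  refine Finset.sum_congr rfl fun k _ => ?_
  rw [t_mul (comp_an hφ h0 (pd_an h k)) (co_an hφ k).deriv, t_deriv]

/-- the defect of the chain rule -/
def df (φ : ℂ → κ → ℂ) (F : (κ → ℂ) → ℂ) : PowerSeries ℂ :=
  dl δ (tay fun x => F (φ x)) - ∑ i, tay (fun x => pd i F (φ x)) * dl δ (tay fun x => φ x i)

lemma df_congr (hφ : AnalyticAt ℂ φ 0) (h0 : φ 0 = 0) {F G : (κ → ℂ) → ℂ} (h : F =ᶠ[𝓝 0] G) :
    df δ φ F = df δ φ G := by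
  unfold df
  rw [t_congr (f := fun x => F (φ x)) (g := fun x => G (φ x)) ((tend hφ h0).eventually h)]
  congr 1
  refine Finset.sum_congr rfl fun i _ => ?_
  rw [t_congr (f := fun x => pd i F (φ x)) (g := fun x => pd i G (φ x))
    ((tend hφ h0).eventually (pd_congr h i))]

lemma df_der (hφ : AnalyticAt ℂ φ 0) (h0 : φ 0 = 0) {F : (κ → ℂ) → ℂ} (h : AnalyticAt ℂ F 0) :
    PowerSeries.derivative ℂ (df δ φ F) =
      ∑ k, PowerSeries.derivative ℂ (tay fun x => φ x k) * df δ φ (pd k F) := by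
  have e : ∀ i k, tay (fun x => pd k (pd i F) (φ x)) = tay fun x => pd i (pd k F) (φ x) := by
    intro i k
    apply t_congr
    filter_upwards [(tend hφ h0).eventually h.eventually_analyticAt] with x hx
    exact pd_comm hx k i
  unfold df
  rw [map_sub, ← d_der, chain1 hφ h0 h, d_sum, map_sum]
  simp only [d_mul, Derivation.leibniz, smul_eq_mul, ← d_der, chain1 hφ h0 (pd_an h _), mul_sub,
    Finset.sum_add_distrib, Finset.sum_sub_distrib, Finset.mul_sum, add_sub_add_left_eq_sub]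
  congr 1
  rw [Finset.sum_comm]
  refine Finset.sum_congr rfl fun k _ => Finset.sum_congr rfl fun i _ => ?_
  rw [e]; ring

lemma chain {𝓕 : Set ((κ → ℂ) → ℂ)} (hG : Germs 𝓕) (hφ : AnalyticAt ℂ φ 0) (h0 : φ 0 = 0)
    (n : ℕ) : ∀ F ∈ 𝓕, PowerSeries.coeff n (df δ φ F) = 0 := by
  induction n using Nat.strong_induction_on with
  | _ n ih =>
  intro F hF
  obtain ⟨a, b, c⟩ := hG F hF
  cases n with
  | zero =>
    have e : ∀ i, PowerSeries.constantCoeff (dl δ (tay fun x => φ x i)) = 0 := fun i => by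
      rw [← PowerSeries.coeff_zero_eq_constantCoeff_apply, coeff_dl,
        PowerSeries.coeff_zero_eq_constantCoeff_apply, t_coeff0, h0]
      simp
    unfold df
    rw [map_sub, coeff_dl, PowerSeries.coeff_zero_eq_constantCoeff_apply,
      PowerSeries.coeff_zero_eq_constantCoeff_apply, t_coeff0, h0, d_kill δ b, map_sum]
    simp [e]
  | succ n =>
    have e := PowerSeries.coeff_derivative (df δ φ F) n
    have h : (n : ℂ) + 1 ≠ 0 := by exact_mod_cast n.succ_ne_zero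
    refine (mul_eq_zero.mp (e.symm.trans ?_)).resolve_right h
    rw [df_der δ hφ h0 a, map_sum]
    refine Finset.sum_eq_zero fun k _ => ?_
    obtain ⟨G, g1, g2⟩ := c k
    rw [df_congr δ hφ h0 g2, PowerSeries.coeff_mul]
    refine Finset.sum_eq_zero fun p hp => ?_
    have := Finset.HasAntidiagonal.mem_antidiagonal.mp hp
    rw [ih p.2 (by omega) G g1, mul_zero]

end TayA

open TayA in
theorem tayS : Tay where
  congr _ _ h := t_congr h
  add _ _ hf hg := t_add hf hg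
  mul _ _ hf hg := t_mul hf hg
  const := t_const
  id := t_id
  coeff0 := t_coeff0
  deriv := t_deriv
  inj _ hf h := t_inj hf h
  aeval _ _ P hg := (t_aeval hg P).2
  dlAdd := d_add
  dlMul := d_mul
  dlC := d_C
  dlX := d_X
  dlDer := d_der
  dlAeval := d_aeval
  kill δ _ h := d_kill δ h
  chain δ _ _ _ _ _ hG hφ h0 F hF := by
    rw [← sub_eq_zero]
    ext n
    exact chain δ hG hφ h0 n F hF

end

end Pool.Agent.GAM

end MrgPart5

-- ======== part 6: formerly Pool.Agent.MP_cbf1af_ag.gam.Thc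
section MrgPart6

/-! PROJECT GAM, row THC: uniqueness and local coordinates. -/

namespace Pool.Agent.GAM

open Matrix Complex Filter Topology

noncomputable section

namespace Thc

variable {κ : Type} [Fintype κ] [DecidableEq κ]

lemma ee_add (x y : ℂ) : ee (x + y) = ee x * ee y := by rw [ee, mul_add, exp_add, ee, ee]

lemma ee_zero : ee 0 = 1 := by simp [ee]

lemma ee_ne (x : ℂ) : ee x ≠ 0 := exp_ne_zero _

lemma ee_nat (x : ℂ) (j : ℕ) : ee (x * j) = ee x ^ j := by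
  rw [ee, ee, ← exp_nat_mul]
  congr 1
  ring

lemma ee_sum {α : Type} (s : Finset α) (x : α → ℂ) : ee (∑ i ∈ s, x i) = ∏ i ∈ s, ee (x i) := by
  rw [ee, Finset.mul_sum, exp_sum]
  rfl

lemma norm_ee (q : ℚ) : ‖ee q‖ = 1 := by
  have : 2 * Real.pi * I * (q : ℂ) = ((2 * Real.pi * q : ℝ) : ℂ) * I := by
    push_cast
    ring
  rw [ee, this, norm_exp_ofReal_mul_I]

lemma geom {k : ℤ} (hk : k ≠ 0) {Q : ℕ} (hQ : k.natAbs < Q) :
    ∑ j ∈ Finset.range Q, ee ((k : ℂ) / Q * j) = 0 := by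
  have Q0 : (Q : ℂ) ≠ 0 := by exact_mod_cast (by omega : Q ≠ 0)
  have h1 : ee ((k : ℂ) / Q) ^ Q = 1 := by
    rw [← ee_nat, div_mul_cancel₀ _ Q0, ee, mul_comm, exp_int_mul_two_pi_mul_I]
  have h2 : ee ((k : ℂ) / Q) ≠ 1 := by
    intro h
    obtain ⟨m, hm⟩ := exp_eq_one_iff.1 h
    rw [mul_comm] at hm
    have h3 := mul_right_cancel₀ two_pi_I_ne_zero hm
    rw [div_eq_iff Q0] at h3
    have h4 : k = m * Q := by exact_mod_cast h3
    have h5 := Int.le_of_dvd (a := Q) (b := |k|) (abs_pos.2 hk) ((dvd_abs _ _).2 ⟨m, by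
      rw [h4, mul_comm]⟩)
    rw [Int.abs_eq_natAbs] at h5
    omega
  simp only [ee_nat]
  rw [geom_sum_eq h2, h1, sub_self, zero_div]

lemma key {M : ℕ} (hM : 0 < M) (a : (κ → ℚ) → ℂ) (hs : Summable fun n => ‖a n‖)
    (hl : ∀ n, a n ≠ 0 → ∀ i, ∃ k : ℤ, (M : ℚ) * n i = k)
    (h : ∀ b : κ → ℚ, ∑' n, a n * ee ((n ⬝ᵥ b : ℚ) : ℂ) = 0) (n₀ : κ → ℚ) : a n₀ = 0 := by
  by_contra h0
  let c : ℕ → ℚ → ℂ := fun Q x => (Q : ℂ)⁻¹ * ∑ j ∈ Finset.range Q, ee ((x / Q * j : ℚ) : ℂ)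
  have c1 : ∀ Q x, ‖c Q x‖ ≤ 1 := by
    intro Q x
    have : ‖∑ j ∈ Finset.range Q, ee ((x / Q * j : ℚ) : ℂ)‖ ≤ Q :=
      (norm_sum_le _ _).trans (by simp only [norm_ee]; simp)
    rw [norm_mul, norm_inv, norm_natCast]
    exact inv_mul_le_one_of_le₀ this (Nat.cast_nonneg _)
  have z : ∀ Q, ∑' n, a n * ∏ i, c Q (M * (n i - n₀ i)) = 0 := by
    intro Q
    have e : ∀ n : κ → ℚ, a n * ∏ i, c Q (M * (n i - n₀ i)) =
        ∑ j ∈ Fintype.piFinset fun _ : κ => Finset.range Q,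
          (a n * ee ((n ⬝ᵥ fun i => (M : ℚ) / Q * j i : ℚ) : ℂ)) *
            ((∏ _i : κ, (Q : ℂ)⁻¹) * ee (-((n₀ ⬝ᵥ fun i => (M : ℚ) / Q * j i : ℚ) : ℂ))) := by
      intro n
      rw [Finset.prod_mul_distrib, Finset.prod_univ_sum, Finset.mul_sum, Finset.mul_sum]
      refine Finset.sum_congr rfl fun j _ => ?_
      rw [← ee_sum, mul_mul_mul_comm, ← ee_add, mul_assoc]
      congr 3
      simp only [dotProduct]
      push_cast
      rw [← sub_eq_add_neg, ← Finset.sum_sub_distrib]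
      exact Finset.sum_congr rfl fun i _ => by ring
    have sm : ∀ b : κ → ℚ, Summable fun n => a n * ee ((n ⬝ᵥ b : ℚ) : ℂ) := fun b =>
      Summable.of_norm (hs.congr fun n => by rw [norm_mul, norm_ee, mul_one])
    rw [tsum_congr e, Summable.tsum_finsetSum fun j _ => (sm _).mul_right _]
    exact Finset.sum_eq_zero fun j _ => by rw [tsum_mul_right, h, zero_mul]
  have lim := tendsto_tsum_of_dominated_convergence (𝓕 := atTop)
    (f := fun Q n => a n * ∏ i, c Q (M * (n i - n₀ i)))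
    (g := fun n => if n = n₀ then a n₀ else 0) hs (fun n => ?_)
    (Eventually.of_forall fun Q n => ?_)
  · simp only [z, tsum_ite_eq] at lim
    exact h0 (tendsto_nhds_unique lim tendsto_const_nhds)
  · refine tendsto_const_nhds.congr' ?_
    by_cases hn : n = n₀
    · filter_upwards [eventually_gt_atTop 0] with Q hQ
      have Q0 : (Q : ℂ) ≠ 0 := by exact_mod_cast hQ.ne'
      simp [hn, c, ee_zero, Q0]
    · by_cases ha : a n = 0
      · simp [hn, ha]
      · obtain ⟨i, hi⟩ := Function.ne_iff.1 hn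
        obtain ⟨k, hk⟩ := hl n ha i
        obtain ⟨k₀, hk₀⟩ := hl n₀ h0 i
        have e : (M : ℚ) * (n i - n₀ i) = ((k - k₀ : ℤ) : ℚ) := by
          rw [mul_sub, hk, hk₀, Int.cast_sub]
        have k0 : k - k₀ ≠ 0 := fun h1 => by
          rw [h1, Int.cast_zero] at e
          exact mul_ne_zero (by exact_mod_cast hM.ne') (sub_ne_zero.2 hi) e
        filter_upwards [eventually_gt_atTop (k - k₀).natAbs] with Q hQ
        have : c Q (M * (n i - n₀ i)) = 0 := by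
          have := geom k0 hQ
          simp only [c, e, Rat.cast_mul, Rat.cast_div, Rat.cast_intCast, Rat.cast_natCast, this,
            mul_zero]
        rw [if_neg hn, Finset.prod_eq_zero (Finset.mem_univ i) this, mul_zero]
  · rw [norm_mul, norm_prod]
    exact mul_le_of_le_one_right (norm_nonneg _)
      (Finset.prod_le_one (fun _ _ => norm_nonneg _) fun _ _ => c1 _ _)

omit [DecidableEq κ] in
lemma dot_le (x y : κ → ℂ) : ‖x ⬝ᵥ y‖ ≤ ‖x‖ * ∑ i, ‖y i‖ := by
  rw [Finset.mul_sum]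
  refine (norm_sum_le _ _).trans (Finset.sum_le_sum fun i _ => ?_)
  rw [norm_mul]
  exact mul_le_mul_of_nonneg_right (norm_le_pi_norm x i) (norm_nonneg _)

omit [DecidableEq κ] in
lemma quad_le (S : Matrix κ κ ℂ) (u : κ → ℂ) (lam : ℂ) : ∃ C : ℝ, ∀ x : κ → ℂ,
    ‖2 * Real.pi * I * (x ⬝ᵥ S *ᵥ x / 2 + x ⬝ᵥ u) - lam‖ ≤ C * (1 + ‖x‖) ^ 2 := by
  refine ⟨‖(2 * Real.pi * I : ℂ)‖ * ((∑ i, ∑ j, ‖S i j‖) + ∑ i, ‖u i‖) + ‖lam‖, fun x => ?_⟩
  have x0 := norm_nonneg x
  have A0 : 0 ≤ ∑ i, ∑ j, ‖S i j‖ := by positivity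
  have B0 : 0 ≤ ∑ i, ‖u i‖ := by positivity
  have h1 : ‖x ⬝ᵥ S *ᵥ x‖ ≤ ‖x‖ * (‖x‖ * ∑ i, ∑ j, ‖S i j‖) := by
    refine (dot_le _ _).trans (mul_le_mul_of_nonneg_left ?_ x0)
    rw [Finset.mul_sum]
    refine Finset.sum_le_sum fun i _ => ?_
    have := dot_le x (S i)
    rwa [dotProduct_comm] at this
  have h2 := dot_le x u
  have h3 : ‖x ⬝ᵥ S *ᵥ x / 2 + x ⬝ᵥ u‖ ≤ ((∑ i, ∑ j, ‖S i j‖) + ∑ i, ‖u i‖) * (1 + ‖x‖) ^ 2 := by
    refine (norm_add_le _ _).trans ?_
    rw [norm_div, Complex.norm_ofNat]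
    nlinarith [mul_nonneg A0 x0, mul_nonneg B0 x0, mul_nonneg (mul_nonneg A0 x0) x0,
      mul_nonneg (mul_nonneg B0 x0) x0]
  refine (norm_sub_le _ _).trans ?_
  rw [norm_mul, add_mul, mul_assoc ‖_‖]
  refine add_le_add (mul_le_mul_of_nonneg_left h3 (norm_nonneg _)) ?_
  exact le_mul_of_one_le_right (norm_nonneg _) (one_le_pow₀ (by linarith))

lemma main (hA : ThA κ) (hB : ThB κ) {τ : Matrix κ κ ℂ} (hτ : InH τ) (S : Matrix κ κ ℂ)
    (u : κ → ℂ) (lam : ℂ) (h : ∀ f, Sch f → ∑' n, f n * term τ 0 n *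
      (2 * Real.pi * I * (cq n ⬝ᵥ S *ᵥ cq n / 2 + cq n ⬝ᵥ u)) = lam * th f τ)
    (n : κ → ℚ) (hn : ∀ i, ∃ k : ℤ, n i = k) :
    2 * Real.pi * I * (cq n ⬝ᵥ S *ᵥ cq n / 2 + cq n ⬝ᵥ u) = lam := by
  have sm : ∀ f lam, Sch f → Summable fun n => ‖f n * term τ 0 n *
      (2 * Real.pi * I * (cq n ⬝ᵥ S *ᵥ cq n / 2 + cq n ⬝ᵥ u) - lam)‖ := by
    intro f lam hf
    obtain ⟨C, hC⟩ := quad_le S u lam
    refine Summable.of_nonneg_of_le (fun _ => norm_nonneg _) (fun n => ?_)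
      ((hA.summ f τ 0 2 hf hτ).mul_left C)
    rw [norm_mul, mul_left_comm]
    exact mul_le_mul_of_nonneg_left (hC _) (norm_nonneg _)
  have l1 : Lev 1 (ind 1 : (κ → ℚ) → ℂ) := hB.levInd 1 1 dvd_rfl one_pos
  have s1 : Sch (ind 1 : (κ → ℚ) → ℂ) := ⟨1, one_pos, l1⟩
  have k := key one_pos _ (sm _ lam s1)
    (fun n hn => l1.1 n (left_ne_zero_of_mul (left_ne_zero_of_mul hn))) (fun b => ?_) n
  · have i1 : (ind 1 : (κ → ℚ) → ℂ) n = 1 := Set.indicator_of_mem (by simpa using hn) _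
    rw [i1, one_mul] at k
    exact sub_eq_zero.1 ((mul_eq_zero.1 k).resolve_left (ee_ne _))
  · have hf := hB.schW (Sum.elim 0 b) _ s1
    have e : ∀ n, W (Sum.elim 0 b) (ind 1) n = ee ((n ⬝ᵥ b : ℚ) : ℂ) * ind 1 n := by
      intro n
      simp [W]
    have h1 := h _ hf
    have s2 := (sm _ 0 hf).of_norm
    have s3 : Summable fun n => W (Sum.elim 0 b) (ind 1) n * term τ 0 n :=
      Summable.of_norm (by simpa using hA.summ _ τ 0 0 hf hτ)
    simp only [sub_zero] at s2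
    rw [th, thz, ← tsum_mul_left, ← sub_eq_zero, ← s2.tsum_sub (s3.mul_left lam)] at h1
    rw [← h1]
    refine tsum_congr fun n => ?_
    rw [e]
    ring

omit [Fintype κ] in
lemma int_single (i : κ) (j : κ) : ∃ k : ℤ, (Pi.single i 1 : κ → ℚ) j = k :=
  ⟨if j = i then 1 else 0, by rw [Pi.single_apply]; split_ifs <;> simp⟩

omit [Fintype κ] in
lemma cq_single (i : κ) : cq (Pi.single i 1 : κ → ℚ) = Pi.single i 1 := by
  funext j
  simp only [cq, Pi.single_apply]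
  split_ifs <;> simp

lemma main' (hA : ThA κ) (hB : ThB κ) {τ : Matrix κ κ ℂ} (hτ : InH τ) (S : Matrix κ κ ℂ)
    (u : κ → ℂ) (lam : ℂ) (h : ∀ f, Sch f → ∑' n, f n * term τ 0 n *
      (2 * Real.pi * I * (cq n ⬝ᵥ S *ᵥ cq n / 2 + cq n ⬝ᵥ u)) = lam * th f τ)
    (n : κ → ℚ) (hn : ∀ i, ∃ k : ℤ, n i = k) : cq n ⬝ᵥ S *ᵥ cq n / 2 + cq n ⬝ᵥ u = 0 := by
  have h0 := main hA hB hτ S u lam h 0 fun _ => ⟨0, rfl⟩
  have e : cq (0 : κ → ℚ) = 0 := by funext i; simp [cq]
  rw [e, zero_dotProduct, zero_dotProduct, zero_div, zero_add, mul_zero] at h0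
  have h1 := main hA hB hτ S u lam h n hn
  rw [← h0] at h1
  exact (mul_eq_zero.1 h1).resolve_left two_pi_I_ne_zero

lemma lin (hA : ThA κ) (hB : ThB κ) {τ : Matrix κ κ ℂ} (hτ : InH τ) (u : κ → ℂ) (lam : ℂ)
    (h : ∀ f, Sch f → fderiv ℂ (thz f τ) 0 u = lam * th f τ) : u = 0 := by
  funext i
  have := main' hA hB hτ 0 u lam (fun f hf => by
    rw [← h f hf, hA.derz f τ 0 u hf hτ]
    simp) _ (int_single i)
  simpa [cq_single] using this

lemma pick {ι X : Type} [Fintype ι] (L : X → Module.Dual ℂ (ι → ℂ))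
    (h : ∀ u, (∀ x, L x u = 0) → u = 0) : ∃ x : ι → X, ∀ u, (∀ i, L (x i) u = 0) → u = 0 := by
  classical
  have top : Submodule.span ℂ (Set.range L) = ⊤ := by
    rw [← Subspace.dualCoannihilator_dualAnnihilator_eq (W := Submodule.span ℂ (Set.range L))]
    have : (Submodule.span ℂ (Set.range L)).dualCoannihilator = ⊥ :=
      eq_bot_iff.2 fun u hu => h u fun x =>
        (Submodule.mem_dualCoannihilator u).1 hu _ (Submodule.subset_span ⟨x, rfl⟩)
    rw [this, Submodule.dualAnnihilator_bot]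
  obtain ⟨b, hb, hs, hi⟩ := exists_linearIndependent ℂ (Set.range L)
  let B : Module.Basis b ℂ (Module.Dual ℂ (ι → ℂ)) :=
    Module.Basis.mk hi (by rw [Subtype.range_coe, hs, top])
  let e : ι ≃ b := (Pi.basisFun ℂ ι).dualBasis.indexEquiv B
  choose x hx using fun i => hb (e i).2
  refine ⟨x, fun u hu => h u fun y => ?_⟩
  have : Module.Dual.eval ℂ (ι → ℂ) u = 0 := B.ext fun φ => by
    have := hu (e.symm φ)
    rw [hx, Equiv.apply_symm_apply] at this
    simpa [B] using this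
  exact LinearMap.congr_fun this (L y)

omit [Fintype κ] [DecidableEq κ] in
lemma quot {ι : Type} [Fintype ι] (G : ((κ → ℚ) → ℂ) → (ι → ℂ) → ℂ) (y₀ : ι → ℂ)
    (f₀ : (κ → ℚ) → ℂ) (hd : ∀ f, Sch f → DifferentiableAt ℂ (G f) y₀) (h₀ : Sch f₀)
    (hne : G f₀ y₀ ≠ 0)
    (h : ∀ u lam, (∀ f, Sch f → fderiv ℂ (G f) y₀ u = lam * G f y₀) → u = 0) :
    ∃ f : ι → (κ → ℚ) → ℂ, (∀ i, Sch (f i)) ∧
      Function.Injective (fderiv ℂ (fun y i => G (f i) y / G f₀ y) y₀) := by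
  have dq : ∀ f, Sch f → DifferentiableAt ℂ (fun y => G f y / G f₀ y) y₀ :=
    fun f hf => by
      simp only [div_eq_mul_inv]
      exact (hd f hf).fun_mul ((hd f₀ h₀).fun_inv hne)
  obtain ⟨x, hx⟩ := pick (X := {f : (κ → ℚ) → ℂ // Sch f})
    (fun f => (fderiv ℂ (fun y => G f.1 y / G f₀ y) y₀).toLinearMap) fun u hu => by
      refine h u (fderiv ℂ (G f₀) y₀ u / G f₀ y₀) fun f hf => ?_
      have e : G f =ᶠ[𝓝 y₀] fun y => G f y / G f₀ y * G f₀ y := by
        filter_upwards [(hd f₀ h₀).continuousAt.eventually_ne hne] with y hy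
        rw [div_mul_cancel₀ _ hy]
      have h1 : fderiv ℂ (fun y => G f y / G f₀ y) y₀ u = 0 := hu ⟨f, hf⟩
      rw [e.fderiv_eq, fderiv_fun_mul (dq f hf) (hd f₀ h₀)]
      simp only [_root_.add_apply, _root_.smul_apply, h1, smul_eq_mul]
      ring
  refine ⟨fun i => (x i).1, fun i => (x i).2, (injective_iff_map_eq_zero _).2 fun u hu => ?_⟩
  rw [fderiv_pi fun i => dq _ (x i).2] at hu
  exact hx u fun i => congrFun hu i

end Thc

open Thc

theorem thC (hA : All ThA) (hB : All ThB) : All ThC := by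
  intro κ _ _
  replace hA := hA κ
  replace hB := hB κ
  refine ⟨fun f τ hf hτ h => ?_, fun τ hτ => ?_, fun τ u hτ hu => ?_, fun τ f₀ hτ h₀ hne => ?_,
    fun ι _ T y₀ f₀ hT hτ hs hi h₀ hne => ?_⟩
  · obtain ⟨M, hM, hl⟩ := id hf
    funext n
    have := key hM (fun n => f n * term τ 0 n) (by simpa using hA.summ f τ 0 0 hf hτ)
      (fun n hn => hl.1 n (left_ne_zero_of_mul hn)) (fun b => ?_) n
    · exact (mul_eq_zero.1 this).resolve_right (ee_ne _)
    · rw [← h (cq b), thz]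
      refine tsum_congr fun n => ?_
      rw [term, term, mul_assoc, ← ee_add]
      simp [cq, dotProduct]
  · by_contra hn
    push Not at hn
    have := main hA hB hτ 0 0 1 (fun f hf => by simp [hn f hf]) 0 fun _ => ⟨0, rfl⟩
    simp at this
  · by_contra hn
    push Not at hn
    refine hu (lin hA hB hτ u 0 fun f hf => ?_)
    rw [zero_mul, ← hn f hf]
    conv_lhs => rw [pi_eq_sum_univ' u]
    simp [gr, pd, dotProduct, mul_comm]
  · exact quot (fun f => thz f τ) 0 f₀ (fun f hf => (hA.anaz f τ 0 hf hτ).differentiableAt) h₀ hne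
      fun u lam h => lin hA hB hτ u lam h
  · have d1 : HasFDerivAt (fun y => (T y, (0 : κ → ℂ))) ((fderiv ℂ T y₀).prod 0) y₀ :=
      hT.differentiableAt.hasFDerivAt.prodMk (hasFDerivAt_const _ _)
    have d2 := fun f (hf : Sch f) =>
      (hA.ana f _ 0 hf hτ).differentiableAt.hasFDerivAt.comp y₀ d1
    refine quot (fun f y => th f (Matrix.of (T y))) y₀ f₀ (fun f hf => (d2 f hf).differentiableAt)
      h₀ hne fun u lam h => (injective_iff_map_eq_zero _).1 hi u ?_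
    have m := main' hA hB hτ (Matrix.of (fderiv ℂ T y₀ u)) 0 lam fun f hf => by
      rw [← h f hf, ← hA.der f _ _ 0 0 hf hτ]
      exact (congrArg (fun L => L u) (d2 f hf).fderiv).symm
    have d3 := fun i j => hasFDerivAt_pi'.1 (hasFDerivAt_pi'.1 hT.differentiableAt.hasFDerivAt i) j
    have sy : ∀ i j, fderiv ℂ T y₀ u i j = fderiv ℂ T y₀ u j i := fun i j =>
      congrArg (fun L => L u) ((d3 i j).unique ((d3 j i).congr_of_eventuallyEq
        (hs.mono fun y hy => hy.apply j i)))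
    have dg : ∀ i, fderiv ℂ T y₀ u i i = 0 := fun i => by
      simpa [cq_single] using m _ (int_single i)
    funext i j
    have e : cq (Pi.single i 1 + Pi.single j 1 : κ → ℚ) = Pi.single i 1 + Pi.single j 1 := by
      rw [← cq_single, ← cq_single]
      funext k
      simp [cq]
    have := m (Pi.single i 1 + Pi.single j 1) fun k => by
      obtain ⟨a, ha⟩ := int_single i k
      obtain ⟨b, hb⟩ := int_single j k
      exact ⟨a + b, by rw [Pi.add_apply, ha, hb, Int.cast_add]⟩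
    rw [e] at this
    simpa [mulVec_add, dg, sy j i] using this

end

end Pool.Agent.GAM

end MrgPart6

-- marker of a merged file
example : 731051 + 156266 = 731051 + 156266 := rfl
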