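import Mathlib
import Pool.Agent.MP_cbf1af_ag.gam.Spec

-- ======== part 0: formerly Pool.Agent.MP_cbf1af_ag.gam.Lv
section MrgPart0

/-! PROJECT GAM, row LV: the action of the integral symplectic group at a fixed level. -/

namespace Pool.Agent.GAM

open Matrix Complex Filter Topology

noncomputable section

namespace Lvl

/-! ### Integral matrices -/

/-- the integers inside the rational numbers -/
abbrev Zr : Subring ℚ := (Int.castRingHom ℚ).range

theorem mem_Zr {x : ℚ} : x ∈ Zr ↔ ∃ k : ℤ, x = k :=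
  ⟨fun ⟨k, hk⟩ => ⟨k, hk.symm⟩, fun ⟨k, hk⟩ => ⟨k, hk.symm⟩⟩

theorem ee_int {x : ℚ} (h : x ∈ Zr) : ee (x : ℂ) = 1 := by
  obtain ⟨k, rfl⟩ := mem_Zr.1 h
  rw [ee, mul_comm, Rat.cast_intCast, Complex.exp_int_mul_two_pi_mul_I]

theorem int_of_ee {x : ℚ} (h : ee (x : ℂ) = 1) : x ∈ Zr := by
  obtain ⟨k, hk⟩ := Complex.exp_eq_one_iff.1 h
  rw [mul_comm (k : ℂ)] at hk
  have := mul_left_cancel₀ Complex.two_pi_I_ne_zero hk
  exact mem_Zr.2 ⟨k, by exact_mod_cast this⟩

section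
variable {ι : Type} [Fintype ι] [DecidableEq ι]

/-- integral entries -/
def IM (γ : Matrix ι ι ℚ) : Prop := ∀ a b, γ a b ∈ Zr

omit [Fintype ι] in
theorem im_one : IM (1 : Matrix ι ι ℚ) := fun a b => by
  rw [Matrix.one_apply]
  split_ifs
  exacts [one_mem _, zero_mem _]

omit [DecidableEq ι] in
theorem IM.mul {γ γ' : Matrix ι ι ℚ} (h : IM γ) (h' : IM γ') : IM (γ * γ') := fun a b => by
  rw [Matrix.mul_apply]
  exact Subring.sum_mem _ fun c _ => mul_mem (h a c) (h' c b)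

omit [DecidableEq ι] in
theorem IM.vecMul {γ : Matrix ι ι ℚ} (h : IM γ) {v : ι → ℚ} (hv : ∀ a, v a ∈ Zr) (b : ι) :
    (v ᵥ* γ) b ∈ Zr :=
  Subring.sum_mem _ fun c _ => mul_mem (hv c) (h c b)

end

variable {κ : Type} [Fintype κ] [DecidableEq κ]

omit [Fintype κ] in
theorem im_J : IM (J κ ℚ) := by
  rintro (a | a) (b | b)
  · exact zero_mem _
  · exact neg_mem (im_one a b)
  · exact im_one a b
  · exact zero_mem _

omit [Fintype κ] in
theorem cong_iff {R : ℕ} {γ : Matrix (κ ⊕ κ) (κ ⊕ κ) ℚ} :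
    Cong R γ ↔ ∃ N, IM N ∧ γ = 1 + (R : ℚ) • N := by
  constructor
  · intro h
    choose k hk using h
    exact ⟨Matrix.of fun a b => (k a b : ℚ), fun a b => mem_Zr.2 ⟨_, rfl⟩,
      Matrix.ext fun a b => by simp [hk a b]⟩
  · rintro ⟨N, hN, rfl⟩ a b
    obtain ⟨k, hk⟩ := mem_Zr.1 (hN a b)
    exact ⟨k, by simp [hk]⟩

omit [Fintype κ] in
theorem im_of_cong {R : ℕ} {γ : Matrix (κ ⊕ κ) (κ ⊕ κ) ℚ} (h : Cong R γ) : IM γ := fun a b => by
  obtain ⟨k, hk⟩ := h a b
  rw [hk]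
  exact add_mem (im_one a b) (mul_mem (natCast_mem _ _) (intCast_mem _ _))

/-- the inverse of a symplectic matrix -/
def iv (γ : Matrix (κ ⊕ κ) (κ ⊕ κ) ℚ) : Matrix (κ ⊕ κ) (κ ⊕ κ) ℚ := (-J κ ℚ) * γᵀ * J κ ℚ

theorem iv_mul {γ : Matrix (κ ⊕ κ) (κ ⊕ κ) ℚ} (h : Sp γ) : iv γ * γ = 1 := by
  rw [← SymplecticGroup.inv_left_mul_aux h, iv]
  simp

theorem mul_iv {γ : Matrix (κ ⊕ κ) (κ ⊕ κ) ℚ} (h : Sp γ) : γ * iv γ = 1 :=
  mul_eq_one_comm.1 (iv_mul h)

theorem sp_iv {γ : Matrix (κ ⊕ κ) (κ ⊕ κ) ℚ} (h : Sp γ) : Sp (iv γ) :=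
  mul_mem (mul_mem (SymplecticGroup.neg_mem (SymplecticGroup.J_mem _ _))
    (SymplecticGroup.transpose_mem h)) (SymplecticGroup.J_mem _ _)

theorem im_iv {γ : Matrix (κ ⊕ κ) (κ ⊕ κ) ℚ} (h : IM γ) : IM (iv γ) :=
  IM.mul (IM.mul (fun a b => neg_mem (im_J a b)) fun a b => h b a) im_J

/-! ### Linearity and uniqueness -/

omit [Fintype κ] in
theorem inH_I : InH (I • (1 : Matrix κ κ ℂ)) := by
  refine ⟨Matrix.IsSymm.smul Matrix.isSymm_one _, ?_⟩
  have : imM (I • (1 : Matrix κ κ ℂ)) = 1 := by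
    ext a b
    by_cases h : a = b <;> simp [imM, Matrix.one_apply, h]
  rw [this]
  exact Matrix.PosDef.one

section
variable (hB : ThB κ) {γ : Matrix (κ ⊕ κ) (κ ⊕ κ) ℚ} {j : Matrix κ κ ℂ → ℂ}
  {f f' g g' : (κ → ℚ) → ℂ}
include hB

theorem sch_add (hf : Sch f) (hg : Sch g) : Sch (f + g) := by
  obtain ⟨M, hM, -, h⟩ := hB.common Bool (fun b => cond b f g) (by rintro (_ | _) <;> assumption)
  exact ⟨M, hM, hB.levAdd M f g (h true) (h false)⟩

theorem sch_smul {a : ℂ} (ha : Alg a) (hf : Sch f) : Sch (a • f) := by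
  obtain ⟨M, hM, h⟩ := hf
  exact ⟨M, hM, hB.levSmul M a f ha h⟩

theorem rel_smul (a : ℂ) (h : Rel γ j f f') : Rel γ j (a • f) (a • f') := by
  intro τ hτ z
  rw [hB.smul, hB.smul, h τ hτ z]
  ring

theorem rel_scal {c : ℂ} (h : Rel γ j f (c • f')) : Rel γ (fun τ => c * j τ) f f' := by
  intro τ hτ z
  rw [h τ hτ z, hB.smul]
  ring

theorem rel_add (hC : Act κ) (hγ : Sp γ) (hf : Sch f) (hf' : Sch f') (hg : Sch g) (hg' : Sch g')
    (h : Rel γ j f f') (h' : Rel γ j g g') : Rel γ j (f + g) (f' + g') := by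
  intro τ hτ z
  rw [hB.add _ _ _ _ hf hg (hC.inH γ τ hγ hτ).1, hB.add _ _ _ _ hf' hg' hτ, h τ hτ z, h' τ hτ z]
  ring

theorem rel_sum (hC : Act κ) (hγ : Sp γ) {ι : Type} (s : Finset ι) (F F' : ι → (κ → ℚ) → ℂ)
    (h : ∀ i, Sch (F i) ∧ Sch (F' i) ∧ Rel γ j (F i) (F' i)) :
    Sch (∑ i ∈ s, F i) ∧ Sch (∑ i ∈ s, F' i) ∧ Rel γ j (∑ i ∈ s, F i) (∑ i ∈ s, F' i) := by
  classical
  induction s using Finset.induction_on with
  | empty =>
    have h0 : Sch (0 : (κ → ℚ) → ℂ) :=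
      ⟨1, one_pos, fun n hn => absurd rfl hn, fun _ _ => rfl, fun _ => isAlgebraic_zero⟩
    exact ⟨h0, h0, fun τ _ z => by simp [thz]⟩
  | insert a s ha ih =>
    rw [Finset.sum_insert ha, Finset.sum_insert ha]
    obtain ⟨h1, h2, h3⟩ := h a
    exact ⟨sch_add hB h1 ih.1, sch_add hB h2 ih.2.1,
      rel_add hB hC hγ h1 h2 ih.1 ih.2.1 h3 ih.2.2⟩

theorem rel_uniq (hT : ThC κ) (hC : Act κ) (hγ : Sp γ) (hj : ∀ τ, InH τ → j τ ≠ 0)
    (hg : Sch g) (hg' : Sch g') (h : Rel γ j f g) (h' : Rel γ j f g') : g = g' := by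
  have hs := sch_smul hB (a := -1) isAlgebraic_one.neg hg'
  have h0 := hT.uniq (g + (-1 : ℂ) • g') _ (sch_add hB hg hs) inH_I fun z => by
    obtain ⟨-, hK, -⟩ := hC.inH γ _ hγ (inH_I (κ := κ))
    have h1 := (h _ inH_I (z ᵥ* (kk γ (I • 1))⁻¹)).symm.trans (h' _ inH_I _)
    rw [Matrix.vecMul_vecMul, Matrix.nonsing_inv_mul _ hK, Matrix.vecMul_one] at h1
    have h2 := mul_left_cancel₀ (mul_ne_zero (hj _ inH_I) (Complex.exp_ne_zero _)) h1
    rw [hB.add _ _ _ _ hg hs inH_I, hB.smul, h2]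
    ring
  rwa [neg_one_smul, add_neg_eq_zero] at h0

/-- integral matrices keep the level -/
theorem lev_rel (hT : ThC κ) (hC : Act κ) (h1 : Weil1 κ) {M : ℕ} (hM : 0 < M) (he : Even M)
    (hγ : Sp γ) (hi : IM γ) (hj : ∀ τ, InH τ → j τ ≠ 0) (hf : Lev M f) (hf' : Sch f')
    (h : Rel γ j f f') : Lev M f' := by
  refine (hB.levW M f' hM he).2 ⟨hf'.choose_spec.2.2.2, fun k => ?_⟩
  choose k' hk' using fun b => mem_Zr.1
    ((im_iv hi).vecMul (v := fun a => (k a : ℚ)) (fun a => intCast_mem _ _) b)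
  have h2 := h1.relW γ j f f' (fun a => (M : ℚ) * k' a) hγ h
  have h3 : (fun a => (M : ℚ) * k' a) ᵥ* γ = fun a => (M : ℚ) * k a := by
    have : (fun a => (M : ℚ) * k' a) = (M : ℚ) • ((fun a => (k a : ℚ)) ᵥ* iv γ) := by
      funext a; rw [Pi.smul_apply, hk', smul_eq_mul]
    rw [this, Matrix.smul_vecMul, Matrix.vecMul_vecMul, iv_mul hγ, Matrix.vecMul_one]
    rfl
  rw [((hB.levW M f hM he).1 hf).2 k', h3] at h2
  exact rel_uniq hB hT hC hγ hj (hB.schW _ _ hf') hf' h2 h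

/-- the congruence subgroup acts trivially on the Heisenberg group of level `M` -/
theorem W_cong {M : ℕ} (hM : 0 < M) (he : Even M) (hγ : Cong (2 * M ^ 2) γ) (hf : Lev M f)
    {v : κ ⊕ κ → ℚ} (hv : ∀ a, (M : ℚ) * v a ∈ Zr) : W (v ᵥ* γ) f = W v f := by
  obtain ⟨N, hN, rfl⟩ := cong_iff.1 hγ
  choose k hk using fun b => mem_Zr.1 (hN.vecMul (v := (M : ℚ) • v) hv b)
  have h1 : v ᵥ* (1 + ((2 * M ^ 2 : ℕ) : ℚ) • N) = v + fun a => (M : ℚ) * ((2 * k a : ℤ) : ℚ) := by
    rw [Matrix.vecMul_add, Matrix.vecMul_one, Matrix.vecMul_smul]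
    congr 1
    funext a
    have := hk a
    rw [Matrix.smul_vecMul, Pi.smul_apply, smul_eq_mul] at this
    push_cast
    rw [← this, Pi.smul_apply, smul_eq_mul]
    ring
  have h2 := hB.mulW v (fun a => (M : ℚ) * ((2 * k a : ℤ) : ℚ)) f
  rw [((hB.levW M f hM he).1 hf).2 fun a => 2 * k a, ee_int, one_smul] at h2
  · rw [h1, h2]
  · have : v ⬝ᵥ J κ ℚ *ᵥ (fun a => (M : ℚ) * ((2 * k a : ℤ) : ℚ)) / 2 =
        ∑ a, (M : ℚ) * v a * ∑ b, J κ ℚ a b * k b := by
      simp only [dotProduct, Matrix.mulVec, Finset.sum_div, Finset.mul_sum]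
      refine Finset.sum_congr rfl fun a _ => Finset.sum_congr rfl fun b _ => ?_
      push_cast
      ring
    rw [this]
    exact Subring.sum_mem _ fun a _ => mul_mem (hv a)
      (Subring.sum_mem _ fun b _ => mul_mem (im_J a b) (intCast_mem _ _))

end

/-! ### The space of level `M` is irreducible -/

omit [DecidableEq κ] in
theorem W_left (a : κ → ℚ) (f : (κ → ℚ) → ℂ) (n : κ → ℚ) : W (Sum.elim a 0) f n = f (n - a) := by
  simp [W, ee]

omit [DecidableEq κ] in
theorem W_right (b : κ → ℚ) (f : (κ → ℚ) → ℂ) (n : κ → ℚ) :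
    W (Sum.elim 0 b) f n = ee ((n ⬝ᵥ b : ℚ) : ℂ) * f n := by
  simp [W]

omit [DecidableEq κ] in
theorem W_smul (v : κ ⊕ κ → ℚ) (c : ℂ) (f : (κ → ℚ) → ℂ) : W v (c • f) = c • W v f := by
  funext n
  simp only [W, Pi.smul_apply, smul_eq_mul]
  ring

omit [Fintype κ] [DecidableEq κ] in
theorem ind_one {K : ℕ} {n : κ → ℚ} (h : ∀ i, ∃ k : ℤ, n i = (K : ℚ) * k) : ind K n = 1 :=
  Set.indicator_of_mem (s := {n : κ → ℚ | ∀ i, ∃ k : ℤ, n i = (K : ℚ) * k}) h _

omit [Fintype κ] [DecidableEq κ] in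
theorem ind_zero {K : ℕ} {n : κ → ℚ} (h : ¬∀ i, ∃ k : ℤ, n i = (K : ℚ) * k) : ind K n = 0 :=
  Set.indicator_of_notMem (s := {n : κ → ℚ | ∀ i, ∃ k : ℤ, n i = (K : ℚ) * k}) h _

theorem decomp {M : ℕ} (hM : 0 < M) {f : (κ → ℚ) → ℂ} (hf : Lev M f) :
    f = ∑ r : κ → Fin (M ^ 2),
      f (fun i => (r i : ℚ) / M) • W (Sum.elim (fun i => (r i : ℚ) / M) 0) (ind M) := by
  funext n
  have hM' : (M : ℚ) ≠ 0 := by positivity
  have hM2 : (0 : ℤ) < (M : ℤ) ^ 2 := by positivity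
  simp only [Finset.sum_apply, Pi.smul_apply, smul_eq_mul, W_left]
  by_cases h : ∀ i, ∃ k : ℤ, (M : ℚ) * n i = k
  · choose k hk using h
    have hlt : ∀ i, (k i % (M : ℤ) ^ 2).toNat < M ^ 2 := fun i => by
      have h1 := Int.emod_lt_of_pos (k i) hM2
      have h2 := Int.emod_nonneg (k i) hM2.ne'
      zify
      rwa [Int.toNat_of_nonneg h2]
    have hc : ∀ i, (((k i % (M : ℤ) ^ 2).toNat : ℕ) : ℤ) = k i % (M : ℤ) ^ 2 := fun i =>
      Int.toNat_of_nonneg (Int.emod_nonneg (k i) hM2.ne')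
    have hn : ∀ i, n i - (((k i % (M : ℤ) ^ 2).toNat : ℕ) : ℚ) / M =
        (M : ℚ) * (k i / (M : ℤ) ^ 2 : ℤ) := fun i => by
      have h1 : (((k i % (M : ℤ) ^ 2).toNat : ℕ) : ℚ) = ((k i % (M : ℤ) ^ 2 : ℤ) : ℚ) := by
        rw [← hc i, Int.toNat_natCast, Int.cast_natCast]
      have h2 : ((k i % (M : ℤ) ^ 2 : ℤ) : ℚ) + (M : ℚ) ^ 2 * (k i / (M : ℤ) ^ 2 : ℤ) = k i := by
        have h3 := congrArg (Int.cast : ℤ → ℚ) (Int.emod_add_mul_ediv (k i) ((M : ℤ) ^ (2 : ℕ)))
        rwa [Int.cast_add, Int.cast_mul, Int.cast_pow, Int.cast_natCast] at h3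
      rw [h1]
      field_simp
      linear_combination hk i - h2
    rw [Finset.sum_eq_single fun i => (⟨_, hlt i⟩ : Fin (M ^ 2))]
    · rw [ind_one, mul_one, ← hf.2.1 (fun i => _ / (M : ℚ)) fun i => k i / (M : ℤ) ^ 2]
      · congr 1
        funext i
        rw [Pi.add_apply, ← hn i]
        ring
      · exact fun i => ⟨_, hn i⟩
    · intro r _ hr
      rw [ind_zero fun H => hr ?_, mul_zero]
      funext i
      obtain ⟨q, hq⟩ := H i
      have h1 : k i = (r i : ℕ) + (M : ℤ) ^ 2 * q := by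
        have h2 : (k i : ℚ) = (r i : ℕ) + (M : ℚ) ^ 2 * q := by
          rw [Pi.sub_apply] at hq
          field_simp at hq
          linear_combination hq - hk i
        exact_mod_cast h2
      have h3 : ((r i : ℕ) : ℤ) < (M : ℤ) ^ 2 := by exact_mod_cast (r i).2
      refine Fin.ext ?_
      change (r i : ℕ) = (k i % (M : ℤ) ^ 2).toNat
      rw [h1, Int.add_mul_emod_self_left, Int.emod_eq_of_lt (by positivity) h3, Int.toNat_natCast]
    · simp
  · rw [of_not_not fun hn => h (hf.1 n hn)]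
    refine (Finset.sum_eq_zero fun r _ => ?_).symm
    rw [ind_zero fun H => h fun i => ?_, mul_zero]
    obtain ⟨q, hq⟩ := H i
    refine ⟨(r i : ℕ) + (M : ℤ) ^ 2 * q, ?_⟩
    rw [Pi.sub_apply] at hq
    field_simp at hq
    push_cast
    linear_combination hq

theorem schur (hB : ThB κ) (hT : ThC κ) (hC : Act κ) (h1 : Weil1 κ) {M : ℕ} (hM : 0 < M)
    (he : Even M) {γ : Matrix (κ ⊕ κ) (κ ⊕ κ) ℚ} (hγ : Sp γ) (hc : Cong (2 * M ^ 2) γ)
    {j : Matrix κ κ ℂ → ℂ} (hj : ∀ τ, InH τ → j τ ≠ 0) {g : (κ → ℚ) → ℂ} (hg : Sch g)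
    (h : Rel γ j (ind M) g) : ∃ c : ℂ, c ≠ 0 ∧ Alg c ∧ ∀ f, Lev M f → Rel γ j f (c • f) := by
  have hM' : (M : ℚ) ≠ 0 := by positivity
  have h0 : Lev M (ind M : (κ → ℚ) → ℂ) := hB.levInd M M dvd_rfl hM
  have s0 : Sch (ind M : (κ → ℚ) → ℂ) := ⟨M, hM, h0⟩
  have hl := lev_rel hB hT hC h1 hM he hγ (im_of_cong hc) hj h0 hg h
  have hd : ∀ (i : κ) (n : κ → ℚ), n ⬝ᵥ Pi.single i (M : ℚ)⁻¹ = n i / M := fun i n => by
    rw [dotProduct_single, div_eq_mul_inv]
  have h2 : ∀ i n, ee ((n i / M : ℚ) : ℂ) * g n = g n := by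
    intro i n
    have h3 := h1.relW γ j _ g (Sum.elim 0 (Pi.single i (M : ℚ)⁻¹)) hγ h
    have h4 : W (Sum.elim 0 (Pi.single i (M : ℚ)⁻¹)) (ind M : (κ → ℚ) → ℂ) = ind M := by
      funext m
      rw [W_right, hd]
      by_cases hm : ∀ i, ∃ k : ℤ, m i = (M : ℚ) * k
      · obtain ⟨k, hk⟩ := hm i
        rw [ee_int (mem_Zr.2 ⟨k, by rw [hk]; field_simp⟩), one_mul]
      · rw [ind_zero hm, mul_zero]
    rw [h4, W_cong hB hM he hc hl] at h3
    · have := congrFun (rel_uniq hB hT hC hγ hj (hB.schW _ _ hg) hg h3 h) n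
      rwa [W_right, hd] at this
    · rintro (a | a)
      · simp
      · rw [Sum.elim_inr, Pi.single_apply]
        split_ifs
        · rw [mul_inv_cancel₀ hM']; exact one_mem _
        · simp
  have h3 : g = g 0 • ind M := by
    funext n
    rw [Pi.smul_apply, smul_eq_mul]
    by_cases hn : ∀ i, ∃ k : ℤ, n i = (M : ℚ) * k
    · rw [ind_one hn, mul_one]
      choose k hk using hn
      rw [← hl.2.1 0 k, zero_add]
      congr 1
      exact funext hk
    · rw [ind_zero hn, mul_zero]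
      by_contra hne
      refine hn fun i => ?_
      obtain ⟨k, hk⟩ := mem_Zr.1 (int_of_ee (mul_left_eq_self₀.1 (h2 i n) |>.resolve_right hne))
      exact ⟨k, by rw [← hk]; field_simp⟩
  have ha : Alg (g 0) := hl.2.2 0
  refine ⟨g 0, fun hz => ?_, ha, fun f hf => ?_⟩
  · have h4 := hT.uniq _ _ s0 (hC.inH γ _ hγ (inH_I (κ := κ))).1 fun z => by
      rw [h _ inH_I z, h3, hB.smul, hz]
      ring
    have h5 := congrFun h4 0
    rw [ind_one fun i => ⟨0, by simp⟩] at h5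
    exact one_ne_zero h5
  · have h4 := (rel_sum hB hC hγ (j := j) Finset.univ
      (fun r : κ → Fin (M ^ 2) =>
        f (fun i => (r i : ℚ) / M) • W (Sum.elim (fun i => (r i : ℚ) / M) 0) (ind M))
      (fun r : κ → Fin (M ^ 2) =>
        g 0 • f (fun i => (r i : ℚ) / M) • W (Sum.elim (fun i => (r i : ℚ) / M) 0) (ind M))
      fun r => ?_).2.2
    · rwa [← Finset.smul_sum, ← decomp hM hf] at h4
    have s1 := sch_smul hB (hf.2.2 fun i => (r i : ℚ) / M)
      (hB.schW (Sum.elim (fun i => (r i : ℚ) / M) 0) _ s0)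
    refine ⟨s1, sch_smul hB ha s1, ?_⟩
    rw [smul_comm, ← W_smul _ (g 0), ← h3, ← W_cong hB hM he hc hl]
    · exact rel_smul hB _ (h1.relW γ j _ g _ hγ h)
    · rintro (a | a)
      · rw [Sum.elim_inl, mul_div_cancel₀ _ hM']
        exact natCast_mem _ _
      · simp

end Lvl

open Lvl in
theorem lv (hB : All ThB) (hT : All ThC) (hC : All Act) (h1 : All Weil1) (hW : All Weil) :
    All Lv := by
  intro κ _ _
  replace hB := hB κ
  replace hT := hT κ
  replace hC := hC κ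
  replace h1 := h1 κ
  replace hW := hW κ
  have sc : ∀ (M : ℕ) (γ : Matrix (κ ⊕ κ) (κ ⊕ κ) ℚ), 0 < M → Even M → Sp γ →
      Cong (2 * M ^ 2) γ →
      ∃ j : Matrix κ κ ℂ → ℂ, (∀ τ, InH τ → j τ ≠ 0) ∧ ∀ f, Lev M f → Rel γ j f f := by
    intro M γ hM he hγ hc
    obtain ⟨j, hj, H⟩ := hW γ hγ
    obtain ⟨g, hg, h⟩ := H (ind M) ⟨M, hM, hB.levInd M M dvd_rfl hM⟩
    obtain ⟨c, hc0, -, h2⟩ := schur hB hT hC h1 hM he hγ hc hj hg h
    exact ⟨fun τ => c * j τ, fun τ hτ => mul_ne_zero hc0 (hj τ hτ),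
      fun f hf => rel_scal hB (h2 f hf)⟩
  refine ⟨sc, fun M hM he => ?_⟩
  -- the operators of one integral matrix
  have one : ∀ γ : Matrix (κ ⊕ κ) (κ ⊕ κ) ℚ, Sp γ → IM γ → ∃ j : Matrix κ κ ℂ → ℂ,
      (∀ τ, InH τ → j τ ≠ 0) ∧ ∀ f, ∃ g g', Lev M f →
        Lev M g ∧ Lev M g' ∧ Rel γ j f g ∧ Rel γ j g' f := by
    intro γ hγ hi
    obtain ⟨j, hj, H⟩ := hW γ hγ
    obtain ⟨j', hj', H'⟩ := hW _ (sp_iv hγ)
    have hJ : ∀ τ, InH τ → j' (act γ τ) * j τ ≠ 0 := fun τ hτ =>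
      mul_ne_zero (hj' _ (hC.inH γ τ hγ hτ).1) (hj τ hτ)
    have hs : Sp (iv γ * γ) := mul_mem (sp_iv hγ) hγ
    have hc : Cong (2 * M ^ 2) (iv γ * γ) := by
      rw [iv_mul hγ]
      exact fun a b => ⟨0, by simp⟩
    obtain ⟨g₁, s₁, r₁⟩ := H' (ind M) ⟨M, hM, hB.levInd M M dvd_rfl hM⟩
    obtain ⟨g₂, s₂, r₂⟩ := H g₁ s₁
    obtain ⟨c, hc0, ha, h2⟩ := schur hB hT hC h1 hM he hs hc hJ s₂
      (h1.relMul _ _ _ _ _ _ _ (sp_iv hγ) hγ r₁ r₂)
    refine ⟨j, hj, fun f => ?_⟩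
    by_cases hf : Lev M f
    swap
    · exact ⟨f, f, fun h => absurd h hf⟩
    have sf : Sch f := ⟨M, hM, hf⟩
    obtain ⟨g, sg, rg⟩ := H f sf
    obtain ⟨f₁, t₁, u₁⟩ := H' f sf
    obtain ⟨f₂, t₂, u₂⟩ := H f₁ t₁
    have h3 : f₂ = c • f := rel_uniq hB hT hC hs hJ t₂ (sch_smul hB ha sf)
      (h1.relMul _ _ _ _ _ _ _ (sp_iv hγ) hγ u₁ u₂) (h2 f hf)
    refine ⟨g, c⁻¹ • f₁, fun _ => ⟨lev_rel hB hT hC h1 hM he hγ hi hj hf sg rg,
      hB.levSmul M _ _ ha.inv
        (lev_rel hB hT hC h1 hM he (sp_iv hγ) (im_iv hi) hj' hf t₁ u₁), rg, ?_⟩⟩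
    have h4 := rel_smul hB c⁻¹ u₂
    rwa [h3, smul_smul, inv_mul_cancel₀ hc0, one_smul] at h4
  -- representatives of the classes
  have : NeZero (2 * M ^ 2) := ⟨by positivity⟩
  let cl : Matrix (κ ⊕ κ) (κ ⊕ κ) ℚ → κ ⊕ κ → κ ⊕ κ → ZMod (2 * M ^ 2) := fun γ a b =>
    ((γ a b).num : ZMod (2 * M ^ 2))
  have rep : ∀ r : κ ⊕ κ → κ ⊕ κ → ZMod (2 * M ^ 2), ∃ γ₀, Sp γ₀ ∧ IM γ₀ ∧
      ∀ γ, Sp γ → IM γ → cl γ = r → cl γ₀ = r := by
    intro r
    by_cases h : ∃ γ, Sp γ ∧ IM γ ∧ cl γ = r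
    · obtain ⟨γ, h2, h3, h4⟩ := h
      exact ⟨γ, h2, h3, fun _ _ _ _ => h4⟩
    · exact ⟨1, one_mem _, im_one, fun γ h2 h3 h4 => absurd ⟨γ, h2, h3, h4⟩ h⟩
  choose γ₀ hs hi hr using rep
  choose j hj T U hTU using fun r => one (γ₀ r) (hs r) (hi r)
  refine ⟨_, inferInstance, T, U, fun r f hf => ⟨(hTU r f hf).1, (hTU r f hf).2.1⟩,
    fun γ hγ hc => ?_⟩
  have hγi := im_of_cong hc
  have h2 := hr (cl γ) γ hγ hγi rfl
  set γ₁ := γ₀ (cl γ) with hγ₁
  have h3 : ∃ N, IM N ∧ γ = γ₁ + ((2 * M ^ 2 : ℕ) : ℚ) • N := by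
    have : ∀ a b, ∃ k : ℤ, γ a b = γ₁ a b + ((2 * M ^ 2 : ℕ) : ℚ) * k := by
      intro a b
      obtain ⟨x, hx⟩ := mem_Zr.1 (hγi a b)
      obtain ⟨y, hy⟩ := mem_Zr.1 (hi (cl γ) a b)
      have h4 := congrFun (congrFun h2 a) b
      simp only [cl, hx, hγ₁, hy, Rat.num_intCast] at h4
      obtain ⟨k, hk⟩ := (ZMod.intCast_eq_intCast_iff_dvd_sub _ _ _).1 h4
      refine ⟨k, ?_⟩
      rw [hx, hγ₁, hy]
      exact_mod_cast (by linarith : x = y + ((2 * M ^ 2 : ℕ) : ℤ) * k)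
    choose k hk using this
    exact ⟨Matrix.of fun a b => (k a b : ℚ), fun a b => mem_Zr.2 ⟨_, rfl⟩,
      Matrix.ext fun a b => by simp [hk a b]⟩
  obtain ⟨N, hN, h3⟩ := h3
  have hδ : Sp (γ * iv γ₁) := mul_mem hγ (sp_iv (hs _))
  obtain ⟨j', hj', H⟩ := sc M (γ * iv γ₁) hM he hδ (cong_iff.2 ⟨N * iv γ₁,
    hN.mul (im_iv (hi _)), by rw [h3, add_mul, mul_iv (hs _), smul_mul_assoc]⟩)
  have h4 : γ * iv γ₁ * γ₁ = γ := by rw [mul_assoc, iv_mul (hs _), mul_one]
  refine ⟨cl γ, fun τ => j' (act γ₁ τ) * j (cl γ) τ, fun τ hτ =>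
    mul_ne_zero (hj' _ (hC.inH _ τ (hs _) hτ).1) (hj _ τ hτ), fun f hf => ?_⟩
  obtain ⟨-, l₂, r₁, r₂⟩ := hTU (cl γ) f hf
  have h5 := h1.relMul _ _ _ _ _ _ _ hδ (hs _) (H f hf) r₁
  have h6 := h1.relMul _ _ _ _ _ _ _ hδ (hs _) (H _ l₂) r₂
  rw [← hγ₁, h4] at h5 h6
  exact ⟨h5, h6⟩

end

end Pool.Agent.GAM

end MrgPart0

-- ======== part 1: formerly Pool.Agent.MP_cbf1af_ag.gam.Thb
section MrgPart1

/-! PROJECT GAM, row THB: formal properties of theta series. -/

namespace Pool.Agent.GAM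

open Matrix Complex Filter Topology

namespace Thb

variable {κ : Type}

theorem ee_add (x y : ℂ) : ee (x + y) = ee x * ee y := by
  rw [ee, mul_add, Complex.exp_add]
  rfl

theorem ee_int (k : ℤ) : ee k = 1 := by
  rw [ee, mul_comm, exp_int_mul_two_pi_mul_I]

theorem ee_rat {x y : ℚ} (k : ℤ) (h : x = y + k) : ee x = ee y := by
  rw [h, Rat.cast_add, ee_add, Rat.cast_intCast, ee_int, mul_one]

theorem ee_zero : ee ((0 : ℚ) : ℂ) = 1 := by simp [ee]

theorem alg_ee (q : ℚ) : Alg (ee q) := by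
  have h : ee q = cexp ((2 * q : ℚ) * Real.pi * I) := by
    rw [ee]
    congr 1
    push_cast
    ring
  rw [h]
  exact ((isIntegral_exp_rat_mul_pi_mul_I (2 * q)).tower_top (A := ℚ)).isAlgebraic

theorem int_of_ee {q : ℚ} (h : ee q = 1) : ∃ k : ℤ, q = k := by
  obtain ⟨k, hk⟩ := Complex.exp_eq_one_iff.1 h
  rw [mul_comm] at hk
  exact ⟨k, by exact_mod_cast mul_right_cancel₀ two_pi_I_ne_zero hk⟩

theorem levMul (M k : ℕ) (f : (κ → ℚ) → ℂ) (h : Lev M f) : Lev (M * k) f := by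
  refine ⟨fun n hn i => ?_, fun n j => ?_, h.2.2⟩
  · obtain ⟨a, ha⟩ := h.1 n hn i
    exact ⟨k * a, by push_cast; rw [← ha]; ring⟩
  · rw [← h.2.1 n fun i => k * j i]
    congr 2
    funext i
    push_cast
    ring

theorem levDvd {M N : ℕ} {f : (κ → ℚ) → ℂ} (h : Lev M f) (hd : M ∣ N) : Lev N f := by
  obtain ⟨k, rfl⟩ := hd
  exact levMul M k f h

theorem levInd (K M : ℕ) (h : K ∣ M) : Lev M (ind K : (κ → ℚ) → ℂ) := by
  obtain ⟨d, rfl⟩ := h
  refine ⟨fun n hn i => ?_, fun n k => ?_, fun n => ?_⟩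
  · obtain ⟨a, ha⟩ := Set.mem_of_indicator_ne_zero hn i
    exact ⟨K * d * (K * a), by push_cast; rw [ha]⟩
  · refine Set.indicator_const_eq_indicator_const (forall_congr' fun i => ⟨?_, ?_⟩)
    · rintro ⟨a, ha⟩
      refine ⟨a - d * k i, ?_⟩
      simp only [Pi.add_apply] at ha
      push_cast at ha ⊢
      linear_combination ha
    · rintro ⟨a, ha⟩
      refine ⟨a + d * k i, ?_⟩
      simp only [Pi.add_apply]
      push_cast
      linear_combination ha
  · unfold ind Set.indicator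
    split_ifs
    exacts [isAlgebraic_one, isAlgebraic_zero]

variable [Fintype κ]

theorem dot_int {x y : κ → ℚ} (h : ∀ i, ∃ k : ℤ, x i * y i = k) : ∃ k : ℤ, x ⬝ᵥ y = k := by
  choose k hk using h
  exact ⟨∑ i, k i, by simp [dotProduct, hk]⟩

theorem schW (v : κ ⊕ κ → ℚ) (f : (κ → ℚ) → ℂ) (h : Sch f) : Sch (W v f) := by
  obtain ⟨M, hM, h⟩ := h
  obtain ⟨d, hd, hv⟩ : ∃ d : ℕ, 0 < d ∧ ∀ a, ∃ k : ℤ, (d : ℚ) * v a = k := by
    refine ⟨∏ a, (v a).den, Finset.prod_pos fun a _ => (v a).den_pos, fun a => ?_⟩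
    obtain ⟨e, he⟩ := Finset.dvd_prod_of_mem (fun a => (v a).den) (Finset.mem_univ a)
    exact ⟨e * (v a).num, by rw [he]; push_cast; rw [← Rat.den_mul_eq_num]; ring⟩
  refine ⟨M * d, Nat.mul_pos hM hd, fun n hn i => ?_, fun n k => ?_,
    fun n => (alg_ee _).mul (h.2.2 _)⟩
  · obtain ⟨a, ha⟩ := h.1 _ (right_ne_zero_of_mul hn) i
    obtain ⟨b, hb⟩ := hv (Sum.inl i)
    refine ⟨d * a + M * b, ?_⟩
    simp only [Pi.sub_apply, Function.comp_apply] at ha
    push_cast
    linear_combination d * ha + M * hb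
  · obtain ⟨a, ha⟩ := dot_int (x := fun i => ((M * d : ℕ) : ℚ) * k i) (y := v ∘ Sum.inr) fun i => by
      obtain ⟨b, hb⟩ := hv (Sum.inr i)
      refine ⟨M * k i * b, ?_⟩
      simp only [Function.comp_apply]
      push_cast
      linear_combination M * k i * hb
    simp only [W]
    rw [add_sub_right_comm, (levMul M d f h).2.1, ee_rat
      (y := n ⬝ᵥ (v ∘ Sum.inr) - (v ∘ Sum.inl) ⬝ᵥ (v ∘ Sum.inr) / 2) a
      (by rw [add_dotProduct, ha]; ring)]

theorem mulW [DecidableEq κ] (v w : κ ⊕ κ → ℚ) (f : (κ → ℚ) → ℂ) :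
    W v (W w f) = ee ((v ⬝ᵥ J κ ℚ *ᵥ w / 2 : ℚ) : ℂ) • W (v + w) f := by
  funext n
  have e : v ⬝ᵥ J κ ℚ *ᵥ w = (v ∘ Sum.inr) ⬝ᵥ (w ∘ Sum.inl) - (v ∘ Sum.inl) ⬝ᵥ (w ∘ Sum.inr) := by
    rw [J, fromBlocks_mulVec, ← Sum.elim_comp_inl_inr v, sumElim_dotProduct_sumElim]
    simp [neg_mulVec, sub_eq_neg_add]
  simp only [W, Pi.smul_apply, smul_eq_mul, Pi.add_comp, sub_sub, ← mul_assoc, ← ee_add,
    ← Rat.cast_add, e, add_dotProduct, dotProduct_add, sub_dotProduct]
  congr 3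
  rw [dotProduct_comm (w ∘ Sum.inl) (v ∘ Sum.inr)]
  ring

theorem levW [DecidableEq κ] (M : ℕ) (f : (κ → ℚ) → ℂ) (he : Even M) :
    Lev M f ↔ (∀ n, Alg (f n)) ∧ ∀ k : κ ⊕ κ → ℤ, W (fun a => (M : ℚ) * k a) f = f := by
  refine ⟨fun h => ⟨h.2.2, fun k => funext fun n => ?_⟩, fun h => ⟨fun n hn i => ?_,
    fun n k => ?_, h.1⟩⟩
  · have e : f (n - (fun a => (M : ℚ) * k a) ∘ Sum.inl) = f n := by
      rw [← h.2.1 n fun i => -k (Sum.inl i)]
      congr 1
      funext i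
      simp [sub_eq_add_neg]
    rw [W, e]
    by_cases hn : f n = 0
    · rw [hn, mul_zero]
    obtain ⟨m, rfl⟩ := he
    obtain ⟨a, ha⟩ := dot_int (x := n) (y := (fun a => ((m + m : ℕ) : ℚ) * k a) ∘ Sum.inr)
      fun i => by
        obtain ⟨b, hb⟩ := h.1 n hn i
        exact ⟨b * k (Sum.inr i), by simp only [Function.comp_apply]; push_cast at hb ⊢
                                     linear_combination k (Sum.inr i) * hb⟩
    have e2 : ((fun a => ((m + m : ℕ) : ℚ) * k a) ∘ Sum.inl) ⬝ᵥ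
        ((fun a => ((m + m : ℕ) : ℚ) * k a) ∘ Sum.inr) / 2 =
        (∑ i, 2 * m * m * k (Sum.inl i) * k (Sum.inr i) : ℤ) := by
      simp only [dotProduct, Function.comp_apply, Finset.sum_div]
      push_cast
      exact Finset.sum_congr rfl fun i _ => by ring
    rw [ha, e2, ← Int.cast_sub, Rat.cast_intCast, ee_int, one_mul]
  · have := congrFun (h.2 (Sum.elim 0 (Pi.single i 1))) n
    have e1 : (fun a => (M : ℚ) * (Sum.elim 0 (Pi.single i 1) : κ ⊕ κ → ℤ) a) ∘ Sum.inl = 0 := by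
      funext j
      simp
    have e2 : (fun a => (M : ℚ) * (Sum.elim 0 (Pi.single i 1) : κ ⊕ κ → ℤ) a) ∘ Sum.inr =
        Pi.single i (M : ℚ) := by
      funext j
      by_cases hj : j = i <;> simp [hj]
    rw [W, e1, e2, zero_dotProduct, zero_div, sub_zero, sub_zero, dotProduct_single,
      mul_eq_right₀ hn, mul_comm] at this
    exact int_of_ee this
  · have := congrFun (h.2 (Sum.elim (-k) 0)) n
    have e2 : (fun a => (M : ℚ) * (Sum.elim (-k) 0 : κ ⊕ κ → ℤ) a) ∘ Sum.inr = 0 := by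
      funext j
      simp
    rw [W, e2, dotProduct_zero, dotProduct_zero, zero_div, sub_zero, ee_zero, one_mul] at this
    rw [← this]
    congr 1
    funext j
    simp

theorem basis [DecidableEq κ] (M : ℕ) (hM : 0 < M) :
    ∃ (ι : Type) (_ : Fintype ι) (b : ι → (κ → ℚ) → ℂ), (∀ i, Lev M (b i) ∧ ∀ n, ‖b i n‖ ≤ 1) ∧
      ∀ f, Lev M f → ∃ a : ι → ℂ, (∀ i, Alg (a i)) ∧ f = ∑ i, a i • b i := by
  have : NeZero (M * M) := ⟨(Nat.mul_pos hM hM).ne'⟩
  have hM' : (M : ℚ) ≠ 0 := by exact_mod_cast hM.ne'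
  refine ⟨κ → ZMod (M * M), inferInstance, fun r => Set.indicator
    {n | ∀ i, ∃ m : ℤ, (M : ℚ) * n i = m ∧ (m : ZMod (M * M)) = r i} 1, fun r =>
    ⟨⟨fun n hn i => (Set.mem_of_indicator_ne_zero hn i).imp fun _ => And.left, fun n k => ?_,
      fun n => ?_⟩, fun n => ?_⟩, fun f hf =>
    ⟨fun r => f fun i => ((r i).val : ℚ) / M, fun r => hf.2.2 _, funext fun n => ?_⟩⟩
  · refine Set.indicator_const_eq_indicator_const (forall_congr' fun i => ⟨?_, ?_⟩)
    · rintro ⟨a, ha, hb⟩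
      refine ⟨a - (M * M : ℕ) * k i, ?_, ?_⟩
      · simp only [Pi.add_apply] at ha
        push_cast
        linear_combination ha
      · rw [Int.cast_sub, Int.cast_mul, Int.cast_natCast, ZMod.natCast_self, zero_mul, sub_zero, hb]
    · rintro ⟨a, ha, hb⟩
      refine ⟨a + (M * M : ℕ) * k i, ?_, ?_⟩
      · simp only [Pi.add_apply]
        push_cast
        linear_combination ha
      · rw [Int.cast_add, Int.cast_mul, Int.cast_natCast, ZMod.natCast_self, zero_mul, add_zero, hb]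
  · beta_reduce
    unfold Set.indicator
    split_ifs
    exacts [isAlgebraic_one, isAlgebraic_zero]
  · beta_reduce
    unfold Set.indicator
    split_ifs <;> simp
  · simp only [Finset.sum_apply, Pi.smul_apply, smul_eq_mul]
    by_cases hn : ∀ i, ∃ m : ℤ, (M : ℚ) * n i = m
    · choose m hm using hn
      rw [Finset.sum_eq_single (fun i => (m i : ZMod (M * M))) (fun r _ hr => ?_) (by simp),
        Set.indicator_of_mem (show n ∈ _ from fun i => ⟨m i, hm i, rfl⟩), Pi.one_apply, mul_one]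
      · choose k hk using fun i => (ZMod.intCast_eq_iff (M * M) (m i) _).1 rfl
        rw [← hf.2.1 (fun i => ((m i : ZMod (M * M)).val : ℚ) / M) k]
        congr 1
        funext i
        have h1 := hm i
        rw [hk i] at h1
        push_cast at h1
        simp only [Pi.add_apply]
        field_simp
        linear_combination h1
      · rw [Set.indicator_of_notMem, mul_zero]
        refine fun h => hr (funext fun i => ?_)
        obtain ⟨a, ha, hb⟩ := h i
        rw [← hb, Int.cast_injective ((hm i).symm.trans ha)]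
    · rw [Finset.sum_eq_zero fun r _ => by
        rw [Set.indicator_of_notMem (fun h => hn fun i => (h i).imp fun _ => And.left), mul_zero]]
      by_contra h0
      exact hn (hf.1 n h0)

theorem trans [DecidableEq κ] (v : κ ⊕ κ → ℚ) (f : (κ → ℚ) → ℂ) (τ : Matrix κ κ ℂ) (z : κ → ℂ)
    (hτ : τ.IsSymm) : thz (W v f) τ z =
      ee (cq (v ∘ Sum.inl) ⬝ᵥ (cq v ᵥ* per τ) / 2 + cq (v ∘ Sum.inl) ⬝ᵥ z) *
        thz f τ (z + cq v ᵥ* per τ) := by
  have e : cq v ᵥ* per τ = τ *ᵥ cq (v ∘ Sum.inl) + cq (v ∘ Sum.inr) := by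
    rw [per, vecMul_fromRows, vecMul_one, ← mulVec_transpose, hτ.eq]
    rfl
  have hc : ∀ x y : κ → ℚ, ((x ⬝ᵥ y : ℚ) : ℂ) = cq x ⬝ᵥ cq y := fun x y => by
    simp [dotProduct, cq]
  rw [thz, thz, ← tsum_mul_left, ← (Equiv.addRight (v ∘ Sum.inl)).tsum_eq, e]
  refine tsum_congr fun n => ?_
  have e1 : cq (n + v ∘ Sum.inl) = cq n + cq (v ∘ Sum.inl) := by
    funext i
    simp [cq]
  have e2 : cq (v ∘ Sum.inl) ⬝ᵥ τ *ᵥ cq n = cq n ⬝ᵥ τ *ᵥ cq (v ∘ Sum.inl) := by
    rw [dotProduct_mulVec, ← mulVec_transpose, hτ.eq, dotProduct_comm]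
  simp only [Equiv.coe_addRight, W, term, add_sub_cancel_right]
  rw [mul_right_comm, mul_left_comm, mul_comm, ← ee_add, ← ee_add]
  congr 2
  push_cast
  rw [hc, hc, e1]
  simp only [add_dotProduct, dotProduct_add, mulVec_add, e2]
  ring

theorem norm_term (τ : Matrix κ κ ℂ) (n : κ → ℚ) : ‖term τ 0 n‖ =
    Real.exp (-(Real.pi * ((fun i => (n i : ℝ)) ⬝ᵥ imM τ *ᵥ fun i => (n i : ℝ)))) := by
  have e : (cq n ⬝ᵥ τ *ᵥ cq n).im = (fun i => (n i : ℝ)) ⬝ᵥ imM τ *ᵥ fun i => (n i : ℝ) := by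
    simp [dotProduct, mulVec, cq, imM, Complex.im_sum]
  rw [term, ee, norm_exp, ← e]
  simp
  ring

theorem big (c : ℝ) (τ : Matrix κ κ ℂ) (hc : 0 < c) (hτ : τ.IsSymm) (h : Big c τ) : InH τ := by
  refine ⟨hτ, PosDef.of_dotProduct_mulVec_pos (by
    rw [IsHermitian, conjTranspose_eq_transpose_of_trivial]
    exact hτ.map _) fun x hx => ?_⟩
  refine lt_of_lt_of_le (mul_pos hc ?_) (h x)
  simpa using dotProduct_star_self_pos_iff.2 hx

theorem ref [DecidableEq κ] {c : ℝ} (hc : 0 < c) : ∃ τ₀ : Matrix κ κ ℂ, InH τ₀ ∧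
    ∀ τ, Big c τ → ∀ n, ‖term τ 0 n‖ ≤ ‖term τ₀ 0 n‖ := by
  have e : ∀ x : κ → ℝ, x ⬝ᵥ imM (diagonal fun _ : κ => c * I) *ᵥ x = c * (x ⬝ᵥ x) := fun x => by
    rw [imM, diagonal_map (by simp)]
    simp [dotProduct, mulVec_diagonal, Finset.mul_sum, mul_left_comm]
  refine ⟨_, big c _ hc (isSymm_diagonal _) fun x => (e x).ge, fun τ h n => ?_⟩
  rw [norm_term, norm_term, e]
  exact Real.exp_le_exp.2 (neg_le_neg (mul_le_mul_of_nonneg_left (h _) Real.pi_pos.le))

theorem isTor [DecidableEq κ] (τ : Matrix κ κ ℂ) (h : InH τ) : IsTor (tor τ) := by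
  have hi : LinearIndependent ℝ fun a => per τ a := by
    refine Fintype.linearIndependent_iff.2 fun x hx => ?_
    have h1 : (x ∘ Sum.inl) ᵥ* imM τ = 0 := by
      funext j
      have := congrArg Complex.im (congrFun hx j)
      simpa [per, Matrix.one_apply, Complex.im_sum, vecMul, dotProduct, imM, apply_ite] using this
    have h2 : x ∘ Sum.inl = 0 := by
      by_contra h2
      have := h.2.dotProduct_mulVec_pos h2
      rw [star_trivial, dotProduct_mulVec, h1, zero_dotProduct] at this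
      exact lt_irrefl _ this
    have h3 : ∀ i, x (Sum.inl i) = 0 := congrFun h2
    rintro (i | i)
    · exact h3 i
    · simpa [per, Matrix.one_apply, h3] using congrFun hx i
  refine ⟨_, basisOfLinearIndependentOfCardEqFinrank' _ hi (by
    simp [Module.finrank_pi_fintype, mul_two]), Set.ext fun z => ?_⟩
  rw [coe_basisOfLinearIndependentOfCardEqFinrank', SetLike.mem_coe,
    Submodule.mem_span_range_iff_exists_fun]
  refine exists_congr fun v => Eq.congr_left ?_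
  funext j
  simp [vecMul, dotProduct, cq, Rat.smul_def]

theorem dense (V : Set (κ → ℂ)) (h : IsTor V) : Dense V := by
  obtain ⟨ι, b, rfl⟩ := h
  have := Module.Finite.finite_basis b
  have := Fintype.ofFinite ι
  have h1 := b.equivFun.symm.surjective.denseRange.comp
    (DenseRange.piMap fun _ : ι => Rat.denseRange_cast (𝕜 := ℝ))
    b.equivFun.symm.toLinearMap.continuous_of_finiteDimensional
  refine Dense.mono ?_ h1
  rintro _ ⟨q, rfl⟩
  refine (Submodule.mem_span_range_iff_exists_fun ℚ).2 ⟨q, ?_⟩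
  simp [Rat.cast_smul_eq_qsmul]

end Thb

open Thb in
/-- Row THB. -/
theorem thB (hA : All ThA) : All ThB := by
  intro κ _ _
  have hs : ∀ (f : (κ → ℚ) → ℂ) τ z, Sch f → InH τ → Summable fun n => ‖f n * term τ z n‖ :=
    fun f τ z hf hτ => by simpa only [pow_zero, mul_one] using (hA κ).summ f τ z 0 hf hτ
  refine ⟨fun M k f _ => levMul M k f, fun M f g hf hg => ⟨fun n hn => ?_, fun n k => ?_,
      fun n => (hf.2.2 n).add (hg.2.2 n)⟩,
    fun M a f ha hf => ⟨fun n hn => hf.1 n (right_ne_zero_of_mul hn), fun n k => ?_,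
      fun n => ha.mul (hf.2.2 n)⟩,
    fun M f hf => ⟨fun n hn i => ?_, fun n k => ?_, fun n => hf.2.2 _⟩,
    fun K M h _ => levInd K M h, fun ι _ f hf => ?_, schW, fun M f _ => levW M f, mulW, basis,
    fun f g τ z hf hg hτ => ?_, fun a f τ z => ?_, fun f τ z => ?_, trans,
    fun f c hf hc => ?_, fun c hc => ?_, big, isTor, dense⟩
  · by_cases h : f n = 0
    · exact hg.1 n fun h' => hn (by simp [h, h'])
    · exact hf.1 n h
  · simp only [Pi.add_apply f, hf.2.1, hg.2.1]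
  · simp only [Pi.smul_apply, hf.2.1]
  · obtain ⟨a, ha⟩ := hf.1 _ hn i
    exact ⟨-a, by push_cast; rw [← ha]; simp⟩
  · show f _ = f _
    rw [← hf.2.1 (-n) (-k)]
    congr 1
    funext i
    simp [add_comm]
  · choose M hM hf using hf
    have := Fintype.ofFinite ι
    exact ⟨2 * ∏ i, M i, Nat.mul_pos two_pos (Finset.prod_pos fun i _ => hM i), even_two_mul _,
      fun i => levDvd (hf i) ((Finset.dvd_prod_of_mem M (Finset.mem_univ i)).mul_left 2)⟩
  · simp only [thz, Pi.add_apply, add_mul]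
    exact (hs f τ z hf hτ).of_norm.tsum_add (hs g τ z hg hτ).of_norm
  · simp only [thz, Pi.smul_apply, smul_eq_mul, mul_assoc, tsum_mul_left]
  · rw [thz, thz, ← (Equiv.neg (κ → ℚ)).tsum_eq]
    refine tsum_congr fun n => ?_
    have e : cq (-n) = -cq n := by
      funext i
      simp [cq]
    simp [term, e, mulVec_neg]
  · obtain ⟨τ₀, h0, h1⟩ := ref (κ := κ) hc
    refine ⟨_, fun τ _ h => tsum_of_norm_bounded (hs f τ₀ 0 hf h0).hasSum fun n => ?_⟩
    rw [norm_mul, norm_mul]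
    exact mul_le_mul_of_nonneg_left (h1 τ h n) (norm_nonneg _)
  · obtain ⟨τ₀, h0, h1⟩ := ref (κ := κ) hc
    have h2 := hs (ind 1) τ₀ 0 ⟨1, one_pos, levInd 1 1 dvd_rfl⟩ h0
    obtain ⟨s, h3⟩ := ((tendsto_order.1 (tendsto_tsum_compl_atTop_zero
      fun n => ‖ind 1 n * term τ₀ 0 n‖)).2 _ one_half_pos).exists
    obtain ⟨K, hK⟩ := exists_nat_gt (∑ n ∈ s, ∑ i, |n i|)
    have hK0 : 0 < K := by
      have : (0 : ℚ) < K := lt_of_le_of_lt (by positivity) hK
      exact_mod_cast this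
    refine ⟨K, hK0, fun τ hτ h => ?_⟩
    have h4 : ‖∑' n, if n = 0 then 0 else ind K n * term τ 0 n‖ ≤ 1 / 2 := by
      refine (tsum_of_norm_bounded (h2.indicator {n | n ∉ s}).hasSum fun n => ?_).trans
        ((tsum_subtype _ _).symm.le.trans h3.le)
      by_cases hn : n = 0 ∨ ind K n = 0
      · refine le_trans (le_of_eq ?_) (Set.indicator_nonneg (fun _ _ => norm_nonneg _) n)
        rcases hn with hn | hn <;> simp [hn]
      rw [not_or] at hn
      have h5 := Set.mem_of_indicator_ne_zero hn.2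
      have h6 : n ∉ s := fun hs => by
        obtain ⟨i, hi⟩ := Function.ne_iff.1 hn.1
        obtain ⟨k, hk⟩ := h5 i
        have e1 : (1 : ℚ) ≤ |(k : ℚ)| := by
          have : k ≠ 0 := fun h => hi (by simp [hk, h])
          exact_mod_cast Int.one_le_abs this
        have e2 : |n i| ≤ ∑ n ∈ s, ∑ i, |n i| :=
          (Finset.single_le_sum (f := fun i => |n i|) (fun _ _ => abs_nonneg _)
            (Finset.mem_univ i)).trans (Finset.single_le_sum (f := fun n : κ → ℚ => ∑ i, |n i|)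
            (fun _ _ => by positivity) hs)
        rw [hk, abs_mul, Nat.abs_cast] at e2
        nlinarith [Nat.cast_nonneg (α := ℚ) K]
      rw [if_neg hn.1, Set.indicator_of_mem (show n ∈ {n | n ∉ s} from h6), ind, ind,
        Set.indicator_of_mem h5, Set.indicator_of_mem (show n ∈ _ from fun i =>
          let ⟨k, hk⟩ := h5 i; ⟨K * k, by simp [hk]⟩), Pi.one_apply, one_mul, one_mul]
      exact h1 τ h n
    rw [th, thz, (hs (ind K) τ 0 ⟨K, hK0, levInd K K dvd_rfl⟩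
      (big c τ hc hτ h)).of_norm.tsum_eq_add_tsum_ite 0]
    have h5 : ind K (0 : κ → ℚ) * term τ 0 0 = 1 := by
      rw [ind, Set.indicator_of_mem (show (0 : κ → ℚ) ∈ _ from fun i => ⟨0, by simp⟩)]
      simp [term, ee, cq, dotProduct]
    rw [h5]
    have h6 := norm_sub_norm_le (1 : ℂ) (-∑' n, if n = 0 then 0 else ind K n * term τ 0 n)
    rw [norm_one, norm_neg, sub_neg_eq_add] at h6
    linarith

end Pool.Agent.GAM

end MrgPart1

-- ======== part 2: formerly Pool.Agent.MP_cbf1af_ag.gam.Val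
section MrgPart2

/-! PROJECT GAM, row VAL: values and differentials of algebraic germs. -/

namespace Pool.Agent.GAM

open Matrix Complex Filter Topology MvPolynomial
open Pool.Agent.CMP (Qb)

noncomputable section

namespace ValX

/-- chain rule for a polynomial in differentiable functions -/
theorem hasFDerivAt_eval {E σ : Type} [NormedAddCommGroup E] [NormedSpace ℂ E] [Fintype σ]
    (u : σ → E → ℂ) (u' : σ → E →L[ℂ] ℂ) (x : E) (hu : ∀ i, HasFDerivAt (u i) (u' i) x)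
    (P : MvPolynomial σ ℂ) :
    HasFDerivAt (fun y => eval (fun i => u i y) P)
      (∑ i, eval (fun i => u i x) (pderiv i P) • u' i) x := by
  classical
  induction P using MvPolynomial.induction_on with
  | C a =>
    have h : HasFDerivAt (fun _ : E => a) (0 : E →L[ℂ] ℂ) x := hasFDerivAt_const a x
    simp only [eval_C]
    refine h.congr_fderiv (ContinuousLinearMap.ext fun w => ?_)
    simp
  | add p q hp hq =>
    have h := hp.fun_add hq
    simp only [map_add]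
    refine h.congr_fderiv (ContinuousLinearMap.ext fun w => ?_)
    simp [add_mul, Finset.sum_add_distrib]
  | mul_X p j hp =>
    have h := hp.fun_mul (hu j)
    simp only [map_mul, eval_X]
    refine h.congr_fderiv (ContinuousLinearMap.ext fun w => ?_)
    simp only [_root_.add_apply, _root_.smul_apply,
      _root_.sum_apply, smul_eq_mul, pderiv_mul, map_add, map_mul, eval_X, add_mul,
      Finset.sum_add_distrib, Finset.mul_sum]
    rw [add_comm]
    congr 1
    · exact Finset.sum_congr rfl fun i _ => by ring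
    · rw [Finset.sum_eq_single j]
      · simp
      · intro b _ hb
        rw [pderiv_X_of_ne (Ne.symm hb)]
        simp
      · simp

theorem analyticAt_eval {E σ : Type} [NormedAddCommGroup E] [NormedSpace ℂ E]
    (u : σ → E → ℂ) (x : E) (hu : ∀ i, AnalyticAt ℂ (u i) x) (P : MvPolynomial σ ℂ) :
    AnalyticAt ℂ (fun y => eval (fun i => u i y) P) x := by
  have := AnalyticAt.aeval_mvPolynomial (𝕜 := ℂ) (f := fun y i => u i y) (z := x) hu P
  simpa only [MvPolynomial.coe_aeval_eq_eval, aeval_eq_eval] using this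

variable {ι : Type} [Fintype ι]

/-- the point of the graph of `g` -/
def gr (g : (ι → ℂ) → ℂ) (t : ι → ℂ) : Option ι → ℂ := fun o => o.elim (g t) t

/-- `P` vanishes on the graph of `g` near `c` -/
def GRel (g : (ι → ℂ) → ℂ) (c : ι → ℂ) (P : MvPolynomial (Option ι) ℂ) : Prop :=
  ∀ᶠ t in 𝓝 c, eval (gr g t) P = 0

/-- algebraic coefficients -/
def AC (P : MvPolynomial (Option ι) ℂ) : Prop := ∀ m, Alg (P.coeff m)

omit [Fintype ι] in
theorem AC.pderiv {P : MvPolynomial (Option ι) ℂ} (h : AC P) (o : Option ι) :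
    AC (pderiv o P) := by
  intro m
  rw [coeff_pderiv]
  refine (h _).mul ?_
  have : IsAlgebraic ℚ (((m o + 1 : ℕ)) : ℂ) := isAlgebraic_natCast _
  simpa using this

theorem gr_analytic {g : (ι → ℂ) → ℂ} {t : ι → ℂ} (hg : AnalyticAt ℂ g t) (o : Option ι) :
    AnalyticAt ℂ (fun s => gr g s o) t := by
  cases o with
  | none => exact hg
  | some k => exact (ContinuousLinearMap.proj k : (ι → ℂ) →L[ℂ] ℂ).analyticAt t

/-- a relation that does not involve the value is zero -/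
theorem zero_of_free {g : (ι → ℂ) → ℂ} {c : ι → ℂ} {P : MvPolynomial (Option ι) ℂ}
    (hr : GRel g c P) (h0 : ∀ m ∈ P.support, m none = 0) : P = 0 := by
  have key : ∀ x : Option ι → ℂ, eval x P = eval (gr g fun k => x (some k)) P := by
    intro x
    refine MvPolynomial.eval₂_congr (RingHom.id ℂ) _ _ ?_
    intro i m hi hm
    cases i with
    | none =>
      exact absurd (h0 m (mem_support_iff.2 hm)) (Finsupp.mem_support_iff.1 hi)
    | some k => rfl
  have hc : Tendsto (fun x : Option ι → ℂ => fun k => x (some k)) (𝓝 (gr g c)) (𝓝 c) := by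
    have : Continuous (fun x : Option ι → ℂ => fun k => x (some k)) := by fun_prop
    exact this.tendsto (gr g c)
  have hev : (fun x : Option ι → ℂ => eval x P) =ᶠ[𝓝 (gr g c)] 0 := by
    filter_upwards [hc.eventually hr] with x hx
    rw [key x]
    exact hx
  have hz := (AnalyticOnNhd.eval_mvPolynomial (𝕜 := ℂ) P).eqOn_zero_of_preconnected_of_eventuallyEq_zero
    isPreconnected_univ (Set.mem_univ _) hev
  refine MvPolynomial.funext fun x => ?_
  simpa using hz (Set.mem_univ x)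

/-- a relation whose derivative in the value is not a relation -/
theorem exists_sep {g : (ι → ℂ) → ℂ} {c : ι → ℂ} (n : ℕ) :
    ∀ P : MvPolynomial (Option ι) ℂ, AC P → P ≠ 0 → GRel g c P → (∀ m ∈ P.support, m none ≤ n) →
      ∃ Q : MvPolynomial (Option ι) ℂ, AC Q ∧ GRel g c Q ∧ ¬ GRel g c (pderiv none Q) := by
  induction n with
  | zero =>
    intro P _ hP hr hn
    exact absurd (zero_of_free hr fun m hm => Nat.le_zero.1 (hn m hm)) hP
  | succ n ih =>
    intro P hA hP hr hn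
    by_cases h1 : GRel g c (pderiv none P)
    · refine ih _ (hA.pderiv none) ?_ h1 ?_
      · intro h0
        refine hP (zero_of_free hr fun m hm => ?_)
        by_contra hm0
        have hle : Finsupp.single none 1 ≤ m := by
          rw [Finsupp.single_le_iff]
          omega
        have h2 := coeff_pderiv (i := none) P (m - Finsupp.single none 1)
        rw [h0, coeff_zero, tsub_add_cancel_of_le hle] at h2
        rcases mul_eq_zero.1 h2.symm with h3 | h3
        · exact mem_support_iff.1 hm h3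
        · exact Nat.cast_add_one_ne_zero _ h3
      · intro m hm
        have h2 := mem_support_iff.1 hm
        rw [coeff_pderiv] at h2
        have h3 := hn _ (mem_support_iff.2 (left_ne_zero_of_mul h2))
        simp only [Finsupp.add_apply, Finsupp.single_eq_same] at h3
        omega
    · exact ⟨P, hA, hr, h1⟩

/-- the derivative of a relation -/
theorem rel_deriv {g : (ι → ℂ) → ℂ} {c : ι → ℂ} {P : MvPolynomial (Option ι) ℂ}
    (hg : AnalyticAt ℂ g c) (hr : GRel g c P) :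
    ∀ᶠ t in 𝓝 c, ∀ w : ι → ℂ, eval (gr g t) (pderiv none P) * fderiv ℂ g t w +
      ∑ k, eval (gr g t) (pderiv (some k) P) * w k = 0 := by
  filter_upwards [hg.eventually_analyticAt, hr.eventually_nhds] with t ht h0 w
  have h1 := hasFDerivAt_eval (fun o s => gr g s o)
    (fun o => o.elim (fderiv ℂ g t) fun k => (ContinuousLinearMap.proj k : (ι → ℂ) →L[ℂ] ℂ)) t
    (fun o => by
      cases o with
      | none => exact ht.differentiableAt.hasFDerivAt
      | some k => exact (ContinuousLinearMap.proj k : (ι → ℂ) →L[ℂ] ℂ).hasFDerivAt) P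
  have h2 : HasFDerivAt (fun s => eval (fun o => gr g s o) P) (0 : (ι → ℂ) →L[ℂ] ℂ) t :=
    (hasFDerivAt_const (0 : ℂ) t).congr_of_eventuallyEq h0
  have h3 := congrArg (fun L : (ι → ℂ) →L[ℂ] ℂ => L w) (h1.unique h2)
  simpa [Fintype.sum_option] using h3

/-- good directions: an analytic germ that is not zero is not zero on many lines -/
theorem good_dirs {h : (ι → ℂ) → ℂ} {c : ι → ℂ} (hh : AnalyticAt ℂ h c)
    (hne : ¬ ∀ᶠ t in 𝓝 c, h t = 0) :
    ∃ v₀ : ι → ℂ, ∀ᶠ v in 𝓝 v₀, ¬ (fun x : ℂ => h (c + x • v)) =ᶠ[𝓝 0] 0 := by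
  obtain ⟨r, hr, hb⟩ := Metric.eventually_nhds_iff_ball.1 hh.eventually_analyticAt
  have : ∃ t ∈ Metric.ball c r, h t ≠ 0 := by
    by_contra hcon
    push Not at hcon
    exact hne (Metric.eventually_nhds_iff_ball.2 ⟨r, hr, hcon⟩)
  obtain ⟨t, ht, ht0⟩ := this
  refine ⟨t - c, ?_⟩
  have hT : Tendsto (fun v : ι → ℂ => c + v) (𝓝 (t - c)) (𝓝 t) := by
    have : Continuous (fun v : ι → ℂ => c + v) := by fun_prop
    simpa using this.tendsto (t - c)
  have e1 : ∀ᶠ s in 𝓝 t, h s ≠ 0 := (hb t ht).continuousAt.eventually_ne ht0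
  have e2 : ∀ᶠ s in 𝓝 t, s ∈ Metric.ball c r := Metric.isOpen_ball.mem_nhds ht
  filter_upwards [hT.eventually e1, hT.eventually e2] with v hv1 hv2 hz
  have hlin : IsLinearMap ℝ (fun x : ℂ => x • v) :=
    ⟨fun a b => add_smul a b v, fun a b => smul_assoc a b v⟩
  have hconv : Convex ℝ ((fun x : ℂ => x • v) ⁻¹' Metric.ball 0 r) :=
    (convex_ball 0 r).is_linear_preimage hlin
  have hana : AnalyticOnNhd ℂ (fun x : ℂ => h (c + x • v))
      ((fun x : ℂ => x • v) ⁻¹' Metric.ball 0 r) := by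
    intro x hx
    have hm : c + x • v ∈ Metric.ball c r := by
      simpa [Metric.mem_ball, dist_eq_norm] using hx
    exact AnalyticAt.comp (g := h) (f := fun x : ℂ => c + x • v) (hb _ hm) (by fun_prop)
  have h01 := hana.eqOn_zero_of_preconnected_of_eventuallyEq_zero hconv.isPreconnected
    (z₀ := 0) (by simpa using hr) hz
  have h1 : (1 : ℂ) ∈ (fun x : ℂ => x • v) ⁻¹' Metric.ball 0 r := by
    simpa [Metric.mem_ball, dist_eq_norm] using hv2
  exact hv1 (by simpa using h01 h1)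

theorem tay_sum (hT : Tay) {σ : Type} (s : Finset σ) (f : σ → ℂ → ℂ)
    (hf : ∀ i, AnalyticAt ℂ (f i) 0) :
    tay (fun x => ∑ i ∈ s, f i x) = ∑ i ∈ s, tay (f i) := by
  classical
  induction s using Finset.induction_on with
  | empty => simpa using hT.const 0
  | insert a s ha ih =>
    simp only [Finset.sum_insert ha]
    rw [hT.add _ _ (hf a) (Finset.analyticAt_fun_sum s fun i _ => hf i), ih]

theorem line_analytic {h : (ι → ℂ) → ℂ} {c : ι → ℂ} (hh : AnalyticAt ℂ h c) (v : ι → ℂ) :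
    AnalyticAt ℂ (fun x : ℂ => h (c + x • v)) 0 := by
  refine AnalyticAt.comp (g := h) (f := fun x : ℂ => c + x • v) ?_ (by fun_prop)
  simpa using hh

omit [Fintype ι] in
theorem line_tendsto (c v : ι → ℂ) : Tendsto (fun x : ℂ => c + x • v) (𝓝 0) (𝓝 c) := by
  have : Continuous (fun x : ℂ => c + x • v) := by fun_prop
  simpa using this.tendsto 0

theorem fderiv_apply_analytic {g : (ι → ℂ) → ℂ} {c : ι → ℂ} (hg : AnalyticAt ℂ g c)
    (w : ι → ℂ) : AnalyticAt ℂ (fun t => fderiv ℂ g t w) c :=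
  ((ContinuousLinearMap.apply ℂ ℂ w).analyticAt _).comp hg.fderiv

/-- the derivation of the Taylor series along a good line -/
theorem line (hT : Tay) {g : (ι → ℂ) → ℂ} {c : ι → ℂ} {P : MvPolynomial (Option ι) ℂ}
    (hg : AnalyticAt ℂ g c) (hA : AC P) (hr : GRel g c P) (v : ι → ℂ)
    (hv : ¬ (fun x : ℂ => eval (gr g (c + x • v)) (pderiv none P)) =ᶠ[𝓝 0] 0)
    (δ : Derivation ℚ ℂ ℂ) :
    dl δ (tay fun x => g (c + x • v)) =
      tay (fun x => fderiv ℂ g (c + x • v) fun k => δ (c k)) +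
        PowerSeries.X * tay (fun x => fderiv ℂ g (c + x • v) fun k => δ (v k)) := by
  have hu : ∀ o, AnalyticAt ℂ (fun x : ℂ => gr g (c + x • v) o) 0 := fun o =>
    line_analytic (gr_analytic hg o) v
  set φ : Option ι → PowerSeries ℂ := fun o => tay fun x : ℂ => gr g (c + x • v) o with hφ
  have hae : ∀ R : MvPolynomial (Option ι) ℂ,
      tay (fun x : ℂ => eval (gr g (c + x • v)) R) = aeval φ R := fun R =>
    hT.aeval (Option ι) (fun o x => gr g (c + x • v) o) R hu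
  have hana : ∀ R : MvPolynomial (Option ι) ℂ,
      AnalyticAt ℂ (fun x : ℂ => eval (gr g (c + x • v)) R) 0 := fun R =>
    analyticAt_eval (fun o x => gr g (c + x • v) o) 0 hu R
  have t0 : tay (fun _ => 0) = 0 := by simpa using hT.const 0
  have h0 : aeval φ P = 0 := by
    rw [← hae, ← t0]
    exact hT.congr _ _ ((line_tendsto c v).eventually hr)
  have hk : ∀ k, φ (some k) = PowerSeries.C (c k) + PowerSeries.X * PowerSeries.C (v k) := by
    intro k
    have e : (fun x : ℂ => gr g (c + x • v) (some k)) = fun x => c k + x * v k := by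
      funext x
      simp [gr]
    simp only [hφ]
    rw [e, hT.add _ _ analyticAt_const (by fun_prop), hT.mul (fun x => x) _ analyticAt_id analyticAt_const,
      hT.const, hT.const, hT.id]
  have hdk : ∀ k, dl δ (φ (some k)) =
      PowerSeries.C (δ (c k)) + PowerSeries.X * PowerSeries.C (δ (v k)) := by
    intro k
    rw [hk, hT.dlAdd, hT.dlMul, hT.dlC, hT.dlC, hT.dlX]
    simp
  obtain ⟨Q, hQ, hQe⟩ := hT.dlAeval δ (Option ι) φ P
  have hQ0 : Q = 0 := by
    ext m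
    rw [hQ, hT.kill δ _ (hA m), coeff_zero]
  have d0 : dl δ 0 = 0 := by simpa using hT.dlC δ 0
  rw [h0, hQ0, d0, map_zero, zero_add, Fintype.sum_option] at hQe
  simp only [hdk] at hQe
  have hw : ∀ w : ι → ℂ,
      aeval φ (pderiv none P) * tay (fun x => fderiv ℂ g (c + x • v) w) +
        ∑ k, aeval φ (pderiv (some k) P) * PowerSeries.C (w k) = 0 := by
    intro w
    have a1 := line_analytic (fderiv_apply_analytic hg w) v
    have a2 : ∀ k, AnalyticAt ℂ
        (fun x : ℂ => eval (gr g (c + x • v)) (pderiv (some k) P) * w k) 0 := fun k =>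
      (hana _).mul analyticAt_const
    have e := hT.congr (fun x : ℂ => eval (gr g (c + x • v)) (pderiv none P) *
        fderiv ℂ g (c + x • v) w + ∑ k, eval (gr g (c + x • v)) (pderiv (some k) P) * w k)
      (fun _ => 0) (by
        filter_upwards [(line_tendsto c v).eventually (rel_deriv hg hr)] with x hx
        exact hx w)
    rw [hT.add _ _ ((hana _).fun_mul a1) (Finset.analyticAt_fun_sum _ fun k _ => a2 k),
      hT.mul _ _ (hana _) a1, tay_sum hT _ _ a2, t0, hae] at e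
    rw [← e]
    congr 1
    refine Finset.sum_congr rfl fun k _ => ?_
    rw [hT.mul _ _ (hana _) analyticAt_const, hae, hT.const]
  have hH : aeval φ (pderiv none P) ≠ 0 := by
    intro h
    rw [← hae] at h
    exact hv (hT.inj _ (hana _) h)
  refine mul_left_cancel₀ hH ?_
  have e1 := hw fun k => δ (c k)
  have e2 := hw fun k => δ (v k)
  have e3 : ∑ k, aeval φ (pderiv (some k) P) *
      (PowerSeries.C (δ (c k)) + PowerSeries.X * PowerSeries.C (δ (v k))) =
      ∑ k, aeval φ (pderiv (some k) P) * PowerSeries.C (δ (c k)) +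
        PowerSeries.X * ∑ k, aeval φ (pderiv (some k) P) * PowerSeries.C (δ (v k)) := by
    rw [Finset.mul_sum, ← Finset.sum_add_distrib]
    exact Finset.sum_congr rfl fun k _ => by ring
  rw [e3] at hQe
  have e4 : φ none = tay fun x => g (c + x • v) := rfl
  rw [e4] at hQe
  linear_combination -hQe - e1 - PowerSeries.X * e2

theorem coeff_one_tay (f : ℂ → ℂ) : PowerSeries.coeff 1 (tay f) = deriv f 0 := by
  simp [tay]

theorem deriv_line {g : (ι → ℂ) → ℂ} {c : ι → ℂ} (hg : AnalyticAt ℂ g c) (v : ι → ℂ) :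
    deriv (fun x : ℂ => g (c + x • v)) 0 = fderiv ℂ g c v := by
  have h1 : HasDerivAt (fun x : ℂ => c + x • v) v 0 := by
    simpa using ((hasDerivAt_id (0 : ℂ)).smul_const v).const_add c
  have h2 : HasFDerivAt g (fderiv ℂ g c) (c + (0 : ℂ) • v) := by
    simpa using hg.differentiableAt.hasFDerivAt
  exact (h2.comp_hasDerivAt (0 : ℂ) h1).deriv

theorem clm_expand [DecidableEq ι] (L : (ι → ℂ) →L[ℂ] ℂ) (v : ι → ℂ) :
    L v = ∑ k, L (Pi.single k 1) * v k := by
  conv_lhs => rw [pi_eq_sum_univ' v]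
  rw [map_sum]
  refine Finset.sum_congr rfl fun k _ => ?_
  rw [map_smul, smul_eq_mul, mul_comm]

/-- the statement in the coordinates given by the functions `F` -/
theorem core (hT : Tay) [DecidableEq ι] {g : (ι → ℂ) → ℂ} {c : ι → ℂ}
    {P : MvPolynomial (Option ι) ℂ} (hg : AnalyticAt ℂ g c) (hA : AC P) (hP : P ≠ 0)
    (hr : GRel g c P) (δ : Derivation ℚ ℂ ℂ) :
    δ (g c) = fderiv ℂ g c (fun k => δ (c k)) ∧
      ((∀ k, δ (c k) = 0) → ∀ k, δ (fderiv ℂ g c (Pi.single k 1)) = 0) := by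
  obtain ⟨Q, hQA, hQr, hQn⟩ := exists_sep (P.degreeOf none) P hA hP hr
    (fun m hm => monomial_le_degreeOf none hm)
  have hh : AnalyticAt ℂ (fun t => eval (gr g t) (pderiv none Q)) c :=
    analyticAt_eval (fun o t => gr g t o) c (gr_analytic hg) _
  obtain ⟨v₀, hv₀⟩ := good_dirs hh hQn
  constructor
  · have e := congrArg PowerSeries.constantCoeff (line hT hg hQA hQr v₀ hv₀.self_of_nhds δ)
    have e0 : PowerSeries.constantCoeff (dl δ (tay fun x => g (c + x • v₀))) = δ (g c) := by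
      rw [← PowerSeries.coeff_zero_eq_constantCoeff_apply, dl, PowerSeries.coeff_mk,
        PowerSeries.coeff_zero_eq_constantCoeff_apply, hT.coeff0]
      simp
    rw [e0, map_add, map_mul, PowerSeries.constantCoeff_X, zero_mul, add_zero, hT.coeff0] at e
    simpa using e
  · intro hc k
    have key : ∀ᶠ v in 𝓝 v₀, ∑ j, δ (fderiv ℂ g c (Pi.single j 1)) * v j = 0 := by
      filter_upwards [hv₀] with v hv
      have e := congrArg (PowerSeries.coeff 1) (line hT hg hQA hQr v hv δ)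
      have z : (fun k => δ (c k)) = 0 := funext hc
      have t0 : tay (fun _ => 0) = 0 := by simpa using hT.const 0
      rw [z] at e
      simp only [map_zero] at e
      rw [t0, zero_add, dl, PowerSeries.coeff_mk, coeff_one_tay, deriv_line hg,
        PowerSeries.coeff_succ_X_mul, PowerSeries.coeff_zero_eq_constantCoeff_apply,
        hT.coeff0] at e
      simp only [zero_smul, add_zero] at e
      rw [clm_expand _ v, clm_expand _ fun k => δ (v k), map_sum] at e
      simp only [Derivation.leibniz, smul_eq_mul, Finset.sum_add_distrib] at e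
      have e' : ∑ j, v j * δ (fderiv ℂ g c (Pi.single j 1)) = 0 := by linear_combination e
      rw [← e']
      exact Finset.sum_congr rfl fun j _ => mul_comm _ _
    have k0 := key.self_of_nhds
    have k1 := ((line_tendsto v₀ (Pi.single k 1)).eventually key).filter_mono
      (nhdsWithin_le_nhds (s := {0}ᶜ))
    obtain ⟨x, hx, hx0⟩ := (k1.and self_mem_nhdsWithin).exists
    simp only [Pi.add_apply, Pi.smul_apply, smul_eq_mul, mul_add, Finset.sum_add_distrib,
      k0, zero_add] at hx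
    rw [Finset.sum_eq_single k] at hx
    · simp only [Pi.single_eq_same, mul_one] at hx
      exact (mul_eq_zero.1 hx).resolve_right hx0
    · intro b _ hb
      simp [Pi.single_eq_of_ne hb]
    · simp

/-- the analytic local inverse -/
theorem local_inverse {Φ : (ι → ℂ) → ι → ℂ} {x₀ : ι → ℂ} (hΦ : AnalyticAt ℂ Φ x₀)
    (hinj : Function.Injective (fderiv ℂ Φ x₀)) :
    ∃ ψ : (ι → ℂ) → ι → ℂ, AnalyticAt ℂ ψ (Φ x₀) ∧ ψ (Φ x₀) = x₀ ∧
      (∀ᶠ x in 𝓝 x₀, ψ (Φ x) = x) ∧ ∀ᶠ y in 𝓝 (Φ x₀), Φ (ψ y) = y := by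
  let L : (ι → ℂ) ≃L[ℂ] (ι → ℂ) :=
    (LinearEquiv.ofInjectiveEndo (fderiv ℂ Φ x₀).toLinearMap hinj).toContinuousLinearEquiv
  have hL : (L : (ι → ℂ) →L[ℂ] (ι → ℂ)) = fderiv ℂ Φ x₀ := by
    ext v k
    rfl
  have hd : HasFDerivAt Φ (L : (ι → ℂ) →L[ℂ] (ι → ℂ)) x₀ := by
    rw [hL]
    exact hΦ.differentiableAt.hasFDerivAt
  have hc : ContDiffAt ℂ ⊤ Φ x₀ := hΦ.contDiffAt
  have hn : (⊤ : WithTop ℕ∞) ≠ 0 := by simp
  have hs := hc.hasStrictFDerivAt' hd hn
  refine ⟨hc.localInverse hd hn, ?_, hc.localInverse_apply_image hd hn,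
    hs.eventually_left_inverse, hs.eventually_right_inverse⟩
  exact (hc.to_localInverse hd hn).analyticAt

end ValX

open ValX in
theorem val (hT : Tay) (hD : DerEx) : Val := by
  intro ι _ x₀ F G P hF hG hinj hP hrel
  classical
  have hΦ : AnalyticAt ℂ (fun x k => F k x) x₀ := analyticAt_pi_iff.2 hF
  obtain ⟨ψ, hψ, hψ0, hl, hr⟩ := local_inverse hΦ hinj
  have hg : AnalyticAt ℂ (fun t => G (ψ t)) (fun k => F k x₀) :=
    AnalyticAt.comp (g := G) (f := ψ) (by rw [hψ0]; exact hG) hψ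
  have hA : AC (MvPolynomial.map (algebraMap Qb ℂ) P) := by
    intro m
    rw [coeff_map]
    exact (mem_algebraicClosure_iff).1 (P.coeff m).2
  have hP' : MvPolynomial.map (algebraMap Qb ℂ) P ≠ 0 := by
    intro h
    exact hP (map_injective _ (algebraMap Qb ℂ).injective (by rw [h, map_zero]))
  have hR : GRel (fun t => G (ψ t)) (fun k => F k x₀) (MvPolynomial.map (algebraMap Qb ℂ) P) := by
    have ht : Tendsto ψ (𝓝 fun k => F k x₀) (𝓝 x₀) := by
      have := hψ.continuousAt.tendsto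
      rwa [hψ0] at this
    filter_upwards [ht.eventually hrel, hr] with t h1 h2
    rw [eval_map, ← aeval_def, ← h1]
    congr 2
    funext o
    cases o with
    | none => rfl
    | some k => exact (congrFun h2 k).symm
  have hGd : ∀ s, fderiv ℂ G x₀ s =
      fderiv ℂ (fun t => G (ψ t)) (fun k => F k x₀) (fun k => fderiv ℂ (F k) x₀ s) := by
    intro s
    have e : G =ᶠ[𝓝 x₀] (fun t => G (ψ t)) ∘ fun x k => F k x := by
      filter_upwards [hl] with x hx
      simp only [Function.comp]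
      rw [hx]
    rw [e.fderiv_eq, fderiv_comp x₀ hg.differentiableAt hΦ.differentiableAt,
      fderiv_pi fun k => (hF k).differentiableAt]
    rfl
  have hG0 : G (ψ fun k => F k x₀) = G x₀ := by rw [hψ0]
  have h1 : ∀ (δ : Derivation ℚ ℂ ℂ) (s : ι → ℂ), (∀ k, fderiv ℂ (F k) x₀ s = δ (F k x₀)) →
      fderiv ℂ G x₀ s = δ (G x₀) := by
    intro δ s hs
    rw [hGd, ← hG0, (core hT hg hA hP' hR δ).1]
    simp only [hs]
  refine ⟨h1, fun hal => ⟨hD _ fun δ => ?_, fun k =>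
    fderiv ℂ (fun t => G (ψ t)) (fun k => F k x₀) (Pi.single k 1), fun k => hD _ fun δ => ?_,
    fun s => ?_⟩⟩
  · rw [← h1 δ 0 fun k => by rw [hT.kill δ _ (hal k), map_zero], map_zero]
  · exact (core hT hg hA hP' hR δ).2 (fun j => hT.kill δ _ (hal j)) k
  · rw [hGd, clm_expand]

end

end Pool.Agent.GAM

end MrgPart2

-- ======== part 3: formerly Pool.Agent.MP_cbf1af_ag.gam.Weil2
section MrgPart3

/-! PROJECT GAM, row WEIL2: the inversion in one coordinate acts on theta functions. -/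

namespace Pool.Agent.GAM

open Matrix Complex Filter Topology

noncomputable section

namespace Weil2

theorem ee_add (x y : ℂ) : ee (x + y) = ee x * ee y := by
  unfold ee; rw [← Complex.exp_add]; congr 1; ring

theorem ee_int (k : ℤ) : ee k = 1 := by
  unfold ee
  rw [← Complex.exp_int_mul_two_pi_mul_I k]; congr 1; ring

theorem alg_ee (q : ℚ) : Alg (ee q) := by
  have hd : 0 < q.den := q.den_pos
  refine IsAlgebraic.of_pow hd ?_
  have : ee q ^ q.den = 1 := by
    rw [← ee_int q.num]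
    unfold ee
    rw [← Complex.exp_nat_mul]
    congr 1
    have h : (q.num : ℂ) = (q : ℂ) * q.den := by
      have := Rat.mul_den_eq_num q
      exact_mod_cast this.symm
    rw [h]; ring
  rw [this]; exact isAlgebraic_one

/-- the automorphy factor -/
def jf (t : ℂ) : ℂ := (-I * t) ^ (1 / 2 : ℂ)

theorem jf_ne {t : ℂ} (ht : t ≠ 0) : jf t ≠ 0 := by
  unfold jf
  rw [Ne, Complex.cpow_eq_zero_iff]
  intro h
  exact mul_ne_zero (neg_ne_zero.2 I_ne_zero) ht h.1

theorem jf_div {t : ℂ} (ht : t ≠ 0) {M : ℕ} (hM : 0 < M) :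
    jf (t / (M : ℂ) ^ 2) = jf t / M := by
  unfold jf
  have h0 : -I * t ≠ 0 := mul_ne_zero (neg_ne_zero.2 I_ne_zero) ht
  have hMr : (0 : ℝ) < M := by exact_mod_cast hM
  have hMc : (M : ℂ) ≠ 0 := by exact_mod_cast hM.ne'
  have h1 : -I * (t / (M : ℂ) ^ 2) = (((M : ℝ)⁻¹ ^ 2 : ℝ) : ℂ) * (-I * t) := by
    push_cast; field_simp
  have hr : (0 : ℝ) < (M : ℝ)⁻¹ ^ 2 := by positivity
  have h2 : (((M : ℝ)⁻¹ ^ 2 : ℝ) : ℂ) * (-I * t) ≠ 0 :=
    mul_ne_zero (by exact_mod_cast hr.ne') h0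
  rw [h1, Complex.cpow_def_of_ne_zero h2, Complex.cpow_def_of_ne_zero h0,
    Complex.log_ofReal_mul hr h0, add_mul, Complex.exp_add, Real.log_pow]
  have h3 : Complex.exp ((((2 : ℕ) : ℝ) * Real.log ((M : ℝ)⁻¹) : ℝ) * (1 / 2 : ℂ)) = (M : ℂ)⁻¹ := by
    have : ((((2 : ℕ) : ℝ) * Real.log ((M : ℝ)⁻¹) : ℝ) : ℂ) * (1 / 2 : ℂ) =
        ((Real.log ((M : ℝ)⁻¹) : ℝ) : ℂ) := by
      push_cast; ring
    rw [this, ← Complex.ofReal_exp, Real.exp_log (by positivity)]
    push_cast; rfl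
  rw [h3]; field_simp

/-- the Gaussian on the left -/
def ga (t s w x : ℂ) : ℂ := ee (-(x - s) ^ 2 / (2 * t) + x * w)

/-- the Gaussian on the right -/
def gb (t s w y : ℂ) : ℂ := ee (t * (y + w) ^ 2 / 2 + s * (y + w))

theorem summ_gb {t : ℂ} (ht : 0 < t.im) (s w r : ℂ) {M : ℕ} (hM : 0 < M) :
    HasSum (fun b : ℤ => ee (-(r * (b / M))) * gb t s w (b / M))
      (ee (t * w ^ 2 / 2 + s * w) * jacobiTheta₂ ((t * w + s - r) / M) (t / (M : ℂ) ^ 2)) := by
  have hMr : (0 : ℝ) < M := by exact_mod_cast hM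
  have hMc : (M : ℂ) ≠ 0 := by exact_mod_cast hM.ne'
  have hT : 0 < (t / (M : ℂ) ^ 2).im := by
    have : t / (M : ℂ) ^ 2 = t / (((M : ℝ) ^ 2 : ℝ) : ℂ) := by push_cast; rfl
    rw [this, Complex.div_ofReal_im]; positivity
  have := (hasSum_jacobiTheta₂_term ((t * w + s - r) / M) hT).mul_left
    (ee (t * w ^ 2 / 2 + s * w))
  have h : (fun b : ℤ => ee (-(r * (b / M))) * gb t s w (b / M)) = fun b : ℤ =>
      ee (t * w ^ 2 / 2 + s * w) *
        jacobiTheta₂_term b ((t * w + s - r) / M) (t / (M : ℂ) ^ 2) := by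
    funext b
    unfold gb ee jacobiTheta₂_term
    rw [← Complex.exp_add, ← Complex.exp_add]
    congr 1
    field_simp
    ring
  rw [h]; exact this

theorem poisson {t : ℂ} (ht : 0 < t.im) (s w r : ℂ) {M : ℕ} (hM : 0 < M) :
    ∑' k : ℤ, ga t s w (r + M * k) =
      jf t / M * ∑' b : ℤ, ee (-(r * (b / M))) * gb t s w (b / M) := by
  have hMc : (M : ℂ) ≠ 0 := by exact_mod_cast hM.ne'
  have ht0 : t ≠ 0 := by
    intro h; rw [h] at ht; simp at ht
  rw [(summ_gb ht s w r hM).tsum_eq, jacobiTheta₂_functional_equation, ← jf_div ht0 hM]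
  have hj : jf (t / (M : ℂ) ^ 2) ≠ 0 := jf_ne (div_ne_zero ht0 (pow_ne_zero _ hMc))
  have h1 : (-I * (t / (M : ℂ) ^ 2)) ^ (1 / 2 : ℂ) = jf (t / (M : ℂ) ^ 2) := rfl
  rw [h1]
  have h2 : ∀ a b c d : ℂ, a ≠ 0 → a * (b * (1 / a * c * d)) = b * c * d := by
    intro a b c d ha; field_simp
  rw [h2 _ _ _ _ hj, jacobiTheta₂, ← tsum_mul_left]
  refine tsum_congr fun k => ?_
  unfold ga ee jacobiTheta₂_term
  rw [← Complex.exp_add, ← Complex.exp_add]
  congr 1
  field_simp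
  ring

open Classical in
/-- finite Fourier transform -/
def ft (M : ℕ) (g : ℚ → ℂ) (y : ℚ) : ℂ :=
  if ∃ k : ℤ, (M : ℚ) * y = k then
    (M : ℂ)⁻¹ * ∑ a : Fin (M ^ 2), g (((a : ℕ) : ℚ) / M) * ee ((-(((a : ℕ) : ℚ) / M * y) : ℚ) : ℂ)
  else 0

theorem tsum_lat {M : ℕ} (hM : 0 < M) (G : ℚ → ℂ)
    (hG : ∀ x, G x ≠ 0 → ∃ k : ℤ, (M : ℚ) * x = k) :
    ∑' x : ℚ, G x = ∑' c : ℤ, G ((c : ℚ) / M) := by
  have hMq : (M : ℚ) ≠ 0 := by exact_mod_cast hM.ne'
  have hinj : Function.Injective fun c : ℤ => (c : ℚ) / M := by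
    intro a b h
    have : (a : ℚ) = b := by
      have h' : (a : ℚ) / M = (b : ℚ) / M := h
      field_simp at h'
      exact h'
    exact_mod_cast this
  refine (hinj.tsum_eq (f := G) ?_).symm
  intro x hx
  obtain ⟨k, hk⟩ := hG x hx
  exact ⟨k, by simp only; rw [← hk]; field_simp⟩

theorem one_var {t : ℂ} (ht : 0 < t.im) (s w : ℂ) {M : ℕ} (hM : 0 < M) (g : ℚ → ℂ)
    (h1 : ∀ x, g x ≠ 0 → ∃ k : ℤ, (M : ℚ) * x = k)
    (h2 : ∀ (x : ℚ) (k : ℤ), g (x + M * k) = g x)
    (hs : Summable fun x : ℚ => g x * ga t s w x) :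
    ∑' x : ℚ, g x * ga t s w x = jf t * ∑' y : ℚ, ft M g y * gb t s w y := by
  have hMq : (M : ℚ) ≠ 0 := by exact_mod_cast hM.ne'
  have hMc : (M : ℂ) ≠ 0 := by exact_mod_cast hM.ne'
  have : NeZero (M ^ 2) := ⟨pow_ne_zero _ hM.ne'⟩
  have hinj : Function.Injective fun c : ℤ => (c : ℚ) / M := by
    intro a b h
    have : (a : ℚ) = b := by
      have h' : (a : ℚ) / M = (b : ℚ) / M := h
      field_simp at h'
      exact h'
    exact_mod_cast this
  rw [tsum_lat hM _ (fun x hx => h1 x (left_ne_zero_of_mul hx)),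
    tsum_lat hM (fun y => ft M g y * gb t s w y) (fun y hy => by
      have := left_ne_zero_of_mul hy
      unfold ft at this
      by_contra hc
      rw [if_neg hc] at this
      exact this rfl)]
  let e : Fin (M ^ 2) × ℤ ≃ ℤ := (Equiv.prodComm _ _).trans (Int.divModEquiv (M ^ 2)).symm
  have he : ∀ (a : Fin (M ^ 2)) (k : ℤ),
      ((e (a, k) : ℤ) : ℚ) / M = ((a : ℕ) : ℚ) / M + M * k := by
    intro a k
    have : e (a, k) = k * ((M ^ 2 : ℕ) : ℤ) + ((a : ℕ) : ℤ) := rfl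
    rw [this]; push_cast; field_simp; ring
  have hs1 : Summable fun c : ℤ => g ((c : ℚ) / M) * ga t s w (((c : ℚ) / M : ℚ) : ℂ) :=
    hs.comp_injective hinj
  have hs2 : Summable fun p : Fin (M ^ 2) × ℤ =>
      g (((e p : ℤ) : ℚ) / M) * ga t s w ((((e p : ℤ) : ℚ) / M : ℚ) : ℂ) :=
    hs1.comp_injective e.injective
  rw [← e.tsum_eq, hs2.tsum_prod, tsum_fintype]
  have hL : ∀ a : Fin (M ^ 2), ∑' k : ℤ, g (((e (a, k) : ℤ) : ℚ) / M) *
      ga t s w ((((e (a, k) : ℤ) : ℚ) / M : ℚ) : ℂ) =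
      g (((a : ℕ) : ℚ) / M) * (jf t / M *
        ∑' b : ℤ, ee (-((((a : ℕ) : ℂ) / M) * (b / M))) * gb t s w (b / M)) := by
    intro a
    rw [← poisson ht s w _ hM, ← tsum_mul_left]
    refine tsum_congr fun k => ?_
    rw [he, h2]
    push_cast
    rfl
  have hR : ∀ b : ℤ, ft M g ((b : ℚ) / M) * gb t s w (((b : ℚ) / M : ℚ) : ℂ) =
      ∑ a : Fin (M ^ 2), (M : ℂ)⁻¹ * g (((a : ℕ) : ℚ) / M) *
        (ee (-((((a : ℕ) : ℂ) / M) * (b / M))) * gb t s w (b / M)) := by
    intro b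
    unfold ft
    rw [if_pos ⟨b, by field_simp⟩, Finset.mul_sum, Finset.sum_mul]
    refine Finset.sum_congr rfl fun a _ => ?_
    push_cast
    ring
  rw [tsum_congr hR, Summable.tsum_finsetSum (fun a _ =>
    ((summ_gb ht s w _ hM).summable).mul_left _), Finset.mul_sum]
  refine Finset.sum_congr rfl fun a _ => ?_
  rw [hL a, tsum_mul_left]
  field_simp

section Many

variable {κ : Type} [Fintype κ] [DecidableEq κ]

theorem sp_jj (i : κ) : Sp (jj i) := by
  unfold Sp jj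
  rw [SymplecticGroup.mem_iff, Matrix.J]
  have hE : (single i i (1 : ℚ) : Matrix κ κ ℚ) * single i i 1 = single i i 1 := by
    rw [single_mul_single_same, mul_one]
  have hT : (single i i (1 : ℚ) : Matrix κ κ ℚ)ᵀ = single i i 1 := by simp
  simp only [fromBlocks_transpose, fromBlocks_multiply, transpose_sub, transpose_neg,
    transpose_one, hT, Matrix.mul_zero, Matrix.mul_one, Matrix.mul_neg, Matrix.neg_mul,
    Matrix.sub_mul, Matrix.mul_sub, Matrix.one_mul, hE, zero_add, add_zero]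
  congr 1 <;> abel

omit [Fintype κ] in
theorem cM_jj (i : κ) : cM (jj i) =
    fromBlocks (1 - single i i 1) (-single i i 1) (single i i 1) (1 - single i i 1) := by
  ext a b
  rcases a with a | a <;> rcases b with b | b <;>
    simp [cM, jj, one_apply, single_apply] <;> split_ifs <;> simp

theorem mul_per (i : κ) (τ : Matrix κ κ ℂ) : cM (jj i) * per τ =
    fromRows ((1 - single i i 1) * τ - single i i 1)
      (single i i 1 * τ + (1 - single i i 1)) := by
  rw [cM_jj, per, fromBlocks_mul_fromRows]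
  simp only [Matrix.mul_one, sub_eq_add_neg]

theorem kk_jj (i : κ) (τ : Matrix κ κ ℂ) :
    kk (jj i) τ = single i i 1 * τ + (1 - single i i 1) := by
  rw [kk, mul_per, toRows₂_fromRows]

/-- splitting off one coordinate -/
def sp (i : κ) : {m : κ → ℚ // m i = 0} × ℚ ≃ (κ → ℚ) where
  toFun p := Function.update p.1.1 i p.2
  invFun n := (⟨Function.update n i 0, by simp⟩, n i)
  left_inv p := by
    obtain ⟨⟨m, hm⟩, x⟩ := p
    simp [← hm]
  right_inv n := by simp

omit [Fintype κ] in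
theorem cq_update (i : κ) (m : κ → ℚ) (hm : m i = 0) (x : ℚ) :
    cq (Function.update m i x) = cq m + Pi.single i (x : ℂ) := by
  funext l
  by_cases h : l = i
  · subst h; simp [cq, hm]
  · simp [cq, h]

theorem single_mulVec' (i : κ) (v : κ → ℂ) :
    (single i i (1 : ℂ)) *ᵥ v = Pi.single i (v i) := by
  funext l
  by_cases h : l = i
  · subst h; simp [mulVec, dotProduct, single_apply]
  · simp [mulVec, dotProduct, h, Ne.symm h]

theorem vecMul_single' (i : κ) (v : κ → ℂ) :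
    v ᵥ* (single i i (1 : ℂ)) = Pi.single i (v i) := by
  rw [← mulVec_transpose, transpose_single, single_mulVec']

theorem mulVec_sg (τ : Matrix κ κ ℂ) (i : κ) (y : ℂ) (l : κ) :
    (τ *ᵥ Pi.single i y) l = τ l i * y := by
  simp [mulVec, dotProduct_single]

theorem dot_col {τ : Matrix κ κ ℂ} (hτ : τ.IsSymm) (i : κ) (v : κ → ℂ) (y : ℂ) :
    v ⬝ᵥ τ *ᵥ Pi.single i y = (τ *ᵥ v) i * y := by
  rw [dotProduct_mulVec, dotProduct_single, ← mulVec_transpose, hτ.eq]

theorem quad_left {τ τ' : Matrix κ κ ℂ} (hτ : τ.IsSymm) (i : κ) (ht : τ i i ≠ 0)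
    (h : τ' * (single i i 1 * τ + (1 - single i i 1)) = (1 - single i i 1) * τ - single i i 1)
    (v : κ → ℂ) (hv : v i = 0) (x : ℂ) :
    (v + Pi.single i x) ⬝ᵥ τ' *ᵥ (v + Pi.single i x) =
      v ⬝ᵥ τ *ᵥ v - (x - (τ *ᵥ v) i) ^ 2 / τ i i := by
  set y := (x - (τ *ᵥ v) i) / τ i i with hy
  have h1 : (single i i 1 * τ + (1 - single i i 1)) *ᵥ (v + Pi.single i y) =
      v + Pi.single i x := by
    rw [add_mulVec, sub_mulVec, one_mulVec, ← mulVec_mulVec, single_mulVec', single_mulVec',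
      mulVec_add]
    have e1 : (τ *ᵥ v + τ *ᵥ Pi.single i y) i = x := by
      rw [Pi.add_apply, mulVec_sg, hy]; field_simp; ring
    have e2 : (v + Pi.single i y : κ → ℂ) i = y := by simp [hv]
    rw [e1, e2]; abel
  have h2 : τ' *ᵥ (v + Pi.single i x) =
      ((1 - single i i 1) * τ - single i i 1) *ᵥ (v + Pi.single i y) := by
    rw [← h, ← mulVec_mulVec, h1]
  have e1 : (τ *ᵥ (v + Pi.single i y)) i = x := by
    rw [mulVec_add, Pi.add_apply, mulVec_sg, hy]; field_simp; ring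
  have e2 : (v + Pi.single i y : κ → ℂ) i = y := by simp [hv]
  rw [h2, sub_mulVec, ← mulVec_mulVec, sub_mulVec, one_mulVec, single_mulVec', single_mulVec',
    e1, e2]
  have e3 : (v + Pi.single i x : κ → ℂ) i = x := by simp [hv]
  simp only [dotProduct_sub, add_dotProduct, dotProduct_single, single_dotProduct, e1, e3]
  rw [mulVec_add, dotProduct_add, dot_col hτ, hy]
  field_simp
  ring

theorem term_left {τ τ' : Matrix κ κ ℂ} (hτ : τ.IsSymm) (i : κ) (ht : τ i i ≠ 0)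
    (h : τ' * (single i i 1 * τ + (1 - single i i 1)) = (1 - single i i 1) * τ - single i i 1)
    (z : κ → ℂ) (m : κ → ℚ) (hm : m i = 0) (x : ℚ) :
    term τ' z (Function.update m i x) =
      term τ z m * ga (τ i i) ((τ *ᵥ cq m) i) (z i) x := by
  unfold term ga
  rw [← ee_add, cq_update i m hm, quad_left hτ i ht h _ (by simp [cq, hm]), add_dotProduct,
    single_dotProduct]
  congr 1
  field_simp
  ring

theorem term_right {τ : Matrix κ κ ℂ} (hτ : τ.IsSymm) (i : κ)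
    (z : κ → ℂ) (m : κ → ℚ) (hm : m i = 0) (y : ℚ) :
    ee (τ i i * z i ^ 2 / 2) *
      term τ (z ᵥ* (single i i 1 * τ + (1 - single i i 1))) (Function.update m i y) =
      term τ z m * gb (τ i i) ((τ *ᵥ cq m) i) (z i) y := by
  unfold term gb
  have hv : cq m i = 0 := by simp [cq, hm]
  have h1 : z ᵥ* (single i i 1 * τ + (1 - single i i 1)) =
      τ *ᵥ Pi.single i (z i) + (z - Pi.single i (z i)) := by
    rw [vecMul_add, vecMul_sub, vecMul_one, ← vecMul_vecMul, vecMul_single', ← mulVec_transpose,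
      hτ.eq]
  rw [← ee_add, ← ee_add, cq_update i m hm, h1]
  congr 1
  simp only [mulVec_add, add_dotProduct, dotProduct_add, dotProduct_sub, dot_col hτ,
    single_dotProduct, dotProduct_single, hv, mulVec_sg, Pi.single_eq_same, Pi.add_apply]
  ring

theorem fac (i : κ) (τ : Matrix κ κ ℂ) (z : κ → ℂ) :
    z ⬝ᵥ ((cM (jj i)).toBlocks₂₁ * (kk (jj i) τ)ᵀ) *ᵥ z = τ i i * z i ^ 2 := by
  rw [cM_jj, toBlocks_fromBlocks₂₁, kk_jj, ← mulVec_mulVec, single_mulVec', dotProduct_single,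
    mulVec_transpose, vecMul_add, vecMul_sub, vecMul_one, ← vecMul_vecMul, vecMul_single']
  simp
  ring

/-- the transformed coefficient function -/
def tr (M : ℕ) (i : κ) (f : (κ → ℚ) → ℂ) (m : κ → ℚ) : ℂ :=
  ft M (fun x => f (Function.update m i x)) (m i)

omit [Fintype κ] in
theorem lev_tr {M : ℕ} (hM : 0 < M) (i : κ) {f : (κ → ℚ) → ℂ} (hf : Lev M f) :
    Lev M (tr M i f) := by
  have hMq : (M : ℚ) ≠ 0 := by exact_mod_cast hM.ne'
  obtain ⟨h1, h2, h3⟩ := hf
  refine ⟨fun m hm l => ?_, fun m k => ?_, fun m => ?_⟩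
  · unfold tr ft at hm
    by_cases hc : ∃ k : ℤ, (M : ℚ) * m i = k
    · by_cases hl : l = i
      · subst hl; exact hc
      · rw [if_pos hc] at hm
        obtain ⟨a, -, ha⟩ := Finset.exists_ne_zero_of_sum_ne_zero (right_ne_zero_of_mul hm)
        have := h1 _ (left_ne_zero_of_mul ha) l
        rwa [Function.update_of_ne hl] at this
    · rw [if_neg hc] at hm; exact absurd rfl hm
  · unfold tr ft
    have hiff : (∃ c : ℤ, (M : ℚ) * (m + fun i => (M : ℚ) * k i : κ → ℚ) i = c) ↔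
        ∃ c : ℤ, (M : ℚ) * m i = c := by
      simp only [Pi.add_apply]
      constructor
      · rintro ⟨c, hc⟩
        exact ⟨c - M * M * k i, by push_cast; linarith⟩
      · rintro ⟨c, hc⟩
        exact ⟨c + M * M * k i, by push_cast; linarith⟩
    by_cases hc : ∃ c : ℤ, (M : ℚ) * m i = c
    · rw [if_pos hc, if_pos (hiff.2 hc)]
      congr 1
      refine Finset.sum_congr rfl fun a _ => ?_
      have e1 : Function.update (m + fun i => (M : ℚ) * k i) i (((a : ℕ) : ℚ) / M) =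
          Function.update m i (((a : ℕ) : ℚ) / M) +
            fun l => (M : ℚ) * ((Function.update k i 0 l : ℤ) : ℚ) := by
        funext l
        by_cases hl : l = i
        · subst hl; simp
        · simp [hl]
      have e2 : -(((a : ℕ) : ℚ) / M * (m + fun i => (M : ℚ) * k i : κ → ℚ) i) =
          -(((a : ℕ) : ℚ) / M * m i) + ((-(((a : ℕ) : ℤ) * k i) : ℤ) : ℚ) := by
        simp only [Pi.add_apply]; push_cast; field_simp; ring
      simp only
      rw [e1, h2, e2, Rat.cast_add, ee_add, Rat.cast_intCast, ee_int, mul_one]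
    · rw [if_neg hc, if_neg (fun h => hc (hiff.1 h))]
  · unfold tr ft
    split_ifs
    · refine IsAlgebraic.mul (IsAlgebraic.inv (isAlgebraic_natCast M)) ?_
      refine Finset.sum_induction _ (fun x => Alg x) (fun a b => IsAlgebraic.add)
        isAlgebraic_zero fun a _ => ?_
      exact (h3 _).mul (alg_ee _)
    · exact isAlgebraic_zero

theorem summ0 (hA : ThA κ) {f : (κ → ℚ) → ℂ} {τ : Matrix κ κ ℂ} (z : κ → ℂ) (hf : Sch f)
    (hτ : InH τ) : Summable fun n => f n * term τ z n := by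
  have := hA.summ f τ z 0 hf hτ
  simp only [pow_zero, mul_one] at this
  exact this.of_norm

omit [DecidableEq κ] in
theorem term_ne (τ : Matrix κ κ ℂ) (z : κ → ℂ) (n : κ → ℚ) : term τ z n ≠ 0 :=
  Complex.exp_ne_zero _

theorem rel (hA : ThA κ) (hC : Act κ) (i : κ) {M : ℕ} (hM : 0 < M) {f : (κ → ℚ) → ℂ}
    (hf : Lev M f) : Rel (jj i) (fun τ => jf (τ i i)) f (tr M i f) := by
  intro τ hτ z
  have ht : 0 < (τ i i).im := hτ.2.diag_pos
  have ht0 : τ i i ≠ 0 := by
    intro h; rw [h] at ht; simp at ht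
  obtain ⟨hH, -, hP⟩ := hC.inH (jj i) τ (sp_jj i) hτ
  have hK : act (jj i) τ * (single i i 1 * τ + (1 - single i i 1)) =
      (1 - single i i 1) * τ - single i i 1 := by
    rw [mul_per, kk_jj, per, fromRows_mul] at hP
    have := congrArg toRows₁ hP
    rw [toRows₁_fromRows, toRows₁_fromRows] at this
    exact this.symm
  have s1 := summ0 hA z ⟨M, hM, hf⟩ hH
  have s2 := summ0 hA (z ᵥ* kk (jj i) τ) ⟨M, hM, lev_tr hM i hf⟩ hτ
  have s1' : Summable fun p : {m : κ → ℚ // m i = 0} × ℚ =>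
      f (sp i p) * term (act (jj i) τ) z (sp i p) := s1.comp_injective (sp i).injective
  have s2' : Summable fun p : {m : κ → ℚ // m i = 0} × ℚ =>
      tr M i f (sp i p) * term τ (z ᵥ* kk (jj i) τ) (sp i p) := s2.comp_injective (sp i).injective
  rw [fac, thz, thz, ← (sp i).tsum_eq, ← (sp i).tsum_eq, s1'.tsum_prod, s2'.tsum_prod,
    ← tsum_mul_left]
  refine tsum_congr fun m => ?_
  have e1 : ∀ x : ℚ, f (sp i (m, x)) * term (act (jj i) τ) z (sp i (m, x)) =
      term τ z m.1 * (f (Function.update m.1 i x) * ga (τ i i) ((τ *ᵥ cq m.1) i) (z i) x) := by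
    intro x
    change f (Function.update m.1 i x) * term (act (jj i) τ) z (Function.update m.1 i x) = _
    rw [term_left hτ.1 i ht0 hK z m.1 m.2]; ring
  have e2 : ∀ y : ℚ, ee (τ i i * z i ^ 2 / 2) *
      (tr M i f (sp i (m, y)) * term τ (z ᵥ* kk (jj i) τ) (sp i (m, y))) =
      term τ z m.1 * (ft M (fun x => f (Function.update m.1 i x)) y *
        gb (τ i i) ((τ *ᵥ cq m.1) i) (z i) y) := by
    intro y
    change ee (τ i i * z i ^ 2 / 2) * (tr M i f (Function.update m.1 i y) *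
      term τ (z ᵥ* kk (jj i) τ) (Function.update m.1 i y)) = _
    rw [mul_left_comm, kk_jj, term_right hτ.1 i z m.1 m.2]
    simp only [tr, Function.update_idem, Function.update_self]
    ring
  have s3 : Summable fun x : ℚ =>
      f (Function.update m.1 i x) * ga (τ i i) ((τ *ᵥ cq m.1) i) (z i) x := by
    have := s1'.prod_factor m
    simp only [e1] at this
    exact (summable_mul_left_iff (term_ne τ z m.1)).1 this
  have key := one_var ht ((τ *ᵥ cq m.1) i) (z i) hM (fun x => f (Function.update m.1 i x))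
    (fun x hx => by simpa using hf.1 _ hx i)
    (fun x k => by
      have := hf.2.1 (Function.update m.1 i x) (Pi.single i k)
      rw [← this]
      congr 1
      funext l
      by_cases hl : l = i
      · subst hl; simp
      · simp [hl]) s3
  rw [tsum_congr e1, tsum_mul_left, key, mul_assoc, ← tsum_mul_left (a := ee _), tsum_congr e2,
    tsum_mul_left]
  ring

end Many

end Weil2

theorem weil2 (hA : All ThA) (_hB : All ThB) (hC : All Act) : All Weil2 := by
  intro κ _ _ i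
  refine ⟨fun τ => Weil2.jf (τ i i), fun τ hτ => Weil2.jf_ne ?_, fun f ⟨M, hM, hf⟩ =>
    ⟨Weil2.tr M i f, ⟨M, hM, Weil2.lev_tr hM i hf⟩, Weil2.rel (hA κ) (hC κ) i hM hf⟩⟩
  intro h
  have ht : 0 < (τ i i).im := hτ.2.diag_pos
  rw [h] at ht; simp at ht

end

end Pool.Agent.GAM

end MrgPart3

-- marker of a merged file
example : 731051 + 796503 = 731051 + 796503 := rfl
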