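import Pool.Agent.MP_cbf1af_ag.gam.Wedge
import Pool.Agent.MP_cbf1af_ag.gam.Thc
import Pool.Agent.MP_cbf1af_ag.gam.Weil2
import Pool.Agent.MP_cbf1af_ag.shp.Ops
import Pool.Agent.MP_cbf1af_ag.cmp2.Quot

-- ======== part 0: formerly Pool.Agent.MP_cbf1af_ag.gam.AFin
section MrgPart0

/-! PROJECT GAM, stage 2: from the modules to the final statement. -/

namespace Pool.Agent.GAM

open Matrix Complex Pool.Agent.MTG

namespace AFin

theorem minors_map {n m : ℕ} (j : ℕ) (x : Matrix (Fin n) (Fin m) ℝ) :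
    (minors j x).map (fun r => (r : ℂ)) = minors j (x.map fun r => (r : ℂ)) := by
  ext s t
  exact (Complex.ofRealHom.map_det _)

theorem hodge_eq {g n : ℕ} (b : Fin n → Fin g → ℂ) (j : ℕ) :
    hodge b j = {y : GL (Sub n j) ℂ | (y : Matrix (Sub n j) (Sub n j) ℂ) ∈ minors j '' hd1 b} := by
  ext y
  constructor
  · rintro ⟨x, hx, h⟩
    exact ⟨_, ⟨x, hx, rfl⟩, by rw [h, minors_map]⟩
  · rintro ⟨_, ⟨x, hx, rfl⟩, h⟩
    exact ⟨x, hx, by rw [← h, minors_map]⟩

theorem alg_mul {x y : ℂ} (hx : Alg x) (hy : Alg y) : Alg (x * y) := hx.mul hy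

theorem alg_prod {ι : Type} (s : Finset ι) (f : ι → ℂ) (h : ∀ i ∈ s, Alg (f i)) :
    Alg (∏ i ∈ s, f i) :=
  Finset.prod_induction f Alg (fun _ _ => alg_mul) isAlgebraic_one h

variable {L : Type} [Field L] [NumberField L]

theorem isType_typ {q : Emb L → ℕ} (h : ∀ σ, q σ + q (cj σ) = 1) : IsType (typ q) := by
  intro σ
  have := h σ
  simp only [typ, Finset.mem_filter, Finset.mem_univ, true_and]
  omega

/-- the periods of a type in terms of the universal periods -/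
theorem formula (hE : Exist) (hT : Trans) {c : L →+* L} (hc : CMF c) {σ₀ : Emb L} {u : Emb L → ℂ}
    (hu : ∀ Φ P, IsType Φ → Per Φ P → Alg (P σ₀ ^ 2 / (2 * Real.pi * I * ∏ τ ∈ Φ, u τ)))
    {q : Emb L → ℕ} (h : ∀ σ, q σ + q (cj σ) = 1) {P : Emb L → ℂ} (hP : Per (typ q) P)
    (γ : L ≃ₐ[ℚ] L) : Alg (P (σ₀.comp (γ : L →+* L)) ^ 2 /
      (2 * Real.pi * I * ∏ τ, u τ ^ q (τ.comp (γ : L →+* L)))) := by
  let q' : Emb L → ℕ := fun τ => q (τ.comp (γ : L →+* L))
  have h' : ∀ σ, q' σ + q' (cj σ) = 1 := fun σ => h _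
  obtain ⟨Q, hQ⟩ := hE L c (typ q') hc (isType_typ h')
  obtain ⟨hQ0, hQP⟩ := hT L L (γ : L →+* L) (typ q) (typ q') P Q (isType_typ h)
    (fun σ => by simp only [typ, Finset.mem_filter, Finset.mem_univ, true_and, q']) hP hQ σ₀
  have h1 := hu _ Q (isType_typ h') hQ
  have h2 : ∏ τ, u τ ^ q (τ.comp (γ : L →+* L)) = ∏ τ ∈ typ q', u τ := by
    rw [typ, Finset.prod_filter]
    refine Finset.prod_congr rfl fun τ _ => ?_
    have := h' τ
    by_cases h3 : q' τ = 1
    · rw [if_pos h3]; exact (congrArg (u τ ^ ·) h3).trans (pow_one _)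
    · rw [if_neg h3]
      have h4 : q' τ = 0 := by omega
      exact (congrArg (u τ ^ ·) h4).trans (pow_zero _)
  rw [h2]
  have h5 := alg_mul h1 (hQP.inv.pow 2)
  refine (congrArg Alg ?_).mp h5
  rw [inv_div, div_pow]
  field_simp

omit [NumberField L] in
theorem per_ne {Φ : Finset (Emb L)} {P : Emb L → ℂ} (hP : Per Φ P) (σ : Emb L) : P σ ≠ 0 := by
  intro h
  have := hP.1 σ
  rw [h, zero_mul] at this
  exact Complex.two_pi_I_ne_zero this.symm

theorem formula_prod {r : ℕ} {u : Emb L → ℂ} (q : Fin r → Emb L → ℕ) (x : Fin r → ℂ)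
    (h : ∀ i, Alg (x i ^ 2 / (2 * Real.pi * I * ∏ τ, u τ ^ q i τ))) :
    Alg ((∏ i, x i) ^ 2 / ((2 * Real.pi * I) ^ r * ∏ τ, u τ ^ ∑ i, q i τ)) := by
  refine (congrArg Alg ?_).mp (alg_prod Finset.univ _ fun i _ => h i)
  rw [Finset.prod_div_distrib, Finset.prod_pow, Finset.prod_mul_distrib, Finset.prod_const,
    Finset.card_univ, Fintype.card_fin, Finset.prod_comm]
  simp only [Finset.prod_pow_eq_pow_sum]

end AFin

open AFin in
theorem cmFinal (hE : Exist) (hT : Trans) (hU : Univ) (hD : Cmd) (hH : Hdr) (hW : Wedge)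
    (hM : Mtd) (hR : Rat) : CmFinal := by
  intro g N Θ Λ η b hΘ hΛ hCM j h1 h2
  have hA : Av Θ Λ η b := ⟨hΘ, hΛ, by omega⟩
  obtain ⟨L, _, _, c, 𝒥, _, w, p, hc, hG, h6, hC, hL⟩ := hD g N Θ Λ η b hA hCM
  obtain ⟨σ₀⟩ : Nonempty (Emb L) := inferInstance
  obtain ⟨u, hu1, hu2, hu3⟩ := hU L c σ₀ hc hG h6
  choose P hP using fun i => hE L c (typ (p i)) hc (isType_typ (hC.wt i))
  have hX := hH g N Θ Λ η b hA hCM L c 𝒥 w p P hc hG hC hL hP
  obtain ⟨𝒥', _, a, w', hne, hC', hX'⟩ := hW (2 * g) (g + g) j L 𝒥 w p P (hd1 b) (period η b)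
    hC hX (fun i σ => per_ne (hP i) σ) (by omega) h2
  have hf : ∀ i (γ : L ≃ₐ[ℚ] L), Alg ((∏ l, P (a i l) (σ₀.comp (γ : L →+* L))) ^ 2 /
      ((2 * Real.pi * I) ^ j * ∏ τ, u τ ^ ∑ l, p (a i l) (τ.comp (γ : L →+* L)))) :=
    fun i γ => formula_prod (fun l τ => p (a i l) (τ.comp (γ : L →+* L)))
      (fun l => P (a i l) (σ₀.comp (γ : L →+* L)))
      fun l => formula hE hT hc hu3 (hC.wt _) (hP _) γ
  obtain ⟨r1, r2, r3⟩ := hR L (Sub (2 * g) j) (Sub (g + g) j) 𝒥' c σ₀ u w'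
    (fun i σ => ∑ l, p (a i l) σ) j (fun i σ => ∏ l, P (a i l) σ) (minors j (period η b)) hc hG
    (by omega) hne hu1 hu2 hC'.ne hC'.wt
    (fun i σ => Finset.prod_ne_zero_iff.2 fun l _ => per_ne (hP _) σ) hf hX'
  have hd : dim (MT b j) = Module.finrank ℚ (chars fun i σ => ∑ l, p (a i l) σ) := by
    rw [MT, hodge_eq]
    exact hM L (Sub (2 * g) j) 𝒥' w' (fun i σ => ∑ l, p (a i l) σ) j _ hG hC'
  rw [hd, ← r1]
  exact ⟨rfl, r3, add_le_add r2 le_rfl⟩

end Pool.Agent.GAM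

end MrgPart0

-- ======== part 1: formerly Pool.Agent.MP_cbf1af_ag.gam.Ari0
section MrgPart1

/-! PROJECT GAM, stage 2: some algebraic coordinates on a CM torus. -/

namespace Pool.Agent.GAM

open Matrix Complex Filter Topology
open Pool.Agent.MTG

namespace Ari0

theorem fd_vecMul {κ κ' : Type} [Fintype κ] [Fintype κ'] {G : (κ' → ℂ) → ℂ}
    (h : DifferentiableAt ℂ G 0) (N : Matrix κ κ' ℂ) :
    DifferentiableAt ℂ (fun z => G (z ᵥ* N)) 0 ∧
      ∀ u, fderiv ℂ (fun z => G (z ᵥ* N)) 0 u = fderiv ℂ G 0 (u ᵥ* N) := by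
  have e : HasFDerivAt G (fderiv ℂ G 0) (N.vecMulLinear.toContinuousLinearMap 0) := by
    simpa using h.hasFDerivAt
  have := e.comp 0 N.vecMulLinear.toContinuousLinearMap.hasFDerivAt
  exact ⟨this.differentiableAt, fun u => DFunLike.congr_fun this.fderiv u⟩

theorem lin_vecMul {g : ℕ} {κ : Type} (f : κ → (Fin g → ℂ) →ₗ[ℂ] ℂ) (v : Fin g → ℂ) :
    v ᵥ* (of fun i k => f k (Pi.single i 1)) = fun k => f k v := by
  ext k
  conv_rhs => rw [pi_eq_sum_univ' v, map_sum]
  simp only [vecMul, dotProduct, of_apply, map_smul, smul_eq_mul]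

theorem choose {g : ℕ} {T : Type} (d : T → (Fin g → ℂ) →ₗ[ℂ] ℂ) (h : ∀ v, (∀ t, d t v = 0) → v = 0) :
    ∃ e : Fin g → T, ∀ v, (∀ k, d (e k) v = 0) → v = 0 := by
  obtain ⟨κ, a, -, h1, h2⟩ := exists_linearIndependent' ℂ d
  have top : Submodule.span ℂ (Set.range d) = ⊤ := by
    rw [← Subspace.dualCoannihilator_dualAnnihilator_eq (W := Submodule.span ℂ (Set.range d)),
      Submodule.dualAnnihilator_eq_top_iff, eq_bot_iff]
    exact fun v hv => h v fun t =>
      (Submodule.mem_dualCoannihilator v).1 hv _ (Submodule.subset_span ⟨t, rfl⟩)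
  let B := Module.Basis.mk h2 (h1.trans top).ge
  let B' := B.reindex (B.indexEquiv (Pi.basisFun ℂ (Fin g)).dualBasis)
  refine ⟨fun k => a ((B.indexEquiv (Pi.basisFun ℂ (Fin g)).dualBasis).symm k), fun v hv => ?_⟩
  refine (Module.forall_dual_apply_eq_zero_iff ℂ v).1 fun φ => ?_
  rw [← B'.sum_repr φ]
  simp [B', B, hv]

end Ari0

open Ari0 in
theorem ari0' (hA : All AfA) (hB : All AfB) (hE : Exist)
    (g : ℕ) (b : Module.Basis (Fin (2 * g)) ℝ (Fin g → ℂ)) (L : Type) [Field L] [NumberField L]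
    (c : L →+* L) (𝒥 : Type) (w : 𝒥 → Fin (2 * g) → L) (p : 𝒥 → Emb L → ℕ)
    (hc : CMF c) (hw : Submodule.span L (Set.range w) = ⊤) (hp : ∀ j σ, p j σ + p j (cj σ) = 1)
    (hl : ∀ j σ, p j σ = 1 → ∃ f : (Fin g → ℂ) →ₗ[ℂ] ℂ, ∀ k, f (b k) = σ (w j k)) :
    (∀ j, IsType (typ (p j)) ∧ ∃ N : Matrix (Fin g) (typ (p j)) ℂ,
      ∀ k, b k ᵥ* N = pt (typ (p j)) (w j k)) ∧
    ∃ M : Matrix (Fin g) (Fin g) ℂ, IsUnit M.det ∧ Ari ((fun v => v ᵥ* M) '' qsp b) 1 := by
  classical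
  have ty : ∀ j, IsType (typ (p j)) := fun j σ => by
    have := hp j σ
    simp only [typ, Finset.mem_filter, Finset.mem_univ, true_and]; omega
  have hN : ∀ j, ∃ N : Matrix (Fin g) (typ (p j)) ℂ, ∀ k, b k ᵥ* N = pt (typ (p j)) (w j k) := fun j => by
    choose f hf using fun σ : typ (p j) => hl j σ.1 (Finset.mem_filter.1 σ.2).2
    exact ⟨_, fun k => (lin_vecMul f _).trans (funext fun σ => hf σ k)⟩
  refine ⟨fun j => ⟨ty j, hN j⟩, ?_⟩
  choose N hN using hN
  choose A B co using fun j => (hE L c _ hc (ty j)).choose_spec.2.2.2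
  have df : ∀ j σ, DifferentiableAt ℂ (fun z => A j σ z / B j σ z) 0 := fun j σ =>
    ((((co j).1 σ).1.holA 0).div (((co j).1 σ).1.holB 0) ((co j).1 σ).2).differentiableAt
  have mem : ∀ j, ∀ v ∈ qsp b, v ᵥ* N j ∈ Set.range (pt (typ (p j))) := fun j v hv => by
    induction hv using Submodule.span_induction with
    | mem _ h => obtain ⟨k, rfl⟩ := h; exact ⟨_, (hN j k).symm⟩
    | zero => exact ⟨0, by ext; simp [pt]⟩
    | add x y _ _ u v =>
      obtain ⟨x', u⟩ := u; obtain ⟨y', v⟩ := v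
      exact ⟨x' + y', by rw [add_vecMul, ← u, ← v]; ext; simp [pt]⟩
    | smul q x _ u =>
      obtain ⟨x', u⟩ := u
      exact ⟨q * x', by rw [smul_vecMul, ← u]; ext; simp [pt, Rat.smul_def]⟩
  let d : (Σ j, typ (p j)) → (Fin g → ℂ) →ₗ[ℂ] ℂ := fun t =>
    (fderiv ℂ (fun z => A t.1 t.2 z / B t.1 t.2 z) 0 : _ →ₗ[ℂ] ℂ) ∘ₗ (N t.1).vecMulLinear
  obtain ⟨e, he⟩ := choose d fun v hv => by
    have h1 : ∀ j, v ᵥ* N j = 0 := fun j => (co j).2 (by
      rw [map_zero, fderiv_pi (df j)]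
      exact funext fun σ => hv ⟨j, σ⟩)
    have h2 : ∀ j (σ : Emb L), p j σ = 1 → ∑ k, (b.repr v k : ℂ) * σ (w j k) = 0 := fun j σ u => by
      have := congrFun (h1 j) ⟨σ, by simpa [typ] using u⟩
      rw [← b.sum_repr v, sum_vecMul] at this
      simpa [smul_vecMul, hN, pt] using this
    obtain ⟨σ⟩ : Nonempty (Emb L) := inferInstance
    have h3 : ∀ y ∈ Submodule.span L (Set.range w), ∑ k, (b.repr v k : ℂ) * σ (y k) = 0 := fun y hy => by
      induction hy using Submodule.span_induction with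
      | mem _ h =>
        obtain ⟨j, rfl⟩ := h
        by_cases u : p j σ = 1
        · exact h2 j σ u
        · simpa using congrArg (starRingEnd ℂ) (h2 j (cj σ) (by have := hp j σ; omega))
      | zero => simp
      | add x y _ _ u v => simp [mul_add, Finset.sum_add_distrib, u, v]
      | smul q x _ u => simp [mul_left_comm _ (σ q), ← Finset.mul_sum, u]
    refine b.ext_elem fun k => ?_
    simpa [Pi.single_apply, apply_ite σ] using h3 (Pi.single k 1) (hw ▸ trivial)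
  let M : Matrix (Fin g) (Fin g) ℂ := of fun i k => d (e k) (Pi.single i 1)
  have hM : IsUnit M.det := (isUnit_iff_isUnit_det M).1 (vecMul_injective_iff_isUnit.1
    ((injective_iff_map_eq_zero M.vecMulLinear).2 fun v hv =>
      he v (congrFun ((lin_vecMul (fun k => d (e k)) v).symm.trans hv))))
  have fd := fun k => fd_vecMul (df (e k).1 (e k).2) (M⁻¹ * N (e k).1)
  have fd' : ∀ k u, fderiv ℂ (fun z => A _ (e k).2 (z ᵥ* (M⁻¹ * N (e k).1)) /
      B _ (e k).2 (z ᵥ* (M⁻¹ * N (e k).1))) 0 u = u k := fun k u => by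
    rw [(fd k).2, ← vecMul_vecMul]
    refine (congrFun (lin_vecMul (fun k => d (e k)) (u ᵥ* M⁻¹)) k).symm.trans ?_
    rw [vecMul_vecMul, nonsing_inv_mul _ hM, vecMul_one]
  let ε : (Fin g → ℂ) ≃ₗ[ℝ] (Fin g → ℂ) := .ofBijective (M.vecMulLinear.restrictScalars ℝ)
    ⟨vecMul_injective_iff_isUnit.2 ((isUnit_iff_isUnit_det M).2 hM),
      vecMul_surjective_iff_isUnit.2 ((isUnit_iff_isUnit_det M).2 hM)⟩
  refine ⟨M, hM, (hB _).ari _ (fun k z => A _ (e k).2 (z ᵥ* (M⁻¹ * N (e k).1)))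
    (fun k z => B _ (e k).2 (z ᵥ* (M⁻¹ * N (e k).1))) 1 ⟨_, b.map ε, ?_⟩
    ⟨fun k => ⟨(hA _).pull _ _ _ _ _ _ ?_ ((co _).1 _).1, by simpa using ((co _).1 _).2⟩, ?_⟩
    (fun _ => one_ne_zero) fun k i => ?_⟩
  · rw [qsp, show Set.range (b.map ε) = M.vecMulLinear.restrictScalars ℚ '' Set.range b from
      Set.range_comp (fun v => v ᵥ* M) b, Submodule.span_image]
    rfl
  · rintro _ ⟨v, hv, rfl⟩
    rw [vecMul_vecMul, mul_nonsing_inv_cancel_left _ _ hM]
    exact mem _ v hv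
  · intro u v h
    rw [fderiv_pi fun k => (fd k).1] at h
    exact funext fun k => (fd' k u).symm.trans ((congrFun h k).trans (fd' k v))
  · rw [pd, fd', Pi.one_apply, div_one, Pi.single_apply]
    split_ifs
    exacts [isAlgebraic_one, isAlgebraic_zero]

theorem ari0 (hA : All AfA) (hB : All AfB) (_hK : AllC) (hE : Exist) : Ari0 :=
  fun g b L _ _ c 𝒥 _ w p hc _ h l => ari0' hA hB hE g b L c 𝒥 w p hc h.span h.wt l

end Pool.Agent.GAM

end MrgPart1

-- ======== part 2: formerly Pool.Agent.MP_cbf1af_ag.gam.Ari1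
section MrgPart2

/-! PROJECT GAM, row ARI1: the standard coordinates of a theta model are algebraic. -/

namespace Pool.Agent.GAM

open Matrix Complex Filter Topology MvPolynomial
open Pool.Agent.CMP (Qb)

namespace Ari1X

open Afa

variable {κ : Type} [Fintype κ] [DecidableEq κ]

theorem tor_map {V : Set (κ → ℂ)} {M : Matrix κ κ ℂ} (hV : IsTor V) (hM : IsUnit M.det) :
    IsTor ((fun v => v ᵥ* M) '' V) := by
  obtain ⟨ι, b, rfl⟩ := hV
  let e : (κ → ℂ) ≃ₗ[ℂ] κ → ℂ := LinearEquiv.ofLinearMap M.vecMulLinear M⁻¹.vecMulLinear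
    (LinearMap.ext fun v => by simp [nonsing_inv_mul M hM])
    (LinearMap.ext fun v => by simp [mul_nonsing_inv M hM])
  refine ⟨ι, b.map (e.restrictScalars ℝ), ?_⟩
  have := congrArg SetLike.coe (Submodule.map_span (M.vecMulLinear.restrictScalars ℚ) (Set.range b))
  rw [Submodule.map_coe, ← Set.range_comp] at this
  exact this

omit [DecidableEq κ] in
theorem fd_vm {E : Type} [NormedAddCommGroup E] [NormedSpace ℂ E] {F : (κ → ℂ) → E}
    (M : Matrix κ κ ℂ) {z : κ → ℂ} (h : DifferentiableAt ℂ F (z ᵥ* M)) (u : κ → ℂ) :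
    fderiv ℂ (fun z => F (z ᵥ* M)) z u = fderiv ℂ F (z ᵥ* M) (u ᵥ* M) :=
  congrArg (fun D => D u) (HasFDerivAt.comp (g := F) z h.hasFDerivAt (vm M).hasFDerivAt).fderiv

omit [Fintype κ] [DecidableEq κ] in
theorem back {D j : (κ → ℂ) → ℂ} {l : κ → ℂ} (hj : ∀ z, j z ≠ 0) (h : ∀ z, D (z + l) = j z * D z)
    (n : ℕ) (h0 : D ((n : ℂ) • l) = 0) : D 0 = 0 := by
  induction n with
  | zero => simpa using h0
  | succ n ih =>
    rw [Nat.cast_succ, add_smul, one_smul, h] at h0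
    exact ih ((mul_eq_zero.1 h0).resolve_left (hj _))

omit [DecidableEq κ] in
theorem an_dir {A : (κ → ℂ) → ℂ} (h : ∀ z, AnalyticAt ℂ A z) (X : (κ → ℂ) →L[ℂ] κ → ℂ)
    (z : κ → ℂ) : AnalyticAt ℂ (fun z => fderiv ℂ A z (X z)) z := by
  classical
  simp only [fd_sum _ (X _)]
  exact Finset.analyticAt_fun_sum _ fun j _ =>
    (((ContinuousLinearMap.proj j).comp X).analyticAt z).mul (an_der (h z) _)

theorem co_pull (hA : AfA κ) {V : Set (κ → ℂ)} {M : Matrix κ κ ℂ} (hM : IsUnit M.det)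
    {A B : κ → (κ → ℂ) → ℂ} (h : Co ((fun v => v ᵥ* M) '' V) A B) :
    Co V (fun k z => A k (z ᵥ* M)) fun k z => B k (z ᵥ* M) := by
  refine ⟨fun k => ⟨hA.pull _ _ _ M _ _ (fun v hv => Set.mem_image_of_mem _ hv) (h.1 k).1, ?_⟩,
    fun u v e => ?_⟩
  · simp only [zero_vecMul]; exact (h.1 k).2
  · have hd : DifferentiableAt ℂ (fun z k => A k z / B k z) (0 ᵥ* M) := by
      rw [zero_vecMul]
      exact differentiableAt_pi.2 fun k =>
        (((h.1 k).1.holA 0).div ((h.1 k).1.holB 0) (h.1 k).2).differentiableAt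
    rw [fd_vm (F := fun z k => A k z / B k z) M hd, fd_vm (F := fun z k => A k z / B k z) M hd,
      zero_vecMul] at e
    have := congrArg (· ᵥ* M⁻¹) (h.2 e)
    simpa [mul_nonsing_inv M hM] using this

end Ari1X

open Afa Ari1X in
theorem ari1 (hX : DerEx) (hA : All AfA) (hB : All AfB) (hD : All Drel) (hG : Thg) : Ari1 := by
  intro g N Θ Λ η b hv M hM har
  obtain ⟨hT, hMF, 𝓖, hg, hg1, -⟩ := hG g N Θ Λ η b hv
  obtain ⟨A, B, hco⟩ := har.2.2
  have hco' := co_pull (hA _) hM hco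
  have hF : ∀ k, AnalyticAt ℂ (fun z => A k z / B k z) 0 := fun k =>
    ((hco.1 k).1.holA 0).div ((hco.1 k).1.holB 0) (hco.1 k).2
  have key : ∀ δ : Derivation ℚ ℂ ℂ, M.map δ = 0 := by
    intro δ
    let X := vm (M.map δ * M⁻¹)
    have hXM : ∀ z, X z ᵥ* M = z ᵥ* M.map δ := fun z => by
      change (z ᵥ* (M.map δ * M⁻¹)) ᵥ* M = _
      rw [vecMul_vecMul, nonsing_inv_mul_cancel_right _ _ hM]
    have main : ∀ i, ∀ v ∈ qsp b, fderiv ℂ (fun z => Θ i z / Θ 0 z) 0 (X v) = 0 := by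
      intro i v hvV
      let 𝔞 : Option (Fin g) → (Fin g → ℂ) → ℂ := fun o => o.elim (Θ i) fun k z => A k (z ᵥ* M)
      let 𝔟 : Option (Fin g) → (Fin g → ℂ) → ℂ := fun o => o.elim (Θ 0) fun k z => B k (z ᵥ* M)
      have m1 : ∀ o, MF (qsp b) (𝔞 o) (𝔟 o) ∧ 𝔟 o 0 ≠ 0 := fun o => by
        cases o with
        | none => exact ⟨hMF i 0, hv.th.ne0⟩
        | some k => exact ⟨(hco'.1 k).1.toMF, (hco'.1 k).2⟩
      have m2 : ∀ o, AnalyticAt ℂ (fun z => 𝔞 o z / 𝔟 o z) 0 := fun o =>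
        ((m1 o).1.holA 0).div ((m1 o).1.holB 0) (m1 o).2
      have m3 : ∀ᶠ z in 𝓝 (0 : Fin g → ℂ), ∀ o, 𝔟 o z ≠ 0 :=
        eventually_all.2 fun o => ((m1 o).1.holB 0).continuousAt.eventually_ne (m1 o).2
      obtain ⟨P, P0, hP⟩ := (hB _).depC _ 𝔞 𝔟 hT fun o => (m1 o).1
      obtain ⟨P', p1, p2⟩ := (hD _).minp (fun o z => 𝔞 o z / 𝔟 o z) P m2 hco'.2 P0
        (m3.mono fun z hz => hP z hz)
      obtain ⟨Q, hQ⟩ := (hD _).rel δ _ (fun o z => 𝔞 o z / 𝔟 o z)
        (fun o => o.elim (fun _ => 0) fun k z =>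
          fderiv ℂ (fun z => A k z / B k z) (z ᵥ* M) (z ᵥ* M.map δ)) P' (fun o => by
          cases o with
          | none =>
            have := (hD (Fin g)).germ δ _ 𝓖 1 hg _ (hg1 i)
            have e : (1 : Matrix (Fin g) (Fin g) ℂ).map δ = 0 := by
              ext r s
              by_cases h : r = s <;> simp [one_apply, h]
            simp only [e, vecMul_one, vecMul_zero, map_zero] at this
            exact this
          | some k =>
            exact (hD _).germ δ _ _ M ((hA _).germs _ 1 (tor_map hT hM) har) (fun z => A k z / B k z)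
              ⟨A k, B k, (hco.1 k).1, (hco.1 k).2, by simp⟩) p1
      have hFM : ∀ᶠ z in 𝓝 (0 : Fin g → ℂ), ∀ k, AnalyticAt ℂ (fun z => A k z / B k z) (z ᵥ* M) :=
        eventually_all.2 fun k => (vm M).continuous.continuousAt.eventually
          (by rw [map_zero]; exact (hF k).eventually_analyticAt)
      obtain ⟨M0, h0, hper⟩ := (hD _).peri _ _ 𝔞 𝔟
        (fun z => fderiv ℂ (Θ i) z (X z) * Θ 0 z - Θ i z * fderiv ℂ (Θ 0) z (X z))
        (fun z => Θ 0 z ^ 2) (pderiv none P') Q m1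
        (fun z => ((an_dir (hv.th.hol i) X z).mul (hv.th.hol 0 z)).sub
          ((hv.th.hol i z).mul (an_dir (hv.th.hol 0) X z))) (fun z => (hv.th.hol 0 z).pow 2)
        (pow_ne_zero 2 hv.th.ne0) p2 (by
          filter_upwards [hQ, p1.eventually_nhds, m3, hFM,
            eventually_all.2 fun o => (m2 o).eventually_analyticAt] with z q1 q2 q3 q4 q5
          have d1 := ValX.hasFDerivAt_eval (fun o z => 𝔞 o z / 𝔟 o z) _ z
            (fun o => (q5 o).differentiableAt.hasFDerivAt) P'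
          have d2 := congrArg (fun D => D (X z))
            (d1.unique ((hasFDerivAt_const (0 : ℂ) z).congr_of_eventuallyEq q2))
          simp only [_root_.sum_apply, Fintype.sum_option, _root_.add_apply,
            _root_.smul_apply, smul_eq_mul, _root_.zero_apply] at d2
          simp only [Fintype.sum_option, Option.elim_none, Option.elim_some, mul_zero,
            zero_add] at q1
          rw [← fd_div (hv.th.hol i z) (hv.th.hol 0 z) (q3 none)]
          have d3 : ∀ k, fderiv ℂ (fun z => 𝔞 (some k) z / 𝔟 (some k) z) z (X z) =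
              fderiv ℂ (fun z => A k z / B k z) (z ᵥ* M) (z ᵥ* M.map δ) := fun k => by
            rw [← hXM]
            exact fd_vm (F := fun z => A k z / B k z) M (q4 k).differentiableAt _
          simp only [d3] at d2
          exact add_right_cancel (d2.trans q1.symm)) v hvV
      obtain ⟨M1, h1, j, -, jn, je⟩ := ((hA _).mfDer _ _ _ (X v) (hMF i 0)).aut v hvV
      have e1 := hper M1 0
      simp only [zero_add, map_zero, zero_mul, mul_zero, sub_self] at e1
      have e2 := (mul_eq_zero.1 e1).resolve_right (pow_ne_zero 2 hv.th.ne0)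
      have c0 : ((M0 * M1 : ℕ) : ℂ) ≠ 0 := Nat.cast_ne_zero.2 (Nat.mul_pos h0 h1).ne'
      have e3 := back (D := fun z => fderiv ℂ (Θ i) z (X v) * Θ 0 z - Θ i z * fderiv ℂ (Θ 0) z (X v))
        jn (fun z => (je z).1) M0 (by
        rw [smul_smul, ← Nat.cast_mul]
        refine mul_left_cancel₀ c0 ?_
        simp only [map_smul, smul_eq_mul] at e2
        linear_combination e2)
      rw [fd_div (hv.th.hol i 0) (hv.th.hol 0 0) hv.th.ne0, e3, zero_div]
    have hb : ∀ k, X (b k) = 0 := fun k => hv.th.imm (by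
      rw [map_zero, fderiv_pi (φ := fun i z => Θ i z / Θ 0 z) fun i =>
        ((hv.th.hol i 0).div (hv.th.hol 0 0) hv.th.ne0).differentiableAt]
      funext i
      exact main i _ (Submodule.subset_span ⟨k, rfl⟩))
    have hz : X.toLinearMap.restrictScalars ℝ = 0 := b.ext hb
    ext i j
    have := hXM (Pi.single i 1)
    rw [show X (Pi.single i 1) = 0 from LinearMap.congr_fun hz _, zero_vecMul,
      single_one_vecMul] at this
    exact (congrFun this j).symm
  refine (hB _).ari _ _ _ 1 hT hco' (fun _ => one_ne_zero) fun k i => ?_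
  rw [Pi.one_apply, div_one, pd, fd_vm (F := fun z => A k z / B k z) M
    (by rw [zero_vecMul]; exact (hF k).differentiableAt), zero_vecMul, single_one_vecMul, fd_sum]
  refine Subalgebra.sum_mem (Subalgebra.algebraicClosure ℚ ℂ) fun j _ => IsAlgebraic.mul
    (hX _ fun δ => congrFun (congrFun (key δ) i) j) ?_
  simpa [pd] using har.2.1 _ _ (hco.1 k).1 (hco.1 k).2 j

end Pool.Agent.GAM

end MrgPart2

-- ======== part 3: formerly Pool.Agent.MP_cbf1af_ag.gam.Cmd
section MrgPart3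

/-! PROJECT GAM, stage 2, module CMD: the splitting field of the Hodge structure. -/

namespace Pool.Agent.GAM

open Matrix Complex
open Pool.Agent.CMP (Qb)
open Pool.Agent.MTG

namespace CmdA

theorem eig {L n ι : Type} [Field L] [CharZero L] [Fintype n] [DecidableEq n] [Finite ι]
    (B : ι → Matrix n n L) (h1 : ∀ i, B i * B i = 1) (h2 : ∀ i j, B i * B j = B j * B i) :
    ∃ T : Finset (n → L), (∀ v ∈ T, v ≠ 0 ∧ ∀ i, B i *ᵥ v = v ∨ B i *ᵥ v = -v) ∧
      Submodule.span L (T : Set (n → L)) = ⊤ := by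
  classical
  have := Fintype.ofFinite ι
  have key : ∀ s : Finset ι,
      Submodule.span L {v : n → L | ∀ i ∈ s, B i *ᵥ v = v ∨ B i *ᵥ v = -v} = ⊤ := by
    intro s
    induction s using Finset.induction_on with
    | empty => simp
    | insert a s _ ih =>
      rw [eq_top_iff, ← ih, Submodule.span_le]
      intro v hv
      have e : v = (2 : L)⁻¹ • ((v + B a *ᵥ v) + (v - B a *ᵥ v)) := by
        ext k
        simp
        ring
      have c : ∀ i, B i *ᵥ B a *ᵥ v = B a *ᵥ B i *ᵥ v := fun i => by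
        rw [mulVec_mulVec, mulVec_mulVec, h2]
      have c' : B a *ᵥ B a *ᵥ v = v := by rw [mulVec_mulVec, h1, one_mulVec]
      rw [e]
      refine Submodule.smul_mem _ _ (add_mem (Submodule.subset_span fun i hi => ?_)
        (Submodule.subset_span fun i hi => ?_))
      · rcases Finset.mem_insert.1 hi with rfl | hi
        · exact Or.inl (by rw [mulVec_add, c', add_comm])
        · rw [mulVec_add, c]
          exact (hv i hi).imp (fun h => by rw [h]) fun h => by rw [h, mulVec_neg, neg_add]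
      · rcases Finset.mem_insert.1 hi with rfl | hi
        · exact Or.inr (by rw [mulVec_sub, c', neg_sub])
        · rw [mulVec_sub, c]
          exact (hv i hi).imp (fun h => by rw [h]) fun h => by rw [h, mulVec_neg, neg_sub']
  have h := key Finset.univ
  rw [← Submodule.span_sdiff_singleton_zero] at h
  obtain ⟨T, h3, h4⟩ := (Submodule.fg_span_iff_fg_span_finset_subset _).1
    (h ▸ Module.Finite.fg_top (R := L) (M := n → L))
  exact ⟨T, fun v hv => ⟨(h3 hv).2, fun i => (h3 hv).1 i (Finset.mem_univ i)⟩, h4 ▸ h⟩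

theorem field {n : Type} [Fintype n] (A : Matrix n n Qb)
    (hA : ∀ (δ : Qb →ₐ[ℚ] ℂ) k l, (δ (A k l)).re = 0) :
    ∃ (L : Type) (_ : Field L) (_ : NumberField L) (c : L →+* L) (j : L →+* Qb)
      (A' : Matrix n n L), CMF c ∧ IsGalois ℚ L ∧ 6 ≤ Module.finrank ℚ L ∧ A'.map j = A ∧
      (∀ σ : Emb L, ∃ δ : Qb →ₐ[ℚ] ℂ, ∀ x, δ (j x) = σ x) ∧
      ∀ σ : Emb L, ∃ γ : L →+* L, ∀ x, σ (γ x) = j x := by
  classical
  have i1 : Algebra.IsAlgebraic ℚ Qb := algebraicClosure.isAlgebraic ℚ ℂ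
  have i2 : IsAlgClosed Qb := (algebraicClosure.isAlgClosure ℚ ℂ).isAlgClosed
  have i3 : Normal ℚ Qb := normal_iff.2 fun x =>
    ⟨Algebra.IsIntegral.isIntegral x, IsAlgClosed.splits _⟩
  open Polynomial in
  obtain ⟨f, f0, f1, f2, f3⟩ : ∃ f : ℚ[X], f ≠ 0 ∧ (∀ k l, aeval (A k l) f = 0) ∧
      (∀ r : Qb, r ^ 7 = 1 → aeval r f = 0) ∧ ∀ r : Qb, aeval r f = 0 →
        r ^ 7 = 1 ∨ ∀ δ : Qb →ₐ[ℚ] ℂ, (δ r).re = 0 := by
    refine ⟨(X ^ 7 - 1) * ∏ p : n × n, minpoly ℚ (A p.1 p.2), mul_ne_zero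
      (X_pow_sub_C_ne_zero (by norm_num) 1) (Finset.prod_ne_zero_iff.2 fun p _ =>
        minpoly.ne_zero (Algebra.IsIntegral.isIntegral _)), fun k l => ?_, fun r hr => ?_,
      fun r hr => ?_⟩
    · rw [map_mul, map_prod, Finset.prod_eq_zero (Finset.mem_univ (k, l)) (minpoly.aeval _ _),
        mul_zero]
    · simp [hr]
    · rw [map_mul, map_prod, mul_eq_zero, Finset.prod_eq_zero_iff] at hr
      refine hr.imp (fun h => by simpa [sub_eq_zero] using h) fun ⟨p, _, h⟩ δ => ?_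
      obtain ⟨τ, rfl⟩ := minpoly.exists_algEquiv_of_root' (Algebra.IsAlgebraic.isAlgebraic _) h
      exact hA (δ.comp τ.toAlgHom) _ _
  let L : IntermediateField ℚ Qb := IntermediateField.adjoin ℚ (f.rootSet Qb)
  have sp : f.IsSplittingField ℚ L :=
    IntermediateField.adjoin_rootSet_isSplittingField (IsAlgClosed.splits _)
  have fd : FiniteDimensional ℚ L := Polynomial.IsSplittingField.finiteDimensional L f
  have nm : Normal ℚ L := Normal.of_isSplittingField f
  have nf : NumberField L := ⟨⟩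
  have mem : ∀ r : Qb, Polynomial.aeval r f = 0 → r ∈ L := fun r hr =>
    IntermediateField.subset_adjoin _ _ (Polynomial.mem_rootSet.2 ⟨f0, hr⟩)
  have gal : ∀ σ : L →ₐ[ℚ] ℂ, ∃ γ : L ≃ₐ[ℚ] L, ∀ x, ((γ x : Qb) : ℂ) = σ x := fun σ =>
    ⟨σ.restrictNormal' L, fun x => σ.restrictNormal_commutes L x⟩
  have ext : ∀ σ : Emb L, ∃ δ : Qb →ₐ[ℚ] ℂ, ∀ x : L, δ x = σ x := fun σ => by
    obtain ⟨δ, h⟩ := IsAlgClosed.surjective_domRestrict_of_isAlgebraic (K := ℚ) (L := L) (M := ℂ)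
      (E := Qb) σ.toRatAlgHom
    exact ⟨δ, fun x => DFunLike.congr_fun h x⟩
  obtain ⟨c, hc⟩ := gal ((starRingEnd ℂ).comp (algebraMap L ℂ)).toRatAlgHom
  have hc' : ∀ x : L, ((c x : Qb) : ℂ) = (starRingEnd ℂ) ((x : Qb) : ℂ) := hc
  have inj : ∀ x y : L, ((x : Qb) : ℂ) = ((y : Qb) : ℂ) → x = y := fun x y h =>
    Subtype.ext (Subtype.ext h)
  have c7 : ∀ z : ℂ, z ^ 7 = 1 → (starRingEnd ℂ) z = z ^ 6 := fun z hz => by
    rw [← Complex.inv_eq_conj (Complex.norm_eq_one_of_pow_eq_one hz (by norm_num))]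
    exact (eq_inv_of_mul_eq_one_left (by rw [← pow_succ, hz])).symm
  have ci : ∀ z : ℂ, z.re = 0 → (starRingEnd ℂ) z = -z := fun z hz =>
    Complex.ext (by simp [hz]) (by simp)
  obtain ⟨ζ, hζ⟩ := HasEnoughRootsOfUnity.exists_primitiveRoot Qb 7
  have hz : IsPrimitiveRoot (⟨ζ, mem ζ (f2 ζ hζ.pow_eq_one)⟩ : L) 7 :=
    IsPrimitiveRoot.of_map_of_injective (f := algebraMap L Qb) hζ (algebraMap L Qb).injective
  refine ⟨L, inferInstance, nf, c, algebraMap L Qb, Matrix.of fun k l => ⟨A k l, mem _ (f1 k l)⟩,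
    ⟨fun σ x => ?_, ⟨ζ, mem ζ (f2 ζ hζ.pow_eq_one)⟩, fun h => ?_⟩, ⟨⟩, ?_, rfl, ext, fun σ => ?_⟩
  · have : (σ.comp (c : L →+* L)).toRatAlgHom = ((starRingEnd ℂ).comp σ).toRatAlgHom := by
      refine IntermediateField.adjoin_algHom_ext ℚ fun r hr => ?_
      set x : L := ⟨r, IntermediateField.subset_adjoin _ _ hr⟩
      show σ (c x) = (starRingEnd ℂ) (σ x)
      rcases f3 r (Polynomial.mem_rootSet.1 hr).2 with h | h
      · have h1 : x ^ 7 = 1 := Subtype.ext h
        have h2 : c x = x ^ 6 := inj _ _ ((hc' x).trans (c7 _ (congrArg Subtype.val h)))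
        rw [h2, c7 _ (by rw [← map_pow, h1, map_one]), map_pow]
      · have h2 : c x = -x := inj _ _ ((hc' x).trans (ci _ (h Qb.val)))
        obtain ⟨δ, hδ⟩ := ext σ
        rw [h2, ci _ (hδ x ▸ h δ), map_neg]
    exact DFunLike.congr_fun this x
  · have h0 : c ⟨ζ, mem ζ (f2 ζ hζ.pow_eq_one)⟩ = ⟨ζ, mem ζ (f2 ζ hζ.pow_eq_one)⟩ := h
    have h1 := hc' ⟨ζ, mem ζ (f2 ζ hζ.pow_eq_one)⟩
    have h2 : (ζ : ℂ) ^ 7 = 1 := congrArg Subtype.val hζ.pow_eq_one
    rw [h0, c7 _ h2] at h1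
    have h3 : ζ ^ 1 = ζ ^ 6 := Subtype.ext ((pow_one (ζ : ℂ)).trans h1)
    exact absurd (hζ.pow_inj (by norm_num) (by norm_num) h3) (by norm_num)
  · have h1 := minpoly.natDegree_le (A := ℚ) (⟨ζ, mem ζ (f2 ζ hζ.pow_eq_one)⟩ : L)
    rwa [← Polynomial.cyclotomic_eq_minpoly_rat hz (by norm_num), Polynomial.natDegree_cyclotomic,
      Nat.totient_prime (by norm_num)] at h1
  · obtain ⟨γ, hγ⟩ := gal σ.toRatAlgHom
    exact ⟨γ.symm, fun x => (hγ (γ.symm x)).symm.trans (by rw [γ.apply_symm_apply]; rfl)⟩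

end CmdA

open CmdA in
theorem cmd (hJ : Cmj) : Cmd := by
  classical
  intro g N Θ Λ η b hb hcm
  obtain ⟨A, a1, a2, a3⟩ := hJ g N Θ Λ η b hb hcm
  obtain ⟨L, _, _, c, j, A', l1, l2, l3, rfl, l4, l5⟩ := field A a2
  choose γ hγ using l5
  set σ₀ : Emb L := (Qb.val : Qb →+* ℂ).comp j with hσ₀
  have a0 : ∀ k l, (σ₀ (A' k l)).re = 0 := a2 Qb.val
  set J : Matrix (Fin (2 * g)) (Fin (2 * g)) ℝ := Matrix.of fun k l => (I * σ₀ (A' k l)).re with hJ'
  have j1 : ∀ k, I • b k = ∑ l, J k l • b l := a1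
  have j2 : J.map (fun r => (r : ℂ)) = I • A'.map σ₀ := by
    ext k l
    exact Complex.ext (by simp [hJ']) (by simp [a0])
  have uniq : ∀ x y : Matrix (Fin (2 * g)) (Fin (2 * g)) ℝ,
      (∀ k, ∑ l, x k l • b l = ∑ l, y k l • b l) → x = y := fun x y h => by
    ext k l
    simpa [Finsupp.single_apply] using congrArg (b.repr · l) (h k)
  have j3 : J * J = -1 := uniq _ _ fun k => by
    have e : ∑ l, (-1 : Matrix (Fin (2 * g)) (Fin (2 * g)) ℝ) k l • b l = I • I • b k := by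
      rw [smul_smul, I_mul_I]
      simp [Matrix.one_apply]
    rw [e, j1, Finset.smul_sum]
    simp only [smul_comm I, j1, Finset.smul_sum, smul_smul, mul_apply, Finset.sum_smul]
    exact Finset.sum_comm
  have j4 : A'.map σ₀ * A'.map σ₀ = 1 := by
    have h := congrArg (Matrix.map · Complex.ofRealHom) j3
    simp only [Matrix.map_mul] at h
    have e : J.map Complex.ofRealHom = I • A'.map σ₀ := j2
    rw [e, smul_mul_smul_comm, I_mul_I, Matrix.map_neg _ (map_neg _),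
      Matrix.map_one _ (map_zero _) (map_one _), neg_smul, one_smul] at h
    exact neg_injective h
  have b1 : ∀ σ : Emb L, (A'.map (γ σ)).map σ = A'.map σ₀ := fun σ => by
    ext k l
    exact hγ σ _
  have s1 : ∀ σ : Emb L, A'.map (γ σ) * A'.map (γ σ) = 1 := by
    intro σ
    refine Matrix.map_injective σ.injective ?_
    show Matrix.map _ σ = Matrix.map _ σ
    rw [Matrix.map_mul, b1, j4, Matrix.map_one _ (map_zero _) (map_one _)]
  have s2 : ∀ σ σ' : Emb L, A'.map (γ σ) * A'.map (γ σ') = A'.map (γ σ') * A'.map (γ σ) := by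
    intro σ σ'
    obtain ⟨δ, hδ⟩ := l4 (σ₀.comp (γ σ))
    obtain ⟨δ', hδ'⟩ := l4 (σ₀.comp (γ σ'))
    have e : ∀ (δ : Qb →ₐ[ℚ] ℂ) (τ : Emb L), (∀ x, δ (j x) = σ₀.comp (γ τ) x) →
        (A'.map (γ τ)).map σ₀ = (A'.map j).map δ := fun δ τ h => by
      ext k l
      exact (h _).symm
    refine Matrix.map_injective σ₀.injective ?_
    show Matrix.map _ σ₀ = Matrix.map _ σ₀
    rw [Matrix.map_mul, Matrix.map_mul, e δ σ hδ, e δ' σ' hδ', a3]
  obtain ⟨T, t1, t2⟩ := eig (fun σ : Emb L => A'.map (γ σ)) s1 s2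
  have ev : ∀ (v : T) (σ : Emb L), (A'.map σ₀ *ᵥ fun k => σ (v.1 k)) =
      fun k => σ ((A'.map (γ σ) *ᵥ v.1) k) := fun v σ => by
    funext k
    rw [RingHom.map_mulVec, b1]
    rfl
  have e1 : ∀ (v : T) (σ : Emb L), (A'.map σ₀ *ᵥ fun k => σ (v.1 k)) = (fun k => σ (v.1 k)) ∨
      (A'.map σ₀ *ᵥ fun k => σ (v.1 k)) = -fun k => σ (v.1 k) := fun v σ => by
    rw [ev]
    refine ((t1 v.1 v.2).2 σ).imp (fun h => by rw [h]) fun h => ?_
    rw [h]
    funext k
    simp
  have e2 : ∀ (v : T) (σ : Emb L), (fun k => σ (v.1 k)) ≠ -fun k => σ (v.1 k) := fun v σ h =>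
    (t1 v.1 v.2).1 (funext fun k => σ.injective (by
      rw [Pi.zero_apply, map_zero]
      exact self_eq_neg.1 (congrFun h k)))
  have e3 : ∀ (v : T) (σ : Emb L) (ε : ℂ), (A'.map σ₀ *ᵥ fun k => σ (v.1 k)) =
      (ε • fun k => σ (v.1 k)) → (A'.map σ₀ *ᵥ fun k => cj σ (v.1 k)) =
        (-(starRingEnd ℂ) ε) • fun k => cj σ (v.1 k) := by
    intro v σ ε h
    funext k
    have h1 := congrArg (starRingEnd ℂ) (congrFun h k)
    have ci : ∀ l, (starRingEnd ℂ) (σ₀ (A' k l)) = -σ₀ (A' k l) := fun l =>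
      Complex.ext (by simp [a0]) (by simp)
    simp only [mulVec, dotProduct, map_apply, map_sum, map_mul, ci, Pi.smul_apply, smul_eq_mul,
      neg_mul, Finset.sum_neg_distrib] at h1 ⊢
    exact neg_eq_iff_eq_neg.1 h1
  let p : T → Emb L → ℕ := fun v σ =>
    if (A'.map σ₀ *ᵥ fun k => σ (v.1 k)) = fun k => σ (v.1 k) then 1 else 0
  have hp : ∀ (v : T) (σ : Emb L),
      (p v σ = 1 ∧ p v (cj σ) = 0 ∧ (A'.map σ₀ *ᵥ fun k => σ (v.1 k)) = fun k => σ (v.1 k)) ∨
      (p v σ = 0 ∧ p v (cj σ) = 1 ∧ (A'.map σ₀ *ᵥ fun k => σ (v.1 k)) = -fun k => σ (v.1 k)) := by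
    intro v σ
    rcases e1 v σ with h | h
    · have h1 := e3 v σ 1 (by rw [h, one_smul])
      rw [map_one, neg_smul, one_smul] at h1
      exact Or.inl ⟨if_pos h, if_neg fun e => e2 v _ (e.symm.trans h1), h⟩
    · have h1 := e3 v σ (-1) (by rw [h, neg_smul, one_smul])
      rw [map_neg, map_one, neg_neg, one_smul] at h1
      exact Or.inr ⟨if_neg fun e => e2 v _ (e.symm.trans h), if_pos h1, h⟩
  let x : ℂ → Matrix (Fin (2 * g)) (Fin (2 * g)) ℝ := fun z => z.re • 1 + z.im • J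
  have hz : ∀ (z : ℂ) k, z • b k = ∑ l, x z k l • b l := by
    intro z k
    have e : z • b k = z.re • b k + z.im • I • b k := by
      ext i
      simp only [Pi.smul_apply, Pi.add_apply, smul_eq_mul, real_smul]
      rw [← mul_assoc, ← add_mul, re_add_im]
    rw [e, j1, Finset.smul_sum]
    simp [x, add_smul, Finset.sum_add_distrib, Matrix.one_apply, smul_smul]
  have he : ∀ z : ℂ, Eig (fun v : T => v.1) p z ((x z).map fun r => (r : ℂ)) := by
    intro z v σ
    have e : ((x z).map fun r => (r : ℂ)) =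
        (z.re : ℂ) • 1 + ((z.im : ℂ) * I) • A'.map σ₀ := by
      rw [← smul_smul, ← j2]
      ext k l
      simp [x, Matrix.one_apply, apply_ite]
    rw [e, add_mulVec, smul_mulVec, smul_mulVec, one_mulVec]
    rcases hp v σ with ⟨h1, h2, h3⟩ | ⟨h1, h2, h3⟩
    · rw [h1, h2, h3, ← add_smul, re_add_im, pow_one, pow_zero, mul_one]
    · rw [h1, h2, h3, smul_neg, ← neg_smul, ← add_smul, pow_one, pow_zero, one_mul]
      congr 1
      exact Complex.ext (by simp) (by simp)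
  refine ⟨L, inferInstance, inferInstance, c, T, inferInstance, fun v => v.1, p, l1, l2, l3,
    ⟨fun v => (t1 v.1 v.2).1, by simpa using t2, fun v σ => ?_, ?_, fun z z0 =>
      ⟨_, ⟨_, ⟨z, z0, hz z⟩, rfl⟩, he z⟩⟩, fun v σ h => ?_⟩
  · rcases hp v σ with ⟨h1, h2, -⟩ | ⟨h1, h2, -⟩ <;> rw [h1, h2]
  · rintro _ ⟨y, ⟨z, z0, h⟩, rfl⟩
    rw [uniq y _ fun k => (h k).symm.trans (hz z k)]
    exact ⟨z, z0, he z⟩
  · let f : (Fin g → ℂ) →ₗ[ℝ] ℂ := b.constr ℝ fun k => σ (v.1 k)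
    have f1 : ∀ k, f (b k) = σ (v.1 k) := fun k => b.constr_basis ℝ _ k
    have h0 : p v (cj σ) = 0 := by
      rcases hp v σ with ⟨-, h2, -⟩ | ⟨h1, -, -⟩
      · exact h2
      · exact absurd (h1.symm.trans h) zero_ne_one
    have f2 : ∀ z : ℂ, f.comp ((LinearMap.lsmul ℂ (Fin g → ℂ) z).restrictScalars ℝ) =
        ((LinearMap.lsmul ℂ ℂ z).restrictScalars ℝ).comp f := fun z => b.ext fun k => by
      have h1 := congrFun (he z v σ) k
      rw [h, h0, pow_one, pow_zero, mul_one] at h1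
      show f (z • b k) = z • f (b k)
      rw [hz, map_sum, f1]
      simp only [map_smul, f1]
      exact h1
    exact ⟨⟨f.toAddHom, fun z u => DFunLike.congr_fun (f2 z) u⟩, f1⟩

end Pool.Agent.GAM

end MrgPart3

-- ======== part 4: formerly Pool.Agent.MP_cbf1af_ag.gam.Cmj
section MrgPart4

/-! PROJECT GAM, row CMJ: the conjugates of the complex structure of a CM torus. -/

namespace Pool.Agent.GAM

open Matrix Complex
open Pool.Agent.CMP (Qb)
open Pool.Agent.MTG

noncomputable section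

namespace CmjX

variable {κ : Type} [Fintype κ] [DecidableEq κ]

/-- diagonalisation over an algebraically closed field -/
theorem diag {K : Type} [Field K] [IsAlgClosed K] (t : Matrix κ κ K) (h : t.charpoly.Separable) :
    ∃ (P Q : Matrix κ κ K) (lam : κ → K), P * Q = 1 ∧ Q * P = 1 ∧ Function.Injective lam ∧
      Q * t = diagonal lam * Q := by
  classical
  have hc : Fintype.card κ = Fintype.card t.charpoly.roots.toFinset := by
    rw [Fintype.card_coe, Multiset.toFinset_card_of_nodup (Polynomial.nodup_roots h),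
      IsAlgClosed.card_roots_eq_natDegree, charpoly_natDegree_eq_dim]
  let e := Fintype.equivOfCardEq hc
  have hv : ∀ i, ∃ v : κ → K, v ≠ 0 ∧ v ᵥ* t = (e i : K) • v := fun i => by
    have h1 := Polynomial.isRoot_of_mem_roots (Multiset.mem_toFinset.1 (e i).2)
    rw [Polynomial.IsRoot.def, eval_charpoly] at h1
    obtain ⟨v, h2, h3⟩ := exists_vecMul_eq_zero_iff.2 h1
    refine ⟨v, h2, ?_⟩
    rw [vecMul_sub, sub_eq_zero] at h3
    rw [← h3]
    funext j
    simp [scalar_apply, vecMul_diagonal, mul_comm]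
  choose v h0 h1 using hv
  have hi : Function.Injective fun i => (e i : K) := Subtype.coe_injective.comp e.injective
  have hl : LinearIndependent K v :=
    Module.End.eigenvectors_linearIndependent' (t.vecMulLinear : Module.End K (κ → K)) _ hi v
      fun i => ⟨Module.End.mem_eigenspace_iff.2 (h1 i), h0 i⟩
  have hu : IsUnit (Matrix.of v).det :=
    (isUnit_iff_isUnit_det _).1 (linearIndependent_rows_iff_isUnit.1 hl)
  refine ⟨(Matrix.of v)⁻¹, Matrix.of v, _, nonsing_inv_mul _ hu, mul_nonsing_inv _ hu, hi, ?_⟩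
  ext i j
  rw [diagonal_mul]
  exact congrFun (h1 i) j

/-- the commutant is diagonal -/
theorem comm_diag {P Q t X : Matrix κ κ ℂ} {lam : κ → ℂ} (h1 : P * Q = 1) (h2 : Q * P = 1)
    (hi : Function.Injective lam) (ht : Q * t = diagonal lam * Q) (hX : X * t = t * X) :
    ∃ d, Q * X = diagonal d * Q := by
  have e1 : t * P = P * diagonal lam := by
    calc t * P = P * (Q * t) * P := by rw [← Matrix.mul_assoc, h1, Matrix.one_mul]
      _ = _ := by rw [ht, Matrix.mul_assoc, Matrix.mul_assoc, h2, Matrix.mul_one]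
  have e2 : diagonal lam * (Q * X * P) = Q * X * P * diagonal lam := by
    rw [← Matrix.mul_assoc, ← Matrix.mul_assoc, ← ht, Matrix.mul_assoc Q, ← hX,
      Matrix.mul_assoc (Q * X), ← e1]
    simp only [Matrix.mul_assoc]
  refine ⟨fun i => (Q * X * P) i i, ?_⟩
  have e3 : diagonal (fun i => (Q * X * P) i i) = Q * X * P := by
    ext i j
    by_cases hij : i = j
    · rw [hij, diagonal_apply_eq]
    · have := congrFun (congrFun e2 i) j
      rw [diagonal_mul, mul_diagonal] at this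
      rw [diagonal_apply_ne _ hij]
      refine ((mul_eq_zero.1 (?_ : (lam i - lam j) * _ = 0)).resolve_left
        (sub_ne_zero.2 fun e => hij (hi e))).symm
      linear_combination this
  rw [e3, Matrix.mul_assoc, h1, Matrix.mul_one]

theorem eq_conj {P Q X : Matrix κ κ ℂ} {d : κ → ℂ} (h1 : P * Q = 1) (h : Q * X = diagonal d * Q) :
    X = P * diagonal d * Q := by
  rw [Matrix.mul_assoc, ← h, ← Matrix.mul_assoc, h1, Matrix.one_mul]

theorem sq_eq {P Q X : Matrix κ κ ℂ} {d : κ → ℂ} {c : ℂ} (h2 : Q * P = 1)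
    (h : Q * X = diagonal d * Q) (hX : X * X = c • (1 : Matrix κ κ ℂ)) (i : κ) : d i * d i = c := by
  have e : diagonal d * diagonal d * Q * P = c • (1 : Matrix κ κ ℂ) := by
    rw [Matrix.mul_assoc (diagonal d), ← h, ← Matrix.mul_assoc, ← h, Matrix.mul_assoc Q, hX,
      Matrix.mul_smul, Matrix.mul_one, Matrix.smul_mul, h2]
  rw [Matrix.mul_assoc, h2, Matrix.mul_one, diagonal_mul_diagonal] at e
  simpa using congrFun (congrFun e i) i

theorem row_eig {Q X : Matrix κ κ ℂ} {d : κ → ℂ} (h : Q * X = diagonal d * Q) (i : κ) :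
    Q i ᵥ* X = d i • Q i := by
  funext j
  have := congrFun (congrFun h i) j
  rw [diagonal_mul] at this
  exact this

omit [DecidableEq κ] in
theorem star_vecMul' (x : κ → ℂ) (X : Matrix κ κ ℂ) :
    Xᵀ *ᵥ star x = star (x ᵥ* X.map (starRingEnd ℂ)) := by
  funext j
  simp [mulVec, vecMul, dotProduct, mul_comm]

omit [DecidableEq κ] in
theorem pos_form (G : Matrix κ κ ℝ)
    (hG : ∀ x : κ → ℝ, x ≠ 0 → 0 < x ⬝ᵥ G *ᵥ x) (x : κ → ℂ) (hx : x ≠ 0) :
    x ⬝ᵥ (G.map fun r => (r : ℂ)) *ᵥ star x ≠ 0 := by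
  have e : (x ⬝ᵥ (G.map fun r => (r : ℂ)) *ᵥ star x).re =
      (fun i => (x i).re) ⬝ᵥ G *ᵥ (fun i => (x i).re) +
        (fun i => (x i).im) ⬝ᵥ G *ᵥ fun i => (x i).im := by
    simp only [dotProduct, mulVec, map_apply, re_sum, Finset.mul_sum,
      ← Finset.sum_add_distrib, Pi.star_apply]
    refine Finset.sum_congr rfl fun i _ => Finset.sum_congr rfl fun j _ => ?_
    simp
  have h0 : ∀ y : κ → ℝ, 0 ≤ y ⬝ᵥ G *ᵥ y := fun y => by
    by_cases hy : y = 0
    · simp [hy]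
    · exact (hG y hy).le
  intro h
  rw [h, zero_re] at e
  have h3 := h0 fun i => (x i).re
  have h4 := h0 fun i => (x i).im
  by_cases ha : (fun i => (x i).re) = 0
  · have := hG (fun i => (x i).im) fun hb => hx (funext fun i =>
      Complex.ext (congrFun ha i) (congrFun hb i))
    linarith
  · linarith [hG _ ha]

/-- the algebraic part -/
theorem core (t : Matrix κ κ ℚ) (ht : t.charpoly.Separable) (Jm : Matrix κ κ ℝ)
    (N : Matrix κ κ ℤ) (hJ : Jm * Jm = -1)
    (hc : Jm * t.map (Rat.castHom ℝ) = t.map (Rat.castHom ℝ) * Jm)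
    (hN : Jm * N.map (Int.castRingHom ℝ) = -(N.map (Int.castRingHom ℝ) * Jmᵀ))
    (hG : ∀ x : κ → ℝ, x ≠ 0 → 0 < x ⬝ᵥ (N.map (Int.castRingHom ℝ) * Jmᵀ) *ᵥ x) :
    ∃ A : Matrix κ κ Qb, (∀ k l, I * (A k l : ℂ) = Jm k l) ∧
      (∀ (δ : Qb →ₐ[ℚ] ℂ) k l, (δ (A k l)).re = 0) ∧
      ∀ δ δ' : Qb →ₐ[ℚ] ℂ, A.map δ * A.map δ' = A.map δ' * A.map δ := by
  have : IsAlgClosed Qb := (algebraicClosure.isAlgClosure ℚ ℂ).isAlgClosed
  obtain ⟨P, Q, lam, h1, h2, hi, hQ⟩ := diag (t.map (algebraMap ℚ Qb))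
    (by rw [charpoly_map]; exact ht.map)
  obtain ⟨ι, hι⟩ : ∃ ι : Qb →ₐ[ℚ] ℂ, ∀ x, ι x = x := ⟨Qb.val, fun _ => rfl⟩
  have ιi : Function.Injective ι := ι.toRingHom.injective
  have mt : ∀ δ : Qb →ₐ[ℚ] ℂ, (t.map (algebraMap ℚ Qb)).map δ = cM t := fun δ => by
    ext i j; simp [cM]
  have mN : ∀ δ : Qb →ₐ[ℚ] ℂ, (N.map (Int.castRingHom Qb)).map δ = N.map (Int.castRingHom ℂ) :=
    fun δ => by ext i j; simp
  have g1 : P.map ι * Q.map ι = 1 := by
    rw [← Matrix.map_mul, h1, Matrix.map_one _ (map_zero _) (map_one _)]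
  have g2 : Q.map ι * P.map ι = 1 := by
    rw [← Matrix.map_mul, h2, Matrix.map_one _ (map_zero _) (map_one _)]
  have gQ : Q.map ι * cM t = diagonal (fun i => ι (lam i)) * Q.map ι := by
    rw [← mt ι, ← Matrix.map_mul, hQ, Matrix.map_mul, diagonal_map (map_zero _)]
  have gi : Function.Injective fun i => ι (lam i) := ιi.comp hi
  have key := fun X => comm_diag (X := X) g1 g2 gi gQ
  have rt : (t.map (Rat.castHom ℝ)).map ofRealHom = cM t := by ext i j; simp [cM]
  have rN : (N.map (Int.castRingHom ℝ)).map ofRealHom = N.map (Int.castRingHom ℂ) := by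
    ext i j; simp
  obtain ⟨μ, hμ⟩ := key (Jm.map ofRealHom) (by rw [← rt, ← Matrix.map_mul, hc, Matrix.map_mul])
  have sμ := sq_eq (c := -1) g2 hμ (by
    rw [← Matrix.map_mul, hJ, Matrix.map_neg _ (map_neg _),
      Matrix.map_one _ (map_zero _) (map_one _), neg_smul, one_smul])
  let ε : κ → Qb := fun i => if μ i = I then 1 else -1
  have hε : ∀ i, μ i = I * ι (ε i) := fun i => by
    by_cases h : μ i = I
    · simp [ε, h]
    · have : (μ i - I) * (μ i + I) = 0 := by linear_combination sμ i - I_mul_I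
      have := (mul_eq_zero.1 this).resolve_left (sub_ne_zero.2 h)
      simp only [ε, if_neg h, map_neg, map_one]
      linear_combination this
  have ε2 : diagonal ε * diagonal ε = 1 := by
    rw [diagonal_mul_diagonal, ← diagonal_one]
    congr 1
    funext i
    simp only [ε]
    split_ifs <;> simp
  obtain ⟨A, hA⟩ : ∃ A, A = P * diagonal ε * Q := ⟨_, rfl⟩
  have a1 : I • A.map ι = Jm.map ofRealHom := by
    rw [eq_conj g1 hμ, hA, Matrix.map_mul, Matrix.map_mul, diagonal_map (map_zero _),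
      ← Matrix.smul_mul, ← Matrix.mul_smul, ← diagonal_smul]
    congr 3
    exact funext fun i => (hε i).symm
  have a2 : A * A = 1 := by
    rw [hA]
    simp only [Matrix.mul_assoc]
    rw [← Matrix.mul_assoc Q, h2, Matrix.one_mul, ← Matrix.mul_assoc (diagonal ε), ε2,
      Matrix.one_mul, h1]
  have a3 : A * t.map (algebraMap ℚ Qb) = t.map (algebraMap ℚ Qb) * A := by
    refine Matrix.map_injective ιi ?_
    refine smul_right_injective _ I_ne_zero ?_
    simp only [Matrix.map_mul, mt]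
    rw [← Matrix.smul_mul, ← Matrix.mul_smul, a1, ← rt, ← Matrix.map_mul, hc, Matrix.map_mul]
  have a4 : A * N.map (Int.castRingHom Qb) = -(N.map (Int.castRingHom Qb) * Aᵀ) := by
    refine Matrix.map_injective ιi ?_
    refine smul_right_injective _ I_ne_zero ?_
    simp only [Matrix.map_mul, mN, Matrix.map_neg _ (map_neg ι), transpose_map]
    rw [← Matrix.smul_mul, smul_neg, ← Matrix.mul_smul, ← transpose_smul, a1, ← rN,
      ← Matrix.map_mul, hN, Matrix.map_neg _ (map_neg _), Matrix.map_mul, transpose_map]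
  have b3 : ∀ δ : Qb →ₐ[ℚ] ℂ, A.map δ * cM t = cM t * A.map δ := fun δ => by
    rw [← mt δ, ← Matrix.map_mul, a3, Matrix.map_mul]
  refine ⟨A, fun k l => hι _ ▸ congrFun (congrFun a1 k) l, fun δ k l => ?_, fun δ δ' => ?_⟩
  · obtain ⟨e, he⟩ := key _ (b3 δ)
    have ct : (cM t).map (starRingEnd ℂ) = cM t := by ext i j; simp [cM]
    obtain ⟨e', he'⟩ := key ((A.map δ).map (starRingEnd ℂ))
      (by rw [← ct, ← Matrix.map_mul, b3, Matrix.map_mul])
    have s' := sq_eq (c := 1) g2 he' (by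
      rw [← Matrix.map_mul, ← Matrix.map_mul, a2, Matrix.map_one _ (map_zero _) (map_one _),
        Matrix.map_one _ (map_zero _) (map_one _), one_smul])
    have b4 : A.map δ * N.map (Int.castRingHom ℂ) = -(N.map (Int.castRingHom ℂ) * (A.map δ)ᵀ) := by
      rw [← mN δ, ← Matrix.map_mul, a4, Matrix.map_neg _ (map_neg _), Matrix.map_mul, transpose_map]
    have ee : ∀ i, e' i = -e i := fun i => by
      have x0 : Q.map ι i ≠ 0 := fun h => by
        have := congrFun (congrFun g2 i) i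
        rw [mul_apply, one_apply_eq, h] at this
        simp at this
      have r1 := row_eig he i
      have r2 := row_eig he' i
      have r3 := row_eig hμ i
      generalize Q.map ι i = x at x0 r1 r2 r3
      have p1 := pos_form _ hG x x0
      have cJ : (Jm.map ofRealHom).map (starRingEnd ℂ) = Jm.map ofRealHom := by ext i j; simp
      have p2 : (N.map (Int.castRingHom ℝ) * Jmᵀ).map (fun r => (r : ℂ)) =
          N.map (Int.castRingHom ℂ) * (Jm.map ofRealHom)ᵀ := by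
        rw [← rN, ← transpose_map, ← Matrix.map_mul]; rfl
      rw [p2, ← mulVec_mulVec, star_vecMul', cJ, r3, star_smul, mulVec_smul, dotProduct_smul,
        smul_eq_mul] at p1
      have p3 := congrArg (fun M => x ⬝ᵥ M *ᵥ star x) b4
      simp only [neg_mulVec, dotProduct_neg, ← mulVec_mulVec] at p3
      rw [star_vecMul', r2, star_smul, mulVec_smul, dotProduct_smul, dotProduct_mulVec x (A.map δ),
        r1, smul_dotProduct, smul_eq_mul, smul_eq_mul, ← neg_mul] at p3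
      have p4 := mul_right_cancel₀ (right_ne_zero_of_mul p1) p3
      rcases mul_self_eq_one_iff.1 (s' i) with h | h <;> rw [p4, h] <;> simp
    have fin : (A.map δ).map (starRingEnd ℂ) = -A.map δ := by
      rw [eq_conj g1 he', eq_conj g1 he, ← Matrix.neg_mul, ← Matrix.mul_neg, diagonal_neg]
      congr 3
      exact funext ee
    have := congrArg re (congrFun (congrFun fin k) l)
    simp only [map_apply, conj_re, Matrix.neg_apply, neg_re] at this
    linarith
  · obtain ⟨e, he⟩ := key _ (b3 δ)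
    obtain ⟨e', he'⟩ := key _ (b3 δ')
    rw [eq_conj g1 he', eq_conj g1 he]
    simp only [Matrix.mul_assoc]
    rw [← Matrix.mul_assoc (Q.map ι), ← Matrix.mul_assoc (Q.map ι), g2, Matrix.one_mul,
      Matrix.one_mul, ← Matrix.mul_assoc (diagonal e), ← Matrix.mul_assoc (diagonal e'), diagonal_mul_diagonal,
      diagonal_mul_diagonal]
    simp only [mul_comm]

end CmjX

open CmjX in
theorem cmj (hT : Cmt) (hW : CMQ.WtStmt) : Cmj := by
  intro g N Θ Λ η b hA hC
  obtain ⟨t, ⟨φ, hφ⟩, ht⟩ := hT g _ b hC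
  obtain ⟨u, L, W⟩ := hW g N Θ Λ η hA.th
  have hb : ∀ k, b k ∈ Λ := fun k => hA.lat ▸ AddSubgroup.subset_closure ⟨k, rfl⟩
  choose n hn using fun k l => W.riem (b k) (hb k) (b l) (hb l)
  obtain ⟨Jm, hJ⟩ : ∃ Jm : Matrix (Fin (2 * g)) (Fin (2 * g)) ℝ,
      ∀ k, I • b k = ∑ l, Jm k l • b l :=
    ⟨Matrix.of fun k l => b.repr (I • b k) l, fun k => (b.sum_repr _).symm⟩
  have ext : ∀ X Y : Matrix (Fin (2 * g)) (Fin (2 * g)) ℝ,
      (∀ k, ∑ l, X k l • b l = ∑ l, Y k l • b l) → X = Y := fun X Y h => by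
    ext k l
    exact Fintype.linearIndependent_iffₛ.1 b.linearIndependent _ _ (h k) l
  have mul : ∀ (X Y : Matrix (Fin (2 * g)) (Fin (2 * g)) ℝ) k,
      ∑ l, (X * Y) k l • b l = ∑ m, X k m • ∑ l, Y m l • b l := fun X Y k => by
    simp only [mul_apply, Finset.sum_smul, Finset.smul_sum, smul_smul]
    exact Finset.sum_comm
  have sI : ∀ (x : Fin (2 * g) → ℝ) (y : Fin (2 * g) → Fin g → ℂ),
      ∑ m, x m • I • y m = I • ∑ m, x m • y m := fun x y => by
    rw [Finset.smul_sum]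
    exact Finset.sum_congr rfl fun m _ => smul_comm _ _ _
  have hφ' : ∀ k, φ (b k) = ∑ l, (t.map (Rat.castHom ℝ)) k l • b l := fun k => by
    rw [hφ]
    exact Finset.sum_congr rfl fun l _ => by funext i; simp
  have LI : ∀ y z, (L y z).im = -(L y (I • z)).re := fun y z => by simp
  have II : ∀ z : Fin g → ℂ, I • I • z = -z := fun z => by rw [smul_smul, I_mul_I, neg_one_smul]
  let e : (Fin g → ℂ) →ₗ[ℝ] (Fin g → ℂ) →ₗ[ℝ] ℝ := LinearMap.mk₂ ℝ
    (fun y z => (L y z - L z y).im / (2 * Real.pi))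
    (fun _ _ _ => by simp; ring) (fun _ _ _ => by simp; ring)
    (fun _ _ _ => by simp; ring) (fun _ _ _ => by simp; ring)
  have he : ∀ y z, e y z = (L y z - L z y).im / (2 * Real.pi) := fun _ _ => rfl
  have e1 : ∀ k l, e (b k) (b l) = (n k l : ℝ) := fun k l => by
    rw [he, hn]
    simp
  have e2 : ∀ y z, e y (I • z) = ((L y z).re + (L (I • y) (I • z)).re) / (2 * Real.pi) :=
    fun y z => by
      rw [he, sub_im, LI, LI, II, map_neg, neg_re, W.symm (I • z)]
      ring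
  have e3 : ∀ y z, e (I • y) z = -e y (I • z) := fun y z => by
    rw [e2, he, sub_im, LI, LI, II, map_neg, neg_re, W.symm z]
    ring
  have e4 : ∀ k l, ((Matrix.of n).map (Int.castRingHom ℝ) * Jmᵀ) k l = e (b k) (I • b l) :=
    fun k l => by
      rw [hJ, map_sum, mul_apply]
      exact Finset.sum_congr rfl fun m _ => by simp [e1, mul_comm]
  obtain ⟨A, a1, a2, a3⟩ := core t ht Jm (Matrix.of n)
    (ext _ _ fun k => by
      simp only [mul, ← hJ, sI, II]
      simp [Matrix.one_apply, ite_smul])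
    (ext _ _ fun k => by
      simp only [mul, ← hJ, ← hφ', sI]
      rw [← map_smul, hJ, map_sum]
      exact Finset.sum_congr rfl fun m _ => (φ.map_smul_of_tower _ _).symm)
    (by
      ext k l
      rw [Matrix.neg_apply, e4, ← e3, hJ, map_sum, LinearMap.sum_apply, mul_apply]
      exact Finset.sum_congr rfl fun m _ => by simp [e1])
    (fun x hx => by
      have y0 : ∑ k, x k • b k ≠ 0 := fun h =>
        hx (funext (Fintype.linearIndependent_iff.1 b.linearIndependent x h))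
      have h1 := W.pos _ y0
      have h2 : x ⬝ᵥ ((Matrix.of n).map (Int.castRingHom ℝ) * Jmᵀ) *ᵥ x =
          e (∑ k, x k • b k) (I • ∑ k, x k • b k) := by
        rw [← sI]
        simp only [dotProduct, mulVec, e4, map_sum, map_smul, LinearMap.sum_apply,
          LinearMap.smul_apply, smul_eq_mul, Finset.mul_sum]
        rw [Finset.sum_comm]
        exact Finset.sum_congr rfl fun k _ => Finset.sum_congr rfl fun l _ => by ring
      rw [h2, e2, map_smul (L (I • ∑ k, x k • b k)), smul_eq_mul, ← add_re]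
      positivity)
  exact ⟨A, fun k => by simp only [a1, ofReal_re, hJ], a2, a3⟩

end

end Pool.Agent.GAM

end MrgPart4

-- ======== part 5: formerly Pool.Agent.MP_cbf1af_ag.gam.Cmt
section MrgPart5

/-! PROJECT GAM, stage 2, row CMT: a commutative reduced algebra of `n × n` rational matrices of
dimension `n` contains a matrix with separable characteristic polynomial. -/

namespace Pool.Agent.GAM

open Pool.Agent.MTG

noncomputable section

/-- a finite dimensional reduced commutative `ℚ`-algebra has enough complex characters -/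
theorem cmt_card (R : Type) [CommRing R] [Algebra ℚ R] [Module.Finite ℚ R] [IsReduced R] :
    Module.finrank ℚ R ≤ Nat.card (R →ₐ[ℚ] ℂ) := by
  classical
  haveI : IsArtinianRing R := IsArtinianRing.of_finite ℚ R
  haveI : Fintype (MaximalSpectrum R) := Fintype.ofFinite _
  have h1 : Module.finrank ℚ R = ∑ m : MaximalSpectrum R, Module.finrank ℚ (R ⧸ m.asIdeal) := by
    rw [((IsArtinianRing.equivPi R).restrictScalars ℚ).toLinearEquiv.finrank_eq,
      Module.finrank_pi_fintype]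
  have h2 : ∀ m : MaximalSpectrum R,
      Nat.card ((R ⧸ m.asIdeal) →ₐ[ℚ] ℂ) = Module.finrank ℚ (R ⧸ m.asIdeal) := by
    intro m
    haveI := m.isMaximal
    letI : Field (R ⧸ m.asIdeal) := Ideal.Quotient.field _
    rw [Nat.card_eq_fintype_card]
    exact AlgHom.card ℚ (R ⧸ m.asIdeal) ℂ
  have h3 : Function.Injective
      (fun a : (Σ m : MaximalSpectrum R, ((R ⧸ m.asIdeal) →ₐ[ℚ] ℂ)) =>
        a.2.comp (Ideal.Quotient.mkₐ ℚ a.1.asIdeal)) := by
    have hk : ∀ (m : MaximalSpectrum R) (ψ : (R ⧸ m.asIdeal) →ₐ[ℚ] ℂ) (x : R),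
        ψ.comp (Ideal.Quotient.mkₐ ℚ m.asIdeal) x = 0 ↔ x ∈ m.asIdeal := by
      intro m ψ x
      haveI := m.isMaximal
      letI : Field (R ⧸ m.asIdeal) := Ideal.Quotient.field _
      rw [AlgHom.comp_apply, map_eq_zero_iff ψ ψ.toRingHom.injective, Ideal.Quotient.mkₐ_eq_mk,
        Ideal.Quotient.eq_zero_iff_mem]
    rintro ⟨m, ψ⟩ ⟨m', ψ'⟩ h
    have h' : ψ.comp (Ideal.Quotient.mkₐ ℚ m.asIdeal) =
        ψ'.comp (Ideal.Quotient.mkₐ ℚ m'.asIdeal) := h
    have hm : m = m' := by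
      ext x
      rw [← hk m ψ x, ← hk m' ψ' x, h']
    subst hm
    have : ψ = ψ' := by
      ext y
      obtain ⟨x, rfl⟩ := Ideal.Quotient.mkₐ_surjective ℚ m.asIdeal y
      exact DFunLike.congr_fun h' x
    rw [this]
  calc Module.finrank ℚ R = ∑ m : MaximalSpectrum R, Nat.card ((R ⧸ m.asIdeal) →ₐ[ℚ] ℂ) := by
        rw [h1]; exact Finset.sum_congr rfl fun m _ => (h2 m).symm
    _ = Nat.card (Σ m : MaximalSpectrum R, ((R ⧸ m.asIdeal) →ₐ[ℚ] ℂ)) := Nat.card_sigma.symm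
    _ ≤ Nat.card (R →ₐ[ℚ] ℂ) := Nat.card_le_card_of_injective _ h3

/-- an element which separates the characters -/
theorem cmt_sep (R : Type) [CommRing R] [Algebra ℚ R] [Module.Finite ℚ R] :
    ∃ t : R, Function.Injective fun φ : R →ₐ[ℚ] ℂ => φ t := by
  let p : {a : (R →ₐ[ℚ] ℂ) × (R →ₐ[ℚ] ℂ) // a.1 ≠ a.2} → Submodule ℚ R :=
    fun a => LinearMap.eqLocus a.1.1.toLinearMap a.1.2.toLinearMap
  have hp : ∀ a, p a ≠ ⊤ := by
    intro a h
    apply a.2
    ext x
    have hx : x ∈ p a := h ▸ Submodule.mem_top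
    exact hx
  obtain ⟨t, ht⟩ := Submodule.exists_forall_notMem_of_forall_ne_top p hp
  refine ⟨t, fun φ ψ h => ?_⟩
  by_contra hne
  exact ht ⟨(φ, ψ), hne⟩ h

/-- CMT -/
theorem cmt : Cmt := by
  classical
  rintro g n b ⟨T, hc, hr, hn, he⟩
  letI : CommRing T := { (inferInstance : Ring T) with
    mul_comm := fun x y => Subtype.ext (hc x x.2 y y.2) }
  obtain ⟨t, ht⟩ := cmt_sep T
  refine ⟨t, he t t.2, ?_⟩
  have hdeg : (t : Matrix (Fin n) (Fin n) ℚ).charpoly.natDegree = n := by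
    rw [Matrix.charpoly_natDegree_eq_dim, Fintype.card_fin]
  have h0 : (t : Matrix (Fin n) (Fin n) ℚ).charpoly ≠ 0 := (Matrix.charpoly_monic _).ne_zero
  have hz : Polynomial.aeval t (t : Matrix (Fin n) (Fin n) ℚ).charpoly = 0 := by
    apply Subtype.ext
    have := Polynomial.aeval_algHom_apply T.val t (t : Matrix (Fin n) (Fin n) ℚ).charpoly
    exact this.symm.trans (Matrix.aeval_self_charpoly _)
  have hroot : ∀ φ : T →ₐ[ℚ] ℂ, φ t ∈ (t : Matrix (Fin n) (Fin n) ℚ).charpoly.rootSet ℂ := by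
    intro φ
    rw [Polynomial.mem_rootSet_of_ne h0, Polynomial.aeval_algHom_apply, hz, map_zero]
  have hle : n ≤ Fintype.card ((t : Matrix (Fin n) (Fin n) ℚ).charpoly.rootSet ℂ) := by
    rw [← Nat.card_eq_fintype_card]
    calc n = Module.finrank ℚ T := hn.symm
      _ ≤ Nat.card (T →ₐ[ℚ] ℂ) := cmt_card T
      _ ≤ _ := Nat.card_le_card_of_injective (fun φ => (⟨φ t, hroot φ⟩ :
          (t : Matrix (Fin n) (Fin n) ℚ).charpoly.rootSet ℂ))
          fun φ ψ h => ht (congrArg Subtype.val h)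
  rw [← Polynomial.card_rootSet_eq_natDegree_iff_of_splits (K := ℂ) h0 (IsAlgClosed.splits _)]
  refine le_antisymm ?_ (hdeg.le.trans hle)
  rw [← Nat.card_eq_fintype_card, Nat.card_coe_set_eq]
  exact Polynomial.ncard_rootSet_le _ _

end

end Pool.Agent.GAM

end MrgPart5

-- ======== part 6: formerly Pool.Agent.MP_cbf1af_ag.gam.Drel
section MrgPart6

/-! PROJECT GAM, row DREL: differentiating relations along a derivation. -/

namespace Pool.Agent.GAM

open Matrix Complex Filter Topology MvPolynomial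
open Pool.Agent.CMP (Qb)

noncomputable section

namespace DrelP

open ValX

variable {ι : Type} [Fintype ι]

theorem lin_an {h : (ι → ℂ) → ℂ} (hh : AnalyticAt ℂ h 0) (v : ι → ℂ) :
    AnalyticAt ℂ (fun x : ℂ => h (x • v)) 0 := by
  simpa using line_analytic hh v

theorem dl_lin (hT : Tay) (δ : Derivation ℚ ℂ ℂ) (a : ℂ) :
    dl δ (tay fun x => x * a) = tay fun x => x * δ a := by
  rw [hT.mul (fun x => x) _ analyticAt_id analyticAt_const, hT.const, hT.id, hT.dlMul, hT.dlC,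
    hT.mul (fun x => x) _ analyticAt_id analyticAt_const, hT.const, hT.id, hT.dlX, mul_zero,
    add_zero]

theorem dl_sum (δ : Derivation ℚ ℂ ℂ) {κ : Type} (s : Finset κ) (φ : κ → PowerSeries ℂ) :
    dl δ (∑ i ∈ s, φ i) = ∑ i ∈ s, dl δ (φ i) := by
  ext n
  simp [dl]

theorem vm_an {κ : Type} [Fintype κ] (M : Matrix ι κ ℂ) (z : ι → ℂ) :
    AnalyticAt ℂ (fun z : ι → ℂ => z ᵥ* M) z :=
  (LinearMap.toContinuousLinearMap M.vecMulLinear).analyticAt z

theorem germ (hT : Tay) (δ : Derivation ℚ ℂ ℂ) {κ : Type} [Fintype κ] [DecidableEq κ]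
    {𝓕 : Set ((κ → ℂ) → ℂ)} (M : Matrix ι κ ℂ) (h : Germs 𝓕) {G : (κ → ℂ) → ℂ} (hG : G ∈ 𝓕) :
    DD δ (fun z => G (z ᵥ* M)) fun z => fderiv ℂ G (z ᵥ* M) (z ᵥ* M.map δ) := by
  have a0 := (h G hG).1
  have a1 : ∀ {F : (κ → ℂ) → ℂ}, AnalyticAt ℂ F 0 → AnalyticAt ℂ (fun z => F (z ᵥ* M)) 0 :=
    fun hF => AnalyticAt.comp (f := fun z : ι → ℂ => z ᵥ* M) (by simpa using hF) (vm_an M 0)
  have a2 : ∀ k, AnalyticAt ℂ (fun z => pd k G (z ᵥ* M)) 0 := fun k =>
    a1 (fderiv_apply_analytic a0 _)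
  have a3 : ∀ k, AnalyticAt ℂ (fun z : ι → ℂ => (z ᵥ* M.map δ) k) 0 := fun k =>
    analyticAt_pi_iff.1 (vm_an _ 0) k
  simp only [fun z => clm_expand (fderiv ℂ G (z ᵥ* M)) (z ᵥ* M.map δ)]
  refine ⟨a1 a0, Finset.analyticAt_fun_sum _ fun k _ => (a2 k).mul (a3 k), fun v hv => ?_⟩
  rw [hT.chain δ κ 𝓕 (fun x => (x • v) ᵥ* M) h ((vm_an M _).comp (by fun_prop)) (by simp) G hG,
    tay_sum hT _ (fun k x => fderiv ℂ G ((x • v) ᵥ* M) (Pi.single k 1) * ((x • v) ᵥ* M.map δ) k)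
      fun k => lin_an ((a2 k).mul (a3 k)) v]
  refine Finset.sum_congr rfl fun k _ => ?_
  refine Eq.trans ?_ (hT.mul _ _ (lin_an (a2 k) v) (lin_an (a3 k) v)).symm
  simp only [smul_vecMul, Pi.smul_apply, smul_eq_mul, dl_lin hT]
  congr 3
  simp [vecMul, dotProduct, hT.kill δ _ (hv _)]

theorem comb (hT : Tay) (δ : Derivation ℚ ℂ ℂ) {κ : Type} [Fintype κ] (a : κ → ℂ)
    {h h' : κ → (ι → ℂ) → ℂ} (H : ∀ k, DD δ (h k) (h' k)) :
    DD δ (fun z => ∑ k, a k * h k z) fun z => ∑ k, (δ (a k) * h k z + a k * h' k z) := by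
  refine ⟨Finset.analyticAt_fun_sum _ fun k _ => analyticAt_const.mul (H k).1,
    Finset.analyticAt_fun_sum _ fun k _ =>
      (analyticAt_const.mul (H k).1).add (analyticAt_const.mul (H k).2.1), fun v hv => ?_⟩
  have a1 := fun k => lin_an (H k).1 v
  have a2 := fun k => lin_an (H k).2.1 v
  rw [tay_sum hT _ (fun k x => a k * h k (x • v)) fun k => analyticAt_const.mul (a1 k),
    tay_sum hT _ (fun k x => δ (a k) * h k (x • v) + a k * h' k (x • v)) fun k =>
      (analyticAt_const.mul (a1 k)).add (analyticAt_const.mul (a2 k)), dl_sum]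
  refine Finset.sum_congr rfl fun k _ => ?_
  rw [hT.add _ _ (analyticAt_const.fun_mul (a1 k)) (analyticAt_const.fun_mul (a2 k)),
    hT.mul _ _ analyticAt_const (a1 k), hT.mul _ _ analyticAt_const (a1 k),
    hT.mul _ _ analyticAt_const (a2 k), hT.const, hT.const, hT.dlMul, hT.dlC, (H k).2.2 v hv]
  ring

omit [Fintype ι] in
theorem alg_dense : Dense {v : ι → ℂ | ∀ i, Alg (v i)} := by
  have h1 : Dense {x : ℂ | Alg x} := by
    refine Dense.mono ?_ (equivRealProdCLM.symm.surjective.denseRange.comp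
      (Rat.denseRange_cast.prodMap Rat.denseRange_cast) equivRealProdCLM.symm.continuous)
    rintro _ ⟨p, rfl⟩
    have hI : Alg I := .of_pow two_pos (by rw [I_sq]; exact isAlgebraic_one.neg)
    simpa [equivRealProdCLM_symm_apply] using
      (isAlgebraic_ratCast ℚ p.1).add ((isAlgebraic_ratCast ℚ p.2).mul hI)
  simpa [Set.pi] using dense_pi (s := fun _ : ι => {x : ℂ | Alg x}) Set.univ fun _ _ => h1

theorem rel (hT : Tay) (δ : Derivation ℚ ℂ ℂ) {κ : Type} [Fintype κ]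
    {h h' : κ → (ι → ℂ) → ℂ} {P : MvPolynomial κ ℂ} (H : ∀ k, DD δ (h k) (h' k))
    (hP : ∀ᶠ z in 𝓝 (0 : ι → ℂ), eval (fun k => h k z) P = 0) : ∃ Q : MvPolynomial κ ℂ,
      ∀ᶠ z in 𝓝 (0 : ι → ℂ), eval (fun k => h k z) Q +
        ∑ k, eval (fun k => h k z) (pderiv k P) * h' k z = 0 := by
  obtain ⟨Q, hQ, -⟩ := hT.dlAeval δ κ 0 P
  refine ⟨Q, by_contra fun hn => ?_⟩
  have a0 := analyticAt_eval h 0 fun k => (H k).1
  have a1 := (a0 Q).fun_add (Finset.analyticAt_fun_sum Finset.univ fun k _ =>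
    (a0 (pderiv k P)).fun_mul (H k).2.1)
  obtain ⟨v₀, hv⟩ := good_dirs a1 hn
  obtain ⟨v, h1, h2⟩ := alg_dense.inter_nhds_nonempty hv
  simp only [zero_add, Set.mem_ofPred_eq] at h2
  refine h2 (hT.inj _ (lin_an a1 v) ?_)
  have ae := fun R => hT.aeval κ (fun k x => h k (x • v)) R fun k => lin_an (H k).1 v
  obtain ⟨Q', hQ', e⟩ := hT.dlAeval δ κ (fun k => tay fun x => h k (x • v)) P
  obtain rfl : Q = Q' := MvPolynomial.ext _ _ fun m => by rw [hQ, hQ']
  rw [← ae P, hT.congr _ (fun _ => 0) (by simpa [EventuallyEq] using (line_tendsto 0 v).eventually hP),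
    hT.const, hT.dlC, map_zero, map_zero] at e
  rw [hT.add _ _ (lin_an (a0 Q) v) (lin_an (Finset.analyticAt_fun_sum Finset.univ fun k _ =>
      (a0 (pderiv k P)).fun_mul (H k).2.1) v), ae, e,
    tay_sum hT _ (fun k x => eval (fun k => h k (x • v)) (pderiv k P) * h' k (x • v)) fun k =>
      lin_an ((a0 (pderiv k P)).fun_mul (H k).2.1) v]
  refine congrArg _ (Finset.sum_congr rfl fun k _ => ?_)
  rw [hT.mul _ _ (lin_an (a0 _) v) (lin_an (H k).2.1 v), ae, (H k).2.2 v h1]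

theorem minp {h : Option ι → (ι → ℂ) → ℂ} (ha : ∀ o, AnalyticAt ℂ (h o) 0)
    (hi : Function.Injective (fderiv ℂ (fun z k => h (some k) z) 0)) (n : ℕ) :
    ∀ P : MvPolynomial (Option ι) ℂ, P ≠ 0 → (∀ m ∈ P.support, m none < n) →
      (∀ᶠ z in 𝓝 (0 : ι → ℂ), eval (fun o => h o z) P = 0) →
      ∃ P' : MvPolynomial (Option ι) ℂ, (∀ᶠ z in 𝓝 (0 : ι → ℂ), eval (fun o => h o z) P' = 0) ∧
        ¬∀ᶠ z in 𝓝 (0 : ι → ℂ), eval (fun o => h o z) (pderiv none P') = 0 := by
  obtain ⟨ψ, hψ, hψ0, -, hr⟩ := local_inverse (analyticAt_pi_iff.2 fun k => ha (some k)) hi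
  induction n with
  | zero =>
    intro P hP hn _
    obtain ⟨m, hm⟩ := support_nonempty.2 hP
    exact absurd (hn m hm) (Nat.not_lt_zero _)
  | succ n ih =>
    intro P hP hn h0
    by_contra! hc
    refine absurd (ih (pderiv none P) (fun h1 => hP ?_) (fun m hm => ?_) (by simpa using hc P h0))
      (by simpa using hc)
    · refine zero_of_free (g := fun t => h none (ψ t)) (c := fun k => h (some k) 0) ?_
        fun m hm => by_contra fun hm0 => ?_
      · filter_upwards [(hψ0 ▸ hψ.continuousAt.tendsto :).eventually h0, hr] with t h1 h2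
        rw [← h1]
        congr 2
        funext o
        cases o with
        | none => rfl
        | some k => exact (congrFun h2 k).symm
      · have h2 := coeff_pderiv (i := none) P (m - Finsupp.single none 1)
        rw [h1, coeff_zero, tsub_add_cancel_of_le (Finsupp.single_le_iff.2 (by omega))] at h2
        exact mul_ne_zero (mem_support_iff.1 hm) (Nat.cast_add_one_ne_zero _) h2.symm
    · have h2 := mem_support_iff.1 hm
      rw [coeff_pderiv] at h2
      simpa using hn _ (mem_support_iff.2 (left_ne_zero_of_mul h2))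

theorem ent {κ : Type} [Fintype κ] {A B : κ → (ι → ℂ) → ℂ} (hA : ∀ k z, AnalyticAt ℂ (A k) z)
    (hB : ∀ k z, AnalyticAt ℂ (B k) z) (P : MvPolynomial κ ℂ) :
    ∃ (d : ℕ) (F : (ι → ℂ) → ℂ), (∀ z, AnalyticAt ℂ F z) ∧ ∀ z, (∀ k, B k z ≠ 0) →
      F z = (∏ k, B k z) ^ d * eval (fun k => A k z / B k z) P := by
  classical
  have hD : ∀ (s : Finset κ) z, AnalyticAt ℂ (fun z => ∏ k ∈ s, B k z) z := fun s z =>
    Finset.analyticAt_fun_prod s fun k _ => hB k z
  induction P using MvPolynomial.induction_on with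
  | C a => exact ⟨0, fun _ => a, fun _ => analyticAt_const, by simp⟩
  | add p q hp hq =>
    obtain ⟨d, F, h1, h2⟩ := hp
    obtain ⟨e, G, h3, h4⟩ := hq
    refine ⟨d + e, fun z => F z * (∏ k, B k z) ^ e + G z * (∏ k, B k z) ^ d, fun z =>
      ((h1 z).mul ((hD _ z).pow e)).add ((h3 z).mul ((hD _ z).pow d)), fun z h => ?_⟩
    simp only [h2 z h, h4 z h, map_add]
    ring
  | mul_X p k hp =>
    obtain ⟨d, F, h1, h2⟩ := hp
    refine ⟨d + 1, fun z => F z * (A k z * ∏ j ∈ Finset.univ.erase k, B j z), fun z =>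
      (h1 z).mul ((hA k z).mul (hD _ z)), fun z h => ?_⟩
    simp only [h2 z h, map_mul, eval_X, pow_succ,
      ← Finset.mul_prod_erase _ (fun j => B j z) (Finset.mem_univ k)]
    field [h k]

theorem ent_zero {F : (ι → ℂ) → ℂ} (h : ∀ z, AnalyticAt ℂ F z) {t : ι → ℂ}
    (h0 : ∀ᶠ z in 𝓝 t, F z = 0) (z : ι → ℂ) : F z = 0 :=
  AnalyticOnNhd.eqOn_zero_of_preconnected_of_eventuallyEq_zero (fun z _ => h z)
    isPreconnected_univ (Set.mem_univ t) h0 (Set.mem_univ z)

theorem peri {V : Set (ι → ℂ)} {κ : Type} [Fintype κ] {A B : κ → (ι → ℂ) → ℂ}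
    {A' B' : (ι → ℂ) → ℂ} {P Q : MvPolynomial κ ℂ} (h : ∀ k, MF V (A k) (B k) ∧ B k 0 ≠ 0)
    (hA : ∀ z, AnalyticAt ℂ A' z) (hB : ∀ z, AnalyticAt ℂ B' z) (h0 : B' 0 ≠ 0)
    (hP : ¬∀ᶠ z in 𝓝 (0 : ι → ℂ), eval (fun k => A k z / B k z) P = 0)
    (hQ : ∀ᶠ z in 𝓝 (0 : ι → ℂ),
      eval (fun k => A k z / B k z) P * (A' z / B' z) = eval (fun k => A k z / B k z) Q)
    {v : ι → ℂ} (hv : v ∈ V) : ∃ M : ℕ, 0 < M ∧ ∀ (m : ℕ) z,
      A' (z + ((M * m : ℕ) : ℂ) • v) * B' z = A' z * B' (z + ((M * m : ℕ) : ℂ) • v) := by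
  choose M M0 hM using fun k => (h k).1.aut v hv
  refine ⟨∏ k, M k, Finset.prod_pos fun k _ => M0 k, fun m z => ?_⟩
  have h1 : ∀ k, Aut (A k) (B k) ((((∏ k, M k) * m : ℕ) : ℂ) • v) := fun k => by
    obtain ⟨c, hc⟩ := (Finset.dvd_prod_of_mem M (Finset.mem_univ k)).mul_right m
    rw [hc, mul_comm, Nat.cast_mul, mul_smul, Nat.cast_smul_eq_nsmul]
    exact (Afa.grp (A k) (B k)).nsmul_mem (hM k) c
  generalize (((∏ k, M k) * m : ℕ) : ℂ) • v = l at h1
  choose j _ j0 hj using h1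
  obtain ⟨d, F, f1, f2⟩ := ent (fun k => (h k).1.holA) (fun k => (h k).1.holB) P
  obtain ⟨e, G, g1, g2⟩ := ent (fun k => (h k).1.holA) (fun k => (h k).1.holB) Q
  have hD : ∀ z, AnalyticAt ℂ (fun z => ∏ k, B k z) z := fun z =>
    Finset.analyticAt_fun_prod _ fun k _ => (h k).1.holB z
  have ev : ∀ᶠ z in 𝓝 (0 : ι → ℂ), ∀ k, B k z ≠ 0 :=
    eventually_all.2 fun k => ((h k).1.holB 0).continuousAt.eventually_ne (h k).2
  have h2 : ∀ z, (∀ k, B k z ≠ 0) → eval (fun k => A k z / B k z) P * A' z =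
      eval (fun k => A k z / B k z) Q * B' z := fun z hz => by
    have h3 := ent_zero (F := fun z => F z * (∏ k, B k z) ^ e * A' z - G z * (∏ k, B k z) ^ d * B' z)
      (fun z => (((f1 z).mul ((hD z).pow e)).mul (hA z)).sub
        (((g1 z).mul ((hD z).pow d)).mul (hB z))) (t := 0) (by
          filter_upwards [ev, hQ, (hB 0).continuousAt.eventually_ne h0] with z h1 h2 h3
          rw [f2 z h1, g2 z h1, ← h2]
          field) z
    rw [f2 z hz, g2 z hz] at h3
    exact mul_left_cancel₀ (pow_ne_zero (d + e) (Finset.prod_ne_zero_iff.2 fun k _ => hz k))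
      (by linear_combination h3)
  have h3 : ∀ᶠ z in 𝓝 (0 : ι → ℂ),
      eval (fun k => A k z / B k z) P * (A' (z + l) * B' z - A' z * B' (z + l)) = 0 := by
    filter_upwards [ev] with z hz
    have h4 := h2 (z + l) fun k => by rw [(hj k z).2]; exact mul_ne_zero (j0 k z) (hz k)
    simp only [(hj _ z).1, (hj _ z).2, mul_div_mul_left _ _ (j0 _ z)] at h4
    linear_combination B' z * h4 - B' (z + l) * h2 z hz
  obtain ⟨t, t1, t2, t3⟩ := ((not_eventually.1 hP).and_eventually (h3.eventually_nhds.and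
    (analyticAt_eval (fun k z => A k z / B k z) 0 (fun k =>
      ((h k).1.holA 0).div ((h k).1.holB 0) (h k).2) P).eventually_analyticAt)).exists
  refine sub_eq_zero.1 (ent_zero (F := fun z => A' (z + l) * B' z - A' z * B' (z + l))
    (fun z => (((hA _).comp (by fun_prop)).mul (hB z)).sub
      ((hA z).mul ((hB _).comp (by fun_prop)))) (t := t) ?_ z)
  filter_upwards [t2, t3.continuousAt.eventually_ne t1] with w h4 h5
  exact (mul_eq_zero.1 h4).resolve_left h5

theorem alg_aeval {σ : Type} {x : σ → ℂ} (hx : ∀ i, Alg (x i)) (R : MvPolynomial σ Qb) :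
    Alg (aeval x R) := by
  induction R using MvPolynomial.induction_on with
  | C a => simpa using mem_algebraicClosure_iff.1 a.2
  | add p q hp hq => simpa using hp.add hq
  | mul_X p k hp => simpa using hp.mul (hx k)

theorem germs {g n : ℕ} {h : (Fin g → ℂ) → Fin n → ℂ} (H : CMP.DiffSys h) :
    Germs {F | ∃ R : MvPolynomial (Fin n) Qb, F = fun z => aeval (h z) R} := by
  obtain ⟨h1, h2, G, hG⟩ := H
  rintro _ ⟨R, rfl⟩
  have e : ∀ (R : MvPolynomial (Fin n) Qb) z,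
      aeval (h z) R = eval (fun i => h z i) (map (algebraMap Qb ℂ) R) := fun R z => by
    rw [eval_map, aeval_def]
  refine ⟨by simpa only [e] using analyticAt_eval (fun i z => h z i) 0 h1 _, alg_aeval h2 R,
    fun k => ⟨_, ⟨∑ i, pderiv i R * G i k, rfl⟩, ?_⟩⟩
  filter_upwards [eventually_all.2 fun i => hG i k,
    eventually_all.2 fun i => (h1 i).eventually_analyticAt] with z h3 h4
  simp only [pd, e R]
  rw [(hasFDerivAt_eval (fun i z => h z i) _ z
    (fun i => (h4 i).differentiableAt.hasFDerivAt) _).fderiv]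
  simp [h3, e (pderiv _ R), pderiv_map]

end DrelP

open DrelP

theorem drel (hT : Tay) (_hF : All AfA) : All Drel := fun ι _ _ =>
  { germ := fun δ _ _ _ _ M h _ hG => germ hT δ M h hG
    comb := fun δ _ _ a _ _ H => comb hT δ a H
    coord := fun δ i => ⟨(ContinuousLinearMap.proj i : (ι → ℂ) →L[ℂ] ℂ).analyticAt 0,
      analyticAt_const, fun v hv => by
        simp only [Pi.smul_apply, smul_eq_mul, dl_lin hT, hT.kill δ _ (hv i), mul_zero]⟩
    rel := fun δ _ _ _ _ _ H hP => rel hT δ H hP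
    minp := fun _ P ha hi hP h0 => minp ha hi (P.degreeOf none + 1) P hP
      (fun _ hm => Nat.lt_succ_of_le (monomial_le_degreeOf none hm)) h0
    peri := fun _ _ _ _ _ _ _ _ _ h hA hB h0 hP hQ _ hv => peri h hA hB h0 hP hQ hv }

theorem thg (hD : CMQ.DerStmt) : Thg := fun g N Θ Λ η b h => by
  refine ⟨⟨_, b, rfl⟩, fun i j => ⟨h.th.hol i, h.th.hol j, fun v hv => ?_⟩, _,
    germs (hD g N Θ Λ η h.th), fun i => ⟨X (Fin.castAdd g i), by simp [CMP.fn]⟩,
    fun i => ⟨X (Fin.natAdd _ i), by simp [pd]⟩⟩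
  obtain ⟨t, ht⟩ := multiple_mem_span_of_mem_localization_span (nonZeroDivisors ℤ) ℚ _ _ hv
  have h1 : (((t : ℤ).natAbs : ℕ) : ℂ) • v ∈ Λ := by
    rw [h.lat, ← Submodule.span_int_eq_addSubgroupClosure, Nat.cast_smul_eq_nsmul]
    rw [← natCast_zsmul, Int.natCast_natAbs]
    rcases abs_choice (t : ℤ) with e | e <;> rw [e]
    exacts [ht, by rw [neg_smul]; exact neg_mem ht]
  obtain ⟨c, hc⟩ := h.th.quasi _ h1
  exact ⟨_, Int.natAbs_pos.2 (nonZeroDivisors.coe_ne_zero t), fun z => exp (η _ z + c),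
    ((η _).continuous_of_finiteDimensional.add continuous_const).cexp, fun _ => exp_ne_zero _,
    fun z => ⟨hc i z, hc j z⟩⟩

end

end Pool.Agent.GAM

end MrgPart6

-- ======== part 7: formerly Pool.Agent.MP_cbf1af_ag.gam.Eta
section MrgPart7

/-! PROJECT GAM, stage 2: endomorphisms act on the algebraic de Rham cohomology. -/

namespace Pool.Agent.GAM

open Matrix Complex Filter Topology MvPolynomial
open Pool.Agent.CMP (Qb)
open Pool.Agent.MTG

noncomputable section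

namespace EtaA

variable {g N : ℕ} {Θ : Fin (N + 1) → (Fin g → ℂ) → ℂ} {Λ : AddSubgroup (Fin g → ℂ)}
  {η : (Fin g → ℂ) → (Fin g → ℂ) →ₗ[ℂ] ℂ} {b : Module.Basis (Fin (2 * g)) ℝ (Fin g → ℂ)}

/-- quasi-periodicity of the first derivatives -/
lemma quasi_pd (h : CMQ.IsTheta Θ Λ η) {l : Fin g → ℂ} (hl : l ∈ Λ) :
    ∃ j : (Fin g → ℂ) → ℂ, Continuous j ∧ (∀ z, j z ≠ 0) ∧ ∀ z, Θ 0 (z + l) = j z * Θ 0 z ∧
      ∀ i, pd i (Θ 0) (z + l) = j z * (pd i (Θ 0) z + SHP.qp η l i * Θ 0 z) := by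
  obtain ⟨c, hc⟩ := h.quasi l hl
  let e : (Fin g → ℂ) →L[ℂ] ℂ := LinearMap.toContinuousLinearMap (η l)
  refine ⟨fun z => Complex.exp (e z + c), by fun_prop, fun z => Complex.exp_ne_zero _,
    fun z => ⟨hc 0 z, fun i => ?_⟩⟩
  have h1 : HasFDerivAt (fun w => Θ 0 (w + l)) (fderiv ℂ (Θ 0) (z + l)) z :=
    (hasFDerivAt_comp_add_right l).2 (h.hol 0 (z + l)).differentiableAt.hasFDerivAt
  have h2 := ((e.hasFDerivAt (x := z)).add_const c).cexp.mul
    (h.hol 0 z).differentiableAt.hasFDerivAt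
  have h3 : (fun w => Θ 0 (w + l)) = (fun w => Complex.exp (e w + c)) * Θ 0 :=
    funext fun w => hc 0 w
  rw [h3] at h1
  have h4 := congrArg (fun T : (Fin g → ℂ) →L[ℂ] ℂ => T (Pi.single i 1)) (h1.unique h2)
  simp only [_root_.add_apply, _root_.smul_apply, smul_eq_mul] at h4
  change pd i (Θ 0) (z + l) = _ * pd i (Θ 0) z + _ * (_ * SHP.qp η l i) at h4
  rw [h4]
  ring

lemma mul_mem {v : Fin g → ℂ} {M : ℕ} (h : (M : ℂ) • v ∈ Λ) (K : ℕ) :
    ((K * M : ℕ) : ℂ) • v ∈ Λ := by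
  rw [Nat.cast_mul, mul_smul, Nat.cast_smul_eq_nsmul]
  exact nsmul_mem h K

lemma b_mem (hΛ : Λ = AddSubgroup.closure (Set.range b)) (k : Fin (2 * g)) : b k ∈ Λ :=
  hΛ ▸ AddSubgroup.subset_closure ⟨k, rfl⟩

lemma b_qsp (k : Fin (2 * g)) : b k ∈ qsp b := Submodule.subset_span ⟨k, rfl⟩

/-- a multiple of a torsion point is a lattice point -/
lemma den (hΛ : Λ = AddSubgroup.closure (Set.range b)) {v : Fin g → ℂ} (hv : v ∈ qsp b) :
    ∃ M : ℕ, 0 < M ∧ (M : ℂ) • v ∈ Λ := by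
  induction hv using Submodule.span_induction with
  | mem x hx =>
    obtain ⟨k, rfl⟩ := hx
    exact ⟨1, one_pos, by simpa using b_mem hΛ k⟩
  | zero => exact ⟨1, one_pos, by simp⟩
  | add x y _ _ hx hy =>
    obtain ⟨M, hM, hx⟩ := hx
    obtain ⟨K, hK, hy⟩ := hy
    refine ⟨K * M, Nat.mul_pos hK hM, ?_⟩
    rw [smul_add]
    exact add_mem (mul_mem hx K) (mul_comm K M ▸ mul_mem hy M)
  | smul q x _ hx =>
    obtain ⟨M, hM, hx⟩ := hx
    refine ⟨q.den * M, Nat.mul_pos q.den_pos hM, ?_⟩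
    have e : ((q.den * M : ℕ) : ℂ) • q • x = q.num • (M : ℂ) • x := by
      rw [← Rat.cast_smul_eq_qsmul ℂ, ← Int.cast_smul_eq_zsmul ℂ, smul_smul, smul_smul]
      congr 1
      have : (q : ℂ) * q.den = q.num := by exact_mod_cast Rat.mul_den_eq_num q
      push_cast
      rw [← this]
      ring
    rw [e]
    exact zsmul_mem hx _

/-- the period matrix is invertible -/
lemma per_bij (h : Av Θ Λ η b) :
    (∀ c a : Fin g → ℂ, (∀ k, b k ⬝ᵥ c + SHP.qp η (b k) ⬝ᵥ a = 0) → c = 0 ∧ a = 0) ∧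
    ∀ x : Fin (2 * g) → ℂ, ∃ c a : Fin g → ℂ, ∀ k, x k = b k ⬝ᵥ c + SHP.qp η (b k) ⬝ᵥ a := by
  have hi := SHP.per_indep h.th (b_mem h.lat) b.linearIndependent
  have : Nonempty (Fin (2 * g)) := ⟨⟨0, by have := h.pos; omega⟩⟩
  let β := basisOfLinearIndependentOfCardEqFinrank hi (by simp [two_mul])
  have hβ : ∀ k, β k = (b k, SHP.qp η (b k)) := fun k => by
    simp [β]
  refine ⟨fun c a hk => ?_, fun x => ?_⟩
  · let f : ((Fin g → ℂ) × (Fin g → ℂ)) →ₗ[ℂ] ℂ :=
      { toFun := fun y => y.1 ⬝ᵥ c + y.2 ⬝ᵥ a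
        map_add' := fun y y' => by simp only [Prod.fst_add, Prod.snd_add, add_dotProduct]; ring
        map_smul' := fun r y => by
          simp only [Prod.smul_fst, Prod.smul_snd, smul_dotProduct, smul_eq_mul, RingHom.id_apply]
          ring }
    have hf : f = 0 := β.ext fun k => by rw [hβ]; exact hk k
    refine ⟨funext fun i => ?_, funext fun i => ?_⟩
    · simpa [f] using LinearMap.congr_fun hf (Pi.single i 1, 0)
    · simpa [f] using LinearMap.congr_fun hf (0, Pi.single i 1)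
  · let f := β.constr ℂ x
    refine ⟨fun i => f (Pi.single i 1, 0), fun i => f (0, Pi.single i 1), fun k => ?_⟩
    have h1 := SHP.lin_expand (f.comp (LinearMap.inl ℂ _ _)) (b k)
    have h2 := SHP.lin_expand (f.comp (LinearMap.inr ℂ _ _)) (SHP.qp η (b k))
    simp only [LinearMap.comp_apply, LinearMap.inl_apply, LinearMap.inr_apply] at h1 h2
    rw [← h1, ← h2, ← map_add, Prod.mk_add_mk, add_zero, zero_add, ← hβ]
    simp [f]

lemma an_vm (M : Matrix (Fin g) (Fin g) ℂ) {F : (Fin g → ℂ) → ℂ} (hF : ∀ z, AnalyticAt ℂ F z)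
    (z : Fin g → ℂ) : AnalyticAt ℂ (fun w => F (w ᵥ* M)) z :=
  (hF _).comp ((LinearMap.toContinuousLinearMap M.vecMulLinear).analyticAt z)

lemma an_dot (c z : Fin g → ℂ) : AnalyticAt ℂ (fun w : Fin g → ℂ => w ⬝ᵥ c) z :=
  Finset.analyticAt_fun_sum _ fun i _ =>
    ((ContinuousLinearMap.proj i : (Fin g → ℂ) →L[ℂ] ℂ).analyticAt z).mul analyticAt_const

/-- the numerator of `∑ a l * ζ l + ∑ c l * z l` -/
def nu (Θ : Fin (N + 1) → (Fin g → ℂ) → ℂ) (c a z : Fin g → ℂ) : ℂ :=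
  (fun l => pd l (Θ 0) z) ⬝ᵥ a + z ⬝ᵥ c * Θ 0 z

lemma nu_an (h : CMQ.IsTheta Θ Λ η) (c a z : Fin g → ℂ) : AnalyticAt ℂ (nu Θ c a) z :=
  (Finset.analyticAt_fun_sum _ fun l _ => (TayA.pd_an (h.hol 0 z) l).mul analyticAt_const).add
    ((an_dot c z).mul (h.hol 0 z))

lemma nu_add {j : ℂ} {z l : Fin g → ℂ} (c a : Fin g → ℂ) (h0 : Θ 0 (z + l) = j * Θ 0 z)
    (h1 : ∀ i, pd i (Θ 0) (z + l) = j * (pd i (Θ 0) z + SHP.qp η l i * Θ 0 z)) :
    nu Θ c a (z + l) = j * (nu Θ c a z + (l ⬝ᵥ c + SHP.qp η l ⬝ᵥ a) * Θ 0 z) := by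
  have e : (fun i => pd i (Θ 0) (z + l)) =
      j • ((fun i => pd i (Θ 0) z) + Θ 0 z • SHP.qp η l) := by
    funext i
    simp only [h1, Pi.smul_apply, Pi.add_apply, smul_eq_mul]
    ring
  simp only [nu, e, h0, add_dotProduct, smul_dotProduct, smul_eq_mul]
  ring

/-- the difference of the two sides is a meromorphic function on the torus -/
lemma mf (h : Av Θ Λ η b) (M : Matrix (Fin g) (Fin g) ℂ) (hM : ∀ v ∈ qsp b, v ᵥ* M ∈ qsp b)
    (i : Fin g) (c a : Fin g → ℂ)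
    (hr : ∀ l ∈ Λ, l ᵥ* M ∈ Λ → SHP.qp η (l ᵥ* M) i = l ⬝ᵥ c + SHP.qp η l ⬝ᵥ a) :
    MF (qsp b) (fun z => pd i (Θ 0) (z ᵥ* M) * Θ 0 z - Θ 0 (z ᵥ* M) * nu Θ c a z)
      fun z => Θ 0 (z ᵥ* M) * Θ 0 z where
  holA z := ((an_vm M (fun w => TayA.pd_an (h.th.hol 0 w) i) z).mul (h.th.hol 0 z)).sub
    ((an_vm M (h.th.hol 0) z).mul (nu_an h.th c a z))
  holB z := (an_vm M (h.th.hol 0) z).mul (h.th.hol 0 z)
  aut v hv := by
    obtain ⟨K, hK, h1⟩ := den h.lat hv
    obtain ⟨K', hK', h2⟩ := den h.lat (hM v hv)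
    have h3 := mul_mem h1 K'
    have h4 : (((K' * K : ℕ) : ℂ) • v) ᵥ* M ∈ Λ := by
      rw [smul_vecMul, mul_comm]
      exact mul_mem h2 K
    refine ⟨K' * K, Nat.mul_pos hK' hK, ?_⟩
    generalize ((K' * K : ℕ) : ℂ) • v = l at h3 h4
    obtain ⟨j, jc, j0, hj⟩ := quasi_pd h.th h3
    obtain ⟨j', jc', j0', hj'⟩ := quasi_pd h.th h4
    refine ⟨fun z => j' (z ᵥ* M) * j z, (jc'.comp
      (LinearMap.toContinuousLinearMap M.vecMulLinear).continuous).mul jc,
      fun z => mul_ne_zero (j0' _) (j0 _), fun z => ?_⟩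
    simp only [add_vecMul, (hj' _).1, (hj' _).2, nu_add c a (hj z).1 (hj z).2, (hj z).1,
      hr l h3 h4]
    constructor <;> ring

lemma dd0 {ι : Type} [Fintype ι] [DecidableEq ι] (hD : Drel ι) (δ : Derivation ℚ ℂ ℂ)
    {𝓕 : Set ((ι → ℂ) → ℂ)} (hF : Germs 𝓕) {G : (ι → ℂ) → ℂ} (hG : G ∈ 𝓕) (M : Matrix ι ι ℂ)
    (hM : ∀ i j, Alg (M i j)) : DD δ (fun z => G (z ᵥ* M)) fun _ => 0 := by
  have h := hD.germ δ ι 𝓕 M hF G hG
  have e : M.map δ = 0 := by
    ext i j
    exact TayA.d_kill δ (hM i j)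
  simpa only [e, vecMul_zero, map_zero] using h

lemma dd1 {ι : Type} [Fintype ι] [DecidableEq ι] (hD : Drel ι) (δ : Derivation ℚ ℂ ℂ)
    {𝓕 : Set ((ι → ℂ) → ℂ)} (hF : Germs 𝓕) {G : (ι → ℂ) → ℂ} (hG : G ∈ 𝓕) :
    DD δ G fun _ => 0 := by
  have h := dd0 hD δ hF hG 1 fun i j => by
    rw [Matrix.one_apply]
    split_ifs
    · exact isAlgebraic_one
    · exact isAlgebraic_zero
  simpa only [vecMul_one] using h

/-- rigidity: the derivatives of the coefficients give a relation between the periods -/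
lemma rigid (hA : All AfA) (hB : All AfB) (hD : All Drel) (hG : Thg) (h : Av Θ Λ η b)
    (hR : Ari (qsp b) 1) (M : Matrix (Fin g) (Fin g) ℂ) (hM : ∀ v ∈ qsp b, v ᵥ* M ∈ qsp b)
    (i : Fin g) (c a : Fin g → ℂ)
    (hr : ∀ l ∈ Λ, l ᵥ* M ∈ Λ → SHP.qp η (l ᵥ* M) i = l ⬝ᵥ c + SHP.qp η l ⬝ᵥ a)
    (δ : Derivation ℚ ℂ ℂ) (k : Fin (2 * g)) :
    b k ⬝ᵥ (fun l => δ (c l)) + SHP.qp η (b k) ⬝ᵥ (fun l => δ (a l)) = 0 := by
  obtain ⟨hT, -, 𝓖, hGg, -, hζ⟩ := hG g N Θ Λ η b h
  have hMa : ∀ i j, Alg (M i j) := fun i j => by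
    simpa using (hA (Fin g)).hom (Fin g) _ _ 1 1 M hR hR hM i j
  have hF := (hA (Fin g)).germs _ 1 hT hR
  obtain ⟨-, -, A, B, hC, hI⟩ := hR
  have D := hD (Fin g)
  -- the germs and their derivatives
  let co : Option (Fin g ⊕ Fin g) → ℂ := fun o => o.elim 1 (Sum.elim (fun l => -a l) fun l => -c l)
  let fn : Option (Fin g ⊕ Fin g) → (Fin g → ℂ) → ℂ := fun o =>
    o.elim (fun z => pd i (Θ 0) (z ᵥ* M) / Θ 0 (z ᵥ* M))
      (Sum.elim (fun l z => pd l (Θ 0) z / Θ 0 z) fun l z => z l)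
  have h1 : ∀ o, DD δ (fn o) fun _ => 0 := by
    rintro (_ | l | l)
    · exact dd0 D δ hGg (hζ i) M hMa
    · exact dd1 D δ hGg (hζ l)
    · exact D.coord δ l
  have h2 := D.comb δ _ co fn (fun _ _ => 0) h1
  let H : Option (Fin g) → (Fin g → ℂ) → ℂ := fun o =>
    o.elim (fun z => ∑ k, co k * fn k z) fun k z => A k z / B k z
  let H' : Option (Fin g) → (Fin g → ℂ) → ℂ := fun o =>
    o.elim (fun z => ∑ k, (δ (co k) * fn k z + co k * 0)) fun _ _ => 0
  have h3 : ∀ o, DD δ (H o) (H' o) := by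
    rintro (_ | k)
    · exact h2
    · exact dd1 D δ hF ⟨A k, B k, (hC k).1, (hC k).2, by simp [H]⟩
  let A₁ : Option (Fin g) → (Fin g → ℂ) → ℂ := fun o =>
    o.elim (fun z => pd i (Θ 0) (z ᵥ* M) * Θ 0 z - Θ 0 (z ᵥ* M) * nu Θ c a z) A
  let B₁ : Option (Fin g) → (Fin g → ℂ) → ℂ := fun o => o.elim (fun z => Θ 0 (z ᵥ* M) * Θ 0 z) B
  have h4 : ∀ o, MF (qsp b) (A₁ o) (B₁ o) ∧ B₁ o 0 ≠ 0 := by
    rintro (_ | k)
    · refine ⟨mf h M hM i c a hr, ?_⟩
      simpa [B₁] using h.th.ne0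
    · exact ⟨(hC k).1.toMF, (hC k).2⟩
  have h5 : ∀ᶠ z in 𝓝 (0 : Fin g → ℂ), ∀ o, B₁ o z ≠ 0 :=
    eventually_all.2 fun o => ((h4 o).1.holB 0).continuousAt.eventually_ne (h4 o).2
  have h6 : ∀ᶠ z in 𝓝 (0 : Fin g → ℂ), (fun o => H o z) = (fun o => A₁ o z / B₁ o z) ∧
      H' none z = -nu Θ (fun l => δ (c l)) (fun l => δ (a l)) z / Θ 0 z := by
    filter_upwards [h5] with z hz
    have hz0 := (mul_ne_zero_iff.1 (hz none)).1
    have hz1 := (mul_ne_zero_iff.1 (hz none)).2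
    refine ⟨funext fun o => ?_, ?_⟩
    · rcases o with _ | k
      · simp only [H, A₁, B₁, co, fn, Option.elim, Fintype.sum_option, Fintype.sum_sum_type,
          Sum.elim_inl, Sum.elim_inr, nu, dotProduct, neg_mul, Finset.sum_neg_distrib,
          ← mul_div_assoc, ← Finset.sum_div, mul_comm (a _), mul_comm (c _)]
        field_simp
        ring
      · rfl
    · simp only [H', co, fn, Option.elim, Fintype.sum_option, Fintype.sum_sum_type,
        Sum.elim_inl, Sum.elim_inr, nu, dotProduct, neg_mul, Finset.sum_neg_distrib, map_neg,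
        ← mul_div_assoc, ← Finset.sum_div, mul_zero, add_zero, neg_div,
        Derivation.map_one_eq_zero]
      simp only [mul_comm (δ _)]
      field_simp
      ring
  obtain ⟨P, hP, hP'⟩ := (hB (Fin g)).depC _ A₁ B₁ hT fun o => (h4 o).1
  obtain ⟨P', hP1, hP2⟩ := D.minp H P (fun o => (h3 o).1) hI hP (by
    filter_upwards [h5, h6] with z hz hz'
    rw [hz'.1]
    exact hP' z hz)
  obtain ⟨Q, hQ⟩ := D.rel δ _ H H' P' h3 hP1
  obtain ⟨K, hK, h7⟩ := D.peri (qsp b) _ A₁ B₁ (nu Θ (fun l => δ (c l)) fun l => δ (a l)) (Θ 0)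
    (pderiv none P') Q h4 (nu_an h.th _ _) (h.th.hol 0) h.th.ne0
    (fun hz => hP2 (by
      filter_upwards [hz, h6] with z hz hz'
      rw [hz'.1]
      exact hz))
    (by
      filter_upwards [hQ, h6] with z hz hz'
      rw [← hz'.1]
      rw [Fintype.sum_option, hz'.2] at hz
      simp only [H', Option.elim, mul_zero, Finset.sum_const_zero, add_zero] at hz
      linear_combination -hz)
    (b k) (b_qsp k)
  have h8 := h7 1 0
  rw [mul_one, Nat.cast_smul_eq_nsmul] at h8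
  have hl : K • b k ∈ Λ := nsmul_mem (b_mem h.lat k) K
  obtain ⟨j, -, j0, hj⟩ := quasi_pd h.th hl
  rw [nu_add _ _ (hj 0).1 (hj 0).2, (hj 0).1] at h8
  have e : SHP.qp η (K • b k) = (K : ℂ) • SHP.qp η (b k) := by
    funext l
    have := SHP.eta_zsmul h.th (b_mem h.lat k) K
    rw [natCast_zsmul, natCast_zsmul] at this
    change η (K • b k) _ = K * η (b k) _
    rw [this, LinearMap.smul_apply, nsmul_eq_mul]
  rw [e, ← Nat.cast_smul_eq_nsmul ℂ, smul_dotProduct, smul_dotProduct, smul_eq_mul,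
    smul_eq_mul] at h8
  have hK' : (K : ℂ) ≠ 0 := Nat.cast_ne_zero.2 hK.ne'
  have h9 : j 0 * Θ 0 0 * Θ 0 0 * K * (b k ⬝ᵥ (fun l => δ (c l)) +
      SHP.qp η (b k) ⬝ᵥ fun l => δ (a l)) = 0 := by linear_combination h8
  exact (mul_eq_zero.1 h9).resolve_left
    (mul_ne_zero (mul_ne_zero (mul_ne_zero (j0 0) h.th.ne0) h.th.ne0) hK')

lemma col_mem {ι κ : Type} (X : Matrix ι κ ℂ) (j : κ) {r : ℂ} (hr : Alg r) :
    (fun k => X k j * r) ∈ cols X := by
  have h : (fun k => X k j) ∈ cols X := Submodule.subset_span ⟨j, rfl⟩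
  have h' := (cols X).smul_mem (⟨r, mem_algebraicClosure_iff.2 hr⟩ : Qb) h
  convert h' using 1
  funext k
  exact mul_comm _ _

lemma comb_mem (c a : Fin g → ℂ) (hc : ∀ l, Alg (c l)) (ha : ∀ l, Alg (a l)) :
    (fun k => b k ⬝ᵥ c + SHP.qp η (b k) ⬝ᵥ a) ∈ cols (period η b) := by
  have h := add_mem
    (sum_mem fun l (_ : l ∈ Finset.univ) => col_mem (period η b) (Fin.castAdd g l) (hc l))
    (sum_mem fun l (_ : l ∈ Finset.univ) => col_mem (period η b) (Fin.natAdd g l) (ha l))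
  convert h using 1
  funext k
  simp only [period, dotProduct, SHP.qp, Finset.sum_apply, Pi.add_apply, of_apply,
    Fin.append_left, Fin.append_right]

end EtaA

open EtaA in
theorem eta (hX : DerEx) (hA : All AfA) (hB : All AfB) (hD : All Drel) (hG : Thg) : Eta := by
  intro g N Θ Λ η b h hR t ⟨φ, hφ⟩ x hx
  let M : Matrix (Fin g) (Fin g) ℂ := Matrix.of fun i j => φ (Pi.single i 1) j
  have hM : ∀ v, v ᵥ* M = φ v := fun v => funext fun j =>
    (SHP.lin_expand ((LinearMap.proj j).comp φ) v).symm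
  have hφ' : ∀ k, φ (b k) = ∑ l, t k l • b l := fun k => by
    simp only [hφ, Rat.cast_smul_eq_qsmul]
  have hq : ∀ v ∈ qsp b, v ᵥ* M ∈ qsp b := by
    intro v hv
    rw [hM]
    induction hv using Submodule.span_induction with
    | mem x hx =>
      obtain ⟨k, rfl⟩ := hx
      rw [hφ']
      exact sum_mem fun l _ => Submodule.smul_mem _ _ (b_qsp l)
    | zero => rw [map_zero]; exact zero_mem _
    | add x y _ _ hx hy => rw [map_add]; exact add_mem hx hy
    | smul q x _ hx => rw [map_rat_smul]; exact Submodule.smul_mem _ _ hx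
  induction hx using Submodule.span_induction with
  | zero => rw [mulVec_zero]; exact zero_mem _
  | add x y _ _ hx hy => rw [mulVec_add]; exact add_mem hx hy
  | smul q x _ hx => rw [mulVec_smul]; exact Submodule.smul_mem _ _ hx
  | mem x hx =>
    obtain ⟨j, rfl⟩ := hx
    refine Fin.addCases (fun i => ?_) (fun i => ?_) j
    · have hMa : ∀ l, Alg (M l i) := fun l => by
        simpa using (hA (Fin g)).hom (Fin g) _ _ 1 1 M hR hR hq l i
      have := comb_mem (η := η) (b := b) (fun l => M l i) 0 hMa fun _ => isAlgebraic_zero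
      convert this using 1
      funext k
      have e := congrFun ((hM (b k)).trans (hφ k)) i
      simp only [Finset.sum_apply, Pi.smul_apply, smul_eq_mul] at e
      simp only [dotProduct_zero, add_zero]
      refine Eq.trans ?_ e.symm
      simp [mulVec, dotProduct, cM, period]
    · obtain ⟨u, L, hW⟩ := CMQ.wt g N Θ Λ η h.th
      obtain ⟨c, a, hk⟩ := (per_bij h).2 fun k => L (φ (b k)) (Pi.single i 1)
      have hr : ∀ l ∈ Λ, L (φ l) (Pi.single i 1) = l ⬝ᵥ c + SHP.qp η l ⬝ᵥ a := by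
        intro l hl
        have e : ∀ l ∈ Λ, SHP.qp η l = fun j => L l (Pi.single j 1) := fun l hl => by
          rw [hW.ext l hl]; rfl
        rw [e l hl]
        rw [h.lat] at hl
        induction hl using AddSubgroup.closure_induction with
        | mem x hx =>
          obtain ⟨k, rfl⟩ := hx
          rw [hk, e _ (b_mem h.lat k)]
        | zero => simp
        | add x y _ _ hx hy =>
          simp only [map_add, LinearMap.add_apply, hx, hy, dotProduct, Pi.add_apply, add_mul,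
            Finset.sum_add_distrib]
          ring
        | neg x _ hx =>
          simp only [map_neg, LinearMap.neg_apply, hx, dotProduct, Pi.neg_apply, neg_mul,
            Finset.sum_neg_distrib]
          ring
      have hz := fun δ => (per_bij h).1 _ _ (rigid hA hB hD hG h hR M hq i c a (fun l hl hl' => by
        rw [← hr l hl, ← hM, hW.ext _ hl']; rfl) δ)
      have := comb_mem (η := η) (b := b) c a (fun l => hX _ fun δ => congrFun (hz δ).1 l)
        fun l => hX _ fun δ => congrFun (hz δ).2 l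
      convert this using 1
      funext k
      rw [← hk, hφ']
      simp only [map_sum, map_rat_smul, LinearMap.sum_apply, LinearMap.smul_apply,
        hW.ext _ (b_mem h.lat _)]
      simp only [mulVec, dotProduct, cM, period, Rat.smul_def, of_apply, Fin.append_right,
        map_apply]

end

end Pool.Agent.GAM

end MrgPart7

-- marker of a merged file
example : 731051 + 512750 = 731051 + 512750 := rfl
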