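import Pool.Agent.MP_cbf1af_ag.gam.Spec
import Pool.Agent.MP_cbf1af_ag.gam.ADefs
import Mathlib.Data.Int.Star
import Mathlib.LinearAlgebra.Eigenspace.Zero
import Mathlib.Algebra.MvPolynomial.Funext
import Mathlib.RingTheory.Finiteness.ModuleFinitePresentation
import Mathlib.RingTheory.Etale.Weakly
import Pool.Agent.MP_cbf1af_ag.shp.Ops
import Mathlib.RingTheory.Flat.FaithfullyFlat.Algebra
import Mathlib.Data.Rat.Star
import Mathlib.RingTheory.Flat.FaithfullyFlat.Basic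
import Mathlib.RingTheory.Flat.TorsionFree
import Mathlib.RingTheory.SimpleRing.Principal

-- ======== part 0: formerly Pool.Agent.MP_cbf1af_ag.gam.ASpec
section MrgPart0

/-! PROJECT GAM, stage 2: all CM abelian varieties.  Proofs on paper:
/team-store/GAM_BLUEPRINT2.md -/

namespace Pool.Agent.GAM

open Matrix Complex Filter Topology MvPolynomial
open Pool.Agent.CMP (Qb)
open Pool.Agent.MTG

noncomputable section

/-- `h'` is the derivative of the germ `h` along `δ` -/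
def DD {ι : Type} [Fintype ι] (δ : Derivation ℚ ℂ ℂ) (h h' : (ι → ℂ) → ℂ) : Prop :=
  AnalyticAt ℂ h 0 ∧ AnalyticAt ℂ h' 0 ∧ ∀ v : ι → ℂ, (∀ i, Alg (v i)) →
    dl δ (tay fun x => h (x • v)) = tay fun x => h' (x • v)

/-- the rational span of the lattice -/
def qsp {g n : ℕ} (b : Fin n → Fin g → ℂ) : Set (Fin g → ℂ) := Submodule.span ℚ (Set.range b)

/-- the algebraic span of the columns -/
def cols {ι κ : Type} (x : Matrix ι κ ℂ) : Submodule Qb (ι → ℂ) :=
  Submodule.span Qb (Set.range fun j i => x i j)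

/-- an abelian variety with a basis of its lattice -/
structure Av {g N : ℕ} (Θ : Fin (N + 1) → (Fin g → ℂ) → ℂ) (Λ : AddSubgroup (Fin g → ℂ))
    (η : (Fin g → ℂ) → (Fin g → ℂ) →ₗ[ℂ] ℂ) (b : Module.Basis (Fin (2 * g)) ℝ (Fin g → ℂ)) :
    Prop where
  th : CMQ.IsTheta Θ Λ η
  lat : Λ = AddSubgroup.closure (Set.range b)
  pos : 0 < g

/-- `x` acts on the eigenvectors as `h(z)` -/
def Eig {L κ 𝒥 : Type} [Field L] [NumberField L] [Fintype κ] (w : 𝒥 → κ → L)
    (p : 𝒥 → Emb L → ℕ) (z : ℂ) (x : Matrix κ κ ℂ) : Prop :=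
  ∀ j (σ : Emb L), x *ᵥ (fun k => σ (w j k)) =
    (z ^ p j σ * (starRingEnd ℂ) z ^ p j (cj σ)) • fun k => σ (w j k)

/-- a Hodge structure of weight `n` with complex multiplication split by `L` -/
structure Cmh {L κ 𝒥 : Type} [Field L] [NumberField L] [Fintype κ] (w : 𝒥 → κ → L)
    (p : 𝒥 → Emb L → ℕ) (n : ℕ) (H : Set (Matrix κ κ ℂ)) : Prop where
  ne : ∀ j, w j ≠ 0
  span : Submodule.span L (Set.range w) = ⊤
  wt : ∀ j σ, p j σ + p j (cj σ) = n
  eig : ∀ x ∈ H, ∃ z, z ≠ 0 ∧ Eig w p z x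
  ex : ∀ z, z ≠ 0 → ∃ x ∈ H, Eig w p z x

/-- the real points of the Deligne torus on `H^1` -/
def hd1 {g n : ℕ} (b : Fin n → Fin g → ℂ) : Set (Matrix (Fin n) (Fin n) ℂ) :=
  {y | ∃ x, IsHodge b x ∧ y = x.map fun r => (r : ℂ)}

/-- orientation: the forms with `p j σ = 1` are complex linear -/
def Lin {L 𝒥 : Type} [Field L] [NumberField L] {g n : ℕ} (b : Fin n → Fin g → ℂ)
    (w : 𝒥 → Fin n → L) (p : 𝒥 → Emb L → ℕ) : Prop :=
  ∀ j (σ : Emb L), p j σ = 1 → ∃ f : (Fin g → ℂ) →ₗ[ℂ] ℂ, ∀ k, f (b k) = σ (w j k)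

/-- the CM type of an eigenvector -/
def typ {L : Type} [Field L] [NumberField L] (q : Emb L → ℕ) : Finset (Emb L) :=
  Finset.univ.filter fun σ => q σ = 1

/-- the characters of the Mumford-Tate torus -/
def chars {L 𝒥 : Type} [Field L] [NumberField L] (p : 𝒥 → Emb L → ℕ) :
    Submodule ℚ (Emb L → ℚ) :=
  Submodule.span ℚ (Set.range fun a : 𝒥 × (L ≃ₐ[ℚ] L) =>
    fun τ : Emb L => (p a.1 (τ.comp (a.2 : L →+* L)) : ℚ))

/-- the span of the eigenvectors times their periods -/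
def evs {L κ 𝒥 : Type} [Field L] [NumberField L] (w : 𝒥 → κ → L) (P : 𝒥 → Emb L → ℂ) :
    Submodule Qb (κ → ℂ) :=
  Submodule.span Qb (Set.range fun a : 𝒥 × Emb L => fun k => P a.1 a.2 * a.2 (w a.1 k))

/-- DREL: differentiating relations along a derivation (from TAY, AFA) -/
structure Drel (ι : Type) [Fintype ι] [DecidableEq ι] : Prop where
  germ : ∀ (δ : Derivation ℚ ℂ ℂ) (κ : Type) [Fintype κ] [DecidableEq κ]
    (𝓕 : Set ((κ → ℂ) → ℂ)) (M : Matrix ι κ ℂ), Germs 𝓕 → ∀ G ∈ 𝓕,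
    DD δ (fun z => G (z ᵥ* M)) fun z => fderiv ℂ G (z ᵥ* M) (z ᵥ* M.map δ)
  comb : ∀ (δ : Derivation ℚ ℂ ℂ) (κ : Type) [Fintype κ] (a : κ → ℂ)
    (h h' : κ → (ι → ℂ) → ℂ), (∀ k, DD δ (h k) (h' k)) →
    DD δ (fun z => ∑ k, a k * h k z) fun z => ∑ k, (δ (a k) * h k z + a k * h' k z)
  coord : ∀ (δ : Derivation ℚ ℂ ℂ) (i : ι), DD δ (fun z => z i) fun _ => 0
  rel : ∀ (δ : Derivation ℚ ℂ ℂ) (κ : Type) [Fintype κ] (h h' : κ → (ι → ℂ) → ℂ)
    (P : MvPolynomial κ ℂ), (∀ k, DD δ (h k) (h' k)) →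
    (∀ᶠ z in 𝓝 (0 : ι → ℂ), eval (fun k => h k z) P = 0) → ∃ Q : MvPolynomial κ ℂ,
      ∀ᶠ z in 𝓝 (0 : ι → ℂ), eval (fun k => h k z) Q +
        ∑ k, eval (fun k => h k z) (pderiv k P) * h' k z = 0
  minp : ∀ (h : Option ι → (ι → ℂ) → ℂ) (P : MvPolynomial (Option ι) ℂ),
    (∀ o, AnalyticAt ℂ (h o) 0) → Function.Injective (fderiv ℂ (fun z k => h (some k) z) 0) →
    P ≠ 0 → (∀ᶠ z in 𝓝 (0 : ι → ℂ), eval (fun o => h o z) P = 0) →
    ∃ P' : MvPolynomial (Option ι) ℂ, (∀ᶠ z in 𝓝 (0 : ι → ℂ), eval (fun o => h o z) P' = 0) ∧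
      ¬∀ᶠ z in 𝓝 (0 : ι → ℂ), eval (fun o => h o z) (pderiv none P') = 0
  peri : ∀ (V : Set (ι → ℂ)) (κ : Type) [Fintype κ] (A B : κ → (ι → ℂ) → ℂ)
    (A' B' : (ι → ℂ) → ℂ) (P Q : MvPolynomial κ ℂ), (∀ k, MF V (A k) (B k) ∧ B k 0 ≠ 0) →
    (∀ z, AnalyticAt ℂ A' z) → (∀ z, AnalyticAt ℂ B' z) → B' 0 ≠ 0 →
    (¬∀ᶠ z in 𝓝 (0 : ι → ℂ), eval (fun k => A k z / B k z) P = 0) →
    (∀ᶠ z in 𝓝 (0 : ι → ℂ),
      eval (fun k => A k z / B k z) P * (A' z / B' z) = eval (fun k => A k z / B k z) Q) →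
    ∀ v ∈ V, ∃ M : ℕ, 0 < M ∧ ∀ (m : ℕ) z,
      A' (z + ((M * m : ℕ) : ℂ) • v) * B' z = A' z * B' (z + ((M * m : ℕ) : ℂ) • v)

/-- THG: the germs of a theta model (from `CMQ.DerStmt`) -/
def Thg : Prop :=
  ∀ g N Θ Λ η b, @Av g N Θ Λ η b → IsTor (qsp b) ∧ (∀ i j, MF (qsp b) (Θ i) (Θ j)) ∧
    ∃ 𝓖, Germs 𝓖 ∧ (∀ i, (fun z => Θ i z / Θ 0 z) ∈ 𝓖) ∧ ∀ i, (fun z => pd i (Θ 0) z / Θ 0 z) ∈ 𝓖

/-- CMT: an endomorphism with distinct eigenvalues -/
def Cmt : Prop :=
  ∀ (g n : ℕ) (b : Fin n → Fin g → ℂ), IsCM b → ∃ t, IsEnd b t ∧ t.charpoly.Separable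

/-- CMJ: the conjugates of the complex structure (from CMT, `CMQ.WtStmt`) -/
def Cmj : Prop :=
  ∀ g N Θ Λ η b, @Av g N Θ Λ η b → IsCM b →
    ∃ A : Matrix (Fin (2 * g)) (Fin (2 * g)) Qb,
      (∀ k, I • b k = ∑ l, (I * (A k l : ℂ)).re • b l) ∧
      (∀ (δ : Qb →ₐ[ℚ] ℂ) k l, (δ (A k l)).re = 0) ∧
      ∀ δ δ' : Qb →ₐ[ℚ] ℂ, A.map δ * A.map δ' = A.map δ' * A.map δ

/-- CMD: the splitting field (from CMJ) -/
def Cmd : Prop :=
  ∀ g N Θ Λ η b, @Av g N Θ Λ η b → IsCM b →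
    ∃ (L : Type) (_ : Field L) (_ : NumberField L) (c : L →+* L) (𝒥 : Type) (_ : Fintype 𝒥)
      (w : 𝒥 → Fin (2 * g) → L) (p : 𝒥 → Emb L → ℕ), CMF c ∧ IsGalois ℚ L ∧
      6 ≤ Module.finrank ℚ L ∧ Cmh w p 1 (hd1 b) ∧ Lin b w p

/-- ARI0: some algebraic coordinates (from AFA, AFB, CMA, EXIST) -/
def Ari0 : Prop :=
  ∀ (g : ℕ) (b : Module.Basis (Fin (2 * g)) ℝ (Fin g → ℂ)) (L : Type) [Field L] [NumberField L]
    (c : L →+* L) (𝒥 : Type) [Fintype 𝒥] (w : 𝒥 → Fin (2 * g) → L) (p : 𝒥 → Emb L → ℕ),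
    CMF c → IsGalois ℚ L → Cmh w p 1 (hd1 b) → Lin b w p →
    (∀ j, IsType (typ (p j)) ∧ ∃ N : Matrix (Fin g) (typ (p j)) ℂ,
      ∀ k, b k ᵥ* N = pt (typ (p j)) (w j k)) ∧
    ∃ M : Matrix (Fin g) (Fin g) ℂ, IsUnit M.det ∧ Ari ((fun v => v ᵥ* M) '' qsp b) 1

/-- ARI1: the standard coordinates are algebraic (from DEREX, AFA, AFB, DREL, THG) -/
def Ari1 : Prop :=
  ∀ g N Θ Λ η b, @Av g N Θ Λ η b → ∀ M : Matrix (Fin g) (Fin g) ℂ, IsUnit M.det →
    Ari ((fun v => v ᵥ* M) '' qsp b) 1 → Ari (qsp b) 1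

/-- ETA: endomorphisms act on the algebraic de Rham cohomology
(from DEREX, AFA, AFB, DREL, THG) -/
def Eta : Prop :=
  ∀ g N Θ Λ η b, @Av g N Θ Λ η b → Ari (qsp b) 1 → ∀ t, IsEnd b t →
    ∀ x ∈ cols (period η b), cM t *ᵥ x ∈ cols (period η b)

/-- HDR: the de Rham structure is spanned by the eigenvectors times the periods of their types
(from AFA, CMA, TRANS, CMT, ARI0, ARI1, ETA, `CMQ.WtStmt`) -/
def Hdr : Prop :=
  ∀ g N Θ Λ η b, @Av g N Θ Λ η b → IsCM b → ∀ (L : Type) [Field L] [NumberField L]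
    (c : L →+* L) (𝒥 : Type) [Fintype 𝒥] (w : 𝒥 → Fin (2 * g) → L) (p : 𝒥 → Emb L → ℕ)
    (P : 𝒥 → Emb L → ℂ), CMF c → IsGalois ℚ L → Cmh w p 1 (hd1 b) → Lin b w p →
    (∀ j, Per (typ (p j)) (P j)) → cols (period η b) = evs w P

/-- WEDGE: exterior powers -/
def Wedge : Prop :=
  ∀ (n m r : ℕ) (L : Type) [Field L] [NumberField L] (𝒥 : Type) [Fintype 𝒥]
    (w : 𝒥 → Fin n → L) (p : 𝒥 → Emb L → ℕ) (P : 𝒥 → Emb L → ℂ)
    (H : Set (Matrix (Fin n) (Fin n) ℂ)) (X : Matrix (Fin n) (Fin m) ℂ), Cmh w p 1 H →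
    cols X = evs w P → (∀ j σ, P j σ ≠ 0) → m ≤ n → r ≤ n →
    ∃ (𝒥' : Type) (_ : Fintype 𝒥') (a : 𝒥' → Fin r → 𝒥) (w' : 𝒥' → Sub n r → L), Nonempty 𝒥' ∧
      Cmh w' (fun j σ => ∑ i, p (a j i) σ) r (minors r '' H) ∧
      cols (minors r X) = evs w' fun j σ => ∏ i, P (a j i) σ

/-- MTD: the dimension of the Mumford-Tate group -/
def Mtd : Prop :=
  ∀ (L κ 𝒥 : Type) [Field L] [NumberField L] [Fintype κ] [DecidableEq κ] [Fintype 𝒥]
    (w : 𝒥 → κ → L) (p : 𝒥 → Emb L → ℕ) (n : ℕ) (H : Set (Matrix κ κ ℂ)), IsGalois ℚ L →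
    Cmh w p n H → dim (hull {y : GL κ ℂ | (y : Matrix κ κ ℂ) ∈ H}) = Module.finrank ℚ (chars p)

/-- RAT: the field of quotients of periods (from CMA, TRD) -/
def Rat : Prop :=
  ∀ (L κ κ' 𝒥 : Type) [Field L] [NumberField L] [Fintype κ] [Fintype κ'] [Fintype 𝒥]
    (c : L →+* L) (σ₀ : Emb L) (u : Emb L → ℂ) (w : 𝒥 → κ → L) (p : 𝒥 → Emb L → ℕ) (n : ℕ)
    (P : 𝒥 → Emb L → ℂ) (X : Matrix κ κ' ℂ), CMF c → IsGalois ℚ L → 0 < n → Nonempty 𝒥 →
    (∀ τ, u τ * u (cj τ) = 1) →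
    (∀ Ψ : Finset (Emb L), IsType Ψ → AlgebraicIndependent ℚ fun τ : Ψ => u τ) →
    (∀ j, w j ≠ 0) → (∀ j σ, p j σ + p j (cj σ) = n) → (∀ j σ, P j σ ≠ 0) →
    (∀ j (γ : L ≃ₐ[ℚ] L), Alg (P j (σ₀.comp (γ : L →+* L)) ^ 2 /
      ((2 * Real.pi * I) ^ n * ∏ τ, u τ ^ p j (τ.comp (γ : L →+* L))))) →
    cols X = evs w P →
    Algebra.trdeg ℚ (quotField X) + 1 = Module.finrank ℚ (chars p) ∧
      Algebra.trdeg ℚ (quotField X) ≤ Algebra.trdeg ℚ (entryField X) ∧
      Algebra.trdeg ℚ (entryField X) ≤ Algebra.trdeg ℚ (quotField X) + 1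

/-- the final statement -/
def CmFinal : Prop :=
  ∀ (g N : ℕ) (Θ : Fin (N + 1) → (Fin g → ℂ) → ℂ) (Λ : AddSubgroup (Fin g → ℂ))
    (η : (Fin g → ℂ) → (Fin g → ℂ) →ₗ[ℂ] ℂ) (b : Module.Basis (Fin (2 * g)) ℝ (Fin g → ℂ)),
    CMQ.IsTheta Θ Λ η → Λ = AddSubgroup.closure (Set.range b) → IsCM b →
    ∀ j : ℕ, 1 ≤ j → j ≤ 2 * g →
      Algebra.trdeg ℚ (quotField (minors j (period η b))) + 1 = dim (MT b j) ∧
      Algebra.trdeg ℚ (entryField (minors j (period η b))) ≤ dim (MT b j) ∧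
      dim (MT b j) ≤ Algebra.trdeg ℚ (entryField (minors j (period η b))) + 1

end

end Pool.Agent.GAM

end MrgPart0

-- ======== part 1: formerly Pool.Agent.MP_cbf1af_ag.gam.Mtd
section MrgPart1

-- ======== part 0: formerly Pool.Agent.MP_cbf1af_ag.gam.Hdr
section MrgPart0

/-! PROJECT GAM, row HDR: the de Rham structure of a CM abelian variety. -/

namespace Pool.Agent.GAM

open Matrix Complex Polynomial
open Pool.Agent.CMP (Qb)
open Pool.Agent.MTG

noncomputable section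

namespace HdrH

theorem alg_iff {x : ℂ} : x ∈ Qb ↔ Alg x := mem_algebraicClosure_iff

theorem qb_smul {ι : Type} (a : Qb) (x : ι → ℂ) : a • x = (a : ℂ) • x := rfl

section Lin

theorem cM_eq {ι κ : Type} (t : Matrix ι κ ℚ) : cM t = t.map (algebraMap ℚ ℂ) := by
  ext i j
  simp [cM]

variable {ι κ : Type} [Fintype ι] [Fintype κ]

omit [Fintype ι] in
theorem mem_cols {X : Matrix ι κ ℂ} {x : ι → ℂ} :
    x ∈ cols X ↔ ∃ a : κ → Qb, x = X *ᵥ fun j => (a j : ℂ) := by
  rw [cols, Submodule.mem_span_range_iff_exists_fun]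
  refine exists_congr fun a => ?_
  have : ∑ j, a j • (fun i => X i j) = X *ᵥ fun j => (a j : ℂ) := by
    funext i
    simp only [Finset.sum_apply, qb_smul, Pi.smul_apply, smul_eq_mul, mulVec, dotProduct]
    exact Finset.sum_congr rfl fun j _ => mul_comm _ _
  rw [this, eq_comm]

omit [Fintype ι] in
theorem mulVec_mem_cols {X : Matrix ι κ ℂ} {a : κ → ℂ} (h : ∀ j, Alg (a j)) : X *ᵥ a ∈ cols X :=
  mem_cols.2 ⟨fun j => ⟨a j, alg_iff.2 (h j)⟩, rfl⟩

omit [Fintype ι] in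
/-- complex spans and algebraic spans inside an algebraic form -/
theorem desc {X : Matrix ι κ ℂ} (hX : Function.Injective X.mulVec) {α : Type} [Fintype α]
    {e : α → ι → ℂ} (he : ∀ a, e a ∈ cols X) {x : ι → ℂ} (hx : x ∈ cols X)
    (h : x ∈ Submodule.span ℂ (Set.range e)) : x ∈ Submodule.span Qb (Set.range e) := by
  obtain ⟨ρ, hρ⟩ := (Algebra.linearMap Qb ℂ).exists_leftInverse_of_injective
    (LinearMap.ker_eq_bot.2 (algebraMap Qb ℂ).injective)
  have hρ' : ∀ (q : Qb) (c : ℂ), ρ (c * q) = ρ c * q := fun q c => by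
    rw [mul_comm c, mul_comm (ρ c)]
    exact ρ.map_smul q c
  have hρ1 : ∀ q : Qb, ρ q = q := fun q => LinearMap.congr_fun hρ q
  choose β hβ using fun a => mem_cols.1 (he a)
  obtain ⟨a₀, rfl⟩ := mem_cols.1 hx
  obtain ⟨c, hc⟩ := (Submodule.mem_span_range_iff_exists_fun ℂ).1 h
  have key : ∀ c : α → ℂ, ∑ a, c a • e a = X *ᵥ fun j => ∑ a, c a * β a j := fun c => by
    simp only [hβ, ← mulVec_smul, ← mulVec_sum]
    congr 1
    funext j
    simp
  refine (Submodule.mem_span_range_iff_exists_fun Qb).2 ⟨fun a => ρ (c a), ?_⟩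
  simp only [qb_smul]
  rw [key]
  congr 1
  funext j
  have h1 := congrArg ρ (congrFun (hX ((key c).symm.trans hc)) j)
  rw [map_sum, hρ1] at h1
  simp only [hρ'] at h1
  rw [← h1]
  push_cast
  rfl

variable [DecidableEq ι]

theorem eig_one {T : Matrix ι ι ℂ} (hT : T.charpoly.Separable) {l : ℂ} {y y' : ι → ℂ}
    (hy : T *ᵥ y = l • y) (hy' : T *ᵥ y' = l • y') (h0 : y ≠ 0) : ∃ c : ℂ, y' = c • y := by
  have h1 := (LinearMap.finrank_eigenspace_le (toLin' T) l).trans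
    (rootMultiplicity_le_one_of_separable (by rwa [charpoly_toLin']) l)
  obtain ⟨v, hv⟩ := finrank_le_one_iff.1 h1
  obtain ⟨c, hc⟩ := hv ⟨y, Module.End.mem_eigenspace_iff.2 hy⟩
  obtain ⟨c', hc'⟩ := hv ⟨y', Module.End.mem_eigenspace_iff.2 hy'⟩
  have e1 : c • (v : ι → ℂ) = y := congrArg Subtype.val hc
  have e2 : c' • (v : ι → ℂ) = y' := congrArg Subtype.val hc'
  have c0 : c ≠ 0 := fun h => h0 (by rw [← e1, h, zero_smul])
  exact ⟨c' / c, by rw [← e1, ← e2, smul_smul, div_mul_cancel₀ _ c0]⟩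

theorem aeval_eig {T : Matrix ι ι ℂ} {l : ℂ} {y : ι → ℂ} (hy : T *ᵥ y = l • y) (q : ℂ[X]) :
    aeval T q *ᵥ y = q.eval l • y := by
  induction q using Polynomial.induction_on with
  | C a => simp [Algebra.algebraMap_eq_smul_one, smul_mulVec]
  | add p q hp hq => rw [map_add, add_mulVec, hp, hq, eval_add, add_smul]
  | monomial n a h =>
    rw [pow_succ, ← mul_assoc, map_mul, aeval_X, ← mulVec_mulVec, hy, mulVec_smul, h, smul_smul,
      eval_mul (q := X), eval_X, mul_comm]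

theorem aeval_lin (T : Matrix ι ι ℂ) (l : ℂ) (y : ι → ℂ) :
    aeval T (X - C l) *ᵥ y = T *ᵥ y - l • y := by
  simp [Algebra.algebraMap_eq_smul_one, sub_mulVec, smul_mulVec]

theorem decomp_aux {T : Matrix ι ι ℂ} {S R : Submodule Qb (ι → ℂ)} (hS : ∀ x ∈ S, T *ᵥ x ∈ S)
    (hR : ∀ l : ℂ, ∀ y ∈ S, T *ᵥ y = l • y → y ∈ R) (s : Finset ℂ) (hs : ∀ l ∈ s, Alg l) :
    ∀ x ∈ S, aeval T (∏ l ∈ s, (X - C l)) *ᵥ x ∈ S ∧
      (aeval T (∏ l ∈ s, (X - C l)) *ᵥ x = 0 → x ∈ R) := by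
  classical
  induction s using Finset.induction_on with
  | empty =>
    intro x hx
    simp only [Finset.prod_empty, map_one, one_mulVec]
    exact ⟨hx, fun h => h ▸ R.zero_mem⟩
  | insert l s hl ih =>
    intro x hx
    have ih := ih fun m hm => hs m (Finset.mem_insert_of_mem hm)
    have al := alg_iff.2 (hs l (Finset.mem_insert_self _ _))
    rw [Finset.prod_insert hl, map_mul, ← mulVec_mulVec, aeval_lin]
    set y := aeval T (∏ l ∈ s, (X - C l)) *ᵥ x with hy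
    have yS : y ∈ S := (ih x hx).1
    refine ⟨S.sub_mem (hS y yS) (S.smul_mem (⟨l, al⟩ : Qb) yS), fun h => ?_⟩
    have h1 : T *ᵥ y = l • y := sub_eq_zero.1 h
    have c0 : ∏ m ∈ s, (l - m) ≠ 0 :=
      Finset.prod_ne_zero_iff.2 fun m hm => sub_ne_zero.2 fun e => hl (e ▸ hm)
    have ca : (∏ m ∈ s, (l - m))⁻¹ ∈ Qb := inv_mem (prod_mem fun m hm =>
      sub_mem al (alg_iff.2 (hs m (Finset.mem_insert_of_mem hm))))
    have h2 := (ih _ (S.sub_mem hx (S.smul_mem (⟨_, ca⟩ : Qb) yS))).2 (by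
      rw [mulVec_sub, qb_smul, mulVec_smul, aeval_eig h1, eval_prod]
      simp only [eval_sub, eval_X, eval_C]
      rw [smul_smul, inv_mul_cancel₀ c0, one_smul, sub_self])
    simpa using R.add_mem h2 (R.smul_mem (⟨_, ca⟩ : Qb) (hR l y yS h1))

theorem decomp {t : Matrix ι ι ℚ} (ht : t.charpoly.Separable) {S R : Submodule Qb (ι → ℂ)}
    (hS : ∀ x ∈ S, cM t *ᵥ x ∈ S) {J : Matrix ι ι ℂ} (hJ : J * J = -1)
    (hc : cM t * J = J * cM t)
    (hR : ∀ y ∈ S, J *ᵥ y = I • y ∨ J *ᵥ y = -I • y → y ∈ R) : S ≤ R := by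
  classical
  have e : (cM t).charpoly = t.charpoly.map (algebraMap ℚ ℂ) := by
    rw [cM_eq, charpoly_map]
  have hs : (cM t).charpoly.Separable := by rw [e]; exact ht.map
  intro x hx
  refine (decomp_aux hS (fun l y hy h => ?_) (cM t).charpoly.roots.toFinset (fun l hl => ?_)
    x hx).2 ?_
  · by_cases h0 : y = 0
    · exact h0 ▸ R.zero_mem
    obtain ⟨c, hc'⟩ := eig_one hs h (y' := J *ᵥ y)
      (by rw [mulVec_mulVec, hc, ← mulVec_mulVec, h, mulVec_smul]) h0
    have h1 : (c * c + 1) • y = 0 := by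
      rw [add_smul, ← smul_smul, ← hc', ← mulVec_smul, ← hc', mulVec_mulVec, hJ, neg_mulVec]
      simp
    have h2 : (c - I) * (c + I) = 0 := by
      rw [← (smul_eq_zero.1 h1).resolve_right h0]
      linear_combination (-1 : ℂ) * I_mul_I
    refine hR y hy ((mul_eq_zero.1 h2).imp (fun h => ?_) fun h => ?_)
    · rw [hc', sub_eq_zero.1 h]
    · rw [hc', eq_neg_of_add_eq_zero_left h]
  · rw [Multiset.mem_toFinset, e, mem_roots_map_of_injective (algebraMap ℚ ℂ).injective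
      t.charpoly_monic.ne_zero] at hl
    exact ⟨t.charpoly, t.charpoly_monic.ne_zero, hl⟩
  · rw [Finset.prod_eq_multiset_prod, Multiset.toFinset_val,
      Multiset.dedup_eq_self.2 (nodup_roots hs),
      ← (IsAlgClosed.splits _).eq_prod_roots_of_monic (cM t).charpoly_monic, aeval_self_charpoly,
      zero_mulVec]

omit [DecidableEq ι] in
theorem orth {J F : Matrix ι ι ℂ} (h : Jᵀ * F * J = F) {x y : ι → ℂ} {c : ℂ} (hc : c * c = -1)
    (hx : J *ᵥ x = c • x) (hy : J *ᵥ y = c • y) : x ⬝ᵥ F *ᵥ y = 0 := by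
  have h1 : x ⬝ᵥ F *ᵥ y = (J *ᵥ x) ⬝ᵥ F *ᵥ (J *ᵥ y) := by
    conv_lhs => rw [← h, ← mulVec_mulVec, ← mulVec_mulVec, dotProduct_mulVec, vecMul_transpose]
  rw [hx, hy, mulVec_smul, smul_dotProduct, dotProduct_smul, smul_smul, hc] at h1
  simp only [smul_eq_mul] at h1
  linear_combination h1 / 2

end Lin

section Cx

variable {g n : ℕ} (b : Module.Basis (Fin n) ℝ (Fin g → ℂ))

/-- the matrix of the complex structure -/
def Jm : Matrix (Fin n) (Fin n) ℂ := Matrix.of fun k l => (b.repr (I • b k) l : ℝ)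

theorem Jm_real (f : (Fin g → ℂ) →ₗ[ℝ] ℂ) :
    Jm b *ᵥ (fun k => f (b k)) = fun k => f (I • b k) := by
  funext k
  conv_rhs => rw [← b.sum_repr (I • b k), map_sum]
  simp [Jm, mulVec, dotProduct]

theorem exists_form (x : Fin n → ℂ) : ∃ f : (Fin g → ℂ) →ₗ[ℝ] ℂ, x = fun k => f (b k) :=
  ⟨b.constr ℝ x, funext fun k => (b.constr_basis ℝ x k).symm⟩

theorem Jm_lin (f : (Fin g → ℂ) →ₗ[ℂ] ℂ) :
    Jm b *ᵥ (fun k => f (b k)) = I • fun k => f (b k) := by
  refine (Jm_real b (f.restrictScalars ℝ)).trans (funext fun k => ?_)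
  simp

theorem Jm_sq : Jm b * Jm b = -1 := by
  refine Matrix.ext_of_mulVec_single fun i => ?_
  obtain ⟨f, hf⟩ := exists_form b (Pi.single i 1)
  have h := Jm_real b (f ∘ₗ (LinearMap.lsmul ℂ _ I).restrictScalars ℝ)
  rw [hf, ← mulVec_mulVec, Jm_real, neg_mulVec, one_mulVec]
  refine h.trans (funext fun k => ?_)
  simp [smul_smul]

theorem Jm_comm {t : Matrix (Fin n) (Fin n) ℚ} (ht : IsEnd b t) : cM t * Jm b = Jm b * cM t := by
  obtain ⟨φ, hφ⟩ := ht
  have key : ∀ f : (Fin g → ℂ) →ₗ[ℝ] ℂ, cM t *ᵥ (fun k => f (b k)) = fun k => f (φ (b k)) := by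
    intro f
    funext k
    have : ∀ l, (t k l : ℂ) • b l = ((t k l : ℝ)) • b l := fun l => by
      rw [← Complex.coe_smul]; simp
    simp [hφ, this, cM, mulVec, dotProduct]
  refine Matrix.ext_of_mulVec_single fun i => ?_
  obtain ⟨f, hf⟩ := exists_form b (Pi.single i 1)
  have h1 := key (f ∘ₗ (LinearMap.lsmul ℂ _ I).restrictScalars ℝ)
  have h2 := Jm_real b (f ∘ₗ φ.restrictScalars ℝ)
  rw [hf, ← mulVec_mulVec, ← mulVec_mulVec, Jm_real, key]
  refine h1.trans (Eq.trans (funext fun k => ?_) h2.symm)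
  simp

theorem Jm_conj {x : Fin n → ℂ} (h : Jm b *ᵥ x = I • x) :
    Jm b *ᵥ (fun k => (starRingEnd ℂ) (x k)) = -I • fun k => (starRingEnd ℂ) (x k) := by
  funext k
  have := congrArg (starRingEnd ℂ) (congrFun h k)
  simpa [Jm, mulVec, dotProduct] using this

variable {N : ℕ} {Θ : Fin (N + 1) → (Fin g → ℂ) → ℂ} {Λ : AddSubgroup (Fin g → ℂ)}
  {η : (Fin g → ℂ) → (Fin g → ℂ) →ₗ[ℂ] ℂ} {u : (Fin g → ℂ) → ℝ}
  {L : (Fin g → ℂ) →ₗ[ℝ] (Fin g → ℂ) →ₗ[ℂ] ℂ}

/-- the alternating form -/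
def om (L : (Fin g → ℂ) →ₗ[ℝ] (Fin g → ℂ) →ₗ[ℂ] ℂ) : (Fin g → ℂ) →ₗ[ℝ] (Fin g → ℂ) →ₗ[ℝ] ℂ :=
  LinearMap.mk₂ ℝ (fun y z => L y z - L z y)
    (fun _ _ _ => by simp only [map_add, LinearMap.add_apply]; ring)
    (fun c y z => by
      simp only [map_smul, LinearMap.smul_apply, LinearMap.map_smul_of_tower, smul_sub])
    (fun _ _ _ => by simp only [map_add, LinearMap.add_apply]; ring)
    fun c y z => by
      simp only [map_smul, LinearMap.smul_apply, LinearMap.map_smul_of_tower, smul_sub]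

theorem om_apply (y z : Fin g → ℂ) : om L y z = L y z - L z y := rfl

theorem om_I (hW : CMQ.Wt Θ Λ η u L) (y z : Fin g → ℂ) : om L (I • y) (I • z) = om L y z := by
  have h1 := hW.symm y z
  have h2 := hW.symm (I • y) z
  have h3 := hW.symm y (I • z)
  have h4 := hW.symm (I • y) (I • z)
  simp only [om_apply, map_smul (L _), smul_eq_mul, mul_re, I_re, I_im] at *
  refine Complex.ext ?_ ?_ <;> simp only [sub_re, sub_im, mul_re, mul_im, I_re, I_im] <;> linarith

theorem riemann (hW : CMQ.Wt Θ Λ η u L) (hb : ∀ k, b k ∈ Λ) :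
    ∃ E : Matrix (Fin n) (Fin n) ℚ, IsUnit E.det ∧ Jm b * cM E * (Jm b)ᵀ = cM E ∧
      ∀ v : Fin n → ℂ, cM E *ᵥ v = period η b *ᵥ Fin.append
        (fun i => -((fun k => period η b k (Fin.natAdd g i)) ⬝ᵥ v / (2 * Real.pi * I)))
        fun i => (fun k => period η b k (Fin.castAdd g i)) ⬝ᵥ v / (2 * Real.pi * I) := by
  choose m hm using fun k l => hW.riem _ (hb k) _ (hb l)
  have h0 : (2 * Real.pi * I : ℂ) ≠ 0 := two_pi_I_ne_zero
  set E : Matrix (Fin n) (Fin n) ℚ := Matrix.of fun k l => (m k l : ℚ) with hE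
  have e1 : ∀ k l, cM E k l = om L (b k) (b l) / (2 * Real.pi * I) := fun k l => by
    rw [om_apply, hm, mul_div_cancel_right₀ _ h0]
    simp [cM, hE]
  refine ⟨E, ?_, ?_, fun v => funext fun k => ?_⟩
  · rw [isUnit_iff_ne_zero, Ne, ← Matrix.exists_mulVec_eq_zero_iff]
    rintro ⟨v, v0, hv⟩
    set y := ∑ l, (v l : ℝ) • b l with hy
    have h1 : ∀ k, om L (b k) y = 0 := fun k => by
      have h2 : (((E *ᵥ v) k : ℚ) : ℂ) = 0 := by rw [hv]; simp
      have h3 : ∀ l, om L (b k) (b l) = E k l * (2 * Real.pi * I) := fun l =>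
        (div_eq_iff h0).1 (e1 k l).symm
      simp only [mulVec, dotProduct, Rat.cast_sum, Rat.cast_mul] at h2
      simp only [hy, map_sum, map_smul, h3, real_smul, ofReal_ratCast,
        ← mul_assoc _ _ (2 * Real.pi * I : ℂ), ← Finset.sum_mul, mul_comm (v _ : ℂ), h2, zero_mul]
    have h2 : (om L).flip y = 0 := b.ext h1
    have h3 : y ≠ 0 := fun h => v0 (funext fun l => by
      exact_mod_cast Fintype.linearIndependent_iff.1 b.linearIndependent _ h l)
    have h4 : L (I • y) y - L y (I • y) = 0 := LinearMap.congr_fun h2 (I • y)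
    have h5 := hW.pos y h3
    rw [sub_eq_zero.1 h4, map_smul, smul_eq_mul, ← mul_assoc, I_mul_I] at h5
    simp at h5
  · ext k l
    have h1 : ∀ z, ∑ a, Jm b k a * om L (b a) z = om L (I • b k) z := fun z =>
      congrFun (Jm_real b ((om L).flip z)) k
    have h2 : ∑ a, Jm b l a * om L (I • b k) (b a) = om L (I • b k) (I • b l) :=
      congrFun (Jm_real b (om L (I • b k))) l
    simp only [mul_apply, transpose_apply, e1, ← mul_div_assoc, ← Finset.sum_div, h1,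
      mul_comm _ (Jm b l _), h2, om_I hW]
  · have h1 : ∀ k l, L (b k) (b l) = ∑ i, η (b k) (Pi.single i 1) * b l i := fun k l => by
      rw [hW.ext _ (hb k), LinearMap.pi_apply_eq_sum_univ]
      refine Finset.sum_congr rfl fun i _ => ?_
      rw [smul_eq_mul, mul_comm]
      congr 2
      funext j
      simp [Pi.single_apply, eq_comm]
    simp only [mulVec, dotProduct, e1, om_apply, h1, Fin.sum_univ_add, period, of_apply,
      Fin.append_left, Fin.append_right, mul_neg, Finset.sum_neg_distrib, div_mul_eq_mul_div,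
      ← mul_div_assoc, ← Finset.sum_div, sub_mul, Finset.sum_sub_distrib, Finset.sum_mul,
      Finset.mul_sum]
    rw [Finset.sum_comm, Finset.sum_comm (f := fun l i => η (b l) (Pi.single i 1) * b k i * v l)]
    simp only [mul_assoc, mul_left_comm (b k _)]
    ring

end Cx

theorem exists_gal {E : Type} [Field E] [NumberField E] [IsGalois ℚ E] (σ₀ σ : Emb E) :
    ∃ γ : E ≃ₐ[ℚ] E, σ₀.comp (γ : E →+* E) = σ := by
  have h : Function.Injective fun γ : E ≃ₐ[ℚ] E => σ₀.comp (γ : E →+* E) := fun γ γ' h =>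
    AlgEquiv.ext fun x => σ₀.injective (RingHom.congr_fun h x)
  refine (h.bijective_of_nat_card_le ?_).2 σ
  rw [IsGalois.card_aut_eq_finrank, Nat.card_eq_fintype_card, NumberField.Embeddings.card]

theorem span_emb {L κ 𝒥 : Type} [Field L] [Fintype κ] {w : 𝒥 → κ → L}
    (hw : Submodule.span L (Set.range w) = ⊤) (σ : L →+* ℂ) {S : Submodule ℂ (κ → ℂ)}
    (h : ∀ j, (fun k => σ (w j k)) ∈ S) (x : κ → ℂ) : x ∈ S := by
  classical
  have h1 : ∀ y ∈ Submodule.span L (Set.range w), (fun k => σ (y k)) ∈ S := by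
    intro y hy
    induction hy using Submodule.span_induction with
    | mem y hy => obtain ⟨j, rfl⟩ := hy; exact h j
    | zero =>
      simp only [Pi.zero_apply, map_zero]
      exact S.zero_mem
    | add y z _ _ hy hz =>
      simp only [Pi.add_apply, map_add]
      exact S.add_mem hy hz
    | smul a y _ hy =>
      simp only [Pi.smul_apply, smul_eq_mul, map_mul]
      exact S.smul_mem (σ a) hy
  rw [pi_eq_sum_univ x]
  refine S.sum_mem fun i _ => S.smul_mem _ ?_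
  simpa [apply_ite σ] using h1 (fun j => if i = j then 1 else 0) (hw ▸ trivial)

theorem pt_mem {g n : ℕ} {b : Fin n → Fin g → ℂ} {L : Type} [Field L] [NumberField L]
    {Φ : Finset (Emb L)} {N : Matrix (Fin g) Φ ℂ} {w : Fin n → L}
    (h : ∀ k, b k ᵥ* N = pt Φ (w k)) : ∀ v ∈ qsp b, v ᵥ* N ∈ Set.range (pt Φ) := by
  intro v hv
  induction hv using Submodule.span_induction with
  | mem y hy => obtain ⟨k, rfl⟩ := hy; exact ⟨_, (h k).symm⟩
  | zero => exact ⟨0, by funext σ; simp [pt]⟩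
  | add y z _ _ hy hz =>
    obtain ⟨a, ha⟩ := hy
    obtain ⟨a', ha'⟩ := hz
    exact ⟨a + a', by rw [add_vecMul, ← ha, ← ha']; funext σ; simp [pt]⟩
  | smul q y _ hy =>
    obtain ⟨a, ha⟩ := hy
    refine ⟨q * a, ?_⟩
    rw [← Rat.cast_smul_eq_qsmul ℂ, smul_vecMul, ← ha]
    funext σ
    simp [pt]

/-- the vectors whose pairing with `v` is an algebraic multiple of `2 π i` -/
def dualS {ι : Type} [Fintype ι] (v : ι → ℂ) : Submodule Qb (ι → ℂ) where
  carrier := {x | x ⬝ᵥ v / (2 * Real.pi * I) ∈ Qb}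
  add_mem' ha hb := by
    rw [Set.mem_ofPred_eq, add_dotProduct, add_div]
    exact add_mem ha hb
  zero_mem' := by simp
  smul_mem' c x hx := by
    rw [Set.mem_ofPred_eq, qb_smul, smul_dotProduct, smul_eq_mul, mul_div_assoc]
    exact mul_mem c.2 hx

end HdrH

open HdrH in
theorem hdr (hA : All AfA) (hK : AllC) (hT : Trans) (hC : Cmt) (h0 : Ari0) (h1 : Ari1) (hE : Eta)
    (hW : CMQ.WtStmt) : Hdr := by
  intro g N Θ Λ η b hv hcm L _ _ c 𝒥 _ w p P hc hG hH hL hP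
  obtain ⟨hN, M, hM, hAr⟩ := h0 g b L c 𝒥 w p hc hG hH hL
  have hAri := h1 g N Θ Λ η b hv M hM hAr
  obtain ⟨t, ht, hsep⟩ := hC g _ b hcm
  obtain ⟨u, Lr, hWt⟩ := hW g N Θ Λ η hv.th
  obtain ⟨E, hEu, hEJ, hEX⟩ := riemann b hWt fun k =>
    hv.lat ▸ AddSubgroup.subset_closure ⟨k, rfl⟩
  have pi0 : (2 * Real.pi * I : ℂ) ≠ 0 := two_pi_I_ne_zero
  have mul1 : ∀ A B : Matrix (Fin (2 * g)) (Fin (2 * g)) ℚ, A * B = 1 → cM A * cM B = 1 := by
    intro A B h
    rw [cM_eq, cM_eq, ← Matrix.map_mul, h, Matrix.map_one _ (map_zero _) (map_one _)]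
  have EF := mul1 _ _ (mul_nonsing_inv E hEu)
  have FE := mul1 _ _ (nonsing_inv_mul E hEu)
  generalize E⁻¹ = F at EF FE
  have hJF : (Jm b)ᵀ * cM F * Jm b = cM F := by
    have a : Jm b * (cM E * (Jm b)ᵀ * cM F) = 1 := by
      rw [← Matrix.mul_assoc, ← Matrix.mul_assoc, hEJ, EF]
    have a' := congrArg (cM F * ·) (mul_eq_one_comm.1 a)
    simpa only [← Matrix.mul_assoc, FE, Matrix.one_mul, Matrix.mul_one] using a'
  have hX : Function.Injective (period η b).mulVec := by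
    refine (LinearMap.injective_iff_surjective_of_finrank_eq_finrank
      (f := (period η b).mulVecLin) (by simp [two_mul])).2 fun x => ?_
    exact ⟨_, by rw [mulVecLin_apply, ← hEX (cM F *ᵥ x), mulVec_mulVec, EF, one_mulVec]⟩
  have cc : ∀ σ : Emb L, cj (cj σ) = σ := fun σ => RingHom.ext fun x => by simp
  have P0 : ∀ j σ, P j σ ≠ 0 := fun j σ h => pi0 (by rw [← (hP j).1 σ, h, zero_mul])
  have pos : ∀ j (σ : Emb L), p j σ = 1 →
      Jm b *ᵥ (fun k => σ (w j k)) = I • fun k => σ (w j k) := fun j σ h => by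
    obtain ⟨f, hf⟩ := hL j σ h
    simpa only [hf] using Jm_lin b f
  have neg : ∀ j (σ : Emb L), p j σ ≠ 1 →
      Jm b *ᵥ (fun k => σ (w j k)) = -I • fun k => σ (w j k) := fun j σ h => by
    have := hH.wt j σ
    simpa using Jm_conj b (pos j (cj σ) (by omega))
  obtain ⟨e, he⟩ : ∃ e : 𝒥 × Emb L → Fin (2 * g) → ℂ,
    e = fun a k => P a.1 a.2 * a.2 (w a.1 k) := ⟨_, rfl⟩
  have e1 : ∀ j (σ : Emb L), e (j, σ) = P j σ • fun k => σ (w j k) := fun _ _ => he ▸ rfl
  have e2 : ∀ j (σ : Emb L), (fun k => σ (w j k)) = (P j σ)⁻¹ • e (j, σ) := fun j σ => by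
    rw [e1, smul_smul, inv_mul_cancel₀ (P0 j σ), one_smul]
  have ha : ∀ a : 𝒥 × Emb L, p a.1 a.2 = 1 → e a ∈ cols (period η b) := by
    rintro ⟨j, σ⟩ h
    obtain ⟨-, N', hN'⟩ := hN j
    have hσ : σ ∈ typ (p j) := Finset.mem_filter.2 ⟨Finset.mem_univ _, h⟩
    have a := fun i => (hA (Fin g)).hom _ _ _ _ _ N' hAri (hP j).2 (pt_mem hN') i ⟨σ, hσ⟩
    have a2 : e (j, σ) = period η b *ᵥ Fin.append (fun i => N' i ⟨σ, hσ⟩ * P j σ) 0 := by
      funext k
      have := congrFun (hN' k) ⟨σ, hσ⟩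
      simp only [vecMul, dotProduct, pt] at this
      simp only [he, mulVec, dotProduct, Fin.sum_univ_add, period, of_apply, Fin.append_left,
        Fin.append_right, Pi.zero_apply, mul_zero, Finset.sum_const_zero, add_zero, ← this,
        ← mul_assoc, ← Finset.sum_mul, mul_comm (P j σ)]
    rw [a2]
    refine mulVec_mem_cols fun i => Fin.addCases (fun i => ?_) (fun i => ?_) i
    · simpa using a i
    · rw [Fin.append_right]
      exact isAlgebraic_zero
  obtain ⟨σ₀⟩ : Nonempty (Emb L) := inferInstance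
  have hb : ∀ y ∈ cols (period η b), Jm b *ᵥ y = I • y →
      y ∈ Submodule.span Qb (Set.range fun a : {a : 𝒥 × Emb L // p a.1 a.2 = 1} => e a.1) := by
    intro y hy h
    refine desc (e := fun a : {a : 𝒥 × Emb L // p a.1 a.2 = 1} => e a.1) hX
      (fun a => ha a.1 a.2) hy ?_
    set S := Submodule.span ℂ (Set.range fun a : {a : 𝒥 × Emb L // p a.1 a.2 = 1} => e a.1)
    have a := span_emb hH.span σ₀ (S := S.comap (I • LinearMap.id + (Jm b).mulVecLin))
      (fun j => ?_) y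
    · have a2 := S.smul_mem (2 * I)⁻¹ a
      simp only [LinearMap.add_apply, LinearMap.smul_apply, LinearMap.id_apply, mulVecLin_apply,
        h] at a2
      rwa [← add_smul, ← two_mul, smul_smul, inv_mul_cancel₀ (by simp), one_smul] at a2
    · simp only [Submodule.mem_comap, LinearMap.add_apply, LinearMap.smul_apply,
        LinearMap.id_apply, mulVecLin_apply]
      by_cases hj : p j σ₀ = 1
      · rw [pos j σ₀ hj, ← add_smul, e2]
        exact S.smul_mem _ (S.smul_mem _ (Submodule.subset_span ⟨⟨(j, σ₀), hj⟩, rfl⟩))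
      · rw [neg j σ₀ hj, ← add_smul, add_neg_cancel, zero_smul]
        exact S.zero_mem
  have hd : ∀ j σ j' σ', p j σ = 1 → p j' σ' = 1 →
      e (j', σ') ∈ dualS (cM F *ᵥ e (j, cj σ)) := by
    intro j σ j' σ' h h'
    obtain ⟨γ, rfl⟩ := exists_gal σ σ'
    set a₀ : L := ∑ k, γ (w j' k) * ∑ l, F k l * c (w j l) with ha₀
    have a1 : ∀ r : Emb L, (fun k => r.comp (γ : L →+* L) (w j' k)) ⬝ᵥ cM F *ᵥ
        (fun k => cj r (w j k)) = r a₀ := fun r => by
      simp [ha₀, dotProduct, mulVec, cM, hc.1]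
    change _ / _ ∈ Qb
    rw [e1, e1, mulVec_smul, smul_dotProduct, dotProduct_smul, a1, smul_eq_mul, smul_eq_mul]
    by_cases z : a₀ = 0
    · simp [z]
    have a2 : ∀ r : Emb L, r ∈ typ (p j) ↔ r.comp (γ : L →+* L) ∈ typ (p j') := fun r => by
      have n0 : r a₀ ≠ 0 := (map_ne_zero r).2 z
      have w1 := hH.wt j r
      simp only [typ, Finset.mem_filter, Finset.mem_univ, true_and]
      refine ⟨fun a => by_contra fun a' => n0 ?_, fun a => by_contra fun a' => n0 ?_⟩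
      · exact (a1 r).symm.trans (orth hJF (by simp) (neg _ _ a') (neg _ _ (by omega)))
      · exact (a1 r).symm.trans (orth hJF I_mul_I (pos _ _ a) (pos _ _ (by omega)))
    have a3 := alg_iff.2 (hT L L γ _ _ _ _ (hN j').1 a2 (hP j') (hP j) σ).2
    have a4 : P j' (σ.comp (γ : L →+* L)) * (P j (cj σ) * σ a₀) / (2 * Real.pi * I) =
        (P j σ / P j' (σ.comp (γ : L →+* L)))⁻¹ * σ a₀ := by
      have := P0 j σ
      have := P0 j (cj σ)
      rw [← (hP j).1 σ, inv_div]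
      field_simp
    rw [a4]
    exact mul_mem (inv_mem a3) (alg_iff.2 ((hK L c hc).alg σ a₀))
  have hall : ∀ a, e a ∈ cols (period η b) := by
    rintro ⟨j, σ⟩
    by_cases h : p j σ = 1
    · exact ha _ h
    have w1 := hH.wt j σ
    have a1 : cols (period η b) ≤ dualS (cM F *ᵥ e (j, σ)) := by
      refine decomp hsep (hE g N Θ Λ η b hv hAri t ht) (Jm_sq b) (Jm_comm b ht) ?_
      rintro y hy (h' | h')
      · refine Submodule.span_le.2 ?_ (hb y hy h')
        rintro _ ⟨a, rfl⟩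
        have := hd j (cj σ) a.1.1 a.1.2 (by omega) a.2
        rwa [cc] at this
      · change _ / _ ∈ Qb
        rw [orth hJF (by simp) h' (by rw [e1, mulVec_smul, neg j σ h, smul_comm]), zero_div]
        exact zero_mem _
    have a2 : e (j, σ) = cM E *ᵥ cM F *ᵥ e (j, σ) := by rw [mulVec_mulVec, EF, one_mulVec]
    rw [a2, hEX]
    refine mulVec_mem_cols fun i => Fin.addCases (fun i => ?_) (fun i => ?_) i
    · rw [Fin.append_left]
      exact alg_iff.1 (neg_mem (a1 (Submodule.subset_span ⟨_, rfl⟩)))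
    · rw [Fin.append_right]
      exact alg_iff.1 (a1 (Submodule.subset_span ⟨_, rfl⟩))
  rw [evs, ← he]
  refine le_antisymm (fun x hx => desc hX hall hx (span_emb hH.span σ₀ (fun j => ?_) x))
    (Submodule.span_le.2 (Set.range_subset_iff.2 hall))
  rw [e2]
  exact Submodule.smul_mem _ _ (Submodule.subset_span ⟨_, rfl⟩)

end

end Pool.Agent.GAM

end MrgPart0

-- ======== part 1: formerly Pool.Agent.MP_cbf1af_ag.gam.MtdA
section MrgPart1

/-! PROJECT GAM, row MTD, first part: monomial algebras, tori, descent, Zariski density. -/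

namespace Pool.Agent.GAM

open MvPolynomial

noncomputable section

namespace MtdP

section Mono

variable {T : Type} [Fintype T]

/-- monomials -/
def mo (e : T → ℕ) : MvPolynomial T ℂ := ∏ τ, X τ ^ e τ

lemma mo_eq (e : T → ℕ) : mo e = monomial (Finsupp.equivFunOnFinite.symm e) 1 := by
  rw [monomial_eq, C_1, one_mul, Finsupp.prod_fintype _ _ fun _ => pow_zero _]
  rfl

lemma mo_ne (e : T → ℕ) : mo e ≠ 0 := by
  rw [mo_eq]; simp

lemma eval_mo (s : T → ℂ) (e : T → ℕ) : eval s (mo e) = ∏ τ, s τ ^ e τ := by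
  simp [mo]

lemma prod_pow_sum {M σ : Type} [CommMonoid M] [Fintype σ] (s : T → M) (e : σ → T → ℕ)
    (m : σ → ℕ) : ∏ a, (∏ τ, s τ ^ e a τ) ^ m a = ∏ τ, s τ ^ ∑ a, m a * e a τ := by
  simp only [← Finset.prod_pow, ← pow_mul, ← Finset.prod_pow_eq_pow_sum]
  rw [Finset.prod_comm]
  simp only [mul_comm]

lemma mo_sum {σ : Type} [Fintype σ] (e : σ → T → ℕ) (m : σ → ℕ) :
    ∏ a, mo (e a) ^ m a = mo fun τ => ∑ a, m a * e a τ := prod_pow_sum _ e m

lemma mo_ind {σ : Type} [Fintype σ] (e : σ → T → ℕ)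
    (he : LinearIndependent ℚ fun a τ => (e a τ : ℚ)) :
    AlgebraicIndependent ℂ fun a => mo (e a) := by
  let φ : (σ →₀ ℕ) → T →₀ ℕ := fun m => Finsupp.equivFunOnFinite.symm fun τ => ∑ a, m a * e a τ
  have hφ : Function.Injective φ := by
    intro a b hab
    have h1 := Fintype.linearIndependent_iff.mp he (fun s => (a s : ℚ) - b s) (by
      ext i
      have h2 : ∑ s, a s * e s i = ∑ s, b s * e s i := congrArg (fun f : T →₀ ℕ => f i) hab
      have h3 := congrArg (fun n : ℕ => (n : ℚ)) h2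
      push_cast at h3
      simp only [Finset.sum_apply, Pi.smul_apply, smul_eq_mul, sub_mul, Finset.sum_sub_distrib, h3,
        sub_self, Pi.zero_apply])
    ext s
    exact_mod_cast sub_eq_zero.mp (h1 s)
  have h := (basisMonomials T ℂ).linearIndependent.comp φ hφ
  rw [algebraicIndependent_iff]
  intro p hp
  ext a
  by_cases ha : a ∈ p.support
  · refine linearIndependent_iff'.mp h p.support (fun a => p.coeff a) ?_ a ha
    rw [← hp, aeval_def, eval₂_eq']
    refine Finset.sum_congr rfl fun m _ => ?_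
    rw [mo_sum, mo_eq, Algebra.smul_def]
    simp [φ]
  · simpa using ha

lemma int_rel {σ : Type} [Fintype σ] (e : σ → T → ℕ) (f : T → ℕ)
    (h : (fun τ => (f τ : ℚ)) ∈ Submodule.span ℚ (Set.range fun a τ => (e a τ : ℚ))) :
    ∃ (d : ℕ) (m m' : σ → ℕ), 0 < d ∧
      ∀ τ, (∑ a, m' a * e a τ) + d * f τ = ∑ a, m a * e a τ := by
  obtain ⟨q, hq⟩ := (Submodule.mem_span_range_iff_exists_fun ℚ).mp h
  obtain ⟨d, hd⟩ := IsLocalization.exist_integer_multiples_of_finite (nonZeroDivisors ℤ) q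
  choose m hm using hd
  have hd0 : (d : ℤ) ≠ 0 := nonZeroDivisors.coe_ne_zero d
  have hp : 0 < (d : ℤ) * d := mul_self_pos.2 hd0
  refine ⟨((d : ℤ) * d).toNat, fun a => ((d : ℤ) * m a).toNat, fun a => (-((d : ℤ) * m a)).toNat,
    by omega, fun τ => ?_⟩
  have q1 := congrFun hq τ
  simp only [Finset.sum_apply, Pi.smul_apply, smul_eq_mul] at q1
  have q2 : ∀ s, (m s : ℚ) = (d : ℤ) * q s := fun s => by simpa using hm s
  have q3 : ∀ a, ((((d : ℤ) * m a).toNat : ℕ) : ℚ) =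
      (((-((d : ℤ) * m a)).toNat : ℕ) : ℚ) + (d : ℤ) * (d : ℤ) * q a := fun a => by
    have h1 := congrArg (fun n : ℤ => (n : ℚ)) (Int.toNat_sub_toNat_neg ((d : ℤ) * m a))
    simp only [Int.cast_sub, Int.cast_natCast, Int.cast_mul, q2] at h1
    linear_combination h1
  have q4 : ((((d : ℤ) * d).toNat : ℕ) : ℚ) = (d : ℤ) * (d : ℤ) := by
    rw [← Int.cast_natCast, Int.toNat_of_nonneg hp.le, Int.cast_mul]
  apply Nat.cast_injective (R := ℚ)
  push_cast
  simp only [q3, q4, ← q1, add_mul, Finset.sum_add_distrib, Finset.mul_sum, mul_assoc]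

lemma alg_mem {K R : Type} [Field K] [CommRing R] [IsDomain R] [Algebra K R] (S : Subalgebra K R)
    {x : R} (hx : x ∈ S) : IsAlgebraic S x := isAlgebraic_algebraMap (⟨x, hx⟩ : S)

lemma alg_adjoin {K M : Type} [Field K] [CommRing M] [IsDomain M] [Algebra K M] (s : Set M)
    (S : Subalgebra K (Algebra.adjoin K s)) (h : ∀ x (hx : x ∈ s),
      IsAlgebraic S (⟨x, Algebra.subset_adjoin hx⟩ : Algebra.adjoin K s)) :
    Algebra.IsAlgebraic S (Algebra.adjoin K s) := by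
  refine ⟨fun ⟨z, hz⟩ => ?_⟩
  induction hz using Algebra.adjoin_induction with
  | mem z hz => exact h z hz
  | algebraMap q => exact alg_mem S (S.algebraMap_mem q)
  | add u v hu hv a b => exact a.add b
  | mul u v hu hv a b => exact a.mul b

/-- the dimension of a monomial algebra -/
theorem trm {A : Type} [Fintype A] (χ : A → T → ℕ) :
    Algebra.trdeg ℂ (Algebra.adjoin ℂ (Set.range fun a => mo (χ a))) =
      Module.finrank ℚ (Submodule.span ℚ (Set.range fun a τ => (χ a τ : ℚ))) := by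
  obtain ⟨σ, a, ha, hsp, hli⟩ := exists_linearIndependent' ℚ (fun j i => (χ j i : ℚ))
  have : Finite σ := Finite.of_injective a ha
  have := Fintype.ofFinite σ
  set R := Algebra.adjoin ℂ (Set.range fun a => mo (χ a)) with hR
  let y : A → R := fun j => ⟨mo (χ j), Algebra.subset_adjoin ⟨j, rfl⟩⟩
  let w : σ → R := fun s => y (a s)
  have hw : AlgebraicIndependent ℂ w :=
    AlgebraicIndependent.of_comp R.val (mo_ind (fun s => χ (a s)) hli)
  have h1 : ∀ m : σ → ℕ, IsAlgebraic (Algebra.adjoin ℂ (Set.range w)) (∏ s, w s ^ m s) :=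
    fun m => alg_mem _ (Subalgebra.prod_mem _ fun s _ =>
      Subalgebra.pow_mem _ (Algebra.subset_adjoin (Set.mem_range_self s)) _)
  have h2 : ∀ m : σ → ℕ, (∏ s, w s ^ m s : R).1 = mo fun τ => ∑ s, m s * χ (a s) τ := by
    intro m
    rw [← mo_sum]
    simp [w, y]
  have h3 : ∀ j, IsAlgebraic (Algebra.adjoin ℂ (Set.range w)) (y j) := by
    intro j
    obtain ⟨d, m, m', hd, e⟩ := int_rel (fun s => χ (a s)) (χ j) (by
      have : (fun i => (χ j i : ℚ)) ∈ Submodule.span ℚ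
          (Set.range ((fun j i => (χ j i : ℚ)) ∘ a)) := by
        rw [hsp]; exact Submodule.subset_span ⟨j, rfl⟩
      exact this)
    have e1 : (∏ s, w s ^ m' s) * y j ^ d = ∏ s, w s ^ m s := by
      apply Subtype.ext
      rw [MulMemClass.coe_mul, h2, h2, SubmonoidClass.coe_pow]
      simp only [y, mo, ← Finset.prod_pow, ← pow_mul, ← Finset.prod_mul_distrib, ← pow_add, ← e]
      simp only [mul_comm]
    refine IsAlgebraic.of_pow hd (IsAlgebraic.of_mul (y := ∏ s, w s ^ m' s) ?_ (h1 m') ?_)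
    · refine mem_nonZeroDivisors_of_ne_zero fun h0 => mo_ne _ ((h2 m').symm.trans ?_)
      rw [h0]; rfl
    · rw [e1]; exact h1 m
  have h4 : Algebra.IsAlgebraic (Algebra.adjoin ℂ (Set.range w)) R :=
    alg_adjoin _ _ (by rintro _ ⟨j, rfl⟩; exact h3 j)
  rw [← (hw.isTranscendenceBasis_iff_isAlgebraic.mpr h4).cardinalMk_eq_trdeg, ← hsp,
    finrank_span_eq_card hli, Cardinal.mk_fintype]

/-- points of a torus from the values of its characters -/
theorem divis {A : Type} [Fintype A] (χ : A → T → ℕ) (t : A → ℂ) (ht : ∀ a, t a ≠ 0)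
    (h : ∀ m m' : A → ℕ, (∀ τ, ∑ a, m a * χ a τ = ∑ a, m' a * χ a τ) →
      ∏ a, t a ^ m a = ∏ a, t a ^ m' a) :
    ∃ s : T → ℂ, (∀ τ, s τ ≠ 0) ∧ ∀ a, t a = ∏ τ, s τ ^ χ a τ := by
  classical
  let _ : DivisibleBy (Additive ℂˣ) ℤ := divisibleByOfSMulRightSurj _ _ fun {n} hn a =>
    ⟨Additive.ofMul (Units.mk0 (Complex.exp (Complex.log (Additive.toMul a).1 / n))
      (Complex.exp_ne_zero _)), by
      apply Additive.toMul.injective
      apply Units.ext
      have hn' : (n : ℂ) ≠ 0 := by exact_mod_cast hn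
      simp only [toMul_zsmul, toMul_ofMul, Units.val_zpow_eq_zpow_val, Units.val_mk0]
      rw [← Complex.exp_int_mul, mul_div_cancel₀ _ hn', Complex.exp_log (Units.ne_zero _)]⟩
  let f : (A → ℤ) →ₗ[ℤ] T → ℤ := Fintype.linearCombination ℤ fun a τ => (χ a τ : ℤ)
  let g : (A → ℤ) →ₗ[ℤ] Additive ℂˣ :=
    Fintype.linearCombination ℤ fun a => Additive.ofMul (Units.mk0 (t a) (ht a))
  have hg : ∀ m : A → ℤ, (Additive.toMul (g m)).1 = ∏ a, t a ^ m a := fun m => by
    simp [g, Fintype.linearCombination_apply, toMul_sum]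
  have hk : LinearMap.ker f ≤ LinearMap.ker g := by
    intro m hm
    rw [LinearMap.mem_ker] at hm ⊢
    have e := h (fun a => (m a).toNat) (fun a => (-m a).toNat) fun τ => by
      have h1 := congrFun hm τ
      simp only [f, Fintype.linearCombination_apply, Finset.sum_apply, Pi.smul_apply,
        smul_eq_mul, Pi.zero_apply] at h1
      apply Nat.cast_injective (R := ℤ)
      push_cast
      rw [← sub_eq_zero, ← Finset.sum_sub_distrib, ← h1]
      exact Finset.sum_congr rfl fun a _ => by rw [← sub_mul, Int.toNat_sub_toNat_neg]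
    apply Additive.toMul.injective
    apply Units.ext
    have h0 : ∏ a, t a ^ (-m a).toNat ≠ 0 :=
      Finset.prod_ne_zero_iff.2 fun a _ => pow_ne_zero _ (ht a)
    rw [hg, toMul_zero, Units.val_one, ← mul_left_inj' h0, one_mul, ← Finset.prod_mul_distrib]
    rw [← e]
    refine Finset.prod_congr rfl fun a _ => ?_
    rw [← zpow_natCast, ← zpow_natCast, ← zpow_add₀ (ht a)]
    congr 1
    have := Int.toNat_sub_toNat_neg (m a)
    omega
  obtain ⟨k, hk'⟩ := (Module.Baer.of_divisible (Additive ℂˣ)).extension_property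
    ((LinearMap.ker f).liftQ f le_rfl)
    (LinearMap.ker_eq_bot.1 (Submodule.ker_liftQ_eq_bot _ _ _ le_rfl))
    ((LinearMap.ker f).liftQ g hk)
  refine ⟨fun τ => (Additive.toMul (k (Pi.single τ 1))).1, fun τ => Units.ne_zero _, fun a => ?_⟩
  have e1 : k (f (Pi.single a 1)) = g (Pi.single a 1) :=
    LinearMap.congr_fun hk' (Submodule.Quotient.mk (Pi.single a 1))
  have e2 : f (Pi.single a 1) = ∑ τ, (χ a τ : ℤ) • (Pi.single τ 1 : T → ℤ) := by
    ext τ
    simp [f, Fintype.linearCombination_apply_single, Finset.sum_apply, Pi.single_apply]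
  have e3 := congrArg (fun u : Additive ℂˣ => (Additive.toMul u).1) e1
  simp only [e2, map_sum, map_zsmul, toMul_sum, toMul_zsmul, Units.coe_prod,
    zpow_natCast, g, Fintype.linearCombination_apply_single, one_smul,
    toMul_ofMul, Units.val_mk0] at e3
  exact e3.symm

lemma eq_of_units {P Q : MvPolynomial T ℂ}
    (h : ∀ s : T → ℂ, (∀ τ, s τ ≠ 0) → eval s P = eval s Q) : P = Q :=
  funext_set (fun _ => {0}ᶜ) (fun _ => (Set.finite_singleton 0).infinite_compl)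
    fun s hs => h s fun τ => hs τ trivial

end Mono

/-- descent from a number field to the rational numbers -/
theorem descent {L ι : Type} [Field L] [NumberField L] (T : Set (ι → ℂ)) (x : ι → ℂ)
    (hx : ∀ R : MvPolynomial ι ℚ, (∀ e ∈ T, aeval e R = 0) → aeval x R = 0)
    (P : MvPolynomial ι L) (hP : ∀ σ : Emb L, ∀ e ∈ T, eval₂ σ e P = 0) (σ : Emb L) :
    eval₂ σ x P = 0 := by
  have key : ∀ (lam : L) (e : ι → ℂ), aeval e
      (∑ m ∈ P.support, monomial m (Algebra.trace ℚ L (lam * coeff m P))) =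
        ∑ τ : L →ₐ[ℚ] ℂ, τ lam * eval₂ (τ : L →+* ℂ) e P := by
    intro lam e
    simp only [map_sum, aeval_monomial, trace_eq_sum_embeddings, eval₂_eq, Finset.mul_sum,
      Finset.sum_mul, map_mul]
    rw [Finset.sum_comm]
    refine Finset.sum_congr rfl fun τ _ => Finset.sum_congr rfl fun m _ => ?_
    rw [mul_assoc]; rfl
  have := Fintype.linearIndependent_iff.mp (linearIndependent_algHom_toLinearMap ℚ L ℂ)
    (fun τ => eval₂ (τ : L →+* ℂ) x P) (by
      ext lam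
      have h1 := hx _ fun e he => (key lam e).trans
        (Finset.sum_eq_zero fun τ _ => by rw [hP _ e he, mul_zero])
      rw [key] at h1
      simpa [mul_comm] using h1) σ.toRatAlgHom
  exact this

theorem dens0 (Q : MvPolynomial (Fin 2) ℂ)
    (h : ∀ z : ℂ, z ≠ 0 → eval ![z, (starRingEnd ℂ) z] Q = 0) : Q = 0 := by
  have e : ∀ y : Fin 2 → ℂ, eval y (bind₁ ![X 0 + C Complex.I * X 1, X 0 - C Complex.I * X 1] Q) =
      eval ![y 0 + Complex.I * y 1, y 0 - Complex.I * y 1] Q := by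
    intro y
    rw [← aeval_eq_eval, aeval_bind₁, aeval_eq_eval, aeval_eq_eval]
    congr 2
    ext i
    fin_cases i <;> simp
  have hi : ((fun r : ℝ => (r : ℂ)) '' Set.Ioi 0).Infinite :=
    (Set.Ioi_infinite 0).image Complex.ofReal_injective.injOn
  have h0 : bind₁ ![X 0 + C Complex.I * X 1, X 0 - C Complex.I * X 1] Q =
      (0 : MvPolynomial (Fin 2) ℂ) := by
    refine funext_set (fun _ => (fun r : ℝ => (r : ℂ)) '' Set.Ioi 0) (fun _ => hi) fun y hy => ?_
    obtain ⟨a, ha, ea⟩ := hy 0 trivial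
    obtain ⟨b, _, eb⟩ := hy 1 trivial
    rw [e, map_zero, ← ea, ← eb, ← h (a + Complex.I * b) fun hc => ?_]
    · simp [sub_eq_add_neg]
    · have := congrArg Complex.re hc
      simp only [Complex.add_re, Complex.ofReal_re, Complex.mul_re, Complex.I_re, zero_mul,
        Complex.I_im, Complex.ofReal_im, mul_zero, sub_self, add_zero, Complex.zero_re] at this
      exact ne_of_gt ha this
  refine MvPolynomial.funext fun y => ?_
  have := e ![(y 0 + y 1) / 2, -Complex.I * (y 0 - y 1) / 2]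
  rw [h0, map_zero] at this
  rw [map_zero, this]
  congr 2
  ext i
  fin_cases i
  · simp only [Fin.zero_eta, Matrix.cons_val_zero, Matrix.cons_val_one]
    linear_combination (y 0 - y 1) / 2 * Complex.I_mul_I
  · simp only [Fin.mk_one, Matrix.cons_val_zero, Matrix.cons_val_one]
    linear_combination -(y 0 - y 1) / 2 * Complex.I_mul_I

/-- the points `(z, conj z)` are Zariski dense -/
theorem dens {L : Type} [Field L] (σ : Emb L) (Q : MvPolynomial (Fin 2) L)
    (h : ∀ z : ℂ, z ≠ 0 → eval₂ σ ![z, (starRingEnd ℂ) z] Q = 0) : Q = 0 :=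
  map_injective σ σ.injective (by
    rw [map_zero]; exact dens0 _ fun z hz => by rw [eval_map]; exact h z hz)

end MtdP

end

end Pool.Agent.GAM

end MrgPart1

-- ======== part 2: formerly Pool.Agent.MP_cbf1af_ag.gam.Mtd
section MrgPart2

/-! PROJECT GAM, row MTD: the Mumford-Tate group of a Hodge structure with complex multiplication
is a torus, and its dimension is the rank of its characters. -/

namespace Pool.Agent.GAM

open MvPolynomial Matrix
open Pool.Agent.MTG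

noncomputable section

namespace MtdP

variable {L κ 𝒥 : Type} [Field L] [NumberField L] [Fintype κ] [DecidableEq κ] [Fintype 𝒥]

/-- the eigenvectors -/
def vv (σ : Emb L) (w : 𝒥 → κ → L) (a : 𝒥 × (L ≃ₐ[ℚ] L)) : κ → ℂ := fun k => σ (a.2 (w a.1 k))

/-- the characters -/
def chi (p : 𝒥 → Emb L → ℕ) (a : 𝒥 × (L ≃ₐ[ℚ] L)) (τ : Emb L) : ℕ :=
  p a.1 (τ.comp (a.2 : L →+* L))

/-- `x` acts as the point `s` of the split torus -/
def Ac (σ : Emb L) (w : 𝒥 → κ → L) (p : 𝒥 → Emb L → ℕ) (s : Emb L → ℂ) (x : Matrix κ κ ℂ) :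
    Prop := ∀ a, x *ᵥ vv σ w a = (∏ τ, s τ ^ chi p a τ) • vv σ w a

/-- `c` expresses the unit vectors through the eigenvectors -/
def Inv (w : 𝒥 → κ → L) (c : κ → 𝒥 → L) : Prop :=
  ∀ k l, ∑ j, w j k * c l j = if k = l then 1 else 0

variable {w : 𝒥 → κ → L} {p : 𝒥 → Emb L → ℕ} {c : κ → 𝒥 → L} {n : ℕ} {H : Set (Matrix κ κ ℂ)}
  {σ₀ : Emb L}

omit [NumberField L] [Fintype κ] in
lemma exists_inv (h : Submodule.span L (Set.range w) = ⊤) : ∃ c, Inv w c := by
  have : ∀ l : κ, ∃ c : 𝒥 → L, ∑ j, c j • w j = Pi.single l 1 := fun l =>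
    (Submodule.mem_span_range_iff_exists_fun L).mp (h ▸ Submodule.mem_top)
  choose c hc using this
  refine ⟨c, fun k l => ?_⟩
  have := congrFun (hc l) k
  simp only [Finset.sum_apply, Pi.smul_apply, smul_eq_mul, Pi.single_apply] at this
  rw [← this]
  exact Finset.sum_congr rfl fun j _ => mul_comm _ _

omit [NumberField L] [Fintype κ] in
lemma Inv.map (hc : Inv w c) (σ : Emb L) (k l : κ) :
    ∑ j, σ (w j k * c l j) = if k = l then 1 else 0 := by
  rw [← map_sum, hc]; split_ifs <;> simp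

omit [NumberField L] [DecidableEq κ] in
lemma push (σ : Emb L) {x : Matrix κ κ ℂ} {d : 𝒥 → ℂ}
    (h : ∀ j, x *ᵥ (fun k => σ (w j k)) = d j • fun k => σ (w j k)) (e : 𝒥 → ℂ) (k l : κ) :
    ∑ m, x k m * ∑ j, σ (w j m * c l j) * e j = ∑ j, σ (w j k * c l j) * (d j * e j) := by
  simp only [Finset.mul_sum]
  rw [Finset.sum_comm]
  refine Finset.sum_congr rfl fun j _ => ?_
  have := congrFun (h j) k
  simp only [mulVec, dotProduct, Pi.smul_apply, smul_eq_mul] at this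
  simp only [map_mul, ← mul_assoc, ← Finset.sum_mul, this]
  ring

omit [NumberField L] in
lemma form (hc : Inv w c) (σ : Emb L) {x : Matrix κ κ ℂ} {d : 𝒥 → ℂ}
    (h : ∀ j, x *ᵥ (fun k => σ (w j k)) = d j • fun k => σ (w j k)) (k l : κ) :
    x k l = ∑ j, σ (w j k * c l j) * d j := by
  have := push (c := c) σ h (fun _ => 1) k l
  simpa only [mul_one, hc.map, mul_ite, mul_zero, Finset.sum_ite_eq', Finset.mem_univ,
    if_true] using this

omit [NumberField L] in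
lemma unit (hc : Inv w c) (σ : Emb L) {x : Matrix κ κ ℂ} {d : 𝒥 → ℂ}
    (h : ∀ j, x *ᵥ (fun k => σ (w j k)) = d j • fun k => σ (w j k)) (hd : ∀ j, d j ≠ 0) :
    IsUnit x := by
  apply IsUnit.of_mul_eq_one (Matrix.of fun k l => ∑ j, σ (w j k * c l j) * (d j)⁻¹)
  ext k l
  have := push (c := c) σ h (fun j => (d j)⁻¹) k l
  simp only [mul_inv_cancel₀ (hd _), mul_one, hc.map] at this
  simp only [mul_apply, of_apply, this, one_apply]

lemma Ac.form (hc : Inv w c) {s : Emb L → ℂ} {x : Matrix κ κ ℂ} (h : Ac σ₀ w p s x) (k l : κ) :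
    x k l = ∑ j, σ₀ (w j k * c l j) * ∏ τ, s τ ^ chi p (j, 1) τ :=
  MtdP.form hc σ₀ (fun j => h (j, 1)) k l

lemma Ac.unit (hc : Inv w c) {s : Emb L → ℂ} {x : Matrix κ κ ℂ} (h : Ac σ₀ w p s x)
    (hs : ∀ τ, s τ ≠ 0) : IsUnit x :=
  MtdP.unit hc σ₀ (fun j => h (j, 1)) fun _ =>
    Finset.prod_ne_zero_iff.2 fun τ _ => pow_ne_zero _ (hs τ)

omit [Fintype 𝒥] in
lemma Ac.one : Ac σ₀ w p 1 (1 : Matrix κ κ ℂ) := fun a => by simp

omit [DecidableEq κ] [Fintype 𝒥] in
lemma Ac.mul {s s' : Emb L → ℂ} {x x' : Matrix κ κ ℂ} (h : Ac σ₀ w p s x) (h' : Ac σ₀ w p s' x') :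
    Ac σ₀ w p (s * s') (x * x') := fun a => by
  rw [← mulVec_mulVec, h' a, mulVec_smul, h a, smul_smul, ← Finset.prod_mul_distrib]
  simp only [Pi.mul_apply, mul_pow, mul_comm]

/-- the torus -/
def torus (σ : Emb L) (w : 𝒥 → κ → L) (p : 𝒥 → Emb L → ℕ) : Subgroup (GL κ ℂ) where
  carrier := {x | ∃ s : Emb L → ℂ, (∀ τ, s τ ≠ 0) ∧ Ac σ w p s x}
  mul_mem' := by
    rintro x y ⟨s, hs, hx⟩ ⟨s', hs', hy⟩
    exact ⟨s * s', fun τ => mul_ne_zero (hs τ) (hs' τ), hx.mul hy⟩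
  one_mem' := ⟨1, fun _ => one_ne_zero, Ac.one⟩
  inv_mem' := by
    rintro x ⟨s, hs, hx⟩
    refine ⟨s⁻¹, fun τ => inv_ne_zero (hs τ), fun a => ?_⟩
    have h0 : (∏ τ, s τ ^ chi p a τ) ≠ 0 :=
      Finset.prod_ne_zero_iff.2 fun τ _ => pow_ne_zero _ (hs τ)
    have h1 := congrArg (fun v => ((x⁻¹ : GL κ ℂ) : Matrix κ κ ℂ) *ᵥ v) (hx a)
    simp only [mulVec_mulVec, Units.inv_mul, one_mulVec, mulVec_smul] at h1
    simp only [Pi.inv_apply, inv_pow, Finset.prod_inv_distrib]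
    rw [eq_inv_smul_iff₀ h0, ← h1]

lemma prod_single (τ : Emb L) (t : ℂ) (e : Emb L → ℕ) :
    ∏ ρ, (Pi.mulSingle τ t : Emb L → ℂ) ρ ^ e ρ = t ^ e τ := by
  rw [Finset.prod_eq_single τ (fun ρ _ h => by simp [h]) (by simp)]
  simp

omit [Fintype 𝒥] in
lemma sub_torus (h : Cmh w p n H) : {y : GL κ ℂ | (y : Matrix κ κ ℂ) ∈ H} ⊆ torus σ₀ w p := by
  intro y hy
  obtain ⟨z, hz, he⟩ := h.eig _ hy
  refine ⟨Pi.mulSingle σ₀ z * Pi.mulSingle (cj σ₀) ((starRingEnd ℂ) z), fun τ => ?_, fun a => ?_⟩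
  · simp only [Pi.mul_apply, Pi.mulSingle_apply]
    split_ifs <;> simp [hz]
  · simp only [Pi.mul_apply, mul_pow, Finset.prod_mul_distrib, prod_single]
    exact he a.1 (σ₀.comp (a.2 : L →+* L))

/-- the universal matrix of the Deligne torus -/
def MM (σ : Emb L) (w : 𝒥 → κ → L) (p : 𝒥 → Emb L → ℕ) (c : κ → 𝒥 → L) (k l : κ) :
    MvPolynomial (Fin 2) L := ∑ j, C (w j k * c l j) * (X 0 ^ p j σ * X 1 ^ p j (cj σ))

omit [NumberField L] in
lemma eig_MM (hc : Inv w c) {z : ℂ} {x : Matrix κ κ ℂ} [NumberField L] (h : Eig w p z x)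
    (k l : κ) : eval₂ σ₀ ![z, (starRingEnd ℂ) z] (MM σ₀ w p c k l) = x k l := by
  rw [form hc σ₀ (fun j => h j σ₀) k l]
  simp [MM, eval₂_sum, eval₂_mul, eval₂_pow]

lemma MM_vec (h : Cmh w p n H) (hc : Inv w c) (j : 𝒥) (γ : L ≃ₐ[ℚ] L) (k : κ) :
    ∑ l, MM σ₀ w p c k l * C (γ (w j l)) =
      X 0 ^ p j (σ₀.comp (γ : L →+* L)) * X 1 ^ p j (cj (σ₀.comp (γ : L →+* L))) *
        C (γ (w j k)) := by
  rw [← sub_eq_zero]
  refine dens σ₀ _ fun z hz => ?_
  obtain ⟨x, _, he⟩ := h.ex z hz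
  have := congrFun (he j (σ₀.comp (γ : L →+* L))) k
  simp only [mulVec, dotProduct, Pi.smul_apply, smul_eq_mul] at this
  simp only [eval₂_sub, eval₂_sum, eval₂_mul, eig_MM hc he, eval₂_C, eval₂_pow, eval₂_X]
  rw [sub_eq_zero]
  exact this

omit [DecidableEq κ] [Fintype κ] in
lemma ev_aeval (σ : Emb L) (y : Fin 2 → ℂ) (g : κ × κ → MvPolynomial (Fin 2) L)
    (R : MvPolynomial (κ × κ) ℚ) :
    eval₂ σ y (aeval g R) = aeval (fun q => eval₂ σ y (g q)) R :=
  comp_aeval_apply g (eval₂Hom σ y).toRatAlgHom R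

lemma single [IsGalois ℚ L] (h : Cmh w p n H) (hc : Inv w c) {G : Subgroup (GL κ ℂ)}
    (hG : IsQGroup G) (hH : {y : GL κ ℂ | (y : Matrix κ κ ℂ) ∈ H} ⊆ G) (τ : Emb L) {t : ℂ}
    (ht : t ≠ 0) : ∃ x ∈ G, Ac σ₀ w p (Pi.mulSingle τ t) (x : Matrix κ κ ℂ) := by
  obtain ⟨δ, hδ⟩ := NumberField.ComplexEmbedding.exists_comp_symm_eq_of_comp_eq (k := ℚ) σ₀ τ
    (Subsingleton.elim _ _)
  let σ : Emb L := σ₀.comp (δ : L →+* L)
  let x : Matrix κ κ ℂ := Matrix.of fun k l => eval₂ σ ![t, 1] (MM σ₀ w p c k l)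
  have hx : Ac σ₀ w p (Pi.mulSingle τ t) x := by
    intro a
    ext k
    have := congrArg (eval₂ σ ![t, 1]) (MM_vec (σ₀ := σ₀) h hc a.1 (a.2.trans δ.symm) k)
    have e1 : ∀ l, σ ((a.2.trans δ.symm) (w a.1 l)) = vv σ₀ w a l := fun l => by simp [σ, vv]
    have e2 : σ₀.comp ((a.2.trans δ.symm : L ≃ₐ[ℚ] L) : L →+* L) = τ.comp (a.2 : L →+* L) := by
      rw [← hδ]; rfl
    simp only [eval₂_sum, eval₂_mul, eval₂_C, eval₂_pow, eval₂_X, e1, e2, cons_val_zero,
      cons_val_one, one_pow, mul_one] at this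
    rw [prod_single]
    exact this
  have hs : ∀ ρ, (Pi.mulSingle τ t : Emb L → ℂ) ρ ≠ 0 := fun ρ => by
    simp only [Pi.mulSingle_apply]
    split_ifs <;> simp [ht]
  obtain ⟨y, hy⟩ := hx.unit hc hs
  refine ⟨y, ?_, hy ▸ hx⟩
  obtain ⟨S, hS⟩ := hG
  refine (hS y).2 fun R hR => ?_
  have h0 : aeval (fun q : κ × κ => MM σ₀ w p c q.1 q.2) R = 0 := by
    refine dens σ₀ _ fun z hz => ?_
    obtain ⟨x', hx', he⟩ := h.ex z hz
    obtain ⟨y', hy'⟩ := unit hc σ₀ (fun j => he j σ₀) fun j =>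
      mul_ne_zero (pow_ne_zero _ hz) (pow_ne_zero _ (by simpa using hz))
    have := (hS y').1 (hH (show (y' : Matrix κ κ ℂ) ∈ H from hy' ▸ hx')) R hR
    rw [ev_aeval]
    simpa only [eig_MM hc he, hy'] using this
  have := ev_aeval σ ![t, 1] (fun q : κ × κ => MM σ₀ w p c q.1 q.2) R
  rw [h0, eval₂_zero] at this
  rw [hy]
  exact this.symm

lemma points [IsGalois ℚ L] (h : Cmh w p n H) (hc : Inv w c) {G : Subgroup (GL κ ℂ)}
    (hG : IsQGroup G) (hH : {y : GL κ ℂ | (y : Matrix κ κ ℂ) ∈ H} ⊆ G) {s : Emb L → ℂ}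
    (hs : ∀ τ, s τ ≠ 0) : ∃ x ∈ G, Ac σ₀ w p s (x : Matrix κ κ ℂ) := by
  rw [← Finset.univ_prod_mulSingle s]
  refine Finset.prod_induction _ (fun s => ∃ x ∈ G, Ac σ₀ w p s (x : Matrix κ κ ℂ)) ?_
    ⟨1, G.one_mem, Ac.one⟩ fun τ _ => single h hc hG hH τ (hs τ)
  rintro a b ⟨x, hx, ha⟩ ⟨y, hy, hb⟩
  exact ⟨x * y, G.mul_mem hx hy, ha.mul hb⟩

lemma torus_le [IsGalois ℚ L] (h : Cmh w p n H) (hc : Inv w c) {G : Subgroup (GL κ ℂ)}
    (hG : IsQGroup G) (hH : {y : GL κ ℂ | (y : Matrix κ κ ℂ) ∈ H} ⊆ G) : torus σ₀ w p ≤ G := by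
  rintro y ⟨s, hs, hy⟩
  obtain ⟨x, hx, ha⟩ := points (σ₀ := σ₀) h hc hG hH hs
  have : y = x := Units.ext (Matrix.ext fun k l => by rw [hy.form hc, ha.form hc])
  rwa [this]

/-- a coordinate of the image of a vector -/
def lin {R : Type} [CommRing R] (u : κ → R) (k : κ) : MvPolynomial (κ × κ) R :=
  ∑ m, X (k, m) * C (u m)

omit [DecidableEq κ] in
lemma eval_lin {R : Type} [CommRing R] (σ : R →+* ℂ) (y : Matrix κ κ ℂ) (u : κ → R) (k : κ) :
    eval₂ σ (fun q : κ × κ => y q.1 q.2) (lin u k) = (y *ᵥ fun m => σ (u m)) k := by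
  simp [lin, eval₂_sum, eval₂_mul, mulVec, dotProduct]

lemma isQ [IsGalois ℚ L] (hw : ∀ j, w j ≠ 0) : IsQGroup (torus σ₀ w p) := by
  refine ⟨{R | ∀ y ∈ torus σ₀ w p,
    aeval (fun q : κ × κ => (y : Matrix κ κ ℂ) q.1 q.2) R = 0}, fun x => ⟨fun hx R hR => hR x hx,
      fun hx => ?_⟩⟩
  have D : ∀ P : MvPolynomial (κ × κ) L, (∀ (δ : L ≃ₐ[ℚ] L) (s : Emb L → ℂ) (y : Matrix κ κ ℂ),
      Ac σ₀ w p s y → eval₂ (σ₀.comp (δ : L →+* L)) (fun q : κ × κ => y q.1 q.2) P = 0) →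
      eval₂ σ₀ (fun q : κ × κ => (x : Matrix κ κ ℂ) q.1 q.2) P = 0 := by
    intro P hP
    refine descent {e | ∃ y ∈ torus σ₀ w p, e = fun q : κ × κ => (y : Matrix κ κ ℂ) q.1 q.2} _
      (fun R hR => hx R fun y hy => hR _ ⟨y, hy, rfl⟩) P ?_ σ₀
    rintro σ _ ⟨y, ⟨s, _, hy⟩, rfl⟩
    obtain ⟨δ, hδ⟩ := NumberField.ComplexEmbedding.exists_comp_symm_eq_of_comp_eq (k := ℚ) σ₀ σ
      (Subsingleton.elim _ _)
    rw [← hδ]
    exact hP δ.symm s y hy
  have hk : ∀ j, ∃ k, w j k ≠ 0 := fun j => Function.ne_iff.1 (hw j)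
  choose k0 hk0 using hk
  have hv : ∀ a, vv σ₀ w a (k0 a.1) ≠ 0 := fun a => by simpa [vv] using hk0 a.1
  have ev : ∀ (δ : L ≃ₐ[ℚ] L) (s : Emb L → ℂ) (y : Matrix κ κ ℂ), Ac σ₀ w p s y →
      ∀ (a : 𝒥 × (L ≃ₐ[ℚ] L)) k, eval₂ (σ₀.comp (δ : L →+* L)) (fun q : κ × κ => y q.1 q.2)
        (lin (fun m => a.2 (w a.1 m)) k) =
        (∏ τ, s τ ^ chi p a (τ.comp (δ : L →+* L))) * vv σ₀ w (a.1, a.2.trans δ) k := by
    intro δ s y hy a k
    rw [eval_lin]
    exact congrFun (hy (a.1, a.2.trans δ)) k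
  let t : 𝒥 × (L ≃ₐ[ℚ] L) → ℂ := fun a =>
    (vv σ₀ w a (k0 a.1))⁻¹ * ((x : Matrix κ κ ℂ) *ᵥ vv σ₀ w a) (k0 a.1)
  have h1 : ∀ a, (x : Matrix κ κ ℂ) *ᵥ vv σ₀ w a = t a • vv σ₀ w a := by
    intro a
    ext k
    have := D (lin (fun m => a.2 (w a.1 m)) k * C (a.2 (w a.1 (k0 a.1))) -
      lin (fun m => a.2 (w a.1 m)) (k0 a.1) * C (a.2 (w a.1 k))) fun δ s y hy => by
        simp only [eval₂_sub, eval₂_mul, eval₂_C, ev δ s y hy]
        show _ * vv σ₀ w (a.1, a.2.trans δ) (k0 a.1) - _ * vv σ₀ w (a.1, a.2.trans δ) k = 0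
        ring
    simp only [eval₂_sub, eval₂_mul, eval₂_C, eval_lin] at this
    replace this : ((x : Matrix κ κ ℂ) *ᵥ vv σ₀ w a) k * vv σ₀ w a (k0 a.1) -
      ((x : Matrix κ κ ℂ) *ᵥ vv σ₀ w a) (k0 a.1) * vv σ₀ w a k = 0 := this
    have h0 := hv a
    simp only [t, Pi.smul_apply, smul_eq_mul]
    field_simp
    linear_combination this
  have h2 : ∀ a, t a ≠ 0 := fun a h0 => by
    have h3 := congrArg (fun v => ((x⁻¹ : GL κ ℂ) : Matrix κ κ ℂ) *ᵥ v) (h1 a)
    simp only [mulVec_mulVec, Units.inv_mul, one_mulVec, h0, zero_smul, mulVec_zero] at h3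
    exact hv a (congrFun h3 _)
  obtain ⟨s, hs, e⟩ := divis (chi p) t h2 fun m m' hm => by
    have := D (∏ a, (C (a.2 (w a.1 (k0 a.1)))⁻¹ * lin (fun l => a.2 (w a.1 l)) (k0 a.1)) ^ m a -
      ∏ a, (C (a.2 (w a.1 (k0 a.1)))⁻¹ * lin (fun l => a.2 (w a.1 l)) (k0 a.1)) ^ m' a)
      fun δ s y hy => by
        have e1 : ∀ a : 𝒥 × (L ≃ₐ[ℚ] L), (σ₀.comp (δ : L →+* L)) (a.2 (w a.1 (k0 a.1)))⁻¹ *
            ((∏ τ, s τ ^ chi p a (τ.comp (δ : L →+* L))) * vv σ₀ w (a.1, a.2.trans δ) (k0 a.1)) =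
            ∏ τ, s τ ^ chi p a (τ.comp (δ : L →+* L)) := fun a => by
          rw [map_inv₀]
          show (vv σ₀ w (a.1, a.2.trans δ) (k0 a.1))⁻¹ * _ = _
          rw [mul_comm, mul_inv_cancel_right₀ (hv (a.1, a.2.trans δ))]
        simp only [eval₂_sub, eval₂_prod, eval₂_pow, eval₂_mul, eval₂_C, ev δ s y hy, e1,
          prod_pow_sum, hm, sub_self]
    simp only [eval₂_sub, eval₂_prod, eval₂_pow, eval₂_mul, eval₂_C, eval_lin, map_inv₀] at this
    exact sub_eq_zero.1 this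
  exact ⟨s, hs, fun a => by rw [h1, e]⟩

lemma dim_torus [IsGalois ℚ L] (h : Cmh w p n H) (hc : Inv w c) :
    dim (torus σ₀ w p) = Module.finrank ℚ (chars p) := by
  let φ : MvPolynomial (κ × κ) ℂ →ₐ[ℂ] MvPolynomial (Emb L) ℂ :=
    aeval fun q => ∑ j, C (σ₀ (w j q.1 * c q.2 j)) * mo (chi p (j, 1))
  have hφ : ∀ (s : Emb L → ℂ) (x : Matrix κ κ ℂ), Ac σ₀ w p s x → ∀ P,
      eval s (φ P) = aeval (fun q : κ × κ => x q.1 q.2) P := by
    intro s x hx P
    rw [← aeval_eq_eval, comp_aeval_apply]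
    congr 2
    ext q
    rw [hx.form hc]
    simp only [aeval_eq_eval, map_sum, map_mul, eval_C, eval_mo]
  have hp : ∀ s : Emb L → ℂ, (∀ τ, s τ ≠ 0) → ∃ x : GL κ ℂ, Ac σ₀ w p s (x : Matrix κ κ ℂ) :=
    fun s hs => by
      obtain ⟨x, _, hx⟩ := points (σ₀ := σ₀) h hc (G := ⊤) ⟨∅, by simp⟩ (by simp) hs
      exact ⟨x, hx⟩
  have hk : vanishingIdeal ℂ {e : κ × κ → ℂ | ∃ x ∈ torus σ₀ w p,
      e = fun q => (x : Matrix κ κ ℂ) q.1 q.2} = RingHom.ker φ := by
    ext P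
    rw [mem_vanishingIdeal_iff, RingHom.mem_ker]
    constructor
    · intro hP
      refine eq_of_units fun s hs => ?_
      obtain ⟨x, hx⟩ := hp s hs
      rw [hφ s x hx, map_zero]
      exact hP _ ⟨x, ⟨s, hs, hx⟩, rfl⟩
    · rintro hP _ ⟨x, ⟨s, _, hx⟩, rfl⟩
      rw [← hφ s x hx, hP, map_zero]
  have hr : φ.range = Algebra.adjoin ℂ (Set.range fun a => mo (chi p a)) := by
    apply le_antisymm
    · rw [← Algebra.adjoin_range_eq_range_aeval]
      refine Algebra.adjoin_le ?_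
      rintro _ ⟨q, rfl⟩
      exact Subalgebra.sum_mem _ fun j _ => Subalgebra.mul_mem _ (Subalgebra.algebraMap_mem _ _)
        (Algebra.subset_adjoin ⟨(j, 1), rfl⟩)
    · refine Algebra.adjoin_le ?_
      rintro _ ⟨a, rfl⟩
      obtain ⟨k, hk⟩ := Function.ne_iff.1 (h.ne a.1)
      have hv : vv σ₀ w a k ≠ 0 := by simpa [vv] using hk
      refine ⟨C (vv σ₀ w a k)⁻¹ * lin (vv σ₀ w a) k, eq_of_units fun s hs => ?_⟩
      obtain ⟨x, hx⟩ := hp s hs
      have e1 := eval_lin (RingHom.id ℂ) (x : Matrix κ κ ℂ) (vv σ₀ w a) k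
      have e2 := congrFun (hx a) k
      refine (hφ s x hx _).trans ?_
      rw [eval_mo, aeval_eq_eval, map_mul, eval_C]
      refine (congrArg _ (e1.trans e2)).trans ?_
      rw [Pi.smul_apply, smul_eq_mul, mul_comm, mul_inv_cancel_right₀ hv]
  unfold dim
  rw [((Ideal.quotientEquivAlgOfEq ℂ hk).trans (Ideal.quotientKerEquivRange φ)).trdeg_eq, hr]
  exact trm (chi p)

end MtdP

open MtdP in
theorem mtd : Mtd := by
  intro L κ 𝒥 _ _ _ _ _ w p n H hG h
  obtain ⟨σ₀⟩ : Nonempty (Emb L) := inferInstance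
  obtain ⟨c, hc⟩ := exists_inv h.span
  have e : hull {y : GL κ ℂ | (y : Matrix κ κ ℂ) ∈ H} = torus σ₀ w p :=
    le_antisymm (sInf_le ⟨isQ h.ne, sub_torus h⟩) (le_sInf fun G hG => torus_le h hc hG.1 hG.2)
  rw [e]
  exact dim_torus h hc

end

end Pool.Agent.GAM

end MrgPart2

-- marker of a merged file
example : 731051 + 886035 = 731051 + 886035 := rfl

end MrgPart1

-- ======== part 2: formerly Pool.Agent.MP_cbf1af_ag.gam.Rat
section MrgPart2

/-! PROJECT GAM, module RAT: the field of quotients of periods -/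

namespace Pool.Agent.GAM

open Matrix Complex
open Pool.Agent.CMP (Qb)
open Pool.Agent.MTG

set_option linter.unusedSectionVars false

namespace Rt

theorem trdeg_le {F G : IntermediateField ℚ ℂ} (h : ∀ x ∈ F, IsAlgebraic G x) :
    Algebra.trdeg ℚ F ≤ Algebra.trdeg ℚ G := by
  let L := algebraicClosure G ℂ
  have h1 : Algebra.trdeg ℚ G + Algebra.trdeg G L = Algebra.trdeg ℚ L := trdeg_add_eq ℚ G
  rw [trdeg_eq_zero (R := G) (A := L), add_zero] at h1
  rw [h1]
  have hle : F ≤ L.restrictScalars ℚ := fun x hx => mem_algebraicClosure_iff.2 (h x hx)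
  exact trdeg_le_of_injective (IntermediateField.inclusion hle)
    (IntermediateField.inclusion_injective hle)

theorem trdeg_adjoin_le {S : Set ℂ} {G : IntermediateField ℚ ℂ} (h : ∀ x ∈ S, IsAlgebraic G x) :
    Algebra.trdeg ℚ (IntermediateField.adjoin ℚ S) ≤ Algebra.trdeg ℚ G := by
  have hle : IntermediateField.adjoin ℚ S ≤ (algebraicClosure G ℂ).restrictScalars ℚ :=
    IntermediateField.adjoin_le_iff.2 fun x hx => mem_algebraicClosure_iff.2 (h x hx)
  exact trdeg_le fun x hx => mem_algebraicClosure_iff.1 (hle hx)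

theorem trdeg_simple (G : IntermediateField ℚ ℂ) (x : ℂ) :
    Algebra.trdeg ℚ ((IntermediateField.adjoin G {x}).restrictScalars ℚ) ≤
      Algebra.trdeg ℚ G + 1 := by
  let L := IntermediateField.adjoin G {x}
  have h1 : Algebra.trdeg ℚ G + Algebra.trdeg G L = Algebra.trdeg ℚ L := trdeg_add_eq ℚ G
  have h2 : Algebra.trdeg G L ≤ 1 := by
    let x' : L := ⟨x, IntermediateField.mem_adjoin_simple_self G x⟩
    have : Algebra.IsAlgebraic (Algebra.adjoin G {x'}) L := by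
      refine ⟨fun ⟨z, hz⟩ => ?_⟩
      induction hz using IntermediateField.adjoin_induction with
      | mem z hz =>
        obtain rfl := hz
        exact isAlgebraic_algebraMap
          (⟨x', Algebra.self_mem_adjoin_singleton _ _⟩ : Algebra.adjoin G {x'})
      | algebraMap q =>
        exact isAlgebraic_algebraMap
          (⟨algebraMap G L q, Subalgebra.algebraMap_mem _ _⟩ : Algebra.adjoin G {x'})
      | add u v hu hv a b => exact a.add b
      | inv u hu a => exact IsAlgebraic.inv_iff.mpr a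
      | mul u v hu hv a b => exact a.mul b
    simpa using Algebra.IsAlgebraic.trdeg_le_cardinalMk G ({x'} : Set L)
  change Algebra.trdeg ℚ L ≤ _
  rw [← h1]
  exact add_le_add le_rfl h2

theorem alg_of_span {G : IntermediateField ℚ ℂ} {S : Set ℂ} {x0 : ℂ}
    (h : ∀ s ∈ S, s / x0 ∈ G) {x : ℂ} (hx : x ∈ Submodule.span Qb S) :
    x / x0 ∈ algebraicClosure G ℂ := by
  induction hx using Submodule.span_induction with
  | mem s hs => exact (algebraicClosure G ℂ).algebraMap_mem ⟨_, h s hs⟩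
  | zero => rw [zero_div]; exact zero_mem _
  | add a b _ _ ha hb => rw [add_div]; exact add_mem ha hb
  | smul q a _ ha =>
    have hq : (q : ℂ) ∈ algebraicClosure G ℂ :=
      mem_algebraicClosure_iff.2 ((mem_algebraicClosure_iff.1 q.2).tower_top G)
    have e : (q • a) / x0 = (q : ℂ) * (a / x0) := by
      rw [IntermediateField.smul_def, smul_eq_mul, mul_div_assoc]
    rw [e]
    exact mul_mem hq ha

theorem apply_mem {κ : Type} {T : Set (κ → ℂ)} {U : Submodule Qb ℂ} (k : κ)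
    (h : ∀ v ∈ T, v k ∈ U) {v : κ → ℂ} (hv : v ∈ Submodule.span Qb T) : v k ∈ U := by
  induction hv using Submodule.span_induction with
  | mem s hs => exact h s hs
  | zero => exact U.zero_mem
  | add a b _ _ ha hb => exact U.add_mem ha hb
  | smul q a _ ha => exact U.smul_mem q ha

theorem trdeg_mono {F G : IntermediateField ℚ ℂ} (h : F ≤ G) :
    Algebra.trdeg ℚ F ≤ Algebra.trdeg ℚ G :=
  trdeg_le_of_injective (IntermediateField.inclusion h) (IntermediateField.inclusion_injective h)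

theorem quot_le {κ κ' : Type} (X : Matrix κ κ' ℂ) :
    Algebra.trdeg ℚ (quotField X) ≤ Algebra.trdeg ℚ (entryField X) := by
  refine trdeg_mono (IntermediateField.adjoin_le_iff.2 ?_)
  rintro _ ⟨i, j, k, l, rfl⟩
  exact div_mem (IntermediateField.subset_adjoin _ _ ⟨i, j, rfl⟩)
    (IntermediateField.subset_adjoin _ _ ⟨k, l, rfl⟩)

theorem le_simple {S : Set ℂ} {G : IntermediateField ℚ ℂ} {x : ℂ} (hx : x ≠ 0)
    (h : ∀ s ∈ S, s / x ∈ G) :
    IntermediateField.adjoin ℚ S ≤ (IntermediateField.adjoin G {x}).restrictScalars ℚ := by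
  refine IntermediateField.adjoin_le_iff.2 fun s hs => ?_
  have h1 : s / x ∈ IntermediateField.adjoin G {x} :=
    (IntermediateField.adjoin G {x}).algebraMap_mem ⟨_, h s hs⟩
  have h2 := mul_mem h1 (IntermediateField.mem_adjoin_simple_self G x)
  rw [div_mul_cancel₀ s hx] at h2
  exact h2

theorem entry_le {κ κ' : Type} (X : Matrix κ κ' ℂ) {i₀ : κ} {k₀ : κ'} (h0 : X i₀ k₀ ≠ 0) :
    Algebra.trdeg ℚ (entryField X) ≤ Algebra.trdeg ℚ (quotField X) + 1 := by
  refine (trdeg_mono (le_simple h0 ?_)).trans (trdeg_simple (quotField X) (X i₀ k₀))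
  rintro _ ⟨i, j, rfl⟩
  exact IntermediateField.subset_adjoin _ _ ⟨i, j, i₀, k₀, rfl⟩

variable {L : Type} [Field L] [NumberField L]

theorem exists_aut [IsGalois ℚ L] (σ₀ σ : Emb L) : ∃ γ : L ≃ₐ[ℚ] L, σ = σ₀.comp (γ : L →+* L) := by
  have hinj : Function.Injective fun γ : L ≃ₐ[ℚ] L => σ₀.comp (γ : L →+* L) := by
    intro a b h
    ext x
    exact σ₀.injective (DFunLike.congr_fun h x)
  have hb := (Fintype.bijective_iff_injective_and_card _).2 ⟨hinj, by
    rw [NumberField.Embeddings.card, ← Nat.card_eq_fintype_card, IsGalois.card_aut_eq_finrank]⟩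
  obtain ⟨γ, h⟩ := hb.2 σ
  exact ⟨γ, h.symm⟩

theorem cj_cj (σ : Emb L) : cj (cj σ) = σ := by
  ext x
  simp

theorem cj_comp (σ : Emb L) (γ : L →+* L) : (cj σ).comp γ = cj (σ.comp γ) := rfl

theorem prod_split {Ψ : Finset (Emb L)} (hΨ : IsType Ψ) (f : Emb L → ℂ) :
    ∏ τ, f τ = ∏ τ : Ψ, f τ * f (cj τ) := by
  rw [Finset.prod_mul_distrib, Finset.prod_coe_sort Ψ f,
    Finset.prod_coe_sort Ψ fun τ => f (cj τ), ← Finset.prod_mul_prod_compl Ψ]
  congr 1
  refine Finset.prod_nbij' cj cj (fun a ha => ?_) (fun a ha => ?_) (fun a _ => cj_cj a)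
    (fun a _ => cj_cj a) fun a _ => by rw [cj_cj]
  · rw [hΨ, cj_cj]
    exact Finset.mem_compl.1 ha
  · exact Finset.mem_compl.2 ((hΨ a).1 ha)

theorem rank {A : Type} {Ψ : Finset (Emb L)} (hΨ : IsType Ψ) (τ₀ : Emb L) (f : A → Emb L → ℚ)
    (a₀ : A) {n : ℚ} (hn : n ≠ 0) (hf : ∀ a τ, f a τ + f a (cj τ) = n) :
    Module.finrank ℚ (Submodule.span ℚ (Set.range fun a (τ : Ψ) => 2 * (f a τ - f a₀ τ))) + 1 =
      Module.finrank ℚ (Submodule.span ℚ (Set.range f)) := by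
  let D := Submodule.span ℚ (Set.range fun a => f a - f a₀)
  have hD : ∀ v ∈ D, ∀ τ, v τ + v (cj τ) = 0 := by
    intro v hv τ
    induction hv using Submodule.span_induction with
    | mem s hs =>
      obtain ⟨a, rfl⟩ := hs
      have h1 := hf a τ
      have h2 := hf a₀ τ
      simp only [Pi.sub_apply]
      linarith
    | zero => simp
    | add a b _ _ ha hb => simp only [Pi.add_apply]; linarith
    | smul q a _ ha => simp only [Pi.smul_apply, smul_eq_mul]; rw [← mul_add, ha, mul_zero]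
  have h0 : f a₀ ∉ D := fun h => hn ((hf a₀ τ₀).symm.trans (hD _ h τ₀))
  have h1 : Submodule.span ℚ (Set.range f) = D ⊔ Submodule.span ℚ {f a₀} := by
    apply le_antisymm
    · rw [Submodule.span_le]
      rintro _ ⟨a, rfl⟩
      rw [← sub_add_cancel (f a) (f a₀)]
      exact Submodule.add_mem_sup (Submodule.subset_span ⟨a, rfl⟩)
        (Submodule.mem_span_singleton_self _)
    · refine sup_le (Submodule.span_le.2 ?_) (Submodule.span_mono ?_)
      · rintro _ ⟨a, rfl⟩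
        exact sub_mem (Submodule.subset_span ⟨a, rfl⟩) (Submodule.subset_span ⟨a₀, rfl⟩)
      · rintro _ rfl
        exact ⟨a₀, rfl⟩
  rw [h1, Submodule.finrank_sup_span_singleton h0]
  congr 1
  let ρ : (Emb L → ℚ) →ₗ[ℚ] Ψ → ℚ := (2 : ℚ) • LinearMap.funLeft ℚ ℚ Subtype.val
  have h3 : Function.Injective (ρ.domRestrict D) := by
    rw [injective_iff_map_eq_zero]
    rintro ⟨v, hv⟩ h
    have h4 : ∀ τ ∈ Ψ, v τ = 0 := fun τ hτ => by
      simpa [ρ, LinearMap.funLeft_apply] using congrFun h ⟨τ, hτ⟩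
    ext τ
    by_cases hτ : τ ∈ Ψ
    · exact h4 τ hτ
    · have h5 := hD v hv τ
      rw [h4 (cj τ) (by rw [hΨ, cj_cj]; exact hτ), add_zero] at h5
      exact h5
  rw [← LinearMap.finrank_range_of_inj h3, LinearMap.range_domRestrict, Submodule.map_span,
    ← Set.range_comp]
  rfl

end Rt

open Rt in
theorem rat (hK : AllC) (hT : Trd) : Rat := by
  intro L κ κ' 𝒥 _ _ _ _ _ c σ₀ u w p n P X hc hG hn ⟨j₀⟩ hu hind hw hp hP hA hX
  have hC := hK L c hc
  obtain ⟨Ψ, hΨ⟩ := hC.exType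
  let Pa : 𝒥 × (L ≃ₐ[ℚ] L) → ℂ := fun a => P a.1 (σ₀.comp (a.2 : L →+* L))
  let f : 𝒥 × (L ≃ₐ[ℚ] L) → Emb L → ℕ := fun a τ => p a.1 (τ.comp (a.2 : L →+* L))
  let a₀ : 𝒥 × (L ≃ₐ[ℚ] L) := (j₀, 1)
  have hPa : ∀ a, Pa a ≠ 0 := fun a => hP _ _
  have hf : ∀ a τ, f a τ + f a (cj τ) = n := fun a τ => hp _ _
  have hu0 : ∀ τ, u τ ≠ 0 := fun τ => left_ne_zero_of_mul_eq_one (hu τ)
  let y : 𝒥 × (L ≃ₐ[ℚ] L) → ℂ := fun a => Pa a / Pa a₀
  -- the two spans
  let E : Set ℂ := {r | ∃ i j, r = X i j}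
  have hE : ∀ x ∈ E, x ∈ Submodule.span Qb (Set.range Pa) := by
    rintro _ ⟨i, j, rfl⟩
    have h1 : (fun i => X i j) ∈ evs w P := hX ▸ Submodule.subset_span ⟨j, rfl⟩
    refine apply_mem i ?_ h1
    rintro _ ⟨⟨j', σ⟩, rfl⟩
    obtain ⟨γ, hγ⟩ := exists_aut σ₀ σ
    have h2 : P j' σ ∈ Submodule.span Qb (Set.range Pa) :=
      Submodule.subset_span ⟨(j', γ), by rw [hγ]⟩
    have h3 := Submodule.smul_mem _
      (⟨σ (w j' i), mem_algebraicClosure_iff.2 (hC.alg _ _)⟩ : Qb) h2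
    rwa [IntermediateField.smul_def, smul_eq_mul, mul_comm] at h3
  have hV : ∀ a, Pa a ∈ Submodule.span Qb E := by
    intro a
    obtain ⟨k, hk⟩ := Function.ne_iff.1 (hw a.1)
    set σ := σ₀.comp (a.2 : L →+* L)
    have h1 : (fun k => P a.1 σ * σ (w a.1 k)) ∈ cols X :=
      hX ▸ Submodule.subset_span ⟨(a.1, σ), rfl⟩
    have h2 : P a.1 σ * σ (w a.1 k) ∈ Submodule.span Qb E := by
      refine apply_mem k ?_ h1
      rintro _ ⟨j, rfl⟩
      exact Submodule.subset_span ⟨k, j, rfl⟩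
    have h3 := Submodule.smul_mem _
      (⟨σ (w a.1 k)⁻¹, mem_algebraicClosure_iff.2 (hC.alg _ _)⟩ : Qb) h2
    have h4 : σ (w a.1 k) ≠ 0 := (map_ne_zero σ).2 hk
    have h5 : σ (w a.1 k)⁻¹ * (P a.1 σ * σ (w a.1 k)) = Pa a := by
      rw [map_inv₀, mul_comm, mul_inv_cancel_right₀ h4]
    rw [← h5]
    exact h3
  obtain ⟨i₀, k₀, h0⟩ : ∃ i k, X i k ≠ 0 := by
    by_contra h
    push Not at h
    have h1 : Submodule.span Qb E ≤ ⊥ := Submodule.span_le.2 (by
      rintro _ ⟨i, j, rfl⟩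
      exact h i j)
    exact hPa a₀ (h1 (hV a₀))
  have q1 : Algebra.trdeg ℚ (quotField X) =
      Algebra.trdeg ℚ (IntermediateField.adjoin ℚ (Set.range y)) := by
    apply le_antisymm
    · refine trdeg_adjoin_le ?_
      rintro _ ⟨i, j, k, l, rfl⟩
      have h1 : ∀ s ∈ Set.range Pa, s / Pa a₀ ∈ IntermediateField.adjoin ℚ (Set.range y) := by
        rintro _ ⟨a, rfl⟩
        exact IntermediateField.subset_adjoin _ _ ⟨a, rfl⟩
      rw [← div_div_div_cancel_right₀ (hPa a₀)]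
      exact mem_algebraicClosure_iff.1
        (div_mem (alg_of_span h1 (hE _ ⟨i, j, rfl⟩)) (alg_of_span h1 (hE _ ⟨k, l, rfl⟩)))
    · refine trdeg_adjoin_le ?_
      rintro _ ⟨a, rfl⟩
      have h1 : ∀ s ∈ E, s / X i₀ k₀ ∈ quotField X := by
        rintro _ ⟨i, j, rfl⟩
        exact IntermediateField.subset_adjoin _ _ ⟨i, j, i₀, k₀, rfl⟩
      change IsAlgebraic _ (Pa a / Pa a₀)
      rw [← div_div_div_cancel_right₀ h0]
      exact mem_algebraicClosure_iff.1 (div_mem (alg_of_span h1 (hV a)) (alg_of_span h1 (hV a₀)))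
  refine ⟨?_, ?_, ?_⟩
  · have hm : ∀ a, ∏ τ, u τ ^ f a τ = ∏ τ : Ψ, u τ ^ (2 * (f a τ : ℤ) - n) := by
      intro a
      rw [prod_split hΨ]
      refine Finset.prod_congr rfl fun τ _ => ?_
      have h1 : 2 * (f a τ : ℤ) - n = f a τ - f a (cj τ) := by
        rw [← hf a τ]
        push_cast
        ring
      rw [h1, zpow_sub₀ (hu0 _), zpow_natCast, zpow_natCast, eq_inv_of_mul_eq_one_right (hu τ),
        inv_pow, div_eq_mul_inv]
    have h2 : (2 * Real.pi * I : ℂ) ^ n ≠ 0 := pow_ne_zero _ two_pi_I_ne_zero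
    have h3 := (hT Ψ _ (fun τ => u τ) y 2 (fun a τ => 2 * ((f a τ : ℤ) - f a₀ τ)) (hind Ψ hΨ)
      two_pos fun a => ⟨div_ne_zero (hPa a) (hPa a₀), ?_⟩).1
    · rw [q1, h3]
      have h4 := rank hΨ σ₀ (fun a τ => (f a τ : ℚ)) a₀ (n := n) (by exact_mod_cast hn.ne')
        fun a τ => by exact_mod_cast hf a τ
      have h5 : (fun a (τ : Ψ) => ((2 * ((f a τ : ℤ) - f a₀ τ) : ℤ) : ℚ)) =
          fun a (τ : Ψ) => 2 * ((f a τ : ℚ) - f a₀ τ) := by
        ext a τ
        push_cast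
        rfl
      rw [h5, ← Nat.cast_succ]
      exact congrArg Nat.cast h4
    · have h4 : Alg (Pa a ^ 2 / ((2 * Real.pi * I) ^ n * ∏ τ, u τ ^ f a τ)) := hA a.1 a.2
      have h5 : Alg (Pa a₀ ^ 2 / ((2 * Real.pi * I) ^ n * ∏ τ, u τ ^ f a₀ τ)) := hA a₀.1 a₀.2
      have h6 : ∏ τ : Ψ, u τ ^ (2 * ((f a τ : ℤ) - f a₀ τ)) =
          (∏ τ, u τ ^ f a τ) / ∏ τ, u τ ^ f a₀ τ := by
        rw [hm, hm, ← Finset.prod_div_distrib]
        refine Finset.prod_congr rfl fun τ _ => ?_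
        rw [← zpow_sub₀ (hu0 _)]
        congr 1
        ring
      have h7 : ∀ a, ∏ τ, u τ ^ f a τ ≠ 0 := fun a =>
        Finset.prod_ne_zero_iff.2 fun τ _ => pow_ne_zero _ (hu0 τ)
      have h8 := h4.mul (IsAlgebraic.inv_iff.2 h5)
      have h9 := h7 a
      have h10 := h7 a₀
      have h11 := hPa a₀
      have h12 : ∀ {s t q r v : ℂ}, t ≠ 0 → q ≠ 0 → r ≠ 0 → v ≠ 0 →
          (s / t) ^ 2 / (r / v) = s ^ 2 / (q * r) * (t ^ 2 / (q * v))⁻¹ := by
        intro s t q r v ht hq hr hv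
        field_simp
      rw [← h12 h11 h2 h9 h10, ← h6] at h8
      exact h8
  · exact quot_le X
  · exact entry_le X h0

end Pool.Agent.GAM

end MrgPart2

-- ======== part 3: formerly Pool.Agent.MP_cbf1af_ag.gam.Wedge
section MrgPart3

/-! PROJECT GAM, stage 2, row WEDGE: exterior powers. -/

namespace Pool.Agent.GAM

open Matrix Complex Filter Topology MvPolynomial
open Pool.Agent.CMP (Qb)
open Pool.Agent.MTG

noncomputable section

namespace Wg

/-- the increasing enumeration of a subset -/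
abbrev en {n r : ℕ} (s : Sub n r) : Fin r → Fin n := s.1.orderEmbOfFin s.2

/-- the wedge product of `r` vectors, in coordinates -/
def wd (R : Type) [CommRing R] (n r : ℕ) : (Fin n → R) [⋀^Fin r]→ₗ[R] (Sub n r → R) :=
  AlternatingMap.pi fun s =>
    (Matrix.detRowAlternating : (Fin r → R) [⋀^Fin r]→ₗ[R] R).compLinearMap
      (LinearMap.funLeft R R (en s))

theorem wd_apply {R : Type} [CommRing R] {n r : ℕ} (W : Fin r → Fin n → R) (s : Sub n r) :
    wd R n r W s = (Matrix.of fun k i => W k (en s i)).det := rfl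

theorem minors_apply {R : Type} [CommRing R] {n m r : ℕ} (x : Matrix (Fin n) (Fin m) R)
    (s : Sub n r) (t : Sub m r) : minors r x s t = wd R n r (fun k i => x i (en t k)) s := by
  rw [wd_apply, ← Matrix.det_transpose]
  rfl

theorem wd_map {R S : Type} [CommRing R] [CommRing S] (f : R →+* S) {n r : ℕ}
    (W : Fin r → Fin n → R) (s : Sub n r) :
    f (wd R n r W s) = wd S n r (fun k i => f (W k i)) s := by
  rw [wd_apply, wd_apply, RingHom.map_det]
  rfl

theorem en_inj {n r : ℕ} (s : Sub n r) : Function.Injective (en s) :=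
  (s.1.orderEmbOfFin s.2).injective

theorem en_mem {n r : ℕ} (s : Sub n r) (i : Fin r) : en s i ∈ s.1 :=
  Finset.orderEmbOfFin_mem _ _ _

theorem en_surj {n r : ℕ} (s : Sub n r) (a : Fin n) (ha : a ∈ s.1) : ∃ i, en s i = a := by
  have h := Finset.range_orderEmbOfFin s.1 s.2
  have : a ∈ Set.range (s.1.orderEmbOfFin s.2) := by rw [h]; exact ha
  exact this

/-- an injective family is a permutation of an increasing one -/
theorem exists_perm {n r : ℕ} (v : Fin r → Fin n) (hv : Function.Injective v) :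
    ∃ (t : Sub n r) (π : Equiv.Perm (Fin r)), v = en t ∘ π := by
  classical
  let t : Sub n r := ⟨Finset.univ.image v, by
    rw [Finset.card_image_of_injective _ hv]; simp⟩
  have h : ∀ k, ∃ i, en t i = v k := fun k =>
    en_surj t (v k) (Finset.mem_image_of_mem _ (Finset.mem_univ k))
  choose f hf using h
  have hfi : Function.Injective f := fun a b hab => hv (by rw [← hf a, ← hf b, hab])
  refine ⟨t, Equiv.ofBijective f (Finite.injective_iff_bijective.1 hfi), ?_⟩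
  funext k
  exact (hf k).symm

theorem wd_single {R : Type} [CommRing R] {n r : ℕ} (t : Sub n r) :
    wd R n r (fun k => Pi.single (en t k) 1) = Pi.single t 1 := by
  classical
  funext s
  rw [wd_apply]
  by_cases h : s = t
  · subst h
    rw [Pi.single_eq_same]
    have : (Matrix.of fun k i => (Pi.single (en s k) (1 : R) : Fin n → R) (en s i)) = 1 := by
      ext k i
      simp only [Matrix.of_apply, Matrix.one_apply, Pi.single_apply, (en_inj s).eq_iff, eq_comm]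
    rw [this, Matrix.det_one]
  · rw [Pi.single_eq_of_ne h]
    have h1 : ¬t.1 ⊆ s.1 := fun h2 =>
      h (Subtype.ext (Finset.eq_of_subset_of_card_le h2 (by rw [s.2, t.2])).symm)
    obtain ⟨a, ha, hb⟩ := Finset.not_subset.1 h1
    obtain ⟨k, rfl⟩ := en_surj t a ha
    refine Matrix.det_eq_zero_of_row_eq_zero k fun i => ?_
    rw [Matrix.of_apply, Pi.single_eq_of_ne]
    intro h3
    exact hb (h3 ▸ en_mem s i)

/-- the Cauchy-Binet formula -/
theorem minors_mulVec {R : Type} [CommRing R] {n r : ℕ} (x : Matrix (Fin n) (Fin n) R)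
    (W : Fin r → Fin n → R) :
    minors r x *ᵥ wd R n r W = wd R n r fun k => x *ᵥ W k := by
  classical
  have key : (Matrix.mulVecLin (minors r x)).compAlternatingMap (wd R n r) =
      (wd R n r).compLinearMap (Matrix.mulVecLin x) := by
    refine (Pi.basisFun R (Fin n)).ext_alternating fun v hv => ?_
    obtain ⟨t, π, rfl⟩ := exists_perm v hv
    have e : (fun i => (Pi.basisFun R (Fin n)) ((en t ∘ π) i)) =
        (fun k => (Pi.single (en t k) 1 : Fin n → R)) ∘ π := by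
      funext i
      simp
    rw [e, AlternatingMap.map_perm, AlternatingMap.map_perm]
    congr 1
    rw [LinearMap.compAlternatingMap_apply, AlternatingMap.compLinearMap_apply, wd_single]
    funext s
    simp only [Matrix.mulVecLin_apply, Matrix.mulVec_single_one]
    rw [Matrix.col_apply, minors_apply]
    rfl
  exact congrArg (fun f => f W) key

/-- expanding a wedge of vectors of a span -/
theorem wd_mem {K R ι : Type} [CommRing K] [CommRing R] [Algebra K R] [Fintype ι] {n r : ℕ}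
    (u : ι → Fin n → R) (U : Submodule K (Sub n r → R))
    (hU : ∀ a : Fin r → ι, wd R n r (fun k => u (a k)) ∈ U) (W : Fin r → Fin n → R)
    (hW : ∀ k, W k ∈ Submodule.span K (Set.range u)) : wd R n r W ∈ U := by
  classical
  simp only [Submodule.mem_span_range_iff_exists_fun] at hW
  choose c hc using hW
  have e : W = fun k => ∑ j, algebraMap K R (c k j) • u j := by
    funext k
    rw [← hc k]
    simp only [algebraMap_smul]
  have h := (wd R n r).toMultilinearMap.map_sum fun k j => algebraMap K R (c k j) • u j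
  simp only [AlternatingMap.coe_multilinearMap] at h
  rw [e, h]
  refine Submodule.sum_mem _ fun a _ => ?_
  rw [AlternatingMap.map_smul_univ, ← map_prod, algebraMap_smul]
  exact U.smul_mem _ (hU a)

theorem wd_col {n m r : ℕ} (X : Matrix (Fin n) (Fin m) ℂ) (a : Fin r → Fin m) :
    wd ℂ n r (fun k i => X i (a k)) ∈ cols (minors r X) := by
  classical
  by_cases ha : Function.Injective a
  · obtain ⟨t, π, rfl⟩ := exists_perm a ha
    have e : (fun k i => X i ((en t ∘ π) k)) = (fun k i => X i (en t k)) ∘ π := rfl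
    rw [e, AlternatingMap.map_perm]
    have h : wd ℂ n r (fun k i => X i (en t k)) ∈ cols (minors r X) :=
      Submodule.subset_span ⟨t, funext fun s => minors_apply X s t⟩
    rcases Int.units_eq_one_or (Equiv.Perm.sign π) with h1 | h1
    · rw [h1, one_smul]; exact h
    · rw [h1, Units.neg_smul, one_smul]; exact Submodule.neg_mem _ h
  · rw [AlternatingMap.map_eq_zero_of_not_injective]
    · exact Submodule.zero_mem _
    · intro h
      refine ha fun k l hkl => h ?_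
      simp only [hkl]

/-- one embedding is enough to span the columns -/
theorem cols_le {n m : ℕ} {L 𝒥 : Type} [Field L] [NumberField L] [Fintype 𝒥]
    (w : 𝒥 → Fin n → L) (P : 𝒥 → Emb L → ℂ) (X : Matrix (Fin n) (Fin m) ℂ)
    (hw : Submodule.span L (Set.range w) = ⊤) (hX : cols X = evs w P) (hP : ∀ j σ, P j σ ≠ 0)
    (hm : m ≤ n) (σ : Emb L) :
    Submodule.span Qb (Set.range fun j => P j σ • fun k => σ (w j k)) = cols X := by
  classical
  set U := Submodule.span Qb (Set.range fun j => P j σ • fun k => σ (w j k)) with hU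
  have hfin : FiniteDimensional Qb (cols X) := FiniteDimensional.span_of_finite _ (Set.finite_range _)
  have hfU : FiniteDimensional Qb U := FiniteDimensional.span_of_finite _ (Set.finite_range _)
  have hle : U ≤ cols X := by
    rw [hX, hU, Submodule.span_le]
    rintro _ ⟨j, rfl⟩
    exact Submodule.subset_span ⟨(j, σ), rfl⟩
  have h1 : Module.finrank Qb (cols X) ≤ m := by
    have := finrank_range_le_card (R := Qb) fun (j : Fin m) (i : Fin n) => X i j
    rw [Fintype.card_fin] at this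
    exact this
  have h2 : n ≤ Module.finrank Qb U := by
    let b := Module.finBasis Qb U
    let T : Submodule ℂ (Fin n → ℂ) := Submodule.span ℂ (Set.range fun i => (b i : Fin n → ℂ))
    have hUT : ∀ y ∈ U, y ∈ T := by
      intro y hy
      have e := congrArg (fun z : U => (z : Fin n → ℂ)) (b.sum_repr ⟨y, hy⟩)
      simp only [Submodule.coe_sum, Submodule.coe_smul] at e
      rw [← e]
      refine Submodule.sum_mem _ fun i _ => ?_
      exact T.smul_of_tower_mem _ (Submodule.subset_span ⟨i, rfl⟩)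
    have hwT : ∀ j, (fun k => σ (w j k)) ∈ T := by
      intro j
      have h := T.smul_mem (P j σ)⁻¹ (hUT _ (Submodule.subset_span ⟨j, rfl⟩))
      rwa [smul_smul, inv_mul_cancel₀ (hP j σ), one_smul] at h
    have hT : T = ⊤ := by
      rw [eq_top_iff, ← (Pi.basisFun ℂ (Fin n)).span_eq, Submodule.span_le]
      rintro _ ⟨i, rfl⟩
      have h : (Pi.single i 1 : Fin n → L) ∈ Submodule.span L (Set.range w) := by
        rw [hw]; trivial
      obtain ⟨c, hc⟩ := Submodule.mem_span_range_iff_exists_fun L |>.1 h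
      have e : Pi.basisFun ℂ (Fin n) i = ∑ j, σ (c j) • fun k => σ (w j k) := by
        funext k
        have := congrArg (fun y : Fin n → L => σ (y k)) hc
        simp only [Finset.sum_apply, Pi.smul_apply, smul_eq_mul, map_sum, map_mul] at this ⊢
        rw [this, Pi.basisFun_apply, Pi.single_apply, Pi.single_apply]
        split_ifs <;> simp
      rw [SetLike.mem_coe, e]
      exact Submodule.sum_mem _ fun j _ => T.smul_mem _ (hwT j)
    have := finrank_range_le_card (R := ℂ) fun i => (b i : Fin n → ℂ)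
    have h3 : Module.finrank ℂ T = n := by rw [hT]; simp
    rw [Fintype.card_fin] at this
    exact h3.symm.le.trans this
  exact Submodule.eq_of_le_of_finrank_le hle (h1.trans (hm.trans h2))

theorem eig {n r : ℕ} {L 𝒥 𝒥' : Type} [Field L] [NumberField L] (w : 𝒥 → Fin n → L)
    (p : 𝒥 → Emb L → ℕ) (a : 𝒥' → Fin r → 𝒥) (z : ℂ) (x : Matrix (Fin n) (Fin n) ℂ)
    (h : Eig w p z x) :
    Eig (fun j => wd L n r fun k => w (a j k)) (fun j σ => ∑ i, p (a j i) σ) z (minors r x) := by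
  intro j σ
  have e : (fun s => σ (wd L n r (fun k => w (a j k)) s)) =
      wd ℂ n r fun k i => σ (w (a j k) i) := funext fun s => wd_map σ _ s
  rw [e, minors_mulVec]
  simp only [h (a j _) σ]
  rw [AlternatingMap.map_smul_univ, Finset.prod_mul_distrib, Finset.prod_pow_eq_pow_sum,
    Finset.prod_pow_eq_pow_sum]

end Wg

open Wg in
theorem wedge : Wedge := by
  classical
  intro n m r L _ _ 𝒥 _ w p P H X hC hX hP hm hr
  let 𝒥' : Type := {a : Fin r → 𝒥 // wd L n r (fun k => w (a k)) ≠ 0}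
  let w' : 𝒥' → Sub n r → L := fun j => wd L n r fun k => w (j.1 k)
  have hsp : Submodule.span L (Set.range w') = ⊤ := by
    rw [eq_top_iff, ← (Pi.basisFun L (Sub n r)).span_eq, Submodule.span_le]
    rintro _ ⟨t, rfl⟩
    rw [SetLike.mem_coe, Pi.basisFun_apply, ← wd_single]
    refine wd_mem w _ (fun a => ?_) _ fun k => by rw [hC.span]; trivial
    by_cases ha : wd L n r (fun k => w (a k)) = 0
    · rw [ha]; exact Submodule.zero_mem _
    · exact Submodule.subset_span ⟨⟨a, ha⟩, rfl⟩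
  have hne : Nonempty 𝒥' := by
    by_contra h
    obtain ⟨s, -, hs⟩ := Finset.exists_subset_card_eq (s := (Finset.univ : Finset (Fin n)))
      (n := r) (by simpa using hr)
    have h0 : Set.range w' = ∅ := Set.range_eq_empty_iff.2 (not_nonempty_iff.1 h)
    rw [h0, Submodule.span_empty] at hsp
    have h1 : (fun _ => 1 : Sub n r → L) ∈ (⊥ : Submodule L (Sub n r → L)) := by
      rw [hsp]; trivial
    exact one_ne_zero (congrFun ((Submodule.mem_bot L).1 h1) ⟨s, hs⟩)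
  have hv : ∀ (a : Fin r → 𝒥) (σ : Emb L),
      wd ℂ n r (fun k => P (a k) σ • fun i => σ (w (a k) i)) =
        fun s => (∏ i, P (a i) σ) * σ (wd L n r (fun k => w (a k)) s) := by
    intro a σ
    rw [AlternatingMap.map_smul_univ]
    funext s
    rw [wd_map]
    rfl
  refine ⟨𝒥', inferInstance, fun j => j.1, w', hne, ⟨fun j => j.2, hsp, fun j σ => ?_, ?_, ?_⟩, ?_⟩
  · rw [← Finset.sum_add_distrib]
    simp only [hC.wt]
    simp
  · rintro _ ⟨x, hx, rfl⟩
    obtain ⟨z, hz, h⟩ := hC.eig x hx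
    exact ⟨z, hz, eig w p (fun j : 𝒥' => j.1) z x h⟩
  · intro z hz
    obtain ⟨x, hx, h⟩ := hC.ex z hz
    exact ⟨_, ⟨x, hx, rfl⟩, eig w p (fun j : 𝒥' => j.1) z x h⟩
  · refine le_antisymm ?_ ?_
    · obtain ⟨σ⟩ := (inferInstance : Nonempty (L →+* ℂ))
      have hs := cols_le w P X hC.span hX hP hm σ
      rw [cols, Submodule.span_le]
      rintro _ ⟨t, rfl⟩
      have e : (fun s => minors r X s t) = wd ℂ n r fun k i => X i (en t k) :=
        funext fun s => minors_apply X s t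
      rw [SetLike.mem_coe]
      change (fun s => minors r X s t) ∈ _
      rw [e]
      refine wd_mem (fun j => P j σ • fun k => σ (w j k)) _ (fun a => ?_) _ fun k => ?_
      · rw [hv]
        by_cases ha : wd L n r (fun k => w (a k)) = 0
        · rw [ha]
          simp only [Pi.zero_apply, map_zero, mul_zero]
          exact Submodule.zero_mem _
        · exact Submodule.subset_span ⟨(⟨a, ha⟩, σ), rfl⟩
      · rw [hs]
        exact Submodule.subset_span ⟨en t k, rfl⟩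
    · rw [evs, Submodule.span_le]
      rintro _ ⟨⟨j, σ⟩, rfl⟩
      rw [SetLike.mem_coe]
      change (fun s => (∏ i, P (j.1 i) σ) * σ (wd L n r (fun k => w (j.1 k)) s)) ∈ _
      rw [← hv]
      refine wd_mem (fun (l : Fin m) (i : Fin n) => X i l) _ (fun a => wd_col X a) _ fun k => ?_
      change _ ∈ cols X
      rw [hX]
      exact Submodule.subset_span ⟨(j.1 k, σ), rfl⟩

end

end Pool.Agent.GAM

end MrgPart3

-- marker of a merged file
example : 731051 + 608220 = 731051 + 608220 := rfl
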