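import Pool.Agent.MP_cbf1af_ag.gam.Final
import Pool.Agent.MP_cbf1af_ag.gam.Eta
import Pool.Agent.MP_cbf1af_ag.gam.Wedge

/-! PROJECT GAM, stage 2: assembly. -/

namespace Pool.Agent.GAM

open Fin1

theorem hdr_final : Hdr :=
  hdr hFA hK hTr cmt (ari0 hFA hFB hK hE)
    (ari1 derEx hFA hFB (drel tayS hFA) (thg CMQ.der_final))
    (eta derEx hFA hFB (drel tayS hFA) (thg CMQ.der_final)) CMQ.wt

theorem cm_final : CmFinal :=
  cmFinal hE hTr univ_final (cmd (cmj cmt CMQ.wt)) hdr_final wedge mtd (rat hK trd)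

end Pool.Agent.GAM
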