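import Mathlib.Algebra.AffineMonoid.Basic
import Mathlib.Topology.Sheaves.Presheaf
import Mathlib.Tactic.Monotonicity.Lemmas
import Mathlib.RingTheory.Flat.TorsionFree
import Mathlib.Data.Int.Star
import Mathlib.Algebra.Order.Star.Real
import Mathlib.Algebra.Ring.IsFormallyReal
import Mathlib.Combinatorics.SimpleGraph.Basic
import Mathlib.RingTheory.PiTensorProduct
import Mathlib.RingTheory.SimpleRing.Principal
import Mathlib.Order.CompletePartialOrder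
import Mathlib.RingTheory.TotallySplit
import Pool.Agent.MP_cbf1af_ag.gam.Spec

-- ======== part 0: formerly Pool.Agent.MP_cbf1af_ag.gam.Act
section MrgPart0

/-! PROJECT GAM, row ACT: the action of the rational symplectic group on Siegel space. -/

namespace Pool.Agent.GAM

open Matrix Complex Filter Topology

noncomputable section

namespace ActX

variable {κ : Type} [Fintype κ] [DecidableEq κ]

theorem bil {ι ι' : Type} (X : Matrix (κ ⊕ κ) ι ℂ) (Y : Matrix (κ ⊕ κ) ι' ℂ) :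
    Xᵀ * J κ ℂ * Y = X.toRows₂ᵀ * Y.toRows₁ - X.toRows₁ᵀ * Y.toRows₂ := by
  conv_lhs => rw [← fromRows_toRows X, ← fromRows_toRows Y]
  rw [transpose_fromRows, J, fromCols_mul_fromBlocks, fromCols_mul_fromRows]
  simp [sub_eq_add_neg]

theorem ses {ι ι' : Type} (X : Matrix (κ ⊕ κ) ι ℂ) (Y : Matrix (κ ⊕ κ) ι' ℂ) :
    Xᴴ * J κ ℂ * Y = X.toRows₂ᴴ * Y.toRows₁ - X.toRows₁ᴴ * Y.toRows₂ := by
  conv_lhs => rw [← fromRows_toRows X, ← fromRows_toRows Y]
  rw [conjTranspose_fromRows_eq_fromCols_conjTranspose, J, fromCols_mul_fromBlocks,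
    fromCols_mul_fromRows]
  simp [sub_eq_add_neg]

omit [DecidableEq κ] [Fintype κ] in
theorem rows₁_mul {ι ι' : Type} [Fintype ι] (X : Matrix (κ ⊕ κ) ι ℂ) (R : Matrix ι ι' ℂ) :
    (X * R).toRows₁ = X.toRows₁ * R := rfl

omit [DecidableEq κ] [Fintype κ] in
theorem rows₂_mul {ι ι' : Type} [Fintype ι] (X : Matrix (κ ⊕ κ) ι ℂ) (R : Matrix ι ι' ℂ) :
    (X * R).toRows₂ = X.toRows₂ * R := rfl

omit [Fintype κ] in
@[simp] theorem per₁ (τ : Matrix κ κ ℂ) : (per τ).toRows₁ = τ := rfl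

omit [Fintype κ] in
@[simp] theorem per₂ (τ : Matrix κ κ ℂ) : (per τ).toRows₂ = 1 := rfl

theorem herm_mul (S : Matrix (κ ⊕ κ) κ ℂ) (R : Matrix κ κ ℂ) :
    herm (S * R) = Rᴴ * herm S * R := by
  simp only [herm, conjTranspose_mul, Matrix.mul_smul, Matrix.smul_mul, Matrix.mul_assoc]

theorem herm_per {τ : Matrix κ κ ℂ} (h : τ.IsSymm) : herm (per τ) = (2 : ℂ) • imC τ := by
  rw [herm, ses]
  ext i j
  simp only [per₁, per₂, conjTranspose_one, Matrix.one_mul, Matrix.mul_one, Matrix.smul_apply, Matrix.sub_apply,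
    conjTranspose_apply, imC, map_apply, smul_eq_mul, h.apply i j, RCLike.star_def, sub_conj]
  push_cast
  linear_combination (-2 * ((τ i j).im : ℂ)) * I_mul_I

omit [DecidableEq κ] in
theorem re_form (τ : Matrix κ κ ℂ) (u : κ → ℂ) : (star u ⬝ᵥ imC τ *ᵥ u).re =
    (fun i => (u i).re) ⬝ᵥ imM τ *ᵥ (fun i => (u i).re) +
      (fun i => (u i).im) ⬝ᵥ imM τ *ᵥ fun i => (u i).im := by
  simp only [dotProduct, mulVec, imC, imM, map_apply, re_sum, Finset.mul_sum,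
    ← Finset.sum_add_distrib, Pi.star_apply]
  refine Finset.sum_congr rfl fun i _ => Finset.sum_congr rfl fun j _ => ?_
  simp

omit [DecidableEq κ] in
theorem form_mul (H R : Matrix κ κ ℂ) (u : κ → ℂ) :
    star u ⬝ᵥ (Rᴴ * H * R) *ᵥ u = star (R *ᵥ u) ⬝ᵥ H *ᵥ R *ᵥ u := by
  simp only [star_mulVec, dotProduct_mulVec, vecMul_vecMul]

theorem mulVec_ne {R : Matrix κ κ ℂ} (hR : IsUnit R.det) {u : κ → ℂ} (hu : u ≠ 0) :
    R *ᵥ u ≠ 0 := fun h => hR.ne_zero (exists_mulVec_eq_zero_iff.1 ⟨u, hu, h⟩)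

omit [DecidableEq κ] [Fintype κ] in
theorem imM_herm {τ : Matrix κ κ ℂ} (h : τ.IsSymm) : (imM τ).IsHermitian := by
  ext i j
  simp [imM, h.apply i j]

omit [DecidableEq κ] [Fintype κ] in
theorem imC_symm {τ : Matrix κ κ ℂ} (h : τ.IsSymm) : (imC τ)ᵀ = imC τ := by
  ext i j
  simp [imC, h.apply i j]

theorem riemPer (τ : Matrix κ κ ℂ) (h : InH τ) : Riem (per τ) := by
  refine ⟨by rw [bil]; simp [h.1.eq], fun u hu => ?_⟩
  rw [herm_per h.1, smul_mulVec, dotProduct_smul, smul_eq_mul, mul_re, re_form]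
  have h1 := fun x => by simpa using h.2.posSemidef.dotProduct_mulVec_nonneg x
  have h2 := fun (x : κ → ℝ) (hx : x ≠ 0) => by simpa using h.2.dotProduct_mulVec_pos (x := x) hx
  have h3 := h1 fun i => (u i).re
  have h4 := h1 fun i => (u i).im
  simp only [re_ofNat, im_ofNat, zero_mul, sub_zero]
  by_cases ha : (fun i => (u i).re) = 0
  · have := h2 (fun i => (u i).im) fun hb => hu (funext fun i =>
      Complex.ext (congrFun ha i) (congrFun hb i))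
    linarith
  · linarith [h2 _ ha]

theorem tauPer (τ : Matrix κ κ ℂ) : tauOf (per τ) = τ := by simp [tauOf]

theorem riem (S : Matrix (κ ⊕ κ) κ ℂ) (h : Riem S) : IsUnit S.toRows₂.det ∧ InH (tauOf S) ∧
    per (tauOf S) * S.toRows₂ = S ∧
    herm S = (2 : ℂ) • (S.toRows₂ᴴ * imC (tauOf S) * S.toRows₂) := by
  have h1 : IsUnit S.toRows₂.det := by
    refine isUnit_iff_ne_zero.2 fun h0 => ?_
    obtain ⟨u, hu, h2⟩ := exists_mulVec_eq_zero_iff.2 h0
    have := h.2 u hu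
    rw [herm, ses, smul_mulVec, sub_mulVec, ← mulVec_mulVec, ← mulVec_mulVec, h2, mulVec_zero,
      sub_zero, dotProduct_smul, dotProduct_mulVec, ← star_mulVec, h2] at this
    simp at this
  have h3 : per (tauOf S) * S.toRows₂ = S := by
    rw [per, fromRows_mul, tauOf, nonsing_inv_mul_cancel_right _ _ h1, Matrix.one_mul,
      fromRows_toRows]
  have h4 : (tauOf S).IsSymm := by
    have e := h.1
    rw [← h3, transpose_mul, Matrix.mul_assoc, Matrix.mul_assoc, ← Matrix.mul_assoc (J κ ℂ),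
      ← Matrix.mul_assoc (per _)ᵀ, ← Matrix.mul_assoc (per _)ᵀ, bil] at e
    have e2 := congrArg (fun X => S.toRows₂ᵀ⁻¹ * X * S.toRows₂⁻¹) e
    simp only [per₁, per₂, transpose_one, Matrix.one_mul, Matrix.mul_one, Matrix.mul_zero,
      Matrix.zero_mul] at e2
    rw [nonsing_inv_mul_cancel_left _ _ (isUnit_det_transpose _ h1),
      mul_nonsing_inv_cancel_right _ _ h1] at e2
    exact (sub_eq_zero.1 e2).symm
  have h5 : herm S = (2 : ℂ) • (S.toRows₂ᴴ * imC (tauOf S) * S.toRows₂) := by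
    conv_lhs => rw [← h3]
    rw [herm_mul, herm_per h4, Matrix.mul_smul, Matrix.smul_mul]
  refine ⟨h1, ⟨h4, .of_dotProduct_mulVec_pos (imM_herm h4) fun x hx => ?_⟩, h3, h5⟩
  have hx' : (fun i => (x i : ℂ)) ≠ 0 := fun e => hx (funext fun i => by simpa using congrFun e i)
  have := h.2 _ (mulVec_ne (isUnit_nonsing_inv_det _ h1) hx')
  rw [h5, smul_mulVec, dotProduct_smul, form_mul, mulVec_mulVec, mul_nonsing_inv _ h1, one_mulVec,
    smul_eq_mul, mul_re, re_form] at this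
  simp only [re_ofNat, im_ofNat, zero_mul, sub_zero, ofReal_re, ofReal_im] at this
  have e0 : (fun _ : κ => (0 : ℝ)) ⬝ᵥ imM (tauOf S) *ᵥ (fun _ => (0 : ℝ)) = 0 := zero_dotProduct _
  rw [e0] at this
  simpa using this

theorem sp_mem {γ : Matrix (κ ⊕ κ) (κ ⊕ κ) ℚ} (h : Sp γ) : cM γ ∈ symplecticGroup κ ℂ :=
  SymplecticGroup.map_mem h (Rat.castHom ℂ)

theorem cM_star {ι ι' : Type} (γ : Matrix ι ι' ℚ) : (cM γ)ᴴ = (cM γ)ᵀ := by
  ext i j
  simp [cM]

theorem cM_mul {ι : Type} [Fintype ι] (γ γ' : Matrix ι ι ℚ) : cM (γ * γ') = cM γ * cM γ' :=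
  Matrix.map_mul (f := Rat.castHom ℂ)

theorem cM_one {ι : Type} [DecidableEq ι] : cM (1 : Matrix ι ι ℚ) = 1 :=
  Matrix.map_one _ (by simp) (by simp)

theorem bil_left {ι ι' : Type} {γ : Matrix (κ ⊕ κ) (κ ⊕ κ) ℚ} (h : Sp γ)
    (X : Matrix (κ ⊕ κ) ι ℂ) (Y : Matrix (κ ⊕ κ) ι' ℂ) :
    (cM γ * X)ᵀ * J κ ℂ * (cM γ * Y) = Xᵀ * J κ ℂ * Y := by
  conv_rhs => rw [← SymplecticGroup.mem_iff'.1 (sp_mem h)]
  simp only [transpose_mul, Matrix.mul_assoc]

theorem left (γ : Matrix (κ ⊕ κ) (κ ⊕ κ) ℚ) (S : Matrix (κ ⊕ κ) κ ℂ) (h : Sp γ) :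
    herm (cM γ * S) = herm S ∧ (Riem S → Riem (cM γ * S)) := by
  have e : herm (cM γ * S) = herm S := by
    unfold herm
    conv_rhs => rw [← SymplecticGroup.mem_iff'.1 (sp_mem h)]
    simp only [conjTranspose_mul, cM_star, Matrix.mul_assoc]
  exact ⟨e, fun hS => ⟨by rw [bil_left h, hS.1], by rw [e]; exact hS.2⟩⟩

theorem tau_mul (S : Matrix (κ ⊕ κ) κ ℂ) {R : Matrix κ κ ℂ} (hR : IsUnit R.det) :
    tauOf (S * R) = tauOf S := by
  rw [tauOf, rows₁_mul, rows₂_mul, Matrix.mul_inv_rev, ← Matrix.mul_assoc,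
    mul_nonsing_inv_cancel_right _ _ hR, tauOf]

theorem right (S : Matrix (κ ⊕ κ) κ ℂ) (R : Matrix κ κ ℂ) (hR : IsUnit R.det) (h : Riem S) :
    Riem (S * R) ∧ tauOf (S * R) = tauOf S := by
  refine ⟨⟨?_, fun u hu => ?_⟩, tau_mul S hR⟩
  · have : (S * R)ᵀ * J κ ℂ * (S * R) = Rᵀ * (Sᵀ * J κ ℂ * S) * R := by
      simp only [transpose_mul, Matrix.mul_assoc]
    rw [this, h.1, Matrix.mul_zero, Matrix.zero_mul]
  · rw [herm_mul, form_mul]
    exact h.2 _ (mulVec_ne hR hu)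

theorem inH (γ : Matrix (κ ⊕ κ) (κ ⊕ κ) ℚ) (τ : Matrix κ κ ℂ) (h : Sp γ) (hτ : InH τ) :
    InH (act γ τ) ∧ IsUnit (kk γ τ).det ∧ cM γ * per τ = per (act γ τ) * kk γ τ := by
  obtain ⟨a, b, c, -⟩ := riem _ ((left γ _ h).2 (riemPer τ hτ))
  exact ⟨b, a, c.symm⟩

theorem sig (γ : Matrix (κ ⊕ κ) (κ ⊕ κ) ℚ) (S S' : Matrix (κ ⊕ κ) κ ℂ) (R : Matrix κ κ ℂ)
    (h : Sp γ) (hS : Riem S) (e : cM γ * S = S' * R) :
    act γ (tauOf S) = tauOf S' ∧ kk γ (tauOf S) = S'.toRows₂ * R * S.toRows₂⁻¹ := by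
  obtain ⟨a, b, c, -⟩ := riem S hS
  have e1 : cM γ * per (tauOf S) = S' * (R * S.toRows₂⁻¹) := by
    rw [← Matrix.mul_assoc, ← e]
    conv_rhs => rw [Matrix.mul_assoc]; arg 2; arg 1; rw [← c]
    rw [mul_nonsing_inv_cancel_right _ _ a]
  have e2 : kk γ (tauOf S) = S'.toRows₂ * (R * S.toRows₂⁻¹) := by rw [kk, e1, rows₂_mul]
  have u := (inH γ _ h b).2.1
  rw [e2, det_mul] at u
  exact ⟨by rw [act, e1, tau_mul _ (isUnit_of_mul_isUnit_right u)], by rw [e2, Matrix.mul_assoc]⟩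

theorem mul (γ γ' : Matrix (κ ⊕ κ) (κ ⊕ κ) ℚ) (τ : Matrix κ κ ℂ) (h' : Sp γ') (hτ : InH τ) :
    act (γ * γ') τ = act γ (act γ' τ) ∧ kk (γ * γ') τ = kk γ (act γ' τ) * kk γ' τ := by
  obtain ⟨-, a, b⟩ := inH γ' τ h' hτ
  have e : cM (γ * γ') * per τ = cM γ * per (act γ' τ) * kk γ' τ := by
    rw [cM_mul, Matrix.mul_assoc, b, Matrix.mul_assoc]
  exact ⟨by rw [act, e, tau_mul _ a]; rfl, by rw [kk, e]; rfl⟩

omit [DecidableEq κ] in
theorem blocks (γ : Matrix (κ ⊕ κ) (κ ⊕ κ) ℂ) (X Y : Matrix κ κ ℂ) :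
    γ * fromRows X Y = fromRows (γ.toBlocks₁₁ * X + γ.toBlocks₁₂ * Y)
      (γ.toBlocks₂₁ * X + γ.toBlocks₂₂ * Y) := by
  conv_lhs => rw [← fromBlocks_toBlocks γ]
  rw [fromBlocks_mul_fromRows]

theorem kk_eq (γ : Matrix (κ ⊕ κ) (κ ⊕ κ) ℚ) (τ : Matrix κ κ ℂ) :
    kk γ τ = (cM γ).toBlocks₂₁ * τ + (cM γ).toBlocks₂₂ := by
  rw [kk, per, blocks, toRows₂_fromRows, Matrix.mul_one]

theorem act_eq (γ : Matrix (κ ⊕ κ) (κ ⊕ κ) ℚ) (τ : Matrix κ κ ℂ) :
    act γ τ = ((cM γ).toBlocks₁₁ * τ + (cM γ).toBlocks₁₂) * (kk γ τ)⁻¹ := by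
  rw [act, tauOf, ← kk, per, blocks, toRows₁_fromRows, Matrix.mul_one]

theorem inv' (γ : Matrix (κ ⊕ κ) (κ ⊕ κ) ℚ) (τ : Matrix κ κ ℂ) (h : Sp γ) (hτ : InH τ) :
    (kk γ τ)ᵀ * ((cM γ).toBlocks₁₁ - act γ τ * (cM γ).toBlocks₂₁) = 1 := by
  obtain ⟨a, -, b⟩ := inH γ τ h hτ
  have e := bil_left h (per τ) (fromRows (1 : Matrix κ κ ℂ) 0)
  rw [b, transpose_mul, Matrix.mul_assoc, Matrix.mul_assoc, ← Matrix.mul_assoc (per _)ᵀ, bil, bil,
    blocks] at e
  simpa [a.1.eq] using e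

theorem symm (γ : Matrix (κ ⊕ κ) (κ ⊕ κ) ℚ) (τ : Matrix κ κ ℂ) (h : Sp γ) (hτ : τ.IsSymm) :
    ((cM γ).toBlocks₂₁ * (kk γ τ)ᵀ).IsSymm := by
  have e := SymplecticGroup.transpose_mem (sp_mem h)
  rw [← fromBlocks_toBlocks (cM γ), fromBlocks_transpose, SymplecticGroup.fromBlocks_mem_iff] at e
  have e2 := e.2.1
  simp only [transpose_transpose] at e2
  rw [kk_eq, Matrix.IsSymm]
  simp only [transpose_mul, transpose_add, transpose_transpose, Matrix.mul_add,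
    hτ.eq, e2, Matrix.mul_assoc]

theorem imC_unit {τ : Matrix κ κ ℂ} (hτ : InH τ) : IsUnit (imC τ).det := by
  refine isUnit_iff_ne_zero.2 fun h0 => ?_
  obtain ⟨u, hu, h2⟩ := exists_mulVec_eq_zero_iff.2 h0
  have := (riemPer τ hτ).2 u hu
  rw [herm_per hτ.1, smul_mulVec, h2] at this
  simp at this

theorem can (γ : Matrix (κ ⊕ κ) (κ ⊕ κ) ℚ) (τ : Matrix κ κ ℂ) (h : Sp γ) (hτ : InH τ) :
    (imC (act γ τ))⁻¹ + (2 * I) • ((cM γ).toBlocks₂₁ * (kk γ τ)ᵀ) =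
      kk γ τ * (imC τ)⁻¹ * (kk γ τ)ᵀ := by
  obtain ⟨a, u, b⟩ := inH γ τ h hτ
  have e := (left γ (per τ) h).1
  rw [b, herm_mul, herm_per a.1, herm_per hτ.1, Matrix.mul_smul, Matrix.smul_mul] at e
  have e1 := smul_right_injective _ (two_ne_zero' ℂ) e
  have uH : IsUnit (kk γ τ)ᴴ.det := by rw [det_conjTranspose]; exact u.star
  have e2 : (imC (act γ τ))⁻¹ = kk γ τ * (imC τ)⁻¹ * (kk γ τ)ᴴ := by
    rw [← e1, Matrix.mul_inv_rev, Matrix.mul_inv_rev, mul_nonsing_inv_cancel_left _ _ u,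
      nonsing_inv_mul_cancel_right _ _ uH]
  have e3 : (kk γ τ)ᵀ = (kk γ τ)ᴴ + (2 * I) • (imC τ * (cM γ).toBlocks₂₁ᵀ) := by
    have c1 : (cM γ).toBlocks₂₁ᴴ = (cM γ).toBlocks₂₁ᵀ := cM_star γ.toBlocks₂₁
    have c2 : (cM γ).toBlocks₂₂ᴴ = (cM γ).toBlocks₂₂ᵀ := cM_star γ.toBlocks₂₂
    have c3 : τᵀ = τᴴ + (2 * I) • imC τ := by
      ext i j
      simp only [transpose_apply, Matrix.add_apply, conjTranspose_apply, Matrix.smul_apply, imC, map_apply,
        smul_eq_mul, hτ.1.apply i j, RCLike.star_def]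
      have := sub_conj (τ i j)
      push_cast at this
      linear_combination this
    rw [kk_eq, transpose_add, conjTranspose_add, transpose_mul, conjTranspose_mul, c1, c2, c3,
      Matrix.add_mul, Matrix.smul_mul]
    abel
  have e4 := (symm γ τ h hτ.1).eq
  rw [transpose_mul, transpose_transpose] at e4
  conv_rhs => rw [e3]
  rw [e2, Matrix.mul_add, Matrix.mul_smul, ← e4, Matrix.mul_assoc (kk γ τ) _ (_ * _),
    nonsing_inv_mul_cancel_left _ _ (imC_unit hτ)]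

theorem ana_det {X : Type} [NormedAddCommGroup X] [NormedSpace ℂ X] {M : X → Matrix κ κ ℂ} {x : X}
    (h : ∀ i j, AnalyticAt ℂ (fun t => M t i j) x) : AnalyticAt ℂ (fun t => (M t).det) x := by
  simp only [det_apply']
  exact Finset.analyticAt_fun_sum _ fun σ _ =>
    analyticAt_const.mul (Finset.analyticAt_fun_prod _ fun i _ => h _ _)

theorem ana_inv {X : Type} [NormedAddCommGroup X] [NormedSpace ℂ X] {M : X → Matrix κ κ ℂ} {x : X}
    (h : ∀ i j, AnalyticAt ℂ (fun t => M t i j) x) (hx : IsUnit (M x).det) (i j : κ) :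
    AnalyticAt ℂ (fun t => (M t)⁻¹ i j) x := by
  have e : ∀ A : Matrix κ κ ℂ, A⁻¹ i j = A.det⁻¹ * (A.updateRow j (Pi.single i 1)).det :=
    fun A => by
      rw [Matrix.inv_def, Ring.inverse_eq_inv', Matrix.smul_apply, smul_eq_mul, adjugate_apply]
  simp only [e]
  refine ((ana_det h).inv hx.ne_zero).mul (ana_det fun a b => ?_)
  simp only [updateRow_apply]
  split_ifs
  exacts [analyticAt_const, h _ _]

omit [DecidableEq κ] in
theorem ana_mul {X : Type} [NormedAddCommGroup X] [NormedSpace ℂ X] {M N : X → Matrix κ κ ℂ}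
    {x : X} (h : ∀ i j, AnalyticAt ℂ (fun t => M t i j) x)
    (h' : ∀ i j, AnalyticAt ℂ (fun t => N t i j) x) (i j : κ) :
    AnalyticAt ℂ (fun t => (M t * N t) i j) x := by
  simp only [mul_apply]
  exact Finset.analyticAt_fun_sum _ fun k _ => (h _ _).mul (h' _ _)

omit [DecidableEq κ] in
theorem ana_aff (A B : Matrix κ κ ℂ) (x : κ → κ → ℂ) (i j : κ) :
    AnalyticAt ℂ (fun t : κ → κ → ℂ => (A * Matrix.of t + B) i j) x := by
  refine AnalyticAt.add (f := fun t : κ → κ → ℂ => (A * Matrix.of t) i j)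
    (ana_mul (M := fun _ => A) (fun _ _ => analyticAt_const) (fun a b => ?_) i j) analyticAt_const
  exact ((ContinuousLinearMap.proj (R := ℂ) (φ := fun _ : κ => ℂ) b).comp
    (ContinuousLinearMap.proj (R := ℂ) (φ := fun _ : κ => κ → ℂ) a)).analyticAt x

omit [DecidableEq κ] in
theorem der_aff (A B τ S : Matrix κ κ ℂ) (i j : κ) :
    HasDerivAt (fun s : ℂ => (A * (τ + s • S) + B) i j) ((A * S) i j) 0 := by
  simp only [Matrix.mul_add, Matrix.mul_smul, Matrix.add_apply, Matrix.smul_apply, smul_eq_mul]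
  simpa using (hasDerivAt_id (0 : ℂ)).mul_const ((A * S) i j)

theorem der (γ : Matrix (κ ⊕ κ) (κ ⊕ κ) ℚ) (τ : Matrix κ κ ℂ) (h : Sp γ) (hτ : InH τ) :
    AnalyticAt ℂ (fun t : κ → κ → ℂ => fun i j => act γ (Matrix.of t) i j) τ ∧
    ∀ S : Matrix κ κ ℂ, (kk γ τ)ᵀ * Matrix.of
      (fderiv ℂ (fun t : κ → κ → ℂ => fun i j => act γ (Matrix.of t) i j) τ S) * kk γ τ = S := by
  have u := (inH γ τ h hτ).2.1
  have hK : ∀ i j, AnalyticAt ℂ (fun t : κ → κ → ℂ => kk γ (Matrix.of t) i j) τ := fun i j => by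
    simp only [kk_eq]; exact ana_aff _ _ _ i j
  have hA : AnalyticAt ℂ (fun t : κ → κ → ℂ => fun i j => act γ (Matrix.of t) i j) τ := by
    refine analyticAt_pi_iff.2 fun i => analyticAt_pi_iff.2 fun j => ?_
    simp only [act_eq]
    exact ana_mul (ana_aff _ _ _) (ana_inv hK u) i j
  refine ⟨hA, fun S => ?_⟩
  let S' : κ → κ → ℂ := S
  let τ' : κ → κ → ℂ := τ
  have hl : HasDerivAt (fun s : ℂ => τ' + s • S') S' 0 := by
    simpa using ((hasDerivAt_id (0 : ℂ)).smul_const S').const_add τ'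
  have h0 : τ = τ' + (0 : ℂ) • S' := by rw [zero_smul, add_zero]
  have hG := hA.differentiableAt.hasFDerivAt.comp_hasDerivAt_of_eq 0 hl h0
  generalize fderiv ℂ (fun t : κ → κ → ℂ => fun i j => act γ (Matrix.of t) i j) τ S' = G at hG ⊢
  have hG' : ∀ i j, HasDerivAt (fun s : ℂ => act γ (τ + s • S) i j) (G i j) 0 := fun i j =>
    hasDerivAt_pi.1 (hasDerivAt_pi.1 hG i) j
  have ev : ∀ᶠ s : ℂ in 𝓝 0, (kk γ (τ + s • S)).det ≠ 0 := by
    have c := (ana_det hK).continuousAt.comp_of_eq hl.continuousAt h0.symm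
    refine c.eventually_ne ?_
    rw [Function.comp_apply, ← h0]
    exact u.ne_zero
  have key : Matrix.of G * kk γ τ + act γ τ * ((cM γ).toBlocks₂₁ * S) = (cM γ).toBlocks₁₁ * S := by
    ext i j
    have d1 : HasDerivAt (fun s : ℂ => ∑ k, act γ (τ + s • S) i k * kk γ (τ + s • S) k j) _ 0 :=
      HasDerivAt.fun_sum fun k _ => (hG' i k).mul (by simp only [kk_eq]; exact der_aff _ _ τ S k j)
    have d2 := (der_aff (cM γ).toBlocks₁₁ (cM γ).toBlocks₁₂ τ S i j).congr_of_eventuallyEq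
      (f₁ := fun s : ℂ => ∑ k, act γ (τ + s • S) i k * kk γ (τ + s • S) k j)
      (ev.mono fun s hs => by
        simp only [← mul_apply]
        rw [act_eq, nonsing_inv_mul_cancel_right _ _ (isUnit_iff_ne_zero.2 hs)])
    rw [← d1.unique d2, Finset.sum_add_distrib]
    simp [mul_apply]
  rw [Matrix.mul_assoc, eq_sub_of_add_eq key, ← Matrix.mul_assoc (act γ τ), ← Matrix.sub_mul,
    ← Matrix.mul_assoc, inv' γ τ h hτ, Matrix.one_mul]

theorem cmpt (γ : Matrix (κ ⊕ κ) (κ ⊕ κ) ℚ) (S : Matrix (κ ⊕ κ) κ ℂ) (ι : Type) [Fintype ι]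
    [DecidableEq ι] (S' : Matrix (κ ⊕ κ) ι ℂ) (B : Matrix ι κ ℂ) (lam : ι → ℂ) (h : Sp γ)
    (hS : Riem S) (hc : Fintype.card ι = Fintype.card κ) (e : S = S' * B)
    (e' : cM γ * S' = S' * diagonal lam) (hl : ∀ i j, lam i * lam j ≠ 1) : CMPt (tauOf S) := by
  obtain ⟨u, b, -, -⟩ := riem S hS
  have e2 : S.toRows₂ = S'.toRows₂ * B := by rw [e, rows₂_mul]
  obtain ⟨Q, hQ⟩ : ∃ Q, Q = B * S.toRows₂⁻¹ := ⟨_, rfl⟩
  have p1 : S'.toRows₂ * Q = 1 := by rw [hQ, ← Matrix.mul_assoc, ← e2, mul_nonsing_inv _ u]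
  have p2 : Q * S'.toRows₂ = 1 := (mul_eq_one_comm_of_card_eq _ _ _ hc).2 p1
  have e3 : S * (S.toRows₂⁻¹ * S'.toRows₂) = S' := by
    conv_lhs => arg 1; rw [e]
    rw [Matrix.mul_assoc, ← Matrix.mul_assoc B, ← hQ, p2, Matrix.mul_one]
  have e4 : cM γ * S = S * (S.toRows₂⁻¹ * S'.toRows₂ * (diagonal lam * B)) := by
    rw [← Matrix.mul_assoc S, e3, ← Matrix.mul_assoc, ← e', Matrix.mul_assoc, ← e]
  obtain ⟨a1, a2⟩ := sig γ S S _ h hS e4
  have a3 : kk γ (tauOf S) = S'.toRows₂ * diagonal lam * Q := by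
    rw [a2, hQ]
    simp only [Matrix.mul_assoc]
    rw [mul_nonsing_inv_cancel_left _ _ u]
  refine ⟨b, γ, h, a1, fun X _ hX => ?_⟩
  rw [a3] at hX
  have p3 : S'.toRows₂ᵀ * Qᵀ = 1 := by rw [← transpose_mul, p2, transpose_one]
  have z1 : diagonal lam * (S'.toRows₂ᵀ * X * S'.toRows₂) * diagonal lam =
      S'.toRows₂ᵀ * X * S'.toRows₂ := by
    conv_rhs => rw [← hX]
    simp only [transpose_mul, diagonal_transpose, Matrix.mul_assoc]
    rw [p2, ← Matrix.mul_assoc S'.toRows₂ᵀ Qᵀ, p3, Matrix.one_mul, Matrix.mul_one]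
  have z2 : S'.toRows₂ᵀ * X * S'.toRows₂ = 0 := by
    ext i j
    have := congrFun (congrFun z1 i) j
    rw [mul_diagonal, diagonal_mul] at this
    refine (mul_eq_zero.1 (?_ : (lam i * lam j - 1) * _ = 0)).resolve_left (sub_ne_zero.2 (hl i j))
    linear_combination this
  have z3 : X = Qᵀ * (S'.toRows₂ᵀ * X * S'.toRows₂) * Q := by
    simp only [Matrix.mul_assoc]
    rw [p1, ← Matrix.mul_assoc, ← transpose_mul, p1, transpose_one, Matrix.one_mul, Matrix.mul_one]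
  rw [z3, z2, Matrix.mul_zero, Matrix.zero_mul]

omit [DecidableEq κ] in
theorem opn (τ : Matrix κ κ ℂ) (hτ : InH τ) :
    ∀ᶠ t : κ → κ → ℂ in 𝓝 τ, (Matrix.of t).IsSymm → InH (Matrix.of t) := by
  have hc : Continuous fun z : (κ → κ → ℂ) × (κ → ℝ) => z.2 ⬝ᵥ imM (Matrix.of z.1) *ᵥ z.2 := by
    simp only [dotProduct, mulVec, imM, map_apply, of_apply]
    fun_prop
  have key := (isCompact_sphere (0 : κ → ℝ) 1).eventually_forall_of_forall_eventually
    (x₀ := (τ : κ → κ → ℂ)) (P := fun t x => 0 < x ⬝ᵥ imM (Matrix.of t) *ᵥ x) fun x hx => by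
      refine hc.continuousAt.eventually (lt_mem_nhds ?_)
      exact hτ.2.dotProduct_mulVec_pos (x := x) (by rintro rfl; simp at hx)
  refine key.mono fun t ht hs => ⟨hs, .of_dotProduct_mulVec_pos (imM_herm hs) fun x hx => ?_⟩
  have hn : 0 < ‖x‖ := norm_pos_iff.2 hx
  have := ht (‖x‖⁻¹ • x) (by simp [norm_smul, hn.ne'])
  rw [mulVec_smul, dotProduct_smul, smul_dotProduct, smul_eq_mul, smul_eq_mul] at this
  exact (mul_pos_iff_of_pos_left (inv_pos.2 hn)).1 ((mul_pos_iff_of_pos_left (inv_pos.2 hn)).1 this)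

end ActX

open ActX in
theorem actS : All Act := fun _ _ _ =>
  { riem := riem, riemPer := riemPer, tauPer := tauPer, left := left, right := right, inH := inH
    sig := fun γ S S' R h hS _ e => sig γ S S' R h hS e
    one := fun τ => ⟨by rw [act, cM_one, Matrix.one_mul, tauPer], by
      rw [kk, cM_one, Matrix.one_mul, per₂]⟩
    mul := fun γ γ' τ _ h' hτ => mul γ γ' τ h' hτ
    inv := fun γ τ h hτ => mul_eq_one_comm.1 (inv' γ τ h hτ)
    symm := symm, can := can, der := der, cmpt := cmpt, opn := opn }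

end

end Pool.Agent.GAM

end MrgPart0

-- ======== part 1: formerly Pool.Agent.MP_cbf1af_ag.gam.Coco
section MrgPart1

/-! PROJECT GAM, row COCO: the congruence subgroups are cocompact. -/

namespace Pool.Agent.GAM

open Matrix Complex Filter Topology

noncomputable section

namespace CocoA

variable {E : Type} [Field E] [NumberField E]

/-- families with bounded denominators -/
def Den {ι : Type} (f : ι → E) : Prop := ∃ N : ℕ, 0 < N ∧ ∀ i, IsIntegral ℤ ((N : E) * f i)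

section Den
variable {ι : Type} {f g : ι → E}

omit [NumberField E] in
theorem int_nat (n : ℕ) : IsIntegral ℤ (n : E) := by
  simpa using (isIntegral_algebraMap (R := ℤ) (A := E) (x := (n : ℤ)))

omit [NumberField E] in
theorem Den.add (hf : Den f) (hg : Den g) : Den fun i => f i + g i := by
  obtain ⟨N, N0, h⟩ := hf
  obtain ⟨M, M0, h'⟩ := hg
  refine ⟨N * M, Nat.mul_pos N0 M0, fun i => ?_⟩
  rw [show ((N * M : ℕ) : E) * (f i + g i) = M * (N * f i) + N * (M * g i) by push_cast; ring]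
  exact ((int_nat M).mul (h i)).add ((int_nat N).mul (h' i))

omit [NumberField E] in
theorem Den.mul (hf : Den f) (hg : Den g) : Den fun i => f i * g i := by
  obtain ⟨N, N0, h⟩ := hf
  obtain ⟨M, M0, h'⟩ := hg
  refine ⟨N * M, Nat.mul_pos N0 M0, fun i => ?_⟩
  rw [show ((N * M : ℕ) : E) * (f i * g i) = (N * f i) * (M * g i) by push_cast; ring]
  exact (h i).mul (h' i)

omit [NumberField E] in
theorem Den.neg (hf : Den f) : Den fun i => -f i := by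
  obtain ⟨N, N0, h⟩ := hf
  exact ⟨N, N0, fun i => by rw [mul_neg]; exact (h i).neg⟩

omit [NumberField E] in
theorem Den.sub (hf : Den f) (hg : Den g) : Den fun i => f i - g i := by
  simpa only [sub_eq_add_neg] using hf.add hg.neg

omit [NumberField E] in
theorem Den.map (hf : Den f) (c : E →+* E) : Den fun i => c (f i) := by
  obtain ⟨N, N0, h⟩ := hf
  refine ⟨N, N0, fun i => ?_⟩
  have := (h i).map c.toIntAlgHom
  simpa using this

omit [NumberField E] in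
theorem Den.comp {ι' : Type} (hf : Den f) (e : ι' → ι) : Den fun i => f (e i) :=
  let ⟨N, N0, h⟩ := hf; ⟨N, N0, fun i => h (e i)⟩

omit [NumberField E] in
theorem Den.int (v : ι → ℤ) : Den fun i => (v i : E) :=
  ⟨1, one_pos, fun i => by
    simpa using (isIntegral_algebraMap (R := ℤ) (A := E) (x := v i))⟩

theorem Den.fin (h : (Set.range f).Finite) : Den f := by
  obtain ⟨y, y0, hy⟩ := exists_integral_multiples ℤ ℚ h.toFinset
  refine ⟨y.natAbs, Int.natAbs_pos.2 y0, fun i => ?_⟩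
  have := hy (f i) (h.mem_toFinset.2 ⟨i, rfl⟩)
  rw [zsmul_eq_mul] at this
  rcases Int.natAbs_eq y with e | e
  · rw [e] at this; simpa using this
  · rw [e] at this; simpa using this.neg

theorem Den.const (a : E) : Den fun _ : ι => a :=
  Den.fin ((Set.finite_singleton a).subset (by rintro _ ⟨_, rfl⟩; rfl))

theorem Den.sum {α : Type} (s : Finset α) {f : α → ι → E} (h : ∀ a, Den (f a)) :
    Den fun i => ∑ a ∈ s, f a i := by
  classical
  induction s using Finset.induction_on with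
  | empty => simpa using Den.const (0 : E)
  | insert a s ha ih => simp only [Finset.sum_insert ha]; exact (h a).add ih

omit [NumberField E] in
theorem Den.pi {κ : Type} [Fintype κ] {f : ι → κ → E} (h : ∀ b, Den fun i => f i b) :
    ∃ N : ℕ, 0 < N ∧ ∀ i b, IsIntegral ℤ ((N : E) * f i b) := by
  classical
  choose N N0 hN using h
  refine ⟨∏ b, N b, Finset.prod_pos fun b _ => N0 b, fun i b => ?_⟩
  rw [← Finset.prod_erase_mul _ _ (Finset.mem_univ b), Nat.cast_mul, mul_assoc]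
  exact (int_nat _).mul (hN b i)

theorem Den.lin (hf : Den f) (l : E →ₗ[ℚ] ℚ) : Den fun i => l (f i) := by
  obtain ⟨N, N0, h⟩ := hf
  have h1 : ∀ i, ∃ k : _ → ℤ, ∑ j, k j • NumberField.integralBasis E j = N * f i := fun i =>
    (Submodule.mem_span_range_iff_exists_fun ℤ).1
      ((NumberField.mem_span_integralBasis E).2 ⟨⟨_, h i⟩, rfl⟩)
  choose k hk using h1
  have h2 : Den fun i => (N : ℚ)⁻¹ * ∑ j, (k i j : ℚ) * l (NumberField.integralBasis E j) :=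
    (Den.const _).mul (Den.sum _ fun j => (Den.int fun i => k i j).mul (Den.const _))
  have e : ∀ i, l (f i) = (N : ℚ)⁻¹ * ∑ j, (k i j : ℚ) * l (NumberField.integralBasis E j) := by
    intro i
    have := congrArg l (hk i)
    rw [map_sum, ← nsmul_eq_mul, map_nsmul, nsmul_eq_mul] at this
    simp only [map_zsmul] at this
    simp only [zsmul_eq_mul] at this
    rw [this, ← mul_assoc, inv_mul_cancel₀ (by exact_mod_cast N0.ne'), one_mul]
  simpa only [e] using h2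

theorem Den.repr {κ : Type} [Fintype κ] (β : Module.Basis κ ℚ (Fin 2 → E)) {z : ι → Fin 2 → E}
    (h : ∀ j, Den fun i => z i j) :
    ∃ N : ℕ, 0 < N ∧ ∀ i b, ∃ k : ℤ, (N : ℚ) * β.repr (z i) b = k := by
  have : ∀ b, Den fun i => β.repr (z i) b := fun b => by
    have h2 := Den.sum Finset.univ fun j =>
      (h j).lin ((β.coord b).comp (LinearMap.single ℚ (fun _ => E) j))
    have e : ∀ i, β.repr (z i) b =
        ∑ j, ((β.coord b).comp (LinearMap.single ℚ (fun _ => E) j)) (z i j) := fun i => by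
      conv_lhs => rw [← Finset.univ_sum_single (z i), ← Module.Basis.coord_apply, map_sum]
      rfl
    simpa only [e] using h2
  obtain ⟨N, N0, hN⟩ := Den.pi this
  refine ⟨N, N0, fun i b => ?_⟩
  obtain ⟨k, hk⟩ := IsIntegrallyClosed.isIntegral_iff.1 (hN i b)
  exact ⟨k, by simpa using hk.symm⟩

end Den

variable (F : Fam E)

/-- lattice vectors -/
def lv (v : Emb E ⊕ Emb E → ℤ) : Fin 2 → E := ∑ a, (v a : ℚ) • F.β a

theorem lv_apply (v : Emb E ⊕ Emb E → ℤ) (j : Fin 2) :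
    lv F v j = ∑ a, (v a : E) * F.β a j := by
  simp [lv, Finset.sum_apply, Algebra.smul_def]

theorem den_vec (j : Fin 2) : Den fun v => lv F v j := by
  simp only [lv_apply]
  exact Den.sum _ fun a => (Den.int fun v : Emb E ⊕ Emb E → ℤ => v a).mul (Den.const _)

theorem vec_ne {v : Emb E ⊕ Emb E → ℤ} (hv : v ≠ 0) : lv F v ≠ 0 := fun h => hv <| by
  funext a
  have := Fintype.linearIndependent_iff.1 F.β.linearIndependent (fun a => (v a : ℚ)) h a
  exact_mod_cast this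

theorem lv_add (v u : Emb E ⊕ Emb E → ℤ) (n : ℕ) (j : Fin 2) :
    lv F (fun a => v a + n * u a) j = lv F v j + n * lv F u j := by
  simp only [lv_apply, Finset.mul_sum, ← Finset.sum_add_distrib]
  exact Finset.sum_congr rfl fun a _ => by push_cast; ring

theorem vec_sig (hA : FamA F) (v : Emb E ⊕ Emb E → ℤ) (y : F.Jn → ℂ) (ρ : Emb E) :
    ((fun a => (v a : ℂ)) ᵥ* F.sig y) ρ = F.ell y ρ (lv F v) := by
  obtain ⟨l, hl⟩ := hA.lin y ρ
  rw [← hl, lv, map_sum]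
  simp only [vecMul, dotProduct, Fam.sig, of_apply, ← hl, map_smul]
  exact Finset.sum_congr rfl fun a _ => by simp [Algebra.smul_def]

/-- the norm of a vector -/
def nv (x : Fin 2 → E) : E := F.nm (x 0) (x 1)

variable {F}

omit [NumberField E] in
theorem cj_apply (σ : Emb E) (x : E) : cj σ x = (starRingEnd ℂ) (σ x) := rfl

omit [NumberField E] in
theorem cj_cj (σ : Emb E) : cj (cj σ) = σ := NumberField.ComplexEmbedding.involutive_conjugate E σ

theorem cc (x : E) : F.c (F.c x) = x := by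
  obtain ⟨σ⟩ : Nonempty (Emb E) := inferInstance
  apply σ.injective
  rw [F.hc.1, F.hc.1, conj_conj]

theorem d_real (hA : FamA F) (σ : Emb E) : (starRingEnd ℂ) (σ F.d) = σ F.d := by
  rw [← F.hc.1, hA.cd]

theorem d_eq (hA : FamA F) (σ : Emb E) : σ F.d = ((σ F.d).re : ℂ) :=
  (conj_eq_iff_re.1 (d_real hA σ)).symm

theorem nv_emb (σ : Emb E) (x : Fin 2 → E) : σ (nv F x) =
    σ (x 0) * (starRingEnd ℂ) (σ (x 0)) + σ F.d * (σ (x 1) * (starRingEnd ℂ) (σ (x 1))) := by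
  simp [nv, Fam.nm, F.hc.1]

theorem c_nv (hA : FamA F) (x : Fin 2 → E) : F.c (nv F x) = nv F x := by
  simp only [nv, Fam.nm, map_add, map_mul, cc, hA.cd]; ring

theorem ell1 {σ : Emb E} (h : σ ∈ F.Φ₁) (y : F.Jn → ℂ) (x : Fin 2 → E) :
    F.ell y σ x = σ (x 0) - F.ex y σ * σ (x 1) := by simp [Fam.ell, h]

theorem cj_not {σ : Emb E} (h : σ ∈ F.Φ₁) : cj σ ∉ F.Φ₁ := (F.h₁ σ).1 h

theorem ell2 (hA : FamA F) {σ : Emb E} (h : σ ∈ F.Jn) (y : F.Jn → ℂ) (x : Fin 2 → E) :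
    F.ell y (cj σ) x =
      (starRingEnd ℂ) (σ (x 1)) + F.ex y σ / σ F.d * (starRingEnd ℂ) (σ (x 0)) := by
  obtain ⟨h1, h2⟩ := Finset.mem_sdiff.1 h
  have h3 : cj σ ∈ F.Φ₂ := by
    by_contra h3; exact h2 ((F.h₂ σ).2 h3)
  rw [Fam.ell, if_neg (cj_not h1), if_pos h3, cj_cj, cj_apply, cj_apply, cj_apply, d_real hA]

theorem ell3 {σ : Emb E} (h1 : σ ∈ F.Φ₁) (h2 : σ ∈ F.Φ₂) (y : F.Jn → ℂ) (x : Fin 2 → E) :
    F.ell y (cj σ) x = σ (x 1) := by
  rw [Fam.ell, if_neg (cj_not h1), if_neg ((F.h₂ σ).1 h2), cj_cj]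

theorem ex_zero {σ : Emb E} (h2 : σ ∈ F.Φ₂) (y : F.Jn → ℂ) : F.ex y σ = 0 := by
  rw [Fam.ex, dif_neg]; simp [h2]

theorem q_one {σ : Emb E} (h2 : σ ∈ F.Φ₂) (y : F.Jn → ℂ) : F.q y σ = 1 := by
  simp [Fam.q, ex_zero h2]

theorem q_pos {y : F.Jn → ℂ} (hy : y ∈ F.D) {σ : Emb E} (h : σ ∈ F.Φ₁) : 0 < F.q y σ := by
  by_cases h2 : σ ∈ F.Φ₂
  · rw [q_one h2]; exact one_pos
  · exact hy σ (Finset.mem_sdiff.2 ⟨h, h2⟩)

/-- the basic identity -/
theorem key (hA : FamA F) {σ : Emb E} (h : σ ∈ F.Φ₁) (y : F.Jn → ℂ) (x : Fin 2 → E) :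
    σ (nv F x) * (F.q y σ : ℂ) = ((‖F.ell y σ x‖ ^ 2 : ℝ) : ℂ) +
      σ F.d * ((‖F.ell y (cj σ) x‖ ^ 2 : ℝ) : ℂ) := by
  rw [nv_emb, ← Complex.normSq_eq_norm_sq, ← Complex.normSq_eq_norm_sq, ← mul_conj, ← mul_conj,
    ell1 h]
  by_cases h2 : σ ∈ F.Φ₂
  · rw [q_one h2, ell3 h h2, ex_zero h2]; simp
  · have hJ : σ ∈ F.Jn := Finset.mem_sdiff.2 ⟨h, h2⟩
    have d0 : σ F.d ≠ 0 := fun e => by simpa [e] using hA.dneg σ hJ
    rw [ell2 hA hJ, Fam.q, ← Complex.normSq_eq_norm_sq]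
    push_cast
    rw [← d_eq hA, ← mul_conj]
    simp only [map_add, map_sub, map_mul, map_div₀, conj_conj, d_real hA]
    field_simp
    ring

theorem nv_ne (hA : FamA F) (hne : (F.Φ₁ ∩ F.Φ₂).Nonempty) {x : Fin 2 → E} (hx : x ≠ 0) :
    nv F x ≠ 0 := by
  intro h0
  obtain ⟨σ, hσ⟩ := hne
  have dp := hA.dpos σ hσ
  have e := nv_emb (F := F) σ x
  rw [h0, map_zero, mul_conj, mul_conj, d_eq hA] at e
  have e' : 0 = normSq (σ (x 0)) + (σ F.d).re * normSq (σ (x 1)) := by exact_mod_cast e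
  have a0 := normSq_nonneg (σ (x 0))
  have a1 := mul_nonneg dp.le (normSq_nonneg (σ (x 1)))
  have b0 : normSq (σ (x 0)) = 0 := by linarith
  have b1 : normSq (σ (x 1)) = 0 := by
    have : (σ F.d).re * normSq (σ (x 1)) = 0 := by linarith
    exact (mul_eq_zero.1 this).resolve_left dp.ne'
  apply hx
  funext j
  fin_cases j
  · exact (map_eq_zero σ).1 (normSq_eq_zero.1 b0)
  · exact (map_eq_zero σ).1 (normSq_eq_zero.1 b1)

variable (F)

/-- the points at which `x` is short at the indefinite places -/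
def Kx (t : Emb E → ℝ) (x : Fin 2 → E) : Set (F.Jn → ℂ) :=
  {y | ∀ σ ∈ F.Jn, 0 ≤ F.q y σ ∧ ‖F.ell y σ x‖ ^ 2 ≤ t σ * F.q y σ ∧
    ‖F.ell y (cj σ) x‖ ^ 2 ≤ t (cj σ) * F.q y σ}

variable {F}

theorem Kx_sub (hA : FamA F) (t : Emb E → ℝ) {x : Fin 2 → E} (hx : nv F x ≠ 0) :
    Kx F t x ⊆ F.D := by
  intro y hy σ hσ
  obtain ⟨h0, h1, h2⟩ := hy σ hσ
  refine h0.lt_of_ne fun e => hx ?_
  rw [← e, mul_zero] at h1 h2
  have a1 : F.ell y σ x = 0 := by simpa using le_antisymm h1 (sq_nonneg _)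
  have a2 : F.ell y (cj σ) x = 0 := by simpa using le_antisymm h2 (sq_nonneg _)
  have d0 : σ F.d ≠ 0 := fun e => by simpa [e] using hA.dneg σ hσ
  rw [ell1 (Finset.mem_sdiff.1 hσ).1] at a1
  rw [ell2 hA hσ] at a2
  refine (map_eq_zero σ).1 ?_
  rw [nv_emb]
  field_simp at a2
  linear_combination (starRingEnd ℂ) (σ (x 0)) * a1 + σ (x 1) * a2

theorem cont_ex (σ : Emb E) : Continuous fun y : F.Jn → ℂ => F.ex y σ := by
  unfold Fam.ex
  split_ifs
  exacts [continuous_apply _, continuous_const]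

theorem cont_q (σ : Emb E) : Continuous fun y : F.Jn → ℂ => F.q y σ := by
  have := cont_ex (F := F) σ
  unfold Fam.q
  fun_prop

theorem cont_ell (σ : Emb E) (x : Fin 2 → E) : Continuous fun y : F.Jn → ℂ => F.ell y σ x := by
  have := cont_ex (F := F) σ
  have := cont_ex (F := F) (cj σ)
  unfold Fam.ell
  split_ifs <;> fun_prop

theorem Kx_compact (hA : FamA F) (t : Emb E → ℝ) (x : Fin 2 → E) : IsCompact (Kx F t x) := by
  refine Metric.isCompact_of_isClosed_isBounded ?_ ?_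
  · simp only [Kx, Set.ofPred_forall, Set.ofPred_and]
    refine isClosed_iInter fun σ => isClosed_iInter fun _ => ?_
    have := cont_q (F := F) σ
    have := cont_ell (F := F) σ x
    have := cont_ell (F := F) (cj σ) x
    exact (isClosed_le continuous_const (by fun_prop)).inter
      ((isClosed_le (by fun_prop) (by fun_prop)).inter (isClosed_le (by fun_prop) (by fun_prop)))
  · obtain ⟨B, hB⟩ := Finite.exists_le fun σ : Emb E => 1 - (σ F.d).re
    refine (Metric.isBounded_closedBall (x := 0) (r := |B|)).subset fun y hy => ?_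
    rw [mem_closedBall_zero_iff, pi_norm_le_iff_of_nonneg (abs_nonneg B)]
    intro σ
    have h0 := (hy σ.1 σ.2).1
    have dn := hA.dneg σ.1 σ.2
    have e : F.ex y σ.1 = y σ := by simp [Fam.ex]
    rw [Fam.q, e] at h0
    have h1 : ‖y σ‖ ^ 2 ≤ -(σ.1 F.d).re := by
      have := mul_le_mul_of_nonneg_right h0 (neg_pos.2 dn).le
      rw [zero_mul, add_mul, mul_neg (_ / _), div_mul_cancel₀ _ dn.ne] at this
      linarith
    nlinarith [hB σ.1, le_abs_self B, sq_nonneg (‖y σ‖ - 1), norm_nonneg (y σ)]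

theorem fin_nv (B : ℝ) : {m : E | (∃ v, m = nv F (lv F v)) ∧ ∀ σ : Emb E, ‖σ m‖ ≤ B}.Finite := by
  obtain ⟨N, N0, hN⟩ : Den fun v => nv F (lv F v) :=
    ((den_vec F 0).mul ((den_vec F 0).map F.c)).add
      ((Den.const _).mul ((den_vec F 1).mul ((den_vec F 1).map F.c)))
  refine Set.Finite.of_finite_image (f := fun m => (N : E) * m)
    ((NumberField.Embeddings.finite_of_norm_le E ℂ (N * B)).subset ?_)
    fun a _ b _ h => mul_left_cancel₀ (by exact_mod_cast N0.ne') h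
  rintro _ ⟨_, ⟨⟨v, rfl⟩, h⟩, rfl⟩
  refine ⟨hN v, fun σ => ?_⟩
  rw [map_mul, map_natCast, norm_mul, Complex.norm_natCast]
  exact mul_le_mul_of_nonneg_left (h σ) (Nat.cast_nonneg N)

variable (F)

/-- first column of `G u (G w)⁻¹` when `w` has norm `m` -/
def fc (m : E) (u w : Fin 2 → E) : Fin 2 → E := F.G (u 0) (u 1) ![F.c (w 0) * m⁻¹, -w 1 * m⁻¹]

variable {F}

theorem den_col {M : Set E} (hM : M.Finite) : ∃ N : ℕ, 0 < N ∧
    ∀ m ∈ M, ∀ u w a b, ∃ k : ℤ, (N : ℚ) * F.β.repr (F.G (fc F m (lv F u) (lv F w) 0)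
      (fc F m (lv F u) (lv F w) 1) (F.β a)) b = k := by
  let ι : Type := M × (Emb E ⊕ Emb E → ℤ) × (Emb E ⊕ Emb E → ℤ) × (Emb E ⊕ Emb E)
  have := hM.to_subtype
  have hm : Den fun i : ι => (i.1.1)⁻¹ :=
    (Den.fin (f := fun m : M => m.1⁻¹) (Set.finite_range _)).comp fun i : ι => i.1
  have hu : ∀ j, Den fun i : ι => lv F i.2.1 j := fun j => (den_vec F j).comp fun i : ι => i.2.1
  have hw : ∀ j, Den fun i : ι => lv F i.2.2.1 j := fun j =>
    (den_vec F j).comp fun i : ι => i.2.2.1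
  have hb : ∀ j, Den fun i : ι => F.β i.2.2.2 j := fun j =>
    (Den.fin (f := fun a => F.β a j) (Set.finite_range _)).comp fun i : ι => i.2.2.2
  have hd : Den fun _ : ι => F.d := Den.const _
  have hG : ∀ {p r : ι → E} {x : ι → Fin 2 → E}, Den p → Den r → (∀ j, Den fun i => x i j) →
      ∀ j, Den fun i => F.G (p i) (r i) (x i) j := fun hp hr hx j => by
    fin_cases j
    · exact (hp.mul (hx 0)).sub ((hd.mul (hr.map F.c)).mul (hx 1))
    · exact (hr.mul (hx 0)).add ((hp.map F.c).mul (hx 1))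
  have hc : ∀ j, Den fun i : ι => fc F i.1.1 (lv F i.2.1) (lv F i.2.2.1) j :=
    hG (hu 0) (hu 1) fun j => by
      fin_cases j
      · exact ((hw 0).map F.c).mul hm
      · exact (hw 1).neg.mul hm
  obtain ⟨N, N0, hN⟩ := Den.repr F.β (hG (hc 0) (hc 1) hb)
  exact ⟨N, N0, fun m hm u w a b => hN (⟨m, hm⟩, u, w, a) b⟩

theorem col_spec (hA : FamA F) {v w : Fin 2 → E} (h0 : nv F w ≠ 0) (h : nv F v = nv F w) :
    F.nm (fc F (nv F w) v w 0) (fc F (nv F w) v w 1) = 1 ∧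
      F.G (fc F (nv F w) v w 0) (fc F (nv F w) v w 1) w = v := by
  have hc := c_nv hA w
  have e1 : nv F w = w 0 * F.c (w 0) + F.d * (w 1 * F.c (w 1)) := rfl
  have e2 : nv F w = v 0 * F.c (v 0) + F.d * (v 1 * F.c (v 1)) := h.symm
  generalize nv F w = m at *
  have i1 : m * m⁻¹ = 1 := mul_inv_cancel₀ h0
  refine ⟨?_, ?_⟩
  · simp only [fc, Fam.nm, Fam.G, cons_val_zero, cons_val_one, map_sub, map_add, map_mul,
      map_neg, map_inv₀, cc, hA.cd, hc]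
    linear_combination (m * m⁻¹ + 1) * i1 - m⁻¹ ^ 2 * m * e1 -
      m⁻¹ ^ 2 * (w 0 * F.c (w 0) + F.d * (w 1 * F.c (w 1))) * e2
  · funext j
    fin_cases j
    · simp only [fc, Fam.G, cons_val_zero, cons_val_one, map_add, map_mul,
        map_neg, map_inv₀, cc, hc, Fin.zero_eta]
      linear_combination v 0 * i1 - v 0 * m⁻¹ * e1
    · simp only [fc, Fam.G, cons_val_zero, cons_val_one, map_sub, map_mul,
        map_neg, map_inv₀, cc, hA.cd, hc, Fin.mk_one]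
      linear_combination v 1 * i1 - v 1 * m⁻¹ * e1

theorem col_cong {v w u : Fin 2 → E} (h0 : nv F w ≠ 0) (n : ℕ)
    (h : ∀ j, v j = w j + n * u j) (x : Fin 2 → E) :
    F.G (fc F (nv F w) v w 0) (fc F (nv F w) v w 1) x =
      x + (n : ℚ) • F.G (fc F (nv F w) u w 0) (fc F (nv F w) u w 1) x := by
  have e1 : nv F w = w 0 * F.c (w 0) + F.d * (w 1 * F.c (w 1)) := rfl
  have i1 : nv F w * (nv F w)⁻¹ = 1 := mul_inv_cancel₀ h0
  have a0 : fc F (nv F w) v w 0 = 1 + n * fc F (nv F w) u w 0 := by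
    simp only [fc, Fam.G, cons_val_zero, cons_val_one, h, map_add, map_mul, map_natCast]
    linear_combination i1 - (nv F w)⁻¹ * e1
  have a1 : fc F (nv F w) v w 1 = n * fc F (nv F w) u w 1 := by
    simp only [fc, Fam.G, cons_val_zero, cons_val_one, h, map_add, map_mul, map_natCast]
    ring
  rw [a0, a1]
  funext j
  fin_cases j <;> simp [Fam.G, Algebra.smul_def] <;> ring

end CocoA

open CocoA in
theorem coco (hS : All Short) (_hK : AllC) (hA : AllF FamA) (hB : AllF FamB) : AllF Coco := by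
  intro E _ _ F hne R R0
  have hA := hA E F
  have hB := hB E F
  obtain ⟨C, hC⟩ := hS (Emb E) inferInstance
  obtain ⟨s, -, hs⟩ := hA.herm
  let t : Emb E → ℝ := fun ρ => C * s ρ
  obtain ⟨B, hBd⟩ := Finite.exists_le fun σ : Emb E => t σ + ‖σ F.d‖ * t (cj σ)
  let M : Set E := {m | (∃ v, m = nv F (lv F v)) ∧ ∀ σ : Emb E, ‖σ m‖ ≤ B}
  have hM : M.Finite := fin_nv B
  obtain ⟨N, N0, hN⟩ := den_col (F := F) hM
  have : NeZero (R * N) := ⟨(Nat.mul_pos R0 N0).ne'⟩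
  let X : Set (Emb E ⊕ Emb E → ℤ) := {v | v ≠ 0 ∧ nv F (lv F v) ∈ M}
  let φ : (Emb E ⊕ Emb E → ℤ) → E × (Emb E ⊕ Emb E → ZMod (R * N)) :=
    fun v => (nv F (lv F v), fun a => (v a : ZMod (R * N)))
  have hφ : (φ '' X).Finite := (hM.prod Set.finite_univ).subset (by
    rintro _ ⟨v, hv, rfl⟩; exact ⟨hv.2, trivial⟩)
  obtain ⟨T, TX, Tf, hT⟩ := hφ.exists_subset_finite_image_eq subset_rfl
  refine ⟨⋃ v ∈ T, Kx F t (lv F v), Tf.isCompact_biUnion fun v _ => Kx_compact hA t _,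
    Set.iUnion₂_subset fun v hv => Kx_sub hA t (nv_ne hA hne (vec_ne F (TX hv).1)), fun y hy => ?_⟩
  obtain ⟨v, v0, hv⟩ := hC _ (hA.riem y hy)
  have sh : ∀ σ ∈ F.Φ₁, ‖F.ell y σ (lv F v)‖ ^ 2 ≤ t σ * F.q y σ ∧
      ‖F.ell y (cj σ) (lv F v)‖ ^ 2 ≤ t (cj σ) * F.q y σ := fun σ hσ => by
    have a1 := hv σ
    have a2 := hv (cj σ)
    rw [vec_sig F hA, hs] at a1 a2
    rw [if_pos hσ, ← mul_assoc] at a1
    rw [if_neg (cj_not hσ), cj_cj, ← mul_assoc] at a2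
    exact ⟨a1, a2⟩
  have b1 : ∀ σ ∈ F.Φ₁, ‖σ (nv F (lv F v))‖ ≤ B := fun σ hσ => by
    have qp := q_pos hy hσ
    refine le_trans (le_of_mul_le_mul_right ?_ qp) (hBd σ)
    have e := congrArg norm (key hA hσ y (lv F v))
    rw [norm_mul, Complex.norm_real, Real.norm_of_nonneg qp.le] at e
    rw [e]
    refine (norm_add_le _ _).trans ?_
    rw [norm_mul, Complex.norm_real, Complex.norm_real, Real.norm_of_nonneg (sq_nonneg _),
      Real.norm_of_nonneg (sq_nonneg _)]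
    nlinarith [(sh σ hσ).1, mul_le_mul_of_nonneg_left (sh σ hσ).2 (norm_nonneg (σ F.d))]
  have vX : v ∈ X := ⟨v0, ⟨v, rfl⟩, fun σ => by
    by_cases hσ : σ ∈ F.Φ₁
    · exact b1 σ hσ
    · have := b1 (cj σ) ((F.h₁ _).2 (by rwa [cj_cj]))
      rwa [cj_apply, Complex.norm_conj] at this⟩
  obtain ⟨w, wT, e⟩ : φ v ∈ φ '' T := hT ▸ Set.mem_image_of_mem φ vX
  have e1 : nv F (lv F v) = nv F (lv F w) := (congrArg Prod.fst e).symm
  have w0 := nv_ne hA hne (vec_ne F (TX wT).1)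
  have e2 : ∀ a, ∃ k : ℤ, v a = w a + (R * N : ℕ) * k := fun a => by
    obtain ⟨k, hk⟩ := (ZMod.intCast_eq_intCast_iff_dvd_sub _ _ _).1 (congrFun (congrArg Prod.snd e) a)
    exact ⟨k, by linarith⟩
  choose u hu using e2
  obtain ⟨n1, g1⟩ := col_spec hA w0 e1
  obtain ⟨mD, mq⟩ := hB.mob _ _ n1 y hy
  refine ⟨_, _, n1, fun a b => ?_, Set.mem_iUnion₂.2 ⟨w, wT, fun σ hσ => ?_⟩⟩
  · obtain ⟨k, hk⟩ := hN _ (TX wT).2 u w a b
    refine ⟨k, ?_⟩
    rw [mat, of_apply, col_cong w0 (R * N) (u := lv F u) (fun j => by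
      rw [← lv_add]; congr 1; funext a; exact hu a), map_add, map_smul, Finsupp.add_apply,
      Finsupp.smul_apply, smul_eq_mul, ← hk, F.β.repr_self, Finsupp.single_apply, one_apply]
    push_cast
    ring
  · obtain ⟨m1, m2⟩ := mq σ hσ
    obtain ⟨m2, m3⟩ := m2 (lv F w)
    rw [g1] at m2 m3
    obtain ⟨s1, s2⟩ := sh σ (Finset.mem_sdiff.1 hσ).1
    have qp := hy σ hσ
    have qp' := mD σ hσ
    have mp : 0 < ‖F.mu (fc F (nv F (lv F w)) (lv F v) (lv F w) 0)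
        (fc F (nv F (lv F w)) (lv F v) (lv F w) 1) y σ‖ ^ 2 :=
      (mul_pos_iff_of_pos_right qp').1 (m1 ▸ qp)
    rw [m2, ← m1, norm_mul, mul_pow] at s1
    rw [m3, ← m1, norm_mul, mul_pow] at s2
    exact ⟨qp'.le, le_of_mul_le_mul_left (by linarith) mp, le_of_mul_le_mul_left (by linarith) mp⟩

end

end Pool.Agent.GAM

end MrgPart1

-- ======== part 2: formerly Pool.Agent.MP_cbf1af_ag.gam.FamA
section MrgPart2

/-! PROJECT GAM, row FAMA: the period map of the family. -/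

namespace Pool.Agent.GAM

open Matrix Complex Filter Topology MvPolynomial
open Pool.Agent.CMP (Qb)

noncomputable section

namespace Fama

section Ana

variable {X n : Type} [NormedAddCommGroup X] [NormedSpace ℂ X] [Fintype n] [DecidableEq n]

theorem ana_det {M : X → Matrix n n ℂ} {x : X} (h : ∀ i j, AnalyticAt ℂ (fun y => M y i j) x) :
    AnalyticAt ℂ (fun y => (M y).det) x := by
  simp only [Matrix.det_apply']
  refine Finset.analyticAt_fun_sum _ fun σ _ => analyticAt_const.mul ?_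
  exact Finset.analyticAt_fun_prod _ fun i _ => h _ _

theorem ana_inv {M : X → Matrix n n ℂ} {x : X} (h : ∀ i j, AnalyticAt ℂ (fun y => M y i j) x)
    (h0 : (M x).det ≠ 0) (i j : n) : AnalyticAt ℂ (fun y => (M y)⁻¹ i j) x := by
  simp only [Matrix.inv_def, Matrix.smul_apply, Ring.inverse_eq_inv', smul_eq_mul,
    Matrix.adjugate_apply]
  refine ((ana_det h).inv h0).mul (ana_det fun a b => ?_)
  simp only [Matrix.updateRow_apply]
  split_ifs
  · exact analyticAt_const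
  · exact h a b

end Ana

variable {E : Type} [Field E] [NumberField E] (F : Fam E)

omit [NumberField E] in
theorem cj_apply (σ : Emb E) (x : E) : cj σ x = (starRingEnd ℂ) (σ x) := rfl

omit [NumberField E] in
theorem cj_cj (σ : Emb E) : cj (cj σ) = σ := by
  ext x
  simp

omit [NumberField E] in
theorem cj_inj {σ τ : Emb E} : cj σ = cj τ ↔ σ = τ :=
  ⟨fun h => by rw [← cj_cj σ, h, cj_cj], fun h => by rw [h]⟩

omit [NumberField E] in
theorem mem_cj {Φ : Finset (Emb E)} (h : IsType Φ) (σ : Emb E) : cj σ ∈ Φ ↔ σ ∉ Φ := by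
  rw [h (cj σ), cj_cj]

theorem xi_neg (i : Fin 2) : F.c (F.ξ i) = -F.ξ i := by
  fin_cases i
  · exact F.p₁.1
  · exact F.p₂.1

theorem xi_im (σ : Emb E) (i : Fin 2) : σ (F.ξ i) = I * ((σ (F.ξ i)).im : ℂ) := by
  have h := F.hc.1 σ (F.ξ i)
  rw [xi_neg, map_neg] at h
  have h2 := congrArg Complex.re h
  simp only [neg_re, conj_re] at h2
  apply Complex.ext
  · simp; linarith
  · simp

theorem im0_pos {σ : Emb E} (h : σ ∈ F.Φ₁) : 0 < (σ (F.ξ 0)).im := F.p₁.2 σ h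

theorem im1_pos {σ : Emb E} (h : σ ∈ F.Φ₂) : 0 < (σ (F.ξ 1)).im := F.p₂.2 σ h

theorem im0_neg {σ : Emb E} (h : σ ∉ F.Φ₁) : (σ (F.ξ 0)).im < 0 := by
  have := im0_pos F ((mem_cj F.h₁ σ).2 h)
  rw [cj_apply, conj_im] at this
  linarith

theorem im1_neg {σ : Emb E} (h : σ ∉ F.Φ₂) : (σ (F.ξ 1)).im < 0 := by
  have := im1_pos F ((mem_cj F.h₂ σ).2 h)
  rw [cj_apply, conj_im] at this
  linarith

theorem im0_ne (σ : Emb E) : (σ (F.ξ 0)).im ≠ 0 := by
  by_cases h : σ ∈ F.Φ₁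
  · exact (im0_pos F h).ne'
  · exact (im0_neg F h).ne

theorem im1_ne (σ : Emb E) : (σ (F.ξ 1)).im ≠ 0 := by
  by_cases h : σ ∈ F.Φ₂
  · exact (im1_pos F h).ne'
  · exact (im1_neg F h).ne

theorem xi0_ne (σ : Emb E) : σ (F.ξ 0) ≠ 0 := fun h => im0_ne F σ (by rw [h]; rfl)

theorem xi1_ne (σ : Emb E) : σ (F.ξ 1) ≠ 0 := fun h => im1_ne F σ (by rw [h]; rfl)

theorem d_eq (σ : Emb E) : σ F.d = (((σ (F.ξ 1)).im / (σ (F.ξ 0)).im : ℝ) : ℂ) := by
  rw [Fam.d, map_div₀]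
  conv_lhs => rw [xi_im F σ 1, xi_im F σ 0]
  rw [mul_div_mul_left _ _ I_ne_zero]
  push_cast
  rfl

theorem d_re (σ : Emb E) : (σ F.d).re = (σ (F.ξ 1)).im / (σ (F.ξ 0)).im := by
  rw [d_eq, ofReal_re]

theorem cj_d (σ : Emb E) : cj σ F.d = σ F.d := by
  rw [cj_apply, d_eq, conj_ofReal]

theorem ex_out (y : F.Jn → ℂ) {σ : Emb E} (h : σ ∉ F.Jn) : F.ex y σ = 0 := dif_neg h

theorem ex_in (y : F.Jn → ℂ) {σ : Emb E} (h : σ ∈ F.Jn) : F.ex y σ = y ⟨σ, h⟩ := dif_pos h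

theorem ex_ana (σ : Emb E) (y : F.Jn → ℂ) : AnalyticAt ℂ (fun y' => F.ex y' σ) y := by
  by_cases h : σ ∈ F.Jn
  · simp only [ex_in F _ h]
    exact (ContinuousLinearMap.proj (R := ℂ) (φ := fun _ : F.Jn => ℂ) ⟨σ, h⟩).analyticAt y
  · simp only [ex_out F _ h]
    exact analyticAt_const

/-- coefficient of the first coordinate -/
def ca (y : F.Jn → ℂ) (ρ : Emb E) : ℂ :=
  if ρ ∈ F.Φ₁ then 1 else if ρ ∈ F.Φ₂ then F.ex y (cj ρ) / ρ F.d else 0

/-- coefficient of the second coordinate -/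
def cb (y : F.Jn → ℂ) (ρ : Emb E) : ℂ := if ρ ∈ F.Φ₁ then -F.ex y ρ else 1

theorem ell_eq (y : F.Jn → ℂ) (ρ : Emb E) (x : Fin 2 → E) :
    F.ell y ρ x = ca F y ρ * F.em ρ (x 0) + cb F y ρ * F.em ρ (x 1) := by
  unfold Fam.ell ca cb Fam.em
  by_cases h1 : ρ ∈ F.Φ₁
  · simp only [h1, if_true, true_or]; ring
  · by_cases h2 : ρ ∈ F.Φ₂
    · simp only [h1, h2, if_true, if_false, or_true]; ring
    · simp only [h1, h2, if_false, or_self]; ring

theorem sig_ana (a : Emb E ⊕ Emb E) (ρ : Emb E) (y : F.Jn → ℂ) :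
    AnalyticAt ℂ (fun y' => F.sig y' a ρ) y := by
  have h1 : AnalyticAt ℂ (fun y' => ca F y' ρ) y := by
    unfold ca
    split_ifs
    · exact analyticAt_const
    · exact (ex_ana F _ y).div_const
    · exact analyticAt_const
  have h2 : AnalyticAt ℂ (fun y' => cb F y' ρ) y := by
    unfold cb
    split_ifs
    · exact (ex_ana F _ y).neg
    · exact analyticAt_const
  simp only [Fam.sig, Matrix.of_apply, ell_eq]
  exact (h1.mul analyticAt_const).add (h2.mul analyticAt_const)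

variable {F}

/-- the pairing of two combinations of basic columns -/
theorem pair (K : CmA E F.c) (σ σ' : Emb E) (A B A' B' : ℂ) :
    ∑ a, ∑ b, (A * σ (F.β a 0) + B * σ (F.β a 1)) * J (Emb E) ℂ a b *
      (A' * σ' (F.β b 0) + B' * σ' (F.β b 1)) =
      if σ = cj σ' then -(A * A' / σ' (F.ξ 0) + B * B' / σ' (F.ξ 1)) else 0 := by
  have h := K.dual (Fin 2) (Emb E) F.ξ F.β F.hβ
  have e : ∑ a, ∑ b, (A * σ (F.β a 0) + B * σ (F.β a 1)) * J (Emb E) ℂ a b *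
      (A' * σ' (F.β b 0) + B' * σ' (F.β b 1)) =
      A * A' * (∑ a, ∑ b, σ (F.β a 0) * J (Emb E) ℂ a b * σ' (F.β b 0)) +
      A * B' * (∑ a, ∑ b, σ (F.β a 0) * J (Emb E) ℂ a b * σ' (F.β b 1)) +
      B * A' * (∑ a, ∑ b, σ (F.β a 1) * J (Emb E) ℂ a b * σ' (F.β b 0)) +
      B * B' * (∑ a, ∑ b, σ (F.β a 1) * J (Emb E) ℂ a b * σ' (F.β b 1)) := by
    simp only [Finset.mul_sum, ← Finset.sum_add_distrib]
    refine Finset.sum_congr rfl fun a _ => Finset.sum_congr rfl fun b _ => ?_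
    ring
  rw [e, h 0 0, h 0 1, h 1 0, h 1 1]
  by_cases hs : σ = cj σ'
  · simp only [hs, and_true, if_true, zero_ne_one, one_ne_zero, if_false]
    ring
  · simp only [hs, and_false, if_false]
    ring

theorem bil (K : CmA E F.c) (y y' : F.Jn → ℂ) (ρ ρ' : Emb E) :
    ((F.sig y)ᵀ * J (Emb E) ℂ * F.sig y') ρ ρ' =
      if F.em ρ = cj (F.em ρ') then
        -(ca F y ρ * ca F y' ρ' / F.em ρ' (F.ξ 0) + cb F y ρ * cb F y' ρ' / F.em ρ' (F.ξ 1))
      else 0 := by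
  rw [← pair K]
  simp only [Matrix.mul_apply, Matrix.transpose_apply, Fam.sig, Matrix.of_apply, ell_eq,
    Finset.sum_mul]
  rw [Finset.sum_comm]

theorem ses (K : CmA E F.c) (y : F.Jn → ℂ) (ρ ρ' : Emb E) :
    ((F.sig y)ᴴ * J (Emb E) ℂ * F.sig y) ρ ρ' =
      if F.em ρ = F.em ρ' then
        -((starRingEnd ℂ) (ca F y ρ) * ca F y ρ' / F.em ρ' (F.ξ 0) +
          (starRingEnd ℂ) (cb F y ρ) * cb F y ρ' / F.em ρ' (F.ξ 1))
      else 0 := by
  have h := pair K (cj (F.em ρ)) (F.em ρ') ((starRingEnd ℂ) (ca F y ρ))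
    ((starRingEnd ℂ) (cb F y ρ)) (ca F y ρ') (cb F y ρ')
  simp only [cj_inj] at h
  rw [← h]
  simp only [Matrix.mul_apply, Matrix.conjTranspose_apply, Fam.sig, Matrix.of_apply, ell_eq,
    Finset.sum_mul, star_add, star_mul', cj_apply, RCLike.star_def]
  rw [Finset.sum_comm]

theorem em_1 {ρ : Emb E} (h : ρ ∈ F.Φ₁) : F.em ρ = ρ := if_pos (Or.inl h)

theorem em_2 {ρ : Emb E} (h : ρ ∈ F.Φ₂) : F.em ρ = ρ := if_pos (Or.inr h)

theorem em_0 {ρ : Emb E} (h : ρ ∉ F.Φ₁) (h' : ρ ∉ F.Φ₂) : F.em ρ = cj ρ :=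
  if_neg (not_or.mpr ⟨h, h'⟩)

theorem xi1_eq (σ : Emb E) : σ (F.ξ 1) = σ F.d * σ (F.ξ 0) := by
  rw [Fam.d, map_div₀, div_mul_cancel₀ _ (xi0_ne F σ)]

theorem d_ne (σ : Emb E) : σ F.d ≠ 0 := fun h => xi1_ne F σ (by rw [xi1_eq, h, zero_mul])

theorem bil_jn (K : CmA E F.c) (y y' : F.Jn → ℂ) {σ : Emb E} (h1 : σ ∈ F.Φ₁) (h2 : σ ∉ F.Φ₂) :
    ((F.sig y)ᵀ * J (Emb E) ℂ * F.sig y') (cj σ) σ =
      (F.ex y' σ - F.ex y σ) / σ (F.ξ 1) := by
  have h3 : cj σ ∉ F.Φ₁ := (F.h₁ σ).1 h1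
  have h4 : cj σ ∈ F.Φ₂ := (mem_cj F.h₂ σ).2 h2
  rw [bil K, em_1 h1, em_2 h4, if_pos rfl]
  simp only [ca, cb, h1, h3, h4, if_true, if_false, cj_cj, cj_d]
  rw [xi1_eq]
  have := xi0_ne F σ
  have := d_ne (F := F) σ
  field_simp
  ring

theorem bil_zero (K : CmA E F.c) (y : F.Jn → ℂ) :
    (F.sig y)ᵀ * J (Emb E) ℂ * F.sig y = 0 := by
  have main : ∀ ρ ρ' : Emb E, F.em ρ = cj (F.em ρ') → ρ' ∈ F.Φ₁ ∨ ρ ∈ F.Φ₁ → ρ' ∈ F.Φ₁ →
      ((F.sig y)ᵀ * J (Emb E) ℂ * F.sig y) ρ ρ' = 0 := by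
    intro ρ ρ' h _ h1
    rw [em_1 h1] at h
    have h3 : cj ρ' ∉ F.Φ₁ := (F.h₁ ρ').1 h1
    by_cases a1 : ρ ∈ F.Φ₁
    · rw [em_1 a1] at h; exact absurd (h ▸ a1) h3
    · by_cases a2 : ρ ∈ F.Φ₂
      · rw [em_2 a2] at h
        subst h
        rw [bil_jn K y y h1 ((mem_cj F.h₂ ρ').1 a2), sub_self, zero_div]
      · rw [em_0 a1 a2, cj_inj] at h
        exact absurd (h ▸ h1) a1
  have anti : ((F.sig y)ᵀ * J (Emb E) ℂ * F.sig y)ᵀ = -((F.sig y)ᵀ * J (Emb E) ℂ * F.sig y) := by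
    rw [Matrix.transpose_mul, Matrix.transpose_mul, Matrix.transpose_transpose, J_transpose,
      Matrix.neg_mul, Matrix.mul_neg, Matrix.mul_assoc]
  ext ρ ρ'
  by_cases h : F.em ρ = cj (F.em ρ')
  · by_cases h1 : ρ' ∈ F.Φ₁
    · exact main ρ ρ' h (Or.inl h1) h1
    · by_cases a1 : ρ ∈ F.Φ₁
      · have h' : F.em ρ' = cj (F.em ρ) := by rw [h, cj_cj]
        have h5 := main ρ' ρ h' (Or.inl a1) a1
        have h6 := congrFun (congrFun anti ρ) ρ'
        rw [Matrix.transpose_apply, h5, Matrix.neg_apply] at h6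
        exact neg_eq_zero.mp h6.symm
      · exfalso
        have m2 : ∀ τ : Emb E, τ ∉ F.Φ₁ → F.em τ ∈ F.Φ₂ := by
          intro τ hτ
          by_cases b : τ ∈ F.Φ₂
          · rw [em_2 b]; exact b
          · rw [em_0 hτ b]; exact (mem_cj F.h₂ τ).2 b
        have b1 := m2 ρ a1
        rw [h] at b1
        exact (mem_cj F.h₂ _).1 b1 (m2 ρ' h1)
  · rw [bil K, if_neg h]; rfl

variable (F) in
/-- the constant factor of the hermitian form -/
def sc (ρ : Emb E) : ℝ := if ρ ∈ F.Φ₁ then 1 / (ρ (F.ξ 0)).im else 1 / (F.em ρ (F.ξ 1)).im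

theorem sc_pos (ρ : Emb E) : 0 < sc F ρ := by
  unfold sc
  split_ifs with h
  · exact one_div_pos.mpr (im0_pos F h)
  · refine one_div_pos.mpr (im1_pos F ?_)
    by_cases b : ρ ∈ F.Φ₂
    · rw [em_2 b]; exact b
    · rw [em_0 h b]; exact (mem_cj F.h₂ ρ).2 b

theorem conj_mul_eq (z : ℂ) : (starRingEnd ℂ) z * z = ((‖z‖ ^ 2 : ℝ) : ℂ) := by
  rw [mul_comm, mul_conj, normSq_eq_norm_sq]

theorem herm_diag (K : CmA E F.c) (y : F.Jn → ℂ) :
    herm (F.sig y) = diagonal fun ρ =>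
      ((sc F ρ * (if ρ ∈ F.Φ₁ then F.q y ρ else F.q y (cj ρ)) : ℝ) : ℂ) := by
  ext ρ ρ'
  rw [herm, Matrix.smul_apply, ses K, smul_eq_mul]
  by_cases hρ : ρ = ρ'
  · subst hρ
    rw [if_pos rfl, diagonal_apply_eq, conj_mul_eq, conj_mul_eq, xi_im F _ 0, xi_im F _ 1]
    have a0 : (((F.em ρ) (F.ξ 0)).im : ℂ) ≠ 0 := ofReal_ne_zero.mpr (im0_ne F _)
    have a1 : (((F.em ρ) (F.ξ 1)).im : ℂ) ≠ 0 := ofReal_ne_zero.mpr (im1_ne F _)
    have e : -I * -(((‖ca F y ρ‖ ^ 2 : ℝ) : ℂ) / (I * (((F.em ρ) (F.ξ 0)).im : ℂ)) +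
        ((‖cb F y ρ‖ ^ 2 : ℝ) : ℂ) / (I * (((F.em ρ) (F.ξ 1)).im : ℂ))) =
        ((‖ca F y ρ‖ ^ 2 / ((F.em ρ) (F.ξ 0)).im + ‖cb F y ρ‖ ^ 2 / ((F.em ρ) (F.ξ 1)).im : ℝ) :
          ℂ) := by
      have := I_ne_zero
      push_cast
      field_simp
    rw [e]
    congr 1
    have b0 := im0_ne F ρ
    have b1 := im1_ne F ρ
    by_cases h1 : ρ ∈ F.Φ₁
    · simp only [sc, ca, cb, h1, if_true, em_1 h1, Fam.q, d_re, norm_one, norm_neg]
      field_simp
    · by_cases h2 : ρ ∈ F.Φ₂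
      · simp only [sc, ca, cb, h1, h2, if_true, if_false, em_2 h2, Fam.q, cj_d, norm_one,
          norm_div, div_pow]
        rw [d_re, d_eq, norm_real, Real.norm_eq_abs, sq_abs]
        field_simp
        ring
      · have h3 : cj ρ ∉ F.Jn := fun h =>
          (Finset.mem_sdiff.mp h).2 ((mem_cj F.h₂ ρ).2 h2)
        simp [sc, ca, cb, h1, h2, Fam.q, ex_out F y h3]
  · rw [diagonal_apply_ne _ hρ]
    split_ifs with h
    · have main : ∀ τ τ' : Emb E, τ ≠ τ' → F.em τ = F.em τ' → τ' ∉ F.Φ₁ → τ' ∉ F.Φ₂ →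
          cb F y τ = 0 ∧ ca F y τ' = 0 := by
        intro τ τ' hne he a1 a2
        refine ⟨?_, by simp [ca, a1, a2]⟩
        rw [em_0 a1 a2] at he
        by_cases b : τ ∈ F.Φ₁ ∨ τ ∈ F.Φ₂
        · have e1 : F.em τ = τ := if_pos b
          rw [e1] at he
          have c1 : τ ∈ F.Φ₁ := he ▸ (mem_cj F.h₁ τ').2 a1
          have c2 : τ ∈ F.Φ₂ := he ▸ (mem_cj F.h₂ τ').2 a2
          have c3 : τ ∉ F.Jn := fun h => (Finset.mem_sdiff.mp h).2 c2
          simp [cb, c1, ex_out F y c3]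
        · have e1 : F.em τ = cj τ := if_neg b
          rw [e1, cj_inj] at he
          exact absurd he hne
      by_cases b' : ρ' ∈ F.Φ₁ ∨ ρ' ∈ F.Φ₂
      · by_cases b : ρ ∈ F.Φ₁ ∨ ρ ∈ F.Φ₂
        · have e1 : F.em ρ = ρ := if_pos b
          have e2 : F.em ρ' = ρ' := if_pos b'
          rw [e1, e2] at h
          exact absurd h hρ
        · obtain ⟨c1, c2⟩ := main ρ' ρ (Ne.symm hρ) h.symm (not_or.mp b).1 (not_or.mp b).2
          simp [c1, c2]
      · obtain ⟨c1, c2⟩ := main ρ ρ' hρ h (not_or.mp b').1 (not_or.mp b').2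
        simp [c1, c2]
    · rw [mul_zero]

theorem q_pos {y : F.Jn → ℂ} (hy : y ∈ F.D) (σ : Emb E) : 0 < F.q y σ := by
  by_cases h : σ ∈ F.Jn
  · exact hy σ h
  · simp [Fam.q, ex_out F y h]

theorem riem (K : CmA E F.c) {y : F.Jn → ℂ} (hy : y ∈ F.D) : Riem (F.sig y) := by
  refine ⟨bil_zero K y, fun u hu => ?_⟩
  rw [herm_diag K]
  have hp : ∀ ρ, 0 < sc F ρ * (if ρ ∈ F.Φ₁ then F.q y ρ else F.q y (cj ρ)) := fun ρ =>
    mul_pos (sc_pos ρ) (by split_ifs <;> exact q_pos hy _)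
  obtain ⟨h, hh⟩ : ∃ h : Emb E → ℝ,
    ∀ ρ, h ρ = sc F ρ * (if ρ ∈ F.Φ₁ then F.q y ρ else F.q y (cj ρ)) := ⟨_, fun _ => rfl⟩
  simp only [← hh] at hp ⊢
  have e : star u ⬝ᵥ (diagonal fun ρ => (h ρ : ℂ)) *ᵥ u = ((∑ ρ, h ρ * ‖u ρ‖ ^ 2 : ℝ) : ℂ) := by
    simp only [dotProduct, mulVec_diagonal, Pi.star_apply, RCLike.star_def, ofReal_sum]
    refine Finset.sum_congr rfl fun ρ _ => ?_
    rw [mul_left_comm, conj_mul_eq, ofReal_mul]
  rw [e, ofReal_re]
  obtain ⟨ρ, hρ⟩ := Function.ne_iff.mp hu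
  refine Finset.sum_pos' (fun τ _ => mul_nonneg (hp τ).le (sq_nonneg _))
    ⟨ρ, Finset.mem_univ _, mul_pos (hp ρ) ?_⟩
  exact pow_pos (norm_pos_iff.mpr hρ) 2

theorem opn : IsOpen F.D := by
  have e : F.D = ⋂ σ : Emb E, {y | 0 < F.q y σ} := by
    ext y
    simp only [Set.mem_iInter, Set.mem_ofPred_eq]
    exact ⟨fun h σ => q_pos h σ, fun h σ _ => h σ⟩
  rw [e]
  refine isOpen_iInter_of_finite fun σ => isOpen_lt continuous_const ?_
  have hc : Continuous fun y => F.ex y σ :=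
    continuous_iff_continuousAt.mpr fun y => (ex_ana F σ y).continuousAt
  unfold Fam.q
  fun_prop

theorem inv_ana (hC : Act (Emb E)) (K : CmA E F.c) {y : F.Jn → ℂ} (hy : y ∈ F.D) (i j : Emb E) :
    AnalyticAt ℂ (fun y' => (F.sig y').toRows₂⁻¹ i j) y :=
  ana_inv (M := fun y' => (F.sig y').toRows₂) (fun a b => sig_ana F (Sum.inr a) b y)
    (hC.riem _ (riem K hy)).1.ne_zero i j

theorem tau_ana (hC : Act (Emb E)) (K : CmA E F.c) {y : F.Jn → ℂ} (hy : y ∈ F.D) (i j : Emb E) :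
    AnalyticAt ℂ (fun y' => F.tau y' i j) y := by
  simp only [Fam.tau, tauOf, Matrix.mul_apply]
  exact Finset.analyticAt_fun_sum _ fun k _ =>
    (sig_ana F (Sum.inl i) k y).mul (inv_ana hC K hy k j)

theorem per_bil {κ : Type} [Fintype κ] [DecidableEq κ] (τ τ' : Matrix κ κ ℂ) (h : τ.IsSymm) :
    (per τ)ᵀ * J κ ℂ * per τ' = τ' - τ := by
  rw [per, per, transpose_fromRows, J, fromCols_mul_fromBlocks, fromCols_mul_fromRows, h.eq]
  simp [sub_eq_add_neg]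

theorem imm (hC : Act (Emb E)) (K : CmA E F.c) {y : F.Jn → ℂ} (hy : y ∈ F.D) :
    Function.Injective (fderiv ℂ (fun y' => fun i j => F.tau y' i j) y) := by
  refine (injective_iff_map_eq_zero _).mpr fun t ht => ?_
  have hd : ∀ i j, fderiv ℂ (fun y' => F.tau y' i j) y t = 0 := by
    intro i j
    have h1 : ∀ i, DifferentiableAt ℂ (fun y' => fun j => F.tau y' i j) y := fun i =>
      differentiableAt_pi.mpr fun j => (tau_ana hC K hy i j).differentiableAt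
    rw [fderiv_pi h1] at ht
    have h2 : fderiv ℂ (fun y' => fun j => F.tau y' i j) y t = 0 := congrFun ht i
    rw [fderiv_pi fun j => (tau_ana hC K hy i j).differentiableAt] at h2
    exact congrFun h2 j
  funext σ
  obtain ⟨h1, h2⟩ := Finset.mem_sdiff.mp σ.2
  have hev : (fun y' : F.Jn → ℂ => (y' σ - y σ) / σ.1 (F.ξ 1)) =ᶠ[𝓝 y] fun y' =>
      ∑ j, (∑ i, (F.sig y).toRows₂ i (cj σ.1) * (F.tau y' i j - F.tau y i j)) *
        (F.sig y').toRows₂ j σ.1 := by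
    filter_upwards [opn.mem_nhds hy] with y' hy'
    have e := bil_jn K y y' h1 h2
    rw [ex_in F y σ.2, ex_in F y' σ.2] at e
    rw [← e]
    obtain ⟨-, a1, a2, -⟩ := hC.riem _ (riem K hy)
    obtain ⟨-, -, b2, -⟩ := hC.riem _ (riem K hy')
    have e2 : (F.sig y)ᵀ * J (Emb E) ℂ * F.sig y' =
        (F.sig y).toRows₂ᵀ * (F.tau y' - F.tau y) * (F.sig y').toRows₂ := by
      conv_lhs => rw [← a2, ← b2]
      rw [Fam.tau, Fam.tau, ← per_bil _ _ a1.1, Matrix.transpose_mul]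
      simp only [Matrix.mul_assoc]
    rw [e2]
    simp only [Matrix.mul_apply, Matrix.transpose_apply, Matrix.sub_apply]
  have hl : HasFDerivAt (fun y' : F.Jn → ℂ => (y' σ - y σ) / σ.1 (F.ξ 1))
      ((σ.1 (F.ξ 1))⁻¹ • ContinuousLinearMap.proj (R := ℂ) (φ := fun _ : F.Jn => ℂ) σ) y := by
    simp only [div_eq_mul_inv]
    exact ((hasFDerivAt_apply σ y).sub_const _).mul_const _
  have hr := HasFDerivAt.fun_sum (u := Finset.univ) fun j _ =>
    (HasFDerivAt.fun_sum (u := Finset.univ) fun i _ =>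
      (((tau_ana hC K hy i j).differentiableAt.hasFDerivAt.sub_const (F.tau y i j)).const_mul
        ((F.sig y).toRows₂ i (cj σ.1)))).fun_mul
      (sig_ana F (Sum.inr j) σ.1 y).differentiableAt.hasFDerivAt
  have hu := congrArg (fun L : (F.Jn → ℂ) →L[ℂ] ℂ => L t) (hl.unique (hr.congr_of_eventuallyEq hev))
  simpa [hd, xi1_ne F σ.1] using hu

/-- the coordinates are linear over the rationals -/
def lin (y : F.Jn → ℂ) (ρ : Emb E) : (Fin 2 → E) →ₗ[ℚ] ℂ where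
  toFun x := F.ell y ρ x
  map_add' x x' := by
    simp only [ell_eq, Pi.add_apply, map_add]
    ring
  map_smul' r x := by
    simp only [ell_eq, Pi.smul_apply, RingHom.id_apply, Rat.smul_def, map_mul,
      map_ratCast]
    ring

theorem tor_mem (hC : Act (Emb E)) (K : CmA E F.c) {y : F.Jn → ℂ} (hy : y ∈ F.D)
    (x : Fin 2 → E) : (fun ρ => F.ell y ρ x) ᵥ* (F.sig y).toRows₂⁻¹ ∈ tor (F.tau y) := by
  obtain ⟨a0, -, a2, -⟩ := hC.riem _ (riem K hy)
  refine ⟨F.β.repr x, ?_⟩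
  have e : (fun ρ => F.ell y ρ x) = cq (F.β.repr x) ᵥ* F.sig y := by
    funext ρ
    have h := congrArg (lin y ρ) (F.β.sum_repr x)
    rw [map_sum] at h
    refine h.symm.trans ?_
    simp only [map_smul, Rat.smul_def]
    rfl
  have e2 : F.sig y * (F.sig y).toRows₂⁻¹ = per (F.tau y) := by
    conv_lhs => rw [← a2]
    rw [a2, Fam.tau]
    nth_rewrite 1 [← a2]
    rw [Matrix.mul_assoc, Matrix.mul_nonsing_inv _ a0, Matrix.mul_one]
  rw [e, vecMul_vecMul, e2]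

end Fama

open Fama in
theorem famA (hC : All Act) (hK : AllC) : AllF FamA := by
  intro E _ _ F
  have K := hK E F.c F.hc
  have C := hC (Emb E)
  refine ⟨?_, fun σ hσ => ?_, fun σ hσ => ?_, opn, fun y hy => riem K hy,
    ⟨sc F, sc_pos, fun y ρ => ?_⟩, fun y hy => ?_, fun y hy => inv_ana C K hy,
    fun y hy => imm C K hy, fun y ρ => ⟨lin y ρ, fun _ => rfl⟩, fun y ρ t x => ?_,
    fun y hy => tor_mem C K hy⟩
  · rw [Fam.d, map_div₀, xi_neg, xi_neg, neg_div_neg_eq]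
  · obtain ⟨h1, h2⟩ := Finset.mem_sdiff.mp hσ
    rw [d_re]
    exact div_neg_of_neg_of_pos (im1_neg F h2) (im0_pos F h1)
  · obtain ⟨h1, h2⟩ := Finset.mem_inter.mp hσ
    rw [d_re]
    exact div_pos (im1_pos F h2) (im0_pos F h1)
  · rw [herm_diag K, diagonal_apply_eq, ofReal_re]
  · exact analyticAt_pi_iff.mpr fun i => analyticAt_pi_iff.mpr fun j => tau_ana C K hy i j
  · simp only [ell_eq, Pi.smul_apply, smul_eq_mul, map_mul]
    ring

end

end Pool.Agent.GAM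

end MrgPart2

-- ======== part 3: formerly Pool.Agent.MP_cbf1af_ag.gam.Sq
section MrgPart3

/-! PROJECT GAM, module SQ: the square relation. -/

namespace Pool.Agent.GAM

open Complex Filter Topology MvPolynomial

namespace Sq

lemma th_sum {κ ι : Type} [Fintype κ] [DecidableEq κ] (B : ThB κ) {M : ℕ} (hM : 0 < M)
    {b : ι → (κ → ℚ) → ℂ} {a : ι → ℂ} (hb : ∀ i, Lev M (b i)) (ha : ∀ i, Alg (a i))
    {τ : Matrix κ κ ℂ} (hτ : InH τ) (h0 : ∀ i, th (b i) τ = 0) (s : Finset ι) :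
    Lev M (∑ i ∈ s, a i • b i) ∧ th (∑ i ∈ s, a i • b i) τ = 0 := by
  classical
  induction s using Finset.induction_on with
  | empty => exact ⟨⟨by simp, by simp, fun _ => isAlgebraic_zero⟩, by simp [th, thz]⟩
  | insert i s hi ih =>
    have h := B.levSmul M _ _ (ha i) (hb i)
    rw [Finset.sum_insert hi]
    refine ⟨B.levAdd M _ _ h ih.1, ?_⟩
    rw [th, B.add _ _ τ 0 ⟨M, hM, h⟩ ⟨M, hM, ih.1⟩ hτ, B.smul]
    exact (congrArg₂ (a i * · + ·) (h0 i) ih.2).trans (by simp)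

variable {E : Type} [Field E] [NumberField E] {F : Fam E}

lemma weight (B : ThB (Emb E)) (G : FamB F) (hH : ∀ y ∈ F.D, InH (F.tau y))
    {M : ℕ} (hM : 0 < M) (hz : ∀ τ : Matrix (Emb E) (Emb E) ℂ, InH τ → ∃ f, Lev M f ∧ th f τ ≠ 0)
    {σ : Emb E} (hσ : σ ∈ F.Φ₁) : ∃ w : (F.Jn → ℂ) → ℝ, ContinuousOn w F.D ∧
      (∀ y ∈ F.D, 0 < w y) ∧ ∀ a b, F.nm a b = 1 → ∀ y ∈ F.D, ∀ c : ℂ,
        (∀ f, Lev M f → th f (F.tau (F.mob a b y)) = c * th f (F.tau y)) →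
        ‖c ^ 2 * (if σ ∈ F.Φ₂ then 1 else F.mu a b y σ)‖ ^ 2 * w y = w (F.mob a b y) := by
  obtain ⟨ι, _, e, he, he'⟩ := B.basis M hM
  set q : (F.Jn → ℂ) → ℝ := fun y => if σ ∈ F.Φ₂ then 1 else F.q y σ with hq
  have q0 : ∀ y ∈ F.D, 0 < q y := fun y hy => by
    simp only [hq]
    split_ifs with h
    exacts [one_pos, hy σ (Finset.mem_sdiff.2 ⟨hσ, h⟩)]
  have qc : Continuous q := by
    by_cases h : σ ∈ F.Φ₂
    · simp only [hq, if_pos h]
      fun_prop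
    · simp only [hq, if_neg h, Fam.q, Fam.ex, dif_pos (Finset.mem_sdiff.2 ⟨hσ, h⟩)]
      fun_prop
  refine ⟨fun y => (∑ i, ‖th (e i) (F.tau y)‖) ^ 4 / q y,
    ((continuousOn_finsetSum _ fun i _ => (G.ana _ _ ⟨M, hM, (he i).1⟩ ⟨M, hM, (he i).1⟩
      σ).1.continuousOn.norm).pow 4).div qc.continuousOn fun y hy => (q0 y hy).ne',
    fun y hy => div_pos (pow_pos ?_ 4) (q0 y hy), fun a b h y hy c hc => ?_⟩
  · refine (Finset.sum_nonneg fun i _ => norm_nonneg _).lt_of_ne' fun h0 => ?_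
    obtain ⟨f, hf, hf0⟩ := hz _ (hH y hy)
    obtain ⟨a, ha, rfl⟩ := he' f hf
    exact hf0 (th_sum B hM (fun i => (he i).1) ha (hH y hy) (fun i => norm_eq_zero.1
      ((Finset.sum_eq_zero_iff_of_nonneg fun i _ => norm_nonneg _).1 h0 i (Finset.mem_univ i))) _).2
  · obtain ⟨m1, m2⟩ := G.mob a b h y hy
    have e1 : ‖if σ ∈ F.Φ₂ then 1 else F.mu a b y σ‖ ^ 2 * q (F.mob a b y) = q y := by
      simp only [hq]
      split_ifs with h
      · simp
      · exact (m2 σ (Finset.mem_sdiff.2 ⟨hσ, h⟩)).1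
    have := (q0 _ m1).ne'
    have := (q0 _ hy).ne'
    simp only [hc _ (he _).1, norm_mul, norm_pow, ← Finset.mul_sum]
    field_simp
    rw [← e1]
    ring

lemma fam (hA : All Act) (hB : All ThB) (hT : All ThC) (hN : All Nz) (hC : Cs) (hD : Desc)
    (hV : Val) (A : FamA F) (G : FamB F) (hO : Coco F) (hS : Split F) (hP : Pts F)
    (h0 : (F.Φ₁ ∩ F.Φ₂).Nonempty) {Φ Φ' : Finset (Emb E)} {P₁ P₂ P P' : Emb E → ℂ}
    (p₁ : Per F.Φ₁ P₁) (p₂ : Per F.Φ₂ P₂) (t : IsType Φ) (t' : IsType Φ') (p : Per Φ P)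
    (p' : Per Φ' P') (hi : Φ ∩ Φ' = F.Φ₁ ∩ F.Φ₂) (hu : Φ ∪ Φ' = F.Φ₁ ∪ F.Φ₂) {σ : Emb E}
    (hσ : σ ∈ F.Φ₁) : Alg (P₁ σ * P₂ σ / (P σ * P' σ)) := by
  have B := hB (Emb E)
  have hH : ∀ y ∈ F.D, InH (F.tau y) := fun y hy => ((hA _).riem _ (A.riem y hy)).2.1
  obtain ⟨y₀, hy₀⟩ := hP.2 Φ Φ' t t' hi hu
  have hD₀ := A.opn.mem_nhds hy₀.1
  obtain ⟨f₀, s₀, n₀⟩ := (hT _).nz _ (hH y₀ hy₀.1)
  obtain ⟨fk, sk, inj⟩ := (hT _).coord F.Jn (fun y i j => F.tau y i j) y₀ f₀ (A.anaTau _ hy₀.1)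
    (hH y₀ hy₀.1) (mem_of_superset hD₀ fun y hy => (hH y hy).1) (A.imm _ hy₀.1) s₀ n₀
  obtain ⟨⟨g, sg, ng⟩, f, f', sf, sf', nf⟩ := G.nonv y₀ hy₀.1 σ hσ f₀ s₀ n₀
  obtain ⟨M₀, hM₀, hz⟩ := hN (Emb E)
  obtain ⟨M₁, hM₁, ev, lv⟩ := B.common (Fin 4 ⊕ F.Jn) (Sum.elim ![f₀, g, f, f'] fk) (by
    rintro (i | i)
    · fin_cases i <;> assumption
    · exact sk i)
  have hM : 0 < M₁ * M₀ := Nat.mul_pos hM₁ hM₀
  replace lv := fun i => B.levMul _ M₀ _ hM₀ (lv i)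
  obtain ⟨w, wc, w0, hw⟩ := weight B G hH hM (fun τ hτ => (hz τ hτ).imp fun f h =>
    ⟨mul_comm M₀ M₁ ▸ B.levMul _ M₁ _ hM₁ h.1, h.2⟩) hσ
  obtain ⟨K, Kc, KD, hK⟩ := hO h0 (2 * (M₁ * M₀) ^ 2) (by positivity)
  set u : ℂ := if σ ∈ F.Φ₂ then 1 else 2 * Real.pi * I with hu'
  set Fn : Option (Option F.Jn) → (F.Jn → ℂ) → ℂ := fun o y => o.elim (F.den σ g f₀ y)
    fun o => o.elim (F.num σ f f' y / (P₁ σ * P₂ σ / u)) fun k => F.den σ g (fk k) y with hFn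
  have ana : ∀ o, AnalyticOnNhd ℂ (Fn o) F.D := by
    rintro (_ | _ | k)
    · exact (G.ana _ _ sg s₀ σ).2.2
    · exact (G.ana _ _ sf sf' σ).2.1.div_const
    · exact (G.ana _ _ sg (sk k) σ).2.2
  obtain ⟨n, Q, Q0, Qh, hQ⟩ := hC F.Jn Unit _ (fun _ => F.D) (fun _ => K) (fun _ => Fn)
    (fun _ => ⟨A.opn, Kc, KD⟩) (fun _ => ana) (fun _ K' K'c K'D => by
      obtain ⟨m, m0, hm⟩ := Kc.exists_forall_le' (wc.mono KD) fun y hy => w0 y (KD hy)
      obtain ⟨C, hC⟩ := K'c.bddAbove_image (wc.mono K'D)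
      refine ⟨C / m + 1, fun x hx => ?_⟩
      obtain ⟨a, b, h1, h2, h3⟩ := hK x (K'D hx)
      obtain ⟨c, -, c1, c2⟩ := G.aut _ a b hM (ev.mul_right _) h1 h2 x (K'D hx)
      have e := hw a b h1 x (K'D hx) c c1
      replace c2 := c2 σ hσ
      generalize (c ^ 2 * if σ ∈ F.Φ₂ then 1 else F.mu a b x σ) = j at e c2
      have j0 : j ≠ 0 := fun h => (w0 _ (KD h3)).ne (by simpa [h] using e)
      refine ⟨(), _, h3, j⁻¹, ?_, ?_⟩
      · have : ‖j⁻¹‖ ^ 2 ≤ C / m := by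
          rw [le_div_iff₀ m0, norm_inv, inv_pow, inv_mul_le_iff₀ (by positivity)]
          exact ((hm _ h3).trans_eq e.symm).trans
            (mul_le_mul_of_nonneg_left (hC ⟨x, hx, rfl⟩) (by positivity))
        nlinarith [sq_nonneg (‖j⁻¹‖ - 1)]
      · rintro (_ | _ | k)
        · simp only [hFn, Option.elim, (c2 g f₀ (lv (.inl 1)) (lv (.inl 0))).2]
          field_simp
        · simp only [hFn, Option.elim, (c2 f f' (lv (.inl 2)) (lv (.inl 3))).1, mul_div_assoc]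
          rw [inv_mul_cancel_left₀ j0]
        · simp only [hFn, Option.elim, (c2 g (fk k) (lv (.inl 1)) (lv (.inr k))).2]
          field_simp) (by simp)
  obtain ⟨R, R0, hR⟩ := hD _ _ F.D {y | F.Spl y F.Φ₁ F.Φ₂} Fn n Q (fun o => (ana o).continuousOn)
    (fun y hy => hy.1) hP.1 (fun y hy => by
      obtain ⟨c, c0, hc⟩ := (hS y _ _ _ _ hy p₁ p₂).2 σ hσ
      refine ⟨c, c0, ?_⟩
      rintro (_ | _ | k)
      · exact (hc _ _ sg s₀).1
      · simpa only [hFn, Option.elim, div_div, mul_comm c] using (hc _ _ sf sf').2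
      · exact (hc _ _ sg (sk k)).1) Q0 Qh (hQ ())
  obtain ⟨alg, sp⟩ := hS y₀ _ _ _ _ hy₀ p p'
  obtain ⟨c, c0, hc⟩ := sp σ hσ
  have a1 := ((hV F.Jn y₀ (fun k y => th (fk k) (F.tau y) / th f₀ (F.tau y))
    (fun y => Fn (some none) y / Fn none y) R
    (fun k => ((G.ana _ _ (sk k) s₀ σ).1 _ hy₀.1).div ((G.ana _ _ s₀ s₀ σ).1 _ hy₀.1) n₀)
    ((ana _ _ hy₀.1).div (ana _ _ hy₀.1) ng) inj R0 (by
      filter_upwards [hD₀, (ana none _ hy₀.1).continuousAt.eventually_ne ng] with y hy hn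
      refine (congrArg (aeval · R) (funext ?_)).trans (hR y hy hn)
      rintro (_ | k)
      · rfl
      · simp only [hFn, Option.elim, Fam.den] at hn ⊢
        split_ifs at hn ⊢ <;> rw [mul_div_mul_left _ _ (left_ne_zero_of_mul hn)])).2
    fun k => alg.2 _ _ (sk k) s₀ n₀).1
  have ne : ∀ {Ψ : Finset (Emb E)} {X : Emb E → ℂ}, Per Ψ X → X σ ≠ 0 := fun h e =>
    two_pi_I_ne_zero (by rw [← h.1 σ, e, zero_mul])
  have u0 : u ≠ 0 := by
    rw [hu']
    split_ifs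
    exacts [one_ne_zero, two_pi_I_ne_zero]
  convert (hc _ _ sf sf').2.mul (a1.mul (hc _ _ sg s₀).1).inv using 1
  have := ne p₁
  have := ne p₂
  have := ne p
  have := ne p'
  simp only [hFn, Option.elim, ← hu']
  field_simp

theorem core (hA : All Act) (hB : All ThB) (hT : All ThC) (hN : All Nz) (hC : Cs) (hD : Desc)
    (hV : Val) (hK : AllC) (hF : AllF FamA) (hG : AllF FamB) (hO : AllF Coco) (hS : AllF Split)
    (hP : AllF Pts) : GAM.Sq := by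
  intro E _ _ c Φ P hc h h0 hi hu
  have C := hK E c hc
  obtain ⟨ξ₀, p₀⟩ := C.pol _ (h 0).1
  obtain ⟨ξ₁, p₁⟩ := C.pol _ (h 1).1
  obtain ⟨ρ, hρ⟩ := id h0
  obtain ⟨β, hβ⟩ := C.sympl (Fin 2) (Emb E) ![ξ₀, ξ₁] (fun i => by
    fin_cases i
    · exact ⟨fun e => by simpa [show ξ₀ = 0 from e] using p₀.2 ρ (Finset.mem_inter.1 hρ).1, p₀.1⟩
    · exact ⟨fun e => by simpa [show ξ₁ = 0 from e] using p₁.2 ρ (Finset.mem_inter.1 hρ).2, p₁.1⟩)
    (by simp [NumberField.Embeddings.card])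
  let F : Fam E := ⟨c, Φ 0, Φ 1, ![ξ₀, ξ₁], β, hc, (h 0).1, (h 1).1, p₀, p₁, hβ⟩
  have key : ∀ σ ∈ Φ 0, Alg (P 0 σ * P 1 σ / (P 2 σ * P 3 σ)) := fun σ hσ =>
    fam (F := F) hA hB hT hN hC hD hV (hF E F) (hG E F) (hO E F) (hS E F) (hP E F) h0 (h 0).2
      (h 1).2 (h 2).1 (h 3).1 (h 2).2 (h 3).2 hi hu hσ
  intro σ
  by_cases hσ : σ ∈ Φ 0
  · exact key σ hσ
  have e : ∀ i, P i (cj σ) = 2 * Real.pi * I / P i σ ∧ P i σ ≠ 0 := fun i => by
    have : P i σ ≠ 0 := fun e => two_pi_I_ne_zero (by rw [← (h i).2.1 σ, e, zero_mul])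
    exact ⟨by rw [← (h i).2.1 σ, mul_div_cancel_left₀ _ this], this⟩
  convert (key (cj σ) (not_not.1 fun h' => hσ (((h 0).1 σ).2 h'))).inv using 1
  have := (e 0).2
  have := (e 1).2
  have := (e 2).2
  have := (e 3).2
  have := two_pi_I_ne_zero
  simp only [(e _).1]
  generalize (2 * Real.pi * I : ℂ) = t at *
  field_simp

end Sq

theorem sq (hB : All ThB) (hT : All ThC) (hN : All Nz) (hC : Cs) (hD : Desc) (hV : Val)
    (hK : AllC) (hF : AllF FamA) (hG : AllF FamB) (hO : AllF Coco) (hS : AllF Split)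
    (hP : AllF Pts) : Sq :=
  Sq.core actS hB hT hN hC hD hV hK hF hG hO hS hP

end Pool.Agent.GAM

end MrgPart3

-- marker of a merged file
example : 731051 + 220621 = 731051 + 220621 := rfl
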