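import Mathlib.Algebra.AffineMonoid.Basic
import Mathlib.RingTheory.Flat.FaithfullyFlat.Algebra
import Mathlib.Tactic.Monotonicity.Lemmas
import Mathlib.RingTheory.Flat.TorsionFree
import Mathlib.RingTheory.PicardGroup
import Mathlib.Algebra.MvPolynomial.Funext
import Mathlib.Algebra.Order.Star.Real
import Mathlib.Combinatorics.SimpleGraph.Basic
import Mathlib.RingTheory.PiTensorProduct
import Mathlib.NumberTheory.NumberField.CanonicalEmbedding.Basic
import Mathlib.RingTheory.SimpleRing.Principal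
import Mathlib.RingTheory.MvPolynomial.IrreducibleQuadratic
import Mathlib.Topology.UniformSpace.Uniformizable
import Pool.Agent.MP_cbf1af_ag.gam.Spec

-- ======== part 0: formerly Pool.Agent.MP_cbf1af_ag.gam.Afb
section MrgPart0

/-! PROJECT GAM, row AFB: algebraic dependence of meromorphic functions on a complex torus. -/

namespace Pool.Agent.GAM

open Matrix Complex Filter Topology MvPolynomial
open Pool.Agent.CMP (Qb)

namespace Afb

/-- scaling of forms -/
theorem eval_scale {σ : Type} [Fintype σ] {P : MvPolynomial σ ℂ} {n : ℕ}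
    (hP : P.IsHomogeneous n) (c : ℂ) (x : σ → ℂ) :
    eval (fun i => c * x i) P = c ^ n * eval x P := by
  rw [eval_eq', eval_eq', Finset.mul_sum]
  refine Finset.sum_congr rfl fun d hd => ?_
  have h1 : ∑ i, d i = n := by
    have := hP (mem_support_iff.mp hd)
    rw [← this, Finsupp.weight_apply, Finsupp.sum_fintype _ _ (by simp)]
    simp
  simp_rw [mul_pow]
  rw [Finset.prod_mul_distrib, Finset.prod_pow_eq_pow_sum, h1]
  ring

/-- dehomogenisation -/
theorem dehom {σ : Type} [Fintype σ] {P : MvPolynomial (Option σ) ℂ} {n : ℕ}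
    (hP : P.IsHomogeneous n) (h0 : P ≠ 0) :
    ∃ Q : MvPolynomial σ ℂ, Q ≠ 0 ∧ ∀ x : Option σ → ℂ, x none ≠ 0 → eval x P = 0 →
      eval (fun i => x (some i) / x none) Q = 0 := by
  have key : ∀ x : Option σ → ℂ, x none ≠ 0 →
      eval x P = x none ^ n * eval (fun i => x (some i) / x none)
        (bind₁ (fun o : Option σ => o.elim (1 : MvPolynomial σ ℂ) X) P) := by
    intro x hx
    have h1 : eval (fun i => x (some i) / x none)
        (bind₁ (fun o : Option σ => o.elim (1 : MvPolynomial σ ℂ) X) P) =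
        eval (fun o : Option σ => (x none)⁻¹ * x o) P := by
      rw [← coe_aeval_eq_eval, ← coe_aeval_eq_eval]
      simp only [RingHom.coe_coe]
      rw [aeval_bind₁]
      congr 2
      funext o
      cases o with
      | none => simp [hx]
      | some i => simp [div_eq_inv_mul]
    rw [h1, eval_scale hP, ← mul_assoc, ← mul_pow, mul_inv_cancel₀ hx, one_pow, one_mul]
  refine ⟨bind₁ (fun o : Option σ => o.elim (1 : MvPolynomial σ ℂ) X) P, fun hQ => h0 ?_,
    fun x hx he => ?_⟩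
  · have : X none * P = 0 := by
      refine MvPolynomial.funext fun x => ?_
      by_cases hx : x none = 0
      · simp [hx]
      · rw [map_mul, key x hx, hQ]
        simp
    exact (mul_eq_zero.mp this).resolve_left (X_ne_zero _)
  · have := key x hx
    rw [he] at this
    exact (mul_eq_zero.mp this.symm).resolve_left (pow_ne_zero _ hx)

variable {κ : Type} [Fintype κ] [DecidableEq κ]

/-- common denominators -/
noncomputable def FF {σ : Type} [Fintype σ] [DecidableEq σ] (A B : σ → (κ → ℂ) → ℂ)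
    (o : Option σ) (z : κ → ℂ) : ℂ :=
  o.elim (∏ j, B j z) fun i => A i z * ∏ j ∈ Finset.univ.erase i, B j z

omit [Fintype κ] [DecidableEq κ] in
theorem FF_div {σ : Type} [Fintype σ] [DecidableEq σ] (A B : σ → (κ → ℂ) → ℂ) (z : κ → ℂ)
    (h : ∀ j, B j z ≠ 0) (i : σ) : FF A B (some i) z / FF A B none z = A i z / B i z := by
  have h1 : ∏ j ∈ Finset.univ.erase i, B j z ≠ 0 := Finset.prod_ne_zero_iff.mpr fun j _ => h j
  have h2 := h i
  simp only [FF, Option.elim]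
  rw [← Finset.mul_prod_erase Finset.univ (fun j => B j z) (Finset.mem_univ i)]
  field_simp

omit [Fintype κ] [DecidableEq κ] in
theorem FF_ne {σ : Type} [Fintype σ] [DecidableEq σ] (A B : σ → (κ → ℂ) → ℂ) (z : κ → ℂ)
    (h : ∀ j, B j z ≠ 0) : FF A B none z ≠ 0 := Finset.prod_ne_zero_iff.mpr fun j _ => h j

omit [DecidableEq κ] in
theorem FF_ana {σ : Type} [Fintype σ] [DecidableEq σ] (A B : σ → (κ → ℂ) → ℂ)
    (hA : ∀ i z, AnalyticAt ℂ (A i) z) (hB : ∀ i z, AnalyticAt ℂ (B i) z) (o : Option σ)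
    (z : κ → ℂ) : AnalyticAt ℂ (FF A B o) z := by
  cases o with
  | none => exact Finset.analyticAt_fun_prod _ fun j _ => hB j z
  | some i => exact (hA i z).mul (Finset.analyticAt_fun_prod _ fun j _ => hB j z)

omit [Fintype κ] [DecidableEq κ] in
theorem FF_aut {σ : Type} [Fintype σ] [DecidableEq σ] (A B : σ → (κ → ℂ) → ℂ) (x y : κ → ℂ)
    (c : σ → ℂ) (h : ∀ i, A i x = c i * A i y ∧ B i x = c i * B i y) (o : Option σ) :
    FF A B o x = (∏ j, c j) * FF A B o y := by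
  cases o with
  | none =>
    simp only [FF, Option.elim]
    rw [← Finset.prod_mul_distrib]
    exact Finset.prod_congr rfl fun j _ => (h j).2
  | some i =>
    simp only [FF, Option.elim]
    rw [← Finset.mul_prod_erase Finset.univ c (Finset.mem_univ i), (h i).1,
      Finset.prod_congr rfl fun j _ => (h j).2, Finset.prod_mul_distrib]
    ring

/-- a homogeneous relation -/
theorem hom_rel (hA : AfA κ) (hC : Cs) (V : Set (κ → ℂ)) (A B : Option κ → (κ → ℂ) → ℂ)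
    (hV : IsTor V) (h : ∀ o, MF V (A o) (B o)) :
    ∃ (n : ℕ) (P : MvPolynomial (Option (Option κ)) ℂ), P ≠ 0 ∧ P.IsHomogeneous n ∧
      ∀ x, eval (fun i => FF A B i x) P = 0 := by
  classical
  have hV' := hV
  obtain ⟨ι, b, hb⟩ := hV'
  have : Finite ι := Module.Finite.finite_basis b
  have : Fintype ι := Fintype.ofFinite ι
  have hS : ((Finset.univ.image b : Finset (κ → ℂ)) : Set (κ → ℂ)) = Set.range b := by simp
  obtain ⟨M, hM, hlat⟩ := hA.lattice V (Option κ) A B hV h (Finset.univ.image b)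
    (by rw [hS, hb]; exact Submodule.subset_span)
  have hM' : (M : ℝ) ≠ 0 := by exact_mod_cast hM.ne'
  obtain ⟨n, P, h0, hP, he⟩ := hC κ Unit (Option (Option κ)) (fun _ => Set.univ)
    (fun _ => Metric.closedBall 0 (M * ∑ i, ‖b i‖)) (fun _ => FF A B)
    (fun _ => ⟨isOpen_univ, isCompact_closedBall _ _, Set.subset_univ _⟩)
    (fun _ i z _ => FF_ana A B (fun i => (h i).holA) (fun i => (h i).holB) i z)
    (by
      intro _ K' hK' _
      obtain ⟨C, hC⟩ := hlat (K' ∪ Metric.closedBall 0 (M * ∑ i, ‖b i‖))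
        (hK'.union (isCompact_closedBall _ _))
      refine ⟨C ^ Fintype.card (Option κ), fun x hx => ?_⟩
      have hy : (M : ℝ) • ZSpan.fract b ((M : ℝ)⁻¹ • x) ∈
          Metric.closedBall (0 : κ → ℂ) (M * ∑ i, ‖b i‖) := by
        rw [mem_closedBall_zero_iff, norm_smul, Real.norm_natCast]
        exact mul_le_mul_of_nonneg_left (ZSpan.norm_fract_le b _) (Nat.cast_nonneg M)
      have hxy : (M : ℝ) • ZSpan.fract b ((M : ℝ)⁻¹ • x) +
          (M : ℂ) • (ZSpan.floor b ((M : ℝ)⁻¹ • x) : κ → ℂ) = x := by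
        rw [ZSpan.fract_apply, smul_sub, smul_smul, mul_inv_cancel₀ hM', one_smul,
          Nat.cast_smul_eq_nsmul ℝ, Nat.cast_smul_eq_nsmul ℂ, sub_add_cancel]
      have := hC (ZSpan.floor b ((M : ℝ)⁻¹ • x)) (by rw [hS]; exact Subtype.mem _) _
        (Or.inr hy) (by rw [hxy]; exact Or.inl hx)
      rw [hxy] at this
      choose c hc using this
      refine ⟨(), _, hy, ∏ j, c j, ?_, fun i => FF_aut A B _ _ c (fun j => (hc j).2) i⟩
      rw [norm_prod, ← Finset.card_univ, ← Finset.prod_const]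
      exact Finset.prod_le_prod (fun j _ => norm_nonneg _) fun j _ => (hc j).1)
    (by simp)
  exact ⟨n, P, h0, hP, fun x => he () x (Set.mem_univ x)⟩

theorem depC (hA : AfA κ) (hC : Cs) (V : Set (κ → ℂ)) (A B : Option κ → (κ → ℂ) → ℂ)
    (hV : IsTor V) (h : ∀ o, MF V (A o) (B o)) :
    ∃ P : MvPolynomial (Option κ) ℂ, P ≠ 0 ∧
      ∀ z, (∀ o, B o z ≠ 0) → eval (fun o => A o z / B o z) P = 0 := by
  obtain ⟨n, P, h0, hP, he⟩ := hom_rel hA hC V A B hV h
  obtain ⟨Q, hQ, hQe⟩ := dehom hP h0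
  refine ⟨Q, hQ, fun z hz => ?_⟩
  have := hQe (fun i => FF A B i z) (FF_ne A B z hz) (he z)
  simpa only [FF_div A B z hz] using this

theorem dep (hB : ThB κ) (hA : AfA κ) (hC : Cs) (hD : Desc) (V : Set (κ → ℂ))
    (A B : Option κ → (κ → ℂ) → ℂ) (hV : IsTor V) (h : ∀ o, AF V (A o) (B o)) :
    ∃ P : MvPolynomial (Option κ) Qb, P ≠ 0 ∧
      ∀ z, (∀ o, B o z ≠ 0) → aeval (fun o => A o z / B o z) P = 0 := by
  obtain ⟨n, P, h0, hP, he⟩ := hom_rel hA hC V A B hV fun o => (h o).toMF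
  have hcont : ∀ o, Continuous (B o) := fun o =>
    continuous_iff_continuousAt.mpr fun z => ((h o).holB z).continuousAt
  have hU : IsOpen {z : κ → ℂ | ∀ o, B o z ≠ 0} := by
    rw [Set.ofPred_forall]
    exact isOpen_iInter_of_finite fun o => isOpen_ne_fun (hcont o) continuous_const
  obtain ⟨Q, hQ, hQe⟩ := hD (κ → ℂ) (Option κ) {z | ∀ o, B o z ≠ 0} ({z | ∀ o, B o z ≠ 0} ∩ V)
    (FF A B) n P
    (fun i z _ => (FF_ana A B (fun i => (h i).holA) (fun i => (h i).holB) i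
      z).continuousAt.continuousWithinAt)
    Set.inter_subset_left ((hB.dense V hV).open_subset_closure_inter hU)
    (by
      rintro x ⟨hx, hxV⟩
      refine ⟨FF A B none x, FF_ne A B x hx, fun i => ?_⟩
      cases i with
      | none => rw [div_self (FF_ne A B x hx)]; exact isAlgebraic_one
      | some i => rw [FF_div A B x hx]; exact (h i).alg x hxV (hx i))
    h0 hP (fun x _ => he x)
  refine ⟨Q, hQ, fun z hz => ?_⟩
  have := hQe z hz (FF_ne A B z hz)
  simpa only [FF_div A B z hz] using this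

omit [Fintype κ] [DecidableEq κ] in
theorem zero_mem {V : Set (κ → ℂ)} (hV : IsTor V) : (0 : κ → ℂ) ∈ V := by
  obtain ⟨ι, b, rfl⟩ := hV
  exact Submodule.zero_mem _

theorem diff (hB : ThB κ) (hA : AfA κ) (hC : Cs) (hD : Desc) (hW : Val) (V : Set (κ → ℂ))
    (A B : κ → (κ → ℂ) → ℂ) (A₀ B₀ : (κ → ℂ) → ℂ) (hV : IsTor V) (hco : Co V A B)
    (h₀ : AF V A₀ B₀) (hb : B₀ 0 ≠ 0) :
    ∃ a : κ → ℂ, (∀ k, Alg (a k)) ∧ ∀ s, fderiv ℂ (fun z => A₀ z / B₀ z) 0 s =
      ∑ k, a k * fderiv ℂ (fun z => A k z / B k z) 0 s := by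
  have hAF : ∀ o : Option κ, AF V (o.elim A₀ A) (o.elim B₀ B) := fun o => by
    cases o with
    | none => exact h₀
    | some k => exact (hco.1 k).1
  have hne : ∀ o : Option κ, (o.elim B₀ B) 0 ≠ 0 := fun o => by
    cases o with
    | none => exact hb
    | some k => exact (hco.1 k).2
  obtain ⟨P, hP, he⟩ := dep hB hA hC hD V (fun o => o.elim A₀ A) (fun o => o.elim B₀ B) hV hAF
  have hev : ∀ᶠ z in 𝓝 (0 : κ → ℂ), ∀ o : Option κ, (o.elim B₀ B) z ≠ 0 :=
    eventually_all.mpr fun o => ((hAF o).holB 0).continuousAt.eventually_ne (hne o)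
  refine ((hW κ 0 (fun k z => A k z / B k z) (fun z => A₀ z / B₀ z) P
    (fun k => ((hco.1 k).1.holA 0).div ((hco.1 k).1.holB 0) (hco.1 k).2)
    ((h₀.holA 0).div (h₀.holB 0) hb) hco.2 hP ?_).2
    fun k => (hco.1 k).1.alg 0 (zero_mem hV) (hco.1 k).2).2
  filter_upwards [hev] with z hz
  have := he z hz
  convert this using 3
  funext o
  cases o <;> rfl

theorem alg_sum {σ : Type} (s : Finset σ) (f : σ → ℂ) (h : ∀ i ∈ s, Alg (f i)) :
    Alg (∑ i ∈ s, f i) :=
  Finset.sum_induction f Alg (fun _ _ => IsAlgebraic.add) isAlgebraic_zero h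

theorem ari (hB : ThB κ) (hA : AfA κ) (hC : Cs) (hD : Desc) (hW : Val) (V : Set (κ → ℂ))
    (A B : κ → (κ → ℂ) → ℂ) (p : κ → ℂ) (hV : IsTor V) (hco : Co V A B) (hp : ∀ i, p i ≠ 0)
    (h : ∀ k i, Alg (pd i (fun z => A k z / B k z) 0 / p i)) : Ari V p := by
  refine ⟨hp, fun A₀ B₀ h₀ hb i => ?_, A, B, hco⟩
  obtain ⟨a, ha, he⟩ := diff hB hA hC hD hW V A B A₀ B₀ hV hco h₀ hb
  rw [pd, he, Finset.sum_div]
  refine alg_sum _ _ fun k _ => ?_
  rw [mul_div_assoc]
  exact (ha k).mul (h k i)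

/-- eigenvectors of an algebraic matrix with distinct algebraic eigenvalues -/
theorem eigen (m a : Matrix κ κ ℂ) (lam : κ → ℂ) (hm : IsUnit m) (ha : ∀ k j, Alg (a k j))
    (he : a * m = m * diagonal lam) (hinj : Function.Injective lam) (hl : ∀ i, Alg (lam i)) :
    ∃ p : κ → ℂ, (∀ i, p i ≠ 0) ∧ ∀ k i, Alg (m k i / p i) := by
  have hdet : IsUnit m.det := (Matrix.isUnit_iff_isUnit_det m).mp hm
  have key : ∀ i, ∃ c : Matrix κ κ ℂ, (∀ k j, Alg (c k j)) ∧
      c * m = m * diagonal (Pi.single i 1) := by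
    intro i
    have h1 : (Pi.single i 1 : κ → ℂ) =
        ∏ j ∈ Finset.univ.erase i, fun l => (lam l - lam j) / (lam i - lam j) := by
      funext l
      rw [Finset.prod_apply]
      by_cases hli : l = i
      · subst hli
        rw [Pi.single_eq_same]
        exact (Finset.prod_eq_one fun j hj =>
          div_self (sub_ne_zero.mpr fun h => (Finset.mem_erase.mp hj).1 (hinj h).symm)).symm
      · rw [Pi.single_eq_of_ne hli]
        exact (Finset.prod_eq_zero (Finset.mem_erase.mpr ⟨hli, Finset.mem_univ l⟩)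
          (by simp)).symm
    rw [h1]
    refine Finset.prod_induction _
      (fun x : κ → ℂ => ∃ c : Matrix κ κ ℂ, (∀ k j, Alg (c k j)) ∧ c * m = m * diagonal x)
      ?_ ?_ ?_
    · rintro x y ⟨c, hc, hx⟩ ⟨d, hd, hy⟩
      refine ⟨c * d, fun k j => ?_, ?_⟩
      · rw [Matrix.mul_apply]
        exact alg_sum _ _ fun l _ => (hc k l).mul (hd l j)
      · rw [Matrix.mul_assoc, hy, ← Matrix.mul_assoc, hx, Matrix.mul_assoc, diagonal_mul_diagonal]
        rfl
    · refine ⟨1, fun k j => ?_, ?_⟩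
      · rw [Matrix.one_apply]
        split_ifs
        · exact isAlgebraic_one
        · exact isAlgebraic_zero
      · rw [Matrix.one_mul]
        exact (Matrix.mul_one m).symm
    · intro j _
      refine ⟨(lam i - lam j)⁻¹ • (a - lam j • (1 : Matrix κ κ ℂ)), fun k l => ?_, ?_⟩
      · rw [Matrix.smul_apply, Matrix.sub_apply, Matrix.smul_apply, smul_eq_mul, smul_eq_mul]
        refine ((hl i).sub (hl j)).inv.mul ((ha k l).sub ((hl j).mul ?_))
        rw [Matrix.one_apply]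
        split_ifs
        · exact isAlgebraic_one
        · exact isAlgebraic_zero
      · rw [Matrix.smul_mul, Matrix.sub_mul, he, Matrix.smul_mul, Matrix.one_mul]
        ext k l
        simp only [Matrix.smul_apply, Matrix.sub_apply, mul_diagonal, smul_eq_mul]
        ring
  have hrow : ∀ i, ∃ j, m⁻¹ i j ≠ 0 := by
    intro i
    by_contra hcon
    push Not at hcon
    have h1 := congrFun (congrFun (Matrix.nonsing_inv_mul m hdet) i) i
    rw [Matrix.mul_apply, Matrix.one_apply_eq] at h1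
    simp [hcon] at h1
  choose j hj using hrow
  refine ⟨fun i => (m⁻¹ i (j i))⁻¹, fun i => inv_ne_zero (hj i), fun k i => ?_⟩
  obtain ⟨c, hc, hce⟩ := key i
  have h2 : c = m * diagonal (Pi.single i 1) * m⁻¹ := by
    rw [← hce, Matrix.mul_assoc, Matrix.mul_nonsing_inv m hdet, Matrix.mul_one]
  have h3 : c k (j i) = m k i / (m⁻¹ i (j i))⁻¹ := by
    rw [h2, Matrix.mul_apply, div_inv_eq_mul, Finset.sum_eq_single i]
    · simp
    · intro l _ hl
      simp [Pi.single_eq_of_ne hl]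
    · simp
  rw [← h3]
  exact hc _ _

theorem fderiv_eq_sum (F : (κ → ℂ) → ℂ) (z s : κ → ℂ) :
    fderiv ℂ F z s = ∑ i, pd i F z * s i := by
  conv_lhs => rw [pi_eq_sum_univ' s]
  rw [map_sum]
  refine Finset.sum_congr rfl fun i _ => ?_
  rw [map_smul, smul_eq_mul, mul_comm]
  rfl

theorem ex (hB : ThB κ) (hA : AfA κ) (hC : Cs) (hD : Desc) (hW : Val) (V : Set (κ → ℂ))
    (A B : κ → (κ → ℂ) → ℂ) (lam : κ → ℂ) (hV : IsTor V) (hco : Co V A B)
    (hinj : Function.Injective lam) (hl : ∀ i, Alg (lam i)) (hst : ∀ v ∈ V, lam * v ∈ V) :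
    ∃ p, Ari V p := by
  have hd : ∀ k, DifferentiableAt ℂ (fun z => A k z / B k z) 0 := fun k =>
    (((hco.1 k).1.holA 0).div ((hco.1 k).1.holB 0) (hco.1 k).2).differentiableAt
  have hN : ∀ z : κ → ℂ, z ᵥ* diagonal lam = lam * z := fun z => by
    funext i
    rw [vecMul_diagonal, mul_comm]
    rfl
  have hm : IsUnit (Matrix.of fun k i => pd i (fun z => A k z / B k z) 0) := by
    rw [← Matrix.mulVec_injective_iff_isUnit]
    intro s t hst
    apply hco.2
    rw [fderiv_pi hd]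
    funext k
    have := congrFun hst k
    simp only [mulVec, dotProduct, of_apply] at this
    simpa only [ContinuousLinearMap.pi_apply, fderiv_eq_sum] using this
  have hdiff : ∀ k, ∃ a : κ → ℂ, (∀ j, Alg (a j)) ∧ ∀ i,
      ∑ j, a j * pd i (fun z => A j z / B j z) 0 = pd i (fun z => A k z / B k z) 0 * lam i := by
    intro k
    obtain ⟨a, ha, he⟩ := diff hB hA hC hD hW V A B _ _ hV hco
      (hA.pull κ V V (diagonal lam) (A k) (B k) (fun v hv => by rw [hN]; exact hst v hv)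
        (hco.1 k).1) (by simpa using (hco.1 k).2)
    refine ⟨a, ha, fun i => ?_⟩
    have h1 := he (Pi.single i 1)
    simp only [pd]
    rw [← h1]
    simp only [hN]
    have h2 : HasFDerivAt (fun z : κ → ℂ => lam * z)
        (ContinuousLinearMap.mul ℂ (κ → ℂ) lam) 0 := (ContinuousLinearMap.mul ℂ (κ → ℂ) lam).hasFDerivAt
    have h3 : HasFDerivAt (fun z => A k z / B k z) (fderiv ℂ (fun z => A k z / B k z) 0)
        (lam * 0) := by
      rw [mul_zero]
      exact (hd k).hasFDerivAt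
    have h4 := (h3.comp 0 h2).fderiv
    have h5 : (fun z => A k (lam * z) / B k (lam * z)) =
        (fun z => A k z / B k z) ∘ fun z : κ → ℂ => lam * z := rfl
    rw [h5, h4, ContinuousLinearMap.comp_apply, ContinuousLinearMap.mul_apply']
    have h6 : lam * (Pi.single i 1 : κ → ℂ) = lam i • (Pi.single i 1 : κ → ℂ) := by
      funext l
      by_cases hli : l = i
      · subst hli
        simp
      · simp [Pi.single_eq_of_ne hli]
    rw [h6, map_smul, smul_eq_mul, mul_comm]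
  choose a ha he using hdiff
  obtain ⟨p, hp, hq⟩ := eigen _ (Matrix.of a) lam hm ha
    (by
      ext k i
      rw [mul_diagonal, Matrix.mul_apply]
      exact he k i) hinj hl
  exact ⟨p, ari hB hA hC hD hW V A B p hV hco hp hq⟩

end Afb

theorem afB (hB : All ThB) (hA : All AfA) (hC : Cs) (hD : Desc) (hV : Val) : All AfB :=
  fun κ _ _ =>
  { depC := Afb.depC (hA κ) hC
    dep := Afb.dep (hB κ) (hA κ) hC hD
    diff := Afb.diff (hB κ) (hA κ) hC hD hV
    ari := Afb.ari (hB κ) (hA κ) hC hD hV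
    ex := Afb.ex (hB κ) (hA κ) hC hD hV }

end Pool.Agent.GAM

end MrgPart0

-- ======== part 1: formerly Pool.Agent.MP_cbf1af_ag.gam.Cma
section MrgPart1

/-! PROJECT GAM, module CMA: algebra of CM fields. -/

namespace Pool.Agent.GAM

open Matrix Complex

noncomputable section

namespace CmaAux

variable {E : Type} [Field E] [NumberField E] {c : E →+* E}

omit [NumberField E] in
lemma cjcj (σ : Emb E) : cj (cj σ) = σ := by
  ext x
  simp

omit [NumberField E] in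
lemma cjap (σ : Emb E) (x : E) : cj σ x = (starRingEnd ℂ) (σ x) := rfl

lemma exEmb : Nonempty (Emb E) := inferInstance

lemma cc (hc : CMF c) (x : E) : c (c x) = x := by
  obtain ⟨σ⟩ := exEmb (E := E)
  apply σ.injective
  rw [hc.1, hc.1, Complex.conj_conj]

lemma ne (hc : CMF c) (σ : Emb E) : cj σ ≠ σ := by
  intro h
  obtain ⟨x, hx⟩ := hc.2
  apply hx
  apply σ.injective
  rw [hc.1, ← cjap, h]

lemma cjc (hc : CMF c) (σ : Emb E) : cj σ = σ.comp c := by
  ext x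
  rw [cjap, RingHom.comp_apply, hc.1]

lemma alg (σ : Emb E) (x : E) : Alg (σ x) :=
  (Algebra.IsAlgebraic.isAlgebraic (R := ℚ) x).algHom σ.toRatAlgHom

lemma re_zero (hc : CMF c) {ξ : E} (h : c ξ = -ξ) (σ : Emb E) : (σ ξ).re = 0 := by
  have h1 := hc.1 σ ξ
  rw [h, map_neg] at h1
  have h2 := congrArg Complex.re h1
  simp only [neg_re, conj_re] at h2
  linarith

lemma im_cj (σ : Emb E) (x : E) : (cj σ x).im = -(σ x).im := by
  rw [cjap, conj_im]

lemma anti (hc : CMF c) (x : E) : c (x - c x) = -(x - c x) := by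
  rw [map_sub, cc hc]; ring

lemma im_anti (hc : CMF c) (σ : Emb E) (x : E) : (σ (x - c x)).im = 2 * (σ x).im := by
  rw [map_sub, hc.1, sub_im, conj_im]; ring

lemma exType (hc : CMF c) : ∃ Φ : Finset (Emb E), IsType Φ := by
  obtain ⟨x, hx⟩ := hc.2
  have h0 : x - c x ≠ 0 := sub_ne_zero.2 (Ne.symm hx)
  have him : ∀ σ : Emb E, (σ (x - c x)).im ≠ 0 := by
    intro σ h
    apply h0
    apply σ.injective
    rw [map_zero]
    exact Complex.ext (re_zero hc (anti hc x) σ) h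
  refine ⟨Finset.univ.filter fun σ => 0 < (σ (x - c x)).im, fun σ => ?_⟩
  simp only [Finset.mem_filter, Finset.mem_univ, true_and, im_cj]
  have := him σ
  constructor
  · intro h h'; linarith
  · intro h
    rcases lt_or_gt_of_ne this with h1 | h1
    · exact absurd (by linarith) h
    · exact h1

/-- conjugation as a permutation of the embeddings -/
def cjE (E : Type) [Field E] [NumberField E] : Emb E ≃ Emb E :=
  ⟨cj, cj, cjcj, cjcj⟩

lemma card (Φ : Finset (Emb E)) (h : IsType Φ) : 2 * Φ.card = Module.finrank ℚ E := by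
  have h1 : Φ.card = Φᶜ.card := by
    refine Finset.card_bij (fun σ _ => cj σ) (fun σ hσ => ?_) (fun σ _ σ' _ hh => ?_)
      (fun σ hσ => ?_)
    · exact Finset.mem_compl.2 ((h σ).1 hσ)
    · have := congrArg cj hh
      rwa [cjcj, cjcj] at this
    · refine ⟨cj σ, ?_, cjcj σ⟩
      rw [h, cjcj]
      exact Finset.mem_compl.1 hσ
  rw [← NumberField.Embeddings.card E ℂ, ← Finset.card_add_card_compl Φ, ← h1]
  ring

/-- the rational linear map `pt` -/
def ptL (Φ : Finset (Emb E)) : E →ₗ[ℚ] (Φ → ℂ) where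
  toFun := pt Φ
  map_add' x y := by ext σ; simp [pt]
  map_smul' r x := by ext σ; simp [pt, map_rat_smul]

lemma isTor (Φ : Finset (Emb E)) (h : IsType Φ) : IsTor (Set.range (pt Φ)) := by
  classical
  set β := NumberField.integralBasis E with hβ
  have hli : LinearIndependent ℝ fun i => pt Φ (β i) := by
    rw [Fintype.linearIndependent_iff]
    intro g hg
    have h1 : ∀ σ ∈ Φ, ∑ i, (g i : ℂ) * σ (β i) = 0 := by
      intro σ hσ
      have := congrFun hg ⟨σ, hσ⟩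
      simpa [pt, Finset.sum_apply] using this
    have h2 : ∀ σ : Emb E, ∑ i, (g i : ℂ) * σ (β i) = 0 := by
      intro σ
      by_cases hσ : σ ∈ Φ
      · exact h1 σ hσ
      · have h3 : cj σ ∈ Φ := by rw [h, cjcj]; exact hσ
        have h4 := congrArg (starRingEnd ℂ) (h1 _ h3)
        simpa [cjap, map_sum] using h4
    have h5 := Fintype.linearIndependent_iff.1
      (NumberField.canonicalEmbedding.latticeBasis E).linearIndependent (fun i => (g i : ℂ)) (by
        ext σ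
        simpa [Finset.sum_apply, NumberField.canonicalEmbedding.latticeBasis_apply, hβ]
          using h2 σ)
    intro i
    exact_mod_cast h5 i
  have hcard : Fintype.card (Module.Free.ChooseBasisIndex ℤ (NumberField.RingOfIntegers E)) =
      Module.finrank ℝ (Φ → ℂ) := by
    rw [← Module.finrank_eq_card_basis β, ← card Φ h, Module.finrank_pi_fintype]
    simp [mul_comm]
  refine ⟨_, basisOfLinearIndependentOfCardEqFinrank' _ hli hcard, ?_⟩
  rw [coe_basisOfLinearIndependentOfCardEqFinrank']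
  have h6 : (Set.range fun i => pt Φ (β i)) = ptL Φ '' Set.range β := by
    rw [← Set.range_comp]; rfl
  rw [h6, Submodule.span_image, β.span_eq, Submodule.map_top, LinearMap.coe_range]
  rfl

lemma pol2 (hc : CMF c) (hB : All ThB) (Φ : Finset (Emb E)) (h : IsType Φ) :
    ∃ ξ, Pol c Φ ξ ∧ ∀ σ ∈ Φ, ∀ σ' ∈ Φ, (σ ξ).im = (σ' ξ).im → σ = σ' := by
  have hd := (hB Φ).dense _ (isTor Φ h)
  have ho : IsOpen {z : Φ → ℂ | (∀ σ, 0 < (z σ).im) ∧ ∀ σ σ', σ ≠ σ' → (z σ).im ≠ (z σ').im} := by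
    simp only [Set.ofPred_and, Set.ofPred_forall]
    refine IsOpen.inter (isOpen_iInter_of_finite fun σ => ?_)
      (isOpen_iInter_of_finite fun σ => isOpen_iInter_of_finite fun σ' =>
        isOpen_iInter_of_finite fun _ => ?_)
    · exact isOpen_lt continuous_const (by fun_prop)
    · exact isOpen_ne_fun (by fun_prop) (by fun_prop)
  obtain ⟨n, hn⟩ := Countable.exists_injective_nat Φ
  obtain ⟨z, ⟨x, rfl⟩, hz1, hz2⟩ := hd.exists_mem_open ho
    ⟨fun σ => ((n σ : ℝ) + 1 : ℝ) * I, fun σ => by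
      simp only [mul_im, ofReal_re, I_im, ofReal_im, I_re]
      positivity, fun σ σ' hne hh => by
      simp only [mul_im, ofReal_re, I_im, ofReal_im, I_re] at hh
      have : (n σ : ℝ) = n σ' := by linarith
      exact hne (hn (by exact_mod_cast this))⟩
  refine ⟨x - c x, ⟨anti hc x, fun σ hσ => ?_⟩, fun σ hσ σ' hσ' hh => ?_⟩
  · rw [im_anti hc]
    have := hz1 ⟨σ, hσ⟩
    simp only [pt] at this
    linarith
  · rw [im_anti hc, im_anti hc] at hh
    by_contra hne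
    refine hz2 ⟨σ, hσ⟩ ⟨σ', hσ'⟩ (fun h' => hne (congrArg Subtype.val h')) ?_
    simp only [pt]
    linarith

lemma unit (hc : CMF c) (hB : All ThB) (S : Finset ℂ) :
    ∃ u : E, u * c u = 1 ∧ (Function.Injective fun σ : Emb E => σ u) ∧ ∀ σ : Emb E, σ u ∉ S := by
  obtain ⟨Φ, h⟩ := exType hc
  obtain ⟨ξ, ⟨hξ, hpos⟩, hinj⟩ := pol2 hc hB Φ h
  have hcj : ∀ σ, σ ∉ Φ → cj σ ∈ Φ := fun σ hσ => by rw [h, cjcj]; exact hσ
  have hneg : ∀ σ, σ ∉ Φ → (σ ξ).im < 0 := fun σ hσ => by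
    have := hpos _ (hcj σ hσ)
    rw [im_cj] at this
    linarith
  have hinj2 : ∀ σ σ' : Emb E, σ ξ = σ' ξ → σ = σ' := by
    intro σ σ' hh
    have him := congrArg Complex.im hh
    by_cases h1 : σ ∈ Φ <;> by_cases h2 : σ' ∈ Φ
    · exact hinj σ h1 σ' h2 him
    · have := hpos σ h1; have := hneg σ' h2; linarith
    · have := hneg σ h1; have := hpos σ' h2; linarith
    · have h3 := hinj _ (hcj σ h1) _ (hcj σ' h2) (by rw [im_cj, im_cj, him])
      have := congrArg cj h3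
      rwa [cjcj, cjcj] at this
  have hne : ∀ σ : Emb E, σ ξ ≠ 0 := by
    intro σ hh
    by_cases h1 : σ ∈ Φ
    · have := hpos σ h1; rw [hh] at this; simp at this
    · have := hneg σ h1; rw [hh] at this; simp at this
  have hm : ∀ (σ : Emb E) (K : ℕ), ((K : ℂ) + 1) - σ ξ ≠ 0 := by
    intro σ K hh
    have := congrArg Complex.re hh
    simp only [sub_re, add_re, natCast_re, one_re, re_zero hc hξ σ, zero_re] at this
    have h0 : (0 : ℝ) ≤ K := Nat.cast_nonneg K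
    linarith
  have hp : ∀ (σ : Emb E) (K : ℕ), ((K : ℂ) + 1) + σ ξ ≠ 0 := by
    intro σ K hh
    have := congrArg Complex.re hh
    simp only [add_re, natCast_re, one_re, re_zero hc hξ σ, zero_re] at this
    have h0 : (0 : ℝ) ≤ K := Nat.cast_nonneg K
    linarith
  have hfin : (⋃ σ : Emb E, (fun K : ℕ => (((K : ℂ) + 1) + σ ξ) / (((K : ℂ) + 1) - σ ξ)) ⁻¹'
      (S : Set ℂ)).Finite := by
    refine Set.finite_iUnion fun σ => Set.Finite.preimage (Function.Injective.injOn ?_)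
      S.finite_toSet
    intro K K' hh
    simp only at hh
    rw [div_eq_div_iff (hm σ K) (hm σ K')] at hh
    have h1 : σ ξ * ((K : ℂ) - K') = 0 := by linear_combination (-1 / 2 : ℂ) * hh
    have h2 := (mul_eq_zero.1 h1).resolve_left (hne σ)
    exact_mod_cast sub_eq_zero.1 h2
  obtain ⟨K, hK⟩ := hfin.exists_notMem
  have hval : ∀ σ : Emb E, σ ((((K : E) + 1) + ξ) / (((K : E) + 1) - ξ)) =
      (((K : ℂ) + 1) + σ ξ) / (((K : ℂ) + 1) - σ ξ) := by
    intro σ; simp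
  refine ⟨(((K : E) + 1) + ξ) / (((K : E) + 1) - ξ), ?_, fun σ σ' hh => ?_, fun σ hh => ?_⟩
  · obtain ⟨σ⟩ := exEmb (E := E)
    have h1 : ((K : E) + 1) - ξ ≠ 0 := fun hh => hm σ K (by simpa using congrArg σ hh)
    have h2 : ((K : E) + 1) + ξ ≠ 0 := fun hh => hp σ K (by simpa using congrArg σ hh)
    simp only [map_div₀, map_add, map_sub, map_natCast, map_one, hξ, sub_neg_eq_add,
      ← sub_eq_add_neg]
    field_simp
  · simp only [hval] at hh
    rw [div_eq_div_iff (hm σ K) (hm σ' K)] at hh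
    have h1 : ((K : ℂ) + 1) * (σ ξ - σ' ξ) = 0 := by linear_combination (1 / 2 : ℂ) * hh
    have h2 := (mul_eq_zero.1 h1).resolve_left (by exact_mod_cast Nat.succ_ne_zero K)
    exact hinj2 σ σ' (sub_eq_zero.1 h2)
  · apply hK
    rw [hval] at hh
    exact Set.mem_iUnion.2 ⟨σ, hh⟩

lemma trace_sum (x : E) : ((Algebra.trace ℚ E x : ℚ) : ℂ) = ∑ σ : Emb E, σ x := by
  have h := trace_eq_sum_embeddings (K := ℚ) (L := E) ℂ (x := x)
  rw [Fintype.sum_equiv (RingHom.equivRatAlgHom E ℂ) (fun σ => σ x) (fun φ => φ x)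
    fun _ => by simp [RingHom.equivRatAlgHom_apply], ← h]
  simp

lemma trace_anti (hc : CMF c) {x : E} (hx : c x = -x) : Algebra.trace ℚ E x = 0 := by
  have h1 : ∑ σ : Emb E, σ x = ∑ σ : Emb E, cj σ x :=
    (Equiv.sum_comp (cjE E) fun σ => σ x).symm
  have h2 : ∀ σ : Emb E, cj σ x = -σ x := fun σ => by
    rw [cjap, ← hc.1, hx, map_neg]
  simp only [h2, Finset.sum_neg_distrib] at h1
  have h3 : ((Algebra.trace ℚ E x : ℚ) : ℂ) = 0 := by
    rw [trace_sum]; linear_combination (1 / 2 : ℂ) * h1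
  exact_mod_cast h3

/-- the alternating form as a bilinear map -/
def psiL {ι : Type} [Fintype ι] (c : E →+* E) (ξ : ι → E) :
    (ι → E) →ₗ[ℚ] (ι → E) →ₗ[ℚ] ℚ :=
  LinearMap.mk₂ ℚ (psi c ξ)
    (fun x x' y => by simp [psi, mul_add, add_mul, Finset.sum_add_distrib])
    (fun r x y => by simp [psi, Finset.mul_sum])
    (fun x y y' => by simp [psi, mul_add, Finset.sum_add_distrib])
    (fun r x y => by simp [psi, map_rat_smul, Finset.mul_sum])

lemma psiL_ap {ι : Type} [Fintype ι] (c : E →+* E) (ξ x y : ι → E) :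
    psiL c ξ x y = psi c ξ x y := rfl

lemma sympl (hc : CMF c) (hS : Syb) (ι κ : Type) [Fintype ι] [Fintype κ] [DecidableEq κ]
    (ξ : ι → E) (hξ : ∀ i, ξ i ≠ 0 ∧ c (ξ i) = -ξ i)
    (hcard : Fintype.card ι * Module.finrank ℚ E = 2 * Fintype.card κ) :
    ∃ β : Module.Basis (κ ⊕ κ) ℚ (ι → E), Sympl c ξ β := by
  classical
  refine hS (ι → E) κ (psiL c ξ) (fun x => ?_) (fun x hx => ?_) ?_
  · rw [psiL_ap, psi]
    refine Finset.sum_eq_zero fun i _ => trace_anti hc ?_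
    rw [map_mul, map_mul, cc hc, (hξ i).2]
    ring
  · ext i
    have h1 : ξ i * x i = 0 := by
      refine (traceForm_nondegenerate ℚ E).1 _ fun z => ?_
      have h2 := hx (Pi.single i (c z))
      rw [psiL_ap, psi, Finset.sum_eq_single i] at h2
      · rw [Pi.single_eq_same, cc hc] at h2
        rw [Algebra.traceForm_apply]
        exact h2
      · intro j _ hj
        rw [Pi.single_eq_of_ne hj]
        simp
      · simp
    exact (mul_eq_zero.1 h1).resolve_left (hξ i).1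
  · rw [Module.finrank_pi_fintype, ← hcard]
    simp

lemma dual (hc : CMF c) (ι κ : Type) [Fintype ι] [DecidableEq ι] [Fintype κ] [DecidableEq κ]
    (ξ : ι → E) (β : Module.Basis (κ ⊕ κ) ℚ (ι → E)) (hβ : Sympl c ξ β) (i i' : ι)
    (σ σ' : Emb E) :
    ∑ a, ∑ b, σ (β a i) * J κ ℂ a b * σ' (β b i') =
      if i = i' ∧ σ = cj σ' then -1 / σ' (ξ i) else 0 := by
  set Ω : Matrix (κ ⊕ κ) (ι × Emb E) ℂ := Matrix.of fun a p => p.2 (β a p.1) with hΩ
  set Ω' : Matrix (κ ⊕ κ) (ι × Emb E) ℂ :=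
    Matrix.of fun a p => cj p.2 (ξ p.1) * cj p.2 (β a p.1) with hΩ'
  have hJ : Ω' * Ωᵀ = J κ ℂ := by
    ext a b
    have h1 : ((psi c ξ (β a) (β b) : ℚ) : ℂ) = J κ ℂ a b := by
      rw [hβ a b]
      have := congrFun (congrFun (Matrix.map_J κ (Rat.castHom ℂ)) a) b
      simpa using this
    rw [← h1, psi, Rat.cast_sum, Matrix.mul_apply, Fintype.sum_prod_type]
    refine Finset.sum_congr rfl fun j _ => ?_
    rw [trace_sum, ← Equiv.sum_comp (cjE E)]
    refine Finset.sum_congr rfl fun τ _ => ?_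
    simp only [hΩ, hΩ', Matrix.of_apply, Matrix.transpose_apply, cjE, Equiv.coe_fn_mk, cjcj,
      map_mul]
    rw [hc.1, cjap]
  have hcard : Fintype.card (κ ⊕ κ) = Fintype.card (ι × Emb E) := by
    rw [← Module.finrank_eq_card_basis β, Module.finrank_pi_fintype, Fintype.card_prod,
      NumberField.Embeddings.card E ℂ]
    simp
  have h1 : (-(J κ ℂ * Ω')) * Ωᵀ = 1 := by
    rw [Matrix.neg_mul, Matrix.mul_assoc, hJ, Matrix.J_squared, neg_neg]
  have h2 := (Matrix.mul_eq_one_comm_of_card_eq _ _ _ hcard).1 h1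
  have h3 : ∀ (j j' : ι) (τ τ' : Emb E),
      (∑ a, ∑ b, τ (β a j) * J κ ℂ a b * τ' (β b j')) * τ' (ξ j') =
        if j = j' ∧ τ = cj τ' then -1 else 0 := by
    intro j j' τ τ'
    have h4 := congrFun (congrFun h2 (j, τ)) (j', cj τ')
    rw [Matrix.mul_neg, Matrix.neg_apply, Matrix.one_apply] at h4
    simp only [Matrix.mul_apply, hΩ, hΩ', Matrix.of_apply, Matrix.transpose_apply, cjcj,
      Prod.mk.injEq] at h4
    have h5 : (∑ a, ∑ b, τ (β a j) * J κ ℂ a b * τ' (β b j')) * τ' (ξ j') =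
        ∑ a, τ (β a j) * ∑ b, J κ ℂ a b * (τ' (ξ j') * τ' (β b j')) := by
      rw [Finset.sum_mul]
      refine Finset.sum_congr rfl fun a _ => ?_
      rw [Finset.sum_mul, Finset.mul_sum]
      refine Finset.sum_congr rfl fun b _ => ?_
      ring
    rw [h5]
    split_ifs at h4 ⊢
    · linear_combination -h4
    · linear_combination -h4
  have h6 : σ' (ξ i') ≠ 0 := by
    intro h0
    have := h3 i' i' (cj σ') σ'
    rw [h0, mul_zero, if_pos ⟨rfl, rfl⟩] at this
    simp at this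
  have h7 := h3 i i' σ σ'
  split_ifs at h7 ⊢ with hh
  · rw [hh.1] at h7 ⊢
    rw [eq_div_iff h6]
    exact h7
  · exact (mul_eq_zero.1 h7).resolve_right h6

lemma sp (ι κ : Type) [Fintype ι] [Fintype κ] [DecidableEq κ] (ξ : ι → E)
    (β : Module.Basis (κ ⊕ κ) ℚ (ι → E)) (φ : (ι → E) →ₗ[ℚ] ι → E) (hβ : Sympl c ξ β)
    (hφ : ∀ x y, psi c ξ (φ x) (φ y) = psi c ξ x y) : Sp (mat β φ) := by
  rw [Sp, SymplecticGroup.mem_iff]
  ext a b
  rw [← hβ a b, ← hφ, ← psiL_ap, ← β.sum_repr (φ (β a)), ← β.sum_repr (φ (β b))]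
  simp only [map_sum, map_smul, LinearMap.sum_apply, LinearMap.smul_apply, psiL_ap, hβ _ _,
    Matrix.mul_apply, mat, Matrix.of_apply, Matrix.transpose_apply, smul_eq_mul]
  refine Finset.sum_congr rfl fun d _ => ?_
  rw [mul_comm]

lemma matMul (H κ : Type) [AddCommGroup H] [Module ℚ H] [Fintype κ] (β : Module.Basis κ ℚ H)
    (φ : H → H) (l : H →ₗ[ℚ] ℂ) (a : κ) :
    ∑ b, cM (mat β φ) a b * l (β b) = l (φ (β a)) := by
  conv_rhs => rw [← β.sum_repr (φ (β a))]
  simp only [map_sum, map_smul, cM, mat, Matrix.map_apply, Matrix.of_apply, Rat.smul_def]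

end CmaAux

theorem cmA (hB : All ThB) (hS : Syb) : AllC := fun _ _ _ _ hc =>
  { cc := CmaAux.cc hc
    ne := CmaAux.ne hc
    cjc := CmaAux.cjc hc
    alg := CmaAux.alg
    exType := CmaAux.exType hc
    card := CmaAux.card
    isTor := CmaAux.isTor
    pol := fun Φ h => (CmaAux.pol2 hc hB Φ h).imp fun _ hh => hh.1
    unit := CmaAux.unit hc hB
    sympl := fun ι κ _ _ _ => CmaAux.sympl hc hS ι κ
    dual := fun ι κ _ _ _ _ => CmaAux.dual hc ι κ
    sp := fun ι κ _ _ _ => CmaAux.sp ι κ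
    matMul := fun H κ _ _ _ => CmaAux.matMul H κ }

end

end Pool.Agent.GAM

end MrgPart1

-- ======== part 2: formerly Pool.Agent.MP_cbf1af_ag.gam.Pull
section MrgPart2

/-! PROJECT GAM, row PULL: functions on the torus are algebraic on the curve -/

namespace Pool.Agent.GAM

open Filter Topology MvPolynomial

namespace Pl

theorem ee_add (x y : ℂ) : ee (x + y) = ee x * ee y := by
  simp only [ee, mul_add, Complex.exp_add]

theorem ee_nat_mul (n : ℕ) (x : ℂ) : ee (n * x) = ee x ^ n := by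
  rw [ee, ee, ← Complex.exp_nat_mul]; congr 1; ring

theorem ee_pow {N : ℕ} (hN : 0 < N) (A : ℕ) : ee (A / N) ^ N = 1 := by
  have : (N : ℂ) ≠ 0 := Nat.cast_ne_zero.2 hN.ne'
  rw [← ee_nat_mul, ee, mul_div_cancel₀ _ this, mul_comm]
  exact Complex.exp_nat_mul_two_pi_mul_I A

theorem eval_homog {σ : Type} {P : MvPolynomial σ ℂ} {n : ℕ} (hP : P.IsHomogeneous n)
    (a : ℂ) (x : σ → ℂ) : eval (fun i => a * x i) P = a ^ n * eval x P := by
  classical
  rw [eval_eq, eval_eq, Finset.mul_sum]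
  refine Finset.sum_congr rfl fun m hm => ?_
  have hd : ∑ i ∈ m.support, m i = n := by
    have := hP (mem_support_iff.1 hm)
    rw [← this, Finsupp.weight_apply, Finsupp.sum]
    simp
  simp only [mul_pow, Finset.prod_mul_distrib, Finset.prod_pow_eq_pow_sum, hd]
  ring

/-- the one variable case of `Cs` -/
theorem cs1 (hC : Cs) (α : Type) [Fintype α] (U K : Set ℂ) (F : α → Fin 3 → ℂ → ℂ)
    (hU : IsOpen U) (hK : IsCompact K) (hKU : K ⊆ U) (hF : ∀ a i, AnalyticOnNhd ℂ (F a i) U)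
    (hT : ∀ a K', IsCompact K' → K' ⊆ U → ∃ C : ℝ, ∀ x ∈ K', ∃ b, ∃ y ∈ K, ∃ c : ℂ,
      ‖c‖ ≤ C ∧ ∀ i, F a i x = c * F b i y) :
    ∃ (n : ℕ) (P : MvPolynomial (Fin 3) ℂ), P ≠ 0 ∧ P.IsHomogeneous n ∧
      ∀ a, ∀ x ∈ U, eval (fun i => F a i x) P = 0 := by
  have hc : Continuous fun x : Unit → ℂ => x () := continuous_apply ()
  obtain ⟨n, P, h0, h1, h2⟩ := hC Unit α (Fin 3) (fun _ => {x | x () ∈ U})
    (fun _ => (fun X _ => X) '' K) (fun a i x => F a i (x ()))
    (fun _ => ⟨hU.preimage hc, hK.image (continuous_pi fun _ => continuous_id), by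
      rintro _ ⟨X, hX, rfl⟩; exact hKU hX⟩)
    (fun a i x hx => AnalyticAt.comp (f := fun x : Unit → ℂ => x ()) (hF a i _ hx)
      ((ContinuousLinearMap.proj () : (Unit → ℂ) →L[ℂ] ℂ).analyticAt x))
    (fun a K' hK' hs => by
      obtain ⟨C, hC⟩ := hT a ((fun x => x ()) '' K') (hK'.image hc)
        (by rintro _ ⟨x, hx, rfl⟩; exact hs hx)
      refine ⟨C, fun x hx => ?_⟩
      obtain ⟨b, y, hy, c, h1, h2⟩ := hC _ ⟨x, hx, rfl⟩
      exact ⟨b, fun _ => y, ⟨y, hy, rfl⟩, c, h1, h2⟩)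
    (by simp)
  exact ⟨n, P, h0, h1, fun a x hx => h2 a (fun _ => x) hx⟩

/-- the compact part of the charts -/
def K0 (N : ℕ) : Set ℂ := {X | ‖X ^ N‖ ≤ 1 ∧ (X ^ N).re ≤ 1 / 2}

theorem K0_compact {N : ℕ} (hN : 0 < N) : IsCompact (K0 N) := by
  refine Metric.isCompact_of_isClosed_isBounded ?_ ?_
  · exact (isClosed_le (f := fun X : ℂ => ‖X ^ N‖) (by fun_prop) continuous_const).inter
      (isClosed_le (f := fun X : ℂ => (X ^ N).re) (by fun_prop) continuous_const)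
  · refine (Metric.isBounded_closedBall (x := (0 : ℂ)) (r := 1)).subset fun X hX => ?_
    have := hX.1
    rw [norm_pow, pow_le_one_iff_of_nonneg (norm_nonneg _) hN.ne'] at this
    simpa using this

theorem K0_sub (N : ℕ) : K0 N ⊆ Om N := fun X hX => Or.inl (by
  have := hX.2
  simp only [Complex.sub_re, Complex.one_re]
  linarith)

theorem norm_one_sub {y : ℂ} (h : 1 / 2 < y.re) : ‖1 - y‖ ≤ ‖y‖ := by
  rw [← sq_le_sq₀ (norm_nonneg _) (norm_nonneg _), Complex.sq_norm, Complex.sq_norm,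
    Complex.normSq_apply, Complex.normSq_apply]
  simp only [Complex.sub_re, Complex.one_re, Complex.sub_im, Complex.one_im]
  nlinarith

theorem cover {N : ℕ} (hN : 0 < N) (p q : ℂ) : ∃ (α : Fin 3) (X t : ℂ), X ∈ K0 N ∧
    ‖t‖ ≤ ‖p‖ + ‖q‖ ∧ p = t * (xc N α X).1 ∧ q = t * (xc N α X).2 := by
  have root : ∀ W : ℂ, ‖W‖ ≤ 1 → W.re ≤ 1 / 2 → ∃ X ∈ K0 N, X ^ N = W := by
    intro W h1 h2
    obtain ⟨X, hX⟩ := IsAlgClosed.exists_pow_nat_eq W hN
    exact ⟨X, ⟨by rwa [hX], by rwa [hX]⟩, hX⟩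
  have quo : ∀ p q : ℂ, ‖q‖ ≤ ‖p‖ → ∃ x : ℂ, ‖x‖ ≤ 1 ∧ q = p * x := by
    intro p q h
    by_cases hp : p = 0
    · refine ⟨0, by simp, ?_⟩
      rw [hp, norm_zero] at h
      simpa using h
    · refine ⟨q / p, ?_, by field_simp⟩
      rw [norm_div]
      exact div_le_one_of_le₀ h (norm_nonneg _)
  have hp : ‖p‖ ≤ ‖p‖ + ‖q‖ := le_add_of_nonneg_right (norm_nonneg _)
  have hq : ‖q‖ ≤ ‖p‖ + ‖q‖ := le_add_of_nonneg_left (norm_nonneg _)
  rcases le_total ‖q‖ ‖p‖ with h | h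
  · obtain ⟨x, hx, hx'⟩ := quo p q h
    rcases le_or_gt x.re (1 / 2) with h1 | h1
    · obtain ⟨X, hX, hX'⟩ := root x hx h1
      exact ⟨0, X, p, hX, hp, by simp [xc], by simp [xc, hX', hx']⟩
    · obtain ⟨X, hX, hX'⟩ := root (1 - x) ((norm_one_sub h1).trans hx)
        (by simp only [Complex.sub_re, Complex.one_re]; linarith)
      exact ⟨1, X, p, hX, hp, by simp [xc], by simp [xc, hX', hx']⟩
  · obtain ⟨y, hy, hy'⟩ := quo q p h
    rcases le_or_gt y.re (1 / 2) with h1 | h1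
    · obtain ⟨X, hX, hX'⟩ := root y hy h1
      exact ⟨2, X, q, hX, hq, by simp [xc, hX', hy'], by simp [xc]⟩
    · have hy0 : y ≠ 0 := by
        rintro rfl
        norm_num at h1
      have hpos : 0 < Complex.normSq y := Complex.normSq_pos.2 hy0
      obtain ⟨X, hX, hX'⟩ := root (1 - y⁻¹) (by
          rw [show 1 - y⁻¹ = -(1 - y) / y by field_simp; ring, norm_div, norm_neg]
          exact div_le_one_of_le₀ (norm_one_sub h1) (norm_nonneg _)) (by
          have h2 : Complex.normSq y ≤ 1 := by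
            rw [← Complex.sq_norm]
            exact pow_le_one₀ (norm_nonneg _) hy
          have h3 : 1 / 2 ≤ y.re / Complex.normSq y := by
            rw [le_div_iff₀ hpos]; linarith
          simp only [Complex.sub_re, Complex.one_re, Complex.inv_re]
          linarith)
      refine ⟨1, X, p, hX, hp, by simp [xc], ?_⟩
      simp only [xc, Matrix.cons_val_one, Matrix.cons_val_zero, hX', hy']
      field_simp
      ring

theorem phi_ana (h : AllCh) {N A B : ℕ} (hA : 0 < A) (hB : 0 < B) (hN : A + B < N) (α : Fin 3) :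
    AnalyticOnNhd ℂ (phi N A B α) (Om N) := by
  intro X hX
  have h0 := (h N A B (by omega) hA).ana X hX
  have h1 := (h N B A (by omega) hB).ana X hX
  have h2 := (h N (N - A - B) B (by omega) (by omega)).ana X hX
  fin_cases α
  · exact h0.div_const
  · exact h1.neg.div_const
  · exact (analyticAt_const.mul h2).div_const

theorem xc_ana (N : ℕ) (α : Fin 3) (X : ℂ) :
    AnalyticAt ℂ (fun X => (xc N α X).1) X ∧ AnalyticAt ℂ (fun X => (xc N α X).2) X := by
  fin_cases α <;> simp only [xc] <;> constructor <;> simp <;> fun_prop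

/-- dehomogenisation -/
theorem dehom {N n : ℕ} (hN : 0 < N) {P : MvPolynomial (Fin 3) ℂ} (h0 : P ≠ 0)
    (hP : P.IsHomogeneous n) : ∃ Q : Polynomial (Polynomial ℂ), Q ≠ 0 ∧
      ∀ x y g : ℂ, g ≠ 0 → eval ![g, g * x ^ N, y] P = 0 → Q.evalEval x (y / g) = 0 := by
  let Q : Polynomial (Polynomial ℂ) :=
    aeval ![1, Polynomial.C (Polynomial.X ^ N), Polynomial.X] P
  have hQ : ∀ x y : ℂ, Q.evalEval x y = eval ![1, x ^ N, y] P := by
    intro x y
    simp only [Q]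
    clear hP h0 Q
    induction P using MvPolynomial.induction_on with
    | C a => simp [Polynomial.evalEval]
    | add p q hp hq => rw [map_add, Polynomial.evalEval_add, hp, hq, map_add]
    | mul_X p i hp =>
      rw [map_mul, Polynomial.evalEval_mul, hp, map_mul, aeval_X, eval_X]
      congr 1
      fin_cases i <;> simp [Polynomial.evalEval]
  have hh : ∀ g x y : ℂ, g ≠ 0 → eval ![g, g * x ^ N, y] P = g ^ n * Q.evalEval x (y / g) := by
    intro g x y hg
    rw [hQ, ← eval_homog hP]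
    congr 2
    funext i
    fin_cases i <;> simp
    field_simp
  refine ⟨Q, fun hQ0 => h0 ?_, fun x y g hg he => ?_⟩
  · have : X 0 * P = 0 := by
      refine MvPolynomial.funext fun z => ?_
      rw [map_mul, eval_X, map_zero]
      by_cases hz : z 0 = 0
      · rw [hz, zero_mul]
      · obtain ⟨x, hx⟩ := IsAlgClosed.exists_pow_nat_eq (z 1 / z 0) hN
        have h1 := hh (z 0) x (z 2) hz
        have h2 : ![z 0, z 0 * x ^ N, z 2] = z := by
          funext i
          fin_cases i <;> simp [hx]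
          field_simp
        rw [h2, hQ0] at h1
        simp [h1]
    exact (mul_eq_zero.1 this).resolve_left (X_ne_zero 0)
  · rw [hh g x y hg] at he
    exact (mul_eq_zero.1 he).resolve_left (pow_ne_zero _ hg)

section Lat

variable {κ : Type} {N : ℕ} (u v d : κ → ℂ)

/-- the generators of the lattice -/
def gen (N : ℕ) (p : Fin N × Fin N) : κ → ℂ := fun σ => u σ ^ (p.1 : ℕ) * v σ ^ (p.2 : ℕ) * d σ

theorem mem_lat (hN : 0 < N) (hu : ∀ σ, u σ ^ N = 1) (hv : ∀ σ, v σ ^ N = 1)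
    (T : MvPolynomial (Fin 2) ℤ) : ∀ i j : ℕ,
    (fun σ => u σ ^ i * v σ ^ j * (aeval ![u σ, v σ] T * d σ)) ∈
      Submodule.span ℤ (Set.range (gen u v d N)) := by
  induction T using MvPolynomial.induction_on with
  | C a =>
    intro i j
    have : (fun σ => u σ ^ i * v σ ^ j * (aeval ![u σ, v σ] (C a : MvPolynomial (Fin 2) ℤ) * d σ)) =
        a • gen u v d N (⟨i % N, Nat.mod_lt _ hN⟩, ⟨j % N, Nat.mod_lt _ hN⟩) := by
      funext σ
      simp only [gen, Pi.smul_apply, zsmul_eq_mul, ← pow_eq_pow_mod _ (hu σ),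
        ← pow_eq_pow_mod _ (hv σ), eq_intCast, map_intCast]
      ring
    rw [this]
    exact Submodule.smul_mem _ _ (Submodule.subset_span ⟨_, rfl⟩)
  | add p q hp hq =>
    intro i j
    refine (congrArg (· ∈ _) ?_).mp (Submodule.add_mem _ (hp i j) (hq i j))
    funext σ
    simp only [map_add, Pi.add_apply]
    ring
  | mul_X p k hp =>
    intro i j
    fin_cases k
    · refine (congrArg (· ∈ _) ?_).mp (hp (i + 1) j)
      funext σ
      simp
      ring
    · refine (congrArg (· ∈ _) ?_).mp (hp i (j + 1))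
      funext σ
      simp
      ring

theorem reps {ι : Type} [Fintype ι] (e : ι → κ → ℂ) {M : ℕ} (hM : 0 < M) (l : κ → ℂ)
    (hl : l ∈ Submodule.span ℤ (Set.range e)) : ∃ (r : ι → Fin M) (l' : κ → ℂ),
      l' ∈ Submodule.span ℤ (Set.range e) ∧ l = ∑ p, ((r p : ℕ) : ℤ) • e p + (M : ℂ) • l' := by
  obtain ⟨n, rfl⟩ := (Submodule.mem_span_range_iff_exists_fun ℤ).1 hl
  have hM' : (0 : ℤ) < M := by exact_mod_cast hM
  have h1 : ∀ p, 0 ≤ n p % M := fun p => Int.emod_nonneg _ hM'.ne'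
  refine ⟨fun p => ⟨(n p % M).toNat, ?_⟩, ∑ p, (n p / M) • e p,
    Submodule.sum_mem _ fun p _ => Submodule.smul_mem _ _ (Submodule.subset_span ⟨_, rfl⟩), ?_⟩
  · have := Int.emod_lt_of_pos (n p) hM'
    have := h1 p
    omega
  · rw [Finset.smul_sum, ← Finset.sum_add_distrib]
    refine Finset.sum_congr rfl fun p _ => ?_
    simp only [Int.toNat_of_nonneg (h1 p)]
    rw [show (M : ℂ) • (n p / M) • e p = ((M : ℤ) * (n p / M)) • e p by
      rw [mul_smul, natCast_zsmul, Nat.cast_smul_eq_nsmul], ← add_smul, Int.emod_add_mul_ediv]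

end Lat

end Pl

open Pl

theorem pull (hC : Cs) (hF : All AfA) (hK : AllC) (h : AllCh) (hG : Glue) : Pull := by
  intro E _ _ c Φ N a b A B hc hΦ hAB F G hMF hG0
  classical
  have hN : 0 < N := by
    obtain ⟨σ⟩ : Nonempty (Emb E) := inferInstance
    by_cases hσ : σ ∈ Φ
    · have := (hAB ⟨σ, hσ⟩).2.2.1; omega
    · have h2 : cj σ ∈ Φ := by
        by_contra h2
        exact hσ ((hΦ σ).2 h2)
      have := (hAB ⟨_, h2⟩).2.2.1; omega
  have hV : IsTor (Set.range (pt Φ)) := (hK E c hc).isTor Φ hΦ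
  let u : Φ → ℂ := fun σ => ee (A σ / N)
  let v : Φ → ℂ := fun σ => ee (B σ / N)
  let d : Φ → ℂ := fun σ => (ee ((A σ + B σ) / N) - 1)⁻¹
  have hu : ∀ σ, u σ ^ N = 1 := fun σ => ee_pow hN _
  have hv : ∀ σ, v σ ^ N = 1 := fun σ => ee_pow hN _
  obtain ⟨M, hM, hlat⟩ := (hF Φ).lattice _ Unit (fun _ => F) (fun _ => G) hV (fun _ => hMF)
    (Finset.univ.image (gen u v d N)) (by
      rw [Finset.coe_image, Finset.coe_univ, Set.image_univ]
      rintro _ ⟨p, rfl⟩
      refine ⟨a ^ (p.1 : ℕ) * b ^ (p.2 : ℕ) * (a * b - 1)⁻¹, ?_⟩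
      funext σ
      obtain ⟨-, -, -, h1, h2⟩ := hAB σ
      simp only [pt, gen, map_mul, map_pow, map_inv₀, map_sub, map_one, h1, h2, u, v, d, add_div,
        ee_add])
  rw [Finset.coe_image, Finset.coe_univ, Set.image_univ] at hlat
  let ψ : Fin 3 × (Fin N × Fin N) × (Fin N × Fin N → Fin M) → ℂ → Φ → ℂ := fun s X =>
    (fun σ => u σ ^ (s.2.1.1 : ℕ) * v σ ^ (s.2.1.2 : ℕ) * phi N (A σ) (B σ) s.1 X) +
      ∑ p, ((s.2.2 p : ℕ) : ℤ) • gen u v d N p
  have hψ : ∀ s, AnalyticOnNhd ℂ (ψ s) (Om N) := by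
    intro s X hX
    refine AnalyticAt.fun_add (analyticAt_pi_iff.2 fun σ => ?_) analyticAt_const
    obtain ⟨h1, h2, h3, -⟩ := hAB σ
    exact analyticAt_const.fun_mul (phi_ana h h1 h2 h3 s.1 X hX)
  have hO : IsOpen (Om N) := (h N 1 1 hN one_pos).opn
  obtain ⟨n, P, hP0, hPn, hP⟩ := cs1 hC _ (Om N) (K0 N)
    (fun s i X => ![G (ψ s X) * (xc N s.1 X).1, G (ψ s X) * (xc N s.1 X).2,
      F (ψ s X) * (xc N s.1 X).1] i) hO (K0_compact hN) (K0_sub N)
    (fun s i X hX => by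
      have h1 := (hMF.holA (ψ s X)).comp (hψ s X hX)
      have h2 := (hMF.holB (ψ s X)).comp (hψ s X hX)
      have h3 := xc_ana N s.1 X
      fin_cases i
      · exact h2.mul h3.1
      · exact h2.mul h3.2
      · exact h1.mul h3.1)
    (fun s K' hK' hs => by
      obtain ⟨C, hC⟩ := hlat (ψ s '' K' ∪ ⋃ s', ψ s' '' K0 N)
        ((hK'.image_of_continuousOn ((hψ s).continuousOn.mono hs)).union
          (isCompact_iUnion fun s' => (K0_compact hN).image_of_continuousOn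
            ((hψ s').continuousOn.mono (K0_sub N))))
      obtain ⟨C', hC'⟩ := hK'.exists_bound_of_continuousOn
        (f := fun X => ‖(xc N s.1 X).1‖ + ‖(xc N s.1 X).2‖) fun X _ =>
          ((xc_ana N s.1 X).1.continuousAt.norm.add
            (xc_ana N s.1 X).2.continuousAt.norm).continuousWithinAt
      refine ⟨max C 0 * C', fun X hX => ?_⟩
      obtain ⟨α', X', t, hX', ht, hp, hq⟩ := cover hN (xc N s.1 X).1 (xc N s.1 X).2
      obtain ⟨i, j, T, hT⟩ := hG N s.1 α' X X' (hs hX) (K0_sub N hX') (by rw [hp, hq]; ring)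
      obtain ⟨r, l, hl, hr⟩ := reps (gen u v d N) hM _ (Submodule.add_mem _
        (mem_lat u v d hN hu hv T s.2.1.1 s.2.1.2)
        (Submodule.sum_mem _ fun p (_ : p ∈ Finset.univ) => Submodule.smul_mem _
          ((s.2.2 p : ℕ) : ℤ) (Submodule.subset_span ⟨p, rfl⟩)))
      let s' : Fin 3 × (Fin N × Fin N) × (Fin N × Fin N → Fin M) :=
        (α', (⟨(s.2.1.1 + i) % N, Nat.mod_lt _ hN⟩, ⟨(s.2.1.2 + j) % N, Nat.mod_lt _ hN⟩), r)
      have he : ψ s X = ψ s' X' + (M : ℂ) • l := by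
        simp only [ψ, s']
        rw [add_assoc, ← hr, ← add_assoc]
        congr 1
        funext σ
        obtain ⟨h1, h2, h3, -⟩ := hAB σ
        have h4 : ee ((i * A σ + j * B σ) / N) = u σ ^ i * v σ ^ j := by
          rw [add_div, ee_add, mul_div_assoc, mul_div_assoc, ee_nat_mul, ee_nat_mul]
        simp only [Pi.add_apply, hT _ _ h1 h2 h3, ← pow_eq_pow_mod _ (hu σ),
          ← pow_eq_pow_mod _ (hv σ), h4, div_eq_mul_inv _ (ee _ - 1)]
        ring
      obtain ⟨c, hc, h1, h2⟩ := hC l hl (ψ s' X') (Or.inr (Set.mem_iUnion.2 ⟨s', X', hX', rfl⟩))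
        (he ▸ Or.inl ⟨X, hX, rfl⟩) ()
      refine ⟨s', X', hX', c * t, ?_, fun k => ?_⟩
      · rw [norm_mul]
        exact mul_le_mul (hc.trans (le_max_left _ _))
          (ht.trans ((le_abs_self _).trans (hC' X hX))) (norm_nonneg _) (le_max_right _ _)
      · simp only [he, h1, h2]
        rw [hp, hq]
        fin_cases k <;> simp [s'] <;> ring)
  obtain ⟨Q, hQ0, hQ⟩ := dehom hN hP0 hPn
  refine ⟨Q, hQ0, ?_⟩
  let s : Fin 3 × (Fin N × Fin N) × (Fin N × Fin N → Fin M) :=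
    (0, (⟨0, hN⟩, ⟨0, hN⟩), fun _ => ⟨0, hM⟩)
  have hs : ∀ X, ψ s X = fun σ => phi N (A σ) (B σ) 0 X := by
    intro X
    simp [ψ, s]
  have h0 : (0 : ℂ) ∈ Om N := by simp [Om, hN.ne']
  have hz : ψ s 0 = 0 := by
    rw [hs]
    funext σ
    obtain ⟨h1, -, -⟩ := hAB σ
    simp [phi, (h N (A σ) (B σ) hN h1).zero]
  have hne : ∀ᶠ X in 𝓝 (0 : ℂ), G (ψ s X) ≠ 0 :=
    ((hMF.holB (ψ s 0)).comp (hψ s 0 h0)).continuousAt.eventually_ne (by
      simpa [hz] using hG0)
  filter_upwards [hne, hO.mem_nhds h0] with X h1 h2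
  rw [← hs]
  refine hQ X _ _ h1 ?_
  have := hP s X h2
  simpa [xc, s] using this

end Pool.Agent.GAM

end MrgPart2

-- ======== part 3: formerly Pool.Agent.MP_cbf1af_ag.gam.Tha
section MrgPart3

/-! PROJECT GAM, row THA: convergence, analyticity and derivative of theta series. -/

namespace Pool.Agent.GAM

open Matrix Complex Filter Topology

noncomputable section

namespace Tha

section ExpSum

variable {X ι : Type} [NormedAddCommGroup X] [NormedSpace ℂ X]

/-- the homogeneous parts of `c * exp (l x)` -/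
def hp (c : ℂ) (l : X →L[ℂ] ℂ) (k : ℕ) : ContinuousMultilinearMap ℂ (fun _ : Fin k => X) ℂ :=
  (c / k.factorial) • (ContinuousMultilinearMap.mkPiAlgebraFin ℂ k ℂ).compContinuousLinearMap
    fun _ => l

theorem hp_apply (c : ℂ) (l : X →L[ℂ] ℂ) (k : ℕ) (y : X) :
    hp c l k (fun _ => y) = c * (l y ^ k / k.factorial) := by
  simp [hp, ContinuousMultilinearMap.mkPiAlgebraFin_apply, List.ofFn_const]
  ring

theorem hp_norm (c : ℂ) (l : X →L[ℂ] ℂ) (k : ℕ) {b : ℝ} (hb : ‖l‖ ≤ b) :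
    ‖hp c l k‖ ≤ ‖c‖ * (b ^ k / k.factorial) := by
  have h := (ContinuousMultilinearMap.mkPiAlgebraFin ℂ k ℂ).norm_compContinuousLinearMap_le
    fun _ => l
  rw [ContinuousMultilinearMap.norm_mkPiAlgebraFin, one_mul, Finset.prod_const,
    Finset.card_univ, Fintype.card_fin] at h
  have h2 : ‖l‖ ^ k ≤ b ^ k := pow_le_pow_left₀ (norm_nonneg _) hb k
  unfold hp
  rw [norm_smul, norm_div, Complex.norm_natCast]
  calc _ ≤ ‖c‖ / k.factorial * b ^ k := mul_le_mul_of_nonneg_left (h.trans h2) (by positivity)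
    _ = _ := by ring

theorem he (t : ℝ) : HasSum (fun k : ℕ => t ^ k / k.factorial) (Real.exp t) := by
  rw [Real.exp_eq_exp_ℝ]; exact NormedSpace.expSeries_div_hasSum_exp t

theorem he' (t : ℂ) : HasSum (fun k : ℕ => t ^ k / k.factorial) (Complex.exp t) := by
  rw [Complex.exp_eq_exp_ℂ]; exact NormedSpace.expSeries_div_hasSum_exp t

theorem dbl {a t : ι → ℝ} (a0 : ∀ n, 0 ≤ a n) (t0 : ∀ n, 0 ≤ t n)
    (hs : Summable fun n => a n * Real.exp (t n)) :
    Summable fun q : ι × ℕ => a q.1 * (t q.1 ^ q.2 / q.2.factorial) := by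
  refine (summable_prod_of_nonneg fun q => ?_).2 ⟨fun n => ((he (t n)).mul_left (a n)).summable,
    hs.congr fun n => (((he (t n)).mul_left (a n)).tsum_eq).symm⟩
  have := a0 q.1
  have := t0 q.1
  simp only [Pi.zero_apply]
  positivity

theorem swap {w : ι × ℕ → ℝ} (hW : Summable w) :
    (∀ k, Summable fun n => w (n, k)) ∧ Summable fun k => ∑' n, w (n, k) :=
  ⟨fun k => hW.prod_symm.prod_factor k, hW.prod_symm.prod⟩

theorem swap' {w : ι × ℕ → ℂ} (hW : Summable w) {u : ι → ℂ} {v : ℕ → ℂ}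
    (hu : ∀ n, HasSum (fun k => w (n, k)) (u n)) (hv : ∀ k, HasSum (fun n => w (n, k)) (v k)) :
    HasSum v (∑' n, u n) := by
  rw [(hW.hasSum.prod_fiberwise hu).tsum_eq]
  have h : HasSum (w ∘ Equiv.prodComm ℕ ι) (∑' q, w q) :=
    (Equiv.prodComm ℕ ι).hasSum_iff.2 hW.hasSum
  exact h.prod_fiberwise hv

theorem series (c : ι → ℂ) (l : ι → X →L[ℂ] ℂ) (b : ι → ℝ) {r : ℝ} (hr : 0 < r)
    (hb : ∀ n, ‖l n‖ ≤ b n) (hs : Summable fun n => ‖c n‖ * Real.exp (r * b n)) :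
    ∃ p : FormalMultilinearSeries ℂ X ℂ, ENNReal.ofReal r ≤ p.radius ∧
      (∀ y, ‖y‖ ≤ r → HasSum (fun k => p k fun _ => y) (∑' n, c n * Complex.exp (l n y))) ∧
      ∀ y, (p 1 fun _ => y) = ∑' n, c n * l n y := by
  have b0 : ∀ n, 0 ≤ b n := fun n => (norm_nonneg _).trans (hb n)
  have hW := dbl (fun n => norm_nonneg (c n)) (fun n => mul_nonneg hr.le (b0 n)) hs
  obtain ⟨hW1, hW2⟩ := swap hW
  have hq : ∀ n k, ‖hp (c n) (l n) k‖ * r ^ k ≤ ‖c n‖ * ((r * b n) ^ k / k.factorial) :=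
    fun n k => by
      refine (mul_le_mul_of_nonneg_right (hp_norm _ _ k (hb n)) (by positivity)).trans_eq ?_
      rw [mul_pow]; ring
  have hq1 : ∀ k, Summable fun n => ‖hp (c n) (l n) k‖ * r ^ k := fun k =>
    Summable.of_nonneg_of_le (fun n => by positivity) (fun n => hq n k) (hW1 k)
  have hq2 : ∀ k, Summable fun n => ‖hp (c n) (l n) k‖ := fun k =>
    (summable_mul_right_iff (pow_pos hr k).ne').1 (hq1 k)
  have hev : ∀ k y, HasSum (fun n => c n * (l n y ^ k / k.factorial))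
      ((∑' n, hp (c n) (l n) k) fun _ => y) := fun k y => by
    have := ContinuousMultilinearMap.hasSum_eval (hq2 k).of_norm.hasSum fun _ => y
    simpa only [hp_apply] using this
  refine ⟨fun k => ∑' n, hp (c n) (l n) k, ?_, fun y hy => ?_, fun y => ?_⟩
  · refine FormalMultilinearSeries.le_radius_of_summable (r := r.toNNReal) _ ?_
    rw [Real.coe_toNNReal _ hr.le]
    refine Summable.of_nonneg_of_le (fun k => by positivity) (fun k => ?_) hW2
    refine (mul_le_mul_of_nonneg_right (norm_tsum_le_tsum_norm (hq2 k)) (by positivity)).trans ?_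
    rw [← tsum_mul_right]
    exact (hq1 k).tsum_le_tsum (fun n => hq n k) (hW1 k)
  · have hB : Summable fun q : ι × ℕ => c q.1 * (l q.1 y ^ q.2 / q.2.factorial) := by
      refine Summable.of_norm_bounded hW fun q => ?_
      have : ‖l q.1 y‖ ≤ r * b q.1 := ((l q.1).le_opNorm y).trans (by
        rw [mul_comm]; exact mul_le_mul hy (hb _) (norm_nonneg _) hr.le)
      rw [norm_mul, norm_div, norm_pow, Complex.norm_natCast]
      gcongr
    exact swap' hB (fun n => (he' (l n y)).mul_left (c n)) fun k => hev k y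
  · have := (hev 1 y).tsum_eq
    simp only [pow_one, Nat.factorial_one, Nat.cast_one, div_one] at this
    exact this.symm

theorem expsum (a : ι → ℂ) (l : ι → X →L[ℂ] ℂ) (b : ι → ℝ) (x : X) {r : ℝ} (hr : 0 < r)
    (hb : ∀ n, ‖l n‖ ≤ b n)
    (hs : Summable fun n => ‖a n * Complex.exp (l n x)‖ * Real.exp (r * b n)) :
    AnalyticAt ℂ (fun x => ∑' n, a n * Complex.exp (l n x)) x ∧
      ∀ y, fderiv ℂ (fun x => ∑' n, a n * Complex.exp (l n x)) x y =
        ∑' n, a n * Complex.exp (l n x) * l n y := by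
  obtain ⟨p, h1, h2, h3⟩ := series _ l b hr hb hs
  have H : HasFPowerSeriesOnBall (fun x => ∑' n, a n * Complex.exp (l n x)) p x
      (ENNReal.ofReal r) := by
    refine ⟨h1, by simpa using hr, fun {y} hy => ?_⟩
    rw [Metric.eball_ofReal, mem_ball_zero_iff] at hy
    simpa only [map_add, Complex.exp_add, mul_assoc] using h2 y hy.le
  refine ⟨H.analyticAt, fun y => ?_⟩
  rw [H.hasFPowerSeriesAt.hasFDerivAt.fderiv, continuousMultilinearCurryFin1_apply, ← h3]
  congr 1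

end ExpSum

variable {κ : Type} [Fintype κ] [DecidableEq κ]

theorem summable_pi {g : ℚ → ℝ} (g0 : ∀ a, 0 ≤ g a) (hg : Summable g) :
    Summable fun n : κ → ℚ => ∏ i, g (n i) := by
  refine summable_of_sum_le (c := ∏ _i : κ, ∑' a, g a)
    (fun n => Finset.prod_nonneg fun i _ => g0 _) fun s => ?_
  calc ∑ n ∈ s, ∏ i, g (n i)
      ≤ ∑ n ∈ Fintype.piFinset fun i => s.image fun n => n i, ∏ i, g (n i) :=
        Finset.sum_le_sum_of_subset_of_nonneg
          (fun n hn => Fintype.mem_piFinset.2 fun i => Finset.mem_image_of_mem _ hn)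
          fun n _ _ => Finset.prod_nonneg fun i _ => g0 _
    _ = ∏ i, ∑ a ∈ s.image fun n => n i, g a := (Finset.prod_univ_sum _ _).symm
    _ ≤ _ := Finset.prod_le_prod (fun i _ => Finset.sum_nonneg fun a _ => g0 a)
        fun i _ => hg.sum_le_tsum _ fun a _ => g0 a

open Classical in
/-- a summable weight on `(1/M) ℤ` -/
def wt (M : ℕ) (a : ℚ) : ℝ := if ∃ k : ℤ, (M : ℚ) * a = k then Real.exp (-|(a : ℝ)|) else 0

theorem wt_nonneg (M : ℕ) (a : ℚ) : 0 ≤ wt M a := by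
  unfold wt; split_ifs
  · exact (Real.exp_pos _).le
  · exact le_rfl

theorem summable_wt {M : ℕ} (hM : 0 < M) : Summable (wt M) := by
  have hM' : (M : ℚ) ≠ 0 := by positivity
  have hMr : (0 : ℝ) < M := by positivity
  have inj : Function.Injective fun k : ℤ => (k : ℚ) / M := fun a b h => by
    exact_mod_cast (div_left_inj' hM').1 h
  refine (inj.summable_iff fun a ha => ?_).1 ?_
  · refine if_neg fun ⟨k, hk⟩ => ha ⟨k, ?_⟩
    simp only [← hk]; field_simp
  · have e : (wt M ∘ fun k : ℤ => (k : ℚ) / M) = fun k : ℤ => Real.exp (|(k : ℝ)| * -(1 / M)) := by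
      funext k
      simp only [Function.comp, wt]
      rw [if_pos ⟨k, by field_simp⟩]
      push_cast
      rw [abs_div, abs_of_pos hMr]
      congr 1; ring
    have hs := Real.summable_exp_nat_mul_iff.2 (neg_lt_zero.2 (one_div_pos.2 hMr))
    rw [e]
    exact Summable.of_nat_of_neg (by simpa using hs) (by simpa using hs)

omit [DecidableEq κ] in
theorem bdd {M : ℕ} (hM : 0 < M) {f : (κ → ℚ) → ℂ} (h : Lev M f) : ∃ C, ∀ n, ‖f n‖ ≤ C := by
  classical
  have hM' : (M : ℚ) ≠ 0 := by positivity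
  have hz : (0 : ℤ) < (M : ℤ) * M := by positivity
  refine ⟨∑ k ∈ Fintype.piFinset fun _ : κ => Finset.Ico (0 : ℤ) (M * M),
    ‖f fun i => (k i : ℚ) / M‖, fun n => ?_⟩
  by_cases h0 : f n = 0
  · rw [h0, norm_zero]; exact Finset.sum_nonneg fun _ _ => norm_nonneg _
  choose k hk using h.1 n h0
  have e : n = (fun i => ((k i % (M * M) : ℤ) : ℚ) / M) +
      fun i => (M : ℚ) * ((k i / (M * M) : ℤ) : ℚ) := by
    funext i
    have h1 : ((k i % (M * M) + (M * M) * (k i / (M * M)) : ℤ) : ℚ) = k i := by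
      rw [Int.emod_add_mul_ediv]
    push_cast at h1
    rw [Pi.add_apply]
    field_simp
    linear_combination hk i - h1
  rw [e, h.2.1]
  exact Finset.single_le_sum (f := fun k : κ → ℤ => ‖f fun i => (k i : ℚ) / M‖)
    (fun _ _ => norm_nonneg _) (Fintype.mem_piFinset.2 fun i =>
      Finset.mem_Ico.2 ⟨Int.emod_nonneg _ hz.ne', Int.emod_lt_of_pos _ hz⟩)

omit [DecidableEq κ] in
theorem lower {Y : Matrix κ κ ℝ} (hY : Y.PosDef) :
    ∃ c, 0 < c ∧ ∀ x : κ → ℝ, c * ‖x‖ ^ 2 ≤ x ⬝ᵥ Y *ᵥ x := by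
  obtain ⟨c, hc, h⟩ := (isCompact_sphere (0 : κ → ℝ) 1).exists_forall_le'
    (f := fun x => x ⬝ᵥ Y *ᵥ x) (by fun_prop) (a := 0) fun x hx => by
      have : x ≠ 0 := by rintro rfl; simp at hx
      simpa using hY.dotProduct_mulVec_pos this
  refine ⟨c, hc, fun x => ?_⟩
  by_cases hx : x = 0
  · simp [hx]
  have n0 : 0 < ‖x‖ := norm_pos_iff.2 hx
  have := h (‖x‖⁻¹ • x) (by simp [norm_smul, n0.ne'])
  simp only [mulVec_smul, dotProduct_smul, smul_dotProduct, smul_eq_mul] at this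
  have h2 := mul_le_mul_of_nonneg_right this (sq_nonneg ‖x‖)
  refine h2.trans_eq ?_
  field_simp

omit [DecidableEq κ] in
theorem dot_le (u v : κ → ℂ) : ‖u ⬝ᵥ v‖ ≤ Fintype.card κ * (‖u‖ * ‖v‖) := by
  refine (norm_sum_le _ _).trans ?_
  rw [← nsmul_eq_mul, ← Finset.card_univ]
  refine Finset.sum_le_card_nsmul _ _ _ fun i _ => ?_
  rw [norm_mul]
  exact mul_le_mul (norm_le_pi_norm u i) (norm_le_pi_norm v i) (norm_nonneg _) (norm_nonneg _)

omit [DecidableEq κ] in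
theorem norm_cq (n : κ → ℚ) : ‖cq n‖ = ‖fun i => (n i : ℝ)‖ := by
  simp only [Pi.norm_def]
  congr 2
  funext i
  ext
  simp [cq]

omit [DecidableEq κ] in
theorem norm_term (τ : Matrix κ κ ℂ) (z : κ → ℂ) (n : κ → ℚ) : ‖term τ z n‖ =
    Real.exp (-(Real.pi * ((fun i => (n i : ℝ)) ⬝ᵥ imM τ *ᵥ fun i => (n i : ℝ))) -
      2 * Real.pi * (cq n ⬝ᵥ z).im) := by
  have e : (cq n ⬝ᵥ τ *ᵥ cq n).im = (fun i => (n i : ℝ)) ⬝ᵥ imM τ *ᵥ fun i => (n i : ℝ) := by
    simp [dotProduct, mulVec, cq, imM, Complex.im_sum]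
  rw [term, ee, Complex.norm_exp, ← e]
  congr 1
  simp [Complex.mul_re, Complex.mul_im]
  ring

theorem gauss {f : (κ → ℚ) → ℂ} {τ : Matrix κ κ ℂ} (z : κ → ℂ) (hf : Sch f) (hτ : InH τ) :
    ∃ r, 0 < r ∧ Summable fun n => ‖f n * term τ z n‖ * Real.exp (r * (1 + ‖cq n‖) ^ 2) := by
  obtain ⟨M, hM, hL⟩ := hf
  obtain ⟨C, hC⟩ := bdd hM hL
  obtain ⟨c, hc, hl⟩ := lower hτ.2
  have pc : 0 < Real.pi * c := mul_pos Real.pi_pos hc
  set B : ℝ := 2 * Real.pi * (Fintype.card κ * ‖z‖) + Fintype.card κ with hB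
  refine ⟨Real.pi * c / 4, by positivity, Summable.of_nonneg_of_le (fun n => by positivity)
    (fun n => ?_) ((summable_pi (κ := κ) (wt_nonneg M) (summable_wt hM)).mul_left
      (C * Real.exp (Real.pi * c / 2 + B ^ 2 / (2 * (Real.pi * c)))))⟩
  have C0 : 0 ≤ C := (norm_nonneg _).trans (hC n)
  by_cases h0 : f n = 0
  · rw [h0, zero_mul, norm_zero, zero_mul]
    exact mul_nonneg (by positivity) (Finset.prod_nonneg fun i _ => wt_nonneg _ _)
  have e : ∏ i, wt M (n i) = Real.exp (-∑ i, |(n i : ℝ)|) := by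
    rw [← Finset.sum_neg_distrib, Real.exp_sum]
    exact Finset.prod_congr rfl fun i _ => if_pos (hL.1 n h0 i)
  rw [e, norm_mul, norm_term, mul_assoc ‖f n‖, mul_assoc C, ← Real.exp_add, ← Real.exp_add]
  refine mul_le_mul (hC n) (Real.exp_le_exp.2 ?_) (Real.exp_pos _).le C0
  have h1 := mul_le_mul_of_nonneg_left (hl fun i => (n i : ℝ)) Real.pi_pos.le
  have h2 : -(cq n ⬝ᵥ z).im ≤ Fintype.card κ * (‖cq n‖ * ‖z‖) :=
    ((neg_le_abs _).trans (Complex.abs_im_le_norm _)).trans (dot_le _ _)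
  have h3 : ∑ i, |(n i : ℝ)| ≤ Fintype.card κ * ‖cq n‖ := by
    rw [norm_cq, ← nsmul_eq_mul, ← Finset.card_univ]
    exact Finset.sum_le_card_nsmul _ _ _ fun i _ => norm_le_pi_norm (fun i => (n i : ℝ)) i
  rw [← norm_cq] at h1
  have h4 := mul_le_mul_of_nonneg_left h2 Real.two_pi_pos.le
  set t := ‖cq n‖
  have h5 : B * t ≤ Real.pi * c / 2 * t ^ 2 + B ^ 2 / (2 * (Real.pi * c)) := by
    have : Real.pi * c / 2 * t ^ 2 + B ^ 2 / (2 * (Real.pi * c)) - B * t =
        (Real.pi * c * t - B) ^ 2 / (2 * (Real.pi * c)) := by field_simp; ring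
    have h : 0 ≤ (Real.pi * c * t - B) ^ 2 / (2 * (Real.pi * c)) := by positivity
    linarith
  have h6 : Real.pi * c / 4 * (1 + t) ^ 2 ≤ Real.pi * c / 2 + Real.pi * c / 2 * t ^ 2 := by
    nlinarith [mul_nonneg pc.le (sq_nonneg (1 - t))]
  have h7 : B * t = 2 * Real.pi * (Fintype.card κ * (t * ‖z‖)) + Fintype.card κ * t := by
    rw [hB]; ring
  linarith

/-- the exponent of a term as a linear form -/
def lin (n : κ → ℚ) : ((κ → κ → ℂ) × (κ → ℂ)) →L[ℂ] ℂ :=
  LinearMap.toContinuousLinearMap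
    { toFun := fun p => 2 * Real.pi * I * (cq n ⬝ᵥ Matrix.of p.1 *ᵥ cq n / 2 + cq n ⬝ᵥ p.2)
      map_add' := fun p q => by
        rw [Prod.fst_add, Prod.snd_add, ← Matrix.of_add_of, add_mulVec, dotProduct_add,
          dotProduct_add]
        ring
      map_smul' := fun a p => by
        rw [Prod.smul_fst, Prod.smul_snd, ← Matrix.smul_of, smul_mulVec, dotProduct_smul,
          dotProduct_smul]
        simp only [smul_eq_mul, RingHom.id_apply]
        ring }

omit [DecidableEq κ] in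
theorem lin_apply (n : κ → ℚ) (p : (κ → κ → ℂ) × (κ → ℂ)) :
    lin n p = 2 * Real.pi * I * (cq n ⬝ᵥ Matrix.of p.1 *ᵥ cq n / 2 + cq n ⬝ᵥ p.2) := rfl

omit [DecidableEq κ] in
theorem norm_lin (n : κ → ℚ) :
    ‖lin n‖ ≤ 2 * Real.pi * ((Fintype.card κ : ℝ) + 1) ^ 2 * (1 + ‖cq n‖) ^ 2 := by
  refine ContinuousLinearMap.opNorm_le_bound _ (by positivity) fun p => ?_
  have d0 : (0 : ℝ) ≤ Fintype.card κ := by positivity
  have t0 := norm_nonneg (cq n)
  have p0 := norm_nonneg p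
  have h1 : ‖Matrix.of p.1 *ᵥ cq n‖ ≤ Fintype.card κ * (‖p‖ * ‖cq n‖) :=
    (pi_norm_le_iff_of_nonneg (by positivity)).2 fun i => (dot_le (p.1 i) (cq n)).trans (by
      have := (norm_le_pi_norm p.1 i).trans (norm_fst_le p)
      gcongr)
  have h2 : ‖cq n ⬝ᵥ Matrix.of p.1 *ᵥ cq n‖ ≤
      Fintype.card κ * (‖cq n‖ * (Fintype.card κ * (‖p‖ * ‖cq n‖))) :=
    (dot_le _ _).trans (by gcongr)
  have h3 : ‖cq n ⬝ᵥ p.2‖ ≤ Fintype.card κ * (‖cq n‖ * ‖p‖) := (dot_le _ _).trans (by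
    have := norm_snd_le p
    gcongr)
  have h4 := norm_add_le (cq n ⬝ᵥ Matrix.of p.1 *ᵥ cq n / 2) (cq n ⬝ᵥ p.2)
  rw [norm_div, Complex.norm_ofNat] at h4
  rw [lin_apply, norm_mul, norm_mul, norm_mul, Complex.norm_I, Complex.norm_ofNat,
    Complex.norm_real, Real.norm_of_nonneg Real.pi_pos.le, mul_one, mul_assoc (2 * Real.pi),
    mul_assoc (2 * Real.pi)]
  refine mul_le_mul_of_nonneg_left (h4.trans ?_) Real.two_pi_pos.le
  generalize ‖cq n‖ = t at *
  generalize (Fintype.card κ : ℝ) = d at *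
  have h5 : d * (t * d * t) / 2 + d * t ≤ (d + 1) ^ 2 * (1 + t) ^ 2 := by
    have := mul_nonneg d0 t0
    have e : (d + 1) ^ 2 * (1 + t) ^ 2 = (d * t + (d + t + 1)) ^ 2 := by ring
    rw [e]
    nlinarith
  have := mul_le_mul_of_nonneg_right h5 p0
  nlinarith

theorem main {f : (κ → ℚ) → ℂ} {τ : Matrix κ κ ℂ} (z : κ → ℂ) (hf : Sch f) (hτ : InH τ) :
    AnalyticAt ℂ (fun p : (κ → κ → ℂ) × (κ → ℂ) => thz f (Matrix.of p.1) p.2) (τ, z) ∧
    ∀ y, fderiv ℂ (fun p : (κ → κ → ℂ) × (κ → ℂ) => thz f (Matrix.of p.1) p.2) (τ, z) y =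
      ∑' n, f n * term τ z n * lin n y := by
  obtain ⟨r, hr, hs⟩ := gauss z hf hτ
  have k0 : 0 < 2 * Real.pi * ((Fintype.card κ : ℝ) + 1) ^ 2 := by positivity
  refine expsum f lin _ (τ, z) (div_pos hr k0) norm_lin (hs.congr fun n => ?_)
  rw [← mul_assoc, div_mul_cancel₀ _ k0.ne']
  rfl

end Tha

open Tha in
theorem thA : All ThA := fun κ _ _ =>
  { summ := fun f τ z k hf hτ => by
      obtain ⟨r, hr, hs⟩ := gauss z hf hτ
      refine Summable.of_nonneg_of_le (fun n => by positivity) (fun n => ?_)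
        (hs.mul_right (k.factorial / r ^ k))
      rw [mul_assoc]
      refine mul_le_mul_of_nonneg_left ?_ (norm_nonneg _)
      have t0 := norm_nonneg (cq n)
      have h1 := Real.pow_div_factorial_le_exp (r * (1 + ‖cq n‖) ^ 2) (by positivity) k
      have h2 : (1 + ‖cq n‖) ^ k ≤ ((1 + ‖cq n‖) ^ 2) ^ k :=
        pow_le_pow_left₀ (by positivity) (by nlinarith) k
      refine h2.trans (le_of_eq_of_le ?_ (mul_le_mul_of_nonneg_right h1 (by positivity)))
      rw [mul_pow]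
      field_simp
    ana := fun f τ z hf hτ => (main z hf hτ).1
    anaz := fun f τ z hf hτ =>
      (main z hf hτ).1.comp_of_eq (f := fun z => ((τ, z) : (κ → κ → ℂ) × (κ → ℂ)))
        (analyticAt_const.prod analyticAt_id) rfl
    der := fun f τ S z u hf hτ => (main z hf hτ).2 (S, u)
    derz := fun f τ z u hf hτ => by
      have h := (main z hf hτ).1.differentiableAt.hasFDerivAt.comp z
        (hasFDerivAt_prodMk_right (𝕜 := ℂ) (E := κ → κ → ℂ) τ z)
      have e : fderiv ℂ (thz f τ) z = _ := h.fderiv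
      rw [e, ContinuousLinearMap.comp_apply, (main z hf hτ).2]
      refine tsum_congr fun n => ?_
      simp [lin_apply, Matrix.of_zero] }

end

end Pool.Agent.GAM

end MrgPart3

-- ======== part 4: formerly Pool.Agent.MP_cbf1af_ag.gam.Weil1
section MrgPart4

/-! PROJECT GAM, module WEIL1: translations, substitutions and products act on theta series. -/

namespace Pool.Agent.GAM

open Matrix Complex Filter Topology

namespace Weil1P

variable {κ : Type} [Fintype κ] [DecidableEq κ]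

lemma ee_add (x y : ℂ) : ee (x + y) = ee x * ee y := by
  rw [ee, ee, ee, mul_add, Complex.exp_add]

lemma ee_zero : ee 0 = 1 := by simp [ee]

lemma ee_int (k : ℤ) : ee k = 1 := by
  rw [ee, mul_comm]
  exact Complex.exp_int_mul_two_pi_mul_I k

lemma ee_pow (x : ℂ) (n : ℕ) : ee x ^ n = ee (n * x) := by
  rw [ee, ee, ← Complex.exp_nat_mul]
  congr 1
  ring

lemma alg_ee (q : ℚ) : Alg (ee (q : ℂ)) := by
  refine IsAlgebraic.of_pow q.den_pos ?_
  rw [ee_pow, show (q.den : ℂ) * q = (q.num : ℂ) by exact_mod_cast Rat.den_mul_eq_num q, ee_int]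
  exact isAlgebraic_one

/-- the integers as a subring of the rationals -/
abbrev ZZ : Subring ℚ := (Int.castRingHom ℚ).range

lemma mem_ZZ {x : ℚ} : x ∈ ZZ ↔ ∃ k : ℤ, x = k :=
  ⟨fun ⟨k, hk⟩ => ⟨k, hk.symm⟩, fun ⟨k, hk⟩ => ⟨k, hk.symm⟩⟩

lemma ex_den {ι : Type} [Fintype ι] (q : ι → ℚ) : ∃ d : ℕ, 0 < d ∧ ∀ i, (d : ℚ) * q i ∈ ZZ := by
  classical
  refine ⟨∏ i, (q i).den, Finset.prod_pos fun i _ => (q i).den_pos, fun i => ?_⟩
  rw [← Finset.prod_erase_mul _ _ (Finset.mem_univ i), Nat.cast_mul, mul_assoc,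
    Rat.den_mul_eq_num]
  exact mul_mem (natCast_mem _ _) (intCast_mem _ _)

lemma cq_dot {ι : Type} [Fintype ι] (a b : ι → ℚ) : cq a ⬝ᵥ cq b = ((a ⬝ᵥ b : ℚ) : ℂ) := by
  simp [cq, dotProduct]

lemma cM_mulVec {ι ι' : Type} [Fintype ι'] (A : Matrix ι ι' ℚ) (b : ι' → ℚ) :
    cM A *ᵥ cq b = cq (A *ᵥ b) := by
  ext i
  simp [cq, cM, mulVec, dotProduct]

lemma cM_vecMul {ι ι' : Type} [Fintype ι] (A : Matrix ι ι' ℚ) (b : ι → ℚ) :
    cq b ᵥ* cM A = cq (b ᵥ* A) := by
  ext i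
  simp [cq, cM, vecMul, dotProduct]

lemma cM_mul {ι ι' ι'' : Type} [Fintype ι'] (A : Matrix ι ι' ℚ) (B : Matrix ι' ι'' ℚ) :
    cM (A * B) = cM A * cM B := by
  ext i j
  simp [cM, Matrix.mul_apply]

omit [Fintype κ] in
lemma cM_one : cM (1 : Matrix κ κ ℚ) = 1 := by
  ext i j
  simp only [cM, map_apply, one_apply]
  split_ifs <;> simp

lemma cM_zero {ι ι' : Type} : cM (0 : Matrix ι ι' ℚ) = 0 := by
  ext i j
  simp [cM]

lemma cM_blocks {ι : Type} (A B C D : Matrix ι ι ℚ) :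
    cM (fromBlocks A B C D) = fromBlocks (cM A) (cM B) (cM C) (cM D) := fromBlocks_map _ _ _ _ _

lemma mul_per (A B C D τ : Matrix κ κ ℂ) :
    fromBlocks A B C D * per τ = fromRows (A * τ + B) (C * τ + D) := by
  rw [per, fromBlocks_mul_fromRows, Matrix.mul_one, Matrix.mul_one]

lemma kk_eq (γ : Matrix (κ ⊕ κ) (κ ⊕ κ) ℚ) (τ : Matrix κ κ ℂ) :
    kk γ τ = (cM γ).toBlocks₂₁ * τ + (cM γ).toBlocks₂₂ := by
  conv_lhs => rw [kk, ← fromBlocks_toBlocks (cM γ), mul_per, toRows₂_fromRows]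

omit [DecidableEq κ] in
lemma dot_conj (K Q : Matrix κ κ ℂ) (z : κ → ℂ) :
    (z ᵥ* K) ⬝ᵥ Q *ᵥ (z ᵥ* K) = z ⬝ᵥ (K * Q * Kᵀ) *ᵥ z := by
  rw [← dotProduct_mulVec, ← mulVec_transpose, mulVec_mulVec, mulVec_mulVec]

omit [DecidableEq κ] in
lemma dot_symm {R : Type} [CommRing R] {Q : Matrix κ κ R} (h : Q.IsSymm) (z w : κ → R) :
    z ⬝ᵥ Q *ᵥ w = w ⬝ᵥ Q *ᵥ z := by
  rw [dotProduct_mulVec, dotProduct_comm, ← mulVec_transpose, h.eq]

/-! ### Translations -/

omit [DecidableEq κ] in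
lemma sch_nn {B : Matrix κ κ ℚ} (hB : B.IsSymm) {f : (κ → ℚ) → ℂ} (hf : Sch f) :
    Sch fun n => f n * ee ((n ⬝ᵥ B *ᵥ n / 2 : ℚ) : ℂ) := by
  obtain ⟨M, hM, h1, h2, h3⟩ := hf
  obtain ⟨d, hd, hdB⟩ := ex_den fun p : κ × κ => B p.1 p.2
  refine ⟨M * (2 * d), by positivity, fun n hn i => ?_, fun n k => ?_,
    fun n => (h3 n).mul (alg_ee _)⟩
  · obtain ⟨k, hk⟩ := h1 n (left_ne_zero_of_mul hn) i
    refine ⟨2 * d * k, ?_⟩
    push_cast
    rw [← hk]
    ring
  · have e : f (n + fun i => ((M * (2 * d) : ℕ) : ℚ) * k i) = f n := by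
      rw [← h2 n fun i => 2 * d * k i]
      congr 2
      ext i
      push_cast
      ring
    show f _ * _ = f n * _
    rw [e]
    by_cases hn : f n = 0
    · rw [hn, zero_mul, zero_mul]
    set w : κ → ℚ := fun i => ((M * (2 * d) : ℕ) : ℚ) * k i with hw
    have hz : w ⬝ᵥ B *ᵥ n + w ⬝ᵥ B *ᵥ w / 2 ∈ ZZ := by
      refine add_mem ?_ ?_
      · simp only [dotProduct, mulVec, Finset.mul_sum]
        refine sum_mem fun i _ => sum_mem fun j _ => ?_
        have : w i * (B i j * n j) = (2 * k i : ℤ) * ((d * B i j) * (M * n j)) := by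
          rw [hw]; push_cast; ring
        rw [this]
        exact mul_mem (intCast_mem _ _) (mul_mem (hdB (i, j)) (mem_ZZ.2 (h1 n hn j)))
      · simp only [dotProduct, mulVec, Finset.mul_sum, Finset.sum_div]
        refine sum_mem fun i _ => sum_mem fun j _ => ?_
        have : w i * (B i j * w j) / 2 = (2 * M ^ 2 * d * k i * k j : ℤ) * (d * B i j) := by
          rw [hw]; push_cast; ring
        rw [this]
        exact mul_mem (intCast_mem _ _) (hdB (i, j))
    obtain ⟨m, hm⟩ := mem_ZZ.1 hz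
    have : (n + w) ⬝ᵥ B *ᵥ (n + w) / 2 = n ⬝ᵥ B *ᵥ n / 2 + m := by
      rw [← hm, mulVec_add, add_dotProduct, dotProduct_add, dotProduct_add, dot_symm hB n w]
      ring
    rw [this, Rat.cast_add, ee_add, Rat.cast_intCast, ee_int, mul_one]

lemma good_nn (B : Matrix κ κ ℚ) (hB : B.IsSymm) : Good (nn B) := by
  refine ⟨fun _ => 1, fun _ _ => one_ne_zero, fun f hf => ⟨_, sch_nn hB hf, fun τ _ z => ?_⟩⟩
  have h0 : cM (nn B) * per τ = fromRows (τ + cM B) 1 := by
    rw [nn, cM_blocks, mul_per, cM_one, cM_zero, Matrix.one_mul, Matrix.zero_mul, zero_add]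
  have h1 : kk (nn B) τ = 1 := by rw [kk, h0, toRows₂_fromRows]
  have h2 : act (nn B) τ = τ + cM B := by
    rw [act, h0, tauOf, toRows₁_fromRows, toRows₂_fromRows, inv_one, Matrix.mul_one]
  have h3 : (cM (nn B)).toBlocks₂₁ = 0 := by rw [nn, cM_blocks, toBlocks_fromBlocks₂₁, cM_zero]
  rw [h1, h2, h3, Matrix.zero_mul, zero_mulVec, dotProduct_zero, zero_div, ee_zero, vecMul_one,
    one_mul, one_mul, thz, thz]
  refine tsum_congr fun n => ?_
  rw [mul_assoc, term, term, ← ee_add, add_mulVec, dotProduct_add, cM_mulVec, cq_dot]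
  congr 2
  push_cast
  ring

/-! ### Linear substitutions -/

lemma sch_mm {A A' : Matrix κ κ ℚ} (h : A * A' = 1) {f : (κ → ℚ) → ℂ} (hf : Sch f) :
    Sch fun n => f (A' *ᵥ n) := by
  obtain ⟨M, hM, h1, h2, h3⟩ := hf
  obtain ⟨d, hd, hdA⟩ := ex_den fun p : κ × κ => A p.1 p.2
  obtain ⟨d', hd', hdA'⟩ := ex_den fun p : κ × κ => A' p.1 p.2
  refine ⟨M * (d * d'), by positivity, fun n hn i => ?_, fun n k => ?_, fun n => h3 _⟩
  · have e : n i = (A *ᵥ A' *ᵥ n) i := by rw [mulVec_mulVec, h, one_mulVec]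
    refine mem_ZZ.1 ?_
    rw [e, mulVec, dotProduct, Finset.mul_sum]
    refine sum_mem fun j _ => ?_
    have : ((M * (d * d') : ℕ) : ℚ) * (A i j * (A' *ᵥ n) j) =
        d' * ((d * A i j) * (M * (A' *ᵥ n) j)) := by push_cast; ring
    rw [this]
    exact mul_mem (natCast_mem _ _) (mul_mem (hdA (i, j)) (mem_ZZ.2 (h1 _ hn j)))
  · have : ∀ i, ∃ m : ℤ, ∑ j, (d * k j : ℤ) * (d' * A' i j) = (m : ℚ) := fun i =>
      mem_ZZ.1 (sum_mem fun j _ => mul_mem (intCast_mem _ _) (hdA' (i, j)))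
    choose m hm using this
    show f _ = f _
    rw [← h2 (A' *ᵥ n) m, mulVec_add]
    congr 2
    ext i
    rw [← hm, mulVec, dotProduct, Finset.mul_sum]
    refine Finset.sum_congr rfl fun j _ => ?_
    push_cast
    ring

lemma good_mm (A : Matrix κ κ ℚ) (hA : IsUnit A.det) : Good (mm A) := by
  have e1 : Aᵀ * A⁻¹ᵀ = 1 := by rw [← transpose_mul, nonsing_inv_mul _ hA, transpose_one]
  have e2 : A⁻¹ᵀ * Aᵀ = 1 := by rw [← transpose_mul, mul_nonsing_inv _ hA, transpose_one]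
  refine ⟨fun _ => 1, fun _ _ => one_ne_zero, fun f hf => ⟨_, sch_mm e1 hf, fun τ _ z => ?_⟩⟩
  have h0 : cM (mm A) * per τ = fromRows (cM A * τ) (cM A⁻¹ᵀ) := by
    rw [mm, cM_blocks, mul_per, cM_zero, Matrix.zero_mul, zero_add, add_zero]
  have h1 : kk (mm A) τ = cM A⁻¹ᵀ := by rw [kk, h0, toRows₂_fromRows]
  have h2 : act (mm A) τ = cM A * τ * (cM A)ᵀ := by
    rw [act, h0, tauOf, toRows₁_fromRows, toRows₂_fromRows,
      inv_eq_right_inv (B := cM Aᵀ) (by rw [← cM_mul, e2, cM_one])]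
    rfl
  have h3 : (cM (mm A)).toBlocks₂₁ = 0 := by rw [mm, cM_blocks, toBlocks_fromBlocks₂₁, cM_zero]
  rw [h1, h2, h3, Matrix.zero_mul, zero_mulVec, dotProduct_zero, zero_div, ee_zero,
    one_mul, one_mul, thz, thz]
  let E : (κ → ℚ) ≃ (κ → ℚ) :=
    ⟨fun n => Aᵀ *ᵥ n, fun n => A⁻¹ᵀ *ᵥ n, fun n => by simp only [mulVec_mulVec, e2, one_mulVec],
      fun n => by simp only [mulVec_mulVec, e1, one_mulVec]⟩
  rw [← E.tsum_eq fun n => f (A⁻¹ᵀ *ᵥ n) * term τ (z ᵥ* cM A⁻¹ᵀ) n]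
  refine tsum_congr fun n => ?_
  show _ = f (A⁻¹ᵀ *ᵥ Aᵀ *ᵥ n) * term τ _ (Aᵀ *ᵥ n)
  rw [mulVec_mulVec, e2, one_mulVec, term, term, ← dot_conj, dotProduct_comm (cq (Aᵀ *ᵥ n)) (z ᵥ* _),
    ← dotProduct_mulVec z, cM_mulVec, mulVec_mulVec, e2, one_mulVec, dotProduct_comm z,
    mulVec_transpose, cM_vecMul]

/-! ### Products -/

lemma relMul (hC : Act κ) (γ γ' : Matrix (κ ⊕ κ) (κ ⊕ κ) ℚ) (j j' : Matrix κ κ ℂ → ℂ)
    (f f' f'' : (κ → ℚ) → ℂ) (hγ : Sp γ) (hγ' : Sp γ') (h : Rel γ j f f')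
    (h' : Rel γ' j' f' f'') : Rel (γ * γ') (fun τ => j (act γ' τ) * j' τ) f f'' := by
  intro τ hτ z
  obtain ⟨m1, m2⟩ := hC.mul γ γ' τ hγ hγ' hτ
  have hb : (cM (γ * γ')).toBlocks₂₁ = (cM γ).toBlocks₂₁ * (cM γ').toBlocks₁₁ +
      (cM γ).toBlocks₂₂ * (cM γ').toBlocks₂₁ := by
    conv_lhs => rw [cM_mul, ← fromBlocks_toBlocks (cM γ), ← fromBlocks_toBlocks (cM γ'),
      fromBlocks_multiply, toBlocks_fromBlocks₂₁]
  have hi := hC.inv γ' τ hγ' hτ
  have key : (cM (γ * γ')).toBlocks₂₁ * (kk γ (act γ' τ) * kk γ' τ)ᵀ =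
      (cM γ).toBlocks₂₁ * (kk γ (act γ' τ))ᵀ +
        kk γ (act γ' τ) * ((cM γ').toBlocks₂₁ * (kk γ' τ)ᵀ) * (kk γ (act γ' τ))ᵀ := by
    rw [hb, transpose_mul]
    generalize (kk γ (act γ' τ))ᵀ = T
    rw [kk_eq γ]
    calc _ = (cM γ).toBlocks₂₁ *
          (((cM γ').toBlocks₁₁ - act γ' τ * (cM γ').toBlocks₂₁) * (kk γ' τ)ᵀ) * T +
          ((cM γ).toBlocks₂₁ * act γ' τ + (cM γ).toBlocks₂₂) *
            ((cM γ').toBlocks₂₁ * (kk γ' τ)ᵀ) * T := by noncomm_ring
      _ = _ := by rw [hi, Matrix.mul_one]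
  rw [m1, m2, h _ (hC.inH γ' τ hγ' hτ).1 z, h' τ hτ, key, dot_conj, vecMul_vecMul, add_mulVec,
    dotProduct_add, add_div, ee_add]
  ring

lemma relW (hB : ThB κ) (hC : Act κ) (γ : Matrix (κ ⊕ κ) (κ ⊕ κ) ℚ) (j : Matrix κ κ ℂ → ℂ)
    (f f' : (κ → ℚ) → ℂ) (v : κ ⊕ κ → ℚ) (hγ : Sp γ) (h : Rel γ j f f') :
    Rel γ j (W v f) (W (v ᵥ* γ) f') := by
  intro τ hτ z
  obtain ⟨i1, -, i3⟩ := hC.inH γ τ hγ hτ
  have hQ := hC.symm γ τ hγ hτ.1
  have e1 : cq (v ᵥ* γ) ᵥ* per τ = (cq v ᵥ* per (act γ τ)) ᵥ* kk γ τ := by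
    rw [← cM_vecMul, vecMul_vecMul, i3, vecMul_vecMul]
  have e2 : cq v ᵥ* per (act γ τ) = act γ τ *ᵥ cq (v ∘ Sum.inl) + cq (v ∘ Sum.inr) := by
    rw [per, vecMul_fromRows, vecMul_one, ← mulVec_transpose, i1.1.eq]
    rfl
  have e3 : cq ((v ᵥ* γ) ∘ Sum.inl) = (cM γ).toBlocks₁₁ᵀ *ᵥ cq (v ∘ Sum.inl) +
      (cM γ).toBlocks₂₁ᵀ *ᵥ cq (v ∘ Sum.inr) := by
    ext i
    simp [cq, cM, vecMul, mulVec, dotProduct, toBlocks₁₁, toBlocks₂₁, mul_comm]
  have e4 : kk γ τ * ((cM γ).toBlocks₁₁ᵀ - (cM γ).toBlocks₂₁ᵀ * act γ τ) = 1 := by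
    have := congrArg transpose (hC.inv γ τ hγ hτ)
    rwa [transpose_mul, transpose_transpose, transpose_sub, transpose_mul, i1.1.eq,
      transpose_one] at this
  have e5 : kk γ τ *ᵥ cq ((v ᵥ* γ) ∘ Sum.inl) = cq (v ∘ Sum.inl) +
      ((cM γ).toBlocks₂₁ * (kk γ τ)ᵀ) *ᵥ (cq v ᵥ* per (act γ τ)) := by
    rw [← hQ.eq, transpose_mul, transpose_transpose, e2, e3]
    have := congrArg (· *ᵥ cq (v ∘ Sum.inl)) e4
    simp only [Matrix.mul_sub, sub_mulVec, one_mulVec] at this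
    simp only [mulVec_add, mulVec_mulVec, Matrix.mul_assoc]
    linear_combination this
  rw [hB.trans v f _ z i1.1, hB.trans _ f' τ _ hτ.1, h τ hτ, e1, add_vecMul]
  generalize cq v ᵥ* per (act γ τ) = p at *
  generalize (cM γ).toBlocks₂₁ * (kk γ τ)ᵀ = Q at *
  rw [dotProduct_comm _ (p ᵥ* _), dotProduct_comm _ (z ᵥ* _), ← dotProduct_mulVec,
    ← dotProduct_mulVec, e5]
  have : ee (cq (v ∘ Sum.inl) ⬝ᵥ p / 2 + cq (v ∘ Sum.inl) ⬝ᵥ z) *
      ee ((z + p) ⬝ᵥ Q *ᵥ (z + p) / 2) = ee (z ⬝ᵥ Q *ᵥ z / 2) *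
      ee (p ⬝ᵥ (cq (v ∘ Sum.inl) + Q *ᵥ p) / 2 + z ⬝ᵥ (cq (v ∘ Sum.inl) + Q *ᵥ p)) := by
    rw [← ee_add, ← ee_add]
    congr 1
    simp only [mulVec_add, add_dotProduct, dotProduct_add]
    rw [dot_symm hQ p z, dotProduct_comm p (cq _), dotProduct_comm z (cq _)]
    ring
  linear_combination (j τ * thz f' τ (z ᵥ* kk γ τ + p ᵥ* kk γ τ)) * this

lemma relCan (hC : Act κ) (γ : Matrix (κ ⊕ κ) (κ ⊕ κ) ℚ) (j : Matrix κ κ ℂ → ℂ)
    (f f' : (κ → ℚ) → ℂ) (τ : Matrix κ κ ℂ) (z : κ → ℂ) (hγ : Sp γ) (h : Rel γ j f f')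
    (hτ : InH τ) : cth f (act γ τ) z = j τ * cth f' τ (z ᵥ* kk γ τ) := by
  rw [cth, cth, h τ hτ, dot_conj, ← hC.can γ τ hγ hτ, add_mulVec, dotProduct_add, smul_mulVec,
    dotProduct_smul, mul_add, Complex.exp_add, ee, smul_eq_mul]
  generalize z ⬝ᵥ ((cM γ).toBlocks₂₁ * (kk γ τ)ᵀ) *ᵥ z = t
  rw [show (2 : ℂ) * Real.pi * I * (t / 2) = Real.pi / 2 * (2 * I * t) by ring]
  ring

omit [DecidableEq κ] in
lemma quad_der (Q : Matrix κ κ ℂ) :
    HasFDerivAt (fun z : κ → ℂ => ee (z ⬝ᵥ Q *ᵥ z / 2)) (0 : (κ → ℂ) →L[ℂ] ℂ) 0 := by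
  have h : HasFDerivAt (fun z : κ → ℂ => z ⬝ᵥ Q *ᵥ z) (0 : (κ → ℂ) →L[ℂ] ℂ) 0 := by
    have h1 : ∀ i j, HasFDerivAt (fun z : κ → ℂ => z i * (Q i j * z j))
        (0 : (κ → ℂ) →L[ℂ] ℂ) 0 := fun i j => by
      have := (hasFDerivAt_apply (𝕜 := ℂ) i (0 : κ → ℂ)).mul
        ((hasFDerivAt_apply (𝕜 := ℂ) j (0 : κ → ℂ)).const_mul (Q i j))
      refine this.congr_fderiv ?_
      ext
      simp
    have h2 := HasFDerivAt.fun_sum (u := Finset.univ) fun i _ =>
      HasFDerivAt.fun_sum (u := Finset.univ) fun j _ => h1 i j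
    simpa only [dotProduct, mulVec, Finset.mul_sum, Finset.sum_const_zero] using h2
  have h' := ((h.mul_const (2⁻¹ : ℂ)).const_mul (2 * Real.pi * I)).cexp
  simp only [ee, div_eq_mul_inv]
  refine h'.congr_fderiv ?_
  ext
  simp

lemma relGr (hA : ThA κ) (γ : Matrix (κ ⊕ κ) (κ ⊕ κ) ℚ) (j : Matrix κ κ ℂ → ℂ)
    (f f' : (κ → ℚ) → ℂ) (τ : Matrix κ κ ℂ) (hf' : Sch f') (h : Rel γ j f f') (hτ : InH τ) :
    th f (act γ τ) = j τ * th f' τ ∧ gr f (act γ τ) = j τ • kk γ τ *ᵥ gr f' τ := by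
  refine ⟨by rw [th, th, h τ hτ, zero_dotProduct, zero_div, ee_zero, mul_one, zero_vecMul], ?_⟩
  let L : (κ → ℂ) →L[ℂ] κ → ℂ := LinearMap.toContinuousLinearMap (kk γ τ).vecMulLinear
  have hL : ∀ z, L z = z ᵥ* kk γ τ := fun _ => rfl
  have h1 : HasFDerivAt (thz f' τ) (fderiv ℂ (thz f' τ) 0) (L 0) := by
    rw [map_zero]
    exact (hA.anaz f' τ 0 hf' hτ).differentiableAt.hasFDerivAt
  have h2 := ((quad_der ((cM γ).toBlocks₂₁ * (kk γ τ)ᵀ)).const_mul (j τ)).mul
    (h1.comp (0 : κ → ℂ) L.hasFDerivAt)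
  have h3 : thz f (act γ τ) = (fun z => j τ * ee (z ⬝ᵥ ((cM γ).toBlocks₂₁ * (kk γ τ)ᵀ) *ᵥ z / 2)) *
      (thz f' τ ∘ L) := funext fun z => h τ hτ z
  ext i
  have h4 : L (Pi.single i 1) = ∑ k, kk γ τ i k • (Pi.single k 1 : κ → ℂ) := by
    ext k
    simp [hL, Pi.single_apply]
  rw [gr, pd, h3, h2.fderiv]
  simp [h4, ee_zero, mulVec, dotProduct, gr, pd]

end Weil1P

open Weil1P in
theorem weil1 (hA : All ThA) (hB : All ThB) (hC : All Act) : All Weil1 := fun κ _ _ =>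
  { nn := good_nn
    mm := good_mm
    mul := fun γ γ' hγ hγ' ⟨j, hj, h⟩ ⟨j', hj', h'⟩ =>
      ⟨fun τ => j (act γ' τ) * j' τ,
        fun τ hτ => mul_ne_zero (hj _ ((hC κ).inH γ' τ hγ' hτ).1) (hj' τ hτ), fun f hf =>
          let ⟨f', hf', r⟩ := h f hf
          let ⟨f'', hf'', r'⟩ := h' f' hf'
          ⟨f'', hf'', relMul (hC κ) γ γ' j j' f f' f'' hγ hγ' r r'⟩⟩
    relMul := relMul (hC κ)
    relW := relW (hB κ) (hC κ)
    relCan := relCan (hC κ)
    relGr := fun γ j f f' τ _ => relGr (hA κ) γ j f f' τ }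

end Pool.Agent.GAM

end MrgPart4

-- marker of a merged file
example : 731051 + 330088 = 731051 + 330088 := rfl
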