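import Mathlib.RingTheory.RootsOfUnity.Complex
import Mathlib.Analysis.SpecialFunctions.Gamma.Beta
import Mathlib.RingTheory.SimpleRing.Principal
import Pool.Agent.MP_cbf1af_ag.gam.Spec
import Mathlib.RingTheory.Henselian
import Mathlib.RingTheory.RegularLocalRing.Defs

-- ======== part 0: formerly Pool.Agent.MP_cbf1af_ag.gam.Glue
section MrgPart0

/-! PROJECT GAM, row GLUE: transition between the charts of the incomplete beta integral. -/

namespace Pool.Agent.GAM

open Complex Set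

noncomputable section

namespace GlueP

theorem ee_add (x y : ℂ) : ee (x + y) = ee x * ee y := by
  unfold ee; rw [mul_add, Complex.exp_add]

theorem ee_ne (x : ℂ) : ee x ≠ 0 := Complex.exp_ne_zero _

theorem ee_nat (n : ℕ) (x : ℂ) : ee (n * x) = ee x ^ n := by
  unfold ee; rw [← Complex.exp_nat_mul]; congr 1; ring

theorem ee_one : ee 1 = 1 := by
  unfold ee; rw [mul_one]; exact Complex.exp_two_pi_mul_I

theorem ee_half : ee (1 / 2) = -1 := by
  unfold ee; rw [← Complex.exp_pi_mul_I]; congr 1; ring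

theorem ee_pow {N : ℕ} (hN : 0 < N) (A : ℕ) : ee (A / N) ^ N = 1 := by
  have h : (N : ℂ) ≠ 0 := by exact_mod_cast hN.ne'
  rw [← ee_nat, show (N : ℂ) * (A / N) = A * 1 by field_simp, ee_nat, ee_one, one_pow]

theorem prim {N : ℕ} (hN : 0 < N) : IsPrimitiveRoot (ee (1 / N)) N := by
  have h := Complex.isPrimitiveRoot_exp N hN.ne'
  unfold ee
  rwa [mul_one_div]

theorem ee_div (N A : ℕ) : ee (A / N) = ee (1 / N) ^ A := by
  rw [← ee_nat, mul_one_div]

theorem ee_lin (N A B i j : ℕ) :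
    ee ((i * A + j * B) / N) = ee (A / N) ^ i * ee (B / N) ^ j := by
  rw [← ee_nat, ← ee_nat, ← ee_add]; congr 1; ring

theorem ee_sum (N A B : ℕ) : ee ((A + B) / N) = ee (A / N) * ee (B / N) := by
  rw [← ee_add]; congr 1; ring

theorem ab_ne {N A B : ℕ} (hA : 0 < A) (h : A + B < N) : ee (A / N) * ee (B / N) - 1 ≠ 0 := by
  rw [ee_div N A, ee_div N B, ← pow_add, sub_ne_zero]
  exact (prim (by omega)).pow_ne_one_of_pos_of_lt (by omega) h

theorem root {N : ℕ} (hN : 0 < N) {X Y : ℂ} (h : X ^ N = Y ^ N) :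
    ∃ i : ℕ, X = ee (i / N) * Y := by
  by_cases hY : Y = 0
  · subst hY
    rw [zero_pow hN.ne'] at h
    exact ⟨0, by rw [pow_eq_zero_iff hN.ne'] at h; simp [h]⟩
  · have : NeZero N := ⟨hN.ne'⟩
    have h1 : (X / Y) ^ N = 1 := by rw [div_pow, h, div_self (pow_ne_zero _ hY)]
    obtain ⟨i, -, hi⟩ := (prim hN).eq_pow_of_pow_eq_one h1
    exact ⟨i, by rw [ee_div, hi]; field_simp⟩

theorem rot {N A B : ℕ} (h : ChA N A B) (i : ℕ) (X : ℂ) :
    ch N A B (ee (i / N) * X) = ee (A / N) ^ i * ch N A B X := by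
  rw [h.rot, ← ee_nat, mul_div_assoc]

/-- principal root -/
def rt (N : ℕ) (x : ℂ) : ℂ := x ^ ((N : ℂ)⁻¹)

theorem rt_pow {N : ℕ} (hN : 0 < N) (x : ℂ) : rt N x ^ N = x := cpow_nat_inv_pow x hN.ne'

theorem rt_mem {N : ℕ} (hN : 0 < N) {x : ℂ} (h : 1 - x ∈ slitPlane) : rt N x ∈ Om N := by
  show 1 - rt N x ^ N ∈ slitPlane
  rwa [rt_pow hN]

theorem der_rt {N A B : ℕ} (hN : 0 < N) (hA : 0 < A) (h : ChA N A B) {x : ℂ}
    (hx : x ∈ slitPlane) (h1 : 1 - x ∈ slitPlane) :
    HasDerivAt (fun y => ch N A B (rt N y))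
      (x ^ ((A : ℂ) / N - 1) * (1 - x) ^ ((B : ℂ) / N - 1)) x := by
  have hN' : (N : ℂ) ≠ 0 := by exact_mod_cast hN.ne'
  have hx0 : x ≠ 0 := slitPlane_ne_zero hx
  have d1 : HasDerivAt (rt N) ((N : ℂ)⁻¹ * x ^ ((N : ℂ)⁻¹ - 1) * 1) x :=
    (hasDerivAt_id x).cpow_const hx
  have d2 := (h.der _ (rt_mem hN h1)).comp x d1
  refine d2.congr_deriv (Eq.symm ?_)
  rw [rt_pow hN]
  have e1 : rt N x ^ (A - 1) = x ^ (((A - 1 : ℕ) : ℂ) * (N : ℂ)⁻¹) := by
    rw [cpow_nat_mul]; rfl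
  have e2 : x ^ ((A : ℂ) / N - 1) =
      x ^ (((A - 1 : ℕ) : ℂ) * (N : ℂ)⁻¹) * x ^ ((N : ℂ)⁻¹ - 1) := by
    rw [← cpow_add _ _ hx0, Nat.cast_sub hA]; congr 1; push_cast; ring
  rw [e1, e2]; field_simp

theorem re_pos {N A : ℕ} (hN : 0 < N) (hA : 0 < A) : 0 < ((A : ℂ) / N).re := by
  have : ((A : ℂ) / N) = (((A : ℝ) / N : ℝ) : ℂ) := by push_cast; rfl
  rw [this, ofReal_re]; positivity

theorem half {N A B : ℕ} (hN : 0 < N) (hA : 0 < A) (h : ChA N A B) :
    ∫ t : ℝ in (0 : ℝ)..1 / 2, (t : ℂ) ^ ((A : ℂ) / N - 1) * (1 - (t : ℂ)) ^ ((B : ℂ) / N - 1) =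
      ch N A B (rt N (1 / 2)) := by
  have hm : ∀ t : ℝ, t ≤ 1 / 2 → 1 - (t : ℂ) ∈ slitPlane := fun t ht => by
    left; simp only [sub_re, one_re, ofReal_re]; linarith
  have hc : Continuous fun t : ℝ => rt N t := by
    refine continuous_ofReal_cpow_const ?_
    have := re_pos hN one_pos
    simpa using this
  rw [intervalIntegral.integral_eq_sub_of_hasDerivAt_of_le (f := fun t : ℝ => ch N A B (rt N t))
    (by norm_num) ?_ ?_ (betaIntegral_convergent_left (re_pos hN hA) _)]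
  · have hN' : ((N : ℂ))⁻¹ ≠ 0 := inv_ne_zero (by exact_mod_cast hN.ne')
    have : rt N 0 = 0 := zero_cpow hN'
    simp [this, h.zero]
  · exact h.ana.continuousOn.comp hc.continuousOn fun t ht => rt_mem hN (hm t ht.2)
  · intro t ht
    exact (der_rt hN hA h (Or.inl (by simpa using ht.1)) (hm t ht.2.le)).comp_ofReal

theorem bt_eq {N A B : ℕ} (hN : 0 < N) (hA : 0 < A) (hB : 0 < B) :
    bt N A B = betaIntegral (A / N) (B / N) := by
  have h := Gamma_mul_Gamma_eq_betaIntegral (re_pos hN hA) (re_pos hN hB)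
  have h0 : Gamma ((A : ℂ) / N + B / N) ≠ 0 :=
    Gamma_ne_zero_of_re_pos (by rw [add_re]; exact add_pos (re_pos hN hA) (re_pos hN hB))
  unfold bt
  rw [h, add_div, mul_div_cancel_left₀ _ h0]

theorem bt_ne {N A B : ℕ} (hN : 0 < N) (hA : 0 < A) (hB : 0 < B) : bt N A B ≠ 0 := by
  unfold bt
  have := Gamma_ne_zero_of_re_pos (re_pos hN (show 0 < A + B by omega))
  rw [Nat.cast_add] at this
  exact div_ne_zero (mul_ne_zero (Gamma_ne_zero_of_re_pos (re_pos hN hA))
    (Gamma_ne_zero_of_re_pos (re_pos hN hB))) this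

theorem bt_symm (N A B : ℕ) : bt N A B = bt N B A := by
  unfold bt; rw [mul_comm, add_comm]

theorem euler_half (h : AllCh) {N A B : ℕ} (hN : 0 < N) (hA : 0 < A) (hB : 0 < B) :
    ch N A B (rt N (1 / 2)) + ch N B A (rt N (1 / 2)) = bt N A B := by
  have hi := betaIntegral_convergent (re_pos hN hA) (re_pos hN hB)
  have h1 := betaIntegral_convergent_left (re_pos hN hA) ((B : ℂ) / N)
  rw [bt_eq hN hA hB, betaIntegral, ← half hN hA (h N A B hN hA), ← half hN hB (h N B A hN hB),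
    ← intervalIntegral.integral_add_adjacent_intervals h1 (h1.symm.trans hi)]
  congr 1
  have := intervalIntegral.integral_comp_sub_left (a := 0) (b := 1 / 2)
    (fun x : ℝ => (x : ℂ) ^ ((A : ℂ) / N - 1) * (1 - (x : ℂ)) ^ ((B : ℂ) / N - 1)) 1
  rw [show (1 : ℝ) - 1 / 2 = 1 / 2 by norm_num, sub_zero] at this
  rw [← this]
  refine intervalIntegral.integral_congr fun t _ => ?_
  simp only [ofReal_sub, ofReal_one, sub_sub_cancel]
  ring

theorem euler0 (h : AllCh) {N A B : ℕ} (hN : 0 < N) (hA : 0 < A) (hB : 0 < B) {x : ℂ}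
    (hx : x ∈ slitPlane) (h1 : 1 - x ∈ slitPlane) :
    ch N A B (rt N x) + ch N B A (rt N (1 - x)) = bt N A B := by
  set U : Set ℂ := {y | y ∈ slitPlane ∧ 1 - y ∈ slitPlane} with hU
  have ho : IsOpen U :=
    isOpen_slitPlane.inter (isOpen_slitPlane.preimage (continuous_const.sub continuous_id))
  have hs0 : StarConvex ℝ ((1 / 2 : ℝ) : ℂ) slitPlane := starConvex_ofReal_slitPlane (by norm_num)
  have hh : ((1 / 2 : ℝ) : ℂ) ∈ U := ⟨Or.inl (by norm_num), Or.inl (by norm_num)⟩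
  have hs : StarConvex ℝ ((1 / 2 : ℝ) : ℂ) U := by
    intro y hy a b ha hb hab
    refine ⟨hs0 hy.1 ha hb hab, ?_⟩
    have := hs0 hy.2 ha hb hab
    convert this using 1
    have hab' : (a : ℂ) + b = 1 := by exact_mod_cast hab
    simp only [real_smul]
    push_cast
    linear_combination (-1 : ℂ) * hab'
  have hd : ∀ y ∈ U, HasDerivAt (fun y => ch N A B (rt N y) + ch N B A (rt N (1 - y))) 0 y := by
    intro y hy
    have d1 := der_rt hN hA (h N A B hN hA) hy.1 hy.2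
    have d2 := (der_rt hN hB (h N B A hN hB) hy.2 (by simpa using hy.1)).comp y
      ((hasDerivAt_id y).const_sub 1)
    refine (d1.add d2).congr_deriv ?_
    simp only [sub_sub_cancel]; ring
  have := ho.is_const_of_deriv_eq_zero (hs.isPathConnected hh).isConnected.isPreconnected
    (fun y hy => (hd y hy).differentiableAt.differentiableWithinAt)
    (fun y hy => (hd y hy).deriv) (show x ∈ U from ⟨hx, h1⟩) hh
  rw [this, ← euler_half h hN hA hB]
  norm_num

theorem euler (h : AllCh) {N : ℕ} (hN : 0 < N) {X Y : ℂ} (hX : X ∈ Om N) (hY : Y ∈ Om N)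
    (e : X ^ N + Y ^ N = 1) : ∃ i j : ℕ, ∀ A B : ℕ, 0 < A → 0 < B →
      ee (A / N) ^ i * ch N A B X + ee (B / N) ^ j * ch N B A Y = bt N A B := by
  have e1 : 1 - X ^ N = Y ^ N := by linear_combination -e
  have e2 : 1 - Y ^ N = X ^ N := by linear_combination -e
  obtain ⟨i, hi⟩ := root hN (rt_pow hN (X ^ N))
  obtain ⟨j, hj⟩ := root hN (rt_pow hN (Y ^ N))
  refine ⟨i, j, fun A B hA hB => ?_⟩
  have := euler0 h hN hA hB (x := X ^ N) (e2 ▸ hY) hX
  rwa [e1, hi, hj, rot (h N A B hN hA), rot (h N B A hN hB)] at this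

theorem inv_slit {z : ℂ} (h : z ∈ slitPlane) : z⁻¹ ∈ slitPlane := by
  have h0 : 0 < normSq z := normSq_pos.2 (slitPlane_ne_zero h)
  rcases h with h | h
  · left; rw [inv_re]; positivity
  · right; rw [inv_im]; exact div_ne_zero (neg_ne_zero.2 h) h0.ne'

/-- the substitution `x ↦ x / (x - 1)` -/
def pf (N : ℕ) (X : ℂ) : ℂ := (ee (1 / (2 * N)))⁻¹ * X * (1 - X ^ N) ^ (-(N : ℂ)⁻¹)

theorem om_pow {N : ℕ} (hN : 0 < N) : ee (1 / (2 * N)) ^ N = -1 := by
  have h : (N : ℂ) ≠ 0 := by exact_mod_cast hN.ne'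
  rw [← ee_nat, ← ee_half]; congr 1; field_simp

theorem pf_pow {N : ℕ} (hN : 0 < N) {X : ℂ} (hX : X ∈ Om N) :
    1 - pf N X ^ N = (1 - X ^ N)⁻¹ := by
  have h0 : 1 - X ^ N ≠ 0 := slitPlane_ne_zero hX
  unfold pf
  rw [mul_pow, mul_pow, inv_pow, om_pow hN, cpow_neg, inv_pow, cpow_nat_inv_pow _ hN.ne']
  field_simp; ring

theorem pf_mem {N : ℕ} (hN : 0 < N) {X : ℂ} (hX : X ∈ Om N) : pf N X ∈ Om N := by
  show 1 - pf N X ^ N ∈ slitPlane
  rw [pf_pow hN hX]; exact inv_slit hX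

theorem pf_der {N : ℕ} (hN : 0 < N) {X : ℂ} (hX : X ∈ Om N) :
    HasDerivAt (pf N) ((ee (1 / (2 * N)))⁻¹ * (1 - X ^ N) ^ (-(N : ℂ)⁻¹ - 1)) X := by
  have hN' : (N : ℂ) ≠ 0 := by exact_mod_cast hN.ne'
  have h0 : 1 - X ^ N ≠ 0 := slitPlane_ne_zero hX
  have d1 := ((hasDerivAt_pow N X).const_sub 1).cpow_const (c := -(N : ℂ)⁻¹) hX
  have d2 := ((hasDerivAt_id X).const_mul (ee (1 / (2 * N)))⁻¹).mul d1
  refine d2.congr_deriv (Eq.symm ?_)
  have e1 : (1 - X ^ N) ^ (-(N : ℂ)⁻¹) = (1 - X ^ N) ^ (-(N : ℂ)⁻¹ - 1) * (1 - X ^ N) := by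
    rw [cpow_sub _ _ h0, cpow_one]; field_simp
  have e2 : X ^ N = X * X ^ (N - 1) := by
    rw [← pow_succ', Nat.sub_add_cancel hN]
  rw [e1]
  generalize (1 - X ^ N) ^ (-(N : ℂ)⁻¹ - 1) = w
  simp only [id]
  rw [e2]
  have := ee_ne (1 / (2 * N))
  field_simp; ring

theorem pfaff (h : AllCh) {N A B C : ℕ} (hA : 0 < A) (e : A + B + C = N) {X : ℂ}
    (hX : X ∈ Om N) : ch N A B X = ee (A / (2 * N)) * ch N A C (pf N X) := by
  have hN : 0 < N := by omega
  have hN' : (N : ℂ) ≠ 0 := by exact_mod_cast hN.ne'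
  have h1 := h N A B hN hA
  have h2 := h N A C hN hA
  have hz : (0 : ℂ) ∈ Om N := by
    show 1 - (0 : ℂ) ^ N ∈ slitPlane
    rw [zero_pow hN.ne', sub_zero]; exact one_mem_slitPlane
  have hd : ∀ y ∈ Om N,
      HasDerivAt (fun y => ch N A B y - ee (A / (2 * N)) * ch N A C (pf N y)) 0 y := by
    intro y hy
    have h0 : 1 - y ^ N ≠ 0 := slitPlane_ne_zero hy
    have d2 := ((h2.der _ (pf_mem hN hy)).comp y (pf_der hN hy)).const_mul (ee (A / (2 * N)))
    refine ((h1.der y hy).sub d2).congr_deriv (Eq.symm ?_)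
    rw [pf_pow hN hy, inv_cpow _ _ (slitPlane_arg_ne_pi hy), ← cpow_neg]
    unfold pf
    have e1 : ee (A / (2 * N)) = ee (1 / (2 * N)) ^ (A - 1) * ee (1 / (2 * N)) := by
      rw [← pow_succ, Nat.sub_add_cancel hA, ← ee_nat, mul_one_div]
    have e2 : (1 - y ^ N) ^ ((B : ℂ) / N - 1) = (1 - y ^ N) ^ (((A - 1 : ℕ) : ℂ) * -(N : ℂ)⁻¹) *
        (1 - y ^ N) ^ (-((C : ℂ) / N - 1)) * (1 - y ^ N) ^ (-(N : ℂ)⁻¹ - 1) := by
      rw [← cpow_add _ _ h0, ← cpow_add _ _ h0, Nat.cast_sub hA]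
      congr 1
      have : (N : ℂ) = A + B + C := by exact_mod_cast e.symm
      field_simp
      push_cast
      linear_combination -this
    rw [e1, e2, mul_pow, mul_pow, ← cpow_nat_mul, inv_pow]
    have := ee_ne (1 / (2 * N))
    generalize ee (1 / (2 * N)) = w at *
    generalize (1 - y ^ N) ^ (((A - 1 : ℕ) : ℂ) * -(N : ℂ)⁻¹) = p
    generalize (1 - y ^ N) ^ (-((C : ℂ) / N - 1)) = q
    generalize (1 - y ^ N) ^ (-(N : ℂ)⁻¹ - 1) = r
    field_simp; ring
  have := h1.opn.is_const_of_deriv_eq_zero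
    (h1.star.isPathConnected hz).isConnected.isPreconnected
    (fun y hy => (hd y hy).differentiableAt.differentiableWithinAt)
    (fun y hy => (hd y hy).deriv) hX hz
  have hp : pf N 0 = 0 := by simp [pf]
  simp only [hp, h1.zero, h2.zero, mul_zero, sub_zero] at this
  exact sub_eq_zero.1 this

theorem ee_sq (N A : ℕ) : ee (A / N) = ee (A / (2 * N)) ^ 2 := by
  rw [← ee_nat]; congr 1
  by_cases h : (N : ℂ) = 0
  · simp [h]
  · push_cast; field_simp

theorem const {N A B C : ℕ} (hA : 0 < A) (hB : 0 < B) (hC : 0 < C) (e : A + B + C = N) :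
    ee (A / (2 * N)) * bt N A C =
      bt N A B * (ee (A / N) * (ee (B / N) - 1) / (ee (A / N) * ee (B / N) - 1)) := by
  have hN : 0 < N := by omega
  have hN' : (N : ℂ) ≠ 0 := by exact_mod_cast hN.ne'
  have e' : (N : ℂ) = A + B + C := by exact_mod_cast e.symm
  have g1 := Gamma_mul_Gamma_one_sub ((B : ℂ) / N)
  have g2 := Gamma_mul_Gamma_one_sub (((A : ℂ) + B) / N)
  have e1 : 1 - (B : ℂ) / N = (A + C) / N := by field_simp; linear_combination e'
  have e2 : 1 - ((A : ℂ) + B) / N = C / N := by field_simp; linear_combination e'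
  rw [e1] at g1
  rw [e2] at g2
  have n1 := Gamma_ne_zero_of_re_pos (re_pos hN (show 0 < A + B by omega))
  have n2 := Gamma_ne_zero_of_re_pos (re_pos hN (show 0 < A + C by omega))
  have n3 := Gamma_ne_zero_of_re_pos (re_pos hN hB)
  have n4 := Gamma_ne_zero_of_re_pos (re_pos hN hC)
  rw [Nat.cast_add] at n1 n2
  have hab := ab_ne (N := N) (B := B) hA (by omega)
  rw [ee_sq N A, ee_sq N B] at hab ⊢
  have hu := ee_ne (A / (2 * N))
  have hv := ee_ne (B / (2 * N))
  have s0 : ∀ x : ℂ, Complex.sin (Real.pi * (x / N)) =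
      ((ee (x / (2 * N)))⁻¹ - ee (x / (2 * N))) * I / 2 := fun x => by
    unfold ee Complex.sin
    rw [← Complex.exp_neg]
    congr 4 <;> (field_simp)
  have s1 := s0 B
  have s2 := s0 (A + B)
  rw [add_div (A : ℂ) B (2 * N), ee_add] at s2
  have p0 : (Real.pi : ℂ) ≠ 0 := by exact_mod_cast Real.pi_ne_zero
  have z1 : Complex.sin (Real.pi * ((B : ℂ) / N)) ≠ 0 := fun hz => by
    rw [hz, div_zero] at g1; exact mul_ne_zero n3 n2 g1
  have z2 : Complex.sin (Real.pi * (((A : ℂ) + B) / N)) ≠ 0 := fun hz => by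
    rw [hz, div_zero] at g2; exact mul_ne_zero n1 n4 g2
  rw [eq_div_iff z1] at g1
  rw [eq_div_iff z2] at g2
  rw [s1] at g1
  rw [s2] at g2
  unfold bt
  generalize ee (A / (2 * N)) = u at *
  generalize ee (B / (2 * N)) = v at *
  have key : Gamma (B / N) * Gamma ((A + C) / N) * (v⁻¹ - v) =
      Gamma ((A + B) / N) * Gamma (C / N) * ((u * v)⁻¹ - u * v) := by
    have := g1.trans g2.symm
    linear_combination (-2 * I) * this + (Gamma (B / N) * Gamma ((A + C) / N) * (v⁻¹ - v) -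
      Gamma ((A + B) / N) * Gamma (C / N) * ((u * v)⁻¹ - u * v)) * I_mul_I
  have hab' : v ^ 2 * u ^ 2 - 1 ≠ 0 := by rwa [mul_comm]
  field_simp at key ⊢
  linear_combination Gamma (A / N) * key

/-- the relation between two families -/
def R (N : ℕ) (f g : ℕ → ℕ → ℂ) : Prop :=
  ∃ (i j : ℕ) (T : MvPolynomial (Fin 2) ℤ), ∀ A B : ℕ, 0 < A → 0 < B → A + B < N →
    f A B = ee (A / N) ^ i * ee (B / N) ^ j * g A B +
      MvPolynomial.aeval ![ee (A / N), ee (B / N)] T / (ee (A / N) * ee (B / N) - 1)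

theorem inv_pow' {N : ℕ} (hN : 0 < N) (A i : ℕ) :
    ee (A / N) ^ ((N - 1) * i) * ee (A / N) ^ i = 1 := by
  rw [← pow_add, show (N - 1) * i + i = N * i by
    obtain ⟨n, rfl⟩ := Nat.exists_eq_succ_of_ne_zero hN.ne'; simp [Nat.succ_mul],
    pow_mul, ee_pow hN, one_pow]

theorem R.symm {N : ℕ} (hN : 0 < N) {f g : ℕ → ℕ → ℂ} (h : R N f g) : R N g f := by
  obtain ⟨i, j, T, h⟩ := h
  refine ⟨(N - 1) * i, (N - 1) * j,
    -(MvPolynomial.X 0 ^ ((N - 1) * i) * MvPolynomial.X 1 ^ ((N - 1) * j) * T),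
    fun A B hA hB hAB => ?_⟩
  have h1 := inv_pow' hN A i
  have h2 := inv_pow' hN B j
  rw [h A B hA hB hAB]
  simp only [map_neg, map_mul, map_pow, MvPolynomial.aeval_X, Matrix.cons_val_zero,
    Matrix.cons_val_one]
  linear_combination (-(g A B) * (ee (B / N) ^ ((N - 1) * j) * ee (B / N) ^ j)) * h1 - g A B * h2

theorem abc {N A B : ℕ} (h : A + B < N) :
    ee (A / N) * ee (B / N) * ee (((N - A - B : ℕ) : ℂ) / N) = 1 := by
  have hN : 0 < N := by omega
  rw [ee_div N A, ee_div N B, ee_div N (N - A - B), ← pow_add, ← pow_add,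
    show A + B + (N - A - B) = N by omega, (prim hN).pow_eq_one]

theorem same (h : AllCh) {N : ℕ} (hN : 0 < N) (α : Fin 3) {X Y : ℂ} (e : X ^ N = Y ^ N) :
    R N (fun A B => phi N A B α X) fun A B => phi N A B α Y := by
  obtain ⟨i, rfl⟩ := root hN e
  fin_cases α
  · refine ⟨i, 0, 0, fun A B hA hB hAB => ?_⟩
    simp only [phi, Fin.zero_eta, Matrix.cons_val_zero, rot (h N A B hN hA), map_zero]
    ring
  · refine ⟨0, i, 0, fun A B hA hB hAB => ?_⟩
    simp only [phi, Fin.mk_one, Matrix.cons_val_one, Matrix.cons_val_zero, rot (h N B A hN hB),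
      map_zero]
    ring
  · refine ⟨(N - 1) * i, (N - 1) * i, 0, fun A B hA hB hAB => ?_⟩
    have h1 := inv_pow' hN A i
    have h2 := inv_pow' hN B i
    have h3 : (ee (A / N) * ee (B / N) * ee (((N - A - B : ℕ) : ℂ) / N)) ^ i = 1 := by
      rw [abc hAB, one_pow]
    rw [mul_pow, mul_pow] at h3
    have h4 : ee (((N - A - B : ℕ) : ℂ) / N) ^ i =
        ee (A / N) ^ ((N - 1) * i) * ee (B / N) ^ ((N - 1) * i) := by
      linear_combination (ee (A / N) ^ ((N - 1) * i) * ee (B / N) ^ ((N - 1) * i)) * h3 -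
        ee (((N - A - B : ℕ) : ℂ) / N) ^ i * (ee (B / N) ^ ((N - 1) * i) * ee (B / N) ^ i) * h1 -
        ee (((N - A - B : ℕ) : ℂ) / N) ^ i * h2
    simp only [phi, Fin.reduceFinMk, Matrix.cons_val, rot (h N (N - A - B) B hN (by omega)),
      map_zero, h4]
    ring

theorem r01 (h : AllCh) {N : ℕ} (hN : 0 < N) {X Y : ℂ} (hX : X ∈ Om N) (hY : Y ∈ Om N)
    (e : X ^ N + Y ^ N = 1) : R N (fun A B => phi N A B 0 X) fun A B => phi N A B 1 Y := by
  obtain ⟨i, j, hij⟩ := euler h hN hX hY e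
  refine ⟨(N - 1) * i, j, MvPolynomial.X 0 ^ ((N - 1) * i) * (MvPolynomial.X 0 * MvPolynomial.X 1 - 1),
    fun A B hA hB hAB => ?_⟩
  have h1 := inv_pow' hN A i
  have h2 := hij A B hA hB
  have h3 := ab_ne hA hAB
  have h4 := bt_ne hN hA hB
  simp only [phi, Matrix.cons_val_zero, Matrix.cons_val_one, map_mul, map_pow, map_sub, map_one,
    MvPolynomial.aeval_X]
  rw [mul_div_assoc, div_self h3]
  field_simp
  linear_combination ee (A / N) ^ ((N - 1) * i) * h2 - ch N A B X * h1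

theorem r12 (h : AllCh) {N : ℕ} (hN : 0 < N) {Y Z : ℂ} (hY : Y ∈ Om N) (hZ : Z ∈ Om N)
    (e : (1 - Y ^ N) * Z ^ N = 1) : R N (fun A B => phi N A B 1 Y) fun A B => phi N A B 2 Z := by
  have e1 : pf N Y ^ N + Z ^ N = 1 := by
    have := pf_pow hN hY
    rw [inv_eq_of_mul_eq_one_right e] at this
    linear_combination -this
  obtain ⟨i, j, hij⟩ := euler h hN (pf_mem hN hY) hZ e1
  refine ⟨(N - 1) * j, (N - 1) * j + (N - 1) * i,
    -(MvPolynomial.X 1 ^ ((N - 1) * i) * (MvPolynomial.X 1 * (MvPolynomial.X 0 - 1))),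
    fun A B hA hB hAB => ?_⟩
  have hC : 0 < N - A - B := by omega
  have h0 := pfaff h (B := A) (C := N - A - B) hB (show B + A + (N - A - B) = N by omega) hY
  have h1 := inv_pow' hN B i
  have h2 := hij B (N - A - B) hB hC
  have h3 := ab_ne hA hAB
  have h4 := bt_ne hN hA hB
  have h5 := const hB hA hC (show B + A + (N - A - B) = N by omega)
  rw [bt_symm N B A, mul_comm (ee (B / N)) (ee (A / N))] at h5
  have h6 := inv_pow' hN A j
  have h7 := inv_pow' hN B j
  have h8 : (ee (A / N) * ee (B / N) * ee (((N - A - B : ℕ) : ℂ) / N)) ^ j = 1 := by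
    rw [abc hAB, one_pow]
  rw [mul_pow, mul_pow] at h8
  have h9 : ee (((N - A - B : ℕ) : ℂ) / N) ^ j =
      ee (A / N) ^ ((N - 1) * j) * ee (B / N) ^ ((N - 1) * j) := by
    linear_combination (ee (A / N) ^ ((N - 1) * j) * ee (B / N) ^ ((N - 1) * j)) * h8 -
      ee (((N - A - B : ℕ) : ℂ) / N) ^ j * (ee (B / N) ^ ((N - 1) * j) * ee (B / N) ^ j) * h6 -
      ee (((N - A - B : ℕ) : ℂ) / N) ^ j * h7
  rw [h9] at h2
  simp only [phi, Matrix.cons_val_zero, Matrix.cons_val_one, Matrix.cons_val, map_mul, map_pow,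
    map_sub, map_one, map_neg, MvPolynomial.aeval_X]
  rw [h0, pow_add, neg_div (ee (A / N) * ee (B / N) - 1), mul_div_assoc (ee (B / N) ^ _)]
  generalize ee (B / N) * (ee (A / N) - 1) / (ee (A / N) * ee (B / N) - 1) = k at *
  field_simp
  linear_combination (-ee (B / N) ^ ((N - 1) * i)) * h5 -
    ee (B / (2 * N)) * ee (B / N) ^ ((N - 1) * i) * h2 +
    ee (B / (2 * N)) * ch N B (N - A - B) (pf N Y) * h1

theorem r02 (h : AllCh) {N : ℕ} (hN : 0 < N) {X Z : ℂ} (hX : X ∈ Om N) (hZ : Z ∈ Om N)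
    (e : X ^ N * Z ^ N = 1) : R N (fun A B => phi N A B 0 X) fun A B => phi N A B 2 Z := by
  have e1 : pf N X ^ N + pf N Z ^ N = 1 := by
    have a1 := pf_pow hN hX
    have a2 := pf_pow hN hZ
    have b1 : 1 - X ^ N ≠ 0 := slitPlane_ne_zero hX
    have b2 : 1 - Z ^ N ≠ 0 := slitPlane_ne_zero hZ
    have : (1 - X ^ N)⁻¹ + (1 - Z ^ N)⁻¹ = 1 := by
      field_simp; linear_combination -e
    linear_combination -a1 - a2 - this
  obtain ⟨i, j, hij⟩ := euler h hN (pf_mem hN hX) (pf_mem hN hZ) e1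
  refine ⟨(N - 1) * j + (N - 1) * i + 1, (N - 1) * j,
    MvPolynomial.X 0 ^ ((N - 1) * i) * (MvPolynomial.X 0 * (MvPolynomial.X 1 - 1)),
    fun A B hA hB hAB => ?_⟩
  have hC : 0 < N - A - B := by omega
  have h0 := pfaff h (B := B) (C := N - A - B) hA (show A + B + (N - A - B) = N by omega) hX
  have h0' := pfaff h (B := B) (C := A) hC (show N - A - B + B + A = N by omega) hZ
  have h1 := inv_pow' hN A i
  have h2 := hij A (N - A - B) hA hC
  have h3 := ab_ne hA hAB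
  have h4 := bt_ne hN hA hB
  have h5 := const hA hB hC (show A + B + (N - A - B) = N by omega)
  have h6 := inv_pow' hN A j
  have h7 := inv_pow' hN B j
  have h8 : (ee (A / N) * ee (B / N) * ee (((N - A - B : ℕ) : ℂ) / N)) ^ j = 1 := by
    rw [abc hAB, one_pow]
  rw [mul_pow, mul_pow] at h8
  have h9 : ee (((N - A - B : ℕ) : ℂ) / N) ^ j =
      ee (A / N) ^ ((N - 1) * j) * ee (B / N) ^ ((N - 1) * j) := by
    linear_combination (ee (A / N) ^ ((N - 1) * j) * ee (B / N) ^ ((N - 1) * j)) * h8 -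
      ee (((N - A - B : ℕ) : ℂ) / N) ^ j * (ee (B / N) ^ ((N - 1) * j) * ee (B / N) ^ j) * h6 -
      ee (((N - A - B : ℕ) : ℂ) / N) ^ j * h7
  rw [h9] at h2
  have h10 : ee (A / N) * ee (B / (2 * N)) * ee (((N - A - B : ℕ) : ℂ) / (2 * N)) =
      -ee (A / (2 * N)) := by
    have hN' : (N : ℂ) ≠ 0 := by exact_mod_cast hN.ne'
    rw [← ee_add, ← ee_add, ← neg_one_mul, ← ee_half, ← ee_add]
    congr 1
    rw [Nat.cast_sub (by omega), Nat.cast_sub (by omega)]
    field_simp; ring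
  simp only [phi, Matrix.cons_val_zero, Matrix.cons_val_one, Matrix.cons_val, map_mul, map_pow,
    map_sub, map_one, MvPolynomial.aeval_X]
  rw [h0, h0', pow_succ, pow_add, mul_div_assoc (ee (A / N) ^ _)]
  generalize ee (A / N) * (ee (B / N) - 1) / (ee (A / N) * ee (B / N) - 1) = k at *
  field_simp
  linear_combination (ee (A / N) ^ ((N - 1) * i)) * h5 +
    ee (A / (2 * N)) * ee (A / N) ^ ((N - 1) * i) * h2 -
    ee (A / (2 * N)) * ch N A (N - A - B) (pf N X) * h1 -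
    ee (A / N) ^ ((N - 1) * j) * ee (A / N) ^ ((N - 1) * i) * ee (B / N) ^ ((N - 1) * j) *
      ch N (N - A - B) A (pf N Z) * h10

end GlueP

open GlueP in
theorem glue (h : AllCh) : Glue := by
  intro N α α' X X' hX hX' e
  rcases Nat.eq_zero_or_pos N with rfl | hN
  · exact ⟨0, 0, 0, fun A B _ _ h => absurd h (Nat.not_lt_zero _)⟩
  suffices H : R N (fun A B => phi N A B α X) fun A B => phi N A B α' X' by
    obtain ⟨i, j, T, H⟩ := H
    exact ⟨i, j, T, fun A B hA hB hAB => by rw [ee_lin, ee_sum]; exact H A B hA hB hAB⟩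
  fin_cases α <;> fin_cases α' <;>
    simp only [xc, Fin.zero_eta, Fin.mk_one, Fin.reduceFinMk, Matrix.cons_val_zero,
      Matrix.cons_val_one, Matrix.cons_val, one_mul, mul_one] at e
  · exact same h hN 0 e.symm
  · exact r01 h hN hX hX' (by linear_combination -e)
  · exact r02 h hN hX hX' e.symm
  · exact (r01 h hN hX' hX (by linear_combination e)).symm hN
  · exact same h hN 1 (by linear_combination e)
  · exact r12 h hN hX hX' e.symm
  · exact (r02 h hN hX' hX (by linear_combination e)).symm hN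
  · exact (r12 h hN hX' hX (by linear_combination e)).symm hN
  · exact same h hN 2 e

end

end Pool.Agent.GAM

end MrgPart0

-- ======== part 1: formerly Pool.Agent.MP_cbf1af_ag.gam.Trd
section MrgPart1

/-! PROJECT GAM, row TRD: fields generated by monomials. -/

namespace Pool.Agent.GAM

open MvPolynomial

noncomputable section

namespace TrdL

variable {ι : Type} [Fintype ι]

/-- Laurent monomials -/
def mon (x : ι → ℂ) (n : ι → ℤ) : ℂ := ∏ i, x i ^ n i

lemma mon_ne {x : ι → ℂ} (h : ∀ i, x i ≠ 0) (n : ι → ℤ) : mon x n ≠ 0 :=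
  Finset.prod_ne_zero_iff.mpr fun i _ => zpow_ne_zero _ (h i)

lemma mon_add {x : ι → ℂ} (h : ∀ i, x i ≠ 0) (n n' : ι → ℤ) :
    mon x (n + n') = mon x n * mon x n' := by
  unfold mon
  rw [← Finset.prod_mul_distrib]
  exact Finset.prod_congr rfl fun i _ => zpow_add₀ (h i) _ _

lemma mon_zero (x : ι → ℂ) : mon x 0 = 1 := by simp [mon]

lemma mon_zpow (x : ι → ℂ) (n : ι → ℤ) (m : ℤ) : mon x n ^ m = mon x (m • n) := by
  unfold mon
  rw [← Finset.prod_zpow]
  refine Finset.prod_congr rfl fun i _ => ?_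
  rw [← zpow_mul, mul_comm]
  rfl

lemma mon_sum {x : ι → ℂ} (h : ∀ i, x i ≠ 0) {κ : Type} (s : Finset κ) (n : κ → ι → ℤ) :
    mon x (∑ j ∈ s, n j) = ∏ j ∈ s, mon x (n j) := by
  classical
  induction s using Finset.induction_on with
  | empty => simp [mon_zero]
  | insert a s ha ih => rw [Finset.sum_insert ha, Finset.prod_insert ha, mon_add h, ih]

section Ind

variable {K : Type} [Field K] [Algebra K ℂ]

omit [Fintype ι] in
lemma ne_zero {x : ι → ℂ} (hx : AlgebraicIndependent K x) (i : ι) : x i ≠ 0 := by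
  intro h
  exact hx.transcendental i (h ▸ isAlgebraic_zero)

lemma ind_nat {x : ι → ℂ} (hx : AlgebraicIndependent K x) :
    LinearIndependent K (fun a : ι →₀ ℕ => ∏ i, x i ^ a i) := by
  have h := (basisMonomials ι K).linearIndependent.map'
    (aeval x : MvPolynomial ι K →ₐ[K] ℂ).toLinearMap (LinearMap.ker_eq_bot.mpr hx)
  have e : (fun a : ι →₀ ℕ => ∏ i, x i ^ a i) =
      (aeval x : MvPolynomial ι K →ₐ[K] ℂ).toLinearMap ∘ basisMonomials ι K := by
    ext a
    simp [aeval_monomial, Finsupp.prod_fintype]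
  rw [e]
  exact h

lemma ind_int {x : ι → ℂ} (hx : AlgebraicIndependent K x) : LinearIndependent K (mon x) := by
  classical
  rw [linearIndependent_iff']
  intro s g hg
  have h0 := ne_zero hx
  set N : ι → ℤ := fun i => ∑ n ∈ s, |n i| with hN
  have hpos : ∀ n ∈ s, ∀ i, 0 ≤ n i + N i := by
    intro n hn i
    have h1 : |n i| ≤ N i :=
      Finset.single_le_sum (f := fun n : ι → ℤ => |n i|) (fun _ _ => abs_nonneg _) hn
    have := neg_abs_le (n i)
    omega
  let φ : s → (ι →₀ ℕ) := fun n => Finsupp.equivFunOnFinite.symm fun i => (n.1 i + N i).toNat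
  have hφ : Function.Injective φ := by
    intro a b e
    apply Subtype.ext
    ext i
    have e1 : (a.1 i + N i).toNat = (b.1 i + N i).toNat := congrArg (fun f => f i) e
    have := hpos _ a.2 i
    have := hpos _ b.2 i
    omega
  have h1 := (ind_nat hx).comp φ hφ
  have h2 : ∀ n : s, ∏ i, x i ^ φ n i = mon x n.1 * mon x N := by
    intro n
    rw [← mon_add h0]
    refine Finset.prod_congr rfl fun i _ => ?_
    rw [← zpow_natCast]
    congr 1
    exact Int.toNat_of_nonneg (hpos _ n.2 i)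
  have h3 := Fintype.linearIndependent_iff.mp h1 (fun n => g n.1) (by
    simp only [Function.comp, h2, ← smul_mul_assoc]
    rw [← Finset.sum_mul, Finset.sum_coe_sort s (fun n => g n • mon x n), hg, zero_mul])
  exact fun n hn => h3 ⟨n, hn⟩

lemma alg_ind_of {σ : Type} [Fintype σ] {w : σ → ℂ}
    (h : LinearIndependent K (fun a : σ →₀ ℕ => ∏ s, w s ^ a s)) : AlgebraicIndependent K w := by
  rw [algebraicIndependent_iff]
  intro p hp
  ext a
  by_cases ha : a ∈ p.support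
  · refine linearIndependent_iff'.mp h p.support (fun a => p.coeff a) ?_ a ha
    rw [← hp, aeval_def, eval₂_eq']
    simp [Algebra.smul_def]
  · simpa using ha

end Ind

lemma zpow_alg {R F : Type} [CommRing R] [IsDomain R] [Field F] [Algebra R F] {a : F}
    (h : IsAlgebraic R a) (m : ℤ) : IsAlgebraic R (a ^ m) := by
  obtain ⟨n, rfl | rfl⟩ := m.eq_nat_or_neg
  · rw [zpow_natCast]; exact h.pow n
  · rw [zpow_neg, zpow_natCast]; exact IsAlgebraic.inv_iff.mpr (h.pow n)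

lemma prod_alg {R F σ : Type} [CommRing R] [IsDomain R] [Field F] [Algebra R F] (s : Finset σ)
    {a : σ → F} (h : ∀ i ∈ s, IsAlgebraic R (a i)) : IsAlgebraic R (∏ i ∈ s, a i) :=
  Finset.prod_induction a (IsAlgebraic R) (fun _ _ h1 h2 => h1.mul h2) isAlgebraic_one h

lemma mon_alg {x : ι → ℂ} (hx : AlgebraicIndependent ℚ x) {n : ι → ℤ} (h : Alg (mon x n)) :
    n = 0 := by
  by_contra hn
  have h1 := (ind_int hx.algebraicClosure).comp ![n, 0] (by
    intro a b e
    fin_cases a <;> fin_cases b <;> simp_all [eq_comm])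
  have h2 := Fintype.linearIndependent_iff.mp h1
    ![1, -⟨mon x n, mem_algebraicClosure_iff.mpr h⟩] (by
      simp [Fin.sum_univ_two, mon_zero, Algebra.smul_def]) 0
  simp at h2

lemma crit {κ : Type} [Fintype κ] {x : ι → ℂ} {y : κ → ℂ} {k : ℕ} {e : κ → ι → ℤ}
    (hx : AlgebraicIndependent ℚ x) (hk : 0 < k)
    (h : ∀ j, y j ≠ 0 ∧ Alg (y j ^ k / mon x (e j))) (m : κ → ℤ) :
    Alg (∏ j, y j ^ m j) ↔ ∑ j, m j • e j = 0 := by
  have h0 := ne_zero hx
  have e1 : (∏ j, y j ^ m j) ^ k =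
      (∏ j, (y j ^ k / mon x (e j)) ^ m j) * mon x (∑ j, m j • e j) := by
    rw [mon_sum h0, ← Finset.prod_mul_distrib, ← Finset.prod_pow]
    refine Finset.prod_congr rfl fun j _ => ?_
    rw [← mon_zpow, ← mul_zpow, div_mul_cancel₀ _ (mon_ne h0 _), ← zpow_natCast, ← zpow_natCast,
      ← zpow_mul, ← zpow_mul, mul_comm]
  have e2 : Alg (∏ j, (y j ^ k / mon x (e j)) ^ m j) :=
    prod_alg _ fun j _ => zpow_alg (h j).2 _
  have e3 : (∏ j, (y j ^ k / mon x (e j)) ^ m j) ≠ 0 :=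
    Finset.prod_ne_zero_iff.mpr fun j _ =>
      zpow_ne_zero _ (div_ne_zero (pow_ne_zero _ (h j).1) (mon_ne h0 _))
  constructor
  · intro ha
    apply mon_alg hx
    have := (IsAlgebraic.inv_iff.mpr e2).mul (ha.pow k)
    rwa [e1, inv_mul_cancel_left₀ e3] at this
  · intro ha
    apply IsAlgebraic.of_pow hk
    rw [e1, ha, mon_zero, mul_one]
    exact e2

lemma indep {σ : Type} [Fintype σ] {x : ι → ℂ} {w : σ → ℂ} {e : σ → ι → ℤ}
    (hx : AlgebraicIndependent ℚ x) (h : ∀ j, w j ≠ 0 ∧ Alg (w j / mon x (e j)))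
    (he : LinearIndependent ℚ fun j i => (e j i : ℚ)) : AlgebraicIndependent ℚ w := by
  have h0 := ne_zero hx
  refine AlgebraicIndependent.restrictScalars (K := algebraicClosure ℚ ℂ)
    (FaithfulSMul.algebraMap_injective _ _) (alg_ind_of ?_)
  let φ : (σ →₀ ℕ) → ι → ℤ := fun a => ∑ s, (a s : ℤ) • e s
  have hφ : Function.Injective φ := by
    intro a b hab
    have h1 := Fintype.linearIndependent_iff.mp he (fun s => (a s : ℚ) - b s) (by
      ext i
      have h2 := congrArg (fun f : ι → ℤ => (f i : ℚ)) hab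
      simp only [φ, Finset.sum_apply, Pi.smul_apply, smul_eq_mul] at h2 ⊢
      push_cast at h2
      simp only [sub_mul, Finset.sum_sub_distrib, h2, sub_self, Pi.zero_apply])
    ext s
    exact_mod_cast sub_eq_zero.mp (h1 s)
  have hc : ∀ a : σ →₀ ℕ, Alg (∏ s, (w s / mon x (e s)) ^ a s) := fun a =>
    prod_alg _ fun s _ => (h s).2.pow _
  have hc0 : ∀ a : σ →₀ ℕ, (∏ s, (w s / mon x (e s)) ^ a s) ≠ 0 := fun a =>
    Finset.prod_ne_zero_iff.mpr fun s _ => pow_ne_zero _ (div_ne_zero (h s).1 (mon_ne h0 _))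
  have h1 := ((ind_int hx.algebraicClosure).comp φ hφ).units_smul fun a =>
    Units.mk0 (⟨_, mem_algebraicClosure_iff.mpr (hc a)⟩ : algebraicClosure ℚ ℂ)
      (fun e => hc0 a (congrArg Subtype.val e))
  refine (congrArg (fun v : (σ →₀ ℕ) → ℂ => LinearIndependent (algebraicClosure ℚ ℂ) v)
    (funext fun a => ?_)).mpr h1
  show _ = (∏ s, (w s / mon x (e s)) ^ a s) * mon x (φ a)
  rw [mon_sum h0, ← Finset.prod_mul_distrib]
  refine Finset.prod_congr rfl fun s _ => ?_
  rw [← mon_zpow, zpow_natCast, ← mul_pow, div_mul_cancel₀ _ (mon_ne h0 _)]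

end TrdL

open TrdL in
theorem trd : Trd := by
  intro ι κ _ _ x y k e hx hk h
  replace h : ∀ j, y j ≠ 0 ∧ Alg (y j ^ k / mon x (e j)) := h
  refine ⟨?_, fun m => (crit hx hk h m).trans ?_⟩
  swap
  · simp [funext_iff]
  obtain ⟨σ, a, ha, hsp, hli⟩ := exists_linearIndependent' ℚ (fun j i => (e j i : ℚ))
  have : Finite σ := Finite.of_injective a ha
  have := Fintype.ofFinite σ
  set F := IntermediateField.adjoin ℚ (Set.range y) with hF
  let y' : κ → F := fun j => ⟨y j, IntermediateField.subset_adjoin _ _ ⟨j, rfl⟩⟩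
  let w : σ → F := fun s => y' (a s) ^ k
  have hw : AlgebraicIndependent ℚ w :=
    AlgebraicIndependent.of_comp F.val
      (indep (e := fun s => e (a s)) hx (fun s => ⟨pow_ne_zero _ (h _).1, (h _).2⟩) hli)
  have h1 : ∀ s, IsAlgebraic (Algebra.adjoin ℚ (Set.range w)) (y' (a s)) := fun s =>
    IsAlgebraic.of_pow hk (isAlgebraic_algebraMap
      (⟨w s, Algebra.subset_adjoin ⟨s, rfl⟩⟩ : Algebra.adjoin ℚ (Set.range w)))
  have h2 : ∀ z : F, Alg z.1 → IsAlgebraic (Algebra.adjoin ℚ (Set.range w)) z := fun z hz =>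
    (IntermediateField.isAlgebraic_iff.mpr hz).extendScalars
      (FaithfulSMul.algebraMap_injective _ _)
  have h3 : ∀ j, IsAlgebraic (Algebra.adjoin ℚ (Set.range w)) (y' j) := by
    intro j
    have m1 : (fun i => (e j i : ℚ)) ∈ Submodule.span ℚ
        (Set.range ((fun j i => (e j i : ℚ)) ∘ a)) := by
      rw [hsp]; exact Submodule.subset_span ⟨j, rfl⟩
    obtain ⟨q, hq⟩ := (Submodule.mem_span_range_iff_exists_fun ℚ).mp m1
    obtain ⟨d, hd⟩ := IsLocalization.exist_integer_multiples_of_finite (nonZeroDivisors ℤ) q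
    choose m hm using hd
    have hd0 : (d : ℤ) ≠ 0 := nonZeroDivisors.coe_ne_zero d
    have c1 := (crit (κ := Option σ) (y := fun o => y (o.elim j a)) (e := fun o => e (o.elim j a))
      hx hk (fun o => h _) (fun o => o.elim (d : ℤ) fun s => -m s)).mpr (by
        ext i
        have q1 := congrFun hq i
        simp only [Finset.sum_apply, Pi.smul_apply, smul_eq_mul, Function.comp] at q1
        have q2 : ∀ s, (m s : ℚ) = (d : ℤ) * q s := fun s => by simpa using hm s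
        simp only [Fintype.sum_option, Option.elim, Finset.sum_apply, Pi.smul_apply,
          smul_eq_mul, Pi.zero_apply]
        apply Int.cast_injective (α := ℚ)
        push_cast
        simp only [q2, ← q1, Finset.mul_sum, ← Finset.sum_add_distrib]
        exact Finset.sum_eq_zero fun s _ => by ring)
    simp only [Fintype.prod_option, Option.elim] at c1
    have c2 := h2 (y' j ^ (d : ℤ) * ∏ s, y' (a s) ^ (-m s)) (by
      have e1 : F.val (y' j ^ (d : ℤ) * ∏ s, y' (a s) ^ (-m s)) =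
          y j ^ (d : ℤ) * ∏ s, y (a s) ^ (-m s) := by
        rw [map_mul, map_prod, map_zpow₀]
        simp only [map_zpow₀]
        rfl
      rw [← e1] at c1
      exact c1)
    have c3 : IsAlgebraic (Algebra.adjoin ℚ (Set.range w)) (∏ s, y' (a s) ^ (-m s)) :=
      prod_alg _ fun s _ => zpow_alg (h1 s) _
    have c4 : (∏ s, y' (a s) ^ (-m s)) ≠ 0 :=
      Finset.prod_ne_zero_iff.mpr fun s _ =>
        zpow_ne_zero _ fun e => (h _).1 (congrArg Subtype.val e)
    have c5 := c2.mul (IsAlgebraic.inv_iff.mpr c3)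
    rw [mul_inv_cancel_right₀ c4] at c5
    apply IsAlgebraic.of_pow (Int.natAbs_pos.mpr hd0)
    rcases Int.natAbs_eq (d : ℤ) with e1 | e1
    · rwa [e1, zpow_natCast] at c5
    · rw [e1, zpow_neg, zpow_natCast] at c5
      exact IsAlgebraic.inv_iff.mp c5
  have h4 : Algebra.IsAlgebraic (Algebra.adjoin ℚ (Set.range w)) F := by
    refine ⟨fun ⟨z, hz⟩ => ?_⟩
    induction hz using IntermediateField.adjoin_induction with
    | mem z hz => obtain ⟨j, rfl⟩ := hz; exact h3 j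
    | algebraMap q => exact h2 _ (isAlgebraic_algebraMap q)
    | add u v hu hv a b => exact a.add b
    | inv u hu a => exact IsAlgebraic.inv_iff.mpr a
    | mul u v hu hv a b => exact a.mul b
  rw [← (hw.isTranscendenceBasis_iff_isAlgebraic.mpr h4).cardinalMk_eq_trdeg, ← hsp,
    finrank_span_eq_card hli, Cardinal.mk_fintype]

end

end Pool.Agent.GAM

end MrgPart1

-- marker of a merged file
example : 731051 + 766622 = 731051 + 766622 := rfl
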