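import Mathlib.Topology.Sheaves.Presheaf
import Mathlib.Tactic.Monotonicity.Lemmas
import Mathlib.RingTheory.Flat.TorsionFree
import Mathlib.Algebra.Module.StablyFree.Basic
import Mathlib.RingTheory.PicardGroup
import Mathlib.Algebra.MvPolynomial.Funext
import Mathlib.Algebra.Order.Star.Real
import Mathlib.RingTheory.PowerSeries.NoZeroDivisors
import Mathlib.Analysis.SpecialFunctions.Complex.Analytic
import Mathlib.Analysis.Analytic.Polynomial
import Mathlib.Analysis.Complex.Schwarz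
import Mathlib.Analysis.Convex.Join
import Mathlib.Combinatorics.SimpleGraph.Basic
import Mathlib.Data.Rat.Star
import Mathlib.MeasureTheory.Integral.CurveIntegral.Poincare
import Mathlib.Order.CompletePartialOrder
import Mathlib.RingTheory.TotallySplit
import Mathlib.RingTheory.Henselian
import Mathlib.RingTheory.RegularLocalRing.Defs
import Mathlib.Tactic.Polynomial.Basic
import Pool.Agent.MP_cbf1af_ag.gam.Spec
import Pool.Agent.MP_cbf1af_ag.gam.Trd

-- ======== part 0: formerly Pool.Agent.MP_cbf1af_ag.gam.Afc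
section MrgPart0

/-! PROJECT GAM, row AFC: theta functions at an algebraic point -/

namespace Pool.Agent.GAM

open Matrix Complex Filter Topology

namespace Afc

variable {κ : Type} [Fintype κ] [DecidableEq κ]

lemma ee_ne (x : ℂ) : ee x ≠ 0 := Complex.exp_ne_zero _

lemma denom {ι : Type} [Fintype ι] (w : ι → ℚ) :
    ∃ d : ℕ, 0 < d ∧ ∃ k : ι → ℤ, ∀ a, (d : ℚ) * w a = k a := by
  classical
  refine ⟨∏ a, (w a).den, Finset.prod_pos fun a _ => (w a).den_pos, fun a =>
    (∏ b ∈ Finset.univ.erase a, ((w b).den : ℤ)) * (w a).num, fun a => ?_⟩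
  rw [← Finset.prod_erase_mul _ _ (Finset.mem_univ a)]
  push_cast
  rw [mul_assoc, mul_comm ((w a).den : ℚ), Rat.mul_den_eq_num]

lemma aut (hB : ThB κ) (τ : Matrix κ κ ℂ) (hτ : τ.IsSymm) (f f' : (κ → ℚ) → ℂ)
    (v : κ ⊕ κ → ℚ) (h : W v f = f) (h' : W v f' = f') :
    Aut (thz f τ) (thz f' τ) (cq v ᵥ* per τ) := by
  refine ⟨fun z => (ee (cq (v ∘ Sum.inl) ⬝ᵥ (cq v ᵥ* per τ) / 2 + cq (v ∘ Sum.inl) ⬝ᵥ z))⁻¹,
    ?_, fun z => inv_ne_zero (ee_ne _), fun z => ?_⟩
  · refine Continuous.inv₀ ?_ fun z => ee_ne _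
    unfold ee
    fun_prop
  · have h1 := hB.trans v f τ z hτ
    have h2 := hB.trans v f' τ z hτ
    rw [h] at h1
    rw [h'] at h2
    constructor
    · rw [h1, inv_mul_cancel_left₀ (ee_ne _)]
    · rw [h2, inv_mul_cancel_left₀ (ee_ne _)]

lemma theta (hA : ThA κ) (hB : ThB κ) (τ : Matrix κ κ ℂ) (f f' : (κ → ℚ) → ℂ) (hτ : AlgPt τ)
    (hf : Sch f) (hf' : Sch f') : AF (tor τ) (thz f τ) (thz f' τ) := by
  refine ⟨⟨fun z => hA.anaz f τ z hf hτ.1, fun z => hA.anaz f' τ z hf' hτ.1, ?_⟩, ?_⟩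
  · rintro _ ⟨w, rfl⟩
    obtain ⟨M, hM, hev, hl⟩ := hB.common Bool (fun b => if b then f else f')
      (by intro b; cases b <;> simpa)
    obtain ⟨d, hd, k, hk⟩ := denom w
    refine ⟨M * d, Nat.mul_pos hM hd, ?_⟩
    have h1 := ((hB.levW M f hM hev).mp (by simpa using hl true)).2 k
    have h2 := ((hB.levW M f' hM hev).mp (by simpa using hl false)).2 k
    have h3 := aut hB τ hτ.1.1 f f' _ h1 h2
    have h4 : cq (fun a => (M : ℚ) * k a) = ((M * d : ℕ) : ℂ) • cq w := by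
      funext a
      simp only [cq, ← hk a, Pi.smul_apply, smul_eq_mul]
      push_cast
      ring
    rw [h4, smul_vecMul] at h3
    exact h3
  · rintro _ ⟨w, rfl⟩ hv
    have h1 := hB.trans w f τ 0 hτ.1.1
    have h2 := hB.trans w f' τ 0 hτ.1.1
    rw [zero_add] at h1 h2
    have h3 := hτ.2 (W w f) (W w f') (hB.schW w f hf) (hB.schW w f' hf')
      (by unfold th; rw [h2]; exact mul_ne_zero (ee_ne _) hv)
    unfold th at h3
    rw [h1, h2, mul_div_mul_left _ _ (ee_ne _)] at h3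
    exact h3

/-- right multiplication by a matrix -/
noncomputable def vm {κ' : Type} [Fintype κ'] (N : Matrix κ' κ ℂ) : (κ' → ℂ) →L[ℂ] κ → ℂ :=
  LinearMap.toContinuousLinearMap N.vecMulLinear

omit [DecidableEq κ] in
lemma fderiv_vm {κ' X : Type} [Fintype κ'] [NormedAddCommGroup X] [NormedSpace ℂ X]
    (N : Matrix κ' κ ℂ) (G : (κ → ℂ) → X) (hG : DifferentiableAt ℂ G 0) (s : κ' → ℂ) :
    fderiv ℂ (fun z => G (z ᵥ* N)) 0 s = fderiv ℂ G 0 (s ᵥ* N) := by
  have h0 : HasFDerivAt G (fderiv ℂ G 0) (vm N 0) := by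
    rw [map_zero]; exact hG.hasFDerivAt
  have h1 := (h0.comp 0 (vm N).hasFDerivAt).fderiv
  have h2 : (G ∘ vm N) = fun z => G (z ᵥ* N) := rfl
  rw [h2] at h1
  rw [h1]
  rfl

lemma fderiv_gr (G : (κ → ℂ) → ℂ) (u : κ → ℂ) :
    fderiv ℂ G 0 u = u ⬝ᵥ fun i => pd i G 0 := by
  conv_lhs => rw [← Finset.univ_sum_single u, map_sum]
  refine Finset.sum_congr rfl fun i _ => ?_
  have : (Pi.single i (u i) : κ → ℂ) = u i • Pi.single i 1 := by
    rw [← Pi.single_smul, smul_eq_mul, mul_one]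
  rw [this, map_smul]
  rfl

lemma co (hA : ThA κ) (hB : ThB κ) (hT : ThC κ) (hF : AfA κ) (τ : Matrix κ κ ℂ)
    (V : Set (κ → ℂ)) (N : Matrix κ κ ℂ) (hτ : AlgPt τ) (hN : IsUnit N.det)
    (hV : ∀ v ∈ V, v ᵥ* N ∈ tor τ) : ∃ A B, Co V A B := by
  obtain ⟨f₀, hf₀, h0⟩ := hT.nz τ hτ.1
  obtain ⟨f, hf, hinj⟩ := hT.zco τ f₀ hτ.1 hf₀ h0
  refine ⟨fun k z => thz (f k) τ (z ᵥ* N), fun _ z => thz f₀ τ (z ᵥ* N), fun k =>
    ⟨hF.pull κ V (tor τ) N _ _ hV (theta hA hB τ _ _ hτ (hf k) hf₀), ?_⟩, ?_⟩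
  · simpa [th] using h0
  · have hG : DifferentiableAt ℂ (fun z i => thz (f i) τ z / thz f₀ τ z) 0 :=
      differentiableAt_pi.mpr fun i =>
        ((hA.anaz _ τ 0 (hf i) hτ.1).div (hA.anaz _ τ 0 hf₀ hτ.1) h0).differentiableAt
    intro s t hst
    have hs := fderiv_vm N _ hG s
    have ht := fderiv_vm N _ hG t
    have h1 : s ᵥ* N = t ᵥ* N := hinj (by rw [← hs, ← ht]; exact hst)
    exact vecMul_injective_of_isUnit ((isUnit_iff_isUnit_det N).mpr hN) h1

lemma grad (hA : ThA κ) (hB : ThB κ) {κ' : Type} [Fintype κ'] [DecidableEq κ'] (hF : AfA κ')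
    (τ : Matrix κ κ ℂ) (V : Set (κ' → ℂ)) (p : κ' → ℂ) (N : Matrix κ' κ ℂ)
    (f f' : (κ → ℚ) → ℂ) (hτ : AlgPt τ) (hp : Ari V p) (hV : ∀ v ∈ V, v ᵥ* N ∈ tor τ)
    (hf : Sch f) (hf' : Sch f') (h0 : th f' τ ≠ 0) (i : κ') :
    Alg ((N *ᵥ gr f τ) i / (p i * th f' τ)) := by
  obtain ⟨M, hM, hl⟩ := hf
  have hm1 : Alg (-1 : ℂ) := isAlgebraic_one.neg
  have hln : Lev M ((-1 : ℂ) • fun n => f (-n)) := hB.levSmul M _ _ hm1 (hB.levNeg M f hl)
  have hg : Sch (f + (-1 : ℂ) • fun n => f (-n)) := ⟨M, hM, hB.levAdd M _ _ hl hln⟩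
  have hge : thz (f + (-1 : ℂ) • fun n => f (-n)) τ = fun z => thz f τ z - thz f τ (-z) := by
    funext z
    rw [hB.add _ _ τ z ⟨M, hM, hl⟩ ⟨M, hM, hln⟩ hτ.1, hB.smul, hB.neg]
    ring
  have hAF := hF.pull κ V (tor τ) N _ _ hV (theta hA hB τ _ _ hτ hg hf')
  have h1 := hp.2.1 _ _ hAF (by simpa [th] using h0) i
  rw [hge] at h1
  have d1 : HasFDerivAt (thz f τ) (fderiv ℂ (thz f τ) 0) 0 :=
    (hA.anaz f τ 0 ⟨M, hM, hl⟩ hτ.1).differentiableAt.hasFDerivAt
  have d2 : HasFDerivAt (fun z => thz f τ (-z)) (-fderiv ℂ (thz f τ) 0) 0 := by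
    have d0 : HasFDerivAt (thz f τ) (fderiv ℂ (thz f τ) 0) (-0) := by rwa [neg_zero]
    refine (d0.comp (0 : κ → ℂ) (hasFDerivAt_id (0 : κ → ℂ)).neg).congr_fderiv ?_
    ext u
    simp
  have d3 : HasFDerivAt (fun z => (thz f' τ z)⁻¹) (fderiv ℂ (fun z => (thz f' τ z)⁻¹) 0) 0 :=
    ((hA.anaz f' τ 0 hf' hτ.1).inv h0).differentiableAt.hasFDerivAt
  have d4 := (d1.sub d2).mul d3
  have h2 := fderiv_vm N _ d4.differentiableAt (Pi.single i 1)
  rw [d4.fderiv] at h2
  have h3 : pd i (fun z => (thz f τ (z ᵥ* N) - thz f τ (-(z ᵥ* N))) / thz f' τ (z ᵥ* N)) 0 =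
      2 * ((N *ᵥ gr f τ) i / th f' τ) := by
    unfold pd
    simp only [div_eq_mul_inv]
    refine h2.trans ?_
    simp only [Pi.sub_apply, neg_zero, sub_self, zero_mul, zero_add, sub_neg_eq_add,
      _root_.smul_apply, _root_.add_apply, smul_eq_mul]
    rw [fderiv_gr, ← dotProduct_mulVec, single_one_dotProduct]
    change (th f' τ)⁻¹ * ((N *ᵥ gr f τ) i + (N *ᵥ gr f τ) i) = _
    ring
  rw [h3] at h1
  have h4 : (N *ᵥ gr f τ) i / (p i * th f' τ) =
      ((1 / 2 : ℚ) : ℂ) * (2 * ((N *ᵥ gr f τ) i / th f' τ) / p i) := by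
    push_cast
    rw [mul_comm (p i), ← div_div]
    ring
  rw [h4]
  exact (isAlgebraic_algebraMap (1 / 2 : ℚ)).mul h1

end Afc

theorem afC (hA : All ThA) (hB : All ThB) (hT : All ThC) (hF : All AfA) : All AfC :=
  fun κ _ _ =>
    ⟨Afc.theta (hA κ) (hB κ), Afc.co (hA κ) (hB κ) (hT κ) (hF κ),
      fun κ' _ _ τ V p N f f' => Afc.grad (hA κ) (hB κ) (hF κ') τ V p N f f'⟩

end Pool.Agent.GAM

end MrgPart0

-- ======== part 1: formerly Pool.Agent.MP_cbf1af_ag.gam.Cha
section MrgPart1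

/-! PROJECT GAM, module CHA: the charts of the incomplete beta integral. -/

namespace Pool.Agent.GAM

open Complex Filter Topology

namespace Cha

theorem prim {U : Set ℂ} (hU : IsOpen U) (hs : StarConvex ℝ 0 U) {g : ℂ → ℂ}
    (hg : DifferentiableOn ℂ g U) {X : ℂ} (hX : X ∈ U) :
    HasDerivAt (fun Y : ℂ => ∫ s in (0 : ℝ)..1, Y * g (s * Y)) (g X) X := by
  obtain ⟨ε, ε0, hε⟩ := Metric.isOpen_iff.1 hU X hX
  have hc : Convex ℝ (convexJoin ℝ {0} (Metric.ball X ε)) :=
    (convex_singleton 0).convexJoin (convex_ball X ε)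
  have hsub : convexJoin ℝ {0} (Metric.ball X ε) ⊆ U := by
    rw [convexJoin_singleton_left]
    exact Set.iUnion₂_subset fun Y hY => hs.segment_subset (hε hY)
  have hb : Metric.ball X ε ⊆ convexJoin ℝ {0} (Metric.ball X ε) :=
    subset_convexJoin_right (Set.singleton_nonempty 0)
  obtain ⟨G, hG⟩ := hc.exists_forall_hasDerivWithinAt (hg.mono hsub)
  have h1 : HasDerivAt (fun Y => G Y - G 0) (g X) X :=
    ((hG X (hb (Metric.mem_ball_self ε0))).hasDerivAt
      (mem_of_superset (Metric.ball_mem_nhds X ε0) hb)).sub_const _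
  refine h1.congr_of_eventuallyEq ?_
  filter_upwards [Metric.ball_mem_nhds X ε0] with Y hY
  have hm : ∀ s ∈ Set.Icc (0 : ℝ) 1, (s : ℂ) * Y ∈ convexJoin ℝ {0} (Metric.ball X ε) :=
    fun s h => segment_subset_convexJoin (Set.mem_singleton (0 : ℂ)) hY
      ⟨1 - s, s, sub_nonneg.2 h.2, h.1, by ring, by simp⟩
  have hd : ∀ s ∈ Set.Icc (0 : ℝ) 1,
      HasDerivWithinAt (fun s : ℝ => G (s * Y)) (Y * g (s * Y)) (Set.Icc 0 1) s := by
    intro s h
    have h2 : HasDerivWithinAt (fun s : ℝ => (s : ℂ) * Y) Y (Set.Icc 0 1) s := by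
      simpa using ((hasDerivAt_id (s : ℂ)).mul_const Y).comp_ofReal.hasDerivWithinAt
    exact (hG _ (hm s h)).scomp s h2 hm
  have hi : ContinuousOn (fun s : ℝ => Y * g (s * Y)) (Set.Icc 0 1) :=
    continuousOn_const.mul (hg.continuousOn.comp (by fun_prop) fun s h => hsub (hm s h))
  rw [intervalIntegral.integral_eq_sub_of_hasDerivAt_of_le zero_le_one
    (fun s h => (hd s h).continuousWithinAt)
    (fun s h => (hd s (Set.Ioo_subset_Icc_self h)).hasDerivAt (Icc_mem_nhds h.1 h.2))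
    (hi.intervalIntegrable_of_Icc zero_le_one)]
  simp

theorem opn (N : ℕ) : IsOpen (Om N) := isOpen_slitPlane.preimage (by fun_prop)

theorem zero_mem {N : ℕ} (hN : 0 < N) : (0 : ℂ) ∈ Om N := by simp [Om, hN.ne']

theorem star (N : ℕ) : StarConvex ℝ 0 (Om N) := by
  intro X hX a b ha hb hab
  have h1 : b ^ N ≤ 1 := pow_le_one₀ hb (by linarith)
  have h2 := starConvex_one_slitPlane hX (sub_nonneg.2 h1) (pow_nonneg hb N) (by ring)
  have e : 1 - (a • (0 : ℂ) + b • X) ^ N = (1 - b ^ N) • (1 : ℂ) + b ^ N • (1 - X ^ N) := by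
    simp [mul_pow]
    ring
  show _ ∈ slitPlane
  rwa [e]

theorem pw {N : ℕ} (r : ℂ) {X : ℂ} (hX : X ∈ Om N) :
    HasDerivAt (fun Y : ℂ => (1 - Y ^ N) ^ r) (r * (1 - X ^ N) ^ (r - 1) * -(N * X ^ (N - 1))) X :=
  ((hasDerivAt_pow N X).const_sub 1).cpow_const hX

open Polynomial in
theorem alg {N : ℕ} (hN : 0 < N) (n : ℕ) : ∀ (p : ℚ[X]) (r : ℚ),
    Alg (iteratedDeriv n (fun Y : ℂ => aeval Y p * (1 - Y ^ N) ^ (r : ℂ)) 0) := by
  induction n with
  | zero =>
    intro p r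
    simpa [hN.ne', ← coeff_zero_eq_aeval_zero'] using isAlgebraic_algebraMap (A := ℂ) (p.coeff 0)
  | succ n ih =>
    intro p r
    have e : deriv (fun Y : ℂ => aeval Y p * (1 - Y ^ N) ^ (r : ℂ)) =ᶠ[𝓝 0] fun Y : ℂ =>
        aeval Y (derivative p * (1 - X ^ N) - C (r * N) * X ^ (N - 1) * p) *
          (1 - Y ^ N) ^ ((r - 1 : ℚ) : ℂ) := by
      filter_upwards [(opn N).mem_nhds (zero_mem hN)] with Y hY
      rw [((p.hasDerivAt_aeval Y).fun_mul (pw r hY)).deriv]
      have e1 : (1 - Y ^ N) ^ (r : ℂ) = (1 - Y ^ N) ^ ((r : ℂ) - 1) * (1 - Y ^ N) := by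
        rw [cpow_sub _ _ (slitPlane_ne_zero hY), cpow_one,
          div_mul_cancel₀ _ (slitPlane_ne_zero hY)]
      rw [e1]
      simp
      ring
    rw [iteratedDeriv_succ', e.iteratedDeriv_eq]
    exact ih _ _

theorem der (N A B : ℕ) {X : ℂ} (hX : X ∈ Om N) :
    HasDerivAt (ch N A B) (N * X ^ (A - 1) * (1 - X ^ N) ^ ((B : ℂ) / N - 1)) X := by
  have h := prim (opn N) (star N)
    (g := fun Y => N * Y ^ (A - 1) * (1 - Y ^ N) ^ ((B : ℂ) / N - 1))
    (fun Y hY => (DifferentiableAt.mul (by fun_prop)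
      (pw _ hY).differentiableAt).differentiableWithinAt) hX
  convert h using 2
  rw [ch]
  congr 1
  funext s
  ring

end Cha

open Cha in
theorem chA : AllCh := by
  intro N A B hN hA
  refine ⟨DifferentiableOn.analyticOnNhd (fun X hX =>
    (der N A B hX).differentiableAt.differentiableWithinAt) (opn N), by simp [ch],
    fun X hX => der N A B hX, fun n => ?_, fun i X => ?_, opn N, star N⟩
  · rcases n with _ | n
    · simpa [ch] using isAlgebraic_zero
    · have e : deriv (ch N A B) =ᶠ[𝓝 0] fun Y : ℂ =>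
          Polynomial.aeval Y (Polynomial.C (N : ℚ) * Polynomial.X ^ (A - 1)) *
            (1 - Y ^ N) ^ (((B : ℚ) / N - 1 : ℚ) : ℂ) := by
        filter_upwards [(opn N).mem_nhds (zero_mem hN)] with Y hY
        rw [(der N A B hY).deriv]
        simp
      rw [iteratedDeriv_succ', e.iteratedDeriv_eq]
      exact alg hN n _ _
  · have N0 : (N : ℂ) ≠ 0 := Nat.cast_ne_zero.2 hN.ne'
    have e1 : ee (i / N) ^ N = 1 := by
      rw [ee, ← Complex.exp_nat_mul, ← Complex.exp_nat_mul_two_pi_mul_I i]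
      congr 1
      field_simp
    have e2 : ee (i * A / N) = ee (i / N) * ee (i / N) ^ (A - 1) := by
      rw [← pow_succ', Nat.sub_add_cancel hA, ee, ee, ← Complex.exp_nat_mul]
      congr 1
      ring
    rw [ch, ch, ← intervalIntegral.integral_const_mul]
    congr 1
    funext s
    rw [mul_left_comm (s : ℂ), mul_pow (ee _), mul_pow (ee _), e1, one_mul, e2]
    ring

end Pool.Agent.GAM

end MrgPart1

-- ======== part 2: formerly Pool.Agent.MP_cbf1af_ag.gam.CmAlg
section MrgPart2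

/-! PROJECT GAM, row CMALG: theta quotients are algebraic at isolated fixed points. -/

namespace Pool.Agent.GAM

open Matrix Complex Filter Topology MvPolynomial
open Pool.Agent.CMP (Qb)

noncomputable section

namespace Cmalg

variable {κ : Type} [Fintype κ] [DecidableEq κ]

/-- the symmetric matrix with given coordinates -/
def sy (κ : Type) [Fintype κ] [DecidableEq κ] : (Sym2 κ → ℂ) →L[ℂ] (κ → κ → ℂ) :=
  ContinuousLinearMap.pi fun i => ContinuousLinearMap.pi fun j =>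
    ContinuousLinearMap.proj (R := ℂ) (φ := fun _ : Sym2 κ => ℂ) s(i, j)

theorem sy_apply (y : Sym2 κ → ℂ) (i j : κ) : sy κ y i j = y s(i, j) := rfl

theorem sy_symm (y : Sym2 κ → ℂ) : (Matrix.of (sy κ y)).IsSymm := by
  refine Matrix.IsSymm.ext fun i j => ?_
  show y s(j, i) = y s(i, j)
  rw [Sym2.eq_swap]

theorem sy_inj : Function.Injective (sy κ) := by
  intro y y' h
  funext a
  induction a using Sym2.ind with
  | h i j => exact congrFun (congrFun h i) j

theorem sy_surj (S : Matrix κ κ ℂ) (hS : S.IsSymm) : ∃ y, sy κ y = S :=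
  ⟨Sym2.lift ⟨fun i j => S i j, fun i j => (hS.apply i j).symm⟩, rfl⟩

/-- quotient of theta constants as a function on all matrices -/
def qq (g f₀ : (κ → ℚ) → ℂ) (t : κ → κ → ℂ) : ℂ := th g (Matrix.of t) / th f₀ (Matrix.of t)

theorem th_ana (hA : ThA κ) {g : (κ → ℚ) → ℂ} {τ : Matrix κ κ ℂ} (hg : Sch g) (hτ : InH τ) :
    AnalyticAt ℂ (fun t : κ → κ → ℂ => th g (Matrix.of t)) τ := by
  have h := hA.ana g τ 0 hg hτ
  have h2 : AnalyticAt ℂ (fun t : κ → κ → ℂ => ((t, 0) : (κ → κ → ℂ) × (κ → ℂ))) τ :=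
    analyticAt_id.prod analyticAt_const
  exact AnalyticAt.comp (f := fun t : κ → κ → ℂ => ((t, 0) : (κ → κ → ℂ) × (κ → ℂ))) h h2

theorem qq_ana (hA : ThA κ) {g f₀ : (κ → ℚ) → ℂ} {τ : Matrix κ κ ℂ} (hg : Sch g) (hf : Sch f₀)
    (hτ : InH τ) (h0 : th f₀ τ ≠ 0) : AnalyticAt ℂ (qq g f₀) τ :=
  (th_ana hA hg hτ).div (th_ana hA hf hτ) h0

theorem der_div (δ : Derivation ℚ ℂ ℂ) (a b : ℂ) (hb : b ≠ 0) :
    δ (a / b) = (δ a * b - a * δ b) / b ^ 2 := by
  have h : δ a = δ (a / b * b) := by rw [div_mul_cancel₀ _ hb]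
  rw [Derivation.leibniz, smul_eq_mul, smul_eq_mul] at h
  rw [h]
  field_simp
  ring

theorem fder_div {X : Type} [NormedAddCommGroup X] [NormedSpace ℂ X] {u w : X → ℂ} {x : X}
    (hu : DifferentiableAt ℂ u x) (hw : DifferentiableAt ℂ w x) (h0 : w x ≠ 0) (s : X) :
    fderiv ℂ (fun y => u y / w y) x s = (fderiv ℂ u x s * w x - u x * fderiv ℂ w x s) / w x ^ 2 := by
  have hd : DifferentiableAt ℂ (fun y => u y / w y) x := by
    simp only [div_eq_mul_inv]
    exact hu.mul (hw.inv h0)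
  have he : u =ᶠ[𝓝 x] fun y => u y / w y * w y := by
    filter_upwards [hw.continuousAt.eventually_ne h0] with y hy
    rw [div_mul_cancel₀ _ hy]
  have h := he.fderiv_eq (𝕜 := ℂ)
  rw [fderiv_fun_mul hd hw] at h
  rw [h]
  simp only [_root_.add_apply, _root_.smul_apply, smul_eq_mul]
  field_simp
  ring

end Cmalg

open Cmalg in
theorem cmAlg (hA : All ThA) (_hB : All ThB) (hT : All ThC) (hC : All Act) (h1 : All Weil1)
    (hW : All Weil) (hS : All Sieg) (hV : Val) (hD : DerEx) : All CmAlg := by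
  intro κ _ _ τ ⟨hτ, γ, hγ, hfix, hiso⟩
  obtain ⟨f₀, hf₀, h0⟩ := (hT κ).nz τ hτ
  obtain ⟨y₀, hy₀⟩ := sy_surj τ hτ.1
  have hy₀' : Matrix.of (sy κ y₀) = τ := hy₀
  obtain ⟨f, hf, hinj⟩ := (hT κ).coord (Sym2 κ) (sy κ) y₀ f₀ ((sy κ).analyticAt y₀)
    (by rw [hy₀']; exact hτ) (Eventually.of_forall sy_symm)
    (by rw [(sy κ).fderiv]; exact sy_inj) hf₀ (by rw [hy₀']; exact h0)
  have hqa : ∀ g, Sch g → AnalyticAt ℂ (qq g f₀) (sy κ y₀) := fun g hg => by
    rw [hy₀]; exact qq_ana (hA κ) hg hf₀ hτ h0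
  have hqs : ∀ g, Sch g → AnalyticAt ℂ (fun y => qq g f₀ (sy κ y)) y₀ := fun g hg =>
    (hqa g hg).comp ((sy κ).analyticAt y₀)
  have hcont : Tendsto (sy κ) (𝓝 y₀) (𝓝 (τ : κ → κ → ℂ)) := by
    rw [← hy₀]; exact (sy κ).continuous.continuousAt
  have hH : ∀ᶠ y in 𝓝 y₀, InH (Matrix.of (sy κ y)) := by
    filter_upwards [hcont.eventually ((hC κ).opn τ hτ)] with y hy
    exact hy (sy_symm y)
  have hne : ∀ᶠ y in 𝓝 y₀, th f₀ (Matrix.of (sy κ y)) ≠ 0 :=
    hcont.eventually ((th_ana (hA κ) hf₀ hτ).continuousAt.eventually_ne h0)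
  have hinj' : Function.Injective (fderiv ℂ (fun y k => qq (f k) f₀ (sy κ y)) y₀) := hinj
  have hpi : ∀ s k, fderiv ℂ (fun y k => qq (f k) f₀ (sy κ y)) y₀ s k =
      fderiv ℂ (fun y => qq (f k) f₀ (sy κ y)) y₀ s := by
    intro s k
    rw [fderiv_pi fun k => (hqs _ (hf k)).differentiableAt]
    rfl
  have key : ∀ (δ : Derivation ℚ ℂ ℂ) g, Sch g → δ (qq g f₀ (sy κ y₀)) = 0 := by
    intro δ
    have hsurj : Function.Surjective (fderiv ℂ (fun y k => qq (f k) f₀ (sy κ y)) y₀) :=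
      LinearMap.injective_iff_surjective.mp
        (show Function.Injective
          (fderiv ℂ (fun y k => qq (f k) f₀ (sy κ y)) y₀).toLinearMap from hinj')
    obtain ⟨s, hs⟩ := hsurj fun k => δ (qq (f k) f₀ (sy κ y₀))
    have hs' : ∀ k, fderiv ℂ (fun y => qq (f k) f₀ (sy κ y)) y₀ s = δ (qq (f k) f₀ (sy κ y₀)) :=
      fun k => by rw [← hpi, hs]
    have hall : ∀ g, Sch g →
        fderiv ℂ (fun y => qq g f₀ (sy κ y)) y₀ s = δ (qq g f₀ (sy κ y₀)) := by
      intro g hg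
      obtain ⟨P, hP, hrel⟩ := hS κ (Option (Sym2 κ)) f₀ (fun o => o.elim g f) hf₀
        (fun o => by cases o with
          | none => exact hg
          | some k => exact hf k) (by simp)
      refine (hV (Sym2 κ) y₀ (fun k y => qq (f k) f₀ (sy κ y)) (fun y => qq g f₀ (sy κ y)) P
        (fun k => hqs _ (hf k)) (hqs g hg) hinj' hP ?_).1 δ s hs'
      filter_upwards [hH, hne] with y hy hy'
      rw [← hrel _ hy hy']
      congr 2
      funext o
      cases o <;> rfl
    obtain ⟨j, hj, hgood⟩ := hW κ γ hγ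
    obtain ⟨g₀, hg₀, hr₀⟩ := hgood f₀ hf₀
    obtain ⟨hact, hder⟩ := (hC κ).der γ τ hγ hτ
    have hK := ((hC κ).inH γ τ hγ hτ).2.1
    have hg0 : th g₀ τ ≠ 0 := by
      intro h
      have h2 := ((h1 κ).relGr γ j f₀ g₀ τ hγ hg₀ hr₀ hτ).1
      rw [hfix, h, mul_zero] at h2
      exact h0 h2
    set S' : Matrix κ κ ℂ := Matrix.of
      (fderiv ℂ (fun t : κ → κ → ℂ => fun i j => act γ (Matrix.of t) i j) τ (sy κ s)) with hS'
    have hKS : (kk γ τ)ᵀ * S' * kk γ τ = Matrix.of (sy κ s) := hder (Matrix.of (sy κ s))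
    have hsym : S'.IsSymm := by
      have h2 : (kk γ τ)ᵀ * S'ᵀ * kk γ τ = (kk γ τ)ᵀ * S' * kk γ τ := by
        have h3 := congrArg Matrix.transpose hKS
        rw [Matrix.transpose_mul, Matrix.transpose_mul, Matrix.transpose_transpose,
          ← Matrix.mul_assoc, (sy_symm s).eq] at h3
        rw [h3, hKS]
      have hu : IsUnit (kk γ τ) := (Matrix.isUnit_iff_isUnit_det _).mpr hK
      have hu' : IsUnit (kk γ τ)ᵀ := (Matrix.isUnit_iff_isUnit_det _).mpr (by
        rw [Matrix.det_transpose]; exact hK)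
      exact hu'.mul_left_cancel (hu.mul_right_cancel h2)
    obtain ⟨s', hs'e⟩ := sy_surj S' hsym
    have hss : s' = s := by
      apply hinj'
      funext k
      rw [hpi, hpi, hs' k]
      obtain ⟨g, hg, hr⟩ := hgood (f k) (hf k)
      have hw0 : qq g₀ f₀ (sy κ y₀) ≠ 0 := by
        rw [qq, hy₀']; exact div_ne_zero hg0 h0
      have hev : (fun y => qq (f k) f₀ (fun i j => act γ (Matrix.of (sy κ y)) i j)) =ᶠ[𝓝 y₀]
          fun y => qq g f₀ (sy κ y) / qq g₀ f₀ (sy κ y) := by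
        filter_upwards [hH, hne] with y hy hy'
        have e1 := ((h1 κ).relGr γ j f₀ g₀ _ hγ hg₀ hr₀ hy).1
        have e2 := ((h1 κ).relGr γ j (f k) g _ hγ hg hr hy).1
        show th (f k) (act γ (Matrix.of (sy κ y))) / th f₀ (act γ (Matrix.of (sy κ y))) = _
        rw [e1, e2, mul_div_mul_left _ _ (hj _ hy), qq, qq, div_div_div_cancel_right₀ hy']
      have hval := hev.eq_of_nhds
      have hfx : (fun i j => act γ (Matrix.of (sy κ y₀)) i j) = sy κ y₀ := by
        rw [hy₀', hfix, hy₀]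
      rw [hfx] at hval
      have hd := congrArg (fun L : (Sym2 κ → ℂ) →L[ℂ] ℂ => L s) (hev.fderiv_eq (𝕜 := ℂ))
      rw [fder_div (hqs g hg).differentiableAt (hqs g₀ hg₀).differentiableAt hw0, hall g hg,
        hall g₀ hg₀, ← der_div δ _ _ hw0, ← hval] at hd
      rw [← hd]
      have a1 : HasFDerivAt (fun t : κ → κ → ℂ => fun i j => act γ (Matrix.of t) i j)
          (fderiv ℂ (fun t : κ → κ → ℂ => fun i j => act γ (Matrix.of t) i j) τ) (sy κ y₀) := by
        rw [hy₀]; exact hact.differentiableAt.hasFDerivAt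
      have a2 : HasFDerivAt (qq (f k) f₀) (fderiv ℂ (qq (f k) f₀) (sy κ y₀))
          (fun i j => act γ (Matrix.of (sy κ y₀)) i j) := by
        rw [hfx]; exact (hqa _ (hf k)).differentiableAt.hasFDerivAt
      have a3 := (a2.comp y₀ (a1.comp y₀ (sy κ).hasFDerivAt)).fderiv
      have a4 := ((hqa _ (hf k)).differentiableAt.hasFDerivAt.comp y₀ (sy κ).hasFDerivAt).fderiv
      have b3 : fderiv ℂ (fun y => qq (f k) f₀ (fun i j => act γ (Matrix.of (sy κ y)) i j)) y₀ s =
          fderiv ℂ (qq (f k) f₀) (sy κ y₀) S' :=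
        congrArg (fun L : (Sym2 κ → ℂ) →L[ℂ] ℂ => L s) a3
      have b4 : fderiv ℂ (fun y => qq (f k) f₀ (sy κ y)) y₀ s' =
          fderiv ℂ (qq (f k) f₀) (sy κ y₀) (sy κ s') :=
        congrArg (fun L : (Sym2 κ → ℂ) →L[ℂ] ℂ => L s') a4
      rw [b3, b4, hs'e]
    have hS0 : S' = 0 := by
      refine hiso S' hsym ?_
      rw [hKS, ← hss]
      exact hs'e
    have hs0 : s = 0 := by
      apply sy_inj
      rw [map_zero, ← hss, hs'e, hS0]
      rfl
    intro g hg
    rw [← hall g hg, hs0, map_zero]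
  have halg : ∀ g, Sch g → Alg (th g τ / th f₀ τ) := by
    intro g hg
    refine hD _ fun δ => ?_
    have h := key δ g hg
    rwa [qq, hy₀'] at h
  refine ⟨hτ, fun g g' hg hg' _ => ?_⟩
  rw [← div_div_div_cancel_right₀ h0 (th g τ) (th g' τ), div_eq_mul_inv]
  exact (halg g hg).mul (halg g' hg').inv

end

end Pool.Agent.GAM

end MrgPart2

-- ======== part 3: formerly Pool.Agent.MP_cbf1af_ag.gam.Cs
section MrgPart3

/-! PROJECT GAM, row CS: algebraic dependence on a compact quotient (Siegel's argument). -/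

namespace Pool.Agent.GAM

open Filter Topology MvPolynomial Asymptotics Metric

noncomputable section

namespace Csa

/-- monomial functions with all exponents below `T` -/
def mono {ι : Type} [Fintype ι] {T : ℕ} (m : ι → Fin T) (v : ι → ℂ) : ℂ := ∏ i, v i ^ (m i : ℕ)

theorem diag_mem {ι : Type} [Fintype ι] (T j : ℕ) (hj : j < T)
    (M : ContinuousMultilinearMap ℂ (fun _ : Fin j => ι → ℂ) ℂ) :
    (fun v : ι → ℂ => M fun _ => v) ∈
      Submodule.span ℂ (Set.range (mono : (ι → Fin T) → (ι → ℂ) → ℂ)) := by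
  classical
  have key : (fun v : ι → ℂ => M fun _ => v) =
      ∑ r : Fin j → ι, M (fun l => Pi.single (r l) 1) • fun v : ι → ℂ => ∏ l, v (r l) := by
    funext v
    have hv : (fun _ : Fin j => v) =
        fun _ : Fin j => ∑ i, v i • (Pi.single i (1 : ℂ) : ι → ℂ) := by
      funext _ i
      simp [Finset.sum_apply, Pi.single_apply]
    rw [hv, M.map_sum, Finset.sum_apply]
    refine Finset.sum_congr rfl fun r _ => ?_
    rw [M.map_smul_univ]
    simp [mul_comm]
  rw [key]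
  refine Submodule.sum_mem _ fun r _ => Submodule.smul_mem _ _ (Submodule.subset_span ?_)
  have hc : ∀ i, (Finset.univ.filter fun l => r l = i).card < T := fun i =>
    lt_of_le_of_lt ((Finset.card_filter_le _ _).trans (by simp)) hj
  refine ⟨fun i => ⟨_, hc i⟩, ?_⟩
  funext v
  simp only [mono]
  rw [← Finset.prod_fiberwise' Finset.univ r v]
  simp

theorem psum {ι : Type} [Fintype ι] [DecidableEq ι] (T : ℕ) (p : FormalMultilinearSeries ℂ (ι → ℂ) ℂ) :
    ∃ c : (ι → Fin T) → ℂ, ∀ v, p.partialSum T v = ∑ m, c m * mono m v := by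
  have h : (fun v => p.partialSum T v) ∈
      Submodule.span ℂ (Set.range (mono : (ι → Fin T) → (ι → ℂ) → ℂ)) := by
    have : (fun v => p.partialSum T v) =
        ∑ j ∈ Finset.range T, fun v : ι → ℂ => p j fun _ => v := by
      funext v
      simp [FormalMultilinearSeries.partialSum, Finset.sum_apply]
    rw [this]
    exact Submodule.sum_mem _ fun j hj => diag_mem T j (Finset.mem_range.1 hj) _
  obtain ⟨c, hc⟩ := (Submodule.mem_span_range_iff_exists_fun ℂ).1 h
  refine ⟨c, fun v => ?_⟩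
  have := congrFun hc v
  simpa [Finset.sum_apply] using this.symm

/-- a linear combination which vanishes to order `T` at finitely many points -/
theorem jet {ι β σ : Type} [Fintype ι] [Fintype β] [Fintype σ] (T : ℕ) (x : β → ι → ℂ)
    (g : β → σ → (ι → ℂ) → ℂ) (hg : ∀ b e, AnalyticAt ℂ (g b e) (x b))
    (hc : Fintype.card β * T ^ Fintype.card ι < Fintype.card σ) :
    ∃ a : σ → ℂ, a ≠ 0 ∧ ∀ b,
      (fun y => ∑ e, a e * g b e (x b + y)) =O[𝓝 0] fun y : ι → ℂ => ‖y‖ ^ T := by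
  classical
  choose p hp using hg
  choose c hc' using fun b e => psum T (p b e)
  let A : Matrix (β × (ι → Fin T)) σ ℂ := fun bm e => c bm.1 e bm.2
  have hk : LinearMap.ker (Matrix.mulVecLin A) ≠ ⊥ := by
    apply LinearMap.ker_ne_bot_of_finrank_lt
    simpa using hc
  obtain ⟨a, ha, ha0⟩ := (Submodule.ne_bot_iff _).1 hk
  refine ⟨a, ha0, fun b => ?_⟩
  have hz : ∀ m, ∑ e, c b e m * a e = 0 := fun m => by
    have := congrFun (LinearMap.mem_ker.1 ha) (b, m)
    simpa [A, Matrix.mulVec, dotProduct] using this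
  have h1 : (fun y => ∑ e, a e * g b e (x b + y)) =
      fun y => ∑ e, a e * (g b e (x b + y) - (p b e).partialSum T y) := by
    funext y
    simp only [mul_sub, Finset.sum_sub_distrib, hc', Finset.mul_sum]
    rw [Finset.sum_comm]
    have : ∀ m : ι → Fin T, ∑ e, a e * (c b e m * mono m y) = 0 := fun m => by
      have h2 : ∑ e, a e * (c b e m * mono m y) = (∑ e, c b e m * a e) * mono m y := by
        rw [Finset.sum_mul]
        exact Finset.sum_congr rfl fun e _ => by ring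
      rw [h2, hz, zero_mul]
    simp [this]
  rw [h1]
  exact IsBigO.fun_sum fun e _ => ((hp b e).isBigO_sub_partialSum_pow T).const_mul_left _

/-- Schwarz lemma -/
theorem schwarz {ι : Type} [Fintype ι] (G : (ι → ℂ) → ℂ) (x z : ι → ℂ) (r S : ℝ) (T : ℕ)
    (hT : 0 < T) (hr : 0 < r) (hd : DifferentiableOn ℂ G (ball x r))
    (hb : ∀ y ∈ ball x r, ‖G y‖ ≤ S)
    (ho : (fun y => G (x + y)) =O[𝓝 0] fun y : ι → ℂ => ‖y‖ ^ T) (hz : z ∈ ball x (r / 2)) :
    ‖G z‖ ≤ S * (1 / 2) ^ T := by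
  obtain ⟨n, rfl⟩ : ∃ n, T = n + 1 := ⟨T - 1, by omega⟩
  have h0 : G x = 0 := by
    obtain ⟨C, hC⟩ := ho.bound
    have := hC.self_of_nhds
    simpa using this
  have hS : 0 ≤ S := le_trans (norm_nonneg _) (hb x (mem_ball_self hr))
  have h1 : (fun y : ι → ℂ => ‖y‖ ^ (n + 1)) =o[𝓝 0] fun y => ‖y‖ ^ n :=
    isLittleO_norm_pow_norm_pow (Nat.lt_succ_self n)
  have h2 : Tendsto (fun w : ι → ℂ => w - x) (𝓝 x) (𝓝 0) := by
    have : Continuous fun w : ι → ℂ => w - x := by fun_prop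
    simpa using this.tendsto x
  have h3 : (fun w => G w - G x) =o[𝓝 x] fun w => ‖w - x‖ ^ n := by
    have := (ho.trans_isLittleO h1).comp_tendsto h2
    simpa [Function.comp_def, h0] using this
  have h4 := Complex.dist_le_mul_div_pow_of_mapsTo_ball_of_isLittleO (f := G) (c := x) (z := z)
    (R₁ := r) (R₂ := S) (n := n) hd (fun y hy => by simpa [h0] using hb y hy) h3
    (ball_subset_ball (by linarith) hz)
  rw [h0, dist_zero_right] at h4
  refine h4.trans (mul_le_mul_of_nonneg_left (pow_le_pow_left₀ (by positivity) ?_ _) hS)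
  rw [div_le_iff₀ hr]
  have := mem_ball.1 hz
  linarith

/-- many exponents of the same degree -/
theorem expo {κ : Type} [Fintype κ] (d N : ℕ) (hd : d + 1 < Fintype.card κ) :
    ∃ (n : ℕ) (σ : Type) (_ : Fintype σ) (ex : σ → κ →₀ ℕ), 0 < n ∧ Function.Injective ex ∧
      (∀ e, ∑ i, ex e i = n) ∧ N * n ^ d < Fintype.card σ := by
  classical
  obtain ⟨k₀⟩ : Nonempty κ := Fintype.card_pos_iff.1 (by omega)
  set m := Fintype.card {i // i ≠ k₀} with hm
  have hm' : d + 1 ≤ m := by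
    have : m = Fintype.card κ - 1 := by simp [hm, Fintype.card_subtype_compl]
    omega
  set k := N * m ^ d + 1 with hk
  have hk0 : 0 < k := by omega
  let ex : ({i // i ≠ k₀} → Fin k) → κ →₀ ℕ := fun e => Finsupp.equivFunOnFinite.symm
    fun i => if h : i = k₀ then m * k - ∑ j, (e j : ℕ) else e ⟨i, h⟩
  have hex : ∀ e (j : {i // i ≠ k₀}), ex e j = e j := fun e j => by simp [ex, j.2]
  refine ⟨m * k, _, inferInstance, ex, Nat.mul_pos (by omega) hk0, fun e e' h => ?_, fun e => ?_,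
    ?_⟩
  · funext j
    apply Fin.ext
    rw [← hex, ← hex, h]
  · rw [Fintype.sum_eq_add_sum_subtype_ne _ k₀]
    simp only [hex]
    have h1 : ∑ j, (e j : ℕ) ≤ m * k := by
      have := Finset.sum_le_card_nsmul Finset.univ (fun j => (e j : ℕ)) k fun j _ => (e j).2.le
      simpa [hm] using this
    have h2 : ex e k₀ = m * k - ∑ j, (e j : ℕ) := by simp [ex]
    omega
  · rw [Fintype.card_fun, Fintype.card_fin, ← hm, mul_pow, ← mul_assoc]
    calc N * m ^ d * k ^ d < k * k ^ d := Nat.mul_lt_mul_of_pos_right (by omega) (by positivity)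
      _ = k ^ (d + 1) := by ring
      _ ≤ k ^ m := Nat.pow_le_pow_right hk0 hm'

end Csa

open Csa in
theorem cs : Cs := by
  intro ι α κ _ _ _ U K F hU hF hC hcard
  classical
  -- radii
  have h1 : ∀ a, ∃ r : ℝ, 0 < r ∧ cthickening r (K a) ⊆ U a := fun a =>
    (hU a).2.1.exists_cthickening_subset_open (hU a).1 (hU a).2.2
  choose r hr hrU using h1
  choose C₀ hC₀ using fun a => hC a _ ((hU a).2.1.cthickening (r := r a)) (hrU a)
  obtain ⟨C, hC1, hCC⟩ : ∃ C : ℝ, 1 ≤ C ∧ ∀ a, C₀ a ≤ C := by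
    obtain ⟨C, hC⟩ := (Set.finite_range C₀).bddAbove
    exact ⟨max 1 C, le_max_left _ _, fun a => (hC ⟨a, rfl⟩).trans (le_max_right _ _)⟩
  obtain ⟨L, hL⟩ : ∃ L : ℕ, 2 * C ≤ 2 ^ L := by
    obtain ⟨L, hL⟩ := pow_unbounded_of_one_lt (2 * C) (one_lt_two (α := ℝ))
    exact ⟨L, hL.le⟩
  have hL0 : 0 < L := by
    rcases Nat.eq_zero_or_pos L with h | h
    · rw [h, pow_zero] at hL
      linarith
    · exact h
  -- centres
  have h2 : ∀ a, ∃ t : Finset (ι → ℂ), (∀ x ∈ t, x ∈ K a) ∧ K a ⊆ ⋃ x ∈ t, ball x (r a / 2) :=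
    fun a => (hU a).2.1.elim_nhds_subcover (fun x => ball x (r a / 2))
      fun x _ => ball_mem_nhds x (by linarith [hr a])
  choose t htK hKt using h2
  let β := Σ a, t a
  obtain ⟨n, σ, _, ex, hn, hinj, hdeg, hcnt⟩ :=
    expo (κ := κ) (Fintype.card ι) (Fintype.card β * L ^ Fintype.card ι) hcard
  let g : α → σ → (ι → ℂ) → ℂ := fun a e x => ∏ i, F a i x ^ ex e i
  have hg : ∀ a e, ∀ x ∈ U a, AnalyticAt ℂ (g a e) x := fun a e x hx =>
    Finset.analyticAt_fun_prod _ fun i _ => (hF a i x hx).pow _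
  obtain ⟨c, hc0, hc⟩ := jet (L * n) (fun b : β => (b.2 : ι → ℂ)) (fun b => g b.1)
    (fun b e => hg b.1 e _ ((hU b.1).2.2 (htK b.1 _ b.2.2))) (by rw [mul_pow, ← mul_assoc]; exact hcnt)
  let G : α → (ι → ℂ) → ℂ := fun a x => ∑ e, c e * g a e x
  have hG : ∀ a, ∀ x ∈ U a, AnalyticAt ℂ (G a) x := fun a x hx =>
    Finset.analyticAt_fun_sum _ fun e _ => analyticAt_const.mul (hg a e x hx)
  have hhom : ∀ a b x y (s : ℂ), (∀ i, F a i x = s * F b i y) → G a x = s ^ n * G b y := by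
    intro a b x y s h
    simp only [G, g, h, mul_pow, Finset.prod_mul_distrib, Finset.prod_pow_eq_pow_sum, hdeg,
      Finset.mul_sum]
    exact Finset.sum_congr rfl fun e _ => by ring
  -- the bound improves itself
  have step : ∀ S : ℝ, 0 ≤ S → (∀ a, ∀ y ∈ K a, ‖G a y‖ ≤ S) →
      ∀ a, ∀ y ∈ K a, ‖G a y‖ ≤ S * (1 / 2) := by
    intro S hS h a y hy
    obtain ⟨x, hx, hyx⟩ := Set.mem_iUnion₂.1 (hKt a hy)
    have hsub : ball x (r a) ⊆ cthickening (r a) (K a) :=
      ball_subset_closedBall.trans (closedBall_subset_cthickening (htK a x hx) _)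
    have hb : ∀ w ∈ ball x (r a), ‖G a w‖ ≤ C ^ n * S := by
      intro w hw
      obtain ⟨b, y', hy', s, hs, hsF⟩ := hC₀ a w (hsub hw)
      rw [hhom a b w y' s hsF, norm_mul, norm_pow]
      exact mul_le_mul (pow_le_pow_left₀ (norm_nonneg _) (hs.trans (hCC a)) _) (h b y' hy')
        (norm_nonneg _) (by positivity)
    have := schwarz (G a) x y (r a) (C ^ n * S) (L * n) (Nat.mul_pos hL0 hn) (hr a)
      (fun w hw => (hG a w (hrU a (hsub hw))).differentiableAt.differentiableWithinAt) hb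
      (hc ⟨a, x, hx⟩) hyx
    refine this.trans ?_
    have h3 : C * (1 / 2) ^ L ≤ 1 / 2 := by
      rw [one_div, inv_pow, ← div_eq_mul_inv, div_le_iff₀ (by positivity)]
      linarith
    have h4 : (C * (1 / 2) ^ L) ^ n ≤ 1 / 2 :=
      (pow_le_pow_left₀ (by positivity) h3 n).trans
        (pow_le_of_le_one (by norm_num) (by norm_num) hn.ne')
    calc C ^ n * S * (1 / 2) ^ (L * n) = S * (C * (1 / 2) ^ L) ^ n := by
          rw [mul_pow, pow_mul]; ring
      _ ≤ S * (1 / 2) := mul_le_mul_of_nonneg_left h4 hS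
  obtain ⟨S, hS0, hS⟩ : ∃ S : ℝ, 0 ≤ S ∧ ∀ a, ∀ y ∈ K a, ‖G a y‖ ≤ S := by
    have : ∀ a, ∃ S : ℝ, ∀ y ∈ K a, ‖G a y‖ ≤ S := fun a =>
      (hU a).2.1.exists_bound_of_continuousOn fun y hy =>
        (hG a y ((hU a).2.2 hy)).continuousAt.continuousWithinAt
    choose S₀ hS₀ using this
    obtain ⟨S, hS⟩ := (Set.finite_range S₀).bddAbove
    exact ⟨max 0 S, le_max_left _ _, fun a y hy =>
      (hS₀ a y hy).trans ((hS ⟨a, rfl⟩).trans (le_max_right _ _))⟩
  have iter : ∀ j : ℕ, ∀ a, ∀ y ∈ K a, ‖G a y‖ ≤ S * (1 / 2) ^ j := by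
    intro j
    induction j with
    | zero => simpa using hS
    | succ j ih =>
      intro a y hy
      rw [pow_succ, ← mul_assoc]
      exact step _ (by positivity) ih a y hy
  have hK0 : ∀ a, ∀ y ∈ K a, G a y = 0 := by
    intro a y hy
    have ht : Tendsto (fun j : ℕ => S * (1 / 2 : ℝ) ^ j) atTop (𝓝 (S * 0)) :=
      (tendsto_pow_atTop_nhds_zero_of_lt_one (by norm_num) (by norm_num)).const_mul S
    rw [mul_zero] at ht
    exact norm_le_zero_iff.1 (ge_of_tendsto' ht fun j => iter j a y hy)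
  refine ⟨n, ∑ e, monomial (ex e) (c e), fun h => hc0 ?_, ?_, fun a x hx => ?_⟩
  · funext e
    have := congrArg (coeff (ex e)) h
    simpa [coeff_sum, coeff_monomial, hinj.eq_iff] using this
  · refine IsHomogeneous.sum _ _ _ fun e _ => isHomogeneous_monomial _ ?_
    rw [Finsupp.degree_eq_sum, hdeg]
  · obtain ⟨C', hC'⟩ := hC a {x} isCompact_singleton (Set.singleton_subset_iff.2 hx)
    obtain ⟨b, y, hy, s, -, hs⟩ := hC' x rfl
    have : G a x = 0 := by rw [hhom a b x y s hs, hK0 b y hy, mul_zero]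
    rw [← this]
    simp only [G, g, map_sum, eval_monomial]
    refine Finset.sum_congr rfl fun e _ => ?_
    rw [Finsupp.prod_fintype _ _ fun i => pow_zero _]

end

end Pool.Agent.GAM

end MrgPart3

-- ======== part 4: formerly Pool.Agent.MP_cbf1af_ag.gam.DerEx
section MrgPart4

/-! PROJECT GAM, row DEREX: derivations of the complex numbers detect transcendence. -/

namespace Pool.Agent.GAM

open Matrix Complex Filter Topology MvPolynomial

noncomputable section

namespace DerE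

lemma der_lift {R S T : Type} [CommRing R] [CommRing S] [CommRing T] [Algebra R S] [Algebra S T]
    [Algebra R T] [IsScalarTower R S T] [Algebra.FormallyEtale S T] (D : Derivation R S T) :
    ∃ D' : Derivation R T T, ∀ s, D' (algebraMap S T s) = D s := by
  let e := KaehlerDifferential.tensorKaehlerEquivOfFormallyEtale R S T
  refine ⟨((D.liftKaehlerDifferential.liftBaseChange T).comp e.symm.toLinearMap).compDer
    (KaehlerDifferential.D R T), fun s => ?_⟩
  have := KaehlerDifferential.tensorKaehlerEquivOfFormallyEtale_symm_D_algebraMap R S T s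
  refine (congrArg (D.liftKaehlerDifferential.liftBaseChange T) this).trans ?_
  simp

open scoped IntermediateField.algebraAdjoinAdjoin in
/-- a transcendental element of a field of characteristic zero is moved by a derivation -/
theorem der_ex {E L : Type} [Field E] [Field L] [Algebra E L] [CharZero E] (x : L)
    (hx : Transcendental E x) : ∃ D : Derivation E L L, D x = 1 := by
  classical
  have h1 : AlgebraicIndepOn E id ({x} : Set L) := by
    have := (algebraicIndependent_unique_type_iff (R := E)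
      (x := fun y : ({x} : Set L) => (id y : L))).2 hx
    exact this
  obtain ⟨B, hxB, hb⟩ := exists_isTranscendenceBasis_superset h1
  have hxB' : x ∈ B := hxB rfl
  let : Algebra (MvPolynomial B E) L := (MvPolynomial.aeval ((↑) : B → L)).toRingHom.toAlgebra
  have ha : ∀ p, algebraMap (MvPolynomial B E) L p = MvPolynomial.aeval ((↑) : B → L) p :=
    fun _ => rfl
  have : IsScalarTower E (MvPolynomial B E) L :=
    IsScalarTower.of_algebraMap_eq fun c => by rw [ha, AlgHom.commutes]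
  let A := Algebra.adjoin E (Set.range ((↑) : B → L))
  let F := IntermediateField.adjoin E (Set.range ((↑) : B → L))
  have : Algebra.IsAlgebraic F L := hb.isAlgebraic_field
  have : CharZero F := algebraRat.charZero F
  have : Algebra.FormallyEtale F L := Algebra.FormallyEtale.of_isSeparable F L
  have : Algebra.FormallyEtale A F := Algebra.FormallyEtale.of_isLocalization (nonZeroDivisors A)
  have : Algebra.FormallyEtale A L := Algebra.FormallyEtale.comp A F L
  let : Algebra (MvPolynomial B E) A := hb.1.aevalEquiv.toRingHom.toAlgebra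
  have : IsScalarTower (MvPolynomial B E) A L :=
    IsScalarTower.of_algebraMap_eq fun p => (hb.1.algebraMap_aevalEquiv p).symm
  have : Algebra.FormallyEtale (MvPolynomial B E) A :=
    Algebra.FormallyEtale.of_equiv (A := MvPolynomial B E)
      (AlgEquiv.ofRingEquiv (f := hb.1.aevalEquiv.toRingEquiv) fun _ => rfl)
  have : Algebra.FormallyEtale (MvPolynomial B E) L := Algebra.FormallyEtale.comp _ A L
  obtain ⟨D, hD⟩ := der_lift (T := L)
    (MvPolynomial.mkDerivation E (fun b : B => if b = ⟨x, hxB'⟩ then (1 : L) else 0))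
  refine ⟨D, ?_⟩
  have h2 := hD (MvPolynomial.X ⟨x, hxB'⟩)
  rw [ha, MvPolynomial.aeval_X, MvPolynomial.mkDerivation_X, if_pos rfl] at h2
  exact h2

end DerE

theorem derEx : DerEx := by
  intro x h
  by_contra hx
  obtain ⟨D, hD⟩ := DerE.der_ex (E := ℚ) x hx
  exact one_ne_zero (hD.symm.trans (h D))

end

end Pool.Agent.GAM

end MrgPart4

-- ======== part 5: formerly Pool.Agent.MP_cbf1af_ag.gam.Desc
section MrgPart5

/-! PROJECT GAM, row DESC: descent of a homogeneous relation from a dense set of algebraic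
points. -/

namespace Pool.Agent.GAM

open Matrix Complex Filter Topology MvPolynomial
open Pool.Agent.CMP (Qb)

noncomputable section

namespace Dsc

lemma aeval_mul {σ R S : Type} [CommRing R] [CommRing S] [Algebra R S] {p : MvPolynomial σ R}
    {n : ℕ} (hp : p.IsHomogeneous n) (c : S) (y : σ → S) :
    aeval (fun i => c * y i) p = c ^ n * aeval y p := by
  rw [aeval_def, aeval_def, eval₂_eq, eval₂_eq, Finset.mul_sum]
  refine Finset.sum_congr rfl fun d hd => ?_
  have h : ∑ i ∈ d.support, d i = n := by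
    by_contra h
    exact mem_support_iff.1 hd (hp.coeff_eq_zero h)
  simp only [mul_pow]
  rw [Finset.prod_mul_distrib, Finset.prod_pow_eq_pow_sum, h]
  ring

/-- a linear form applied to the coefficients -/
def mapc {σ K L : Type} [Field K] [Field L] [Algebra K L] (l : L →ₗ[K] K)
    (p : MvPolynomial σ L) : MvPolynomial σ K :=
  ∑ d ∈ p.support, monomial d (l (p.coeff d))

lemma coeff_mapc {σ K L : Type} [Field K] [Field L] [Algebra K L] (l : L →ₗ[K] K)
    (p : MvPolynomial σ L) (d : σ →₀ ℕ) : (mapc l p).coeff d = l (p.coeff d) := by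
  classical
  rw [mapc, coeff_sum]
  simp only [coeff_monomial]
  rw [Finset.sum_ite_eq']
  split_ifs with h
  · rfl
  · rw [notMem_support_iff.1 h, map_zero]

lemma eval_mapc {σ K L : Type} [Field K] [Field L] [Algebra K L] (l : L →ₗ[K] K)
    (p : MvPolynomial σ L) (y : σ → K) :
    eval y (mapc l p) = l (eval (fun i => algebraMap K L (y i)) p) := by
  rw [mapc, map_sum, eval_eq (f := p), map_sum]
  refine Finset.sum_congr rfl fun d _ => ?_
  rw [eval_monomial, Finsupp.prod, mul_comm (coeff d p)]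
  simp only [← map_pow]
  rw [← map_prod, ← Algebra.smul_def, map_smul, smul_eq_mul, mul_comm]

lemma hom_mapc {σ K L : Type} [Field K] [Field L] [Algebra K L] (l : L →ₗ[K] K)
    {p : MvPolynomial σ L} {n : ℕ} (hp : p.IsHomogeneous n) : (mapc l p).IsHomogeneous n := by
  intro d hd
  refine hp fun h => hd ?_
  rw [coeff_mapc, h, map_zero]

/-- dehomogenisation -/
def deh {κ K : Type} [Field K] (p : MvPolynomial (Option κ) K) : MvPolynomial κ K :=
  aeval (fun o : Option κ => o.elim (1 : MvPolynomial κ K) X) p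

lemma aeval_deh {κ K L : Type} [Field K] [Field L] [Algebra K L] {p : MvPolynomial (Option κ) K}
    {n : ℕ} (hp : p.IsHomogeneous n) (y : Option κ → L) (h : y none ≠ 0) :
    aeval (fun i => y (some i) / y none) (deh p) = (y none)⁻¹ ^ n * aeval y p := by
  rw [deh, ← AlgHom.comp_apply, comp_aeval, ← aeval_mul hp]
  congr 2
  funext o
  cases o with
  | none => simp [h]
  | some i => simp [div_eq_inv_mul]

lemma deh_ne {κ K : Type} [Field K] [Infinite K] {p : MvPolynomial (Option κ) K} {n : ℕ}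
    (hp : p.IsHomogeneous n) (h0 : p ≠ 0) : deh p ≠ 0 := by
  intro h
  have h1 : X none * p = 0 := by
    refine MvPolynomial.funext fun y => ?_
    rw [map_mul, eval_X, map_zero]
    by_cases hy : y none = 0
    · rw [hy, zero_mul]
    · have h2 := aeval_deh (L := K) hp y hy
      rw [h, map_zero] at h2
      have h3 := (mul_eq_zero.1 h2.symm).resolve_left (pow_ne_zero _ (inv_ne_zero hy))
      have h4 : eval y p = 0 := h3
      rw [h4, mul_zero]
  exact h0 ((mul_eq_zero.1 h1).resolve_left (X_ne_zero _))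

lemma cont_aeval {σ Y K : Type} [TopologicalSpace Y] [Field K] [Algebra K ℂ] (U : Set Y)
    (F : σ → Y → ℂ) (hF : ∀ i, ContinuousOn (F i) U) (p : MvPolynomial σ K) :
    ContinuousOn (fun x => aeval (fun i => F i x) p) U := by
  simp only [aeval_def, eval₂_eq]
  exact continuousOn_finsetSum _ fun d _ =>
    continuousOn_const.mul (continuousOn_finsetProd _ fun i _ => (hF i).pow _)

end Dsc

open Dsc in
theorem desc : Desc := by
  intro Y κ _ U D F n P hF hDU hUD hD hP hPn hP0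
  obtain ⟨d, hd⟩ := ne_zero_iff.1 hP
  obtain ⟨l, hl⟩ : ∃ l : Module.Dual Qb ℂ, l (P.coeff d) ≠ 0 := by
    by_contra h
    exact hd ((Module.forall_dual_apply_eq_zero_iff Qb _).1 fun l => by_contra fun h' => h ⟨l, h'⟩)
  have h1 : mapc l P ≠ 0 := ne_zero_iff.2 ⟨d, by rwa [coeff_mapc]⟩
  have h2 := hom_mapc l hPn
  have h3 : ∀ x ∈ D, aeval (fun i => F i x) (mapc l P) = 0 := by
    intro x hx
    obtain ⟨c, hc, ha⟩ := hD x hx
    let y : Option κ → Qb := fun i => ⟨F i x / c, mem_algebraicClosure_iff.2 (ha i)⟩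
    have e : (fun i => F i x) = fun i => c * algebraMap Qb ℂ (y i) :=
      funext fun i => (mul_div_cancel₀ (F i x) hc).symm
    have h4 : eval (fun i => algebraMap Qb ℂ (y i)) P = 0 := by
      have h5 : aeval (fun i => F i x) P = 0 := hP0 x (hDU hx)
      rw [e, aeval_mul hPn] at h5
      exact (mul_eq_zero.1 h5).resolve_left (pow_ne_zero _ hc)
    have h6 : aeval y (mapc l P) = 0 := by
      have := eval_mapc l P y
      rw [h4, map_zero] at this
      exact this
    have h7 : aeval (fun i => algebraMap Qb ℂ (y i)) (mapc l P) = 0 :=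
      (aeval_algebraMap_apply ℂ y (mapc l P)).trans (by rw [h6, map_zero])
    rw [e, aeval_mul h2, h7, mul_zero]
  have h4 : Set.EqOn (fun x => aeval (fun i => F i x) (mapc l P)) (fun _ => 0) U :=
    Set.EqOn.of_subset_closure h3 (cont_aeval U F hF _) continuousOn_const hDU hUD
  refine ⟨deh (mapc l P), deh_ne h2 h1, fun x hx h0 => ?_⟩
  have h5 : aeval (fun i => F i x) (mapc l P) = 0 := h4 hx
  rw [aeval_deh h2 (fun i => F i x) h0, h5, mul_zero]

end

end Pool.Agent.GAM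

end MrgPart5

-- ======== part 6: formerly Pool.Agent.MP_cbf1af_ag.gam.Fer
section MrgPart6

/-! PROJECT GAM, row FER: periods of Fermat type -/

namespace Pool.Agent.GAM

open Filter Topology

theorem fer (hR : Rig) (hF : All AfA) (hK : AllC) (h : AllCh) (hN : NonAlg) (hP : Pull) :
    Fer := by
  intro E _ _ c Φ N a b A B hc hΦ hAB P hPer σ
  have hV : IsTor (Set.range (pt Φ)) := (hK E c hc).isTor Φ hΦ
  obtain ⟨-, hAri⟩ := hPer
  obtain ⟨hp, -, A', B', hco, hinj⟩ := id hAri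
  have hg := (hF Φ).germs _ _ hV hAri
  let L : (Φ → ℂ) →L[ℂ] (Φ → ℂ) :=
    ContinuousLinearMap.pi fun i => (P i.1)⁻¹ • ContinuousLinearMap.proj i
  have hL : ∀ w : Φ → ℂ, L w = fun i => w i / P i.1 := by
    intro w; funext i; simp [L, div_eq_inv_mul]
  have hLi : Function.Injective L := by
    intro w w' hw
    rw [hL, hL] at hw
    funext i
    exact (div_left_inj' (hp i)).1 (congrFun hw i)
  have hD : DifferentiableAt ℂ (fun z k => A' k z / B' k z) (L 0) := by
    rw [map_zero]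
    refine differentiableAt_pi.2 fun k => ?_
    exact (((hco k).1.holA 0).fun_div ((hco k).1.holB 0) (hco k).2).differentiableAt
  have hcomp := hD.hasFDerivAt.comp (0 : Φ → ℂ) L.hasFDerivAt
  have hcomp' : fderiv ℂ (fun z k => A' k (fun i => z i / P i.1) / B' k fun i => z i / P i.1) 0 =
      (fderiv ℂ (fun z k => A' k z / B' k z) (L 0)).comp L := by
    rw [← hcomp.fderiv]
    congr 1
    funext z k
    simp [hL]
  have key := hR Φ _ (fun k w => A' k (fun i => w i / P i.1) / B' k fun i => w i / P i.1)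
    (fun τ => ch N (A τ) (B τ)) (fun τ => P τ.1 / bt N (A τ) (B τ)) hg
    (fun k => ⟨A' k, B' k, (hco k).1, (hco k).2, rfl⟩)
    (by
      rw [hcomp', map_zero]
      exact hinj.comp hLi)
    (fun τ => by
      obtain ⟨h1, h2, h3, -⟩ := hAB τ
      have hch := h N (A τ) (B τ) (by omega) h1
      refine ⟨hch.ana 0 ?_, hch.zero, hch.alg⟩
      have hN0 : N ≠ 0 := by omega
      simp [Om, hN0])
    (by
      rintro G ⟨F₁, G₁, hAF, hG0, rfl⟩
      have := hP E c Φ N a b A B hc hΦ hAB F₁ G₁ hAF.toMF hG0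
      have he : ∀ x : ℂ, (fun i : Φ => P i.1 / bt N (A i) (B i) * ch N (A i) (B i) x / P i.1) =
          fun i : Φ => phi N (A i) (B i) 0 x := by
        intro x; funext i
        have := hp i
        simp only [phi, Matrix.cons_val_zero]
        field_simp
      simpa only [he] using this) σ
  obtain ⟨h1, h2, h3, -⟩ := hAB σ
  exact key.resolve_right (hN N _ _ h1 h2 h3)

end Pool.Agent.GAM

end MrgPart6

-- ======== part 7: formerly Pool.Agent.MP_cbf1af_ag.gam.Model
section MrgPart7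

/-! PROJECT GAM: the complex torus of a CM type, existence and functoriality of the periods. -/

namespace Pool.Agent.GAM

open Matrix Complex Filter Topology

namespace ModelAux

variable {E : Type} [Field E] [NumberField E]

omit [NumberField E] in
theorem cj_apply (σ : Emb E) (x : E) : cj σ x = (starRingEnd ℂ) (σ x) := rfl

omit [NumberField E] in
theorem cj_cj (σ : Emb E) : cj (cj σ) = σ := by
  ext x
  simp

omit [NumberField E] in
theorem cj_inj {σ σ' : Emb E} (h : cj σ = cj σ') : σ = σ' := by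
  rw [← cj_cj σ, h, cj_cj]

omit [NumberField E] in
theorem cj_mem {Φ : Finset (Emb E)} (hΦ : IsType Φ) {σ : Emb E} (h : σ ∉ Φ) : cj σ ∈ Φ := by
  by_contra h'
  exact h ((hΦ σ).2 h')

/-- evaluation as a linear map -/
noncomputable def ev (σ : Emb E) : (Unit → E) →ₗ[ℚ] ℂ :=
  σ.toRatAlgHom.toLinearMap ∘ₗ LinearMap.proj ()

theorem ev_apply (σ : Emb E) (x : Unit → E) : ev σ x = σ (x ()) := rfl

theorem entry {κ : Type} [Fintype κ] [DecidableEq κ] (S T : Matrix (κ ⊕ κ) κ ℂ) (i j : κ) :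
    (Sᵀ * J κ ℂ * T) i j = ∑ a, ∑ b, S a i * J κ ℂ a b * T b j := by
  simp only [Matrix.mul_apply, Matrix.transpose_apply, Finset.sum_mul]
  rw [Finset.sum_comm]

theorem entryH {κ : Type} [Fintype κ] [DecidableEq κ] (S T : Matrix (κ ⊕ κ) κ ℂ) (i j : κ) :
    (Sᴴ * J κ ℂ * T) i j = ∑ a, ∑ b, (starRingEnd ℂ) (S a i) * J κ ℂ a b * T b j := by
  simp only [Matrix.mul_apply, Matrix.conjTranspose_apply, Finset.sum_mul]
  rw [Finset.sum_comm]
  rfl

theorem pos_diag {κ : Type} [Fintype κ] [DecidableEq κ] (d : κ → ℝ) (hd : ∀ i, 0 < d i)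
    (u : κ → ℂ) (hu : u ≠ 0) :
    0 < (star u ⬝ᵥ (diagonal fun i => (d i : ℂ)) *ᵥ u).re := by
  have h : (star u ⬝ᵥ (diagonal fun i => (d i : ℂ)) *ᵥ u).re = ∑ i, d i * Complex.normSq (u i) := by
    simp only [dotProduct, Matrix.mulVec_diagonal, Complex.re_sum, Pi.star_apply]
    refine Finset.sum_congr rfl fun i _ => ?_
    simp only [Complex.star_def, Complex.mul_re, Complex.mul_im, Complex.conj_re, Complex.conj_im,
      Complex.ofReal_re, Complex.ofReal_im, Complex.normSq_apply]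
    ring
  rw [h]
  obtain ⟨i, hi⟩ := Function.ne_iff.1 hu
  refine Finset.sum_pos' (fun j _ => mul_nonneg (hd j).le (Complex.normSq_nonneg _))
    ⟨i, Finset.mem_univ _, mul_pos (hd i) (Complex.normSq_pos.2 hi)⟩

end ModelAux

open ModelAux

theorem model (hC : All Act) (hK : AllC) : Model := by
  intro E _ _ c Φ hc hΦ
  have K := hK E c hc
  obtain ⟨ξ, hξ⟩ := K.pol Φ hΦ
  have hcard := K.card Φ hΦ
  have hpos : 0 < Module.finrank ℚ E := Module.finrank_pos
  have hne : Φ.Nonempty := by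
    rw [← Finset.card_pos]
    omega
  have hξ0 : ξ ≠ 0 := by
    obtain ⟨σ, hσ⟩ := hne
    rintro rfl
    have := hξ.2 σ hσ
    simp at this
  obtain ⟨β, hβ⟩ := K.sympl Unit Φ (fun _ => ξ) (fun _ => ⟨hξ0, hξ.1⟩) (by simp [hcard])
  obtain ⟨u, hu, hinj, -⟩ := K.unit ∅
  have hd := K.dual Unit Φ (fun _ => ξ) β hβ () ()
  have hherm : herm (sig1 Φ β) = diagonal (fun σ : Φ => I / σ.1 ξ) := by
    ext σ σ'
    have h := hd (cj σ.1) σ'.1
    simp only [herm, Matrix.smul_apply, entryH, smul_eq_mul]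
    have h2 : (∑ a, ∑ b, (starRingEnd ℂ) (sig1 Φ β a σ) * J Φ ℂ a b * sig1 Φ β b σ') =
        ∑ a, ∑ b, (cj σ.1) (β a ()) * J Φ ℂ a b * σ'.1 (β b ()) := rfl
    rw [h2, h]
    by_cases hσ : σ = σ'
    · subst hσ
      simp only [true_and, if_true, Matrix.diagonal_apply_eq]
      ring
    · have h3 : ¬ cj σ.1 = cj σ'.1 := fun h4 => hσ (Subtype.ext (cj_inj h4))
      simp [h3, Matrix.diagonal_apply_ne _ hσ]
  have hriem : Riem (sig1 Φ β) := by
    refine ⟨?_, fun w hw => ?_⟩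
    · ext σ σ'
      have h := hd σ.1 σ'.1
      have h3 : ¬ σ.1 = cj σ'.1 := fun h4 => (hΦ σ'.1).1 σ'.2 (h4 ▸ σ.2)
      rw [entry]
      have h2 : (∑ a, ∑ b, sig1 Φ β a σ * J Φ ℂ a b * sig1 Φ β b σ') =
          ∑ a, ∑ b, σ.1 (β a ()) * J Φ ℂ a b * σ'.1 (β b ()) := rfl
      rw [h2, h]
      simp [h3]
    · have h1 : (fun σ : Φ => I / σ.1 ξ) = fun σ : Φ => ((((σ.1 ξ).im)⁻¹ : ℝ) : ℂ) := by
        funext σ
        have h2 : (starRingEnd ℂ) (σ.1 ξ) = -σ.1 ξ := by
          rw [← hc.1, hξ.1, map_neg]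
        have h3 : (σ.1 ξ).re = 0 := by
          have := congrArg Complex.re h2
          simp only [Complex.conj_re, Complex.neg_re] at this
          linarith
        have h4 : σ.1 ξ = ((σ.1 ξ).im : ℂ) * I := by
          apply Complex.ext <;> simp [h3]
        have h5 : ((σ.1 ξ).im : ℂ) ≠ 0 := by
          exact_mod_cast (hξ.2 σ.1 σ.2).ne'
        rw [Complex.ofReal_inv]
        conv_lhs => rw [h4]
        field_simp
      rw [hherm, h1]
      exact pos_diag (fun σ : Φ => ((σ.1 ξ).im)⁻¹) (fun σ => inv_pos.2 (hξ.2 σ.1 σ.2)) w hw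
  let φ : (Unit → E) →ₗ[ℚ] (Unit → E) :=
    { toFun := fun x => u • x
      map_add' := fun x y => smul_add u x y
      map_smul' := fun q x => smul_comm u q x }
  have hφ : ∀ x i, φ x i = u * x i := fun _ _ => rfl
  have hsp : Sp (mat β φ) := by
    refine K.sp Unit Φ (fun _ => ξ) β φ hβ fun x y => ?_
    simp only [psi, hφ, map_mul]
    refine Finset.sum_congr rfl fun i _ => ?_
    congr 1
    linear_combination (ξ * x i * c (y i)) * hu
  have hmul : cM (mat β φ) * sig1 Φ β = sig1 Φ β * diagonal (pt Φ u) := by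
    ext a σ
    have h := K.matMul (Unit → E) (Φ ⊕ Φ) β φ (ev σ.1) a
    rw [Matrix.mul_diagonal, Matrix.mul_apply]
    have h2 : (∑ b, cM (mat β φ) a b * sig1 Φ β b σ) =
        ∑ b, cM (mat β φ) a b * ev σ.1 (β b) := rfl
    rw [h2, h, ev_apply, hφ, map_mul, mul_comm]
    rfl
  have hne1 : ∀ σ σ' : Φ, σ.1 u * σ'.1 u ≠ 1 := by
    intro σ σ' h
    have h1 : σ.1 u * cj σ.1 u = 1 := by
      rw [cj_apply, ← hc.1, ← map_mul, hu, map_one]
    have h0 : σ.1 u ≠ 0 := left_ne_zero_of_mul_eq_one h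
    have h2 : σ'.1 u = cj σ.1 u := mul_left_cancel₀ h0 (h.trans h1.symm)
    have h3 : σ'.1 = cj σ.1 := hinj h2
    exact (hΦ σ.1).1 σ.2 (h3 ▸ σ'.2)
  refine ⟨ξ, β, mat β φ, u, hξ, hriem, ?_, hherm, fun x => ?_, hsp, hmul, ?_, hne1⟩
  · exact (hC Φ).cmpt (mat β φ) (sig1 Φ β) Φ (sig1 Φ β) 1 (pt Φ u) hsp hriem rfl
      (Matrix.mul_one _).symm hmul hne1
  · funext σ
    have h := congrArg (ev σ.1) (β.sum_repr fun _ => x)
    rw [map_sum, ev_apply] at h
    simp only [map_smul, ev_apply] at h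
    simp only [pt, Matrix.vecMul, dotProduct, cq, sig1, Matrix.of_apply]
    rw [← h]
    refine Finset.sum_congr rfl fun a _ => ?_
    rw [Rat.smul_def]
  · intro σ σ' h
    exact Subtype.ext (hinj h)

set_option linter.unusedVariables false in
theorem exist (hB : All ThB) (hC : All Act) (hM : All CmAlg) (hF : All AfB) (hG : All AfC)
    (hK : AllC) (h : Model) : Exist := by
  intro E _ _ c Φ hc hΦ
  have K := hK E c hc
  obtain ⟨ξ, β, γ, u, -, hriem, hcm, -, hpt, -, -, hinj, -⟩ := h E c Φ hc hΦ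
  obtain ⟨hdet, -, hper, -⟩ := (hC Φ).riem _ hriem
  have hdet' : IsUnit (sig1 Φ β).toRows₂⁻¹.det := Matrix.isUnit_nonsing_inv_det _ hdet
  obtain ⟨A, B, hco⟩ := (hG Φ).co (tauOf (sig1 Φ β)) (Set.range (pt Φ)) (sig1 Φ β).toRows₂⁻¹
    (hM Φ _ hcm) hdet' (by
      rintro v ⟨x, rfl⟩
      refine ⟨β.repr fun _ => x, ?_⟩
      have h1 : sig1 Φ β * (sig1 Φ β).toRows₂⁻¹ = per (tauOf (sig1 Φ β)) :=
        calc sig1 Φ β * (sig1 Φ β).toRows₂⁻¹
            = per (tauOf (sig1 Φ β)) * (sig1 Φ β).toRows₂ * (sig1 Φ β).toRows₂⁻¹ := by rw [hper]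
          _ = per (tauOf (sig1 Φ β)) := by
            rw [Matrix.mul_assoc, Matrix.mul_nonsing_inv _ hdet, Matrix.mul_one]
      rw [hpt x, Matrix.vecMul_vecMul, h1])
  obtain ⟨p, hp⟩ := (hF Φ).ex (Set.range (pt Φ)) A B (pt Φ u) (K.isTor Φ hΦ) hco hinj
    (fun σ => K.alg σ.1 u) (by
      rintro v ⟨x, rfl⟩
      refine ⟨u * x, ?_⟩
      funext σ
      simp [pt])
  let p' : Emb E → ℂ := fun σ => if h : σ ∈ Φ then p ⟨σ, h⟩ else 1
  have hp' : ∀ σ ∈ Φ, p' σ ≠ 0 := by
    intro σ hσ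
    simp only [p', hσ, dif_pos]
    exact hp.1 _
  refine ⟨fun σ => if σ ∈ Φ then p' σ else 2 * Real.pi * I / p' (cj σ), fun σ => ?_, ?_⟩
  · by_cases hσ : σ ∈ Φ
    · have h1 : cj σ ∉ Φ := (hΦ σ).1 hσ
      have h2 := hp' σ hσ
      simp only [hσ, h1, if_true, if_false, cj_cj]
      field_simp
    · have h1 : cj σ ∈ Φ := cj_mem hΦ hσ
      have h2 := hp' _ h1
      simp only [hσ, h1, if_true, if_false]
      field_simp
  · have h1 : (fun σ : Φ => if σ.1 ∈ Φ then p' σ.1 else 2 * Real.pi * I / p' (cj σ.1)) = p := by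
      funext σ
      simp [p', σ.2]
    rw [h1]
    exact hp

set_option linter.unusedVariables false in
theorem trans (hF : All AfA) (hK : AllC) : Trans := by
  intro E L _ _ _ _ ι Φ Ψ P Q hΦ hΨ hP hQ
  have h2 : (2 * Real.pi * I : ℂ) ≠ 0 := Complex.two_pi_I_ne_zero
  have hQ0 : ∀ σ, Q σ ≠ 0 := fun σ h => h2 (by rw [← hQ.1 σ, h, zero_mul])
  have hP0 : ∀ σ, P σ ≠ 0 := fun σ h => h2 (by rw [← hP.1 σ, h, zero_mul])
  have key : ∀ σ ∈ Ψ, Alg (Q σ / P (σ.comp ι)) := by
    intro σ hσ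
    have h := (hF Φ).hom Ψ (Set.range (pt Φ)) (Set.range (pt Ψ)) _ _
      (Matrix.of fun ρ s => if ρ = ⟨s.1.comp ι, (hΨ _).1 s.2⟩ then 1 else 0) hP.2 hQ.2 (by
        rintro v ⟨x, rfl⟩
        refine ⟨ι x, ?_⟩
        funext s
        simp [pt, Matrix.vecMul, dotProduct]) ⟨σ.comp ι, (hΨ _).1 hσ⟩ ⟨σ, hσ⟩
    simpa using h
  intro σ
  refine ⟨hQ0 σ, ?_⟩
  by_cases hσ : σ ∈ Ψ
  · exact key σ hσ
  · have h1 : σ.comp ι ∉ Φ := fun h => hσ ((hΨ σ).2 h)
    have h3 : (cj σ).comp ι = cj (σ.comp ι) := rfl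
    have h4 : cj σ ∈ Ψ := (hΨ _).2 (h3 ▸ cj_mem hΦ h1)
    have h5 := (key _ h4).inv
    have h6 : Q σ / P (σ.comp ι) = (Q (cj σ) / P ((cj σ).comp ι))⁻¹ := by
      rw [h3, inv_div, div_eq_div_iff (hP0 _) (hQ0 _), hQ.1 σ, mul_comm (P _), hP.1]
    rw [h6]
    exact h5

end Pool.Agent.GAM

end MrgPart7

-- ======== part 8: formerly Pool.Agent.MP_cbf1af_ag.gam.NonAlg
section MrgPart8

/-! PROJECT GAM, row NONALG: the incomplete beta integral is a transcendental function, because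
its monodromy group contains a translation. -/

namespace Pool.Agent.GAM

open Complex Set Filter Topology

noncomputable section

namespace NonAlgP

open GlueP

/-- functions of two variables which preserve analyticity -/
def An (F : ℂ → ℂ → ℂ) : Prop :=
  ∀ (u v : ℂ → ℂ) (z : ℂ), AnalyticAt ℂ u z → AnalyticAt ℂ v z →
    AnalyticAt ℂ (fun x => F (u x) (v x)) z

theorem An.aff {F : ℂ → ℂ → ℂ} (h : An F) (a b c : ℂ) : An fun X Y => F (a * X) (b * Y + c) :=
  fun _ _ z hu hv =>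
    h _ _ z (analyticAt_const.mul hu) ((analyticAt_const.mul hv).add analyticAt_const)

theorem an_poly (P : Polynomial (Polynomial ℂ)) : An fun X Y => P.evalEval X Y := by
  intro u v z hu hv
  induction P using Polynomial.induction_on' with
  | add p q hp hq => simp only [Polynomial.evalEval_add]; exact hp.add hq
  | monomial n p =>
    have h1 : AnalyticAt ℂ (fun x => Polynomial.aeval (u x) p) z := hu.aeval_polynomial p
    have h2 := h1.mul (hv.pow n)
    refine h2.congr (Eventually.of_forall fun x => ?_)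
    simp [Polynomial.evalEval]

/-- the relation holds on the whole domain -/
def Van (N A B : ℕ) (F : ℂ → ℂ → ℂ) : Prop := ∀ X ∈ Om N, F X (ch N A B X) = 0

theorem zero_mem {N : ℕ} (hN : 0 < N) : (0 : ℂ) ∈ Om N := by
  show 1 - (0 : ℂ) ^ N ∈ slitPlane
  rw [zero_pow hN.ne', sub_zero]; exact one_mem_slitPlane

theorem conn {N A B : ℕ} (hN : 0 < N) (h : ChA N A B) : IsPreconnected (Om N) :=
  (h.star.isPathConnected (zero_mem hN)).isConnected.isPreconnected

/-- identity theorem from the real segment -/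
theorem ident {N A B : ℕ} (hN : 0 < N) (h : ChA N A B) {f : ℂ → ℂ}
    (hf : AnalyticOnNhd ℂ f (Om N)) (h0 : ∀ t : ℝ, 0 < t → t < 1 → f t = 0) :
    ∀ X ∈ Om N, f X = 0 := by
  refine hf.eqOn_zero_of_preconnected_of_frequently_eq_zero (conn hN h) (zero_mem hN) ?_
  have ht : Tendsto (fun t : ℝ => (t : ℂ)) (𝓝[>] 0) (𝓝[≠] 0) := by
    refine tendsto_nhdsWithin_iff.2 ⟨?_, ?_⟩
    · have := continuous_ofReal.tendsto 0
      rw [ofReal_zero] at this
      exact this.mono_left nhdsWithin_le_nhds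
    · filter_upwards [self_mem_nhdsWithin] with t ht
      exact ofReal_ne_zero.2 (ne_of_gt ht)
  refine ht.frequently (Eventually.frequently ?_)
  filter_upwards [Ioo_mem_nhdsGT (zero_lt_one' ℝ)] with t ht
  exact h0 t ht.1 ht.2

theorem rt_real {N : ℕ} (hN : 0 < N) {t : ℝ} (ht : 0 < t) : rt N ((t : ℂ) ^ N) = t := by
  have hp : 0 < Real.pi / N := by have := Real.pi_pos; positivity
  apply pow_cpow_nat_inv hN.ne' <;> rw [arg_ofReal_of_nonneg ht.le] <;> linarith

theorem slit_pow {N : ℕ} {t : ℝ} (ht : 0 < t) : (t : ℂ) ^ N ∈ slitPlane := by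
  rw [← ofReal_pow]; exact ofReal_mem_slitPlane.2 (pow_pos ht N)

theorem slit_sub {N : ℕ} (hN : 0 < N) {t : ℝ} (ht : 0 < t) (h1 : t < 1) :
    1 - (t : ℂ) ^ N ∈ slitPlane := by
  rw [← ofReal_pow, ← ofReal_one, ← ofReal_sub]
  exact ofReal_mem_slitPlane.2 (sub_pos.2 (pow_lt_one₀ ht.le h1 hN.ne'))

theorem rot_pow {N : ℕ} (hN : 0 < N) (i : ℕ) (X : ℂ) : (ee (i / N) * X) ^ N = X ^ N := by
  rw [mul_pow, ee_pow hN, one_mul]

/-- rotation -/
theorem Van.rot {N A B : ℕ} (hN : 0 < N) (h : ChA N A B) {F : ℂ → ℂ → ℂ} (hF : Van N A B F)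
    (i : ℕ) : Van N A B fun X Y => F (ee (i / N) * X) (ee (A / N) ^ i * Y + 0) := by
  intro X hX
  have hm : ee (i / N) * X ∈ Om N := by
    show 1 - (ee (i / N) * X) ^ N ∈ slitPlane
    rw [rot_pow hN]; exact hX
  have := hF _ hm
  rwa [GlueP.rot h, ← add_zero (ee (A / N) ^ i * ch N A B X)] at this

/-- monodromy around the point `1` -/
theorem Van.mono (h : AllCh) {N A B : ℕ} (hN : 0 < N) (hA : 0 < A) (hB : 0 < B) {F : ℂ → ℂ → ℂ}
    (ha : An F) (hF : Van N A B F) (j : ℕ) :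
    Van N A B fun X Y => F (1 * X) (ee (B / N) ^ j * Y + (1 - ee (B / N) ^ j) * bt N A B) := by
  have h1 := h N A B hN hA
  have h2 := h N B A hN hB
  have hG : ∀ Y ∈ Om N, F (rt N (1 - Y ^ N)) (bt N A B - ch N B A Y) = 0 := by
    apply ident hN h1
    · intro Y hY
      refine ha _ _ Y ?_ (analyticAt_const.sub (h2.ana Y hY))
      exact (analyticAt_const.sub (analyticAt_id.pow N)).cpow analyticAt_const hY
    · intro t ht ht1
      have e := euler0 h hN hA hB (slit_sub hN ht ht1) (x := 1 - (t : ℂ) ^ N)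
        (by rw [sub_sub_cancel]; exact slit_pow ht)
      rw [sub_sub_cancel, rt_real hN ht] at e
      rw [← e, add_sub_cancel_right]
      exact hF _ (rt_mem hN (by rw [sub_sub_cancel]; exact slit_pow ht))
  apply ident hN h1
  · intro X hX
    exact ha.aff _ _ _ _ _ X analyticAt_id (h1.ana X hX)
  · intro t ht ht1
    have e := euler0 h hN hA hB (slit_pow ht) (slit_sub hN ht ht1)
    rw [rt_real hN ht] at e
    have hm : ee (j / N) * rt N (1 - (t : ℂ) ^ N) ∈ Om N := by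
      show 1 - (ee (j / N) * rt N (1 - (t : ℂ) ^ N)) ^ N ∈ slitPlane
      rw [rot_pow hN, rt_pow hN, sub_sub_cancel]; exact slit_pow ht
    have := hG _ hm
    rw [rot_pow hN, rt_pow hN, sub_sub_cancel, rt_real hN ht, GlueP.rot h2] at this
    beta_reduce
    rw [one_mul, ← this]
    congr 1
    rw [← e]; ring

theorem pow_pred {N : ℕ} (hN : 0 < N) (A : ℕ) : ee (A / N) ^ (N - 1) * ee (A / N) = 1 := by
  rw [← pow_succ, Nat.sub_add_cancel hN, ee_pow hN]

theorem ee_ne_one {N A : ℕ} (hA : 0 < A) (h : A < N) : ee (A / N) ≠ 1 := by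
  rw [ee_div N A]
  exact (prim (by omega)).pow_ne_one_of_pos_of_lt (by omega) h

/-- a translation in the monodromy group -/
theorem transl (h : AllCh) {N A B : ℕ} (hA : 0 < A) (hB : 0 < B) (hAB : A + B < N) :
    ∃ c : ℂ, c ≠ 0 ∧ ∀ F : ℂ → ℂ → ℂ, An F → Van N A B F → Van N A B fun X Y => F X (Y + c) := by
  have hN : 0 < N := by omega
  have h1 := h N A B hN hA
  have pa := pow_pred hN A
  have pb := pow_pred hN B
  refine ⟨bt N A B * (1 - ee (A / N)) * (ee (B / N) ^ (N - 1) - 1), ?_, fun F ha hF => ?_⟩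
  · refine mul_ne_zero (mul_ne_zero (bt_ne hN hA hB)
      (sub_ne_zero.2 (ee_ne_one hA (by omega)).symm)) (sub_ne_zero.2 fun hc => ?_)
    rw [hc, one_mul] at pb
    exact ee_ne_one hB (by omega) pb
  · have s1 := hF.rot hN h1 1
    have a1 := ha.aff (ee ((1 : ℕ) / N)) (ee (A / N) ^ 1) 0
    have s2 := s1.mono h hN hA hB a1 (N - 1)
    have a2 := a1.aff 1 (ee (B / N) ^ (N - 1)) ((1 - ee (B / N) ^ (N - 1)) * bt N A B)
    have s3 := s2.rot hN h1 (N - 1)
    have a3 := a2.aff (ee ((N - 1 : ℕ) / N)) (ee (A / N) ^ (N - 1)) 0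
    have s4 := s3.mono h hN hA hB a3 1
    intro X hX
    have := s4 X hX
    simp only at this ⊢
    rw [← this]
    have p1 : ee ((N - 1 : ℕ) / N) * ee ((1 : ℕ) / N) = 1 := by
      rw [ee_div N (N - 1), ← Nat.cast_one (R := ℂ), Nat.cast_one (R := ℂ)]
      simpa using pow_pred hN 1
    congr 1
    · linear_combination (-X) * p1
    · set a := ee (A / N)
      set b := ee (B / N)
      set a' := a ^ (N - 1)
      set b' := b ^ (N - 1)
      set k := bt N A B
      set y := ch N A B X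
      linear_combination (-(b' * (b * y + (1 - b) * k))) * pa + (k - y) * pb

end NonAlgP

open NonAlgP in
theorem nonAlg (h : AllCh) : NonAlg := by
  rintro N A B hA hB hAB ⟨P, hP, hz⟩
  have hN : 0 < N := by omega
  have h1 := h N A B hN hA
  obtain ⟨c, hc, ht⟩ := transl h hA hB hAB
  have h0 : Van N A B fun X Y => P.evalEval X Y := by
    have ha : AnalyticOnNhd ℂ (fun X => P.evalEval X (ch N A B X)) (Om N) :=
      fun X hX => an_poly P _ _ X analyticAt_id (h1.ana X hX)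
    exact ha.eqOn_zero_of_preconnected_of_eventuallyEq_zero (conn hN h1) (zero_mem hN) hz
  have hn : ∀ n : ℕ, Van N A B fun X Y => P.evalEval X (Y + n * c) := by
    intro n
    induction n with
    | zero => simpa using h0
    | succ n ih =>
      have ha : An fun X Y => P.evalEval X (Y + n * c) := by
        simpa using (an_poly P).aff 1 1 (n * c)
      intro X hX
      have := ht _ ha ih X hX
      simp only at this ⊢
      rw [← this]
      congr 1
      push_cast; ring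
  have hX : ∀ X ∈ Om N, P.map (Polynomial.evalRingHom X) = 0 := by
    intro X hX
    apply Polynomial.eq_zero_of_infinite_isRoot
    refine Set.infinite_of_injective_forall_mem (f := fun n : ℕ => ch N A B X + n * c) ?_ ?_
    · intro m n e
      simpa [hc] using e
    · intro n
      have := hn n X hX
      simp only [mem_ofPred_eq, Polynomial.IsRoot, Polynomial.map_evalRingHom_eval]
      exact this
  apply hP
  ext1 n
  apply Polynomial.eq_zero_of_infinite_isRoot
  refine (infinite_of_mem_nhds (0 : ℂ) (h1.opn.mem_nhds (zero_mem hN))).mono fun X hX' => ?_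
  have := congrArg (fun Q => Polynomial.coeff Q n) (hX X hX')
  simpa using this

end

end Pool.Agent.GAM

end MrgPart8

-- ======== part 9: formerly Pool.Agent.MP_cbf1af_ag.gam.Pts
section MrgPart9

/-! PROJECT GAM, module PTS: split points. -/

namespace Pool.Agent.GAM

open Complex Filter Topology

namespace Pts

variable {E : Type} [Field E] [NumberField E] (F : Fam E)

omit [NumberField E] in
lemma cj_app (σ : Emb E) (x : E) : cj σ x = (starRingEnd ℂ) (σ x) := rfl

/-- the point of the discs that belongs to `z` -/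
noncomputable def Y (Φ : Finset (Emb E)) (z : F.Φ₁ → ℂ) : F.Jn → ℂ := fun σ =>
  if σ.1 ∈ Φ then -σ.1 F.d * (starRingEnd ℂ) (z ⟨σ, (Finset.mem_sdiff.1 σ.2).1⟩)
  else (z ⟨σ, (Finset.mem_sdiff.1 σ.2).1⟩)⁻¹

variable {F}

lemma ex_Y (Φ : Finset (Emb E)) (b : E) {σ : Emb E} (h : σ ∈ F.Jn) :
    F.ex (Y F Φ (pt F.Φ₁ b)) σ = if σ ∈ Φ then -σ F.d * (starRingEnd ℂ) (σ b) else (σ b)⁻¹ := by
  simp only [Fam.ex, dif_pos h, Y, pt]

lemma real (hF : FamA F) (σ : Emb E) : σ F.d = ((σ F.d).re : ℂ) :=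
  (conj_eq_iff_re.1 (by rw [← F.hc.1, hF.cd])).symm

lemma d_ne (hF : FamA F) {σ : Emb E} (h : σ ∈ F.Jn) : F.d ≠ 0 := fun e => by
  simpa [e] using hF.dneg σ h

lemma spl (hF : FamA F) {Φ Φ' : Finset (Emb E)} (h : IsType Φ) (h' : IsType Φ')
    (hi : Φ ∩ Φ' = F.Φ₁ ∩ F.Φ₂) (hu : Φ ∪ Φ' = F.Φ₁ ∪ F.Φ₂) {b : E}
    (hb : ∀ σ ∈ F.Jn, σ ∉ Φ → b ≠ 0) (hD : Y F Φ (pt F.Φ₁ b) ∈ F.D) :
    F.Spl (Y F Φ (pt F.Φ₁ b)) Φ Φ' := by
  have hi' : ∀ σ, σ ∈ Φ ∧ σ ∈ Φ' ↔ σ ∈ F.Φ₁ ∧ σ ∈ F.Φ₂ := fun σ => by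
    simpa using Finset.ext_iff.1 hi σ
  have hu' : ∀ σ, σ ∈ Φ ∨ σ ∈ Φ' ↔ σ ∈ F.Φ₁ ∨ σ ∈ F.Φ₂ := fun σ => by
    simpa using Finset.ext_iff.1 hu σ
  refine ⟨hD, h, h', hi, hu, 1, b, fun h0 => ?_, fun ρ => ?_⟩
  · obtain ⟨σ, hσ⟩ : ∃ σ, σ ∈ F.Φ₁ := by
      obtain ⟨σ⟩ : Nonempty (Emb E) := inferInstance
      by_cases h : cj σ ∈ F.Φ₁
      exacts [⟨_, h⟩, ⟨_, (F.h₁ σ).2 h⟩]
    have e : 1 + (σ F.d).re * ‖σ b‖ ^ 2 = 0 := by
      have := congrArg σ h0
      simp only [Fam.nm, map_add, map_mul, map_one, F.hc.1, mul_conj', map_zero, mul_one] at this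
      rw [real hF σ] at this
      exact_mod_cast this
    by_cases h2 : σ ∈ F.Φ₂
    · have := hF.dpos σ (Finset.mem_inter.2 ⟨hσ, h2⟩)
      exact absurd e (by positivity)
    · have hJ : σ ∈ F.Jn := Finset.mem_sdiff.2 ⟨hσ, h2⟩
      have q := hD σ hJ
      have hn := (hF.dneg σ hJ).ne
      rw [Fam.q, ex_Y Φ b hJ] at q
      refine q.ne' ?_
      split_ifs with hΦ
      · rw [norm_mul, norm_neg, norm_conj, real hF σ, norm_real, ofReal_re, mul_pow,
          Real.norm_eq_abs, sq_abs, ← e]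
        field_simp
      · have : ‖σ b‖ ≠ 0 := norm_ne_zero_iff.2 ((map_ne_zero σ).2 (hb σ hJ hΦ))
        rw [norm_inv]
        field_simp
        linarith
  · by_cases h1 : ρ ∈ F.Φ₁
    · rw [Fam.em, if_pos (Or.inl h1)]
      simp only [Fam.ell, if_pos h1]
      constructor
      · intro hn
        have hJ : ρ ∈ F.Jn := Finset.mem_sdiff.2 ⟨h1, fun h2 => hn ((hi' ρ).2 ⟨h1, h2⟩).1⟩
        simp [ex_Y Φ b hJ, hn, hb ρ hJ hn]
      · intro hn
        have hJ : ρ ∈ F.Jn := Finset.mem_sdiff.2 ⟨h1, fun h2 => hn ((hi' ρ).2 ⟨h1, h2⟩).2⟩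
        simp [ex_Y Φ b hJ, ((hu' ρ).2 (Or.inl h1)).resolve_right hn, F.hc.1]
    have c1 : cj ρ ∈ F.Φ₁ := not_not.1 fun h => h1 ((F.h₁ ρ).2 h)
    by_cases h2 : ρ ∈ F.Φ₂
    · have hJ : cj ρ ∈ F.Jn := Finset.mem_sdiff.2 ⟨c1, (F.h₂ ρ).1 h2⟩
      have hd : ρ F.d ≠ 0 := (map_ne_zero ρ).2 (d_ne hF hJ)
      have hc : (starRingEnd ℂ) (ρ F.d) = ρ F.d := by rw [← F.hc.1, hF.cd]
      rw [Fam.em, if_pos (Or.inr h2)]
      simp only [Fam.ell, if_neg h1, if_pos h2, ex_Y Φ b hJ]
      constructor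
      · intro hn
        rw [if_pos (not_not.1 fun h'' => hn ((h ρ).2 h''))]
        simp only [cj_app, hc, conj_conj, Matrix.cons_val_one, Matrix.cons_val_zero, map_one]
        field_simp
        ring
      · intro hn
        have hn' := (h ρ).1 (((hu' ρ).2 (Or.inr h2)).resolve_right hn)
        have : (starRingEnd ℂ) (ρ b) ≠ 0 := by simpa using hb _ hJ hn'
        rw [if_neg hn']
        simp only [cj_app, Matrix.cons_val_one, Matrix.cons_val_zero, map_one, map_neg, map_mul,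
          F.hc.1]
        field_simp
        ring
    · have := (hi' _).2 ⟨c1, not_not.1 fun h => h2 ((F.h₂ ρ).2 h)⟩
      rw [Fam.em, if_neg (not_or.2 ⟨h1, h2⟩)]
      exact ⟨fun h => absurd this.1 h, fun h => absurd this.2 h⟩

lemma approx (hF : FamA F) (hd : DenseRange (pt F.Φ₁)) (Φ : Finset (Emb E)) {y : F.Jn → ℂ}
    (hy : ∀ σ : F.Jn, σ.1 ∉ Φ → y σ ≠ 0) {U : Set (F.Jn → ℂ)} (hU : U ∈ 𝓝 y) :
    ∃ b : E, Y F Φ (pt F.Φ₁ b) ∈ U ∧ ∀ σ ∈ F.Jn, σ ∉ Φ → b ≠ 0 := by
  set z : F.Φ₁ → ℂ := fun σ =>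
    if σ.1 ∈ Φ then (starRingEnd ℂ) (-F.ex y σ / σ.1 F.d) else (F.ex y σ)⁻¹ with hz
  have z0 : ∀ σ : F.Jn, σ.1 ∉ Φ → z ⟨σ, (Finset.mem_sdiff.1 σ.2).1⟩ ≠ 0 := fun σ h => by
    simp only [hz, if_neg h, Fam.ex, dif_pos σ.2]
    exact inv_ne_zero (hy σ h)
  have e : Y F Φ z = y := by
    funext σ
    have : σ.1 F.d ≠ 0 := (map_ne_zero σ.1).2 (d_ne hF σ.2)
    by_cases h : σ.1 ∈ Φ
    · simp only [Y, hz, if_pos h, conj_conj, Fam.ex, dif_pos σ.2]
      field_simp
    · simp only [Y, hz, if_neg h, Fam.ex, dif_pos σ.2, inv_inv]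
  have c : ContinuousAt (Y F Φ) z := continuousAt_pi.2 fun σ => by
    by_cases h : σ.1 ∈ Φ
    · simp only [Y, if_pos h]
      exact (continuous_const.mul (continuous_conj.comp (continuous_apply _))).continuousAt
    · simp only [Y, if_neg h]
      exact (continuous_apply _).continuousAt.inv₀ (z0 σ h)
  have ev : ∀ᶠ w in 𝓝 z, Y F Φ w ∈ U ∧
      ∀ σ : F.Jn, σ.1 ∉ Φ → w ⟨σ, (Finset.mem_sdiff.1 σ.2).1⟩ ≠ 0 :=
    Eventually.and (c.preimage_mem_nhds (e ▸ hU)) (eventually_all.2 fun σ =>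
      eventually_imp_distrib_left.2 fun h =>
        (continuous_apply _).continuousAt.eventually_ne (z0 σ h))
  obtain ⟨b, h1, h2⟩ := hd.mem_nhds ev
  exact ⟨b, h1, fun σ hσ h e => h2 ⟨σ, hσ⟩ h (by simp [pt, e])⟩

end Pts

theorem pts (hB : All ThB) (hK : AllC) (hF : AllF FamA) : AllF Pts := by
  intro E _ _ F
  have A := hF E F
  have hd : DenseRange (pt F.Φ₁) := (hB _).dense _ ((hK E F.c F.hc).isTor _ F.h₁)
  refine ⟨fun y hy => mem_closure_iff_nhds.2 fun U hU => ?_, fun Φ Φ' h h' hi hu => ?_⟩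
  · obtain ⟨b, h1, h2⟩ := Pts.approx A hd F.Φ₁
      (fun σ h => absurd (Finset.mem_sdiff.1 σ.2).1 h) (inter_mem hU (A.opn.mem_nhds hy))
    exact ⟨_, h1.1, Pts.spl A F.h₁ F.h₂ rfl rfl h2 h1.2⟩
  · have h0 : (fun _ => 0 : F.Jn → ℂ) ∈ F.D := fun σ hσ => by simp [Fam.q, Fam.ex]
    have c : ContinuousAt (fun (t : ℂ) (_ : F.Jn) => t) 0 := by fun_prop
    obtain ⟨t, h1, h2⟩ := ((Eventually.filter_mono nhdsWithin_le_nhds
      (c.preimage_mem_nhds (A.opn.mem_nhds h0))).and
      (self_mem_nhdsWithin (s := {0}ᶜ))).exists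
    obtain ⟨b, h3, h4⟩ := Pts.approx A hd Φ (fun _ _ => h2) (A.opn.mem_nhds h1)
    exact ⟨_, Pts.spl A h h' hi hu h4 h3⟩

end Pool.Agent.GAM

end MrgPart9

-- ======== part 10: formerly Pool.Agent.MP_cbf1af_ag.gam.Rig
section MrgPart10

/-! PROJECT GAM, module RIG: rigidity. -/

namespace Pool.Agent.GAM

open Matrix Filter Topology Polynomial

namespace Rig75

/-- power series which are algebraic over the polynomials -/
noncomputable abbrev AA : Subalgebra ℂ[X] (PowerSeries ℂ) :=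
  Subalgebra.algebraicClosure ℂ[X] (PowerSeries ℂ)

theorem am (p : ℂ[X]) : algebraMap ℂ[X] (PowerSeries ℂ) p = (p : PowerSeries ℂ) := by
  rw [PowerSeries.algebraMap_apply']
  simp

theorem tay_poly (hT : Tay) (p : ℂ[X]) :
    AnalyticAt ℂ (fun x => p.eval x) 0 ∧ tay (fun x => p.eval x) = (p : PowerSeries ℂ) := by
  induction p using Polynomial.induction_on with
  | C a =>
    simp only [eval_C, Polynomial.coe_C]
    exact ⟨analyticAt_const, hT.const a⟩
  | add p q hp hq =>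
    simp only [eval_add, Polynomial.coe_add]
    exact ⟨hp.1.add hq.1, by rw [hT.add _ _ hp.1 hq.1, hp.2, hq.2]⟩
  | monomial n a ih =>
    rw [pow_succ, ← mul_assoc]
    simp only [eval_mul (q := X), eval_X, Polynomial.coe_mul (ψ := X), Polynomial.coe_X]
    exact ⟨ih.1.mul analyticAt_id, by rw [hT.mul _ (fun x => x) ih.1 analyticAt_id, ih.2, hT.id]⟩

theorem tay_ev (hT : Tay) (h : ℂ → ℂ) (hh : AnalyticAt ℂ h 0) (P : ℂ[X][X]) :
    AnalyticAt ℂ (fun x => P.evalEval x (h x)) 0 ∧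
      tay (fun x => P.evalEval x (h x)) = aeval (tay h) P := by
  induction P using Polynomial.induction_on with
  | C a =>
    simp only [evalEval_C, aeval_C, am]
    exact tay_poly hT a
  | add p q hp hq =>
    simp only [evalEval_add, map_add]
    exact ⟨hp.1.add hq.1, by rw [hT.add _ _ hp.1 hq.1, hp.2, hq.2]⟩
  | monomial n a ih =>
    rw [pow_succ, ← mul_assoc]
    generalize C a * X ^ n = Q at ih
    simp only [evalEval_mul, evalEval_X, map_mul, aeval_X]
    exact ⟨ih.1.mul hh, by rw [hT.mul _ h ih.1 hh, ih.2]⟩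

theorem algG_iff (hT : Tay) (h : ℂ → ℂ) (hh : AnalyticAt ℂ h 0) : AlgG h ↔ tay h ∈ AA := by
  constructor
  · rintro ⟨P, hP, hz⟩
    refine ⟨P, hP, ?_⟩
    rw [← (tay_ev hT h hh P).2, hT.congr _ (fun _ => 0) hz, hT.const, map_zero]
  · rintro ⟨P, hP, hz⟩
    exact ⟨P, hP, hT.inj _ (tay_ev hT h hh P).1 ((tay_ev hT h hh P).2.trans hz)⟩

theorem C_mem (a : ℂ) : PowerSeries.C a ∈ AA := by
  have := AA.algebraMap_mem (C a)
  rwa [am, Polynomial.coe_C] at this

theorem dl_poly (hT : Tay) (δ : Derivation ℚ ℂ ℂ) (p : ℂ[X]) :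
    dl δ (p : PowerSeries ℂ) ∈ AA := by
  induction p using Polynomial.induction_on with
  | C a => rw [Polynomial.coe_C, hT.dlC]; exact C_mem _
  | add p q hp hq => rw [Polynomial.coe_add, hT.dlAdd]; exact add_mem hp hq
  | monomial n a ih =>
    rw [pow_succ, ← mul_assoc, Polynomial.coe_mul, hT.dlMul, Polynomial.coe_X, hT.dlX, mul_zero,
      zero_add]
    refine mul_mem ?_ ih
    have := AA.algebraMap_mem X
    rwa [am, Polynomial.coe_X] at this

theorem aeval_mem {φ : PowerSeries ℂ} (hφ : φ ∈ AA) (P : ℂ[X][X]) : aeval φ P ∈ AA := by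
  induction P using Polynomial.induction_on with
  | C a => rw [aeval_C]; exact AA.algebraMap_mem a
  | add p q hp hq => rw [map_add]; exact add_mem hp hq
  | monomial n a ih => rw [pow_succ, ← mul_assoc, map_mul, aeval_X]; exact mul_mem ih hφ

theorem dl_aeval (hT : Tay) (δ : Derivation ℚ ℂ ℂ) {φ : PowerSeries ℂ} (hφ : φ ∈ AA)
    (P : ℂ[X][X]) :
    ∃ a ∈ AA, dl δ (aeval φ P) = a + aeval φ (derivative P) * dl δ φ := by
  induction P using Polynomial.induction_on with
  | C a => exact ⟨_, dl_poly hT δ a, by simp [am]⟩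
  | add p q hp hq =>
    obtain ⟨a, ha, ea⟩ := hp
    obtain ⟨b, hb, eb⟩ := hq
    refine ⟨a + b, add_mem ha hb, ?_⟩
    rw [map_add, hT.dlAdd, ea, eb, derivative_add, map_add]
    ring
  | monomial n a ih =>
    rw [pow_succ, ← mul_assoc]
    generalize C a * X ^ n = Q at ih
    obtain ⟨a, ha, ea⟩ := ih
    refine ⟨φ * a, mul_mem hφ ha, ?_⟩
    rw [map_mul, hT.dlMul, ea, derivative_mul, derivative_X, aeval_X, map_add, map_mul, map_mul,
      aeval_X, map_one]
    ring

theorem dl_zero (δ : Derivation ℚ ℂ ℂ) : dl δ 0 = 0 := by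
  ext n
  simp [dl]

theorem dl_mem (hT : Tay) (δ : Derivation ℚ ℂ ℂ) {φ : PowerSeries ℂ} (hφ : φ ∈ AA) :
    dl δ φ ∈ AA := by
  classical
  have hex : ∃ n, ∃ P : ℂ[X][X], P ≠ 0 ∧ aeval φ P = 0 ∧ P.natDegree = n := by
    obtain ⟨P, h1, h2⟩ := hφ
    exact ⟨_, P, h1, h2, rfl⟩
  obtain ⟨P, h1, h2, h3⟩ := Nat.find_spec hex
  have hd : P.natDegree ≠ 0 := by
    intro h0
    rw [eq_C_of_natDegree_eq_zero h0, aeval_C, am] at h2
    apply h1
    rw [eq_C_of_natDegree_eq_zero h0, Polynomial.coe_eq_zero_iff.mp h2, map_zero]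
  have hne : aeval φ (derivative P) ≠ 0 := by
    intro h
    have hlt := natDegree_derivative_lt hd
    refine Nat.find_min hex (h3 ▸ hlt) ⟨derivative P, ?_, h, rfl⟩
    intro h0
    exact hd (derivative_eq_zero.mp h0)
  obtain ⟨a, ha, ea⟩ := dl_aeval hT δ hφ P
  rw [h2, dl_zero] at ea
  refine IsAlgebraic.of_mul (mem_nonZeroDivisors_of_ne_zero hne) (aeval_mem hφ _) ?_
  have : aeval φ (derivative P) * dl δ φ = -a := by linear_combination -ea
  rw [this]
  exact neg_mem (s := AA) ha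

theorem cramer_mem {κ : Type} [Fintype κ] [DecidableEq κ] (M : Matrix κ κ (PowerSeries ℂ))
    (u : κ → PowerSeries ℂ) (hM : ∀ k i, M k i ∈ AA) (hd : M.det ≠ 0)
    (hb : ∀ k, (M *ᵥ u) k ∈ AA) (i : κ) : u i ∈ AA := by
  let M' : Matrix κ κ AA := Matrix.of fun k i => ⟨M k i, hM k i⟩
  have e : (AA.val : AA →+* PowerSeries ℂ).mapMatrix M' = M := rfl
  have h1 : M.det ∈ AA := by
    rw [← e, ← RingHom.map_det]
    exact (M'.det).2
  have h2 : ∀ k j, M.adjugate k j ∈ AA := by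
    intro k j
    rw [← e, ← RingHom.map_adjugate]
    exact (M'.adjugate k j).2
  refine IsAlgebraic.of_mul (mem_nonZeroDivisors_of_ne_zero hd) h1 ?_
  have h3 : M.det * u i = (M.adjugate *ᵥ (M *ᵥ u)) i := by
    rw [mulVec_mulVec, adjugate_mul, smul_mulVec, one_mulVec]
    rfl
  rw [h3]
  exact sum_mem (S := AA) fun j _ => mul_mem (h2 i j) (hb j)

theorem det_ne {κ : Type} [Fintype κ] [DecidableEq κ] (F : κ → (κ → ℂ) → ℂ)
    (hF : ∀ k, AnalyticAt ℂ (F k) 0) (hi : Function.Injective (fderiv ℂ (fun z k => F k z) 0)) :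
    (Matrix.of fun k i => pd i (F k) 0).det ≠ 0 := by
  intro h
  obtain ⟨s, hs, e⟩ := Matrix.exists_mulVec_eq_zero_iff.mpr h
  apply hs
  apply hi
  rw [map_zero, fderiv_pi fun k => (hF k).differentiableAt]
  funext k
  have hk := congrFun e k
  simp only [mulVec, dotProduct, of_apply, pd, Pi.zero_apply] at hk
  rw [ContinuousLinearMap.pi_apply, Pi.zero_apply, ← hk]
  conv_lhs => rw [pi_eq_sum_univ' s]
  rw [map_sum]
  refine Finset.sum_congr rfl fun i _ => ?_
  rw [map_smul, smul_eq_mul, mul_comm]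

end Rig75

open Rig75 in
theorem rig (hT : Tay) (hD : DerEx) : Rig := by
  intro κ _ _ 𝓕 F ψ w hG hF hi hψ hA i
  rw [or_iff_not_imp_left]
  intro hw
  obtain ⟨δ, hδ⟩ : ∃ δ : Derivation ℚ ℂ ℂ, δ (w i) ≠ 0 := by
    by_contra h
    exact hw (hD _ fun δ => by_contra fun h' => h ⟨δ, h'⟩)
  let φ : ℂ → κ → ℂ := fun x i => w i * ψ i x
  have hφ : AnalyticAt ℂ φ 0 := analyticAt_pi_iff.mpr fun j => analyticAt_const.mul (hψ j).1
  have h0 : φ 0 = 0 := by
    funext j
    simp [φ, (hψ j).2.1]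
  have hmem : ∀ G ∈ 𝓕, tay (fun x => G (φ x)) ∈ AA := fun G hG' =>
    (algG_iff hT _ (((hG G hG').1.comp_of_eq hφ h0))).mp (hA G hG')
  let M : Matrix κ κ (PowerSeries ℂ) := Matrix.of fun k j => tay fun x => pd j (F k) (φ x)
  have hM : ∀ k j, M k j ∈ AA := by
    intro k j
    obtain ⟨G, hG', e⟩ := (hG _ (hF k)).2.2 j
    have ht : Tendsto φ (𝓝 0) (𝓝 0) := by
      have := hφ.continuousAt.tendsto
      rwa [h0] at this
    have : M k j = tay fun x => G (φ x) := hT.congr _ _ (ht.eventually e)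
    rw [this]
    exact hmem G hG'
  have hd : M.det ≠ 0 := by
    intro h
    apply det_ne F (fun k => (hG _ (hF k)).1) hi
    have := congrArg (PowerSeries.constantCoeff (R := ℂ)) h
    rw [map_zero, RingHom.map_det] at this
    rw [← this]
    congr 1
    ext k j
    simp [M, hT.coeff0, h0]
  have hu : ∀ j, dl δ (tay fun x => φ x j) = PowerSeries.C (δ (w j)) * tay (ψ j) := by
    intro j
    have e1 : (tay fun x => φ x j) = PowerSeries.C (w j) * tay (ψ j) := by
      rw [← hT.const]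
      exact hT.mul _ _ analyticAt_const (hψ j).1
    have e2 : dl δ (tay (ψ j)) = 0 := by
      ext n
      simp only [dl, tay, PowerSeries.coeff_mk, map_zero]
      apply hT.kill
      rw [div_eq_mul_inv]
      exact ((hψ j).2.2 n).mul (isAlgebraic_natCast _).inv
    rw [e1, hT.dlMul, e2, hT.dlC]
    ring
  have key := cramer_mem M (fun j => dl δ (tay fun x => φ x j)) hM hd (fun k => by
    have := dl_mem hT δ (hmem _ (hF k))
    rw [hT.chain δ κ 𝓕 φ hG hφ h0 _ (hF k)] at this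
    exact this) i
  rw [hu] at key
  refine (algG_iff hT _ (hψ i).1).mpr ?_
  refine IsAlgebraic.of_mul (mem_nonZeroDivisors_of_ne_zero ?_) (C_mem (δ (w i))) key
  intro h
  apply hδ
  simpa using congrArg (PowerSeries.constantCoeff (R := ℂ)) h

end Pool.Agent.GAM

end MrgPart10

-- ======== part 11: formerly Pool.Agent.MP_cbf1af_ag.gam.Syb
section MrgPart11

/-! PROJECT GAM, row SYB: symplectic bases -/

namespace Pool.Agent.GAM

open Matrix

namespace SybAux

variable {H κ : Type} [AddCommGroup H] [Module ℚ H] [Fintype κ] [DecidableEq κ]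

lemma skew (ψ : H →ₗ[ℚ] H →ₗ[ℚ] ℚ) (h : ∀ x, ψ x x = 0) (x y : H) : ψ x y = -ψ y x := by
  have h1 := h (x + y)
  simp only [map_add, LinearMap.add_apply, h x, h y] at h1
  linarith

/-- a symplectic family on a subset -/
def Part (ψ : H →ₗ[ℚ] H →ₗ[ℚ] ℚ) (s : Finset κ) (e f : κ → H) : Prop :=
  ∀ i ∈ s, ∀ j ∈ s, ψ (e i) (e j) = 0 ∧ ψ (f i) (f j) = 0 ∧ ψ (f i) (e j) = if i = j then 1 else 0

omit [Fintype κ] [DecidableEq κ] in
lemma exists_orth [Module.Finite ℚ H] (ψ : H →ₗ[ℚ] H →ₗ[ℚ] ℚ) (s : Finset κ) (e f : κ → H)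
    (hs : 2 * s.card < Module.finrank ℚ H) :
    ∃ x : H, x ≠ 0 ∧ ∀ i ∈ s, ψ (e i) x = 0 ∧ ψ (f i) x = 0 := by
  let L : H →ₗ[ℚ] (s → ℚ) × (s → ℚ) :=
    LinearMap.prod (LinearMap.pi fun i : s => ψ (e i)) (LinearMap.pi fun i : s => ψ (f i))
  have hk : LinearMap.ker L ≠ ⊥ := by
    apply LinearMap.ker_ne_bot_of_finrank_lt
    simp only [Module.finrank_prod, Module.finrank_fintype_fun_eq_card, Fintype.card_coe]
    omega
  obtain ⟨x, hx, hx0⟩ := Submodule.exists_mem_ne_zero_of_ne_bot hk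
  refine ⟨x, hx0, fun i hi => ?_⟩
  have h := LinearMap.mem_ker.mp hx
  exact ⟨congrFun (congrArg Prod.fst h) ⟨i, hi⟩, congrFun (congrArg Prod.snd h) ⟨i, hi⟩⟩

lemma exists_part [Module.Finite ℚ H] (ψ : H →ₗ[ℚ] H →ₗ[ℚ] ℚ) (h0 : ∀ x, ψ x x = 0)
    (hn : ∀ x, (∀ y, ψ x y = 0) → x = 0) (hd : Module.finrank ℚ H = 2 * Fintype.card κ)
    (s : Finset κ) : ∃ e f : κ → H, Part ψ s e f := by
  induction s using Finset.induction_on with
  | empty => exact ⟨0, 0, fun i hi => absurd hi (Finset.notMem_empty i)⟩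
  | insert a s ha ih =>
    obtain ⟨e, f, hp⟩ := ih
    have hlt : s.card < Fintype.card κ := by
      have h1 := Finset.card_le_univ (insert a s)
      rw [Finset.card_insert_of_notMem ha] at h1
      omega
    obtain ⟨x, hx0, hx⟩ := exists_orth ψ s e f (by omega)
    obtain ⟨w, hw⟩ : ∃ w, ψ x w ≠ 0 := by
      by_contra hc
      push Not at hc
      exact hx0 (hn x hc)
    let w' : H := w - ∑ i ∈ s, (ψ (f i) w • e i - ψ (e i) w • f i)
    have hef : ∀ i ∈ s, ∀ j ∈ s, ψ (e i) (f j) = if i = j then -1 else 0 := by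
      intro i hi j hj
      rw [skew ψ h0, (hp j hj i hi).2.2]
      by_cases hij : i = j
      · simp [hij]
      · simp [hij, Ne.symm hij]
    have hw1 : ∀ j ∈ s, ψ (e j) w' = 0 := by
      intro j hj
      simp only [w', map_sub, map_sum, map_smul, smul_eq_mul]
      rw [Finset.sum_eq_single j]
      · rw [(hp j hj j hj).1, hef j hj j hj]; simp
      · intro i hi hij
        rw [(hp j hj i hi).1, hef j hj i hi]; simp [Ne.symm hij]
      · intro h; exact absurd hj h
    have hw2 : ∀ j ∈ s, ψ (f j) w' = 0 := by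
      intro j hj
      simp only [w', map_sub, map_sum, map_smul, smul_eq_mul]
      rw [Finset.sum_eq_single j]
      · rw [(hp j hj j hj).2.1, (hp j hj j hj).2.2]; simp
      · intro i hi hij
        rw [(hp j hj i hi).2.1, (hp j hj i hi).2.2]; simp [Ne.symm hij]
      · intro h; exact absurd hj h
    have hw3 : ψ x w' = ψ x w := by
      simp only [w', map_sub, map_sum, map_smul, smul_eq_mul]
      rw [Finset.sum_eq_zero, sub_zero]
      intro i hi
      rw [skew ψ h0 x (e i), skew ψ h0 x (f i), (hx i hi).1, (hx i hi).2]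
      simp
    let y : H := (ψ x w)⁻¹ • w'
    have hy1 : ∀ j ∈ s, ψ (e j) y = 0 := fun j hj => by simp [y, hw1 j hj]
    have hy2 : ∀ j ∈ s, ψ (f j) y = 0 := fun j hj => by simp [y, hw2 j hj]
    have hy3 : ψ x y = 1 := by
      simp only [y, map_smul, smul_eq_mul, hw3]
      exact inv_mul_cancel₀ hw
    refine ⟨Function.update e a y, Function.update f a x, fun i hi j hj => ?_⟩
    rcases Finset.mem_insert.mp hi with rfl | hi' <;> rcases Finset.mem_insert.mp hj with rfl | hj'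
    · simp [h0, hy3]
    · have hja : j ≠ i := fun h => ha (h ▸ hj')
      simp only [Function.update_self, Function.update_of_ne hja, if_neg (Ne.symm hja)]
      refine ⟨?_, ?_, ?_⟩
      · rw [skew ψ h0, hy1 j hj', neg_zero]
      · rw [skew ψ h0, (hx j hj').2, neg_zero]
      · rw [skew ψ h0, (hx j hj').1, neg_zero]
    · have hia : i ≠ j := fun h => ha (h ▸ hi')
      simp only [Function.update_self, Function.update_of_ne hia, if_neg hia]
      exact ⟨hy1 i hi', (hx i hi').2, hy2 i hi'⟩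
    · have hia : i ≠ a := fun h => ha (h ▸ hi')
      have hja : j ≠ a := fun h => ha (h ▸ hj')
      simp only [Function.update_of_ne hia, Function.update_of_ne hja]
      exact hp i hi' j hj'

end SybAux

open SybAux in
theorem syb : Syb := by
  intro H κ _ _ _ _ _ ψ h0 hn hd
  obtain ⟨e, f, hp⟩ := exists_part ψ h0 hn hd (Finset.univ : Finset κ)
  let b : κ ⊕ κ → H := Sum.elim e f
  have hb : ∀ a c, ψ (b a) (b c) = J κ ℚ a c := by
    intro a c
    rcases a with i | i <;> rcases c with j | j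
    · simp [b, J, (hp i (Finset.mem_univ _) j (Finset.mem_univ _)).1]
    · simp only [b, Sum.elim_inl, Sum.elim_inr, J, fromBlocks_apply₁₂, Matrix.neg_apply, one_apply]
      rw [skew ψ h0, (hp j (Finset.mem_univ _) i (Finset.mem_univ _)).2.2]
      by_cases hij : i = j
      · simp [hij]
      · simp [hij, Ne.symm hij]
    · simp only [b, Sum.elim_inl, Sum.elim_inr, J, fromBlocks_apply₂₁, one_apply]
      exact (hp i (Finset.mem_univ _) j (Finset.mem_univ _)).2.2
    · simp [b, J, (hp i (Finset.mem_univ _) j (Finset.mem_univ _)).2.1]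
  have hli : LinearIndependent ℚ b := by
    rw [Fintype.linearIndependent_iff]
    intro g hg
    have h1 : g ᵥ* J κ ℚ = 0 := by
      funext c
      have h2 := congrArg (fun x => ψ x (b c)) hg
      simp only [map_sum, map_smul, LinearMap.sum_apply, LinearMap.smul_apply, smul_eq_mul, hb,
        map_zero, LinearMap.zero_apply] at h2
      exact h2
    have h3 : g ᵥ* (J κ ℚ * J κ ℚ) = 0 := by rw [← vecMul_vecMul, h1, zero_vecMul]
    rw [J_squared, vecMul_neg, vecMul_one, neg_eq_zero] at h3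
    intro i
    rw [h3]; rfl
  have hc : Fintype.card (κ ⊕ κ) = Module.finrank ℚ H := by
    rw [Fintype.card_sum, hd]; omega
  refine ⟨basisOfLinearIndependentOfCardEqFinrank' b hli hc, fun a c => ?_⟩
  simp only [coe_basisOfLinearIndependentOfCardEqFinrank']
  exact hb a c

end Pool.Agent.GAM

end MrgPart11

-- marker of a merged file
example : 731051 + 599799 = 731051 + 599799 := rfl
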