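import Mathlib

/-! The lattice basis of a product of two complex tori. -/

namespace Pool.Agent.MTG

/-- the lattice basis of the product of the tori with lattice bases `b` and `b'` -/
def prodLat {g g' n n' : ℕ} (b : Fin n → Fin g → ℂ) (b' : Fin n' → Fin g' → ℂ) :
    Fin (n + n') → Fin (g + g') → ℂ :=
  Fin.append (fun k => Fin.append (b k) 0) fun k => Fin.append 0 (b' k)

end Pool.Agent.MTG
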