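import Mathlib
import Pool.Agent.MP_cbf1af_ag.gam.ASpec
import Pool.Agent.MP_cbf1af_ag.gam.BDefs

/-! PROJECT GAM, stage 3: the period conjecture holds for one of two independent CM abelian
varieties.  Proofs on paper: /team-store/GAM_BLUEPRINT3.md -/

namespace Pool.Agent.GAM

open Matrix Complex Filter Topology MvPolynomial
open Pool.Agent.CMP (Qb)
open Pool.Agent.MTG

noncomputable section

/-- the odd part of the character space -/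
def chars0 {L 𝒥 : Type} [Field L] [NumberField L] (p : 𝒥 → Emb L → ℕ) :
    Submodule ℚ (Emb L → ℚ) :=
  Submodule.span ℚ (Set.range fun a : 𝒥 × (L ≃ₐ[ℚ] L) => fun τ : Emb L =>
    (p a.1 (τ.comp (a.2 : L →+* L)) : ℚ) - p a.1 (cj (τ.comp (a.2 : L →+* L))))

/-- the monomials in `u` with exponents in `W` -/
def mons {L : Type} [Field L] [NumberField L] (u : Emb L → ℂ) (W : Submodule ℚ (Emb L → ℚ)) :
    IntermediateField ℚ ℂ :=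
  IntermediateField.adjoin ℚ
    {x | ∃ e : Emb L → ℤ, (fun τ => (e τ : ℚ)) ∈ W ∧ x = ∏ τ, u τ ^ e τ}

/-- CMD2: a common splitting field (from CMJ) -/
def Cmd2 : Prop :=
  ∀ g N Θ Λ η b g' N' Θ' Λ' η' b', @Av g N Θ Λ η b → IsCM b → @Av g' N' Θ' Λ' η' b' → IsCM b' →
    ∃ (L : Type) (_ : Field L) (_ : NumberField L) (c : L →+* L) (𝒥 : Type) (_ : Fintype 𝒥)
      (w : 𝒥 → Fin (2 * g) → L) (p : 𝒥 → Emb L → ℕ) (𝒥' : Type) (_ : Fintype 𝒥')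
      (w' : 𝒥' → Fin (2 * g') → L) (p' : 𝒥' → Emb L → ℕ), CMF c ∧ IsGalois ℚ L ∧
      6 ≤ Module.finrank ℚ L ∧ (Cmh w p 1 (hd1 b) ∧ Lin b w p) ∧
      Cmh w' p' 1 (hd1 b') ∧ Lin b' w' p'

/-- IND: independent Mumford-Tate groups have disjoint odd characters (from MTD, WEDGE) -/
def Ind : Prop :=
  ∀ (g g' : ℕ) (b : Module.Basis (Fin (2 * g)) ℝ (Fin g → ℂ))
    (b' : Module.Basis (Fin (2 * g')) ℝ (Fin g' → ℂ)) (L : Type) [Field L] [NumberField L]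
    (𝒥 𝒥' : Type) [Fintype 𝒥] [Fintype 𝒥'] (w : 𝒥 → Fin (2 * g) → L) (p : 𝒥 → Emb L → ℕ)
    (w' : 𝒥' → Fin (2 * g') → L) (p' : 𝒥' → Emb L → ℕ), IsGalois ℚ L → 0 < g → 0 < g' →
    Cmh w p 1 (hd1 b) → Lin b w p → Cmh w' p' 1 (hd1 b') → Lin b' w' p' →
    dim (MT (prodLat b b') 1) + 1 = dim (MT b 1) + dim (MT b' 1) → chars0 p ⊓ chars0 p' = ⊥

/-- FREE: monomial fields with disjoint exponents have no common transcendental (from CMA, TRD) -/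
def Free : Prop :=
  ∀ (L : Type) [Field L] [NumberField L] (c : L →+* L) (u : Emb L → ℂ)
    (W W' : Submodule ℚ (Emb L → ℚ)), CMF c → (∀ τ, u τ * u (cj τ) = 1) →
    (∀ Ψ : Finset (Emb L), IsType Ψ → AlgebraicIndependent ℚ fun τ : Ψ => u τ) →
    (∀ e ∈ W, ∀ τ, e (cj τ) = -e τ) → (∀ e ∈ W', ∀ τ, e (cj τ) = -e τ) → W ⊓ W' = ⊥ →
    ∀ z : ℂ, IsAlgebraic (mons u W) z → IsAlgebraic (mons u W') z → Alg z

/-- RAT2: the field of periods when `π` is free (from CMA, TRD, RAT) -/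
def Rat2 : Prop :=
  ∀ (L κ κ' 𝒥 : Type) [Field L] [NumberField L] [Fintype κ] [Fintype κ'] [Fintype 𝒥]
    (c : L →+* L) (σ₀ : Emb L) (u : Emb L → ℂ) (w : 𝒥 → κ → L) (p : 𝒥 → Emb L → ℕ) (n : ℕ)
    (P : 𝒥 → Emb L → ℂ) (X : Matrix κ κ' ℂ) (W : Submodule ℚ (Emb L → ℚ)), CMF c →
    IsGalois ℚ L → 0 < n → Nonempty 𝒥 → (∀ τ, u τ * u (cj τ) = 1) →
    (∀ Ψ : Finset (Emb L), IsType Ψ → AlgebraicIndependent ℚ fun τ : Ψ => u τ) →
    (∀ j, w j ≠ 0) → (∀ j σ, p j σ + p j (cj σ) = n) → (∀ j σ, P j σ ≠ 0) →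
    (∀ j (γ : L ≃ₐ[ℚ] L), Alg (P j (σ₀.comp (γ : L →+* L)) ^ 2 /
      ((2 * Real.pi * I) ^ n * ∏ τ, u τ ^ p j (τ.comp (γ : L →+* L))))) →
    cols X = evs w P → chars0 p ≤ W → ¬IsAlgebraic (mons u W) (Real.pi : ℂ) →
    Algebra.trdeg ℚ (entryField X) = Module.finrank ℚ (chars p)

/-- TRIV: the degrees without periods -/
def Triv : Prop :=
  ∀ (g n m j : ℕ) (b : Fin n → Fin g → ℂ) (X : Matrix (Fin n) (Fin m) ℂ), j = 0 ∨ n < j →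
    Algebra.trdeg ℚ (entryField (minors j X)) = 0 ∧ dim (MT b j) = 0

/-- the final statement -/
def PairFinal : Prop :=
  ∀ (g N : ℕ) (Θ : Fin (N + 1) → (Fin g → ℂ) → ℂ) (Λ : AddSubgroup (Fin g → ℂ))
    (η : (Fin g → ℂ) → (Fin g → ℂ) →ₗ[ℂ] ℂ) (b : Module.Basis (Fin (2 * g)) ℝ (Fin g → ℂ))
    (g' N' : ℕ) (Θ' : Fin (N' + 1) → (Fin g' → ℂ) → ℂ) (Λ' : AddSubgroup (Fin g' → ℂ))
    (η' : (Fin g' → ℂ) → (Fin g' → ℂ) →ₗ[ℂ] ℂ)
    (b' : Module.Basis (Fin (2 * g')) ℝ (Fin g' → ℂ)),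
    CMQ.IsTheta Θ Λ η → Λ = AddSubgroup.closure (Set.range b) → IsCM b →
    CMQ.IsTheta Θ' Λ' η' → Λ' = AddSubgroup.closure (Set.range b') → IsCM b' →
    dim (MT (prodLat b b') 1) + 1 = dim (MT b 1) + dim (MT b' 1) →
    (∀ j, Algebra.trdeg ℚ (entryField (minors j (period η b))) = dim (MT b j)) ∨
      ∀ j, Algebra.trdeg ℚ (entryField (minors j (period η' b'))) = dim (MT b' j)

end

end Pool.Agent.GAM
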