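import Mathlib.Data.Rat.Star
import Pool.Agent.MP_cbf1af_ag.gam.Spec
import Mathlib.RingTheory.Flat.FaithfullyFlat.Algebra
import Mathlib.RingTheory.SimpleRing.Principal
import Mathlib.Order.CompletePartialOrder
import Mathlib.Data.Int.Star
import Mathlib.Analysis.SpecialFunctions.Complex.CircleAddChar
import Mathlib.Analysis.SpecialFunctions.Gamma.Beta
import Mathlib.NumberTheory.Niven
import Mathlib.NumberTheory.NumberField.CMField

-- ======== part 0: formerly Pool.Agent.MP_cbf1af_ag.gam.SpGen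
section MrgPart0

/-! PROJECT GAM, module SPGEN: generators of the rational symplectic group -/

namespace Pool.Agent.GAM

open Matrix SymplecticGroup

set_option linter.unusedSectionVars false

namespace SpG

variable {κ : Type} [Fintype κ] [DecidableEq κ]

theorem sp_nn {B : Matrix κ κ ℚ} (hB : B.IsSymm) : Sp (nn B) := by
  simp [Sp, nn, fromBlocks_mem_iff, hB.eq]

theorem sp_mm {A : Matrix κ κ ℚ} (hA : IsUnit A.det) : Sp (mm A) := by
  simp only [Sp, mm, fromBlocks_mem_iff, Matrix.mul_zero, transpose_zero, Matrix.zero_mul,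
    sub_zero, true_and]
  rw [← transpose_mul, nonsing_inv_mul _ hA, transpose_one]

/-- the diagonal projection -/
def E (s : Finset κ) : Matrix κ κ ℚ := diagonal fun i => if i ∈ s then 1 else 0

/-- inversion in a set of coordinates -/
def JJ (s : Finset κ) : Matrix (κ ⊕ κ) (κ ⊕ κ) ℚ := fromBlocks (1 - E s) (-E s) (E s) (1 - E s)

theorem E_single (i : κ) : (single i i 1 : Matrix κ κ ℚ) = E {i} := by
  ext a b
  by_cases h : a = b
  · subst h
    simp [E, single, eq_comm]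
  · have : ¬ (i = a ∧ i = b) := fun h' => h (h'.1.symm.trans h'.2)
    simp [E, single, h, this]

theorem jj_eq (i : κ) : jj i = JJ {i} := by
  simp only [jj, JJ, E_single]

theorem E_mul (s t : Finset κ) : E s * E t = E (s ∩ t) := by
  simp only [E, diagonal_mul_diagonal]
  congr 1
  ext i
  by_cases h : i ∈ s <;> by_cases h' : i ∈ t <;> simp [h, h']

theorem E_empty : E (∅ : Finset κ) = 0 := by simp [E]

theorem E_univ : E (Finset.univ : Finset κ) = 1 := by simp [E]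

theorem E_tr (s : Finset κ) : (E s)ᵀ = E s := by simp [E]

theorem E_insert {i : κ} {s : Finset κ} (h : i ∉ s) : E (insert i s) = E {i} + E s := by
  simp only [E, diagonal_add]
  congr 1
  ext a
  by_cases h1 : a = i
  · subst h1
    simp [h]
  · simp [h1]

theorem sp_JJ (s : Finset κ) : Sp (JJ s) := by
  have h : E s * E s = E s := by rw [E_mul, Finset.inter_self]
  simp only [Sp, JJ, fromBlocks_mem_iff, transpose_sub, transpose_one, transpose_neg, E_tr,
    Matrix.sub_mul, Matrix.mul_sub, Matrix.one_mul, Matrix.mul_one, Matrix.neg_mul,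
    Matrix.mul_neg, h]
  refine ⟨trivial, by abel, by abel⟩

theorem JJ_insert {i : κ} {s : Finset κ} (h : i ∉ s) : JJ (insert i s) = JJ {i} * JJ s := by
  have h0 : E {i} * E s = 0 := by
    rw [E_mul, Finset.singleton_inter_of_notMem h, E_empty]
  simp only [JJ, fromBlocks_multiply, E_insert h, Matrix.sub_mul, Matrix.mul_sub, Matrix.one_mul,
    Matrix.mul_one, Matrix.neg_mul, Matrix.mul_neg, h0]
  congr 1 <;> abel

theorem JJ_empty : JJ (∅ : Finset κ) = nn 0 := by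
  simp [JJ, nn, E_empty]

theorem JJ_univ : JJ (Finset.univ : Finset κ) = J κ ℚ := by
  simp [JJ, J, E_univ]

theorem exists_shift {A B C D : Matrix κ κ ℚ} (h : Sp (fromBlocks A B C D)) :
    ∃ s : ℚ, IsUnit (A + s • C).det := by
  obtain ⟨h1, -, h3⟩ := fromBlocks_mem_iff.1 h
  by_contra hc
  have hc' : ∀ s : ℚ, ∃ u : κ → ℚ, u ≠ 0 ∧ (A + s • C) *ᵥ u = 0 := fun s =>
    exists_mulVec_eq_zero_iff.2 (by
      by_contra h0
      exact hc ⟨s, isUnit_iff_ne_zero.2 h0⟩)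
  choose u hu0 hu using hc'
  have hA : ∀ s, A *ᵥ u s = -(s • C *ᵥ u s) := fun s => by
    have := hu s
    rw [add_mulVec, smul_mulVec] at this
    exact eq_neg_of_add_eq_zero_left this
  have hne : ∀ s, C *ᵥ u s ≠ 0 := fun s h0 => by
    apply hu0 s
    have h4 : (Dᵀ * A - Bᵀ * C) = 1 := by simpa using congrArg transpose h3
    have h5 : (Dᵀ * A - Bᵀ * C) *ᵥ u s = 0 := by
      rw [sub_mulVec, ← mulVec_mulVec, ← mulVec_mulVec, hA, h0]
      simp
    rwa [h4, one_mulVec] at h5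
  have hsym : ∀ x y : κ → ℚ, (A *ᵥ x) ⬝ᵥ (C *ᵥ y) = (C *ᵥ x) ⬝ᵥ (A *ᵥ y) := fun x y => by
    rw [← vecMul_transpose, ← dotProduct_mulVec, mulVec_mulVec, h1, ← mulVec_mulVec,
      dotProduct_mulVec, vecMul_transpose]
  have hort : ∀ s t : ℚ, s ≠ t → (C *ᵥ u s) ⬝ᵥ (C *ᵥ u t) = 0 := fun s t hst => by
    have := hsym (u s) (u t)
    rw [hA, hA, neg_dotProduct, dotProduct_neg, smul_dotProduct, dotProduct_smul, neg_inj,
      smul_eq_mul, smul_eq_mul] at this
    by_contra h0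
    exact hst (mul_right_cancel₀ h0 this)
  have hli : LinearIndependent ℚ fun s : ℚ => C *ᵥ u s := by
    rw [linearIndependent_iff']
    intro t g hg s hs
    have h6 := congrArg (fun x => x ⬝ᵥ (C *ᵥ u s)) hg
    simp only [sum_dotProduct, smul_dotProduct, zero_dotProduct, smul_eq_mul] at h6
    rw [Finset.sum_eq_single s (fun b _ hb => by rw [hort b s hb, mul_zero])
      (fun h' => absurd hs h')] at h6
    exact (mul_eq_zero.1 h6).resolve_right fun h7 => hne s (dotProduct_self_eq_zero.1 h7)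
  have : Finite ℚ := hli.finite
  exact not_finite ℚ

theorem lower_eq (Y : Matrix κ κ ℚ) :
    (fromBlocks 1 0 Y 1 : Matrix (κ ⊕ κ) (κ ⊕ κ) ℚ) =
      J κ ℚ * nn (-Y) * (J κ ℚ * J κ ℚ * J κ ℚ) := by
  simp [J, nn, fromBlocks_multiply]

theorem decomp {A B C D : Matrix κ κ ℚ} (h : Sp (fromBlocks A B C D)) (hA : IsUnit A.det) :
    (C * A⁻¹).IsSymm ∧ (A⁻¹ * B).IsSymm ∧
      fromBlocks A B C D = fromBlocks 1 0 (C * A⁻¹) 1 * mm A * nn (A⁻¹ * B) := by
  obtain ⟨h1, -, h3⟩ := fromBlocks_mem_iff.1 h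
  have ht := transpose_mem h
  rw [fromBlocks_transpose] at ht
  obtain ⟨h2, -, -⟩ := fromBlocks_mem_iff.1 ht
  rw [transpose_transpose, transpose_transpose] at h2
  have i1 : A⁻¹ * A = 1 := nonsing_inv_mul _ hA
  have i2 : A * A⁻¹ = 1 := mul_nonsing_inv _ hA
  have i3 : A⁻¹ᵀ * Aᵀ = 1 := by rw [← transpose_mul, i2, transpose_one]
  have i4 : Aᵀ * A⁻¹ᵀ = 1 := by rw [← transpose_mul, i1, transpose_one]
  have s1 : A⁻¹ᵀ * Cᵀ = C * A⁻¹ := by
    calc A⁻¹ᵀ * Cᵀ = A⁻¹ᵀ * (Cᵀ * A) * A⁻¹ := by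
          rw [Matrix.mul_assoc, Matrix.mul_assoc, i2, Matrix.mul_one]
      _ = C * A⁻¹ := by rw [← h1, ← Matrix.mul_assoc, i3, Matrix.one_mul]
  have s2 : Bᵀ * A⁻¹ᵀ = A⁻¹ * B := by
    calc Bᵀ * A⁻¹ᵀ = A⁻¹ * (A * Bᵀ) * A⁻¹ᵀ := by
          rw [← Matrix.mul_assoc, i1, Matrix.one_mul]
      _ = A⁻¹ * B := by
          rw [h2, Matrix.mul_assoc, Matrix.mul_assoc, i4, Matrix.mul_one]
  refine ⟨by rw [IsSymm, transpose_mul, s1], by rw [IsSymm, transpose_mul, s2], ?_⟩
  have e1 : A * (A⁻¹ * B) = B := by rw [← Matrix.mul_assoc, i2, Matrix.one_mul]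
  have e2 : C * A⁻¹ * A = C := by rw [Matrix.mul_assoc, i1, Matrix.mul_one]
  have e3 : C * (A⁻¹ * B) + A⁻¹ᵀ = D := by
    calc C * (A⁻¹ * B) + A⁻¹ᵀ = A⁻¹ᵀ * (Cᵀ * B + 1) := by
          rw [Matrix.mul_add, Matrix.mul_one, ← Matrix.mul_assoc, ← Matrix.mul_assoc, s1]
      _ = D := by
          rw [← h3, add_sub_cancel, ← Matrix.mul_assoc, i3, Matrix.one_mul]
  simp only [mm, nn, fromBlocks_multiply, Matrix.one_mul, Matrix.mul_one, Matrix.zero_mul,
    Matrix.mul_zero, add_zero, zero_add, e1, e2, e3]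

end SpG

open SpG in
theorem spGen : All SpGen := by
  intro κ _ _ p hn hm hj hmul γ hγ
  let q : Matrix (κ ⊕ κ) (κ ⊕ κ) ℚ → Prop := fun γ => Sp γ ∧ p γ
  have qmul : ∀ {a b}, q a → q b → q (a * b) := fun ha hb =>
    ⟨(symplecticGroup κ ℚ).mul_mem ha.1 hb.1, hmul _ _ ha.1 hb.1 ha.2 hb.2⟩
  have qn : ∀ {B : Matrix κ κ ℚ}, B.IsSymm → q (nn B) := fun hB => ⟨sp_nn hB, hn _ hB⟩
  have qm : ∀ {A : Matrix κ κ ℚ}, IsUnit A.det → q (mm A) := fun hA => ⟨sp_mm hA, hm _ hA⟩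
  have qJJ : ∀ s : Finset κ, q (JJ s) := by
    intro s
    induction s using Finset.induction_on with
    | empty => rw [JJ_empty]; exact qn isSymm_zero
    | insert i s hi ih =>
      rw [JJ_insert hi]
      exact qmul ⟨sp_JJ _, by rw [← jj_eq]; exact hj i⟩ ih
  have qJ : q (J κ ℚ) := by rw [← JJ_univ]; exact qJJ _
  have qA : ∀ {A B C D : Matrix κ κ ℚ}, Sp (fromBlocks A B C D) → IsUnit A.det →
      q (fromBlocks A B C D) := by
    intro A B C D h hA
    obtain ⟨s1, s2, e⟩ := decomp h hA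
    rw [e, lower_eq]
    exact qmul (qmul (qmul (qmul qJ (qn s1.neg)) (qmul (qmul qJ qJ) qJ)) (qm hA)) (qn s2)
  rw [← fromBlocks_toBlocks γ] at hγ ⊢
  generalize γ.toBlocks₁₁ = A, γ.toBlocks₁₂ = B, γ.toBlocks₂₁ = C, γ.toBlocks₂₂ = D at hγ ⊢
  obtain ⟨s, hs⟩ := exists_shift hγ
  have hs1 : (s • (1 : Matrix κ κ ℚ)).IsSymm := isSymm_one.smul s
  have e1 : nn (s • (1 : Matrix κ κ ℚ)) * fromBlocks A B C D =
      fromBlocks (A + s • C) (B + s • D) C D := by
    simp [nn, fromBlocks_multiply]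
  have e2 : fromBlocks A B C D =
      nn (-(s • (1 : Matrix κ κ ℚ))) * fromBlocks (A + s • C) (B + s • D) C D := by
    simp [nn, fromBlocks_multiply]
  have h2 : Sp (fromBlocks (A + s • C) (B + s • D) C D) := by
    rw [← e1]
    exact (symplecticGroup κ ℚ).mul_mem (sp_nn hs1) hγ
  rw [e2]
  exact (qmul (qn hs1.neg) (qA h2 hs)).2

theorem weil (h1 : All Weil1) (h2 : All Weil2) (h : All SpGen) : All Weil :=
  fun κ _ _ => h κ Good (h1 κ).nn (h1 κ).mm (h2 κ) (h1 κ).mul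

end Pool.Agent.GAM

end MrgPart0

-- ======== part 1: formerly Pool.Agent.MP_cbf1af_ag.gam.Univ
section MrgPart1

/-! GAM, row UNIV: the universal algebraically independent periods. -/

namespace Pool.Agent.GAM

open Complex

noncomputable section

namespace Un

theorem indep {ι κ : Type} [Fintype ι] [Fintype κ] {x : ι → ℂ} (y : κ → ℂ)
    (hx : AlgebraicIndependent ℚ x) (hc : Fintype.card κ ≤ Fintype.card ι)
    (h : ∀ i, IsAlgebraic (Algebra.adjoin ℚ (Set.range y)) (x i)) : AlgebraicIndependent ℚ y := by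
  let M := AlgebraicIndependent.matroid ℚ ℂ
  have h1 : M.Indep (Set.range x) := hx.to_subtype_range
  have h2 : Set.range x ⊆ M.closure (Set.range y) := by
    rintro _ ⟨i, rfl⟩
    rw [AlgebraicIndependent.matroid_closure_eq]
    exact h i
  have h3 := hx.injective.encard_range.trans (h1.encard_le_eRk_of_subset h2)
  rw [M.eRk_closure_eq, ENat.card_eq_coe_fintype_card] at h3
  have h4 : (Fintype.card κ : ℕ∞) ≤ M.eRk (Set.range y) := le_trans (by exact_mod_cast hc) h3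
  have h5 : (Set.range y).encard ≤ Fintype.card κ := by
    rw [← Set.image_univ, ← ENat.card_eq_coe_fintype_card, ← Set.encard_univ]
    exact Set.encard_image_le _ _
  refine AlgebraicIndependent.of_subtype_range ?_
    ((Matroid.indep_iff_eRk_eq_encard_of_finite (M := M) (Set.finite_range y)).2
      ((M.eRk_le_encard _).antisymm (h5.trans h4)))
  refine Set.injOn_univ.1 (Set.finite_univ.injOn_of_encard_image_eq ?_)
  rw [Set.image_univ, Set.encard_univ, ENat.card_eq_coe_fintype_card]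
  exact h5.antisymm (h4.trans (M.eRk_le_encard _))

variable {E : Type} [Field E] [NumberField E]

omit [NumberField E] in
theorem cj_cj (σ : Emb E) : cj (cj σ) = σ := star_star σ

/-- the translate of a type -/
def pull (Φ : Finset (Emb E)) (ι : E →+* E) : Finset (Emb E) :=
  Finset.univ.filter fun ρ => ρ.comp ι ∈ Φ

theorem mem_pull {Φ : Finset (Emb E)} {ι : E →+* E} {ρ : Emb E} :
    ρ ∈ pull Φ ι ↔ ρ.comp ι ∈ Φ := by simp [pull]

theorem pull_type {Φ : Finset (Emb E)} (h : IsType Φ) (ι : E →+* E) : IsType (pull Φ ι) :=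
  fun σ => by rw [mem_pull, mem_pull]; exact h (σ.comp ι)

theorem exists_gal [IsGalois ℚ E] (σ₀ σ : Emb E) :
    ∃ γ : E ≃ₐ[ℚ] E, σ₀.comp (γ : E →+* E) = σ := by
  have h : Function.Injective fun γ : E ≃ₐ[ℚ] E => σ₀.comp (γ : E →+* E) := fun γ γ' h =>
    AlgEquiv.ext fun x => σ₀.injective (RingHom.congr_fun h x)
  refine (h.bijective_of_nat_card_le ?_).2 σ
  rw [IsGalois.card_aut_eq_finrank, Nat.card_eq_fintype_card, NumberField.Embeddings.card]

theorem exists_edge [IsGalois ℚ E] {Φ₀ : Finset (Emb E)} (h₀ : IsType Φ₀)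
    (hc : 2 * Φ₀.card = Module.finrank ℚ E) (h6 : 6 ≤ Module.finrank ℚ E) :
    ∃ Φ Φ' : Finset (Emb E), ∃ τ, IsType Φ ∧ IsType Φ' ∧ Φ' \ Φ = {τ} ∧
      ∀ γ : E ≃ₐ[ℚ] E, ∃ σ ∈ Φ', σ.comp (γ : E →+* E) ∉ Φ := by
  by_contra hn
  push Not at hn
  have key : ∀ (n : ℕ) (Φ : Finset (Emb E)), IsType Φ → (Φ \ Φ₀).card = n →
      ∃ γ : E ≃ₐ[ℚ] E, ∀ σ ∈ Φ, σ.comp (γ : E →+* E) ∈ Φ₀ := by
    intro n
    induction n with
    | zero =>
      intro Φ _ h
      exact ⟨1, fun σ hσ => Finset.sdiff_eq_empty_iff_subset.1 (Finset.card_eq_zero.1 h) hσ⟩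
    | succ n ih =>
      intro Φ hΦ h
      obtain ⟨τ, hτ⟩ := Finset.card_pos.1 (h.symm ▸ n.succ_pos : 0 < (Φ \ Φ₀).card)
      have hτ' := Finset.mem_sdiff.1 hτ
      have h1 : cj τ ∈ Φ₀ := (h₀ _).2 (by rw [cj_cj]; exact hτ'.2)
      have h2 : cj τ ≠ τ := fun e => hτ'.2 (e ▸ h1)
      have h3 : IsType (insert (cj τ) (Φ.erase τ)) := fun σ => by
        have h4 := hΦ σ
        have h5 : cj σ = cj τ ↔ σ = τ := star_inj
        have h6 : cj σ = τ ↔ σ = cj τ := ⟨fun e => e ▸ (cj_cj σ).symm,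
          fun e => e ▸ cj_cj τ⟩
        simp only [Finset.mem_insert, Finset.mem_erase, h5, h6, Ne]
        by_cases e1 : σ = τ
        · subst e1; simp [h2.symm]
        · by_cases e2 : σ = cj τ
          · subst e2; simp [h2]
          · simp [e1, e2, h4]
      obtain ⟨γ, hγ⟩ := ih _ h3 (by
        rw [Finset.insert_sdiff_of_mem _ h1, Finset.erase_sdiff_comm, Finset.card_erase_of_mem hτ, h]
        rfl)
      obtain ⟨γ', hγ'⟩ := hn _ Φ τ h3 hΦ (by
        ext σ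
        simp only [Finset.mem_sdiff, Finset.mem_insert, Finset.mem_erase, Finset.mem_singleton]
        exact ⟨fun e => by tauto, fun e => by subst e; exact ⟨hτ'.1, by simp [h2.symm]⟩⟩)
      exact ⟨γ' * γ, fun σ hσ => hγ _ (hγ' σ hσ)⟩
  let T : Finset (Emb E) → Finset (Emb E) := fun S =>
    Finset.univ.filter fun σ => σ ∈ Φ₀ ∧ σ ∉ S ∨ σ ∉ Φ₀ ∧ cj σ ∈ S
  have hT : ∀ S, IsType (T S) := fun S σ => by
    have := h₀ σ
    simp only [T, Finset.mem_filter, Finset.mem_univ, true_and, cj_cj]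
    tauto
  choose γ hγ using fun S => key _ _ (hT S) rfl
  have h1 : ∀ S σ, σ ∈ T S ↔ σ.comp (γ S : E →+* E) ∈ Φ₀ := fun S σ =>
    ⟨hγ S σ, fun h => (hT S σ).2 fun h' => (h₀ _).1 h (hγ S _ h')⟩
  have h2 := Finset.card_le_card_of_injOn (s := Φ₀.powerset) (t := Finset.univ) γ
    (fun _ _ => Finset.mem_univ _) fun S hS S' hS' e => by
      ext σ
      have h3 := (h1 S σ).trans (e ▸ (h1 S' σ).symm)
      have h4 := @Finset.mem_powerset.1 hS σ
      have h5 := @Finset.mem_powerset.1 hS' σ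
      simp only [T, Finset.mem_filter, Finset.mem_univ, true_and] at h3
      tauto
  rw [Finset.card_powerset, Finset.card_univ, ← Nat.card_eq_fintype_card,
    IsGalois.card_aut_eq_finrank, ← hc] at h2
  obtain ⟨k, hk⟩ : ∃ k, Φ₀.card = k + 3 := ⟨Φ₀.card - 3, by omega⟩
  have := @Nat.lt_two_pow_self k
  rw [hk, pow_add] at h2
  omega

omit [NumberField E] in
theorem prod_edge {Ψ Ψ' : Finset (Emb E)} {t : Emb E} (h : IsType Ψ) (h' : IsType Ψ')
    (ht : Ψ' \ Ψ = {t}) (u : Emb E → ℂ) (hu : u t * u (cj t) = 1) :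
    ∏ τ ∈ Ψ', u τ = u t ^ 2 * ∏ τ ∈ Ψ, u τ := by
  have h1 : Ψ \ Ψ' = {cj t} := by
    ext σ
    have h2 : cj σ ∈ Ψ' \ Ψ ↔ cj σ = t := by rw [ht, Finset.mem_singleton]
    have h3 : cj σ = t ↔ σ = cj t := ⟨fun e => e ▸ (cj_cj σ).symm, fun e => e ▸ cj_cj t⟩
    rw [Finset.mem_singleton, ← h3, ← h2, Finset.mem_sdiff, Finset.mem_sdiff, h σ, h' σ]
    tauto
  rw [← Finset.prod_inter_mul_prod_sdiff Ψ' Ψ, ← Finset.prod_inter_mul_prod_sdiff Ψ Ψ', ht, h1,
    Finset.inter_comm, Finset.prod_singleton, Finset.prod_singleton]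
  linear_combination -(u t * ∏ x ∈ Ψ ∩ Ψ', u x) * hu

end Un

open Un in
theorem univ (hK : AllC) (hE : Exist) (hT : Trans) (hP : Pair) (hI : EdgeInd) : Univ := by
  intro E _ _ c σ₀ hc hG h6
  have hA := hK E c hc
  obtain ⟨U, hU, hS⟩ := hP E c hc h6
  refine ⟨U σ₀, hU σ₀, fun Ψ hΨ => ?_, fun Φ P hΦ hp => hS Φ P hΦ hp σ₀⟩
  obtain ⟨Φ, Φ', τ₀, hΦ, hΦ', hd, hγ⟩ := exists_edge hΨ (hA.card Ψ hΨ) h6
  obtain ⟨P, hp⟩ := hE E c Φ hc hΦ
  obtain ⟨P', hp'⟩ := hE E c Φ' hc hΦ'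
  have hpi : (2 * Real.pi * I : ℂ) ≠ 0 := two_pi_I_ne_zero
  refine indep _ (hI E c Φ Φ' τ₀ P P' hc hG hΦ hΦ' hd hp hp' hγ) ?_ fun σ => ?_
  · have h1 := hA.card Ψ hΨ
    have h2 := hA.card Φ hΦ
    simp only [Fintype.card_coe]
    omega
  obtain ⟨γ, hσ⟩ := exists_gal σ₀ σ
  obtain ⟨Q, hq⟩ := hE E c _ hc (pull_type hΦ (γ : E →+* E))
  obtain ⟨Q', hq'⟩ := hE E c _ hc (pull_type hΦ' (γ : E →+* E))
  obtain ⟨q0, a⟩ := hT E E _ Φ _ P Q hΦ (fun _ => mem_pull) hp hq σ₀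
  obtain ⟨q0', a'⟩ := hT E E _ Φ' _ P' Q' hΦ' (fun _ => mem_pull) hp' hq' σ₀
  have s := hS _ Q (pull_type hΦ _) hq σ₀
  have s' := hS _ Q' (pull_type hΦ' _) hq' σ₀
  let t : Emb E := τ₀.comp (γ.symm : E →+* E)
  have hd' : pull Φ' (γ : E →+* E) \ pull Φ (γ : E →+* E) = {t} := by
    ext ρ
    rw [Finset.mem_sdiff, mem_pull, mem_pull, ← Finset.mem_sdiff, hd, Finset.mem_singleton,
      Finset.mem_singleton]
    exact ⟨fun e => RingHom.ext fun x => by simp [t, ← e], fun e => RingHom.ext fun x => by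
      simp [e, t]⟩
  rw [prod_edge (pull_type hΦ _) (pull_type hΦ' _) hd' _ (hU σ₀ t)] at s'
  rw [hσ] at a a'
  have p0 : P σ ≠ 0 := left_ne_zero_of_mul (hp.1 σ ▸ hpi)
  have p0' : P' σ ≠ 0 := left_ne_zero_of_mul (hp'.1 σ ▸ hpi)
  have u0 : ∀ τ, U σ₀ τ ≠ 0 := fun τ => left_ne_zero_of_mul_eq_one (hU σ₀ τ)
  have w0 : ∏ τ ∈ pull Φ (γ : E →+* E), U σ₀ τ ≠ 0 := Finset.prod_ne_zero_iff.2 fun τ _ => u0 τ
  have hy : ∀ τ ∈ Ψ, IsAlgebraic (Algebra.adjoin ℚ (Set.range fun τ : Ψ => U σ₀ τ)) (U σ₀ τ) :=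
    fun τ hτ => isAlgebraic_algebraMap (⟨_, Algebra.subset_adjoin ⟨⟨τ, hτ⟩, rfl⟩⟩ :
      Algebra.adjoin ℚ (Set.range fun τ : Ψ => U σ₀ τ))
  have ht : IsAlgebraic (Algebra.adjoin ℚ (Set.range fun τ : Ψ => U σ₀ τ)) (U σ₀ t) := by
    by_cases h : t ∈ Ψ
    · exact hy t h
    · rw [eq_inv_of_mul_eq_one_left (hU σ₀ t)]
      exact (hy _ ((hΨ _).2 (by rwa [cj_cj]))).inv
  refine IsAlgebraic.of_pow two_pos ?_
  have := (((((a.mul a'.inv).pow 2).mul s').mul s.inv).extendScalars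
    (algebraMap ℚ (Algebra.adjoin ℚ (Set.range fun τ : Ψ => U σ₀ τ))).injective).mul (ht.pow 2)
  have := u0 t
  refine Eq.subst (motive := IsAlgebraic _) ?_ ‹_›
  field_simp

end

end Pool.Agent.GAM

end MrgPart1

-- ======== part 2: formerly Pool.Agent.MP_cbf1af_ag.gam.GamU
section MrgPart2

/-! PROJECT GAM, row GAMU: gamma values are monomials in the universal periods. -/

namespace Pool.Agent.GAM

open Complex

noncomputable section

namespace GamU

/-- nonzero algebraic numbers -/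
def A0 (x : ℂ) : Prop := x ≠ 0 ∧ Alg x

theorem A0.mul {x y : ℂ} (hx : A0 x) (hy : A0 y) : A0 (x * y) :=
  ⟨mul_ne_zero hx.1 hy.1, hx.2.mul hy.2⟩

theorem A0.inv {x : ℂ} (hx : A0 x) : A0 x⁻¹ := ⟨inv_ne_zero hx.1, hx.2.inv⟩

theorem A0.div {x y : ℂ} (hx : A0 x) (hy : A0 y) : A0 (x / y) := by
  rw [div_eq_mul_inv]; exact hx.mul hy.inv

theorem A0.pow {x : ℂ} (hx : A0 x) (n : ℕ) : A0 (x ^ n) := ⟨pow_ne_zero _ hx.1, hx.2.pow n⟩

theorem A0.one : A0 1 := ⟨one_ne_zero, isAlgebraic_one⟩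

theorem A0.twoI : A0 (2 * I) :=
  ⟨mul_ne_zero two_ne_zero I_ne_zero,
    (isAlgebraic_natCast 2).mul Complex.isIntegral_rat_I.isAlgebraic⟩

variable {N : ℕ} [NeZero N]

theorem chi_eq (a : ZMod N) : ZMod.stdAddChar a = ee ((a.val : ℂ) / N) := by
  rw [ZMod.stdAddChar_apply, ZMod.toCircle_apply, ee, mul_div_assoc]

theorem chi_nat (j : ℕ) :
    ZMod.stdAddChar (j : ZMod N) = Complex.exp (2 * Real.pi * I * ((j : ℂ) / N)) := by
  rw [ZMod.stdAddChar_apply, ZMod.toCircle_natCast, mul_div_assoc]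

theorem exp_pow (j : ℕ) :
    Complex.exp (2 * Real.pi * I * ((j : ℂ) / (7 * N : ℕ))) ^ 7 = ZMod.stdAddChar (j : ZMod N) := by
  have h : (N : ℂ) ≠ 0 := by exact_mod_cast NeZero.ne N
  rw [chi_nat, ← Complex.exp_nat_mul]
  congr 1
  push_cast
  field_simp

/-- the data of a cyclotomic field -/
theorem cyc' (E : Type) [Field E] [NumberField E] [IsCyclotomicExtension {7 * N} ℚ E] :
    ∃ (c : E →+* E) (z : E) (r : Emb E → (ZMod N)ˣ), CMF c ∧ IsGalois ℚ E ∧
      6 ≤ Module.finrank ℚ E ∧ (∀ σ : Emb E, σ z = ZMod.stdAddChar (r σ : ZMod N)) ∧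
      Function.Surjective r := by
  have hN : 0 < N := NeZero.pos N
  have : NeZero (7 * N) := ⟨by omega⟩
  have hirr : Irreducible (Polynomial.cyclotomic (7 * N) ℚ) :=
    Polynomial.cyclotomic.irreducible_rat (by omega)
  have : NumberField.IsCMField E :=
    IsCyclotomicExtension.Rat.isCMField E (S := {7 * N}) ⟨7 * N, rfl, by omega⟩
  have hζ := IsCyclotomicExtension.zeta_spec (7 * N) ℚ E
  set ζ := IsCyclotomicExtension.zeta (7 * N) ℚ E
  have h1 : ∀ σ : Emb E, ∃ u : (ZMod N)ˣ, σ (ζ ^ 7) = ZMod.stdAddChar (u : ZMod N) := by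
    intro σ
    obtain ⟨i, -, hi, h⟩ := (Complex.isPrimitiveRoot_iff _ _ (NeZero.ne (7 * N))).1
      (hζ.map_of_injective σ.injective)
    refine ⟨ZMod.unitOfCoprime i (Nat.Coprime.coprime_mul_left_right hi), ?_⟩
    rw [map_pow, ← h, exp_pow, ZMod.coe_unitOfCoprime]
  choose r hr using h1
  refine ⟨(NumberField.IsCMField.complexConj E : E →+* E), ζ ^ 7, r, ⟨fun σ x => ?_, ?_⟩,
    IsCyclotomicExtension.isGalois {7 * N} ℚ E, ?_, hr, fun u => ?_⟩
  · exact NumberField.IsCMField.complexEmbedding_complexConj E σ x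
  · by_contra h
    push Not at h
    exact NumberField.IsCMField.complexConj_ne_one E (AlgEquiv.ext h)
  · rw [IsCyclotomicExtension.finrank E hirr]
    have h7 : Nat.totient 7 ∣ Nat.totient (7 * N) := Nat.totient_dvd_of_dvd (dvd_mul_right _ _)
    have : Nat.totient 7 = 6 := by decide
    rw [this] at h7
    exact Nat.le_of_dvd (Nat.totient_pos.2 (by omega)) h7
  · obtain ⟨u', rfl⟩ := ZMod.unitsMap_surjective (dvd_mul_left N 7) u
    have hp := Complex.isPrimitiveRoot_exp_of_coprime (u' : ZMod (7 * N)).val (7 * N)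
      (NeZero.ne _) (ZMod.val_coe_unit_coprime u')
    obtain ⟨φ, hφ⟩ := (hζ.embeddingsEquivPrimitiveRoots ℂ hirr).surjective
      ⟨_, (mem_primitiveRoots (by omega)).2 hp⟩
    have h2 := hζ.embeddingsEquivPrimitiveRoots_apply_coe ℂ hirr φ
    rw [hφ] at h2
    refine ⟨(φ : E →+* ℂ), Units.ext (ZMod.injective_stdAddChar ?_)⟩
    rw [← hr, map_pow]
    change φ ζ ^ 7 = _
    rw [← h2, exp_pow, ZMod.unitsMap_val, ZMod.natCast_val]

theorem val_pos {a : ZMod N} (ha : a ≠ 0) : 0 < a.val :=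
  Nat.pos_of_ne_zero fun h => ha ((ZMod.val_eq_zero a).1 h)

theorem val_neg {a : ZMod N} (ha : a ≠ 0) : (-a).val + a.val = N := by
  rw [ZMod.neg_val, if_neg ha]
  have := ZMod.val_lt a
  omega

theorem val_add (a b : ZMod N) :
    (a + b).val = a.val + b.val ∨ (a + b).val + N = a.val + b.val := by
  rcases lt_or_ge (a.val + b.val) N with h | h
  · exact Or.inl (ZMod.val_add_of_lt h)
  · exact Or.inr (ZMod.val_add_val_of_le h).symm

theorem frac_pos {a : ZMod N} (ha : a ≠ 0) : 0 < (a.val : ℝ) / N :=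
  div_pos (by exact_mod_cast val_pos ha) (by exact_mod_cast NeZero.pos N)

theorem gt_ne {a : ZMod N} (ha : a ≠ 0) : gt N a ≠ 0 := by
  unfold gt
  exact_mod_cast (div_pos (Real.Gamma_pos_of_pos (frac_pos ha))
    (Real.sqrt_pos.2 Real.pi_pos)).ne'

theorem gt_neg {a : ZMod N} (ha : a ≠ 0) : A0 (gt N a * gt N (-a)) := by
  refine ⟨mul_ne_zero (gt_ne ha) (gt_ne (neg_ne_zero.2 ha)), ?_⟩
  have hN : (N : ℝ) ≠ 0 := by exact_mod_cast NeZero.ne N
  have h1 : ((-a).val : ℝ) / N = 1 - (a.val : ℝ) / N := by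
    have : ((-a).val : ℝ) + a.val = N := by exact_mod_cast val_neg ha
    field_simp
    linarith
  have h2 : gt N a * gt N (-a) = (Complex.sin ((((a.val : ℚ) / N : ℚ) : ℂ) * Real.pi))⁻¹ := by
    unfold gt
    rw [← Complex.ofReal_mul, h1, div_mul_div_comm, Real.Gamma_mul_Gamma_one_sub,
      Real.mul_self_sqrt Real.pi_pos.le, div_div_cancel_left' Real.pi_pos.ne']
    push_cast
    rw [mul_comm]
  rw [h2]
  exact ((Complex.isAlgebraic_sin_rat_mul_pi _).extendScalars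
    (RingHom.injective_int (algebraMap ℤ ℚ))).inv

/-- the normalised beta value -/
def m (N : ℕ) (a b : ZMod N) : ℂ := gt N a * gt N b / gt N (a + b)

theorem m_neg {a b : ZMod N} (ha : a ≠ 0) (hb : b ≠ 0) (hab : a + b ≠ 0) :
    A0 (m N a b * m N (-a) (-b)) := by
  have := ((gt_neg ha).mul (gt_neg hb)).div (gt_neg hab)
  convert this using 1
  unfold m
  rw [← neg_add]
  ring

theorem m_ne {a b : ZMod N} (ha : a ≠ 0) (hb : b ≠ 0) (hab : a + b ≠ 0) : m N a b ≠ 0 :=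
  div_ne_zero (mul_ne_zero (gt_ne ha) (gt_ne hb)) (gt_ne hab)

theorem bt_eq {a b : ZMod N} (h : a.val + b.val < N) :
    bt N a.val b.val = m N a b * (√Real.pi : ℝ) := by
  have hs : ((√Real.pi : ℝ) : ℂ) ≠ 0 := by exact_mod_cast (Real.sqrt_pos.2 Real.pi_pos).ne'
  unfold bt m gt
  rw [ZMod.val_add_of_lt h]
  push_cast [← Complex.Gamma_ofReal]
  field_simp

theorem bt_rel {a b : ZMod N} (ha : a ≠ 0) (hb : b ≠ 0) (hab : a + b ≠ 0)
    (h : a.val + b.val < N) {p : ℂ} (hp : p ≠ 0) (h' : Alg (p / bt N a.val b.val)) :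
    A0 (p ^ 2 / (2 * Real.pi * I) / m N a b ^ 2) := by
  have hs : ((√Real.pi : ℝ) : ℂ) ≠ 0 := by exact_mod_cast (Real.sqrt_pos.2 Real.pi_pos).ne'
  have hs2 : ((√Real.pi : ℝ) : ℂ) ^ 2 = Real.pi := by
    exact_mod_cast Real.sq_sqrt Real.pi_pos.le
  have hm := m_ne ha hb hab
  rw [bt_eq h] at h'
  have h0 : A0 (p / (m N a b * (√Real.pi : ℝ))) := ⟨div_ne_zero hp (mul_ne_zero hm hs), h'⟩
  convert (h0.pow 2).div A0.twoI using 1
  rw [← hs2]
  field_simp

section Field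

variable {E : Type} [Field E] [NumberField E]

theorem cj_cj (σ : Emb E) : cj (cj σ) = σ := star_star σ

theorem prod_type {Φ Ψ : Finset (Emb E)} (hΦ : IsType Φ) (hΨ : IsType Ψ) {u : Emb E → ℂ}
    (hu : ∀ τ, u τ * u (cj τ) = 1) :
    ∏ τ ∈ Φ, u τ = ∏ t : Ψ, u t ^ (if t.1 ∈ Φ then 1 else -1 : ℤ) := by
  rw [Finset.prod_coe_sort Ψ fun t => u t ^ (if t ∈ Φ then 1 else -1 : ℤ)]
  refine Finset.prod_nbij' (fun τ => if τ ∈ Ψ then τ else cj τ)
    (fun τ => if τ ∈ Φ then τ else cj τ) ?_ ?_ ?_ ?_ ?_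
  · intro τ _
    split_ifs with h
    · exact h
    · exact not_not.1 fun h' => h ((hΨ τ).2 h')
  · intro τ _
    split_ifs with h
    · exact h
    · exact not_not.1 fun h' => h ((hΦ τ).2 h')
  · intro τ hτ
    by_cases h : τ ∈ Ψ
    · simp only [if_pos h, if_pos hτ]
    · simp only [if_neg h, if_neg ((hΦ τ).1 hτ), cj_cj]
  · intro τ hτ
    by_cases h : τ ∈ Φ
    · simp only [if_pos h, if_pos hτ]
    · simp only [if_neg h, if_neg ((hΨ τ).1 hτ), cj_cj]
  · intro τ hτ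
    by_cases h : τ ∈ Ψ
    · simp only [if_pos h, if_pos hτ, zpow_one]
    · simp only [if_neg h, if_neg ((hΦ τ).1 hτ), zpow_neg, zpow_one]
      exact eq_inv_of_mul_eq_one_left (hu τ)

/-- the CM type of a Fermat curve -/
def ty (r : Emb E → (ZMod N)ˣ) (a b : ZMod N) : Finset (Emb E) :=
  Finset.univ.filter fun σ => ((r σ : ZMod N) * a).val + ((r σ : ZMod N) * b).val < N

theorem mem_ty {r : Emb E → (ZMod N)ˣ} {a b : ZMod N} {σ : Emb E} :
    σ ∈ ty r a b ↔ ((r σ : ZMod N) * a).val + ((r σ : ZMod N) * b).val < N := by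
  simp [ty]

omit [NumberField E] in
theorem r_cj {z : E} {r : Emb E → (ZMod N)ˣ}
    (hr : ∀ σ : Emb E, σ z = ZMod.stdAddChar (r σ : ZMod N)) (σ : Emb E) : r (cj σ) = -r σ := by
  refine Units.ext (ZMod.injective_stdAddChar ?_)
  rw [← hr, Units.val_neg, AddChar.map_neg_eq_conj, ← hr]
  rfl

theorem um_ne (u : (ZMod N)ˣ) {a : ZMod N} (ha : a ≠ 0) : (u : ZMod N) * a ≠ 0 := by
  rwa [Ne, Units.mul_right_eq_zero]

theorem ty_type {r : Emb E → (ZMod N)ˣ} (hr : ∀ σ, r (cj σ) = -r σ) {a b : ZMod N} (ha : a ≠ 0)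
    (hb : b ≠ 0) (hab : a + b ≠ 0) : IsType (ty r a b) := by
  intro σ
  rw [mem_ty, mem_ty, hr, Units.val_neg, neg_mul, neg_mul]
  have h1 := val_neg (um_ne (r σ) ha)
  have h2 := val_neg (um_ne (r σ) hb)
  have h3 := val_pos (um_ne (r σ) hab)
  have h4 := ZMod.val_lt ((r σ : ZMod N) * (a + b))
  rw [mul_add] at h3 h4
  have h5 := val_add ((r σ : ZMod N) * a) ((r σ : ZMod N) * b)
  omega

theorem per_rel (hF : Fer) {c : E →+* E} (hc : CMF c) {z : E} {r : Emb E → (ZMod N)ˣ}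
    (hr : ∀ σ : Emb E, σ z = ZMod.stdAddChar (r σ : ZMod N)) {σ₀ : Emb E} (h₀ : r σ₀ = 1)
    {a b : ZMod N} (ha : a ≠ 0) (hb : b ≠ 0) (hab : a + b ≠ 0) {P : Emb E → ℂ}
    (hP : Per (ty r a b) P) : A0 (P σ₀ ^ 2 / (2 * Real.pi * I) / m N a b ^ 2) := by
  have hT := ty_type (r_cj hr) ha hb hab
  have hz : ∀ (σ : Emb E) (a : ZMod N),
      σ (z ^ a.val) = ee ((((r σ : ZMod N) * a).val : ℂ) / N) := by
    intro σ a
    rw [map_pow, hr, ← chi_eq, ← AddChar.map_nsmul_eq_pow, nsmul_eq_mul, ZMod.natCast_zmod_val,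
      mul_comm]
  have h := hF E c (ty r a b) N (z ^ a.val) (z ^ b.val) (fun σ => ((r σ : ZMod N) * a).val)
    (fun σ => ((r σ : ZMod N) * b).val) hc hT (fun σ => ⟨val_pos (um_ne _ ha),
      val_pos (um_ne _ hb), mem_ty.1 σ.2, hz _ _, hz _ _⟩) P hP
  have hπ : (2 * Real.pi * I : ℂ) ≠ 0 := Complex.two_pi_I_ne_zero
  have hp := hP.1 σ₀
  have hp1 : P σ₀ ≠ 0 := left_ne_zero_of_mul (hp ▸ hπ)
  have hp2 : P (cj σ₀) ≠ 0 := right_ne_zero_of_mul (hp ▸ hπ)
  by_cases hm : σ₀ ∈ ty r a b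
  · have h1 := h ⟨σ₀, hm⟩
    have h2 := mem_ty.1 hm
    simp only [h₀, Units.val_one, one_mul] at h1 h2
    exact bt_rel ha hb hab h2 hp1 h1
  · have hm' : cj σ₀ ∈ ty r a b := not_not.1 fun h' => hm ((hT σ₀).2 h')
    have h1 := h ⟨cj σ₀, hm'⟩
    have h2 := mem_ty.1 hm'
    simp only [r_cj hr, h₀, Units.val_neg, Units.val_one, neg_mul, one_mul] at h1 h2
    have hab' : -a + -b ≠ 0 := by rw [← neg_add]; exact neg_ne_zero.2 hab
    have h3 := bt_rel (neg_ne_zero.2 ha) (neg_ne_zero.2 hb) hab' h2 hp2 h1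
    have h4 := m_ne ha hb hab
    have h5 := m_ne (neg_ne_zero.2 ha) (neg_ne_zero.2 hb) hab'
    convert (h3.mul ((m_neg ha hb hab).pow 2)).inv using 1
    rw [← hp]
    field_simp

end Field

/-- the exponents -/
def ex (u : (ZMod N)ˣ) (a : ZMod N) : ℤ := 2 * ((u : ZMod N) * a).val - N

theorem ex_neg (u : (ZMod N)ˣ) {a : ZMod N} (ha : a ≠ 0) : ex u a + ex u (-a) = 0 := by
  have := val_neg (um_ne u ha)
  unfold ex
  rw [mul_neg]
  omega

theorem ex_add (u : (ZMod N)ˣ) {a b : ZMod N} (ha : a ≠ 0) (hb : b ≠ 0) (hab : a + b ≠ 0) :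
    ex (-u) a + ex (-u) b - ex (-u) (a + b) =
      (if ((u : ZMod N) * a).val + ((u : ZMod N) * b).val < N then 1 else -1) * N := by
  have h1 := val_neg (um_ne u ha)
  have h2 := val_neg (um_ne u hb)
  have h3 := val_neg (um_ne u hab)
  have h4 := val_pos (um_ne u hab)
  have h5 := ZMod.val_lt ((u : ZMod N) * (a + b))
  have h6 := val_add ((u : ZMod N) * a) ((u : ZMod N) * b)
  rw [← mul_add] at h6
  unfold ex
  simp only [Units.val_neg, neg_mul]
  split_ifs <;> omega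

theorem torsion (l : ZMod N → ℂ) (h0 : l 0 = 1) (hl : ∀ a b, A0 (l a * l b / l (a + b)))
    (a : ZMod N) : Alg (l a) := by
  have hne : ∀ a, l a ≠ 0 := fun a =>
    left_ne_zero_of_mul (div_ne_zero_iff.1 (hl a 0).1).1
  have h : ∀ n : ℕ, A0 (l a ^ n / l (n • a)) := by
    intro n
    induction n with
    | zero => simpa [h0] using A0.one
    | succ n ih =>
      convert ih.mul (hl (n • a) a) using 1
      have := hne (n • a)
      rw [succ_nsmul]
      field_simp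
      ring
  have h1 := (h N).2
  rw [nsmul_eq_mul, ZMod.natCast_self, zero_mul, h0, div_one] at h1
  exact IsAlgebraic.of_pow (NeZero.pos N) h1

theorem prod_zpow {ι : Type} [Fintype ι] {x : ι → ℂ} (hx : ∀ i, x i ≠ 0) (e f : ι → ℤ) :
    (∏ i, x i ^ e i) * ∏ i, x i ^ f i = ∏ i, x i ^ (e i + f i) := by
  rw [← Finset.prod_mul_distrib]
  exact Finset.prod_congr rfl fun i _ => (zpow_add₀ (hx i) _ _).symm

theorem main (hK : AllC) (hE : Exist) (hF : Fer) (hU : Univ) (E : Type) [Field E] [NumberField E]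
    [IsCyclotomicExtension {7 * N} ℚ E] :
    ∃ (ι : Type) (_ : Fintype ι) (x : ι → ℂ) (r : ι → (ZMod N)ˣ) (k : ℕ)
      (e : ZMod N → ι → ℤ), AlgebraicIndependent ℚ x ∧ 0 < k ∧
      (∀ u : (ZMod N)ˣ, ∃ i, r i = u ∨ r i = -u) ∧
      ∀ a : ZMod N, a ≠ 0 → (∀ i, (e a i : ℚ) = k * saw N (r i * a)) ∧
        Alg (gt N a ^ k / ∏ i, x i ^ e a i) := by
  classical
  obtain ⟨c, z, r, hc, hG, h6, hr, hs⟩ := cyc' (N := N) E
  obtain ⟨σ₀, h₀⟩ := hs 1
  obtain ⟨u, hu, hI, hP⟩ := hU E c σ₀ hc hG h6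
  obtain ⟨Ψ, hΨ⟩ := (hK E c hc).exType
  have hN : 0 < N := NeZero.pos N
  have hu0 : ∀ τ, u τ ≠ 0 := fun τ => left_ne_zero_of_mul_eq_one (hu τ)
  have hx : ∀ i : Ψ, u i ≠ 0 := fun i => hu0 i
  refine ⟨Ψ, inferInstance, fun τ => u τ, fun τ => -r τ, 2 * N, fun a τ => ex (-r τ) a, hI Ψ hΨ,
    by omega, fun v => ?_, fun a ha => ⟨fun i => ?_, ?_⟩⟩
  · obtain ⟨σ, rfl⟩ := hs v
    by_cases h : σ ∈ Ψ
    · exact ⟨⟨σ, h⟩, Or.inr rfl⟩
    · exact ⟨⟨cj σ, not_not.1 fun h' => h ((hΨ σ).2 h')⟩, Or.inl (by simp only [r_cj hr, neg_neg])⟩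
  · have : (N : ℚ) ≠ 0 := by exact_mod_cast hN.ne'
    unfold ex saw
    push_cast
    field_simp
  · let p : ZMod N → ℂ := fun a => ∏ i : Ψ, u i ^ ex (-r i) a
    have hp : ∀ a, p a ≠ 0 := fun a =>
      Finset.prod_ne_zero_iff.2 fun i _ => zpow_ne_zero _ (hx i)
    let l : ZMod N → ℂ := fun a => if a = 0 then 1 else gt N a ^ (2 * N) / p a
    have hl : ∀ a, a ≠ 0 → l a = gt N a ^ (2 * N) / p a := fun a ha => if_neg ha
    have h0 : l 0 = 1 := if_pos rfl
    have hne : ∀ a, l a ≠ 0 := by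
      intro a
      by_cases ha : a = 0
      · rw [ha, h0]; exact one_ne_zero
      · rw [hl a ha]; exact div_ne_zero (pow_ne_zero _ (gt_ne ha)) (hp a)
    have key := torsion l h0 (fun a b => ?_) a
    · rwa [hl a ha] at key
    by_cases ha : a = 0
    · rw [ha, h0, one_mul, zero_add, div_self (hne b)]; exact A0.one
    by_cases hb : b = 0
    · rw [hb, h0, mul_one, add_zero, div_self (hne a)]; exact A0.one
    by_cases hab : a + b = 0
    · obtain rfl : b = -a := (neg_eq_of_add_eq_zero_right hab).symm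
      have h1 : p a * p (-a) = 1 := by
        rw [prod_zpow hx]
        simp only [ex_neg _ ha, zpow_zero, Finset.prod_const_one]
      rw [hab, h0, div_one, hl a ha, hl _ hb, div_mul_div_comm, h1, div_one, ← mul_pow]
      exact (gt_neg ha).pow _
    have hT := ty_type (r_cj hr) ha hb hab
    obtain ⟨P, hP'⟩ := hE E c (ty r a b) hc hT
    have h1 := per_rel hF hc hr h₀ ha hb hab hP'
    have hq : ∏ τ ∈ ty r a b, u τ ≠ 0 := Finset.prod_ne_zero_iff.2 fun i _ => hu0 i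
    have hπ : (2 * Real.pi * I : ℂ) ≠ 0 := Complex.two_pi_I_ne_zero
    have hp1 : P σ₀ ≠ 0 := left_ne_zero_of_mul (hP'.1 σ₀ ▸ hπ)
    have h2 : A0 (P σ₀ ^ 2 / (2 * Real.pi * I * ∏ τ ∈ ty r a b, u τ)) :=
      ⟨div_ne_zero (pow_ne_zero _ hp1) (mul_ne_zero hπ hq), hP _ P hT hP'⟩
    have h3 : p a * p b = (∏ τ ∈ ty r a b, u τ) ^ N * p (a + b) := by
      rw [prod_type hT hΨ hu, ← Finset.prod_pow]
      simp only [← zpow_natCast, ← zpow_mul]
      rw [prod_zpow hx, prod_zpow hx]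
      refine Finset.prod_congr rfl fun i _ => ?_
      congr 1
      have := ex_add (r i) ha hb hab
      simp only [mem_ty]
      linarith
    have h4 := m_ne ha hb hab
    have h5 : (P σ₀ ^ 2 / (2 * Real.pi * I * ∏ τ ∈ ty r a b, u τ)) /
        (P σ₀ ^ 2 / (2 * Real.pi * I) / m N a b ^ 2) = m N a b ^ 2 / ∏ τ ∈ ty r a b, u τ := by
      field_simp
    have h6 := (h2.div h1).pow N
    rw [h5] at h6
    convert h6 using 1
    rw [hl a ha, hl b hb, hl _ hab, div_mul_div_comm, h3, m, div_pow, ← pow_mul, div_pow, mul_pow]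
    have := hp (a + b)
    have := gt_ne hab
    field_simp

end GamU

theorem gamU (hK : AllC) (hE : Exist) (hF : Fer) (hU : Univ) : GamU := by
  intro N _
  refine @GamU.main N _ hK hE hF hU (CyclotomicField (7 * N) ℚ) _ _ ?_
  have h : @IsCyclotomicExtension {7 * N} ℚ (CyclotomicField (7 * N) ℚ) _ _
      (CyclotomicField.algebra _ _) := inferInstance
  convert h
  exact Subsingleton.elim _ _

end

end Pool.Agent.GAM

end MrgPart2

-- ======== part 3: formerly Pool.Agent.MP_cbf1af_ag.gam.GamF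
section MrgPart3

/-! PROJECT GAM: the final statement on gamma values. -/

namespace Pool.Agent.GAM

open Complex

namespace GamF

theorem saw_neg {N : ℕ} [NeZero N] {a : ZMod N} (ha : a ≠ 0) : saw N (-a) = -saw N a := by
  have hN : (N : ℚ) ≠ 0 := Nat.cast_ne_zero.2 (NeZero.ne N)
  have hle : a.val ≤ N := (ZMod.val_lt a).le
  unfold saw
  rw [ZMod.neg_val, if_neg ha, Nat.cast_sub hle]
  field_simp
  ring

theorem fract_eq {N : ℕ} [NeZero N] (u a : ℕ) :
    Int.fract ((u : ℚ) * a / N) - 1 / 2 = saw N ((u : ZMod N) * a) := by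
  unfold saw
  rw [← Nat.cast_mul, ← Nat.cast_mul, ZMod.val_natCast, Int.fract_div_natCast_eq_div_natCast_mod]

/-- odd functions on the units -/
def odd (N : ℕ) : Submodule ℚ ((ZMod N)ˣ → ℚ) where
  carrier := {f | ∀ u, f (-u) = -f u}
  add_mem' := fun {f g} hf hg u => by simp only [Pi.add_apply, hf u, hg u]; ring
  zero_mem' := fun u => by simp
  smul_mem' := fun c f hf u => by simp only [Pi.smul_apply, hf u, smul_eq_mul]; ring

theorem finrank_odd (N : ℕ) [NeZero N] (hN : 3 ≤ N) :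
    Module.finrank ℚ (odd N) = N.totient / 2 := by
  classical
  have : Fact (2 < N) := ⟨hN⟩
  have hne : ∀ u : (ZMod N)ˣ, -u ≠ u := by
    intro u h
    have h1 : (-1 : (ZMod N)ˣ) = 1 := by
      have : -1 * u = 1 * u := by simpa using h
      exact mul_right_cancel this
    have h2 : (-1 : ZMod N) = 1 := by simpa using congrArg Units.val h1
    exact ZMod.neg_one_ne_one h2
  -- a set of representatives
  let lt : (ZMod N)ˣ → Prop := fun u => (u : ZMod N).val < ((-u : (ZMod N)ˣ) : ZMod N).val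
  have hlt : ∀ u, ¬lt u ↔ lt (-u) := by
    intro u
    have h : (u : ZMod N).val ≠ ((-u : (ZMod N)ˣ) : ZMod N).val := fun h =>
      hne u (Units.ext (ZMod.val_injective N h).symm)
    simp only [lt, neg_neg]
    omega
  let R := {u // lt u}
  let e : odd N ≃ₗ[ℚ] (R → ℚ) :=
    { toFun := fun f u => f.1 u.1
      map_add' := fun _ _ => rfl
      map_smul' := fun _ _ => rfl
      invFun := fun g => ⟨fun u => if h : lt u then g ⟨u, h⟩ else -g ⟨-u, (hlt u).1 h⟩, fun u => by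
        by_cases h : lt u
        · have h' : ¬lt (-u) := fun h' => (hlt u).2 h' h
          simp only [dif_pos h, dif_neg h', neg_neg]
        · have h' : lt (-u) := (hlt u).1 h
          simp only [dif_neg h, dif_pos h', neg_neg]⟩
      left_inv := fun f => by
        ext u
        by_cases h : lt u
        · simp only [dif_pos h]
        · simp only [dif_neg h, f.2 u, neg_neg]
      right_inv := fun g => by
        ext u
        exact dif_pos u.2 }
  rw [e.finrank_eq, Module.finrank_fintype_fun_eq_card, ← ZMod.card_units_eq_totient]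
  have h1 : Fintype.card {u // ¬lt u} = Fintype.card R :=
    Fintype.card_congr
      { toFun := fun u => ⟨-u.1, (hlt _).1 u.2⟩
        invFun := fun u => ⟨-u.1, (hlt _).2 (by simpa using u.2)⟩
        left_inv := fun u => by simp
        right_inv := fun u => by simp }
  have h2 := Fintype.card_subtype_compl lt
  have h3 : Fintype.card R ≤ Fintype.card (ZMod N)ˣ := Fintype.card_subtype_le _
  have h4 : Fintype.card R = Fintype.card {u // lt u} := rfl
  omega

theorem trdeg_real (s : Set ℝ) :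
    Algebra.trdeg ℚ (IntermediateField.adjoin ℚ s) =
      Algebra.trdeg ℚ (IntermediateField.adjoin ℚ (((↑) : ℝ → ℂ) '' s)) := by
  have h := IntermediateField.adjoin_map ℚ s (Complex.ofRealAm.restrictScalars ℚ)
  have e := IntermediateField.equivMap (IntermediateField.adjoin ℚ s)
    (Complex.ofRealAm.restrictScalars ℚ)
  have e' : IntermediateField.adjoin ℚ s ≃ₐ[ℚ]
      IntermediateField.adjoin ℚ (((↑) : ℝ → ℂ) '' s) :=
    e.trans (IntermediateField.equivOfEq h)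
  exact AlgEquiv.trdeg_eq (AlgEquiv.ofRingEquiv (f := e'.toRingEquiv) fun q => by simp)

theorem alg_real (x : ℝ) : IsAlgebraic ℚ x ↔ Alg (x : ℂ) :=
  (isAlgebraic_algHom_iff (Complex.ofRealAm.restrictScalars ℚ) Complex.ofReal_injective).symm

end GamF

open GamF in
theorem gamFinal (hS : Stick) (hT : Trd) (hU : GamU) : GamFinal := by
  classical
  intro N hN
  have : NeZero N := ⟨by omega⟩
  obtain ⟨ι, _, x, r, k, e, hx, hk, hr, he⟩ := hU N
  let κ := {a : ZMod N // a ≠ 0}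
  have hpos : ∀ a : κ, 0 < a.1.val := fun a => Nat.pos_of_ne_zero (by
    rw [Ne, ZMod.val_eq_zero]; exact a.2)
  have hy : ∀ a : κ, gt N a.1 ≠ 0 := by
    intro a
    have h1 : (0 : ℝ) < (a.1.val : ℝ) / N :=
      div_pos (Nat.cast_pos.2 (hpos a)) (Nat.cast_pos.2 (by omega))
    exact Complex.ofReal_ne_zero.2
      (div_pos (Real.Gamma_pos_of_pos h1) (Real.sqrt_pos.2 Real.pi_pos)).ne'
  obtain ⟨h1, h2⟩ := hT ι κ x (fun a => gt N a.1) k (fun a => e a.1) hx hk
    fun a => ⟨hy a, (he a.1 a.2).2⟩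
  have hkq : (k : ℚ) ≠ 0 := Nat.cast_ne_zero.2 hk.ne'
  have hunit : ∀ (u : (ZMod N)ˣ) (a : κ), (u : ZMod N) * a.1 ≠ 0 := fun u a h =>
    a.2 ((Units.mul_right_eq_zero u).1 h)
  -- sums over the interval and over the nonzero classes
  have hbij : ∀ {M : Type} [CommMonoid M] (f : ℕ → M),
      ∏ a ∈ Finset.Ioo 0 N, f a = ∏ a : κ, f a.1.val := by
    intro M _ f
    symm
    refine Finset.prod_bij (fun a _ => a.1.val) (fun a _ => ?_) (fun a _ b _ h => ?_)
      (fun n hn => ?_) (fun _ _ => rfl)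
    · exact Finset.mem_Ioo.2 ⟨hpos a, ZMod.val_lt _⟩
    · exact Subtype.ext (ZMod.val_injective N h)
    · obtain ⟨h0, h1⟩ := Finset.mem_Ioo.1 hn
      have hv : (n : ZMod N).val = n := ZMod.val_cast_of_lt h1
      exact ⟨⟨n, fun h => by rw [h, ZMod.val_zero] at hv; omega⟩, Finset.mem_univ _, hv⟩
  have hsum : ∀ f : ℕ → ℚ, ∑ a ∈ Finset.Ioo 0 N, f a = ∑ a : κ, f a.1.val := fun f =>
    hbij (M := Multiplicative ℚ) fun a => Multiplicative.ofAdd (f a)
  refine ⟨?_, fun m => ?_⟩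
  · rw [trdeg_real]
    have hset : ((↑) : ℝ → ℂ) '' {x : ℝ | ∃ a : ℕ, 0 < a ∧ a < N ∧
        x = Real.Gamma ((a : ℝ) / N) / √Real.pi} = Set.range fun a : κ => gt N a.1 := by
      ext z
      constructor
      · rintro ⟨_, ⟨n, h0, h1, rfl⟩, rfl⟩
        have hv : (n : ZMod N).val = n := ZMod.val_cast_of_lt h1
        refine ⟨⟨n, fun h => by rw [h, ZMod.val_zero] at hv; omega⟩, ?_⟩
        simp only [gt, hv]
      · rintro ⟨a, rfl⟩
        exact ⟨_, ⟨a.1.val, hpos a, ZMod.val_lt _, rfl⟩, rfl⟩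
    rw [hset, h1, ← finrank_odd N hN]
    congr 1
    let ρ : odd N →ₗ[ℚ] (ι → ℚ) :=
      (LinearMap.funLeft ℚ ℚ r).comp (odd N).subtype
    have hρ : Function.Injective ρ := by
      rw [injective_iff_map_eq_zero]
      intro f hf
      ext u
      obtain ⟨i, hi | hi⟩ := hr u
      · have := congrFun hf i
        simpa [ρ, hi] using this
      · have := congrFun hf i
        simp only [ρ, LinearMap.comp_apply, LinearMap.funLeft_apply, Submodule.subtype_apply,
          hi, f.2 u, Pi.zero_apply, neg_eq_zero] at this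
        simpa using this
    rw [← LinearMap.finrank_range_of_inj hρ]
    refine congrArg (fun S : Submodule ℚ (ι → ℚ) => Module.finrank ℚ S) ?_
    apply le_antisymm
    · rw [Submodule.span_le]
      rintro _ ⟨a, rfl⟩
      refine ⟨⟨fun u => k * saw N (u * a.1), fun u => ?_⟩, ?_⟩
      · simp only [Units.val_neg, neg_mul, saw_neg (hunit u a), mul_neg]
      · funext i
        exact ((he a.1 a.2).1 i).symm
    · rintro _ ⟨f, rfl⟩
      obtain ⟨m, hm⟩ := hS N f.1 f.2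
      have : ρ f = ∑ a : κ, (m a.1 / k) • fun i => (e a.1 i : ℚ) := by
        funext i
        have h3 := hm (r i)
        rw [Finset.sum_subtype (Finset.univ.erase (0 : ZMod N)) (p := fun a => a ≠ 0)
          (by simp)] at h3
        rw [Finset.sum_apply]
        refine Eq.trans h3.symm (Finset.sum_congr rfl fun a _ => ?_)
        simp only [Pi.smul_apply, smul_eq_mul, (he a.1 a.2).1 i]
        field_simp
      rw [this]
      exact Submodule.sum_mem _ fun a _ =>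
        Submodule.smul_mem _ _ (Submodule.subset_span ⟨a, rfl⟩)
  · rw [alg_real, hbij]
    push_cast
    have h3 := h2 fun a => m a.1.val
    have h4 : ∏ a : κ, gt N a.1 ^ m a.1.val = ∏ a : κ,
        (((Real.Gamma ((a.1.val : ℝ) / N) : ℝ) : ℂ) / ((√Real.pi : ℝ) : ℂ)) ^ m a.1.val := by
      simp only [gt, Complex.ofReal_div]
    rw [← h4, h3]
    have key : ∀ i, (∑ a : κ, m a.1.val * e a.1 i = 0) ↔
        ∑ a : κ, (m a.1.val : ℚ) * saw N (r i * a.1) = 0 := by
      intro i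
      rw [← Int.cast_eq_zero (α := ℚ)]
      push_cast
      have : ∑ a : κ, (m a.1.val : ℚ) * (e a.1 i : ℚ) =
          k * ∑ a : κ, (m a.1.val : ℚ) * saw N (r i * a.1) := by
        rw [Finset.mul_sum]
        refine Finset.sum_congr rfl fun a _ => ?_
        rw [(he a.1 a.2).1 i]; ring
      rw [this, mul_eq_zero, or_iff_right hkq]
    have key2 : ∀ u : ℕ, ∑ a ∈ Finset.Ioo 0 N,
        (m a : ℚ) * (Int.fract ((u : ℚ) * a / N) - 1 / 2) =
        ∑ a : κ, (m a.1.val : ℚ) * saw N (u * a.1) := by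
      intro u
      rw [hsum]
      refine Finset.sum_congr rfl fun a _ => ?_
      rw [fract_eq, ZMod.natCast_zmod_val]
    simp only [key, key2]
    constructor
    · intro h u hu
      obtain ⟨i, hi | hi⟩ := hr (ZMod.unitOfCoprime u hu)
      · simpa [hi] using h i
      · have h5 := h i
        rw [hi] at h5
        have h6 : ∀ a : κ, saw N (((-ZMod.unitOfCoprime u hu : (ZMod N)ˣ) : ZMod N) * a.1) =
            -saw N (u * a.1) := fun a => by
          rw [Units.val_neg, neg_mul, saw_neg (hunit _ a), ZMod.coe_unitOfCoprime]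
        simp only [h6, mul_neg, Finset.sum_neg_distrib, neg_eq_zero] at h5
        exact h5
    · intro h i
      have h5 := h (r i : ZMod N).val (ZMod.val_coe_unit_coprime _)
      rwa [ZMod.natCast_zmod_val] at h5

end Pool.Agent.GAM

end MrgPart3

-- marker of a merged file
example : 731051 + 588932 = 731051 + 588932 := rfl
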