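import Mathlib.RingTheory.Flat.FaithfullyFlat.Algebra
import Mathlib.RingTheory.Flat.TorsionFree
import Mathlib.Data.Int.Star
import Mathlib.RingTheory.PicardGroup
import Mathlib.Algebra.Order.Archimedean.Real.Hom
import Mathlib.Analysis.Matrix.PosDef
import Mathlib.Data.Rat.Star
import Mathlib.RingTheory.SimpleRing.Principal
import Pool.Agent.MP_cbf1af_ag.gam.Spec

-- ======== part 0: formerly Pool.Agent.MP_cbf1af_ag.gam.Riem
section MrgPart0

/-! PROJECT GAM: the theta relation of Riemann and a finite family of theta functions which is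
closed under the addition formula. -/

namespace Pool.Agent.GAM.Rm

open Matrix Complex Filter Topology

noncomputable section

variable {κ : Type} [Fintype κ] [DecidableEq κ]

lemma ee_add (x y : ℂ) : ee (x + y) = ee x * ee y := by
  simp only [ee, mul_add, Complex.exp_add]

lemma ee_ne (x : ℂ) : ee x ≠ 0 := Complex.exp_ne_zero _

lemma ee_zero : ee 0 = 1 := by simp [ee]

lemma ee_int (k : ℤ) : ee (k : ℂ) = 1 := by
  rw [ee, mul_comm]
  exact Complex.exp_int_mul_two_pi_mul_I k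

lemma ee_half (k : ℤ) : ee ((k : ℂ) / 2) = (-1) ^ k := by
  rw [ee, ← Complex.exp_pi_mul_I, ← Complex.exp_int_mul]
  congr 1
  ring

lemma ee_alg (q : ℚ) : Alg (ee (q : ℂ)) := by
  refine IsAlgebraic.of_pow q.den_pos ?_
  have h : ee (q : ℂ) ^ q.den = 1 := by
    rw [ee, ← Complex.exp_nat_mul]
    have h1 : (q.den : ℂ) * (q : ℂ) = (q.num : ℂ) := by
      exact_mod_cast Rat.den_mul_eq_num q
    have h2 : (q.den : ℂ) * (2 * Real.pi * I * (q : ℂ)) = (q.num : ℂ) * (2 * Real.pi * I) := by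
      rw [← h1]; ring
    rw [h2]
    exact Complex.exp_int_mul_two_pi_mul_I _
  rw [h]
  exact isAlgebraic_one

lemma alg_sum {ι : Type} (s : Finset ι) (f : ι → ℂ) (h : ∀ i ∈ s, Alg (f i)) :
    Alg (∑ i ∈ s, f i) := by
  classical
  induction s using Finset.induction_on with
  | empty => simpa using isAlgebraic_zero
  | insert a s ha ih =>
    rw [Finset.sum_insert ha]
    exact (h a (Finset.mem_insert_self _ _)).add
      (ih fun i hi => h i (Finset.mem_insert_of_mem hi))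

lemma alg_prod {ι : Type} (s : Finset ι) (f : ι → ℂ) (h : ∀ i ∈ s, Alg (f i)) :
    Alg (∏ i ∈ s, f i) := by
  classical
  induction s using Finset.induction_on with
  | empty => simpa using isAlgebraic_one
  | insert a s ha ih =>
    rw [Finset.prod_insert ha]
    exact (h a (Finset.mem_insert_self _ _)).mul
      (ih fun i hi => h i (Finset.mem_insert_of_mem hi))

omit [Fintype κ] [DecidableEq κ] in
lemma cq_add (m n : κ → ℚ) : cq (m + n) = cq m + cq n := by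
  funext i; simp [cq]

omit [Fintype κ] [DecidableEq κ] in
lemma cq_sub (m n : κ → ℚ) : cq (m - n) = cq m - cq n := by
  funext i; simp [cq]

omit [Fintype κ] [DecidableEq κ] in
lemma cq_neg (m : κ → ℚ) : cq (-m) = -cq m := by
  funext i; simp [cq]

omit [Fintype κ] [DecidableEq κ] in
lemma cq_half (m : κ → ℚ) : cq ((1 / 2 : ℚ) • m) = (1 / 2 : ℂ) • cq m := by
  funext i; simp [cq]

lemma summ0 (hA : ThA κ) {f : (κ → ℚ) → ℂ} {τ : Matrix κ κ ℂ} (z : κ → ℂ) (hf : Sch f)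
    (hτ : InH τ) : Summable fun n => ‖f n * term τ z n‖ := by
  simpa using hA.summ f τ z 0 hf hτ

lemma thz_exp (hA : ThA κ) {ρ : Type} [Fintype ρ] {f : (κ → ℚ) → ℂ} {g : ρ → (κ → ℚ) → ℂ}
    {a : ρ → ℂ} {τ : Matrix κ κ ℂ} (hτ : InH τ) (hg : ∀ p, Sch (g p))
    (h : ∀ n, f n = ∑ p, a p * g p n) (z : κ → ℂ) : thz f τ z = ∑ p, a p * thz (g p) τ z := by
  have h1 : HasSum (fun n => ∑ p, a p * (g p n * term τ z n)) (∑ p, a p * thz (g p) τ z) :=
    hasSum_sum fun p _ => ((summ0 hA z (hg p) hτ).of_norm.hasSum).mul_left (a p)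
  rw [← h1.tsum_eq, thz]
  refine tsum_congr fun n => ?_
  rw [h n, Finset.sum_mul]
  exact Finset.sum_congr rfl fun p _ => by ring

lemma hs4 {X : Type} {a b c d : X → ℂ} (ha : Summable fun n => ‖a n‖)
    (hb : Summable fun n => ‖b n‖) (hc : Summable fun n => ‖c n‖) (hd : Summable fun n => ‖d n‖) :
    HasSum (fun m : (X × X) × (X × X) => a m.1.1 * b m.1.2 * (c m.2.1 * d m.2.2))
      ((∑' n, a n) * (∑' n, b n) * ((∑' n, c n) * ∑' n, d n)) := by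
  have h1 := ha.mul_norm hb
  have h2 := hc.mul_norm hd
  rw [tsum_mul_tsum_of_summable_norm ha hb, tsum_mul_tsum_of_summable_norm hc hd,
    tsum_mul_tsum_of_summable_norm h1 h2]
  exact (h1.mul_norm h2).of_norm.hasSum

/-- the substitution of Riemann -/
def tt (m : ((κ → ℚ) × (κ → ℚ)) × ((κ → ℚ) × (κ → ℚ))) :
    ((κ → ℚ) × (κ → ℚ)) × ((κ → ℚ) × (κ → ℚ)) :=
  (((1 / 2 : ℚ) • (m.1.1 + m.1.2 + m.2.1 + m.2.2), (1 / 2 : ℚ) • (m.1.1 + m.1.2 - m.2.1 - m.2.2)),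
    ((1 / 2 : ℚ) • (m.1.1 - m.1.2 + m.2.1 - m.2.2), (1 / 2 : ℚ) • (m.1.1 - m.1.2 - m.2.1 + m.2.2)))

omit [Fintype κ] [DecidableEq κ] in
lemma tt_tt : Function.Involutive (tt (κ := κ)) := by
  rintro ⟨⟨a, b⟩, c, d⟩
  simp only [tt, Prod.mk.injEq]
  refine ⟨⟨?_, ?_⟩, ?_, ?_⟩ <;> (funext i; simp; ring)

omit [DecidableEq κ] in
lemma term4 (τ : Matrix κ κ ℂ) (z w : κ → ℂ) (m : ((κ → ℚ) × (κ → ℚ)) × ((κ → ℚ) × (κ → ℚ))) :
    term τ (z + w) (tt m).1.1 * term τ (z - w) (tt m).1.2 *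
        (term τ 0 (tt m).2.1 * term τ 0 (tt m).2.2) =
      term τ z m.1.1 * term τ z m.1.2 * (term τ w m.2.1 * term τ w m.2.2) := by
  simp only [term, ← ee_add, tt, cq_half, cq_add, cq_sub]
  congr 1
  simp only [mulVec_smul, mulVec_add, mulVec_sub, dotProduct_smul, smul_dotProduct, add_dotProduct,
    sub_dotProduct, dotProduct_add, dotProduct_sub, dotProduct_zero, smul_eq_mul]
  ring

/-- the theta relation of Riemann -/
lemma riem (hA : ThA κ) {ρ : Type} [Fintype ρ] {f₁ f₂ f₃ f₄ : (κ → ℚ) → ℂ}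
    {g : ρ → (κ → ℚ) → ℂ} {a : ρ → ρ → ρ → ρ → ℂ} {τ : Matrix κ κ ℂ} (hτ : InH τ)
    (h₁ : Sch f₁) (h₂ : Sch f₂) (h₃ : Sch f₃) (h₄ : Sch f₄) (hg : ∀ p, Sch (g p))
    (h : ∀ m, f₁ (tt m).1.1 * f₂ (tt m).1.2 * (f₃ (tt m).2.1 * f₄ (tt m).2.2) =
      ∑ p, ∑ q, ∑ r, ∑ s, a p q r s * (g p m.1.1 * g q m.1.2 * (g r m.2.1 * g s m.2.2)))
    (z w : κ → ℂ) :
    thz f₁ τ (z + w) * thz f₂ τ (z - w) * (th f₃ τ * th f₄ τ) =
      ∑ p, ∑ q, ∑ r, ∑ s, a p q r s *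
        (thz (g p) τ z * thz (g q) τ z * (thz (g r) τ w * thz (g s) τ w)) := by
  have hl := hs4 (summ0 hA (z + w) h₁ hτ) (summ0 hA (z - w) h₂ hτ) (summ0 hA 0 h₃ hτ)
    (summ0 hA 0 h₄ hτ)
  have hl' := (Function.Involutive.toPerm tt tt_tt).hasSum_iff.2 hl
  have hr : HasSum (fun m : ((κ → ℚ) × (κ → ℚ)) × ((κ → ℚ) × (κ → ℚ)) =>
      ∑ p, ∑ q, ∑ r, ∑ s, a p q r s * (g p m.1.1 * term τ z m.1.1 * (g q m.1.2 * term τ z m.1.2) *
        (g r m.2.1 * term τ w m.2.1 * (g s m.2.2 * term τ w m.2.2))))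
      (∑ p, ∑ q, ∑ r, ∑ s, a p q r s *
        (thz (g p) τ z * thz (g q) τ z * (thz (g r) τ w * thz (g s) τ w))) :=
    hasSum_sum fun p _ => hasSum_sum fun q _ => hasSum_sum fun r _ => hasSum_sum fun s _ =>
      (hs4 (summ0 hA z (hg p) hτ) (summ0 hA z (hg q) hτ) (summ0 hA w (hg r) hτ)
        (summ0 hA w (hg s) hτ)).mul_left _
  refine hl'.unique ?_
  convert hr using 2 with m
  have h2 := term4 τ z w m
  simp only [Function.comp, Function.Involutive.coe_toPerm]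
  calc _ = f₁ (tt m).1.1 * f₂ (tt m).1.2 * (f₃ (tt m).2.1 * f₄ (tt m).2.2) *
      (term τ (z + w) (tt m).1.1 * term τ (z - w) (tt m).1.2 *
        (term τ 0 (tt m).2.1 * term τ 0 (tt m).2.2)) := by ring
    _ = _ := by
      rw [h m, h2]
      simp only [Finset.sum_mul]
      refine Finset.sum_congr rfl fun p _ => Finset.sum_congr rfl fun q _ =>
        Finset.sum_congr rfl fun r _ => Finset.sum_congr rfl fun s _ => by ring

/-! ### Functions of pure type -/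

/-- the sign character of a set of coordinates -/
def sg (S : Finset κ) (k : κ → ℤ) : ℂ := ∏ i ∈ S, (-1 : ℂ) ^ k i

omit [Fintype κ] [DecidableEq κ] in
lemma sg_sq (S : Finset κ) (k : κ → ℤ) : sg S k * sg S k = 1 := by
  rw [sg, ← Finset.prod_mul_distrib]
  refine Finset.prod_eq_one fun i _ => ?_
  rw [← mul_zpow]; simp

omit [Fintype κ] in
lemma sg_eq (S : Finset κ) (k : κ → ℤ) : (-1 : ℂ) ^ (∑ i ∈ S, k i) = sg S k := by
  induction S using Finset.induction_on with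
  | empty => simp [sg]
  | insert a s ha ih =>
    rw [Finset.sum_insert ha, zpow_add₀ (by norm_num), ih, sg, sg, Finset.prod_insert ha]

/-- support in `a / (2 L) + (1 / L) ℤ`, quasi-period `L` -/
def Pure (L : ℕ) (a : κ → ℤ) (S : Finset κ) (f : (κ → ℚ) → ℂ) : Prop :=
  (∀ n, f n ≠ 0 → ∀ i, ∃ k : ℤ, 2 * (L : ℚ) * n i = a i + 2 * k) ∧
    (∀ (n : κ → ℚ) (k : κ → ℤ), f (n + fun i => (L : ℚ) * k i) = sg S k * f n) ∧ ∀ n, Alg (f n)

omit [Fintype κ] [DecidableEq κ] in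
lemma Pure.sub {L : ℕ} {a : κ → ℤ} {S : Finset κ} {f : (κ → ℚ) → ℂ} (h : Pure L a S f)
    (n : κ → ℚ) (k : κ → ℤ) : f (n - fun i => (L : ℚ) * k i) = sg S k * f n := by
  have h1 := h.2.1 (n - fun i => (L : ℚ) * k i) k
  rw [sub_add_cancel] at h1
  rw [h1, ← mul_assoc, sg_sq, one_mul]

omit [Fintype κ] [DecidableEq κ] in
lemma Pure.lev {L : ℕ} {a : κ → ℤ} {S : Finset κ} {f : (κ → ℚ) → ℂ} (h : Pure L a S f) :
    Lev (2 * L) f := by
  refine ⟨fun n hn i => ?_, fun n k => ?_, h.2.2⟩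
  · obtain ⟨k, hk⟩ := h.1 n hn i
    exact ⟨a i + 2 * k, by push_cast; exact hk⟩
  · have h1 : (n + fun i => ((2 * L : ℕ) : ℚ) * k i) =
        (n + fun i => (L : ℚ) * k i) + fun i => (L : ℚ) * k i := by
      funext i; simp; ring
    rw [h1, h.2.1, h.2.1, ← mul_assoc, sg_sq, one_mul]

/-- the functions of the family -/
def ps (L : ℕ) (p : (κ → Fin ((2 * L) ^ 2)) × Finset κ) (n : κ → ℚ) : ℂ := by
  classical
  exact if ∀ i, ∃ k : ℤ, n i - (p.1 i : ℚ) / (2 * L) = L * k then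
    ∏ i ∈ p.2, ee (((n i - (p.1 i : ℚ) / (2 * L)) / (2 * L) : ℚ) : ℂ) else 0

omit [DecidableEq κ] in
lemma ps_pure {L : ℕ} (hL : 0 < L) (p : (κ → Fin ((2 * L) ^ 2)) × Finset κ) :
    Pure L (fun i => (p.1 i : ℤ)) p.2 (ps L p) := by
  have hL' : (L : ℚ) ≠ 0 := by positivity
  refine ⟨fun n hn i => ?_, fun n k => ?_, fun n => ?_⟩
  · rw [ps] at hn
    split_ifs at hn with h
    · obtain ⟨k, hk⟩ := h i
      refine ⟨L * L * k, ?_⟩
      have : n i = (p.1 i : ℚ) / (2 * L) + L * k := by linarith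
      rw [this]; push_cast; field_simp
    · exact absurd rfl hn
  · have hiff : (∀ i, ∃ j : ℤ, (n + fun i => (L : ℚ) * k i) i - (p.1 i : ℚ) / (2 * L) = L * j) ↔
        ∀ i, ∃ j : ℤ, n i - (p.1 i : ℚ) / (2 * L) = L * j := by
      refine forall_congr' fun i => ⟨fun ⟨j, hj⟩ => ⟨j - k i, ?_⟩, fun ⟨j, hj⟩ => ⟨j + k i, ?_⟩⟩
      · simp only [Pi.add_apply] at hj
        push_cast; linarith
      · simp only [Pi.add_apply]
        push_cast; linarith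
    unfold ps
    by_cases h : ∀ i, ∃ j : ℤ, n i - (p.1 i : ℚ) / (2 * L) = L * j
    · rw [if_pos (hiff.2 h), if_pos h, sg, ← Finset.prod_mul_distrib]
      refine Finset.prod_congr rfl fun i _ => ?_
      rw [← ee_half, ← ee_add]
      congr 1
      have hL'' : (L : ℂ) ≠ 0 := by exact_mod_cast hL.ne'
      simp only [Pi.add_apply]
      push_cast; field_simp; ring
    · rw [if_neg (fun h' => h (hiff.1 h')), if_neg h, mul_zero]
  · unfold ps
    split_ifs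
    · exact alg_prod _ _ fun i _ => ee_alg _
    · exact isAlgebraic_zero

/-- representatives -/
def rep (L : ℕ) (r : κ → Fin ((2 * L) ^ 2)) : κ → ℚ := fun i => (r i : ℚ) / (2 * L)

lemma sum_ps {L : ℕ} (hL : 0 < L) (r : κ → Fin ((2 * L) ^ 2)) (n : κ → ℚ) :
    ((∀ i, ∃ k : ℤ, n i - rep L r i = 2 * L * k) →
      ∑ S, ps L (r, S) n = 2 ^ Fintype.card κ) ∧
    ((¬∀ i, ∃ k : ℤ, n i - rep L r i = 2 * L * k) → ∑ S, ps L (r, S) n = 0) := by
  have hL' : (L : ℂ) ≠ 0 := by exact_mod_cast hL.ne'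
  by_cases h : ∀ i, ∃ k : ℤ, n i - (r i : ℚ) / (2 * L) = L * k
  · have h1 : ∑ S, ps L (r, S) n =
        ∏ i, (1 + ee (((n i - (r i : ℚ) / (2 * L)) / (2 * L) : ℚ) : ℂ)) := by
      rw [Finset.prod_one_add, Finset.powerset_univ]
      refine Finset.sum_congr rfl fun S _ => ?_
      unfold ps
      rw [if_pos h]
    rw [h1]
    refine ⟨fun h2 => ?_, fun h2 => ?_⟩
    · rw [← Finset.card_univ, ← Finset.prod_const]
      refine Finset.prod_congr rfl fun i _ => ?_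
      obtain ⟨k, hk⟩ := h2 i
      rw [rep] at hk
      have : ((((n i - (r i : ℚ) / (2 * L)) / (2 * L) : ℚ) : ℂ)) = (k : ℂ) := by
        rw [hk]; push_cast; field_simp
      rw [this, ee_int]; norm_num
    · push Not at h2
      obtain ⟨i, hi⟩ := h2
      refine Finset.prod_eq_zero (Finset.mem_univ i) ?_
      obtain ⟨k, hk⟩ := h i
      have : ((((n i - (r i : ℚ) / (2 * L)) / (2 * L) : ℚ) : ℂ)) = (k : ℂ) / 2 := by
        rw [hk]; push_cast; field_simp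
      rw [this, ee_half]
      rcases Int.even_or_odd k with he | ho
      · obtain ⟨j, hj⟩ := he
        refine absurd ?_ (hi j)
        rw [rep, hk, hj]; push_cast; ring
      · rw [ho.neg_one_zpow]; norm_num
  · have h1 : ∑ S, ps L (r, S) n = 0 := Finset.sum_eq_zero fun S _ => by
      unfold ps
      rw [if_neg h]
    refine ⟨fun h2 => absurd (fun i => ?_) h, fun _ => h1⟩
    obtain ⟨k, hk⟩ := h2 i
    refine ⟨2 * k, ?_⟩
    rw [rep] at hk
    rw [hk]; push_cast; ring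

lemma exp_ps {L : ℕ} (hL : 0 < L) {f : (κ → ℚ) → ℂ} (hf : Lev (2 * L) f) (n : κ → ℚ) :
    f n = ∑ p : (κ → Fin ((2 * L) ^ 2)) × Finset κ,
      (f (rep L p.1) / 2 ^ Fintype.card κ) * ps L p n := by
  have hL' : (L : ℚ) ≠ 0 := by positivity
  rw [Fintype.sum_prod_type]
  simp only [← Finset.mul_sum]
  by_cases h : ∀ i, ∃ k : ℤ, 2 * (L : ℚ) * n i = k
  · choose k hk using h
    have hM : (0 : ℤ) < (2 * L) ^ 2 := by positivity
    let r : κ → Fin ((2 * L) ^ 2) := fun i => ⟨(k i % (2 * L) ^ 2).toNat, by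
      have h1 := Int.emod_lt_of_pos (k i) hM
      have h2 := Int.emod_nonneg (k i) hM.ne'
      zify
      rw [Int.toNat_of_nonneg h2]
      exact h1⟩
    have hr : ∀ i, ((r i : ℕ) : ℤ) = k i % (2 * L) ^ 2 := fun i =>
      Int.toNat_of_nonneg (Int.emod_nonneg (k i) hM.ne')
    have hn : ∀ i, n i - rep L r i = 2 * L * ((k i / (2 * L) ^ 2 : ℤ) : ℚ) := fun i => by
      have h1 := Int.emod_add_mul_ediv (k i) ((2 * L) ^ 2)
      rw [← hr i] at h1
      have h2 : ((r i : ℕ) : ℚ) + (2 * L) ^ 2 * ((k i / (2 * L) ^ 2 : ℤ) : ℚ) = k i := by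
        exact_mod_cast h1
      rw [← hk i] at h2
      rw [rep]
      field_simp
      linarith
    rw [Finset.sum_eq_single r]
    · rw [(sum_ps hL r n).1 fun i => ⟨_, hn i⟩, div_mul_cancel₀ _ (pow_ne_zero _ two_ne_zero)]
      rw [← hf.2.1 (rep L r) fun i => k i / (2 * L) ^ 2]
      congr 1
      funext i
      simp only [Pi.add_apply]
      push_cast
      linarith [hn i]
    · intro r' _ hr'
      rw [(sum_ps hL r' n).2, mul_zero]
      intro h'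
      refine hr' (funext fun i => Fin.ext ?_)
      obtain ⟨j, hj⟩ := h' i
      have h2 : ((r' i : ℕ) : ℚ) + (2 * L) ^ 2 * j = k i := by
        rw [← hk i]
        rw [rep] at hj
        field_simp at hj
        linarith
      have h3 : ((r' i : ℕ) : ℤ) + (2 * L) ^ 2 * j = k i := by exact_mod_cast h2
      have h4 : ((r' i : ℕ) : ℤ) < (2 * L) ^ 2 := by exact_mod_cast (r' i).2
      have h5 : k i % (2 * L) ^ 2 = (r' i : ℕ) := by
        rw [← h3, Int.add_mul_emod_self_left, Int.emod_eq_of_lt (by positivity) h4]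
      have h6 := hr i
      rw [h5] at h6
      exact_mod_cast h6.symm
    · simp
  · have h0 : f n = 0 := by
      by_contra h0
      refine h fun i => ?_
      obtain ⟨k, hk⟩ := hf.1 n h0 i
      exact ⟨k, by push_cast at hk; exact hk⟩
    rw [h0]
    refine (Finset.sum_eq_zero fun r _ => ?_).symm
    rw [(sum_ps hL r n).2, mul_zero]
    intro h'
    refine h fun i => ?_
    obtain ⟨j, hj⟩ := h' i
    refine ⟨r i + (2 * L) ^ 2 * j, ?_⟩
    rw [rep] at hj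
    push_cast
    field_simp at hj
    linarith

lemma exp4 {L : ℕ} (hL : 0 < L) {G : (κ → ℚ) → (κ → ℚ) → (κ → ℚ) → (κ → ℚ) → ℂ}
    (h₁ : ∀ b c d, Lev (2 * L) fun a => G a b c d) (h₂ : ∀ a c d, Lev (2 * L) fun b => G a b c d)
    (h₃ : ∀ a b d, Lev (2 * L) fun c => G a b c d) (h₄ : ∀ a b c, Lev (2 * L) fun d => G a b c d)
    (a b c d : κ → ℚ) :
    G a b c d = ∑ p : (κ → Fin ((2 * L) ^ 2)) × Finset κ,
      ∑ q : (κ → Fin ((2 * L) ^ 2)) × Finset κ, ∑ r : (κ → Fin ((2 * L) ^ 2)) × Finset κ,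
      ∑ s : (κ → Fin ((2 * L) ^ 2)) × Finset κ,
        G (rep L p.1) (rep L q.1) (rep L r.1) (rep L s.1) / (2 ^ Fintype.card κ) ^ 4 *
          (ps L p a * ps L q b * (ps L r c * ps L s d)) := by
  rw [exp_ps hL (h₁ b c d) a]
  refine Finset.sum_congr rfl fun p _ => ?_
  rw [exp_ps hL (h₂ _ c d) b, Finset.sum_div, Finset.sum_mul]
  refine Finset.sum_congr rfl fun q _ => ?_
  rw [exp_ps hL (h₃ _ _ d) c]
  simp only [Finset.sum_div, Finset.sum_mul]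
  refine Finset.sum_congr rfl fun r _ => ?_
  rw [exp_ps hL (h₄ _ _ _) d]
  simp only [Finset.sum_div, Finset.sum_mul]
  refine Finset.sum_congr rfl fun s _ => ?_
  ring

/-- the transformed product -/
def gg (f₁ f₂ f₃ f₄ : (κ → ℚ) → ℂ) (a b c d : κ → ℚ) : ℂ :=
  f₁ ((1 / 2 : ℚ) • (a + b + c + d)) * f₂ ((1 / 2 : ℚ) • (a + b - c - d)) *
    (f₃ ((1 / 2 : ℚ) • (a - b + c - d)) * f₄ ((1 / 2 : ℚ) • (a - b - c + d)))

omit [Fintype κ] [DecidableEq κ] in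
lemma gg_lev {L : ℕ} {x y : κ → ℤ} {S T : Finset κ} {f₁ f₂ f₃ f₄ : (κ → ℚ) → ℂ}
    (h₁ : Pure L x S f₁) (h₂ : Pure L y T f₂) (h₃ : Pure L x S f₃) (h₄ : Pure L y T f₄) :
    (∀ b c d, Lev (2 * L) fun a => gg f₁ f₂ f₃ f₄ a b c d) ∧
    (∀ a c d, Lev (2 * L) fun b => gg f₁ f₂ f₃ f₄ a b c d) ∧
    (∀ a b d, Lev (2 * L) fun c => gg f₁ f₂ f₃ f₄ a b c d) ∧
    (∀ a b c, Lev (2 * L) fun d => gg f₁ f₂ f₃ f₄ a b c d) := by
  have hal : ∀ a b c d, Alg (gg f₁ f₂ f₃ f₄ a b c d) := fun a b c d =>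
    ((h₁.2.2 _).mul (h₂.2.2 _)).mul ((h₃.2.2 _).mul (h₄.2.2 _))
  have hs : ∀ a b c d, gg f₁ f₂ f₃ f₄ a b c d ≠ 0 → ∀ i,
      (∃ k : ℤ, ((2 * L : ℕ) : ℚ) * a i = k) ∧ (∃ k : ℤ, ((2 * L : ℕ) : ℚ) * b i = k) ∧
      (∃ k : ℤ, ((2 * L : ℕ) : ℚ) * c i = k) ∧ (∃ k : ℤ, ((2 * L : ℕ) : ℚ) * d i = k) := by
    intro a b c d h i
    rw [gg] at h
    simp only [ne_eq, mul_eq_zero, not_or] at h
    obtain ⟨k₁, e₁⟩ := h₁.1 _ h.1.1 i
    obtain ⟨k₂, e₂⟩ := h₂.1 _ h.1.2 i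
    obtain ⟨k₃, e₃⟩ := h₃.1 _ h.2.1 i
    obtain ⟨k₄, e₄⟩ := h₄.1 _ h.2.2 i
    simp only [Pi.smul_apply, Pi.add_apply, Pi.sub_apply, smul_eq_mul] at e₁ e₂ e₃ e₄
    refine ⟨⟨x i + y i + k₁ + k₂ + k₃ + k₄, ?_⟩, ⟨k₁ + k₂ - k₃ - k₄, ?_⟩,
      ⟨x i - y i + k₁ - k₂ + k₃ - k₄, ?_⟩, ⟨k₁ - k₂ - k₃ + k₄, ?_⟩⟩ <;>
    · push_cast
      linarith
  have key : ∀ (k : κ → ℤ) (u v w t : ℂ), sg S k * u * (sg T k * v) * (sg S k * w * (sg T k * t)) =
      u * v * (w * t) := fun k u v w t => by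
    calc _ = (sg S k * sg S k) * (sg T k * sg T k) * (u * v * (w * t)) := by ring
      _ = _ := by rw [sg_sq, sg_sq]; ring
  refine ⟨fun b c d => ⟨fun a ha i => (hs _ _ _ _ ha i).1, fun a k => ?_, fun _ => hal _ _ _ _⟩,
    fun a c d => ⟨fun b ha i => (hs _ _ _ _ ha i).2.1, fun b k => ?_, fun _ => hal _ _ _ _⟩,
    fun a b d => ⟨fun c ha i => (hs _ _ _ _ ha i).2.2.1, fun c k => ?_, fun _ => hal _ _ _ _⟩,
    fun a b c => ⟨fun d ha i => (hs _ _ _ _ ha i).2.2.2, fun d k => ?_, fun _ => hal _ _ _ _⟩⟩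
  · simp only [gg]
    rw [← key k (f₁ ((1 / 2 : ℚ) • (a + b + c + d))), ← h₁.2.1, ← h₂.2.1, ← h₃.2.1, ← h₄.2.1]
    congr 2 <;> (try congr 1) <;> (funext i; simp; ring)
  · simp only [gg]
    rw [← key k (f₁ ((1 / 2 : ℚ) • (a + b + c + d))), ← h₁.2.1, ← h₂.2.1, ← h₃.sub, ← h₄.sub]
    congr 2 <;> (try congr 1) <;> (funext i; simp; ring)
  · simp only [gg]
    rw [← key k (f₁ ((1 / 2 : ℚ) • (a + b + c + d))), ← h₁.2.1, ← h₂.sub, ← h₃.2.1, ← h₄.sub]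
    congr 2 <;> (try congr 1) <;> (funext i; simp; ring)
  · simp only [gg]
    rw [← key k (f₁ ((1 / 2 : ℚ) • (a + b + c + d))), ← h₁.2.1, ← h₂.sub, ← h₃.sub, ← h₄.2.1]
    congr 2 <;> (try congr 1) <;> (funext i; simp; ring)

omit [DecidableEq κ] in
lemma lev_W_int {L : ℕ} {f : (κ → ℚ) → ℂ} (hf : Lev L f) (k : κ ⊕ κ → ℤ) :
    Lev L (W (fun a => (k a : ℚ)) f) := by
  refine ⟨fun n hn i => ?_, fun n j => ?_, fun n => (ee_alg _).mul (hf.2.2 _)⟩
  · obtain ⟨j, hj⟩ := hf.1 _ (right_ne_zero_of_mul hn) i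
    refine ⟨j + L * k (Sum.inl i), ?_⟩
    simp only [Pi.sub_apply, Function.comp] at hj
    push_cast
    linarith
  · simp only [W]
    rw [add_sub_right_comm, hf.2.1, add_dotProduct]
    congr 1
    have h1 : ((fun i => (L : ℚ) * j i) ⬝ᵥ ((fun a => (k a : ℚ)) ∘ Sum.inr)) =
        ((∑ i, L * j i * k (Sum.inr i) : ℤ) : ℚ) := by
      simp [dotProduct]
    rw [h1, add_sub_right_comm, Rat.cast_add, ee_add, Rat.cast_intCast, ee_int, mul_one]

lemma pure_W {L : ℕ} (hL : 0 < L) {f : (κ → ℚ) → ℂ} (hf : Lev L f) (x : κ → ℤ) (S : Finset κ) :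
    Pure L x S (W (Sum.elim (fun i => (x i : ℚ) / (2 * L))
      fun i => if i ∈ S then 1 / (2 * L) else 0) f) := by
  have hL' : (L : ℚ) ≠ 0 := by positivity
  refine ⟨fun n hn i => ?_, fun n j => ?_, fun n => (ee_alg _).mul (hf.2.2 _)⟩
  · obtain ⟨j, hj⟩ := hf.1 _ (right_ne_zero_of_mul hn) i
    refine ⟨j, ?_⟩
    simp only [Pi.sub_apply, Function.comp, Sum.elim_inl] at hj
    field_simp at hj
    linarith
  · simp only [W]
    rw [add_sub_right_comm, hf.2.1, add_dotProduct, add_sub_right_comm, Rat.cast_add, ee_add]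
    have h1 : ((fun i => (L : ℚ) * j i) ⬝ᵥ ((Sum.elim (fun i => (x i : ℚ) / (2 * L))
        fun i => if i ∈ S then (1 : ℚ) / (2 * L) else 0) ∘ Sum.inr)) =
        ((∑ i ∈ S, j i : ℤ) : ℚ) / 2 := by
      simp only [dotProduct, Function.comp, Sum.elim_inr, mul_ite, mul_zero, Finset.sum_ite_mem,
        Finset.univ_inter]
      push_cast
      rw [Finset.sum_div]
      exact Finset.sum_congr rfl fun i _ => by field_simp
    rw [h1, Rat.cast_div, Rat.cast_intCast, Rat.cast_ofNat, ee_half, sg_eq]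
    ring

/-- the real linear map of the normalised period matrix -/
def pl (τ : Matrix κ κ ℂ) : (κ ⊕ κ → ℝ) →ₗ[ℝ] (κ → ℂ) where
  toFun t := (fun a => (t a : ℂ)) ᵥ* per τ
  map_add' t t' := by
    rw [← add_vecMul]; congr 1; funext a; simp
  map_smul' c t := by
    funext j
    simp [vecMul, dotProduct, Finset.mul_sum, mul_assoc]

lemma pl_surj (hB : ThB κ) {τ : Matrix κ κ ℂ} (hτ : InH τ) : Function.Surjective (pl τ) := by
  obtain ⟨ι, b, hb⟩ := hB.isTor τ hτ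
  rw [← LinearMap.range_eq_top, eq_top_iff, ← b.span_eq, Submodule.span_le]
  rintro _ ⟨i, rfl⟩
  have : b i ∈ tor τ := by
    rw [hb]; exact Submodule.subset_span ⟨i, rfl⟩
  obtain ⟨v, hv⟩ := this
  refine ⟨fun a => (v a : ℝ), ?_⟩
  rw [← hv]
  simp only [pl, LinearMap.coe_mk, AddHom.coe_mk, ofReal_ratCast]
  rfl

/-- no base points at a suitable level -/
lemma bpf (hA : ThA κ) (hB : ThB κ) (hT : ThC κ) {τ : Matrix κ κ ℂ} (hτ : InH τ) :
    ∃ L : ℕ, 0 < L ∧ ∀ z, ∃ f, Lev L f ∧ thz f τ z ≠ 0 := by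
  obtain ⟨f, hf, hf0⟩ := hT.nz τ hτ
  have hc : ∀ g, Sch g → Continuous (thz g τ) := fun g hg =>
    continuous_iff_continuousAt.2 fun z => (hA.anaz g τ z hg hτ).continuousAt
  have hcov : ∀ z, ∃ v, thz (W v f) τ z ≠ 0 := fun z => by
    have ho : IsOpen {w | thz f τ (z + w) ≠ 0} :=
      isOpen_ne_fun ((hc f hf).comp (continuous_const.add continuous_id)) continuous_const
    obtain ⟨w, hw, v, rfl⟩ := (hB.dense _ (hB.isTor τ hτ)).inter_open_nonempty _ ho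
      ⟨-z, by simpa [th] using hf0⟩
    refine ⟨v, ?_⟩
    rw [hB.trans v f τ z hτ.1]
    exact mul_ne_zero (ee_ne _) hw
  have hK : IsCompact (pl τ '' Set.Icc 0 1) :=
    isCompact_Icc.image (pl τ).continuous_of_finiteDimensional
  obtain ⟨t, ht⟩ := hK.elim_finite_subcover (fun v => {z | thz (W v f) τ z ≠ 0})
    (fun v => isOpen_ne_fun (hc _ (hB.schW v f hf)) continuous_const)
    (fun z _ => Set.mem_iUnion.2 (hcov z))
  obtain ⟨L, hL, -, hl⟩ := hB.common t (fun v => W v.1 f) fun v => hB.schW _ f hf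
  refine ⟨L, hL, fun z => ?_⟩
  obtain ⟨y, rfl⟩ := pl_surj hB hτ z
  have h1 : pl τ (fun a => Int.fract (y a)) ∈ pl τ '' Set.Icc 0 1 :=
    ⟨_, ⟨fun a => Int.fract_nonneg _, fun a => (Int.fract_lt_one _).le⟩, rfl⟩
  obtain ⟨v, hv, h2⟩ := Set.mem_iUnion₂.1 (ht h1)
  refine ⟨W (fun a => ((-⌊y a⌋ : ℤ) : ℚ)) (W v f), lev_W_int (hl ⟨v, hv⟩) _, ?_⟩
  rw [hB.trans _ _ τ _ hτ.1]
  refine mul_ne_zero (ee_ne _) ?_
  have h3 : pl τ y + cq (fun a => ((-⌊y a⌋ : ℤ) : ℚ)) ᵥ* per τ = pl τ fun a => Int.fract (y a) := by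
    simp only [pl, LinearMap.coe_mk, AddHom.coe_mk]
    rw [← add_vecMul]
    congr 1
    funext a
    simp [cq, Int.fract, sub_eq_add_neg]
  rw [h3]
  exact h2

/-- a finite family of theta functions closed under the addition formula -/
theorem family (hA : ThA κ) (hB : ThB κ) (hT : ThC κ) {τ : Matrix κ κ ℂ} (hτ : AlgPt τ) :
    ∃ (M : ℕ) (ρ : Type) (_ : Fintype ρ) (ψ : ρ → (κ → ℚ) → ℂ) (p₀ : ρ), 0 < M ∧ Even M ∧
      (∀ p, Lev M (ψ p)) ∧ th (ψ p₀) τ ≠ 0 ∧ (∀ z, ∃ p, thz (ψ p) τ z ≠ 0) ∧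
      (∀ u, (∀ p, fderiv ℂ (thz (ψ p) τ) 0 u * th (ψ p₀) τ =
        th (ψ p) τ * fderiv ℂ (thz (ψ p₀) τ) 0 u) → u = 0) ∧
      ∀ p q, ∃ a : ρ → ρ → ρ → ρ → ℂ, (∀ p q r s, Alg (a p q r s)) ∧ ∀ z w,
        thz (ψ p) τ (z + w) * thz (ψ q) τ (z - w) * th (ψ p₀) τ ^ 2 =
          ∑ p, ∑ q, ∑ r, ∑ s, a p q r s *
            (thz (ψ p) τ z * thz (ψ q) τ z * (thz (ψ r) τ w * thz (ψ s) τ w)) := by
  obtain ⟨L₀, hL₀, hb₀⟩ := bpf hA hB hT hτ.1
  obtain ⟨f₀, hf₀, hf0⟩ := hT.nz τ hτ.1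
  obtain ⟨f, hf, hinj⟩ := hT.zco τ f₀ hτ.1 hf₀ hf0
  obtain ⟨L₁, hL₁, -, hl⟩ := hB.common (Option κ) (fun o => o.elim f₀ f) fun o => by
    cases o
    · exact hf₀
    · exact hf _
  obtain ⟨L, hL⟩ : ∃ L, L = L₀ * L₁ := ⟨_, rfl⟩
  have hL0 : 0 < L := hL ▸ Nat.mul_pos hL₀ hL₁
  have hM : 0 < 2 * L := by omega
  have hb : ∀ z, ∃ f, Lev L f ∧ thz f τ z ≠ 0 := fun z => by
    obtain ⟨f, h1, h2⟩ := hb₀ z
    exact ⟨f, hL ▸ hB.levMul _ _ f hL₁ h1, h2⟩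
  have hl' : ∀ o : Option κ, Lev (2 * L) (o.elim f₀ f) := fun o => by
    have := hB.levMul _ (2 * L₀) _ (by omega) (hl o)
    rwa [show L₁ * (2 * L₀) = 2 * L by rw [hL]; ring] at this
  have hps : ∀ p, Lev (2 * L) (ps (κ := κ) L p) := fun p => (ps_pure hL0 p).lev
  have hsch : ∀ p, Sch (ps (κ := κ) L p) := fun p => ⟨_, hM, hps p⟩
  have hexp : ∀ g, Lev (2 * L) g → ∃ a : (κ → Fin ((2 * L) ^ 2)) × Finset κ → ℂ,
      ∀ z, thz g τ z = ∑ p, a p * thz (ps L p) τ z := fun g hg =>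
    ⟨_, thz_exp hA hτ.1 hsch (exp_ps hL0 hg)⟩
  have hne : ∀ z, ∃ p, thz (ps L p) τ z ≠ 0 := fun z => by
    obtain ⟨g, h1, h2⟩ := hb z
    obtain ⟨a, ha⟩ := hexp g (mul_comm L 2 ▸ hB.levMul _ 2 g two_pos h1)
    by_contra h
    push Not at h
    exact h2 (by simp [ha, h])
  obtain ⟨p₀, hp₀⟩ := hne 0
  have hpu : ∀ (x : κ → ℤ) (S : Finset κ), ∃ g, Pure L x S g ∧ th g τ ≠ 0 := fun x S => by
    obtain ⟨g, h1, h2⟩ := hb (0 + cq (Sum.elim (fun i => (x i : ℚ) / (2 * L))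
      fun i => if i ∈ S then 1 / (2 * L) else 0) ᵥ* per τ)
    refine ⟨_, pure_W hL0 h1 x S, ?_⟩
    rw [th, hB.trans _ _ τ _ hτ.1.1]
    exact mul_ne_zero (ee_ne _) h2
  refine ⟨2 * L, _, inferInstance, ps L, p₀, hM, even_two_mul L, hps, hp₀, hne, fun u hu => ?_,
    fun p q => ?_⟩
  · have h1 : ∀ g, Lev (2 * L) g → fderiv ℂ (thz g τ) 0 u * th (ps L p₀) τ =
        th g τ * fderiv ℂ (thz (ps L p₀) τ) 0 u := fun g hg => by
      obtain ⟨a, ha⟩ := hexp g hg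
      have h2 : HasFDerivAt (fun z => ∑ p, a p * thz (ps L p) τ z)
          (∑ p, a p • fderiv ℂ (thz (ps L p) τ) 0) 0 :=
        HasFDerivAt.fun_sum fun p _ =>
          (hA.anaz _ τ 0 (hsch p) hτ.1).differentiableAt.hasFDerivAt.const_mul (a p)
      rw [show th g τ = _ from ha 0, funext ha, h2.fderiv]
      simp only [FunLike.coe_sum, Finset.sum_apply, FunLike.coe_smul, Pi.smul_apply, smul_eq_mul,
        Finset.sum_mul]
      refine Finset.sum_congr rfl fun p _ => ?_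
      rw [mul_assoc, hu p, mul_assoc]
      rfl
    have h2 : ∀ g, Lev (2 * L) g → fderiv ℂ (thz g τ) 0 u = 0 := fun g hg => by
      have h3 := h1 _ (hB.levNeg _ g hg)
      have h4 : HasFDerivAt (fun z => thz g τ (-z))
          ((fderiv ℂ (thz g τ) 0).comp (-ContinuousLinearMap.id ℂ _)) 0 := by
        refine HasFDerivAt.comp (0 : κ → ℂ) (g := thz g τ) ?_ (hasFDerivAt_id _).neg
        simpa using (hA.anaz g τ 0 ⟨_, hM, hg⟩ hτ.1).differentiableAt.hasFDerivAt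
      simp only [th] at h3
      rw [hB.neg, funext (hB.neg g τ), h4.fderiv, neg_zero] at h3
      have h5 := h1 g hg
      simp only [th] at h5
      simp only [ContinuousLinearMap.comp_apply, _root_.neg_apply, ContinuousLinearMap.id_apply,
        map_neg] at h3
      have h6 : fderiv ℂ (thz g τ) 0 u * thz (ps L p₀) τ 0 = 0 := by
        linear_combination (h5 - h3) / 2
      exact (mul_eq_zero.1 h6).resolve_right hp₀
    refine hinj ?_
    rw [map_zero]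
    have hd : ∀ i, HasFDerivAt (fun z => thz (f i) τ z / thz f₀ τ z) _ 0 := fun i =>
      ((hA.anaz _ τ 0 (hf i) hτ.1).differentiableAt.hasFDerivAt.mul
        ((hasFDerivAt_inv' hf0).comp 0
          (hA.anaz _ τ 0 hf₀ hτ.1).differentiableAt.hasFDerivAt)).congr_of_eventuallyEq
        (Eventually.of_forall fun z => div_eq_mul_inv _ _)
    rw [(hasFDerivAt_pi.2 hd).fderiv]
    funext i
    have h3 := h2 _ (hl' none)
    have h4 := h2 _ (hl' (some i))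
    simp only [Option.elim] at h3 h4
    simp [h3, h4]
  · obtain ⟨f₃, h₃, n₃⟩ := hpu (fun i => (p.1 i : ℤ)) p.2
    obtain ⟨f₄, h₄, n₄⟩ := hpu (fun i => (q.1 i : ℤ)) q.2
    obtain ⟨g₁, g₂, g₃, g₄⟩ := gg_lev (ps_pure hL0 p) (ps_pure hL0 q) h₃ h₄
    have hr := riem hA hτ.1 (hsch p) (hsch q) ⟨_, hM, h₃.lev⟩ ⟨_, hM, h₄.lev⟩ hsch
      (fun m => exp4 hL0 g₁ g₂ g₃ g₄ m.1.1 m.1.2 m.2.1 m.2.2)
    refine ⟨fun p' q' r s => th (ps L p₀) τ / th f₃ τ * (th (ps L p₀) τ / th f₄ τ) *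
      (gg (ps L p) (ps L q) f₃ f₄ (rep L p'.1) (rep L q'.1) (rep L r.1) (rep L s.1) /
        (2 ^ Fintype.card κ) ^ 4), fun p' q' r s => ?_, fun z w => ?_⟩
    · refine ((hτ.2 _ _ (hsch _) ⟨_, hM, h₃.lev⟩ n₃).mul
        (hτ.2 _ _ (hsch _) ⟨_, hM, h₄.lev⟩ n₄)).mul ?_
      rw [div_eq_mul_inv]
      refine ((g₁ _ _ _).2.2 _).mul (IsAlgebraic.inv ?_)
      exact_mod_cast isAlgebraic_natCast ((2 ^ Fintype.card κ) ^ 4)
    · simp only [mul_assoc (th (ps L p₀) τ / th f₃ τ * (th (ps L p₀) τ / th f₄ τ)),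
        ← Finset.mul_sum]
      rw [← hr z w]
      field_simp

end

end Pool.Agent.GAM.Rm

end MrgPart0

-- ======== part 1: formerly Pool.Agent.MP_cbf1af_ag.gam.Inst
section MrgPart1

/-! PROJECT GAM: the normalised theta model of a complex torus with complex multiplication. -/

namespace Pool.Agent.GAM

open Matrix Complex Filter Topology

noncomputable section

namespace InstM

open Rm

variable {κ : Type} [Fintype κ] [DecidableEq κ]

omit [Fintype κ] [DecidableEq κ] in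
lemma imC_symm {τ : Matrix κ κ ℂ} (h : τ.IsSymm) : (imC τ)ᵀ = imC τ := by
  ext i j
  simp only [imC, transpose_apply, map_apply]
  rw [h.apply]

lemma imC_unit {τ : Matrix κ κ ℂ} (h : InH τ) : IsUnit (imC τ).det := by
  have h1 : imC τ = (Complex.ofRealHom).mapMatrix (imM τ) := by
    ext i j; simp [imC, imM]
  rw [h1, ← RingHom.map_det]
  exact (isUnit_iff_ne_zero.2 h.2.det_pos.ne').map _

lemma star_per {τ : Matrix κ κ ℂ} (h : τ.IsSymm) (v : κ ⊕ κ → ℚ) :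
    star (cq v ᵥ* per τ) = cq v ᵥ* per τ - (2 * I) • imC τ *ᵥ cq (v ∘ Sum.inl) := by
  funext j
  have h1 : ∀ i, (starRingEnd ℂ) (τ i j) = τ i j - 2 * I * (τ j i).im := fun i => by
    rw [h.apply i j]
    apply Complex.ext <;> simp
    ring
  simp only [per, vecMul, dotProduct, Fintype.sum_sum_type, fromRows_apply_inl, fromRows_apply_inr,
    Pi.star_apply, Pi.sub_apply, Pi.smul_apply, mulVec, imC, map_apply, cq, Function.comp,
    smul_eq_mul, RCLike.star_def, map_add, map_sum, map_mul, map_ratCast, h1, one_apply,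
    apply_ite (starRingEnd ℂ), map_one, map_zero, mul_sub, Finset.sum_sub_distrib, Finset.mul_sum]
  have h2 : ∑ x, (v (Sum.inl x) : ℂ) * (2 * I * ((τ j x).im : ℂ)) =
      ∑ x, 2 * I * (((τ j x).im : ℂ) * (v (Sum.inl x) : ℂ)) :=
    Finset.sum_congr rfl fun x _ => by ring
  rw [h2]
  ring

/-- the factor of automorphy in the canonical normalisation -/
lemma cth_add (hB : ThB κ) {τ : Matrix κ κ ℂ} (hτ : InH τ) (v : κ ⊕ κ → ℚ) :
    ∃ c : ℂ, ∀ f, W v f = f → ∀ z, cth f τ (z + cq v ᵥ* per τ) =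
      Complex.exp (Real.pi * (z ⬝ᵥ (imC τ)⁻¹ *ᵥ star (cq v ᵥ* per τ)) + c) * cth f τ z := by
  obtain ⟨l, hl⟩ : ∃ l, l = cq v ᵥ* per τ := ⟨_, rfl⟩
  obtain ⟨a, ha⟩ : ∃ a, a = cq (v ∘ Sum.inl) := ⟨_, rfl⟩
  refine ⟨Real.pi / 2 * (l ⬝ᵥ (imC τ)⁻¹ *ᵥ l) - Real.pi * I * (a ⬝ᵥ l), fun f hf z => ?_⟩
  have h1 := hB.trans v f τ z hτ.1
  rw [hf, ← hl, ← ha] at h1
  have h2 : (imC τ)⁻¹ *ᵥ star l = (imC τ)⁻¹ *ᵥ l - (2 * I) • a := by
    rw [hl, star_per hτ.1, mulVec_sub, mulVec_smul, mulVec_mulVec,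
      nonsing_inv_mul _ (imC_unit hτ), one_mulVec, ha]
  have h3 : l ⬝ᵥ (imC τ)⁻¹ *ᵥ z = z ⬝ᵥ (imC τ)⁻¹ *ᵥ l := by
    rw [dotProduct_mulVec, ← mulVec_transpose, transpose_nonsing_inv, imC_symm hτ.1,
      dotProduct_comm]
  rw [← hl, cth, cth, h1, h2, ee, ← mul_assoc, ← mul_assoc, ← Complex.exp_add, ← Complex.exp_add]
  congr 2
  simp only [mulVec_add, add_dotProduct, dotProduct_add, dotProduct_sub, dotProduct_smul, h3,
    smul_eq_mul, dotProduct_comm z a]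
  ring

lemma cth_ana (hA : ThA κ) {τ : Matrix κ κ ℂ} (hτ : InH τ) {f : (κ → ℚ) → ℂ} (hf : Sch f)
    (z : κ → ℂ) : AnalyticAt ℂ (cth f τ) z := by
  refine AnalyticAt.mul (AnalyticAt.cexp' (analyticAt_const.mul ?_)) (hA.anaz f τ z hf hτ)
  have h : ∀ i, AnalyticAt ℂ (fun z : κ → ℂ => z i) z := fun i =>
    (ContinuousLinearMap.proj (R := ℂ) (φ := fun _ : κ => ℂ) i).analyticAt z
  simp only [dotProduct, mulVec]
  exact Finset.analyticAt_fun_sum _ fun i _ => (h i).fun_mul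
    (Finset.analyticAt_fun_sum _ fun j _ => analyticAt_const.fun_mul (h j))

omit [DecidableEq κ] in
lemma vm_ana {ι : Type} [Fintype ι] (N : Matrix ι κ ℂ) (w : ι → ℂ) :
    AnalyticAt ℂ (fun w : ι → ℂ => w ᵥ* N) w :=
  (LinearMap.toContinuousLinearMap N.vecMulLinear).analyticAt w

lemma pd_ana {F : (κ → ℂ) → ℂ} (hF : ∀ z, AnalyticAt ℂ F z) (i : κ) (z : κ → ℂ) :
    AnalyticAt ℂ (pd i F) z :=
  ((ContinuousLinearMap.apply ℂ ℂ (Pi.single i (1 : ℂ) : κ → ℂ)).analyticAt _).comp (hF z).fderiv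

lemma pd_add {F G : (κ → ℂ) → ℂ} (hF : ∀ z, AnalyticAt ℂ F z) (hG : ∀ z, AnalyticAt ℂ G z)
    (i : κ) : pd i (fun z => F z + G z) = fun z => pd i F z + pd i G z := by
  funext z
  simp only [pd]
  rw [fderiv_fun_add (hF z).differentiableAt (hG z).differentiableAt]
  rfl

/-- change of coordinates -/
def sc {g : ℕ} (e : Fin g ≃ κ) (p : κ → ℂ) : (Fin g → ℂ) →L[ℂ] (κ → ℂ) :=
  ContinuousLinearMap.pi fun σ => (p σ)⁻¹ • ContinuousLinearMap.proj (e.symm σ)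

omit [Fintype κ] [DecidableEq κ] in
lemma sc_apply {g : ℕ} (e : Fin g ≃ κ) (p : κ → ℂ) (w : Fin g → ℂ) (σ : κ) :
    sc e p w σ = (p σ)⁻¹ * w (e.symm σ) := by
  simp [sc]

omit [Fintype κ] [DecidableEq κ] in
lemma sc_up {g : ℕ} (e : Fin g ≃ κ) {p : κ → ℂ} (hp : ∀ i, p i ≠ 0) (y : κ → ℂ) :
    sc e p (fun j => p (e j) * y (e j)) = y := by
  funext σ
  rw [sc_apply, e.apply_symm_apply, inv_mul_cancel_left₀ (hp σ)]

omit [Fintype κ] in
lemma sc_single {g : ℕ} (e : Fin g ≃ κ) (p : κ → ℂ) (j : Fin g) :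
    sc e p (Pi.single j 1) = (p (e j))⁻¹ • Pi.single (e j) 1 := by
  funext σ
  rw [sc_apply]
  by_cases h : σ = e j
  · subst h; simp
  · have : e.symm σ ≠ j := fun h' => h (by rw [← h', e.apply_symm_apply])
    simp [h, this]

lemma pd_sc {g : ℕ} (e : Fin g ≃ κ) (p : κ → ℂ) {F : (κ → ℂ) → ℂ} (hF : ∀ z, AnalyticAt ℂ F z)
    (c : ℂ) (j : Fin g) (w : Fin g → ℂ) :
    fderiv ℂ (fun w => F (sc e p w) / c) w (Pi.single j 1) =
      pd (e j) F (sc e p w) / (p (e j) * c) := by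
  have h1 : HasFDerivAt (fun w => F (sc e p w) / c)
      (c⁻¹ • (fderiv ℂ F (sc e p w)).comp (sc e p)) w := by
    have := ((hF (sc e p w)).differentiableAt.hasFDerivAt.comp w (sc e p).hasFDerivAt).const_mul c⁻¹
    simpa [div_eq_inv_mul] using this
  rw [h1.fderiv]
  simp only [FunLike.coe_smul, Pi.smul_apply, ContinuousLinearMap.comp_apply, sc_single, map_smul,
    smul_eq_mul, pd]
  rw [div_eq_mul_inv, mul_inv]
  ring

lemma ex_equiv (ρ : Type) [Fintype ρ] (p₀ : ρ) : ∃ (N : ℕ) (ε : Fin (N + 1) ≃ ρ), ε 0 = p₀ := by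
  classical
  obtain ⟨N, hN⟩ : ∃ N, Fintype.card ρ = N + 1 :=
    Nat.exists_eq_succ_of_ne_zero (Fintype.card_pos_iff.2 ⟨p₀⟩).ne'
  let ε := (Fintype.equivFinOfCardEq hN).symm
  exact ⟨N, ε.trans (Equiv.swap (ε 0) p₀), by simp⟩

lemma sum4 {α ρ : Type} [Fintype α] [Fintype ρ] (ε : α ≃ ρ) (F : ρ → ρ → ρ → ρ → ℂ) :
    ∑ p, ∑ q, ∑ r, ∑ s, F p q r s = ∑ p, ∑ q, ∑ r, ∑ s, F (ε p) (ε q) (ε r) (ε s) := by
  rw [← ε.sum_comp]
  refine Finset.sum_congr rfl fun _ _ => ?_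
  rw [← ε.sum_comp]
  refine Finset.sum_congr rfl fun _ _ => ?_
  rw [← ε.sum_comp]
  refine Finset.sum_congr rfl fun _ _ => ?_
  rw [← ε.sum_comp]

/-- the jets at the origin are algebraic -/
lemma jets (hA : ThA κ) (hB : ThB κ) {τ : Matrix κ κ ℂ} (hτ : AlgPt τ) (N : Matrix κ κ ℂ)
    {p : κ → ℂ} (hp : ∀ i, p i ≠ 0) {V : Set (κ → ℂ)} (hV : (0 : κ → ℂ) ∈ V)
    (hJ : ∀ f, Sch f → ∀ ϑ : (κ → ℂ) → ℂ, (ϑ = fun w => cth f τ (w ᵥ* N)) →
      (∀ i, ϑ 0 ≠ 0 → Alg (pd i ϑ 0 / (p i * ϑ 0))) ∧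
      ∀ i j, AF V (fun w => (pd i (pd j ϑ) w * ϑ w - pd i ϑ w * pd j ϑ w) / (p i * p j))
        fun w => ϑ w ^ 2)
    {f₀ : (κ → ℚ) → ℂ} (hf₀ : Sch f₀) (h0 : th f₀ τ ≠ 0) {f : (κ → ℚ) → ℂ} (hf : Sch f) :
    (∀ i, Alg (pd i (fun w => cth f τ (w ᵥ* N)) 0 / (p i * th f₀ τ))) ∧
    ∀ i j, Alg (pd i (pd j fun w => cth f τ (w ᵥ* N)) 0 / (p i * (p j * th f₀ τ))) := by
  have key : ∀ f, Sch f → th f τ ≠ 0 →
      (∀ i, Alg (pd i (fun w => cth f τ (w ᵥ* N)) 0 / (p i * th f₀ τ))) ∧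
      ∀ i j, Alg (pd i (pd j fun w => cth f τ (w ᵥ* N)) 0 / (p i * (p j * th f₀ τ))) := by
    intro f hf hne
    obtain ⟨ϑ, hϑ⟩ : ∃ ϑ : (κ → ℂ) → ℂ, ϑ = fun w => cth f τ (w ᵥ* N) := ⟨_, rfl⟩
    obtain ⟨h1, h2⟩ := hJ f hf ϑ hϑ
    have h3 : ϑ 0 = th f τ := by simp [hϑ, cth, th]
    have h4 := hτ.2 f f₀ hf hf₀ h0
    rw [← hϑ]
    rw [← h3] at hne h4
    refine ⟨fun i => ?_, fun i j => ?_⟩
    · convert (h1 i hne).mul h4 using 1
      field_simp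
    · have h5 := (h2 i j).alg 0 hV (pow_ne_zero 2 hne)
      convert (h5.add ((h1 i hne).mul (h1 j hne))).mul h4 using 1
      have := hp i
      have := hp j
      field_simp
      ring
  by_cases h : th f τ = 0
  · obtain ⟨M, hM, -, hl⟩ := hB.common (Fin 2) ![f, f₀] fun i => by fin_cases i <;> simpa
    have hs : Sch (f + f₀) := ⟨M, hM, hB.levAdd M f f₀ (hl 0) (hl 1)⟩
    have h1 : (fun w => cth (f + f₀) τ (w ᵥ* N)) =
        fun w => cth f τ (w ᵥ* N) + cth f₀ τ (w ᵥ* N) := by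
      funext w
      simp only [cth, hB.add f f₀ τ _ hf hf₀ hτ.1, mul_add]
    have a1 : ∀ w, AnalyticAt ℂ (fun w => cth f τ (w ᵥ* N)) w := fun w =>
      (cth_ana hA hτ.1 hf _).fun_comp (vm_ana N w)
    have a2 : ∀ w, AnalyticAt ℂ (fun w => cth f₀ τ (w ᵥ* N)) w := fun w =>
      (cth_ana hA hτ.1 hf₀ _).fun_comp (vm_ana N w)
    obtain ⟨k1, k2⟩ := key (f + f₀) hs (by
      rw [th, hB.add f f₀ τ _ hf hf₀ hτ.1]
      simpa [th] using fun h' => h0 (by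
        have : thz f τ 0 = 0 := h
        rw [this, zero_add] at h'
        exact h'))
    obtain ⟨l1, l2⟩ := key f₀ hf₀ h0
    rw [h1] at k1 k2
    refine ⟨fun i => ?_, fun i j => ?_⟩
    · have := (k1 i).sub (l1 i)
      rw [pd_add a1 a2] at this
      convert this using 1
      ring
    · have := (k2 i j).sub (l2 i j)
      rw [pd_add a1 a2, pd_add (pd_ana a1 j) (pd_ana a2 j)] at this
      convert this using 1
      ring
  · exact key f hf h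

/-- the quasi-period form -/
def et {g : ℕ} (e : Fin g ≃ κ) (p : κ → ℂ) (H : Matrix κ κ ℂ) (l : Fin g → ℂ) :
    (Fin g → ℂ) →ₗ[ℂ] ℂ where
  toFun w := 2 * Real.pi * (sc e p w ⬝ᵥ H *ᵥ star (sc e p l))
  map_add' w w' := by rw [map_add, add_dotProduct, mul_add]
  map_smul' c w := by
    rw [map_smul, smul_dotProduct]
    simp only [smul_eq_mul, RingHom.id_apply]
    ring

/-- the theta model of a period matrix -/
theorem model (hA : ThA κ) (hB : ThB κ) (hT : ThC κ) (hC : Act κ) {S : Matrix (κ ⊕ κ) κ ℂ}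
    (hS : Riem S) (hτ : AlgPt (tauOf S)) {p : κ → ℂ} (hp : ∀ i, p i ≠ 0)
    {V : Set (κ → ℂ)} (hV : (0 : κ → ℂ) ∈ V)
    (hJ : ∀ f, Sch f → ∀ ϑ : (κ → ℂ) → ℂ, (ϑ = fun w => cth f (tauOf S) (w ᵥ* S.toRows₂⁻¹)) →
      (∀ i, ϑ 0 ≠ 0 → Alg (pd i ϑ 0 / (p i * ϑ 0))) ∧
      ∀ i j, AF V (fun w => (pd i (pd j ϑ) w * ϑ w - pd i ϑ w * pd j ϑ w) / (p i * p j))
        fun w => ϑ w ^ 2) {g : ℕ} (e : Fin g ≃ κ) :
    ∃ (N M : ℕ) (Θ : Fin (N + 1) → (Fin g → ℂ) → ℂ) (Λ : AddSubgroup (Fin g → ℂ)), 0 < M ∧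
      CMQ.IsTheta Θ Λ (et e p (herm S)⁻¹) ∧ ∀ l, l ∈ Λ ↔ ∃ k : κ ⊕ κ → ℤ,
        l = fun j => p (e j) * (cq (fun a => (M : ℚ) * k a) ᵥ* S) (e j) := by
  obtain ⟨hu, hH, hper, hherm⟩ := hC.riem S hS
  obtain ⟨τ, hτe⟩ : ∃ τ, τ = tauOf S := ⟨_, rfl⟩
  rw [← hτe] at hτ hJ hH hper hherm
  obtain ⟨R, hR⟩ : ∃ R, R = S.toRows₂ := ⟨_, rfl⟩
  rw [← hR] at hJ hu hper hherm
  obtain ⟨M, ρ, _, ψ, p₀, hM, hE, hl, h0, hne, himm, hlaw⟩ := family hA hB hT hτ
  obtain ⟨N, ε, hε⟩ := ex_equiv ρ p₀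
  have hs : ∀ q, Sch (ψ q) := fun q => ⟨M, hM, hl q⟩
  have hSR : S * R⁻¹ = per τ := by
    rw [← hper, Matrix.mul_assoc, mul_nonsing_inv _ hu, Matrix.mul_one]
  have han : ∀ q w, AnalyticAt ℂ (fun w => cth (ψ q) τ (w ᵥ* R⁻¹)) w := fun q w =>
    (cth_ana hA hH (hs q) _).fun_comp (vm_ana _ w)
  -- the lattice
  let bv : κ ⊕ κ → Fin g → ℂ := fun a j => p (e j) * (M * S a (e j))
  have hcomb : ∀ t : κ ⊕ κ → ℂ, ∑ a, t a • bv a =
      fun j => p (e j) * ((fun a => M * t a) ᵥ* S) (e j) := fun t => by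
    funext j
    simp only [bv, Finset.sum_apply, Pi.smul_apply, smul_eq_mul, vecMul, dotProduct, Finset.mul_sum]
    exact Finset.sum_congr rfl fun a _ => by ring
  have hg : Fintype.card κ = g := by simpa using (Fintype.card_congr e).symm
  have hcard : Fintype.card (κ ⊕ κ) = 2 * g := by rw [Fintype.card_sum, hg]; ring
  have hspan : ⊤ ≤ Submodule.span ℝ (Set.range bv) := by
    intro w _
    obtain ⟨t, ht⟩ := pl_surj hB hH (sc e p w ᵥ* R⁻¹)
    have h1 : w = ∑ a, (t a / M) • bv a := by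
      have h2 := hcomb fun a => ((t a / M : ℝ) : ℂ)
      simp only [Complex.coe_smul] at h2
      rw [h2]
      have h3 : (fun a => (M : ℂ) * ((t a / M : ℝ) : ℂ)) = fun a => (t a : ℂ) := by
        funext a
        have : (M : ℂ) ≠ 0 := by exact_mod_cast hM.ne'
        push_cast
        field_simp
      have h4 : (fun a => (t a : ℂ)) ᵥ* S = sc e p w := by
        rw [← hper, ← vecMul_vecMul]
        change pl τ t ᵥ* R = _
        rw [ht, vecMul_vecMul, nonsing_inv_mul _ hu, vecMul_one]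
      rw [h3, h4]
      funext j
      rw [sc_apply, e.symm_apply_apply, mul_inv_cancel_left₀ (hp _)]
    rw [h1]
    exact Submodule.sum_mem _ fun a _ => Submodule.smul_mem _ _ (Submodule.subset_span ⟨a, rfl⟩)
  have hfr : Fintype.card (κ ⊕ κ) = Module.finrank ℝ (Fin g → ℂ) := by
    rw [hcard, Module.finrank_pi_fintype]
    simp [mul_comm]
  let b₀ := basisOfTopLeSpanOfCardEqFinrank bv hspan hfr
  have hb₀ : ⇑b₀ = bv := coe_basisOfTopLeSpanOfCardEqFinrank bv hspan hfr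
  have hmem : ∀ l, l ∈ AddSubgroup.closure (Set.range bv) ↔ ∃ k : κ ⊕ κ → ℤ,
      l = fun j => p (e j) * (cq (fun a => (M : ℚ) * k a) ᵥ* S) (e j) := fun l => by
    rw [← Submodule.span_int_eq_addSubgroupClosure, Submodule.mem_toAddSubgroup,
      Submodule.mem_span_range_iff_exists_fun]
    refine exists_congr fun k => ?_
    have h2 := hcomb fun a => (k a : ℂ)
    simp only [Int.cast_smul_eq_zsmul] at h2
    have h3 : cq (fun a => (M : ℚ) * k a) = fun a => (M : ℂ) * (k a : ℂ) := by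
      funext a; simp [cq]
    rw [h2, h3, eq_comm]
  have hz : ∀ q, cth (ψ q) τ (sc e p 0 ᵥ* R⁻¹) = th (ψ q) τ := fun q => by
    simp [cth, th]
  refine ⟨N, M, fun i w => cth (ψ (ε i)) τ (sc e p w ᵥ* R⁻¹) / th (ψ p₀) τ,
    AddSubgroup.closure (Set.range bv), hM, ⟨fun i w => ?_, fun w => ?_, ?_, fun l hl' => ?_,
      fun i j => ?_, ?_, fun i => ?_, fun i j => ?_, fun i j k => ?_, ?_⟩, hmem⟩
  · exact ((han _ _).fun_comp ((sc e p).analyticAt w)).fun_div analyticAt_const h0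
  · obtain ⟨q, hq⟩ := hne (sc e p w ᵥ* R⁻¹)
    refine ⟨ε.symm q, ?_⟩
    rw [ε.apply_symm_apply]
    exact div_ne_zero (mul_ne_zero (Complex.exp_ne_zero _) hq) h0
  · refine ⟨b₀.reindex (Fintype.equivFinOfCardEq hcard), ?_⟩
    rw [Module.Basis.range_reindex, hb₀]
  · obtain ⟨k, rfl⟩ := (hmem l).1 hl'
    obtain ⟨c, hc⟩ := cth_add hB hH fun a => (M : ℚ) * k a
    refine ⟨c, fun i w => ?_⟩
    rw [map_add, sc_up e hp, add_vecMul, vecMul_vecMul, hSR,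
      hc _ (((hB.levW M _ hM hE).1 (hl _)).2 k), mul_div_assoc]
    congr 3
    have h1 : (herm S)⁻¹ = (1 / 2 : ℂ) • (R⁻¹ * (imC τ)⁻¹ * R⁻¹ᴴ) := by
      refine inv_eq_right_inv ?_
      have hu' : IsUnit Rᴴ.det := by
        rw [det_conjTranspose]; exact hu.star
      rw [hherm, smul_mul_smul_comm, conjTranspose_nonsing_inv]
      simp only [Matrix.mul_assoc]
      rw [mul_nonsing_inv_cancel_left _ _ hu, mul_nonsing_inv_cancel_left _ _ (imC_unit hH),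
        mul_nonsing_inv _ hu']
      norm_num
    simp only [et, LinearMap.coe_mk, AddHom.coe_mk]
    rw [sc_up e hp, h1, smul_mulVec, dotProduct_smul, ← hSR, ← vecMul_vecMul, star_vecMul (M := R⁻¹),
      ← mulVec_mulVec, ← mulVec_mulVec, dotProduct_mulVec (sc e p w), smul_eq_mul]
    ring
  · obtain ⟨a, ha, h⟩ := hlaw (ε i) (ε j)
    refine ⟨fun p q r s => a (ε p) (ε q) (ε r) (ε s), fun _ _ _ _ => ha _ _ _ _, fun z w => ?_⟩
    obtain ⟨x, hx⟩ : ∃ x, x = sc e p z ᵥ* R⁻¹ := ⟨_, rfl⟩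
    obtain ⟨y, hy⟩ : ∃ y, y = sc e p w ᵥ* R⁻¹ := ⟨_, rfl⟩
    simp only [map_add, map_sub, add_vecMul, sub_vecMul, ← hx, ← hy, cth]
    have h1 : Complex.exp (Real.pi / 2 * ((x + y) ⬝ᵥ (imC τ)⁻¹ *ᵥ (x + y))) *
        Complex.exp (Real.pi / 2 * ((x - y) ⬝ᵥ (imC τ)⁻¹ *ᵥ (x - y))) =
        Complex.exp (Real.pi / 2 * (x ⬝ᵥ (imC τ)⁻¹ *ᵥ x)) ^ 2 *
          Complex.exp (Real.pi / 2 * (y ⬝ᵥ (imC τ)⁻¹ *ᵥ y)) ^ 2 := by
      rw [← mul_pow, ← Complex.exp_add, ← Complex.exp_add, ← Complex.exp_nat_mul]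
      congr 1
      simp only [mulVec_add, mulVec_sub, add_dotProduct, sub_dotProduct, dotProduct_add,
        dotProduct_sub]
      push_cast
      ring
    have h2 := h x y
    rw [sum4 ε] at h2
    calc _ = Complex.exp (Real.pi / 2 * ((x + y) ⬝ᵥ (imC τ)⁻¹ *ᵥ (x + y))) *
          Complex.exp (Real.pi / 2 * ((x - y) ⬝ᵥ (imC τ)⁻¹ *ᵥ (x - y))) / th (ψ p₀) τ ^ 4 *
          (thz (ψ (ε i)) τ (x + y) * thz (ψ (ε j)) τ (x - y) * th (ψ p₀) τ ^ 2) := by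
          field_simp
      _ = _ := by
          rw [h1, h2]
          simp only [Finset.mul_sum]
          refine Finset.sum_congr rfl fun _ _ => Finset.sum_congr rfl fun _ _ =>
            Finset.sum_congr rfl fun _ _ => Finset.sum_congr rfl fun _ _ => ?_
          field_simp
  · rw [hz, hε]
    exact div_ne_zero h0 h0
  · rw [hz]
    exact hτ.2 _ _ (hs _) (hs _) h0
  · rw [pd_sc e p (han _), map_zero]
    exact (jets hA hB hτ R⁻¹ hp hV hJ (hs p₀) h0 (hs _)).1 _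
  · simp only [pd_sc e p (han _)]
    rw [pd_sc e p (pd_ana (han _) _), map_zero]
    exact (jets hA hB hτ R⁻¹ hp hV hJ (hs p₀) h0 (hs _)).2 _ _
  · let T : (Fin g → ℂ) →L[ℂ] (κ → ℂ) :=
      (LinearMap.toContinuousLinearMap R⁻¹.vecMulLinear).comp (sc e p)
    have hT' : ∀ w, T w = sc e p w ᵥ* R⁻¹ := fun w => rfl
    have hd : ∀ q, HasFDerivAt (fun w => thz (ψ q) τ (T w))
        ((fderiv ℂ (thz (ψ q) τ) 0).comp T) 0 := fun q => by
      refine HasFDerivAt.comp (0 : Fin g → ℂ) (g := thz (ψ q) τ) ?_ T.hasFDerivAt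
      simpa using (hA.anaz _ τ 0 (hs q) hH).differentiableAt.hasFDerivAt
    have h0' : thz (ψ p₀) τ (T 0) ≠ 0 := by rwa [map_zero]
    have hq : ∀ i, HasFDerivAt (fun w => cth (ψ (ε i)) τ (sc e p w ᵥ* R⁻¹) / th (ψ p₀) τ /
        (cth (ψ (ε 0)) τ (sc e p w ᵥ* R⁻¹) / th (ψ p₀) τ)) _ 0 := fun i =>
      ((hd (ε i)).mul ((hasFDerivAt_inv' h0').comp 0 (hd p₀))).congr_of_eventuallyEq
        (Eventually.of_forall fun w => by
          simp only [cth, hε]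
          rw [div_div_div_cancel_right₀ h0, mul_div_mul_left _ _ (Complex.exp_ne_zero _)]
          exact div_eq_mul_inv _ _)
    rw [(hasFDerivAt_pi.2 hq).fderiv, injective_iff_map_eq_zero]
    intro u hu0
    have h1 : T u = 0 := himm _ fun q => by
      have h2 := congrFun hu0 (ε.symm q)
      simp only [ContinuousLinearMap.pi_apply, ε.apply_symm_apply, map_zero, Function.comp,
        _root_.add_apply, FunLike.coe_smul, Pi.smul_apply, ContinuousLinearMap.comp_apply,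
        _root_.neg_apply, ContinuousLinearMap.mulLeftRight_apply, smul_eq_mul, Pi.zero_apply] at h2
      have h3 : thz (ψ p₀) τ 0 ≠ 0 := h0
      simp only [th]
      field_simp at h2
      linear_combination h2
    have h2 : sc e p u = 0 := by
      rw [← vecMul_one (sc e p u), ← nonsing_inv_mul _ hu, ← vecMul_vecMul, ← hT', h1, zero_vecMul]
    funext j
    have h3 := congrFun h2 (e j)
    rw [sc_apply, e.symm_apply_apply] at h3
    exact (mul_eq_zero.1 h3).resolve_left (inv_ne_zero (hp _))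

end InstM

open InstM in
/-- INST -/
theorem inst (hA : All ThA) (hB : All ThB) (hT : All ThC) (hC : All Act) (hM : All CmAlg)
    (hK : AllC) (hO : Model) (hJ : All Jet) : Inst := by
  intro E _ _ c Φ P g e hc hΦ hP
  obtain ⟨ξ, β, γ, u, hpol, hR, hCM, hherm, hpt, hSp, hγ, -, hne⟩ := hO E c Φ hc hΦ
  have hk := hK E c hc
  have hV : Set.range (pt Φ) = Set.range fun v : Φ ⊕ Φ → ℚ => cq v ᵥ* sig1 Φ β := by
    ext z
    refine ⟨fun ⟨x, hx⟩ => ⟨_, (hpt x).symm.trans hx⟩, fun ⟨v, hv⟩ => ⟨β.equivFun.symm v (), ?_⟩⟩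
    rw [hpt, ← hv]
    congr 2
    exact β.equivFun.apply_symm_apply v
  have hp : ∀ σ : Φ, P σ.1 ≠ 0 := hP.2.1
  obtain ⟨N, M, Θ, Λ, hM0, hΘ, hΛ⟩ := model (hA Φ) (hB Φ) (hT Φ) (hC Φ) hR (hM Φ _ hCM) hp
    (V := Set.range (pt Φ)) ⟨0, by funext σ; simp [pt]⟩
    (hJ Φ _ γ (pt Φ u) _ _ hR (hM Φ _ hCM) hSp hγ (fun i => hk.alg _ _) hne hV (hk.isTor Φ hΦ)
      hP.2) e
  have hξ : ∀ σ : Φ, σ.1 ξ ≠ 0 := fun σ h => by
    have := hpol.2 σ.1 σ.2
    rw [h] at this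
    simp at this
  refine ⟨N, Θ, Λ, _, fun j => -(e j).1 ξ, hΘ, fun j => ⟨neg_ne_zero.2 (hξ _), (hk.alg _ _).neg⟩,
    fun l hl => ?_, fun y => ?_, fun y => ?_⟩
  · obtain ⟨k, rfl⟩ := (hΛ l).1 hl
    obtain ⟨y, hy⟩ : cq (fun a => (M : ℚ) * k a) ᵥ* sig1 Φ β ∈ Set.range (pt Φ) :=
      hV ▸ ⟨_, rfl⟩
    exact ⟨y, by rw [← hy]; rfl⟩
  · obtain ⟨v, hv⟩ : ∃ v : Φ ⊕ Φ → ℚ, v = β.repr fun _ => y := ⟨_, rfl⟩
    have hd : ∀ a, ∃ k : ℤ, (k : ℚ) = (∏ a', (v a').den : ℕ) * v a := fun a => by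
      obtain ⟨d, hd⟩ := Finset.dvd_prod_of_mem (fun a' => (v a').den) (Finset.mem_univ a)
      refine ⟨d * (v a).num, ?_⟩
      rw [hd]
      push_cast
      rw [← Rat.den_mul_eq_num]
      ring
    choose k hk' using hd
    refine ⟨M * ∏ a', (v a').den, Nat.mul_pos hM0 (Finset.prod_pos fun a _ => (v a).den_pos),
      (hΛ _).2 ⟨k, ?_⟩⟩
    funext j
    have h1 : cq (fun a => (M : ℚ) * k a) = ((M * ∏ a', (v a').den : ℕ) : ℂ) • cq v := by
      funext a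
      simp only [cq, hk', Pi.smul_apply, smul_eq_mul]
      push_cast
      ring
    rw [h1, smul_vecMul, hv, ← hpt, map_mul, map_natCast]
    rfl
  · funext j
    have h1 : (herm (sig1 Φ β))⁻¹ = diagonal fun σ : Φ => σ.1 ξ / I := by
      refine inv_eq_right_inv ?_
      rw [hherm, diagonal_mul_diagonal, ← diagonal_one]
      congr 1
      funext σ
      have := hξ σ
      field_simp
    have h2 := hP.1 (e j).1
    have h3 := hp (e j)
    simp only [SHP.qp, et, LinearMap.coe_mk, AddHom.coe_mk]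
    have h4 : (sc e fun i => P i.1) (fun j => P (e j) * (e j).1 y) = pt Φ y := sc_up e hp (pt Φ y)
    rw [h4, sc_single, smul_dotProduct, single_one_dotProduct, h1,
      mulVec_diagonal, NumberField.ComplexEmbedding.conjugate_coe_eq,
      (eq_div_iff h3).2 ((mul_comm _ _).trans h2)]
    simp only [pt, Pi.star_apply, RCLike.star_def, smul_eq_mul]
    field_simp
    rw [I_sq]
    ring

end

end Pool.Agent.GAM

end MrgPart1

-- marker of a merged file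
example : 731051 + 676106 = 731051 + 676106 := rfl
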