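import Pool.Agent.MP_cbf1af_ag.gam.Spec

/-! PROJECT GAM, row JET: first and second logarithmic derivatives of the canonical theta
function at a point with complex multiplication. -/

namespace Pool.Agent.GAM

open Matrix Complex Filter Topology

noncomputable section

namespace Jet

variable {κ : Type} [Fintype κ] [DecidableEq κ]

/-! ### coordinate derivatives -/

theorem ana_pd {F : (κ → ℂ) → ℂ} {w : κ → ℂ} (h : AnalyticAt ℂ F w) (i : κ) :
    AnalyticAt ℂ (pd i F) w :=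
  ((ContinuousLinearMap.apply ℂ ℂ (Pi.single i (1 : ℂ) : κ → ℂ)).analyticAt _).comp h.fderiv

theorem pd_congr {F G : (κ → ℂ) → ℂ} {w : κ → ℂ} (h : F =ᶠ[𝓝 w] G) (i : κ) :
    pd i F =ᶠ[𝓝 w] pd i G := by
  filter_upwards [h.fderiv (𝕜 := ℂ)] with z hz
  simp only [pd, hz]

theorem pd_mul {F G : (κ → ℂ) → ℂ} {w : κ → ℂ} (hF : AnalyticAt ℂ F w) (hG : AnalyticAt ℂ G w)
    (i : κ) : pd i (fun z => F z * G z) w = pd i F w * G w + F w * pd i G w := by
  simp only [pd]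
  rw [fderiv_fun_mul hF.differentiableAt hG.differentiableAt]
  simp only [_root_.add_apply, _root_.smul_apply, smul_eq_mul]
  ring

theorem pd_add {F G : (κ → ℂ) → ℂ} {w : κ → ℂ} (hF : AnalyticAt ℂ F w) (hG : AnalyticAt ℂ G w)
    (i : κ) : pd i (fun z => F z + G z) w = pd i F w + pd i G w := by
  simp only [pd]
  rw [fderiv_fun_add hF.differentiableAt hG.differentiableAt]
  rfl

theorem pd_const_mul (c : ℂ) (F : (κ → ℂ) → ℂ) (w : κ → ℂ) (hF : AnalyticAt ℂ F w) (i : κ) :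
    pd i (fun z => c * F z) w = c * pd i F w := by
  rw [pd_mul analyticAt_const hF]
  simp [pd]

theorem pd_transl (F : (κ → ℂ) → ℂ) (v : κ → ℂ) (i : κ) :
    pd i (fun z => F (z + v)) = fun w => pd i F (w + v) := by
  funext w
  simp only [pd]
  rw [fderiv_comp_add_right]

/-- multiplication of the coordinates -/
def sc (lam : κ → ℂ) : (κ → ℂ) →L[ℂ] κ → ℂ :=
  ContinuousLinearMap.pi fun i => lam i • ContinuousLinearMap.proj i

omit [Fintype κ] [DecidableEq κ] in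
theorem sc_apply (lam w : κ → ℂ) : sc lam w = lam * w := rfl

omit [DecidableEq κ] in
theorem ana_sc {F : (κ → ℂ) → ℂ} (hF : ∀ w, AnalyticAt ℂ F w) (lam w : κ → ℂ) :
    AnalyticAt ℂ (fun z => F (lam * z)) w := (hF _).comp ((sc lam).analyticAt w)

theorem pd_sc {F : (κ → ℂ) → ℂ} (hF : ∀ w, AnalyticAt ℂ F w) (lam : κ → ℂ) (i : κ) :
    pd i (fun z => F (lam * z)) = fun w => lam i * pd i F (lam * w) := by
  funext w
  have h : HasFDerivAt (fun z => F (lam * z)) ((fderiv ℂ F (lam * w)).comp (sc lam)) w :=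
    ((hF (lam * w)).differentiableAt.hasFDerivAt).comp w (sc lam).hasFDerivAt
  have e : sc lam (Pi.single i 1) = lam i • (Pi.single i 1 : κ → ℂ) := by
    funext k
    rw [sc_apply]
    by_cases hk : k = i
    · subst hk; simp
    · simp [hk]
  simp only [pd]
  rw [h.fderiv, ContinuousLinearMap.comp_apply, e, map_smul, smul_eq_mul]

/-- the exponential of an affine function -/
def ex (a : κ → ℂ) (c : ℂ) (w : κ → ℂ) : ℂ := Complex.exp (w ⬝ᵥ a + c)

omit [DecidableEq κ] in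
theorem ana_dot (a w : κ → ℂ) : AnalyticAt ℂ (fun z : κ → ℂ => z ⬝ᵥ a) w := by
  simp only [dotProduct]
  exact Finset.analyticAt_fun_sum _ fun i _ =>
    ((ContinuousLinearMap.proj (R := ℂ) (φ := fun _ : κ => ℂ) i).analyticAt w).mul analyticAt_const

omit [DecidableEq κ] in
theorem ana_ex (a : κ → ℂ) (c : ℂ) (w : κ → ℂ) : AnalyticAt ℂ (ex a c) w :=
  ((ana_dot a w).add analyticAt_const).cexp

theorem pd_ex (a : κ → ℂ) (c : ℂ) (i : κ) : pd i (ex a c) = fun w => a i * ex a c w := by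
  funext w
  have h1 : HasFDerivAt (fun z : κ → ℂ => z ⬝ᵥ a + c)
      (∑ k, a k • ContinuousLinearMap.proj (R := ℂ) (φ := fun _ : κ => ℂ) k) w := by
    have := (∑ k, a k • ContinuousLinearMap.proj (R := ℂ) (φ := fun _ : κ => ℂ) k).hasFDerivAt
      (x := w)
    refine HasFDerivAt.add_const c (this.congr_of_eventuallyEq (Eventually.of_forall fun z => ?_))
    simp [dotProduct, mul_comm]
  have h2 := h1.cexp
  simp only [pd]
  rw [show ex a c = fun z => Complex.exp (z ⬝ᵥ a + c) from rfl, h2.fderiv]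
  simp [Pi.single_apply, mul_comm]

/-- numerator of the second logarithmic derivative -/
def Hn (i j : κ) (F : (κ → ℂ) → ℂ) (w : κ → ℂ) : ℂ :=
  pd i (pd j F) w * F w - pd i F w * pd j F w

theorem ana_Hn {F : (κ → ℂ) → ℂ} {w : κ → ℂ} (h : AnalyticAt ℂ F w) (i j : κ) :
    AnalyticAt ℂ (Hn i j F) w :=
  ((ana_pd (ana_pd h j) i).mul h).sub ((ana_pd h i).mul (ana_pd h j))

theorem Hn_congr {F G : (κ → ℂ) → ℂ} {w : κ → ℂ} (h : F =ᶠ[𝓝 w] G) (i j : κ) :
    Hn i j F w = Hn i j G w := by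
  simp only [Hn, h.eq_of_nhds, (pd_congr h i).eq_of_nhds, (pd_congr h j).eq_of_nhds,
    (pd_congr (pd_congr h j) i).eq_of_nhds]

theorem Hn_mul {F G : (κ → ℂ) → ℂ} {w : κ → ℂ} (hF : AnalyticAt ℂ F w) (hG : AnalyticAt ℂ G w)
    (i j : κ) : Hn i j (fun z => F z * G z) w = G w ^ 2 * Hn i j F w + F w ^ 2 * Hn i j G w := by
  have e : pd j (fun z => F z * G z) =ᶠ[𝓝 w] fun z => pd j F z * G z + F z * pd j G z := by
    filter_upwards [hF.eventually_analyticAt, hG.eventually_analyticAt] with z h1 h2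
    exact pd_mul h1 h2 j
  simp only [Hn]
  rw [(pd_congr e i).eq_of_nhds, pd_add ((ana_pd hF j).fun_mul hG) (hF.fun_mul (ana_pd hG j)),
    pd_mul (ana_pd hF j) hG, pd_mul hF (ana_pd hG j), pd_mul hF hG, pd_mul hF hG]
  ring

theorem Hn_ex (a : κ → ℂ) (c : ℂ) (i j : κ) (w : κ → ℂ) : Hn i j (ex a c) w = 0 := by
  simp only [Hn]
  rw [pd_ex a c j, pd_const_mul _ _ _ (ana_ex a c w), pd_ex a c i]
  ring

theorem Hn_transl (F : (κ → ℂ) → ℂ) (v : κ → ℂ) (i j : κ) (w : κ → ℂ) :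
    Hn i j (fun z => F (z + v)) w = Hn i j F (w + v) := by
  simp only [Hn]
  rw [pd_transl F v j, pd_transl (pd j F) v i, pd_transl F v i]

theorem Hn_sc {F : (κ → ℂ) → ℂ} (hF : ∀ w, AnalyticAt ℂ F w) (c : ℂ) (lam : κ → ℂ) (i j : κ) :
    Hn i j (fun z => c * F (lam * z)) 0 = c ^ 2 * (lam i * lam j) * Hn i j F 0 := by
  rw [Hn_mul analyticAt_const (ana_sc hF lam 0)]
  have e0 : Hn i j (fun _ : κ → ℂ => c) 0 = 0 := by
    have : ∀ k, pd k (fun _ : κ → ℂ => c) = fun _ => 0 := fun k => by funext w; simp [pd]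
    simp [Hn, this, pd]
  rw [e0]
  simp only [Hn]
  rw [pd_sc hF lam j, pd_const_mul _ _ _ (ana_sc (fun w => ana_pd (hF w) j) lam 0),
    pd_sc (fun w => ana_pd (hF w) j) lam i, pd_sc hF lam i]
  simp only [mul_zero]
  ring

/-- translation by a factor `exp (affine)` -/
theorem Hn_shift {F G : (κ → ℂ) → ℂ} (hG : ∀ w, AnalyticAt ℂ G w) {v a : κ → ℂ} {c : ℂ}
    (h : ∀ w, F (w + v) = ex a c w * G w) (i j : κ) (w : κ → ℂ) :
    Hn i j F (w + v) = ex a c w ^ 2 * Hn i j G w := by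
  rw [← Hn_transl, funext h, Hn_mul (ana_ex a c w) (hG w), Hn_ex]
  ring

/-! ### algebraic numbers -/

theorem alg_div {x y : ℂ} (hx : Alg x) (hy : Alg y) : Alg (x / y) := by
  rw [div_eq_mul_inv]; exact hx.mul hy.inv

theorem alg_one : Alg 1 := isAlgebraic_one

/-! ### quotients -/

omit [DecidableEq κ] in
theorem af_mul {V : Set (κ → ℂ)} {A B e : (κ → ℂ) → ℂ} (h : AF V A B)
    (he : ∀ z, AnalyticAt ℂ e z) (h0 : ∀ z, e z ≠ 0) :
    AF V (fun z => e z * A z) fun z => e z * B z where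
  holA z := (he z).mul (h.holA z)
  holB z := (he z).mul (h.holB z)
  aut v hv := by
    obtain ⟨M, hM, j, hj, hj0, hh⟩ := h.aut v hv
    have hc : Continuous e := continuous_iff_continuousAt.2 fun z => (he z).continuousAt
    refine ⟨M, hM, fun z => j z * e (z + (M : ℂ) • v) / e z, ?_, fun z => ?_, fun z => ?_⟩
    · exact (hj.mul (hc.comp (continuous_id.add continuous_const))).div hc h0
    · exact div_ne_zero (mul_ne_zero (hj0 z) (h0 _)) (h0 z)
    · have := h0 z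
      beta_reduce
      rw [(hh z).1, (hh z).2]
      constructor <;> field_simp
  alg v hv hB := by
    rw [mul_div_mul_left _ _ (h0 v)]
    exact h.alg v hv (right_ne_zero_of_mul hB)

/-- the jets at the origin of a function that is an eigenfunction up to an algebraic quotient -/
theorem origin (hF : AfA κ) {V : Set (κ → ℂ)} {p lam : κ → ℂ} (hV : IsTor V) (hp : Ari V p)
    (h0 : (0 : κ → ℂ) ∈ V) (hl : ∀ i, Alg (lam i)) (hl1 : ∀ i j, lam i * lam j ≠ 1)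
    {A B : (κ → ℂ) → ℂ} (h : AF V A B) {c : ℂ} (hc : ∀ w, A w = c * B (lam * w))
    (hA : A 0 ≠ 0) :
    (∀ i, Alg (pd i A 0 / (p i * A 0))) ∧ ∀ i j, Alg (Hn i j A 0 / (p i * p j) / A 0 ^ 2) := by
  have eA : A 0 = c * B 0 := by rw [hc, mul_zero]
  have hc0 : c ≠ 0 := left_ne_zero_of_mul (eA ▸ hA)
  have hB : B 0 ≠ 0 := right_ne_zero_of_mul (eA ▸ hA)
  have hca : Alg c := by
    have := h.alg 0 h0 hB
    rwa [eA, mul_div_cancel_right₀ _ hB] at this
  set Q : (κ → ℂ) → ℂ := fun z => A z / B z with hQ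
  have hQ0 : Q 0 = c := by simp only [hQ]; rw [eA, mul_div_cancel_right₀ _ hB]
  have hne : ∀ᶠ z in 𝓝 (0 : κ → ℂ), B z ≠ 0 := (h.holB 0).continuousAt.eventually_ne hB
  have aQ : ∀ z, B z ≠ 0 → AnalyticAt ℂ Q z := fun z hz => (h.holA z).div (h.holB z) hz
  have eQ : ∀ z, B z ≠ 0 → A =ᶠ[𝓝 z] fun y => Q y * B y := fun z hz => by
    filter_upwards [(h.holB z).continuousAt.eventually_ne hz] with y hy
    simp only [hQ]; rw [div_mul_cancel₀ _ hy]
  have dQ : ∀ z, B z ≠ 0 → ∀ i, pd i A z = pd i Q z * B z + Q z * pd i B z := fun z hz i => by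
    rw [(pd_congr (eQ z hz) i).eq_of_nhds, pd_mul (aQ z hz) (h.holB z)]
  have q1 : ∀ i, Alg (pd i Q 0 / p i) := hp.2.1 A B h hB
  have q2 : ∀ i j, Alg (pd i (pd j Q) 0 / (p i * p j)) := fun i j => by
    have h1 := hp.2.1 _ _ (hF.der V p A B j hV hp h) (pow_ne_zero 2 hB) i
    have e : (fun z => (pd j A z * B z - A z * pd j B z) / p j / B z ^ 2) =ᶠ[𝓝 0]
        fun z => (p j)⁻¹ * pd j Q z := by
      filter_upwards [hne] with z hz
      have := hp.1 j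
      rw [dQ z hz j]
      simp only [hQ]
      field_simp
      ring
    rw [(pd_congr e i).eq_of_nhds, pd_const_mul _ _ _ (ana_pd (aQ 0 hB) j)] at h1
    have := hp.1 i
    have := hp.1 j
    rwa [show (p j)⁻¹ * pd i (pd j Q) 0 / p i = pd i (pd j Q) 0 / (p i * p j) by field_simp] at h1
  refine ⟨fun i => ?_, fun i j => ?_⟩
  · have e1 : pd i A 0 = c * (lam i * pd i B 0) := by
      rw [funext hc, pd_const_mul _ _ _ (ana_sc h.holB lam 0), pd_sc h.holB]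
      simp only [mul_zero]
    have e2 := dQ 0 hB i
    have hl2 : lam i - 1 ≠ 0 := fun e => hl1 i i (by rw [sub_eq_zero.1 e, mul_one])
    have hpi := hp.1 i
    have e3 : pd i B 0 = pd i Q 0 * B 0 / (c * (lam i - 1)) := by
      rw [eq_div_iff (mul_ne_zero hc0 hl2)]
      rw [hQ0] at e2
      linear_combination e2 - e1
    have : pd i A 0 / (p i * A 0) = lam i * (pd i Q 0 / p i) / (c * (lam i - 1)) := by
      rw [e1, e3, eA]; field_simp
    rw [this]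
    exact alg_div ((hl i).mul (q1 i)) (hca.mul ((hl i).sub alg_one))
  · have e1 : Hn i j A 0 = c ^ 2 * (lam i * lam j) * Hn i j B 0 := by
      rw [funext hc, Hn_sc h.holB]
    have e2 : Hn i j A 0 = B 0 ^ 2 * Hn i j Q 0 + c ^ 2 * Hn i j B 0 := by
      rw [Hn_congr (eQ 0 hB), Hn_mul (aQ 0 hB) (h.holB 0), hQ0]
    have hl2 : lam i * lam j - 1 ≠ 0 := sub_ne_zero.2 (hl1 i j)
    have hpi := hp.1 i
    have hpj := hp.1 j
    have e3 : Hn i j B 0 = B 0 ^ 2 * Hn i j Q 0 / (c ^ 2 * (lam i * lam j - 1)) := by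
      rw [eq_div_iff (mul_ne_zero (pow_ne_zero 2 hc0) hl2)]
      linear_combination e2 - e1
    have e4 : Hn i j Q 0 = pd i (pd j Q) 0 * c - pd i Q 0 * pd j Q 0 := by rw [Hn, hQ0]
    have : Hn i j A 0 / (p i * p j) / A 0 ^ 2 = lam i * lam j *
        (pd i (pd j Q) 0 / (p i * p j) * c - pd i Q 0 / p i * (pd j Q 0 / p j)) /
          (c ^ 2 * (lam i * lam j - 1)) := by
      rw [e1, e3, e4, eA]; field_simp
    rw [this]
    exact alg_div (((hl i).mul (hl j)).mul (((q2 i j).mul hca).sub ((q1 i).mul (q1 j))))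
      ((hca.pow 2).mul (((hl i).mul (hl j)).sub alg_one))

/-! ### the canonical theta functions in the coordinates of a period matrix -/

/-- the canonical theta function in the coordinates of `S` -/
def Th (S : Matrix (κ ⊕ κ) κ ℂ) (f : (κ → ℚ) → ℂ) (w : κ → ℂ) : ℂ :=
  cth f (tauOf S) (w ᵥ* S.toRows₂⁻¹)

omit [DecidableEq κ] in
theorem ana_vecMul (N : Matrix κ κ ℂ) (w : κ → ℂ) : AnalyticAt ℂ (fun z : κ → ℂ => z ᵥ* N) w :=
  analyticAt_pi_iff.2 fun i => ana_dot (fun k => N k i) w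

omit [DecidableEq κ] in
theorem ana_quad (Y : Matrix κ κ ℂ) (w : κ → ℂ) :
    AnalyticAt ℂ (fun z : κ → ℂ => z ⬝ᵥ Y *ᵥ z) w := by
  simp only [dotProduct, mulVec]
  have hp : ∀ i, AnalyticAt ℂ (fun z : κ → ℂ => z i) w := fun i =>
    (ContinuousLinearMap.proj (R := ℂ) (φ := fun _ : κ => ℂ) i).analyticAt w
  exact Finset.analyticAt_fun_sum _ fun i _ => (hp i).mul
    (Finset.analyticAt_fun_sum _ fun k _ => analyticAt_const.mul (hp k))

theorem S_mul (hC : Act κ) {S : Matrix (κ ⊕ κ) κ ℂ} (hS : Riem S) :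
    S * S.toRows₂⁻¹ = per (tauOf S) := by
  obtain ⟨h1, -, h3, -⟩ := hC.riem S hS
  calc S * S.toRows₂⁻¹ = per (tauOf S) * S.toRows₂ * S.toRows₂⁻¹ := by rw [h3]
    _ = _ := by rw [Matrix.mul_assoc, Matrix.mul_nonsing_inv _ h1, Matrix.mul_one]

theorem af_Th (hC : Act κ) (hF : AfA κ) (hG : AfC κ) {S : Matrix (κ ⊕ κ) κ ℂ} (hS : Riem S)
    (hτ : AlgPt (tauOf S)) {f f' : (κ → ℚ) → ℂ} (hf : Sch f) (hf' : Sch f') :
    AF (Set.range fun v : κ ⊕ κ → ℚ => cq v ᵥ* S) (Th S f) (Th S f') := by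
  have h1 := af_mul (hG.theta _ f f' hτ hf hf')
    (e := fun z => Complex.exp (Real.pi / 2 * (z ⬝ᵥ (imC (tauOf S))⁻¹ *ᵥ z)))
    (fun z => (analyticAt_const.mul (ana_quad _ z)).cexp) fun z => Complex.exp_ne_zero _
  refine hF.pull κ _ _ S.toRows₂⁻¹ _ _ ?_ h1
  rintro _ ⟨v, rfl⟩
  exact ⟨v, by simp only [vecMul_vecMul, S_mul hC hS]⟩

theorem Th_shift (hB : ThB κ) (hC : Act κ) {S : Matrix (κ ⊕ κ) κ ℂ} (hS : Riem S)
    (v : κ ⊕ κ → ℚ) : ∃ (a : κ → ℂ) (c : ℂ), ∀ f w,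
      Th S f (w + cq v ᵥ* S) = ex a c w * Th S (W v f) w := by
  have hτ := (hC.riem S hS).2.1
  set τ := tauOf S with hτd
  set Y := (imC τ)⁻¹
  set l := cq v ᵥ* per τ with hl
  set a := cq (v ∘ Sum.inl)
  refine ⟨S.toRows₂⁻¹ *ᵥ (((Real.pi : ℂ) / 2) • (Y *ᵥ l + l ᵥ* Y) - (2 * Real.pi * I) • a),
    Real.pi / 2 * (l ⬝ᵥ Y *ᵥ l) - 2 * Real.pi * I * (a ⬝ᵥ l / 2), fun f w => ?_⟩
  simp only [Th, cth, ex]
  rw [add_vecMul, vecMul_vecMul, S_mul hC hS, hB.trans v f τ _ hτ.1, dotProduct_mulVec w]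
  set z := w ᵥ* S.toRows₂⁻¹
  rw [ee, ← mul_assoc, ← mul_assoc, ← Complex.exp_add, ← Complex.exp_add]
  congr 2
  simp only [mulVec_add, dotProduct_add, add_dotProduct, dotProduct_sub, dotProduct_smul,
    smul_eq_mul]
  rw [dotProduct_mulVec l Y z, dotProduct_comm z (l ᵥ* Y), dotProduct_comm z a]
  ring

theorem Th_act (hC : Act κ) (h1 : Weil1 κ) (hW : Weil κ) {S : Matrix (κ ⊕ κ) κ ℂ}
    {γ : Matrix (κ ⊕ κ) (κ ⊕ κ) ℚ} {lam : κ → ℂ} (hS : Riem S) (hγ : Sp γ)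
    (e : cM γ * S = S * diagonal lam) {f : (κ → ℚ) → ℂ} (hf : Sch f) :
    ∃ (f' : (κ → ℚ) → ℂ) (c : ℂ), Sch f' ∧ ∀ w, Th S f w = c * Th S f' (lam * w) := by
  obtain ⟨j, -, hj⟩ := hW γ hγ
  obtain ⟨f', hf', hr⟩ := hj f hf
  obtain ⟨u, hτ, -⟩ := hC.riem S hS
  obtain ⟨e1, e2⟩ := hC.sig γ S S _ hγ hS hS e
  refine ⟨f', j (tauOf S), hf', fun w => ?_⟩
  have := h1.relCan γ j f f' (tauOf S) (w ᵥ* S.toRows₂⁻¹) hγ hr hτ
  rw [e1, e2, vecMul_vecMul, ← Matrix.mul_assoc, ← Matrix.mul_assoc,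
    Matrix.nonsing_inv_mul _ u, Matrix.one_mul, ← vecMul_vecMul] at this
  rw [Th, this, Th]
  congr 3
  funext k
  rw [vecMul_diagonal, Pi.mul_apply, mul_comm]

theorem den (v : κ ⊕ κ → ℚ) : ∃ D : ℕ, 0 < D ∧ ∀ a, ∃ k : ℤ, (D : ℚ) * v a = k := by
  refine ⟨∏ a, (v a).den, Finset.prod_pos fun a _ => (v a).den_pos, fun a => ?_⟩
  refine ⟨(∏ b ∈ Finset.univ.erase a, ((v b).den : ℤ)) * (v a).num, ?_⟩
  rw [← Finset.prod_erase_mul _ _ (Finset.mem_univ a)]
  push_cast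
  rw [mul_assoc, mul_comm ((v a).den : ℚ), Rat.mul_den_eq_num]

end Jet

open Jet in
theorem jet (hA : All ThA) (hB : All ThB) (hC : All Act) (h1 : All Weil1) (hW : All Weil)
    (hF : All AfA) (hG : All AfC) : All Jet := by
  intro κ _ _ S γ lam p V hS hτ hγ e hl hl1 hV hT hp f hf ϑ hϑ
  have _ := hA
  subst hV
  have hϑ' : ϑ = Th S f := hϑ
  subst hϑ'
  have h0 : (0 : κ → ℂ) ∈ Set.range fun v : κ ⊕ κ → ℚ => cq v ᵥ* S :=
    ⟨0, by
      have : cq (0 : κ ⊕ κ → ℚ) = 0 := by funext a; simp [cq]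
      simp only [this, zero_vecMul]⟩
  have key : ∀ g, Sch g → Th S g 0 ≠ 0 → (∀ i, Alg (pd i (Th S g) 0 / (p i * Th S g 0))) ∧
      ∀ i j, Alg (Hn i j (Th S g) 0 / (p i * p j) / Th S g 0 ^ 2) := fun g hg hg0 => by
    obtain ⟨g', c, hg', hc⟩ := Th_act (hC κ) (h1 κ) (hW κ) hS hγ e hg
    exact origin (hF κ) hT hp h0 hl hl1 (af_Th (hC κ) (hF κ) (hG κ) hS hτ hg hg') hc hg0
  have ana : ∀ g, Sch g → ∀ w, AnalyticAt ℂ (Th S g) w := fun g hg =>
    (af_Th (hC κ) (hF κ) (hG κ) hS hτ hg hg).holA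
  refine ⟨fun i h => (key f hf h).1 i, fun i j => ?_⟩
  change AF _ (fun w => Hn i j (Th S f) w / (p i * p j)) _
  refine ⟨⟨fun z => ?_, fun z => (ana f hf z).pow 2, ?_⟩, ?_⟩
  · simp only [div_eq_mul_inv]
    exact (ana_Hn (ana f hf z) i j).mul analyticAt_const
  · rintro _ ⟨v, rfl⟩
    obtain ⟨M, hM, hev, hL⟩ := (hB κ).common Unit (fun _ => f) fun _ => hf
    obtain ⟨D, hD, hk⟩ := den v
    choose k hk using hk
    obtain ⟨a, c, h⟩ := Th_shift (hB κ) (hC κ) hS fun a => (M : ℚ) * k a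
    have hw := (((hB κ).levW M f hM hev).1 (hL ())).2 k
    have e1 : ((M * D : ℕ) : ℂ) • (cq v ᵥ* S) = cq (fun a => (M : ℚ) * k a) ᵥ* S := by
      rw [← smul_vecMul]
      congr 1
      funext b
      simp only [cq, ← hk, Pi.smul_apply, smul_eq_mul]
      push_cast
      ring
    have h' : ∀ w, Th S f (w + cq (fun a => (M : ℚ) * k a) ᵥ* S) = ex a c w * Th S f w :=
      fun w => by rw [h, hw]
    refine ⟨M * D, Nat.mul_pos hM hD, fun w => ex a c w ^ 2, ?_, fun w => ?_, fun w => ?_⟩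
    · exact (continuous_iff_continuousAt.2 fun w => (ana_ex a c w).continuousAt).pow 2
    · exact pow_ne_zero 2 (Complex.exp_ne_zero _)
    · simp only [e1]
      rw [Hn_shift (ana f hf) h', h', mul_pow, mul_div_assoc]
      exact ⟨rfl, rfl⟩
  · rintro _ ⟨v, rfl⟩ hv
    obtain ⟨a, c, h⟩ := Th_shift (hB κ) (hC κ) hS v
    have hg := (hB κ).schW v f hf
    have e1 := Hn_shift (ana _ hg) (h f) i j 0
    have e2 := h f 0
    rw [zero_add] at e1 e2
    have hv' : ex a c 0 * Th S (W v f) 0 ≠ 0 := fun h0 => hv (by simp only [e2, h0]; ring)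
    have := (key _ hg (right_ne_zero_of_mul hv')).2 i j
    simp only [e1, e2]
    rwa [mul_div_assoc, mul_pow, mul_div_mul_left _ _ (pow_ne_zero 2 (left_ne_zero_of_mul hv'))]

end

end Pool.Agent.GAM
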