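import Mathlib.Data.Int.Star
import Pool.Agent.MP_cbf1af_ag.gam.Spec

/-! PROJECT GAM, module PAIR: the period symbol. -/

namespace Pool.Agent.GAM

open Finset

noncomputable section

namespace PairP

/-- a function on the cube which is modular on the proper faces is affine -/
theorem cube {β G : Type} [DecidableEq β] [CommGroup G] (Ψ : Finset β) (f : Finset β → G)
    (h3 : 3 ≤ Ψ.card) (h : ∀ A ⊆ Ψ, ∀ B ⊆ Ψ, (A ∩ B).Nonempty ∨ (Ψ \ (A ∪ B)).Nonempty →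
      f A * f B = f (A ∪ B) * f (A ∩ B)) :
    ∀ S ⊆ Ψ, f S = f ∅ * ∏ t ∈ S, f {t} / f ∅ := by
  have h1 : ∀ S, S ⊆ Ψ → (Ψ \ S).Nonempty → f S = f ∅ * ∏ t ∈ S, f {t} / f ∅ := fun S => by
    induction S using Finset.induction_on with
    | empty => simp
    | insert t S ht ih =>
      intro h1 h2
      have h4 := h {t} (by simpa using h1 (mem_insert_self t S)) S
        ((subset_insert t S).trans h1) (.inr h2)
      rw [singleton_inter_of_notMem ht, ← insert_eq, ih ((subset_insert t S).trans h1)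
        (h2.mono (sdiff_subset_sdiff subset_rfl (subset_insert t S)))] at h4
      refine mul_right_cancel (b := f ∅) ?_
      rw [prod_insert ht, ← h4, ← mul_assoc (f ∅), mul_div_cancel]
      ac_rfl
  intro S hS
  rcases (Ψ \ S).eq_empty_or_nonempty with h0 | h0
  swap
  · exact h1 S hS h0
  obtain rfl : S = Ψ := hS.antisymm (sdiff_eq_empty_iff_subset.1 h0)
  obtain ⟨a, b, c, ha, hb, hc, ab, ac, bc⟩ := two_lt_card_iff.1 h3
  have h4 := h (S.erase b) (erase_subset b S) {a, b} (by simp [insert_subset_iff, ha, hb])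
    (.inl ⟨a, by simp [ha, ab]⟩)
  rw [show S.erase b ∪ {a, b} = S by ext; simp; grind,
    show S.erase b ∩ {a, b} = {a} by ext; simp; grind,
    h1 _ (erase_subset b S) ⟨b, by simp [hb]⟩,
    h1 {a, b} (by simp [insert_subset_iff, ha, hb]) ⟨c, by simp [hc, ac.symm, bc.symm]⟩,
    prod_pair ab] at h4
  refine mul_right_cancel (b := f {a}) ?_
  rw [← h4, ← mul_prod_erase S _ hb, ← mul_assoc (f ∅), mul_div_cancel]
  ac_rfl

theorem grp {G : Type} [CommGroup G] {a b c d : G} (h : b * c = 1) : a * d = a * c * (b * d) := by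
  rw [mul_assoc, ← mul_assoc c, mul_comm c, h, one_mul]

/-- algebraic units -/
def H : Subgroup ℂˣ where
  carrier := {x | Alg x}
  mul_mem' := fun a b => by simpa using IsAlgebraic.mul a b
  one_mem' := isAlgebraic_one
  inv_mem' := fun a => by simpa using IsAlgebraic.inv a

open Classical in
/-- the class modulo algebraic numbers -/
def cl (x : ℂ) : ℂˣ ⧸ H := if h : x = 0 then 1 else QuotientGroup.mk (Units.mk0 x h)

theorem cl_mul {x y : ℂ} (hx : x ≠ 0) (hy : y ≠ 0) : cl (x * y) = cl x * cl y := by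
  simp [cl, hx, hy]

theorem cl_div {x y : ℂ} (hx : x ≠ 0) (hy : y ≠ 0) : cl (x / y) = cl x / cl y :=
  eq_div_of_mul_eq' (by rw [← cl_mul (div_ne_zero hx hy) hy, div_mul_cancel₀ _ hy])

theorem cl_eq {x y : ℂ} (hx : x ≠ 0) (hy : y ≠ 0) : cl x = cl y ↔ Alg (x / y) := by
  simp only [cl, dif_neg hx, dif_neg hy, QuotientGroup.eq_iff_div_mem]
  change Alg _ ↔ _
  simp

theorem cl_prod {β : Type} (S : Finset β) (u : β → ℂ) (h : ∀ t, u t ≠ 0) :
    cl (∏ t ∈ S, u t) = ∏ t ∈ S, cl (u t) := by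
  classical
  induction S using Finset.induction_on with
  | empty => simp [cl]
  | insert t S ht ih =>
    rw [prod_insert ht, prod_insert ht, cl_mul (h t) (prod_ne_zero_iff.2 fun t _ => h t), ih]

variable {E : Type} [Field E] [NumberField E]

omit [NumberField E] in
theorem cjcj (σ : Emb E) : cj (cj σ) = σ := star_star σ

/-- the type which differs from `Φ` in `S` -/
def ty (Φ S : Finset (Emb E)) : Finset (Emb E) :=
  univ.filter fun ρ => ρ ∈ S ∨ ρ ∈ Φ ∧ cj ρ ∉ S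

variable {Φ S : Finset (Emb E)}

theorem mem_ty {ρ : Emb E} : ρ ∈ ty Φ S ↔ ρ ∈ S ∨ ρ ∈ Φ ∧ cj ρ ∉ S := by simp [ty]

theorem ty_type (h : IsType Φ) (hS : S ⊆ Φᶜ) : IsType (ty Φ S) := fun ρ => by
  have h1 := h ρ
  have h2 : ρ ∈ S → ρ ∉ Φ := fun h => mem_compl.1 (hS h)
  have h3 : cj ρ ∈ S → cj ρ ∉ Φ := fun h => mem_compl.1 (hS h)
  simp only [mem_ty, cjcj]
  tauto

theorem ty_sdiff (h : IsType Φ) (h' : IsType S) : ty Φ (S \ Φ) = S := by
  ext ρ
  have h1 := h ρ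
  have h2 := h' ρ
  simp only [mem_ty, mem_sdiff]
  tauto

theorem compl_type (h : IsType Φ) : IsType Φᶜ := fun ρ => by
  have h1 := h ρ
  simp only [mem_compl]
  tauto

omit [NumberField E] in
theorem per_ne {P : Emb E → ℂ} (h : Per Φ P) (σ : Emb E) : P σ ≠ 0 := fun h0 =>
  Complex.two_pi_I_ne_zero (by rw [← h.1 σ, h0, zero_mul])

end PairP

open PairP

theorem pair (hK : AllC) (hE : Exist) (hT : Trans) (hS : Sq) : Pair := fun E _ _ c hc h6 => by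
  have hA := hK E c hc
  obtain ⟨Φ₀, h₀⟩ := hA.exType
  choose P hP using fun Φ : Finset (Emb E) => show ∃ P, IsType Φ → Per Φ P by
    by_cases h : IsType Φ
    · exact (hE E c Φ hc h).imp fun _ h _ => h
    · exact ⟨0, fun h' => (h h').elim⟩
  have h3 : 3 ≤ Φ₀ᶜ.card := by linarith [hA.card _ (compl_type h₀)]
  have hn : ∀ S ⊆ Φ₀ᶜ, ∀ σ, P (ty Φ₀ S) σ ≠ 0 := fun S h => per_ne (hP _ (ty_type h₀ h))
  have key := fun σ => cube Φ₀ᶜ (fun S => cl (P (ty Φ₀ S) σ)) h3 fun A a B b h => by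
    have u : A ∪ B ⊆ Φ₀ᶜ := union_subset a b
    have i : A ∩ B ⊆ Φ₀ᶜ := inter_subset_left.trans a
    rw [← cl_mul (hn _ a σ) (hn _ b σ), ← cl_mul (hn _ u σ) (hn _ i σ),
      cl_eq (mul_ne_zero (hn _ a σ) (hn _ b σ)) (mul_ne_zero (hn _ u σ) (hn _ i σ))]
    have h1 : ∀ ρ, (ρ ∈ A → ρ ∉ Φ₀) ∧ (ρ ∈ B → ρ ∉ Φ₀) := fun ρ =>
      ⟨fun h => mem_compl.1 (a h), fun h => mem_compl.1 (b h)⟩
    refine hS E c (fun k => ty Φ₀ (![A, B, A ∪ B, A ∩ B] k))
      (fun k => P (ty Φ₀ (![A, B, A ∪ B, A ∩ B] k))) hc (fun k => ?_) ?_ ?_ ?_ σ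
    · have : ![A, B, A ∪ B, A ∩ B] k ⊆ Φ₀ᶜ := by fin_cases k <;> assumption
      exact ⟨ty_type h₀ this, hP _ (ty_type h₀ this)⟩
    · rcases h with ⟨ρ, h⟩ | ⟨ρ, h⟩
      · exact ⟨ρ, by simp_all [mem_ty]⟩
      · refine ⟨cj ρ, ?_⟩
        have := h₀ ρ
        simp_all [mem_ty]
    · ext ρ
      have := h1 ρ
      simp [mem_ty]
      tauto
    · ext ρ
      have := h1 ρ
      simp [mem_ty]
      tauto
  set v : Emb E → Emb E → ℂ := fun σ t => P (ty Φ₀ {t}) σ / P (ty Φ₀ ∅) σ with hv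
  have vn : ∀ σ t, t ∉ Φ₀ → v σ t ≠ 0 := fun σ t h =>
    div_ne_zero (hn _ (by simpa using h) σ) (hn _ (empty_subset _) σ)
  set u : Emb E → Emb E → ℂ := fun σ t => if t ∈ Φ₀ then (v σ (cj t))⁻¹ else v σ t with hu
  have un : ∀ σ t, u σ t ≠ 0 := fun σ t => by
    simp only [hu]
    split_ifs with h
    exacts [inv_ne_zero (vn σ _ ((h₀ t).1 h)), vn σ _ h]
  have uu : ∀ σ t, u σ t * u σ (cj t) = 1 := fun σ t => by
    simp only [hu, cjcj]
    by_cases h : t ∈ Φ₀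
    · rw [if_pos h, if_neg ((h₀ t).1 h), inv_mul_cancel₀ (vn σ _ ((h₀ t).1 h))]
    · rw [if_neg h, if_pos (by simpa [h] using h₀ t), mul_inv_cancel₀ (vn σ _ h)]
  have k2 : ∀ σ Φ, IsType Φ →
      cl (P Φ σ) = cl (P (ty Φ₀ ∅) σ) * ∏ t ∈ Φ \ Φ₀, cl (u σ t) := fun σ Φ h => by
    have := key σ (Φ \ Φ₀) fun t ht => mem_compl.2 (mem_sdiff.1 ht).2
    rw [ty_sdiff h₀ h] at this
    rw [this]
    refine congrArg _ (prod_congr rfl fun t ht => ?_)
    have ht := (mem_sdiff.1 ht).2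
    simp only [hu, if_neg ht, hv]
    rw [cl_div (hn _ (by simpa using ht) σ) (hn _ (empty_subset _) σ)]
  refine ⟨u, uu, fun Φ Q h hQ σ => ?_⟩
  have hc' := compl_type h
  have q0 := per_ne hQ
  have e1 : cl (P Φ σ) = cl (Q σ) := (cl_eq (per_ne (hP _ h) σ) (q0 σ)).2
    (hT E E (RingHom.id E) Φ Φ Q _ h (fun _ => Iff.rfl) hQ (hP _ h) σ).2
  have e2 : cl (P Φᶜ σ) = cl (Q (cj σ)) := (cl_eq (per_ne (hP _ hc') σ) (q0 _)).2 (by
    rw [hA.cjc]
    refine (hT E E c Φ Φᶜ Q _ h (fun ρ => ?_) hQ (hP _ hc') σ).2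
    rw [← hA.cjc, hc' ρ, mem_compl, not_not])
  have e3 : (∏ t ∈ Φ ∩ Φ₀, cl (u σ t)) * ∏ t ∈ Φᶜ \ Φ₀, cl (u σ t) = 1 := by
    rw [prod_nbij' (s := Φᶜ \ Φ₀) (t := Φ ∩ Φ₀) (g := fun t => cl (u σ (cj t))) cj cj
      (fun t => by have := h t; have := h₀ t; simp; tauto)
      (fun t => by have := h t; have := h₀ t; simp; tauto) (fun t _ => cjcj t)
      (fun t _ => cjcj t) (fun t _ => by rw [cjcj]), ← prod_mul_distrib]
    exact prod_eq_one fun t _ => by rw [← cl_mul (un σ _) (un σ _), uu]; simp [cl]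
  have pn : ∏ t ∈ Φ, u σ t ≠ 0 := prod_ne_zero_iff.2 fun t _ => un σ t
  rw [← cl_eq (pow_ne_zero 2 (q0 σ)) (mul_ne_zero Complex.two_pi_I_ne_zero pn),
    cl_mul Complex.two_pi_I_ne_zero pn, ← hQ.1 σ, sq, cl_mul (q0 σ) (q0 σ), cl_mul (q0 σ) (q0 _),
    mul_assoc, ← e2, cl_prod _ _ (un σ), ← prod_inter_mul_prod_sdiff Φ Φ₀, k2 σ _ hc']
  congr 1
  rw [← e1, k2 σ _ h]
  exact grp (G := ℂˣ ⧸ H) e3

end

end Pool.Agent.GAM
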