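import Mathlib.Topology.Sheaves.Presheaf
import Mathlib.RingTheory.Flat.TorsionFree
import Mathlib.Algebra.Order.Star.Real
import Mathlib.RingTheory.PiTensorProduct
import Mathlib.RingTheory.SimpleRing.Principal
import Mathlib.RingTheory.TotallySplit
import Pool.Agent.MP_cbf1af_ag.gam.Spec

/-! PROJECT GAM, row RED: reduction theory on Siegel space. -/

namespace Pool.Agent.GAM

open Matrix Complex

noncomputable section

namespace RedA

/-- integral matrices as real matrices -/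
def zR {ι ι' : Type} (γ : Matrix ι ι' ℤ) : Matrix ι ι' ℝ := γ.map (Int.castRingHom ℝ)

/-- symmetric positive definite -/
structure PD {ι : Type} [Fintype ι] (Q : Matrix ι ι ℝ) : Prop where
  symm : Qᵀ = Q
  pos : ∀ x, x ≠ 0 → 0 < x ⬝ᵥ Q *ᵥ x

section

variable {ι : Type} [Fintype ι]

theorem zR_mul {ι' ι'' : Type} (γ : Matrix ι' ι ℤ) (γ' : Matrix ι ι'' ℤ) :
    zR (γ * γ') = zR γ * zR γ' := Matrix.map_mul

theorem PD.comm {Q : Matrix ι ι ℝ} (h : PD Q) (x y : ι → ℝ) : x ⬝ᵥ Q *ᵥ y = y ⬝ᵥ Q *ᵥ x := by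
  rw [dotProduct_mulVec, ← mulVec_transpose, h.symm, dotProduct_comm]

theorem PD.nonneg {Q : Matrix ι ι ℝ} (h : PD Q) (x : ι → ℝ) : 0 ≤ x ⬝ᵥ Q *ᵥ x := by
  by_cases hx : x = 0
  · simp [hx]
  · exact (h.pos x hx).le

theorem conj_form {ι' S : Type} [CommRing S] [Fintype ι'] (A : Matrix ι' ι S) (Q : Matrix ι ι S)
    (x y : ι' → S) :
    x ⬝ᵥ (A * Q * Aᵀ) *ᵥ y = (x ᵥ* A) ⬝ᵥ Q *ᵥ (y ᵥ* A) := by
  rw [← mulVec_mulVec, ← mulVec_mulVec, mulVec_transpose, dotProduct_mulVec]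

theorem conj_apply {ι' S : Type} [CommRing S] (A : Matrix ι' ι S) (Q : Matrix ι ι S) (a b : ι') :
    (A * Q * Aᵀ) a b = A a ⬝ᵥ Q *ᵥ A b := by
  simp only [mul_apply, transpose_apply, dotProduct, mulVec, Finset.sum_mul, Finset.mul_sum]
  rw [Finset.sum_comm]
  simp only [mul_assoc]

theorem PD.conj {ι' : Type} [Fintype ι'] {Q : Matrix ι ι ℝ} (h : PD Q) {A : Matrix ι' ι ℝ}
    (hA : ∀ x, x ᵥ* A = 0 → x = 0) : PD (A * Q * Aᵀ) :=
  ⟨by simp [transpose_mul, h.symm, Matrix.mul_assoc], fun x hx => by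
    rw [conj_form]
    exact h.pos _ fun k => hx (hA x k)⟩

theorem PD.coer {Q : Matrix ι ι ℝ} (h : PD Q) :
    ∃ c, 0 < c ∧ ∀ x : ι → ℝ, 1 ≤ ‖x‖ → c ≤ x ⬝ᵥ Q *ᵥ x := by
  have hc : Continuous fun x : ι → ℝ => x ⬝ᵥ Q *ᵥ x := by fun_prop
  obtain ⟨c, h0, h1⟩ := (isCompact_sphere (0 : ι → ℝ) 1).exists_forall_le' hc.continuousOn
    (a := 0) fun x hx => h.pos x (by rintro rfl; simp at hx)
  refine ⟨c, h0, fun x hx => ?_⟩
  have h2 := h1 (‖x‖⁻¹ • x) (by
    rw [mem_sphere_zero_iff_norm, norm_smul, norm_inv, norm_norm]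
    exact inv_mul_cancel₀ (by linarith))
  rw [mulVec_smul, smul_dotProduct, dotProduct_smul, smul_eq_mul, smul_eq_mul] at h2
  have h3 : ‖x‖⁻¹ ≤ 1 := inv_le_one_of_one_le₀ hx
  have h4 : 0 ≤ ‖x‖⁻¹ := by positivity
  have h5 := h.nonneg x
  have h6 := mul_le_of_le_one_left h5 h3
  have h7 := mul_le_of_le_one_left (mul_nonneg h4 h5) h3
  linarith

end

section

variable {κ : Type} [Fintype κ] [DecidableEq κ]

theorem zR_mem {γ : Matrix (κ ⊕ κ) (κ ⊕ κ) ℤ} (h : γ ∈ symplecticGroup κ ℤ) :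
    zR γ ∈ symplecticGroup κ ℝ := SymplecticGroup.map_mem h _

theorem sp_inj {A : Matrix (κ ⊕ κ) (κ ⊕ κ) ℝ} (h : A ∈ symplecticGroup κ ℝ) (x : κ ⊕ κ → ℝ)
    (hx : x ᵥ* A = 0) : x = 0 := by
  have := (vecMul_injective_iff_isUnit.2
    ((isUnit_iff_isUnit_det _).2 (SymplecticGroup.symplectic_det h)))
  exact this (by simpa using hx)

theorem row_ne {γ : Matrix (κ ⊕ κ) (κ ⊕ κ) ℤ} (h : γ ∈ symplecticGroup κ ℤ) (a : κ ⊕ κ) :
    γ a ≠ 0 := fun k => by
  have := sp_inj (zR_mem h) (Pi.single a 1) (by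
    ext b
    simp [zR, k])
  simpa using congrFun this a

theorem conj_mem {A Q : Matrix (κ ⊕ κ) (κ ⊕ κ) ℝ} (hA : A ∈ symplecticGroup κ ℝ)
    (hQ : Q ∈ symplecticGroup κ ℝ) : A * Q * Aᵀ ∈ symplecticGroup κ ℝ :=
  mul_mem (mul_mem hA hQ) (SymplecticGroup.transpose_mem hA)

/-- An almost minimal row. -/
theorem exists_min {Q : Matrix (κ ⊕ κ) (κ ⊕ κ) ℝ} (h : PD Q) (a : κ ⊕ κ) :
    ∃ γ ∈ symplecticGroup κ ℤ, ∀ γ' ∈ symplecticGroup κ ℤ,
      (zR γ * Q * (zR γ)ᵀ) a a ≤ 2 * (zR γ' * Q * (zR γ')ᵀ) a a := by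
  obtain ⟨c, h0, h1⟩ := h.coer
  let S : Set ℝ := (fun γ : Matrix (κ ⊕ κ) (κ ⊕ κ) ℤ => (zR γ * Q * (zR γ)ᵀ) a a) ''
    (symplecticGroup κ ℤ : Set _)
  have hb : ∀ s ∈ S, c ≤ s := by
    rintro _ ⟨γ, hγ, rfl⟩
    simp only [conj_apply]
    refine h1 _ ?_
    obtain ⟨b, hb⟩ := Function.ne_iff.1 (row_ne hγ a)
    refine le_trans ?_ (norm_le_pi_norm _ b)
    simpa [zR] using (by exact_mod_cast Int.one_le_abs hb : (1 : ℝ) ≤ |(γ a b : ℝ)|)
  have hn : S.Nonempty := ⟨_, 1, one_mem _, rfl⟩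
  have h2 : c ≤ sInf S := le_csInf hn hb
  obtain ⟨_, ⟨γ, hγ, rfl⟩, h3⟩ := exists_lt_of_csInf_lt hn (by linarith : sInf S < 2 * sInf S)
  refine ⟨γ, hγ, fun γ' hγ' => ?_⟩
  have h4 : sInf S ≤ _ := csInf_le ⟨c, hb⟩ ⟨γ', hγ', rfl⟩
  linarith

end

/-- The statement that is proved by induction. -/
def R (κ : Type) [Fintype κ] : Prop := ∀ [DecidableEq κ], ∃ C : ℝ, 0 < C ∧
  ∀ Q : Matrix (κ ⊕ κ) (κ ⊕ κ) ℝ, PD Q → Q ∈ symplecticGroup κ ℝ →
    ∃ γ ∈ symplecticGroup κ ℤ, ∀ i, (zR γ * Q * (zR γ)ᵀ) (.inr i) (.inr i) ≤ C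

theorem J_sub {α β : Type} [Fintype α] [DecidableEq α] [Fintype β] [DecidableEq β] (e : α ≃ β)
    (S : Type) [CommRing S] :
    (J β S).submatrix (Equiv.sumCongr e e) (Equiv.sumCongr e e) = J α S := by
  ext (a | a) (b | b) <;> simp [J, one_apply]

theorem mem_sub {α β : Type} [Fintype α] [DecidableEq α] [Fintype β] [DecidableEq β] (e : α ≃ β)
    {S : Type} [CommRing S] {A : Matrix (β ⊕ β) (β ⊕ β) S} (h : A ∈ symplecticGroup β S) :
    A.submatrix (Equiv.sumCongr e e) (Equiv.sumCongr e e) ∈ symplecticGroup α S := by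
  rw [SymplecticGroup.mem_iff] at h ⊢
  rw [← J_sub e, transpose_submatrix, submatrix_mul_equiv, submatrix_mul_equiv, h]

theorem R_equiv (α β : Type) [Fintype α] [Fintype β] (e : α ≃ β) (h : R α) : R β := by
  intro _
  classical
  obtain ⟨C, h0, hC⟩ := h
  refine ⟨C, h0, fun Q h1 h2 => ?_⟩
  let ε := Equiv.sumCongr e e
  have h3 : PD (Q.submatrix ε ε) := ⟨by rw [transpose_submatrix, h1.symm], fun x hx => by
    rw [submatrix_mulVec_equiv, ← comp_equiv_symm_dotProduct]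
    exact h1.pos _ fun k => hx (funext fun a => by simpa using congrFun k (ε a))⟩
  obtain ⟨γ, h4, h5⟩ := hC _ h3 (mem_sub e h2)
  refine ⟨_, mem_sub e.symm h4, fun i => ?_⟩
  convert h5 (e.symm i) using 1
  rw [conj_apply, conj_apply, submatrix_mulVec_equiv, ← comp_equiv_symm_dotProduct]
  rfl

theorem R_empty : R PEmpty := fun {_} => ⟨1, one_pos, fun _ _ _ => ⟨1, one_mem _, fun i => i.elim⟩⟩

section

variable {κ : Type} [Fintype κ] [DecidableEq κ] {S : Type} [CommRing S]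

theorem om_eq (u v : κ ⊕ κ → S) :
    u ⬝ᵥ J κ S *ᵥ v = ∑ i, (u (.inr i) * v (.inl i) - u (.inl i) * v (.inr i)) := by
  rw [J, fromBlocks_mulVec]
  simp [dotProduct, neg_mulVec, add_comm, sub_eq_add_neg, Finset.sum_add_distrib]

theorem om_res (u v : Option κ ⊕ Option κ → S) :
    u ⬝ᵥ J (Option κ) S *ᵥ v = (u ∘ Sum.map some some) ⬝ᵥ J κ S *ᵥ (v ∘ Sum.map some some) +
      (u (.inr none) * v (.inl none) - u (.inl none) * v (.inr none)) := by
  rw [om_eq, om_eq, Fintype.sum_option, add_comm]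
  rfl

theorem mem_rows {A : Matrix (κ ⊕ κ) (κ ⊕ κ) S} :
    A ∈ symplecticGroup κ S ↔ ∀ a b, A a ⬝ᵥ J κ S *ᵥ A b = J κ S a b := by
  simp only [SymplecticGroup.mem_iff, ← conj_apply, ← Matrix.ext_iff]

/-- a vector from its three parts -/
def vec (p r : S) (w : κ ⊕ κ → S) : Option κ ⊕ Option κ → S :=
  Sum.elim (fun o => o.elim p fun i => w (.inl i)) fun o => o.elim r fun i => w (.inr i)

omit [Fintype κ] [DecidableEq κ] [CommRing S] in
theorem vec_comp (p r : S) (w : κ ⊕ κ → S) : vec p r w ∘ Sum.map some some = w := by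
  ext (i | i) <;> rfl

theorem om_vec (p r p' r' : S) (w w' : κ ⊕ κ → S) :
    vec p r w ⬝ᵥ J (Option κ) S *ᵥ vec p' r' w' = w ⬝ᵥ J κ S *ᵥ w' + (r * p' - p * r') := by
  rw [om_res, vec_comp, vec_comp]
  rfl

/-- the embedded matrix, followed by a unipotent substitution -/
def lift (γ : Matrix (κ ⊕ κ) (κ ⊕ κ) ℤ) (n : κ → ℤ) :
    Matrix (Option κ ⊕ Option κ) (Option κ ⊕ Option κ) ℤ :=
  Matrix.of (Sum.elim
    (fun o => o.elim (vec 1 0 (Sum.elim (-n) 0 ᵥ* γ)) fun i => vec 0 0 (Pi.single (.inl i) 1 ᵥ* γ))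
    fun o => o.elim (vec 0 1 (0 ᵥ* γ)) fun i => vec 0 (n i) (Pi.single (.inr i) 1 ᵥ* γ))

theorem lift_mem {γ : Matrix (κ ⊕ κ) (κ ⊕ κ) ℤ} (h : γ ∈ symplecticGroup κ ℤ) (n : κ → ℤ) :
    lift γ n ∈ symplecticGroup (Option κ) ℤ := by
  rw [SymplecticGroup.mem_iff] at h
  refine mem_rows.2 ?_
  rintro ((_ | a) | (_ | a)) ((_ | b) | (_ | b)) <;>
    (change vec _ _ _ ⬝ᵥ _ *ᵥ vec _ _ _ = _; rw [om_vec, ← conj_form, h, om_eq]) <;>
    simp [J, one_apply, Pi.single_apply, eq_comm]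

theorem step {Q : Matrix (Option κ ⊕ Option κ) (Option κ ⊕ Option κ) ℝ} (h1 : PD Q)
    (h2 : Q ∈ symplecticGroup (Option κ) ℝ) {C : ℝ}
    (hC : ∀ Q : Matrix (κ ⊕ κ) (κ ⊕ κ) ℝ, PD Q → Q ∈ symplecticGroup κ ℝ →
      ∃ γ ∈ symplecticGroup κ ℤ, ∀ i, (zR γ * Q * (zR γ)ᵀ) (.inr i) (.inr i) ≤ C) :
    ∃ γ ∈ symplecticGroup (Option κ) ℤ,
      (zR γ * Q * (zR γ)ᵀ) (.inr none) (.inr none) = Q (.inr none) (.inr none) ∧
      ∀ i, (zR γ * Q * (zR γ)ᵀ) (.inr (some i)) (.inr (some i)) ≤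
        C + Q (.inr none) (.inr none) / 4 := by
  let e : Option κ ⊕ Option κ → ℝ := Pi.single (.inr none) 1
  have he : e ⬝ᵥ Q *ᵥ e = Q (.inr none) (.inr none) := by simp [e]
  have hm : 0 < Q (.inr none) (.inr none) := he ▸ h1.pos e (by simp [e])
  generalize hmm : Q (.inr none) (.inr none) = m at he hm ⊢
  let t : κ ⊕ κ → ℝ := fun a => Q (Sum.map some some a) (.inr none) / m
  let A : Matrix (κ ⊕ κ) (Option κ ⊕ Option κ) ℝ := of fun a => vec 0 (-t a) (Pi.single a 1)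
  have hA : ∀ w : κ ⊕ κ → ℝ, w ᵥ* A = vec 0 (-(w ⬝ᵥ t)) w := fun w => by
    ext ((_ | b) | (_ | b)) <;> simp [A, vec, vecMul, dotProduct, Pi.single_apply]
  have hdot : ∀ (r : ℝ) (w : κ ⊕ κ → ℝ) (u : Option κ ⊕ Option κ → ℝ), vec 0 r w ⬝ᵥ u =
      r * u (.inr none) + w ⬝ᵥ (u ∘ Sum.map some some) := fun r w u => by
    simp [vec, dotProduct, Fintype.sum_option]
    ring
  have hQe : Q *ᵥ e = fun a => Q a (.inr none) := by
    ext a
    simp [e]
  have horth : ∀ w : κ ⊕ κ → ℝ, (w ᵥ* A) ⬝ᵥ Q *ᵥ e = 0 := fun w => by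
    rw [hA, hdot, hQe]
    simp only [hmm, dotProduct, t, Function.comp, ← mul_div_assoc, ← Finset.sum_div]
    field_simp
    ring
  have h3 : PD (A * Q * Aᵀ) := h1.conj fun x hx => by
    rw [← vec_comp 0 _ x, ← hA, hx]
    rfl
  have h4 : A * Q * Aᵀ ∈ symplecticGroup κ ℝ := by
    have k1 : ∀ a, (A * Q) a (.inr none) = 0 := fun a => by
      have := horth (Pi.single a 1)
      rwa [single_one_vecMul, hQe] at this
    have k2 : ∀ a, (A * Q * Aᵀ) a = (A * Q) a ∘ Sum.map some some := fun a => by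
      ext b
      change (A * Q) a ⬝ᵥ vec 0 (-t b) (Pi.single b 1) = _
      rw [dotProduct_comm, hdot, k1]
      simp
    refine mem_rows.2 fun a b => ?_
    have k3 := om_res ((A * Q) a) ((A * Q) b)
    rw [k1, k1, ← conj_apply, transpose_mul, ← Matrix.mul_assoc, Matrix.mul_assoc A,
      Matrix.mul_assoc A, SymplecticGroup.mem_iff.1 h2, conj_apply] at k3
    have k4 := om_vec 0 (-t a) 0 (-t b) (Pi.single a 1) (Pi.single b 1)
    rw [k2, k2]
    simp only [mul_zero, zero_mul, sub_zero, add_zero] at k3 k4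
    rw [← k3]
    exact k4.trans (by simp)
  obtain ⟨γ, h5, h6⟩ := hC _ h3 h4
  refine ⟨_, lift_mem h5 fun i => round (-(zR γ (.inr i) ⬝ᵥ t)), ?_, fun i => ?_⟩
  · rw [conj_apply, ← he]
    congr 2 <;> (ext ((_ | b) | (_ | b)) <;> simp [zR, lift, vec, e])
  · have h7 := h6 i
    rw [conj_apply, conj_form] at h7
    rw [conj_apply]
    generalize hw : zR γ (.inr i) = w at h7
    have h8 : zR (lift γ fun i => round (-(zR γ (.inr i) ⬝ᵥ t))) (.inr (some i)) =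
        w ᵥ* A + ((round (-(w ⬝ᵥ t)) : ℝ) - -(w ⬝ᵥ t)) • e := by
      rw [hA, ← hw]
      ext ((_ | b) | (_ | b)) <;> simp [zR, lift, vec, e]
    have h9 := abs_sub_round (-(w ⬝ᵥ t))
    rw [abs_sub_comm] at h9
    rw [h8]
    generalize (round (-(w ⬝ᵥ t)) : ℝ) - -(w ⬝ᵥ t) = d at h9
    simp only [mulVec_add, add_dotProduct, dotProduct_add, mulVec_smul, dotProduct_smul,
      smul_dotProduct, h1.comm e (w ᵥ* A), horth, he, smul_eq_mul]
    have h10 : d * d ≤ 1 / 4 := by nlinarith [abs_le.1 h9]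
    nlinarith

end

theorem R_option (κ : Type) [Fintype κ] (h : R κ) : R (Option κ) := by
  intro inst
  classical
  obtain rfl : inst = Option.instDecidableEq := Subsingleton.elim _ _
  obtain ⟨C, h0, hC⟩ := h
  refine ⟨C + (4 * C + 2), by linarith, fun Q₀ p1 p2 => ?_⟩
  obtain ⟨γ₀, p3, p4⟩ := exists_min p1 (.inr none)
  have key : ∀ γ : Matrix (Option κ ⊕ Option κ) (Option κ ⊕ Option κ) ℤ,
      zR (γ * γ₀) * Q₀ * (zR (γ * γ₀))ᵀ = zR γ * (zR γ₀ * Q₀ * (zR γ₀)ᵀ) * (zR γ)ᵀ := fun γ => by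
    simp only [zR_mul, transpose_mul, Matrix.mul_assoc]
  have h1 := p1.conj (sp_inj (zR_mem p3))
  have h2 := conj_mem (zR_mem p3) p2
  have h3 := fun γ hγ => key γ ▸ p4 (γ * γ₀) (mul_mem hγ p3)
  generalize zR γ₀ * Q₀ * (zR γ₀)ᵀ = Q at key h1 h2 h3
  obtain ⟨γ, h4, h5, h6⟩ := step h1 h2 hC
  have hm : 0 < Q (.inr none) (.inr none) := by
    simpa using h1.pos (Pi.single (.inr none) 1) (by simp)
  have h7 : Q (.inr none) (.inr none) ≤ 4 * C + 2 := by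
    rcases em' (Nonempty κ) with hκ | ⟨⟨i⟩⟩
    · have k1 := mem_rows.1 h2 (.inl none) (.inr none)
      have k2 : Q (.inr none) (.inl none) = Q (.inl none) (.inr none) :=
        congrFun (congrFun h1.symm (.inl none)) (.inr none)
      rw [om_res, om_eq, Finset.sum_eq_zero fun i _ => (hκ ⟨i⟩).elim, k2] at k1
      simp only [J, fromBlocks_apply₁₂, Matrix.neg_apply, one_apply_eq, zero_add] at k1
      let x := Q (.inl none) (.inr none) / Q (.inr none) (.inr none)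
      have k3 := h3 (fromBlocks 0 (-1) 1 (diagonal fun _ => round (-x)))
        (SymplecticGroup.fromBlocks_mem_iff.2 (by simp))
      have k0 : zR (fromBlocks 0 (-1) 1 (diagonal fun _ => round (-x)) :
          Matrix (Option κ ⊕ Option κ) (Option κ ⊕ Option κ) ℤ) (.inr none) =
          Pi.single (.inl none) 1 + (round (-x) : ℝ) • Pi.single (.inr none) 1 := by
        ext ((_ | b) | (_ | b)) <;> simp [zR]
      rw [conj_apply, k0] at k3
      simp only [mulVec_add, add_dotProduct, dotProduct_add, mulVec_smul, dotProduct_smul,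
        smul_dotProduct, smul_eq_mul, mulVec_single_one, single_dotProduct, one_mul, col_apply,
        k2] at k3
      have k4 := abs_le.1 (abs_sub_round (-x))
      have k5 : Q (.inl none) (.inr none) = x * Q (.inr none) (.inr none) := by
        simp only [x]
        field_simp
      rw [k5] at k1 k3
      generalize Q (.inr none) (.inr none) = m at *
      generalize (round (-x) : ℝ) = n at *
      have k6 : (n + x) ^ 2 ≤ 1 / 4 := by nlinarith
      have k7 : m * m ≤ 2 * (1 + (n + x) ^ 2 * (m * m)) := by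
        have := mul_le_mul_of_nonneg_left k3 hm.le
        nlinarith
      have k8 : m * m ≤ 4 := by nlinarith
      nlinarith
    · let ε := Equiv.sumCongr (Equiv.swap none (some i)) (Equiv.swap none (some i))
      have k1 := h3 (γ.submatrix ε id) (mem_rows.2 fun a b =>
        (mem_rows.1 h4 (ε a) (ε b)).trans (congrFun (congrFun (J_sub _ ℤ) a) b))
      have k2 := h6 i
      rw [conj_apply] at k1 k2
      have k3 : zR (γ.submatrix ε id) (.inr none) = zR γ (.inr (some i)) := by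
        ext b
        simp [zR, ε]
      rw [k3] at k1
      linarith
  refine ⟨γ * γ₀, mul_mem h4 p3, ?_⟩
  rw [key]
  rintro (_ | i)
  · linarith
  · linarith [h6 i]

theorem R_all (κ : Type) [Fintype κ] : R κ :=
  Fintype.induction_empty_option (P := R) (fun α β _ e h => @R_equiv α β (_) _ e h) R_empty
    R_option κ

section

variable {κ : Type} [Fintype κ] [DecidableEq κ]

/-- integral matrices as rational matrices -/
def zQ {ι ι' : Type} (γ : Matrix ι ι' ℤ) : Matrix ι ι' ℚ := γ.map (Int.castRingHom ℚ)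

theorem zQ_sp {γ : Matrix (κ ⊕ κ) (κ ⊕ κ) ℤ} (h : γ ∈ symplecticGroup κ ℤ) : Sp (zQ γ) :=
  SymplecticGroup.map_mem h _

omit [Fintype κ] in
theorem zQ_cong (γ : Matrix (κ ⊕ κ) (κ ⊕ κ) ℤ) : Cong 1 (zQ γ) := fun a b =>
  ⟨γ a b - (1 : Matrix _ _ ℤ) a b, by by_cases h : a = b <;> simp [zQ, one_apply, h]⟩

/-- real matrices as complex matrices -/
def rC : Matrix κ κ ℝ →+* Matrix κ κ ℂ := Complex.ofRealHom.mapMatrix

theorem rC_apply (A : Matrix κ κ ℝ) (i j : κ) : rC A i j = A i j := rfl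

theorem rC_conj (A : Matrix κ κ ℝ) : (rC A)ᴴ = rC Aᵀ := by
  ext i j
  simp [rC_apply]

omit [DecidableEq κ] in
theorem pd_of {Y : Matrix κ κ ℝ} (h : Y.PosDef) : PD Y :=
  ⟨h.isHermitian, fun _ hx => h.dotProduct_mulVec_pos hx⟩

theorem big_of {Y P : Matrix κ κ ℝ} (h : PD Y) (hP : Y * P = 1) {C : ℝ} (h0 : 0 < C)
    (hC : ∀ i, P i i ≤ C) (x : κ → ℝ) :
    1 / (C * (Fintype.card κ + 1)) * (x ⬝ᵥ x) ≤ x ⬝ᵥ Y *ᵥ x := by
  have h1 : ∀ i, x i * x i ≤ C * (x ⬝ᵥ Y *ᵥ x) := fun i => by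
    have h2 : Y *ᵥ (P *ᵥ Pi.single i 1) = Pi.single i 1 := by rw [mulVec_mulVec, hP, one_mulVec]
    have h3 := h.nonneg (C • x - x i • (P *ᵥ Pi.single i 1))
    simp only [mulVec_sub, sub_dotProduct, dotProduct_sub, mulVec_smul, smul_dotProduct,
      dotProduct_smul, h.comm (P *ᵥ Pi.single i 1) x, h2, smul_eq_mul] at h3
    simp only [dotProduct_single, mul_one, mulVec_single_one, col_apply] at h3
    have h4 := mul_le_mul_of_nonneg_left (hC i) (mul_self_nonneg (x i))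
    refine le_of_mul_le_mul_left ?_ h0
    nlinarith
  have h2 : x ⬝ᵥ x ≤ Fintype.card κ * (C * (x ⬝ᵥ Y *ᵥ x)) := by
    simpa [dotProduct] using Finset.sum_le_sum fun i (_ : i ∈ Finset.univ) => h1 i
  have h3 := mul_nonneg h0.le (h.nonneg x)
  rw [div_mul_eq_mul_div, one_mul, div_le_iff₀ (by positivity)]
  nlinarith

theorem core (hC : Act κ) : ∃ c : ℝ, 0 < c ∧ ∀ τ : Matrix κ κ ℂ, InH τ →
    ∃ γ ∈ symplecticGroup κ ℤ, Big c (act (zQ γ) τ) := by
  obtain ⟨C, h0, hR⟩ := R_all κ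
  refine ⟨1 / (C * (Fintype.card κ + 1)), by positivity, fun τ hτ => ?_⟩
  have hY := pd_of hτ.2
  have hP := pd_of hτ.2.inv
  have hYP : imM τ * (imM τ)⁻¹ = 1 := mul_nonsing_inv _ ((isUnit_iff_isUnit_det _).1 hτ.2.isUnit)
  have hI : imC τ = rC (imM τ) := rfl
  obtain ⟨X, hX, hτX⟩ : ∃ X : Matrix κ κ ℝ, Xᵀ = X ∧ τ = rC X + I • rC (imM τ) :=
    ⟨τ.map Complex.re, by rw [← transpose_map, hτ.1], by
      ext i j
      simp [rC_apply, imM, mul_comm I]⟩
  generalize imM τ = Y at *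
  generalize Y⁻¹ = P at *
  have n1 : fromBlocks 1 X 0 1 ∈ symplecticGroup κ ℝ :=
    SymplecticGroup.fromBlocks_mem_iff.2 (by simp [hX])
  have n2 : fromBlocks Y 0 0 P ∈ symplecticGroup κ ℝ :=
    SymplecticGroup.fromBlocks_mem_iff.2 (by simp [hY.symm, hYP])
  have n3 : PD (fromBlocks Y 0 0 P) := ⟨by simp [fromBlocks_transpose, hY.symm, hP.symm],
    fun x hx => by
      rw [← Sum.elim_comp_inl_inr x, fromBlocks_mulVec, sumElim_dotProduct_sumElim]
      simp only [zero_mulVec, add_zero, zero_add, Sum.elim_comp_inl, Sum.elim_comp_inr]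
      by_cases h : x ∘ Sum.inl = 0
      · exact add_pos_of_nonneg_of_pos (hY.nonneg _) (hP.pos _ fun k => hx (by
          rw [← Sum.elim_comp_inl_inr x, h, k, Sum.elim_zero_zero]))
      · exact add_pos_of_pos_of_nonneg (hY.pos _ h) (hP.nonneg _)⟩
  obtain ⟨γ, h1, h2⟩ := hR _ (n3.conj (sp_inj n1)) (conj_mem n1 n2)
  refine ⟨γ, h1, ?_⟩
  have hs := zQ_sp h1
  obtain ⟨k1, k2⟩ := hC.left _ (per τ) hs
  obtain ⟨-, k3, -, k4⟩ := hC.riem _ (k2 (hC.riemPer τ hτ))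
  have k5 := (hC.riem _ (hC.riemPer τ hτ)).2.2.2
  rw [k1, k5, hC.tauPer, hI] at k4
  change InH (act (zQ γ) τ) at k3
  change _ = (2 : ℂ) • ((kk (zQ γ) τ)ᴴ * rC (imM (act (zQ γ) τ)) * kk (zQ γ) τ) at k4
  unfold Big
  have hY' := pd_of k3.2
  generalize imM (act (zQ γ) τ) = Y' at *
  obtain ⟨A, B, Cm, D, hγ⟩ : ∃ A B Cm D, zR γ = fromBlocks A B Cm D :=
    ⟨_, _, _, _, (fromBlocks_toBlocks _).symm⟩
  have hK : kk (zQ γ) τ = rC (Cm * X + D) + I • rC (Cm * Y) := by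
    have e1 : cM (zQ γ) = fromBlocks (rC A) (rC B) (rC Cm) (rC D) := by
      have e2 : cM (zQ γ) = (zR γ).map ((↑) : ℝ → ℂ) := by
        ext a b
        simp [cM, zQ, zR]
      rw [e2, hγ, fromBlocks_map]
      rfl
    rw [kk, e1, per, fromBlocks_mul_fromRows, toRows₂_fromRows, hτX]
    simp only [map_add, map_mul, mul_add, Matrix.mul_smul, mul_one]
    abel
  have k6 : (kk (zQ γ) τ)ᴴ * (rC Y' * kk (zQ γ) τ * rC P) = 1 := by
    have := smul_right_injective _ (two_ne_zero' ℂ) k4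
    rw [← Matrix.mul_assoc, ← Matrix.mul_assoc, ← this, per, toRows₂_fromRows, conjTranspose_one,
      one_mul, mul_one, ← map_mul, hYP, map_one]
  have k7 := mul_eq_one_comm.1 k6
  rw [hK, conjTranspose_add, conjTranspose_smul, rC_conj, rC_conj] at k7
  generalize hU : Cm * X + D = U at k7
  generalize hV : Cm * Y = V at k7
  have k8 : Y' * (U * P * Uᵀ + V * P * Vᵀ) = 1 := by
    have e1 : rC (Y' * (U * P * Uᵀ + V * P * Vᵀ)) + I • rC (Y' * (V * P * Uᵀ - U * P * Vᵀ)) = 1 := by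
      rw [← k7]
      simp only [map_add, map_mul, map_sub, mul_add, add_mul, mul_sub, Matrix.mul_smul,
        Matrix.smul_mul, smul_smul, star_def, conj_I, smul_sub, Matrix.mul_assoc, neg_mul, I_mul_I,
        neg_neg, one_smul]
      module
    generalize Y' * (U * P * Uᵀ + V * P * Vᵀ) = G at e1
    generalize Y' * (V * P * Uᵀ - U * P * Vᵀ) = H at e1
    ext i j
    have := congrArg Complex.re (congrFun (congrFun e1 i) j)
    by_cases h : i = j <;> simpa [rC_apply, one_apply, h] using this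
  refine big_of hY' k8 h0 fun i => ?_
  convert h2 i using 1
  rw [hγ, ← hU, ← hV]
  have e2 : ∀ Z : Matrix κ κ ℝ, P * (Y * Z) = Z := fun Z => by
    rw [← Matrix.mul_assoc, mul_eq_one_comm.1 hYP, one_mul]
  simp only [fromBlocks_transpose, fromBlocks_multiply, fromBlocks_apply₂₂, transpose_mul, hY.symm,
    transpose_add, transpose_one, transpose_zero, mul_add, add_mul, Matrix.mul_assoc, e2, one_mul,
    mul_one, zero_mul, mul_zero, add_zero, zero_add, Matrix.add_apply]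
  ring

end

end RedA

open RedA

theorem red (hC : All Act) : All Red := by
  intro κ _ _
  obtain ⟨c, h0, h⟩ := core (hC κ)
  refine ⟨c, h0, fun τ hτ => ?_⟩
  obtain ⟨γ, h1, h2⟩ := h τ hτ
  let g : symplecticGroup κ ℤ := ⟨γ, h1⟩
  refine ⟨zQ (g⁻¹).1, _, zQ_sp (g⁻¹).2, zQ_cong _, ((hC κ).inH _ _ (zQ_sp h1) hτ).1, h2, ?_⟩
  have h3 : zQ (g⁻¹).1 * zQ γ = 1 := by
    have h4 : (g⁻¹).1 * γ = 1 := congrArg Subtype.val (inv_mul_cancel g)
    rw [zQ, zQ, ← Matrix.map_mul, h4, Matrix.map_one _ (map_zero _) (map_one _)]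
  rw [← ((hC κ).mul _ _ _ (zQ_sp (g⁻¹).2) (zQ_sp h1) hτ).1, h3, ((hC κ).one τ).1]

theorem short (hC : All Act) (_hR : All Red) : All Short := by
  intro κ _ _ ⟨i⟩
  have hA := hC κ
  obtain ⟨c, h0, h⟩ := core hA
  refine ⟨1 / (2 * c), fun S hS => ?_⟩
  obtain ⟨h1, h2, h3, -⟩ := hA.riem S hS
  obtain ⟨γ, h4, h5⟩ := h _ h2
  refine ⟨γ (.inr i), row_ne h4 _, fun ρ => ?_⟩
  obtain ⟨k1, k2⟩ := hA.left _ S (zQ_sp h4)
  obtain ⟨-, -, -, k3⟩ := hA.riem _ (k2 hS)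
  have k4 := (hA.sig _ S _ 1 (zQ_sp h4) hS (k2 hS) (Matrix.mul_one _).symm).1
  rw [k1, ← k4] at k3
  have k5 : ((fun a => (γ (.inr i) a : ℂ)) ᵥ* S) ρ = (cM (zQ γ) * S).toRows₂ i ρ := by
    simp [vecMul, dotProduct, mul_apply, cM, zQ]
  rw [k5, k3]
  generalize (cM (zQ γ) * S).toRows₂ = R
  generalize act (zQ γ) (tauOf S) = τ at h5
  have k6 : (((2 : ℂ) • (Rᴴ * imC τ * R)) ρ ρ).re =
      2 * ((fun j => (R j ρ).re) ⬝ᵥ imM τ *ᵥ (fun j => (R j ρ).re) +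
        (fun j => (R j ρ).im) ⬝ᵥ imM τ *ᵥ fun j => (R j ρ).im) := by
    simp only [Matrix.smul_apply, mul_apply, conjTranspose_apply, imC, imM, map_apply, dotProduct,
      mulVec, Finset.sum_mul, Finset.mul_sum, smul_eq_mul, re_sum, ← Finset.sum_add_distrib]
    rw [Finset.sum_comm]
    refine Finset.sum_congr rfl fun a _ => Finset.sum_congr rfl fun b _ => ?_
    simp
    ring
  have k7 := h5 fun j => (R j ρ).re
  have k8 := h5 fun j => (R j ρ).im
  have k9 : ∀ x : κ → ℝ, x i * x i ≤ x ⬝ᵥ x := fun x =>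
    Finset.single_le_sum (f := fun j => x j * x j) (fun j _ => mul_self_nonneg _) (Finset.mem_univ i)
  have l1 := mul_le_mul_of_nonneg_left (k9 fun j => (R j ρ).re) h0.le
  have l2 := mul_le_mul_of_nonneg_left (k9 fun j => (R j ρ).im) h0.le
  rw [k6, Complex.sq_norm, normSq_apply, div_mul_eq_mul_div, le_div_iff₀ (by positivity)]
  nlinarith

end

end Pool.Agent.GAM
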