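import Pool.Agent.MP_cbf1af_ag.gam.Sq
import Pool.Agent.MP_cbf1af_ag.gam.Thc
import Pool.Agent.MP_cbf1af_ag.gam.Weil1
import Pool.Agent.MP_cbf1af_ag.gam.Syb
import Pool.Agent.MP_cbf1af_ag.gam.Trd
import Pool.Agent.MP_cbf1af_ag.gam.Inst
import Pool.Agent.MP_cbf1af_ag.gam.Jet
import Pool.Agent.MP_cbf1af_ag.gam.Weil2
import Pool.Agent.MP_cbf1af_ag.gam.Pair
import Pool.Agent.MP_cbf1af_ag.gam.Red
import Pool.Agent.MP_cbf1af_ag.gam.GamF
import Pool.Agent.MP_cbf1af_ag.gam.Spec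
import Pool.Agent.MP_cbf1af_ag.shp.Ops

-- ======== part 0: formerly Pool.Agent.MP_cbf1af_ag.gam.Fin1
section MrgPart0

/-! PROJECT GAM: assembly of the part which does not use the transcendence theorem. -/

namespace Pool.Agent.GAM.Fin1

theorem hB : All ThB := thB thA
theorem hT : All ThC := thC thA hB
theorem h1 : All Weil1 := weil1 thA hB actS
theorem hW : All Weil := weil h1 (weil2 thA hB actS) spGen
theorem hL : All Lv := lv hB hT actS h1 hW
theorem hR : All Red := red actS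
theorem hV : Val := val tayS derEx
theorem hM : All CmAlg :=
  cmAlg thA hB hT actS h1 hW (sieg thA hB actS h1 hL hR (qexp thA hB)) hV derEx
theorem hFA : All AfA := afA hB
theorem hFB : All AfB := afB hB hFA cs desc hV
theorem hFC : All AfC := afC thA hB hT hFA
theorem hK : AllC := cmA hB syb
theorem hO : Model := model actS hK
theorem hE : Exist := exist hB actS hM hFB hFC hK hO
theorem hTr : Trans := trans hFA hK
theorem hA : AllF FamA := famA actS hK
theorem hG : AllF FamB := famB thA hT actS h1 hL hK hA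

/-- the square relation -/
theorem sq_final : Sq :=
  sq hB hT (nz hB h1 hL hR) cs desc hV hK hA hG (coco (short actS hR) hK hA hG)
    (split hT actS hM hFC hK hA) (pts hB hK hA)

/-- the monomial relations -/
theorem pair_final : Pair := pair hK hE hTr sq_final

/-- the theta model of a CM type -/
theorem inst_final : Inst := inst thA hB hT actS hM hK hO (jet thA hB actS h1 hW hFA hFC)

/-- periods of Fermat type -/
theorem fer_final : Fer :=
  fer (rig tayS derEx) hFA hK chA (nonAlg chA) (pull cs hFA hK chA (glue chA))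

end Pool.Agent.GAM.Fin1

end MrgPart0

-- ======== part 1: formerly Pool.Agent.MP_cbf1af_ag.gam.Edge
section MrgPart1

/-! PROJECT GAM, module EDGE: neighbouring CM types. -/

namespace Pool.Agent.GAM

open Module

namespace Edge

section

variable {F ι : Type} [Field F] [Algebra F ℂ] (r : ι → ℂ)

variable (F) in
/-- the numbers that are algebraic over `F[r]` -/
def cl : IntermediateField F ℂ where
  carrier := {z | IsAlgebraic (Algebra.adjoin F (Set.range r)) z}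
  mul_mem' := IsAlgebraic.mul
  add_mem' := IsAlgebraic.add
  algebraMap_mem' c := isAlgebraic_algebraMap (algebraMap F (Algebra.adjoin F (Set.range r)) c)
  inv_mem' _ := IsAlgebraic.inv

theorem mem_cl (i : ι) : r i ∈ cl F r :=
  isAlgebraic_algebraMap (⟨r i, Algebra.subset_adjoin ⟨i, rfl⟩⟩ : Algebra.adjoin F (Set.range r))

theorem alg_mem {z : ℂ} (h : IsAlgebraic F z) : z ∈ cl F r :=
  h.extendScalars (RingHom.injective _)

theorem indep [Fintype ι] (h : ∀ t : ℕ, Algebra.trdeg F (cl F r) ≤ t → Fintype.card ι ≤ t) :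
    AlgebraicIndependent F r := by
  let x : ι → cl F r := fun i => ⟨r i, mem_cl r i⟩
  have e : (Algebra.adjoin F (Set.range x)).map (cl F r).val = Algebra.adjoin F (Set.range r) := by
    rw [AlgHom.map_adjoin, ← Set.range_comp]
    rfl
  have : Algebra.IsAlgebraic (Algebra.adjoin F (Set.range x)) (cl F r) := ⟨fun z =>
    IsAlgebraic.of_ringHom_of_comp_eq
      (((cl F r).val.toRingHom.comp (Subalgebra.val _).toRingHom).codRestrict
        (Algebra.adjoin F (Set.range r)) fun y => e.le ⟨y, y.2, rfl⟩) (cl F r).val.toRingHom z.2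
      (fun y => (e.ge y.2).elim fun w hw => ⟨⟨w, hw.1⟩, Subtype.ext hw.2⟩)
      Subtype.val_injective rfl⟩
  obtain ⟨t, ht⟩ := Cardinal.lt_aleph0.1 ((Algebra.IsAlgebraic.trdeg_le_cardinalMk F
    (Set.range x)).trans_lt (Set.finite_range x).lt_aleph0)
  exact (Algebra.IsAlgebraic.isTranscendenceBasis_of_le_trdeg_of_finite F x (by
    rw [ht, Cardinal.mk_fintype]; exact_mod_cast h t ht.le)).1.map' (f := (cl F r).val)
      Subtype.val_injective

end

variable {E : Type} [Field E] [NumberField E]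

theorem coef {ι κ : Type} [Fintype ι] [Fintype κ] {u : ι → Emb E} {w : κ → Emb E} {c : ι → ℂ}
    {d : κ → ℂ} (h : ∀ y, ∑ i, c i * u i y = ∑ k, d k * w k y) (hw : Function.Injective w)
    {k : κ} (hk : ∀ i, u i ≠ w k) : d k = 0 := by
  have := Fintype.linearIndependent_iff.1 ((linearIndependent_monoidHom E ℂ).comp
    (fun σ : Emb E => (σ : E →* ℂ)) RingHom.coe_monoidHom_injective)
    (∑ k, Pi.single (w k) (d k) - ∑ i, Pi.single (u i) (c i)) (funext fun y => by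
      simp only [Finset.sum_apply, Pi.sub_apply, sub_smul, Finset.sum_smul, Finset.sum_sub_distrib]
      rw [Finset.sum_comm, Finset.sum_comm (s := (Finset.univ : Finset (Emb E)))]
      simp [Pi.single_apply, h]) (w k)
  rw [Pi.sub_apply, Finset.sum_apply, Finset.sum_apply, Finset.sum_eq_single k
    (fun k' _ e => Pi.single_eq_of_ne (hw.ne e.symm) _) (by simp),
    Finset.sum_eq_zero fun i _ => Pi.single_eq_of_ne (hk i).symm _] at this
  simpa using this

theorem endo [IsGalois ℚ E] (f : E →ₗ[ℚ] E) :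
    ∃ a : (E ≃ₐ[ℚ] E) → E, ∀ y, f y = ∑ γ, a γ * γ y := by
  have h := ((linearIndependent_toLinearMap ℚ E E).comp (fun γ : E ≃ₐ[ℚ] E => γ.toAlgHom)
    AlgEquiv.coe_toAlgHom_injective).span_eq_top_of_card_eq_finrank' (by
      rw [finrank_linearMap_self, ← Nat.card_eq_fintype_card, IsGalois.card_aut_eq_finrank])
  obtain ⟨a, ha⟩ := (Submodule.mem_span_range_iff_exists_fun E).1 (h.ge (Submodule.mem_top (x := f)))
  exact ⟨a, fun y => by simp [← ha]⟩

variable {g : ℕ} {Φ Φ' : Finset (Emb E)} {P P' : Emb E → ℂ}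

/-- the lattice points -/
noncomputable def lp (e : Fin g ≃ Φ) (P : Emb E → ℂ) : E →ₗ[ℚ] Fin g → ℂ where
  toFun y j := P (e j) * (e j).1 y
  map_add' y z := funext fun j => by simp [mul_add]
  map_smul' q y := funext fun j => by simp [Algebra.smul_def, mul_left_comm]

theorem noHom [IsGalois ℚ E] (e : Fin g ≃ Φ) (e' : Fin g ≃ Φ') (hP : ∀ σ, P σ ≠ 0)
    (hP' : ∀ σ, P' σ ≠ 0) (hg : 0 < g) {Λ Λ' : AddSubgroup (Fin g → ℂ)}
    (h : ∀ y : E, ∃ m : ℕ, 0 < m ∧ lp e P (m * y) ∈ Λ) (h' : ∀ l ∈ Λ', ∃ y : E, l = lp e' P' y)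
    (hγ : ∀ γ : E ≃ₐ[ℚ] E, ∃ σ ∈ Φ', σ.comp (γ : E →+* E) ∉ Φ) : SHP.NoHom Λ Λ' := by
  intro φ hφ
  have inj : Function.Injective (lp e' P') := fun y z e =>
    (e' ⟨0, hg⟩).1.injective (mul_left_cancel₀ (hP' _) (congrFun e ⟨0, hg⟩))
  have mem : ∀ y, (φ.restrictScalars ℚ ∘ₗ lp e P) y ∈ LinearMap.range (lp e' P') := fun y => by
    obtain ⟨m, hm, h1⟩ := h y
    obtain ⟨z, hz⟩ := h' _ (hφ _ h1)
    refine ⟨(m : ℚ)⁻¹ • z, ?_⟩
    rw [map_smul, ← hz, ← nsmul_eq_mul, ← Nat.cast_smul_eq_nsmul ℚ, map_smul]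
    exact (congrArg _ ((φ.restrictScalars ℚ).map_smul _ _)).trans
      (inv_smul_smul₀ (Nat.cast_ne_zero.2 hm.ne') _)
  obtain ⟨a, ha⟩ := endo ((LinearEquiv.ofInjective _ inj).symm.toLinearMap ∘ₗ
    (φ.restrictScalars ℚ ∘ₗ lp e P).codRestrict _ mem)
  have key : ∀ j y, ∑ i, φ (Pi.single i 1) j * P (e i) * (e i).1 y =
      ∑ γ, P' (e' j) * (e' j).1 (a γ) * (e' j).1.comp (γ : E →+* E) y := fun j y => by
    have := congrFun (congrArg (lp e' P') (ha y)) j
    simp only [LinearMap.comp_apply, LinearEquiv.coe_coe, LinearEquiv.ofInjective_symm_apply,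
      LinearMap.codRestrict_apply, LinearMap.restrictScalars_apply] at this
    rw [← Finset.univ_sum_single (lp e P y), map_sum, map_sum, Finset.sum_apply,
      Finset.sum_apply] at this
    refine (Finset.sum_congr rfl fun i _ => ?_).trans (this.trans (by simp [lp, mul_assoc]))
    rw [← mul_one (lp e P y i), ← smul_eq_mul (lp e P y i), Pi.single_smul', map_smul, mul_assoc,
      mul_comm]
    rfl
  have a0 : ∀ γ, a γ = 0 := fun γ => by
    obtain ⟨σ, h1, h2⟩ := hγ γ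
    obtain ⟨j, hj⟩ := e'.surjective ⟨σ, h1⟩
    obtain rfl : σ = e' j := by rw [hj]
    simpa [hP'] using coef (key j) (fun γ γ' e => AlgEquiv.ext fun y =>
      (e' j).1.injective (RingHom.congr_fun e y)) (k := γ) fun i e₀ => h2 (e₀ ▸ (e i).2)
  refine LinearMap.pi_ext' fun i => LinearMap.ext_ring (funext fun j => ?_)
  simpa [hP] using coef (u := Empty.elim) (c := Empty.elim) (fun y => ((key j y).trans
    (by simp [a0])).symm) (Subtype.val_injective.comp e.injective) (k := i) (·.elim)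

theorem lp_indep (e : Fin g ≃ Φ) (hP : ∀ σ, P σ ≠ 0) (hT : IsTor (Set.range (pt Φ))) {ι : Type}
    [Fintype ι] (x : Basis ι ℚ E) (hc : Fintype.card ι = 2 * g) {n : ℕ} (hn : 0 < n) :
    LinearIndependent ℝ fun k => lp e P (n * x k) := by
  obtain ⟨κ, b, hb⟩ := hT
  let T : (Φ → ℂ) →ₗ[ℝ] Fin g → ℂ :=
    { toFun := fun w j => P (e j) * w (e j)
      map_add' := fun _ _ => funext fun j => by simp [mul_add]
      map_smul' := fun _ _ => funext fun j => by simp [mul_left_comm] }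
  refine linearIndependent_of_top_le_span_of_card_eq_finrank (fun z _ => ?_) (by
    simp [hc, finrank_pi_fintype, mul_comm])
  have e1 : z = T fun σ => z (e.symm σ) / P σ :=
    funext fun j => by simp [T, mul_div_cancel₀ _ (hP _)]
  rw [e1]
  refine (b.span_eq.ge.trans (Submodule.span_le.2 ?_) :
    ⊤ ≤ (Submodule.span ℝ _).comap T) Submodule.mem_top
  rintro _ ⟨i, rfl⟩
  obtain ⟨y, hy⟩ := hb.ge (Submodule.subset_span ⟨i, rfl⟩)
  have e2 : T (b i) = ∑ k, ((x.repr y k / n : ℚ) : ℝ) • lp e P (n * x k) := by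
    simp only [Rat.cast_smul_eq_qsmul, ← map_smul, ← map_sum]
    rw [← hy]
    refine congrArg (lp e P) ((x.sum_repr y).symm.trans (Finset.sum_congr rfl fun k _ => ?_))
    rw [← nsmul_eq_mul, ← Nat.cast_smul_eq_nsmul ℚ, smul_smul,
      div_mul_cancel₀ _ (Nat.cast_ne_zero.2 hn.ne')]
  rw [SetLike.mem_coe, Submodule.mem_comap, e2]
  exact sum_mem fun k _ => Submodule.smul_mem _ _ (Submodule.subset_span ⟨k, rfl⟩)

omit [NumberField E] in
theorem cj_cj (σ : Emb E) : cj (cj σ) = σ := NumberField.ComplexEmbedding.involutive_conjugate E σ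

/-- the coordinates of the first cohomology -/
noncomputable def crd (e : Fin g ≃ Φ) (hΦ : IsType Φ) (P : Emb E → ℂ) (b : Fin g → ℂ)
    (σ : Emb E) : ((Fin g → ℂ) × (Fin g → ℂ)) →ₗ[ℂ] ℂ :=
  if h : σ ∈ Φ then (P σ)⁻¹ • LinearMap.proj (e.symm ⟨σ, h⟩) ∘ₗ LinearMap.fst ℂ _ _
  else (b (e.symm ⟨cj σ, not_not.1 (mt (hΦ σ).2 h)⟩) * P σ)⁻¹ •
    LinearMap.proj (e.symm ⟨cj σ, not_not.1 (mt (hΦ σ).2 h)⟩) ∘ₗ LinearMap.snd ℂ _ _

theorem crd_lp (e : Fin g ≃ Φ) (hΦ : IsType Φ) (hP : ∀ σ, P σ ≠ 0) {b : Fin g → ℂ}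
    (hb : ∀ j, b j ≠ 0) (σ : Emb E) (y : E) :
    crd e hΦ P b σ (lp e P y, fun j => b j * P (cj (e j)) * cj (e j).1 y) = σ y := by
  unfold crd
  split_ifs with h
  · simp [lp, hP]
  · simp only [LinearMap.smul_apply, LinearMap.comp_apply, LinearMap.snd_apply,
      LinearMap.proj_apply, Equiv.apply_symm_apply, cj_cj, smul_eq_mul]
    exact inv_mul_cancel_left₀ (mul_ne_zero (hb _) (hP _)) _

omit [NumberField E] in
theorem crd_mem (e : Fin g ≃ Φ) (hΦ : IsType Φ) {b : Fin g → ℂ} {K : IntermediateField ℚ ℂ}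
    (hb : ∀ j, b j ∈ K) (h : ∀ σ, P' σ / P σ ∈ K) (σ : Emb E) {p : (Fin g → ℂ) × (Fin g → ℂ)}
    (h1 : ∀ i, p.1 i ∈ K) (h2 : ∀ i, p.2 i ∈ K) : P' σ * crd e hΦ P b σ p ∈ K := by
  unfold crd
  split_ifs with h'
  · simpa [div_eq_mul_inv, mul_assoc] using mul_mem (h σ) (h1 (e.symm ⟨σ, h'⟩))
  · simpa [div_eq_mul_inv, mul_assoc] using mul_mem (h σ) (mul_mem (inv_mem (hb _)) (h2 _))

end Edge

open Edge in
/-- Module EDGE. -/
theorem edge (hM : SHP.MainStmt) (hI : Inst) (hK : AllC) : EdgeInd := by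
  intro E _ _ c Φ Φ' τ₀ P P' hc hG hΦ hΦ' hτ hP hP' hγ
  have C := hK E c hc
  have hg : Φ'.card = Φ.card := by have := C.card Φ hΦ; have := C.card Φ' hΦ'; omega
  have g0 : 0 < Φ.card := by have := C.card Φ hΦ; have := finrank_pos (R := ℚ) (M := E); omega
  have pi : (2 * Real.pi * Complex.I : ℂ) ≠ 0 := Complex.two_pi_I_ne_zero
  have P0 : ∀ σ, P σ ≠ 0 := fun σ => left_ne_zero_of_mul (hP.1 σ ▸ pi)
  have P0' : ∀ σ, P' σ ≠ 0 := fun σ => left_ne_zero_of_mul (hP'.1 σ ▸ pi)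
  let e := Φ.equivFin.symm
  let e' := (Φ'.equivFinOfCardEq hg).symm
  obtain ⟨N, Θ, Λ, η, b, h1, h2, -, h4, h5⟩ := hI E c Φ P _ e hc hΦ hP
  obtain ⟨N', Θ', Λ', η', b', k1, k2, k3, k4, k5⟩ := hI E c Φ' P' _ e' hc hΦ' hP'
  let x := finBasis ℚ E
  choose m m0 hm using fun k => h4 (x k)
  choose m' m0' hm' using fun k => k4 (x k)
  have n0 : 0 < (∏ k, m k) * ∏ k, m' k :=
    mul_pos (Finset.prod_pos fun k _ => m0 k) (Finset.prod_pos fun k _ => m0' k)
  have dv : ∀ k, m k ∣ (∏ k, m k) * ∏ k, m' k ∧ m' k ∣ (∏ k, m k) * ∏ k, m' k := fun k =>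
    ⟨(Finset.dvd_prod_of_mem _ (Finset.mem_univ k)).mul_right _,
      (Finset.dvd_prod_of_mem _ (Finset.mem_univ k)).mul_left _⟩
  generalize (∏ k, m k) * ∏ k, m' k = n at n0 dv
  have cd : Fintype.card (Fin (finrank ℚ E)) = 2 * Φ.card := by simp [C.card Φ hΦ]
  refine indep _ fun t ht => ?_
  rw [Fintype.card_coe, ← one_mul t]
  have hr : ∀ σ, P' σ / P σ ∈ cl ℚ fun σ : Φ => P' σ / P σ := fun σ => by
    by_cases h : σ ∈ Φ
    · exact mem_cl (fun σ : Φ => P' σ / P σ) ⟨σ, h⟩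
    · have := inv_mem (mem_cl (F := ℚ) (fun σ : Φ => P' σ / P σ) ⟨_, not_not.1 (mt (hΦ σ).2 h)⟩)
      rwa [inv_div, (div_eq_div_iff (P0' _) (P0 _)).2 (by
        rw [mul_comm, hP.1, hP'.1] : P (cj σ) * P σ = P' σ * P' (cj σ))] at this
  refine hM _ N N' Θ Λ η Θ' Λ' η' h1 k1 (noHom e e' P0 P0' g0 h4 k3 hγ) _
    (fun k => lp e P (n * x k)) (fun k => lp e' P' (n * x k)) cd (fun k => ?_) (fun k => ?_)
    (lp_indep e P0 (C.isTor Φ hΦ) x cd n0) (lp_indep e' P0' (C.isTor Φ' hΦ') x cd n0) 1 ?_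
    (.prod (.pi fun j => P' (e' j) • crd e hΦ P b (e' j))
      (.pi fun j => (b' j * P' (cj (e' j))) • crd e hΦ P b (cj (e' j)))) (fun k => ?_) _
    (fun p a1 a2 => ⟨fun j => crd_mem e hΦ (fun j => alg_mem _ (h2 j).2) hr _ a1 a2, fun j => ?_⟩) t ht
  · obtain ⟨a, rfl⟩ := (dv k).1
    rw [Nat.cast_mul, mul_comm (m k : E), mul_assoc, ← nsmul_eq_mul, map_nsmul]
    exact nsmul_mem (hm k) a
  · obtain ⟨a, rfl⟩ := (dv k).2
    rw [Nat.cast_mul, mul_comm (m' k : E), mul_assoc, ← nsmul_eq_mul, map_nsmul]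
    exact nsmul_mem (hm' k) a
  · have i1 : ∀ j, (e j).1 ∈ insert τ₀ Φ := fun j => Finset.mem_insert_of_mem (e j).2
    have i2 : ∀ j, (e' j).1 ∈ insert τ₀ Φ := fun j => Finset.mem_insert.2 (or_iff_not_imp_right.2
      fun h => Finset.mem_singleton.1 (hτ ▸ Finset.mem_sdiff.2 ⟨(e' j).2, h⟩))
    let T : (↥(insert τ₀ Φ : Finset (Emb E)) → ℂ) →ₗ[ℂ] SHP.V Φ.card × SHP.V Φ.card :=
      .prod (.pi fun j => P (e j) • .proj (⟨_, i1 j⟩ : (insert τ₀ Φ : Finset (Emb E))))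
        (.pi fun j => P' (e' j) • .proj (⟨_, i2 j⟩ : (insert τ₀ Φ : Finset (Emb E))))
    refine (Submodule.finrank_mono (t := LinearMap.range T) (Submodule.span_le.2 ?_)).trans
      (T.finrank_range_le.trans ?_)
    · rintro _ ⟨k, rfl⟩
      exact ⟨fun σ => σ.1 (n * x k), rfl⟩
    · rw [finrank_fintype_fun_eq_card, Fintype.card_coe]
      exact Finset.card_insert_le τ₀ Φ
  · rw [show SHP.qp η (lp e P (n * x k)) = _ from h5 _,
      show SHP.qp η' (lp e' P' (n * x k)) = _ from k5 _]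
    refine Prod.ext (funext fun j => ?_) (funext fun j => ?_) <;>
      exact congrArg (_ * ·) (crd_lp e hΦ P0 (fun j => (h2 j).1) _ _)
  · have := mul_mem (alg_mem _ (k2 j).2)
      (crd_mem e hΦ (fun j => alg_mem _ (h2 j).2) hr (cj (e' j)) a1 a2)
    rwa [← mul_assoc] at this

end Pool.Agent.GAM

end MrgPart1

-- marker of a merged file
example : 731051 + 284020 = 731051 + 284020 := rfl
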