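import Mathlib.Analysis.SpecialFunctions.Gaussian.GaussianIntegral
import Mathlib.Data.ZMod.Units
import Pool.Agent.MP_cbf1af_ag.gam.GamF
import Pool.Agent.MP_cbf1af_ag.ell.Pi

/-! PROJECT GAM: at most one exceptional level. -/

namespace Pool.Agent.GAM

open Complex Pool.Agent.ELL

/-- the statement with `π` -/
def ExcStmt : Prop :=
  ∃ N₀ : ℕ, N₀ ≠ 1 ∧ N₀ ≠ 2 ∧ ∀ N : ℕ, 3 ≤ N →
    Algebra.trdeg ℚ (IntermediateField.adjoin ℚ (insert Real.pi
      {x : ℝ | ∃ a : ℕ, 0 < a ∧ a < N ∧ x = Real.Gamma ((a : ℝ) / N)})) =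
        (N.totient / 2 + if N₀ ∣ N then 0 else 1 : ℕ)

namespace Exc

open GamF

theorem nz {D L : ℕ} [NeZero L] (h : D ∣ L) : NeZero D := ⟨ne_zero_of_dvd_ne_zero (NeZero.ne L) h⟩

theorem map_neg {D L : ℕ} (h : D ∣ L) (u : (ZMod L)ˣ) :
    ZMod.unitsMap h (-u) = -ZMod.unitsMap h u := Units.ext (by simp [ZMod.unitsMap_def])

/-- the normalised gamma values of level `N` -/
def S (N : ℕ) : Set ℂ := Set.range fun a : {a : ZMod N // a ≠ 0} => gt N a.1

theorem mem_S {N : ℕ} [NeZero N] {z : ℂ} : z ∈ S N ↔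
    ∃ a : ℕ, 0 < a ∧ a < N ∧ z = (Real.Gamma ((a : ℝ) / N) / √Real.pi : ℝ) := by
  constructor
  · rintro ⟨a, rfl⟩
    exact ⟨a.1.val, ZMod.val_pos.2 a.2, ZMod.val_lt _, rfl⟩
  · rintro ⟨n, h0, h1, rfl⟩
    have hv : (n : ZMod N).val = n := ZMod.val_cast_of_lt h1
    exact ⟨⟨n, ZMod.val_pos.1 (hv.symm ▸ h0)⟩, by simp only [gt, hv]⟩

theorem S_mono {D L : ℕ} [NeZero L] (h : D ∣ L) : S D ⊆ S L := fun z hz => by
  have := nz h
  obtain ⟨c, rfl⟩ := h
  obtain ⟨a, h0, h1, rfl⟩ := mem_S.1 hz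
  have hc : 0 < c := Nat.pos_of_mul_pos_left (NeZero.pos (D * c))
  refine mem_S.2 ⟨a * c, by positivity, by gcongr, ?_⟩
  push_cast
  rw [mul_div_mul_right _ _ (by positivity)]

/-- the sawtooth functions of level `D` -/
def U {D L : ℕ} (h : D ∣ L) (k : ℕ) : Submodule ℚ ((ZMod L)ˣ → ℚ) :=
  Submodule.span ℚ (Set.range fun a : {a : ZMod D // a ≠ 0} =>
    fun u => k * saw D (ZMod.unitsMap h u * a.1))

theorem U_odd {D L : ℕ} [NeZero D] (h : D ∣ L) (k : ℕ) : U h k ≤ odd L := by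
  refine Submodule.span_le.2 ?_
  rintro _ ⟨a, rfl⟩ u
  simp only [map_neg, Units.val_neg, neg_mul]
  rw [saw_neg fun h0 => a.2 ((Units.mul_right_eq_zero _).1 h0), mul_neg]

theorem U_fac {D L : ℕ} (h : D ∣ L) (k : ℕ) {f : (ZMod L)ˣ → ℚ} (hf : f ∈ U h k) {u v : (ZMod L)ˣ}
    (huv : ZMod.unitsMap h u = ZMod.unitsMap h v) : f u = f v := by
  induction hf using Submodule.span_induction with
  | mem f hf => obtain ⟨a, rfl⟩ := hf; simp only [huv]
  | zero => rfl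
  | add f g _ _ h1 h2 => simp only [Pi.add_apply, h1, h2]
  | smul c f _ h1 => simp only [Pi.smul_apply, h1]

theorem map_eq {D L : ℕ} [NeZero L] (h : D ∣ L) (u v : (ZMod L)ˣ) :
    ZMod.unitsMap h u = ZMod.unitsMap h v ↔ (u : ZMod L).val ≡ (v : ZMod L).val [MOD D] := by
  rw [← ZMod.natCast_eq_natCast_iff, Units.ext_iff, ZMod.unitsMap_val, ZMod.unitsMap_val,
    ZMod.natCast_val, ZMod.natCast_val]

theorem U_inf (hS : Stick) {N M k : ℕ} [NeZero (N * M)] (hk : 0 < k) :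
    U (dvd_mul_right N M) k ⊓ U (dvd_mul_left M N) k ≤
      U ((Nat.gcd_dvd_left N M).trans (dvd_mul_right N M)) k := fun f hf => by
  have hd := (Nat.gcd_dvd_left N M).trans (dvd_mul_right N M)
  have := nz hd
  have := nz (dvd_mul_right N M)
  have h1 : ∀ u v, ZMod.unitsMap hd u = ZMod.unitsMap hd v → f u = f v := fun u v huv => by
    obtain ⟨w, h2, h3⟩ := Nat.chineseRemainder' ((map_eq hd u v).1 huv)
    have h4 : w.Coprime (N * M) := Nat.Coprime.mul_right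
      (h2.gcd_eq.trans ((ZMod.val_coe_unit_coprime u).coprime_dvd_right (dvd_mul_right N M)))
      (h3.gcd_eq.trans ((ZMod.val_coe_unit_coprime v).coprime_dvd_right (dvd_mul_left M N)))
    have h5 : (ZMod.unitOfCoprime w h4 : ZMod (N * M)).val ≡ w [MOD N * M] := by
      rw [ZMod.coe_unitOfCoprime, ZMod.val_natCast]
      exact Nat.mod_modEq _ _
    exact (U_fac _ k hf.1 ((map_eq _ _ _).2 ((h5.of_mul_right M).trans h2))).symm.trans
      (U_fac _ k hf.2 ((map_eq _ _ _).2 ((h5.of_mul_left N).trans h3)))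
  have h2 := Function.surjInv_eq (ZMod.unitsMap_surjective hd)
  obtain ⟨m, hm⟩ := hS _ (fun u => f (Function.surjInv (ZMod.unitsMap_surjective hd) u))
    fun u => (h1 _ _ (by rw [map_neg, h2, h2])).trans (U_odd _ k hf.1 _)
  have h3 : f = ∑ a : {a : ZMod (N.gcd M) // a ≠ 0}, (m a.1 / k) •
      fun u => (k : ℚ) * saw (N.gcd M) (ZMod.unitsMap hd u * a.1) := funext fun u => by
    have h4 := hm (ZMod.unitsMap hd u)
    rw [Finset.sum_subtype (Finset.univ.erase 0) (p := fun a => a ≠ 0) (by simp),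
      h1 _ u (h2 _)] at h4
    rw [Finset.sum_apply, ← h4]
    refine Finset.sum_congr rfl fun a _ => ?_
    simp only [Pi.smul_apply, smul_eq_mul]
    field_simp
  rw [h3]
  exact Submodule.sum_mem _ fun a _ => Submodule.smul_mem _ _ (Submodule.subset_span ⟨a, rfl⟩)

theorem lift {D L : ℕ} [NeZero L] (h : D ∣ L) (a : {a : ZMod D // a ≠ 0}) : ∃ b : ZMod L, b ≠ 0 ∧
    gt D a.1 = gt L b ∧ ∀ u : (ZMod L)ˣ, saw L (u * b) = saw D (ZMod.unitsMap h u * a.1) := by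
  have := nz h
  obtain ⟨c, rfl⟩ := h
  have hc : 0 < c := Nat.pos_of_mul_pos_left (NeZero.pos (D * c))
  have h0 := ZMod.val_pos.2 a.2
  have hv : ((a.1.val * c : ℕ) : ZMod (D * c)).val = a.1.val * c :=
    ZMod.val_cast_of_lt (by gcongr; exact ZMod.val_lt _)
  refine ⟨(a.1.val * c : ℕ), ZMod.val_pos.1 (hv.symm ▸ by positivity), ?_, fun u => ?_⟩
  · rw [gt, gt, hv]
    push_cast
    rw [mul_div_mul_right _ _ (by positivity)]
  · have h1 := fract_eq (N := D) (u : ZMod (D * c)).val a.1.val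
    have h2 := fract_eq (N := D * c) (u : ZMod (D * c)).val (a.1.val * c)
    rw [ZMod.natCast_zmod_val, ZMod.natCast_val (R := ZMod D)] at h1
    rw [ZMod.natCast_zmod_val] at h2
    rw [ZMod.unitsMap_val, ← h1, ← h2]
    push_cast
    rw [← mul_assoc, mul_div_mul_right _ _ (by positivity)]

theorem rk_eq (hT : Trd) (hU : GamU) (L : ℕ) [NeZero L] : ∃ k : ℕ, 0 < k ∧
    ∀ (κ : Type) [Fintype κ] (y : κ → ℂ) (f : κ → (ZMod L)ˣ → ℚ), (∀ j, ∃ b : ZMod L, b ≠ 0 ∧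
      y j = gt L b ∧ ∀ u : (ZMod L)ˣ, saw L (u * b) = f j u) → rk ℚ (Set.range y) =
        Module.finrank ℚ (Submodule.span ℚ (Set.range fun j u => k * f j u)) := by
  obtain ⟨ι, _, x, r, k, e, hx, hk, hr, he⟩ := hU L
  refine ⟨k, hk, fun κ _ y f h => ?_⟩
  choose b h1 h2 h3 using h
  have hy : ∀ j, y j ≠ 0 := fun j => h2 j ▸ ofReal_ne_zero.2 (div_pos (Real.Gamma_pos_of_pos
    (div_pos (Nat.cast_pos.2 (ZMod.val_pos.2 (h1 j))) (Nat.cast_pos.2 (NeZero.pos L))))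
    (Real.sqrt_pos.2 Real.pi_pos)).ne'
  rw [trdeg_rat.1 (hT ι κ x y k (fun j => e (b j)) hx hk fun j =>
    ⟨hy j, h2 j ▸ (he _ (h1 j)).2⟩).1]
  set W := Submodule.span ℚ (Set.range fun j u => k * f j u) with hW
  have h4 : W ≤ odd L := Submodule.span_le.2 <| by
    rintro _ ⟨j, rfl⟩ u
    simp only [← h3, Units.val_neg, neg_mul]
    rw [saw_neg fun h0 => h1 j ((Units.mul_right_eq_zero _).1 h0), mul_neg]
  have h5 : Function.Injective ((LinearMap.funLeft ℚ ℚ r).domRestrict W) :=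
    (injective_iff_map_eq_zero _).2 fun g hg => Subtype.ext <| funext fun u => by
      obtain ⟨i, hi | hi⟩ := hr u
      · simpa [hi] using congrFun hg i
      · simpa [hi, h4 g.2 u] using congrFun hg i
  rw [← LinearMap.finrank_range_of_inj h5, LinearMap.range_domRestrict, hW, Submodule.map_span,
    ← Set.range_comp]
  refine congrArg (fun g : κ → ι → ℚ =>
    (Module.finrank ℚ (Submodule.span ℚ (Set.range g)) : ℕ∞)) (funext₂ fun j i => ?_)
  simp [(he _ (h1 j)).1, h3]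

theorem gcd (hS : Stick) (hT : Trd) (hU : GamU) {N M : ℕ} [NeZero (N * M)] {z : ℂ}
    (h1 : z ∈ cl ℚ (S N)) (h2 : z ∈ cl ℚ (S M)) : z ∈ cl ℚ (S (N.gcd M)) := by
  have hd := (Nat.gcd_dvd_left N M).trans (dvd_mul_right N M)
  have := nz hd
  have := nz (dvd_mul_right N M)
  have := nz (dvd_mul_left M N)
  obtain ⟨k, hk, h⟩ := rk_eq hT hU (N * M)
  have h3 := h ({a : ZMod N // a ≠ 0} ⊕ {a : ZMod M // a ≠ 0})
    (Sum.elim (fun a => gt N a.1) fun a => gt M a.1)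
    (Sum.elim (fun a u => saw N (ZMod.unitsMap (dvd_mul_right N M) u * a.1))
      fun a u => saw M (ZMod.unitsMap (dvd_mul_left M N) u * a.1))
    (Sum.rec (lift (dvd_mul_right N M)) (lift (dvd_mul_left M N)))
  rw [Set.Sum.elim_range] at h3
  refine modular (fun x hx => sub_cl (S_mono (Nat.gcd_dvd_left N M) hx))
    (fun x hx => sub_cl (S_mono (Nat.gcd_dvd_right N M) hx)) (h _ _ _ (lift hd)) h3 ?_ h1 h2
  rw [S, S, h _ _ _ (lift (dvd_mul_right N M)), h _ _ _ (lift (dvd_mul_left M N))]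
  have h4 := Submodule.finrank_sup_add_finrank_inf_eq (U (dvd_mul_right N M) k)
    (U (dvd_mul_left M N) k)
  norm_cast
  refine h4.ge.trans ((add_comm _ _).trans_le (add_le_add (Submodule.finrank_mono (U_inf hS hk))
    (Submodule.finrank_mono (sup_le (Submodule.span_mono ?_) (Submodule.span_mono ?_)))))
  · rintro _ ⟨a, rfl⟩
    exact ⟨.inl a, rfl⟩
  · rintro _ ⟨a, rfl⟩
    exact ⟨.inr a, rfl⟩

theorem low {N : ℕ} (h : N = 1 ∨ N = 2) : (Real.pi : ℂ) ∉ cl ℚ (S N) := fun h1 => by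
  refine transcendental_pi ((alg_real _).2 (alg_of_cl (fun z hz => ?_) h1))
  rcases h with rfl | rfl
  · obtain ⟨a, h0, h2, -⟩ := mem_S.1 hz
    omega
  · obtain ⟨a, h0, h2, rfl⟩ := mem_S.1 hz
    obtain rfl : a = 1 := by omega
    simpa [Real.Gamma_one_half_eq, (Real.sqrt_pos.2 Real.pi_pos).ne', ← one_div] using isAlgebraic_one (R := ℚ) (A := ℂ)

end Exc

open Exc GamF in
theorem exc (hS : Stick) (hT : Trd) (hU : GamU) : ExcStmt := by
  classical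
  obtain ⟨N₀, h0, h1⟩ : ∃ N₀, (0 < N₀ → (Real.pi : ℂ) ∈ cl ℚ (S N₀)) ∧
      ∀ N, 0 < N → (Real.pi : ℂ) ∈ cl ℚ (S N) → N₀ ∣ N := by
    by_cases h : ∃ N, 0 < N ∧ (Real.pi : ℂ) ∈ cl ℚ (S N)
    · refine ⟨Nat.find h, fun _ => (Nat.find_spec h).2, fun N h1 h2 => ?_⟩
      have : NeZero (Nat.find h * N) := ⟨(mul_pos (Nat.find_spec h).1 h1).ne'⟩
      exact Nat.gcd_eq_left_iff_dvd.1 ((Nat.gcd_le_left _ (Nat.find_spec h).1).antisymm
        (Nat.find_min' h ⟨Nat.gcd_pos_of_pos_right _ h1, gcd hS hT hU (Nat.find_spec h).2 h2⟩))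
    · exact ⟨0, fun h => absurd h (lt_irrefl 0), fun N h1 h2 => absurd ⟨N, h1, h2⟩ h⟩
  refine ⟨N₀, fun h => low (.inl h) (h0 (by omega)), fun h => low (.inr h) (h0 (by omega)),
    fun N hN => ?_⟩
  have : NeZero N := ⟨by omega⟩
  have h2 := (gamFinal hS hT hU N hN).1
  rw [trdeg_real, trdeg_rat] at h2
  replace h2 : rk ℚ (S N) = (N.totient / 2 : ℕ) := by
    refine (congrArg (rk ℚ) (Set.ext fun z => mem_S.trans ⟨?_, ?_⟩)).trans h2
    · rintro ⟨a, h6, h7, rfl⟩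
      exact ⟨_, ⟨a, h6, h7, rfl⟩, rfl⟩
    · rintro ⟨_, ⟨a, h6, h7, rfl⟩, rfl⟩
      exact ⟨a, h6, h7, rfl⟩
  have h3 : ((√Real.pi : ℝ) : ℂ) ^ 2 = Real.pi := by exact_mod_cast Real.sq_sqrt Real.pi_pos.le
  have h4 : ∀ s, (Real.pi : ℂ) ∈ s → ((√Real.pi : ℝ) : ℂ) ∈ cl ℚ s := fun s hs =>
    pow_cl two_pos (h3 ▸ sub_cl hs)
  have h5 : ((√Real.pi : ℝ) : ℂ) ≠ 0 := ofReal_ne_zero.2 (Real.sqrt_pos.2 Real.pi_pos).ne'
  rw [trdeg_real, trdeg_rat, Set.image_insert_eq, show rk ℚ _ = rk ℚ (insert (Real.pi : ℂ) (S N))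
    from le_antisymm (rk_le ?_) (rk_le ?_)]
  · split_ifs with h6
    · rw [add_zero, ← h2]
      refine le_antisymm (rk_le ?_) (rk_le fun z hz => sub_cl (.inr hz))
      rintro z (rfl | hz)
      · exact cl_le (fun z hz => sub_cl (S_mono h6 hz)) (h0 (Nat.pos_of_dvd_of_pos h6 (by omega)))
      · exact sub_cl hz
    · rw [rk_insert (mt (h1 N (by omega)) h6), h2]
      rfl
  · rintro z (rfl | ⟨_, ⟨a, h6, h7, rfl⟩, rfl⟩)
    · exact sub_cl (.inl rfl)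
    · have := mul_mem (sub_cl (F := ℚ) (s := insert (Real.pi : ℂ) (S N))
        (.inr (mem_S.2 ⟨a, h6, h7, rfl⟩))) (h4 _ (.inl rfl))
      rwa [ofReal_div, div_mul_cancel₀ _ h5] at this
  · rintro z (rfl | hz)
    · exact sub_cl (.inl rfl)
    · obtain ⟨a, h6, h7, rfl⟩ := mem_S.1 hz
      rw [ofReal_div]
      exact div_mem (sub_cl (.inr ⟨_, ⟨a, h6, h7, rfl⟩, rfl⟩)) (h4 _ (.inl rfl))

end Pool.Agent.GAM
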