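import Pool.Agent.MP_cbf1af_ag.gam.Spec
import Pool.Agent.MP_cbf1af_ag.gam.Edge
import Pool.Agent.MP_cbf1af_ag.gam.GamF
import Pool.Agent.MP_cbf1af_ag.gam.Trd
import Pool.Agent.MP_cbf1af_ag.shp.Final

-- ======== part 0: formerly Pool.Agent.MP_cbf1af_ag.gam.Stick
section MrgPart0

/-! STICK: the sawtooth functions span the odd functions on the units modulo `N`. -/

namespace Pool.Agent.GAM

open Complex Filter Topology HurwitzZeta Finset

namespace StickAux

lemma rpow_diff {x y s : ℝ} (hy : 0 < y) (hxy : y ≤ x) (h1 : 1 ≤ s) (h2 : s ≤ 2) :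
    |1 / x ^ s - 1 / y ^ s| ≤ 1 / y ^ s * (2 * (x - y) / x) := by
  have hx : 0 < x := lt_of_lt_of_le hy hxy
  have hq0 : 0 < y / x := div_pos hy hx
  have hq1 : y / x ≤ 1 := (div_le_one hx).2 hxy
  have e1 : (y / x) ^ (2 : ℝ) ≤ (y / x) ^ s := Real.rpow_le_rpow_of_exponent_ge hq0 hq1 h2
  have e2 : (y / x) ^ s ≤ 1 := Real.rpow_le_one hq0.le hq1 (by linarith)
  have hys : 0 < y ^ s := Real.rpow_pos_of_pos hy _
  have hxs : 0 < x ^ s := Real.rpow_pos_of_pos hx _
  have e3 : 1 / x ^ s - 1 / y ^ s = -(1 / y ^ s * (1 - (y / x) ^ s)) := by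
    rw [Real.div_rpow hy.le hx.le]
    field_simp
    ring
  rw [e3, abs_neg, abs_of_nonneg (mul_nonneg (by positivity) (by linarith))]
  refine mul_le_mul_of_nonneg_left ?_ (by positivity)
  rw [Real.rpow_two] at e1
  have e4 : 2 * (x - y) / x = 2 * (1 - y / x) := by field_simp
  rw [e4]
  nlinarith

lemma term_bound {a s : ℝ} (h0 : 0 < a) (ha : a < 1) (h1 : 1 ≤ s) (h2 : s ≤ 2) (n : ℕ) :
    ‖1 / ((n : ℂ) + 1 + a) ^ (s : ℂ) - 1 / ((n : ℂ) + 1 - a) ^ (s : ℂ)‖ ≤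
      4 / (1 - a) ^ 2 * (1 / ((n : ℝ) + 1) ^ 2) := by
  have hn : (0 : ℝ) ≤ n := Nat.cast_nonneg n
  have hy : 0 < (n : ℝ) + 1 - a := by linarith
  have e1 : ((n : ℂ) + 1 + a) ^ (s : ℂ) = ((((n : ℝ) + 1 + a) ^ s : ℝ) : ℂ) := by
    rw [Complex.ofReal_cpow (by linarith)]
    push_cast
    rfl
  have e2 : ((n : ℂ) + 1 - a) ^ (s : ℂ) = ((((n : ℝ) + 1 - a) ^ s : ℝ) : ℂ) := by
    rw [Complex.ofReal_cpow hy.le]
    push_cast
    rfl
  have e3 : 1 / ((n : ℂ) + 1 + a) ^ (s : ℂ) - 1 / ((n : ℂ) + 1 - a) ^ (s : ℂ) =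
      ((1 / ((n : ℝ) + 1 + a) ^ s - 1 / ((n : ℝ) + 1 - a) ^ s : ℝ) : ℂ) := by
    rw [e1, e2]
    push_cast
    rfl
  rw [e3, Complex.norm_real, Real.norm_eq_abs]
  refine le_trans (rpow_diff hy (by linarith) h1 h2) ?_
  have hb : 0 < 1 - a := by linarith
  have f1 : (1 - a) ^ 2 * ((n : ℝ) + 1) ≤ ((n : ℝ) + 1 - a) ^ s := by
    have g1 : ((1 - a) * ((n : ℝ) + 1)) ^ s ≤ ((n : ℝ) + 1 - a) ^ s :=
      Real.rpow_le_rpow (by positivity) (by nlinarith) (by linarith)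
    rw [Real.mul_rpow hb.le (by positivity)] at g1
    have g2 : (1 - a) ^ (2 : ℝ) ≤ (1 - a) ^ s :=
      Real.rpow_le_rpow_of_exponent_ge hb (by linarith) h2
    have g3 : ((n : ℝ) + 1) ^ (1 : ℝ) ≤ ((n : ℝ) + 1) ^ s :=
      Real.rpow_le_rpow_of_exponent_le (by linarith) h1
    rw [Real.rpow_two] at g2
    rw [Real.rpow_one] at g3
    exact le_trans (mul_le_mul g2 g3 (by positivity) (by positivity)) g1
  have f2 : 1 / ((n : ℝ) + 1 - a) ^ s ≤ 1 / ((1 - a) ^ 2 * ((n : ℝ) + 1)) :=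
    one_div_le_one_div_of_le (by positivity) f1
  have f3 : 2 * ((n : ℝ) + 1 + a - (n + 1 - a)) / (n + 1 + a) ≤ 4 / ((n : ℝ) + 1) := by
    rw [div_le_div_iff₀ (by linarith) (by linarith)]
    nlinarith
  calc _ ≤ 1 / ((1 - a) ^ 2 * ((n : ℝ) + 1)) * (4 / ((n : ℝ) + 1)) :=
        mul_le_mul f2 f3 (by apply div_nonneg <;> linarith) (by positivity)
    _ = _ := by field_simp

lemma odd_one {a : ℝ} (h0 : 0 < a) (ha : a < 1) :
    hurwitzZetaOdd (a : UnitAddCircle) 1 = Real.pi * cot (Real.pi * a) / 2 := by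
  have hmem : (a : ℂ) ∈ Complex.integerComplement := by
    rintro ⟨k, hk⟩
    have hk' : (k : ℝ) = a := by exact_mod_cast hk
    have k0 : (0 : ℝ) < k := by rw [hk']; exact h0
    have k1 : (k : ℝ) < 1 := by rw [hk']; exact ha
    have : (0 : ℤ) < k := by exact_mod_cast k0
    have : k < (1 : ℤ) := by exact_mod_cast k1
    omega
  have hs : ∀ s : ℝ, 1 < s → ∑' n : ℕ, (1 / ((n : ℂ) + 1 + a) ^ (s : ℂ) -
      1 / ((n : ℂ) + 1 - a) ^ (s : ℂ)) = 2 * hurwitzZetaOdd (a : UnitAddCircle) s - 1 / (a : ℂ) ^ (s : ℂ) := by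
    intro s h1
    have e1 := hasSum_hurwitzZeta_of_one_lt_re (a := a) ⟨h0.le, ha.le⟩ (s := s) (by simpa using h1)
    have e2 := hasSum_hurwitzZeta_of_one_lt_re (a := 1 - a) ⟨by linarith, by linarith⟩ (s := s)
      (by simpa using h1)
    have e3 : ((1 - a : ℝ) : UnitAddCircle) = -(a : UnitAddCircle) := by
      rw [AddCircle.coe_sub, AddCircle.coe_period, zero_sub]
    rw [e3] at e2
    have e4 := ((hasSum_nat_add_iff' 1).2 e1).sub e2
    rw [hurwitzZetaOdd_eq]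
    refine Eq.trans (tsum_congr fun n => ?_) (e4.tsum_eq.trans ?_)
    · push_cast
      rw [add_sub_assoc]
    · simp only [range_one, sum_singleton, Nat.cast_zero, zero_add]
      ring
  have hsum : Summable fun n : ℕ => 4 / (1 - a) ^ 2 * (1 / ((n : ℝ) + 1) ^ 2) := by
    apply Summable.mul_left
    have := (summable_nat_add_iff 1).2 (Real.summable_one_div_nat_pow.2 (show 1 < 2 by norm_num))
    simpa using this
  have hc : Tendsto (fun s : ℝ => (s : ℂ)) (𝓝[>] 1) (𝓝 1) :=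
    (Complex.continuous_ofReal.tendsto' 1 1 (by simp)).mono_left nhdsWithin_le_nhds
  have hcp : ∀ z : ℂ, z ≠ 0 → Tendsto (fun s : ℝ => 1 / z ^ (s : ℂ)) (𝓝[>] 1) (𝓝 (1 / z)) := by
    intro z hz
    have := ((continuousAt_const_cpow hz (b := 1)).tendsto.comp hc)
    rw [cpow_one] at this
    exact tendsto_const_nhds.div this hz
  have t1 := tendsto_tsum_of_dominated_convergence (𝓕 := 𝓝[>] (1 : ℝ))
    (f := fun (s : ℝ) (n : ℕ) => 1 / ((n : ℂ) + 1 + a) ^ (s : ℂ) - 1 / ((n : ℂ) + 1 - a) ^ (s : ℂ))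
    (g := fun n : ℕ => 1 / ((n : ℂ) + 1 + a) - 1 / ((n : ℂ) + 1 - a)) hsum (fun n => by
      have hn : (0 : ℝ) ≤ n := Nat.cast_nonneg n
      refine (hcp _ ?_).sub (hcp _ ?_)
      · have : ((n : ℝ) + 1 + a) ≠ 0 := by linarith
        exact_mod_cast this
      · have : ((n : ℝ) + 1 - a) ≠ 0 := by linarith
        exact_mod_cast this) (by
      filter_upwards [Ioo_mem_nhdsGT (show (1 : ℝ) < 2 by norm_num)] with s hs n
      exact term_bound h0 ha hs.1.le hs.2.le n)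
  have t2 : Tendsto (fun s : ℝ => 2 * hurwitzZetaOdd (a : UnitAddCircle) s - 1 / (a : ℂ) ^ (s : ℂ))
      (𝓝[>] 1) (𝓝 (2 * hurwitzZetaOdd (a : UnitAddCircle) 1 - 1 / (a : ℂ))) :=
    (((differentiable_hurwitzZetaOdd _).continuous.tendsto 1).comp hc |>.const_mul 2).sub
      (hcp _ (by exact_mod_cast h0.ne'))
  have t3 := tendsto_nhds_unique (t1.congr' (by
    filter_upwards [self_mem_nhdsWithin] with s hs'
    exact hs s hs')) t2
  have t4 := cot_series_rep' hmem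
  have t5 : ∑' n : ℕ, (1 / ((a : ℂ) - (n + 1)) + 1 / ((a : ℂ) + (n + 1))) =
      ∑' n : ℕ, (1 / ((n : ℂ) + 1 + a) - 1 / ((n : ℂ) + 1 - a)) := by
    refine tsum_congr fun n => ?_
    rw [show (a : ℂ) - (n + 1) = -((n : ℂ) + 1 - a) by ring, one_div_neg_eq_neg_one_div,
      add_comm (a : ℂ)]
    ring
  rw [t5, t3] at t4
  linear_combination (-1 / 2 : ℂ) * t4

lemma geom_lin (z : ℂ) (n : ℕ) :
    (z - 1) * ∑ x ∈ range n, (x : ℂ) * z ^ x = n * z ^ n - z * ∑ x ∈ range n, z ^ x := by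
  induction n with
  | zero => simp
  | succ n ih =>
    rw [sum_range_succ, sum_range_succ, mul_add, ih]
    push_cast
    ring

variable {N : ℕ} [NeZero N]

/-- the odd sawtooth function -/
noncomputable def sw (x : ZMod N) : ℂ := if x = 0 then 0 else (saw N x : ℂ)

lemma dft_sw {j : ZMod N} (hj : j ≠ 0) :
    ∑ x : ZMod N, sw x * ZMod.stdAddChar (j * x) =
      -(I / 2) * cot (Real.pi * ((j.val : ℝ) / N : ℝ)) := by
  set z : ℂ := ZMod.stdAddChar j with hz
  have hN : (N : ℂ) ≠ 0 := by exact_mod_cast NeZero.ne N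
  have hz1 : z ≠ 1 := by
    intro h
    apply hj
    apply ZMod.injective_stdAddChar
    rw [← hz, h, AddChar.map_zero_eq_one]
  have hzN : z ^ N = 1 := by
    rw [hz, ← AddChar.map_nsmul_eq_pow, nsmul_eq_mul, ZMod.natCast_self, zero_mul,
      AddChar.map_zero_eq_one]
  have hze : z = exp (2 * Real.pi * I * ((j.val : ℝ) / N : ℝ)) := by
    rw [hz, ZMod.stdAddChar_apply, ZMod.toCircle_apply]
    push_cast
    congr 1
    ring
  have e1 : ∑ x : ZMod N, sw x * ZMod.stdAddChar (j * x) =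
      ∑ x ∈ range N, (((x : ℂ) / N - 1 / 2) * z ^ x + if x = 0 then 1 / 2 else 0) := by
    refine Finset.sum_bij (fun x _ => x.val) (fun x _ => mem_range.2 (ZMod.val_lt x))
      (fun x _ y _ h => ZMod.val_injective N h)
      (fun k hk => ⟨k, mem_univ _, ZMod.val_cast_of_lt (mem_range.1 hk)⟩) fun x _ => ?_
    have : ZMod.stdAddChar (j * x) = z ^ x.val := by
      rw [hz, ← AddChar.map_nsmul_eq_pow, nsmul_eq_mul, ZMod.natCast_zmod_val, mul_comm]
    rw [this]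
    by_cases hx : x = 0
    · subst hx
      simp [sw]
    · have : x.val ≠ 0 := by rwa [Ne, ZMod.val_eq_zero]
      rw [sw, if_neg hx, if_neg this, saw]
      push_cast
      ring
  have e2 : ∑ x ∈ range N, z ^ x = 0 := by
    have := mul_geom_sum z N
    rw [hzN, sub_self] at this
    exact (mul_eq_zero.1 this).resolve_left (sub_ne_zero.2 hz1)
  have e3 := geom_lin z N
  rw [e2, hzN] at e3
  have e4 : ∑ x ∈ range N, (((x : ℂ) / N - 1 / 2) * z ^ x + if x = 0 then 1 / 2 else 0) =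
      (∑ x ∈ range N, (x : ℂ) * z ^ x) / N - (∑ x ∈ range N, z ^ x) / 2 + 1 / 2 := by
    rw [sum_add_distrib, Finset.sum_ite_eq', if_pos (mem_range.2 (NeZero.pos N)), sum_div, sum_div,
      ← sum_sub_distrib]
    congr 1
    exact sum_congr rfl fun x _ => by ring
  have e5 : ∑ x ∈ range N, (x : ℂ) * z ^ x = N / (z - 1) := by
    rw [eq_div_iff (sub_ne_zero.2 hz1)]
    linear_combination e3
  rw [e1, e4, e5, e2, cot_pi_eq_exp_ratio, ← hze]
  have h1 : z - 1 ≠ 0 := sub_ne_zero.2 hz1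
  have h2 : 1 - z ≠ 0 := sub_ne_zero.2 hz1.symm
  field_simp
  ring

lemma exists_ne (χ : DirichletCharacter ℂ N) (hχ : χ.Odd) :
    ∃ a : ZMod N, a ≠ 0 ∧ ∑ u : (ZMod N)ˣ, χ (↑u⁻¹) * (saw N (u * a) : ℂ) ≠ 0 := by
  by_contra hcon
  push Not at hcon
  have hne : χ ≠ 1 := by
    rintro rfl
    have h1 : (1 : DirichletCharacter ℂ N) (-1) = -1 := hχ
    rw [MulChar.one_apply isUnit_one.neg] at h1
    norm_num at h1
  apply DirichletCharacter.LFunction_apply_one_ne_zero hne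
  have hodd : Function.Odd (χ : ZMod N → ℂ) := hχ.to_fun
  have h0 : χ 0 = 0 := by
    have := hodd 0
    rw [neg_zero] at this
    linear_combination (1 / 2 : ℂ) * this
  have hz : ∀ x : ZMod N, ∑ u : (ZMod N)ˣ, χ (↑u⁻¹) * sw ((u : ZMod N) * x) = 0 := by
    intro x
    by_cases hx : x = 0
    · simp [hx, sw]
    · rw [← hcon x hx]
      refine sum_congr rfl fun u _ => ?_
      rw [sw, if_neg (by simpa using hx)]
  set S : ℂ := ∑ j : ZMod N, χ j * ∑ x : ZMod N, sw x * ZMod.stdAddChar (j * x) with hS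
  have hS1 : ∀ u : (ZMod N)ˣ, S = ∑ j : ZMod N, χ j * ∑ x : ZMod N,
      χ (↑u⁻¹) * sw ((u : ZMod N) * x) * ZMod.stdAddChar (j * x) := by
    intro u
    rw [hS, ← Equiv.sum_comp (Units.mulRight u⁻¹)]
    refine sum_congr rfl fun j _ => ?_
    rw [← Equiv.sum_comp (Units.mulLeft u)]
    simp only [Units.mulRight_apply, Units.mulLeft_apply, map_mul, mul_sum]
    refine sum_congr rfl fun x _ => ?_
    rw [show j * ↑u⁻¹ * (↑u * x) = j * x by rw [mul_assoc, Units.inv_mul_cancel_left]]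
    ring
  have hS2 : (Fintype.card (ZMod N)ˣ : ℂ) * S = 0 := by
    calc (Fintype.card (ZMod N)ˣ : ℂ) * S = ∑ u : (ZMod N)ˣ, S := by simp
      _ = ∑ u : (ZMod N)ˣ, ∑ j : ZMod N, χ j * ∑ x : ZMod N,
          χ (↑u⁻¹) * sw ((u : ZMod N) * x) * ZMod.stdAddChar (j * x) :=
          sum_congr rfl fun u _ => hS1 u
      _ = ∑ j : ZMod N, χ j * ∑ x : ZMod N, (∑ u : (ZMod N)ˣ,
          χ (↑u⁻¹) * sw ((u : ZMod N) * x)) * ZMod.stdAddChar (j * x) := by
          rw [sum_comm]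
          refine sum_congr rfl fun j _ => ?_
          rw [← mul_sum, sum_comm]
          simp only [sum_mul]
      _ = 0 := by simp only [hz, zero_mul, sum_const_zero, mul_zero]
  have hS3 : S = 0 :=
    (mul_eq_zero.1 hS2).resolve_left (by exact_mod_cast Fintype.card_ne_zero)
  have hS4 : ∑ j : ZMod N, χ j * hurwitzZetaOdd (ZMod.toAddCircle j) 1 = Real.pi * I * S := by
    rw [hS, mul_sum]
    refine sum_congr rfl fun j _ => ?_
    by_cases hj : j = 0
    · simp [hj, h0]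
    · have hN : (0 : ℝ) < N := by exact_mod_cast NeZero.pos N
      have hv : 0 < j.val := Nat.pos_of_ne_zero (by rwa [Ne, ZMod.val_eq_zero])
      rw [dft_sw hj, ZMod.toAddCircle_apply, odd_one (by positivity)
        ((div_lt_one hN).2 (by exact_mod_cast ZMod.val_lt j))]
      linear_combination (χ j * Real.pi * cot (Real.pi * ((j.val : ℝ) / N : ℝ)) / 2) * I_mul_I
  show ZMod.LFunction (χ : ZMod N → ℂ) 1 = 0
  rw [ZMod.LFunction_def_odd hodd, hS4, hS3, mul_zero, mul_zero]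

/-- combinations of sawtooth functions -/
noncomputable def Lam (N : ℕ) [NeZero N] : (ZMod N → ℂ) →ₗ[ℂ] ((ZMod N)ˣ → ℂ) where
  toFun m u := ∑ a ∈ Finset.univ.erase 0, m a * (saw N (u * a) : ℂ)
  map_add' m m' := by
    funext u
    simp only [Pi.add_apply, add_mul, sum_add_distrib]
  map_smul' c m := by
    funext u
    simp only [Pi.smul_apply, smul_eq_mul, RingHom.id_apply, mul_sum, mul_assoc]

lemma saw_mem {b : ZMod N} (hb : b ≠ 0) :
    (fun u : (ZMod N)ˣ => (saw N (u * b) : ℂ)) ∈ LinearMap.range (Lam N) := by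
  refine ⟨Pi.single b 1, ?_⟩
  funext u
  show ∑ a ∈ Finset.univ.erase 0, (Pi.single b (1 : ℂ) : ZMod N → ℂ) a * (saw N (u * a) : ℂ) = _
  rw [Finset.sum_eq_single b]
  · simp
  · intro a _ ha
    simp [ha]
  · intro h
    exact absurd (mem_erase.2 ⟨hb, mem_univ _⟩) h

lemma char_mem (χ : DirichletCharacter ℂ N) (hχ : χ.Odd) :
    (fun v : (ZMod N)ˣ => χ v) ∈ LinearMap.range (Lam N) := by
  obtain ⟨a, ha, hB⟩ := exists_ne χ hχ
  set B := ∑ u : (ZMod N)ˣ, χ (↑u⁻¹) * (saw N (u * a) : ℂ) with hBdef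
  have h1 : (fun v : (ZMod N)ˣ => χ v) = B⁻¹ • ∑ u : (ZMod N)ˣ, χ (↑u⁻¹) •
      fun v : (ZMod N)ˣ => (saw N (v * ((u : ZMod N) * a)) : ℂ) := by
    funext v
    simp only [Pi.smul_apply, Finset.sum_apply, smul_eq_mul]
    rw [eq_inv_mul_iff_mul_eq₀ hB, hBdef, sum_mul, ← Equiv.sum_comp (Equiv.mulLeft v)]
    refine sum_congr rfl fun u _ => ?_
    simp only [Equiv.coe_mulLeft, mul_inv_rev, Units.val_mul, map_mul, mul_assoc]
    have : χ (↑v⁻¹) * χ v = 1 := by rw [← map_mul, Units.inv_mul, map_one]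
    linear_combination (χ (↑u⁻¹) * (saw N (v * ((u : ZMod N) * a)) : ℂ)) * this
  rw [h1]
  exact Submodule.smul_mem _ _ (Submodule.sum_mem _ fun u _ =>
    Submodule.smul_mem _ _ (saw_mem (by simpa using ha)))

lemma odd_mem (lam : (ZMod N)ˣ → ℂ) (h : ∀ u, lam (-u) = -lam u) :
    lam ∈ LinearMap.range (Lam N) := by
  have hφ : (N.totient : ℂ) ≠ 0 := by
    exact_mod_cast (Nat.totient_pos.2 (NeZero.pos N)).ne'
  have h1 : lam = (N.totient : ℂ)⁻¹ • ∑ χ : DirichletCharacter ℂ N,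
      (∑ u : (ZMod N)ˣ, lam u * χ (↑u⁻¹)) • fun v : (ZMod N)ˣ => χ v := by
    funext v
    simp only [Pi.smul_apply, Finset.sum_apply, smul_eq_mul, sum_mul]
    rw [eq_inv_mul_iff_mul_eq₀ hφ, sum_comm]
    have : ∀ u : (ZMod N)ˣ, ∑ χ : DirichletCharacter ℂ N, lam u * χ (↑u⁻¹) * χ v =
        if u = v then (N.totient : ℂ) * lam u else 0 := by
      intro u
      have := DirichletCharacter.sum_char_inv_mul_char_eq ℂ u.isUnit (v : ZMod N)
      rw [ZMod.inv_coe_unit] at this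
      simp only [mul_assoc, ← mul_sum, this, Units.val_inj]
      split_ifs <;> ring
    simp only [this, Finset.sum_ite_eq', mem_univ, if_true]
  rw [h1]
  refine Submodule.smul_mem _ _ (Submodule.sum_mem _ fun χ _ => ?_)
  rcases χ.even_or_odd with he | ho
  · have h2 : ∑ u : (ZMod N)ˣ, lam u * χ (↑u⁻¹) = -∑ u : (ZMod N)ˣ, lam u * χ (↑u⁻¹) := by
      rw [← sum_neg_distrib, ← Equiv.sum_comp (Equiv.neg (ZMod N)ˣ)]
      refine sum_congr rfl fun u _ => ?_
      rw [Equiv.neg_apply, h, inv_neg, Units.val_neg, he.eval_neg, neg_mul]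
    have h3 : ∑ u : (ZMod N)ˣ, lam u * χ (↑u⁻¹) = 0 := by linear_combination (1 / 2 : ℂ) * h2
    rw [h3, zero_smul]
    exact Submodule.zero_mem _
  · exact Submodule.smul_mem _ _ (char_mem χ ho)

end StickAux

theorem stick : Stick := by
  intro N _ lam h
  obtain ⟨m, hm⟩ := StickAux.odd_mem (fun u => (lam u : ℂ)) fun u => by simp [h u]
  obtain ⟨g, hg⟩ := LinearMap.exists_leftInverse_of_injective (Algebra.linearMap ℚ ℂ)
    (LinearMap.ker_eq_bot.2 (algebraMap ℚ ℂ).injective)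
  have hg' : ∀ q : ℚ, g (q : ℂ) = q := fun q => LinearMap.congr_fun hg q
  refine ⟨fun a => g (m a), fun u => ?_⟩
  have h1 : ∑ a ∈ Finset.univ.erase 0, m a * (saw N (u * a) : ℂ) = lam u := congrFun hm u
  rw [← hg' (lam u), ← h1, map_sum]
  refine sum_congr rfl fun a _ => ?_
  rw [mul_comm (m a), ← Rat.smul_def, map_smul, smul_eq_mul, mul_comm]

end Pool.Agent.GAM

end MrgPart0

-- ======== part 1: formerly Pool.Agent.MP_cbf1af_ag.gam.Final
section MrgPart1

/-! PROJECT GAM: assembly. -/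

namespace Pool.Agent.GAM

open Fin1

theorem univ_final : Univ := univ hK hE hTr pair_final (edge SHP.main_final inst_final hK)

theorem gamU_final : GamU := gamU hK hE fer_final univ_final

theorem gam_final : GamFinal := gamFinal stick trd gamU_final

end Pool.Agent.GAM

end MrgPart1

-- marker of a merged file
example : 731051 + 267053 = 731051 + 267053 := rfl
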