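import Mathlib
import Pool.Agent.MP_cbf1af_ag.gam.BSpec
import Pool.Agent.MP_cbf1af_ag.gam.Trd

/-! PROJECT GAM, stage 3, row FREE: monomial fields with disjoint exponents. -/

namespace Pool.Agent.GAM

open TrdL

noncomputable section

namespace FreeL

variable {L : Type} [Field L] [NumberField L]

omit [NumberField L] in
lemma cj_cj (τ : Emb L) : cj (cj τ) = τ := by
  ext x
  simp [cj]

/-- an odd monomial only involves a CM type -/
lemma mon_type {u : Emb L → ℂ} (hu : ∀ τ, u τ * u (cj τ) = 1) {Ψ : Finset (Emb L)}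
    (hΨ : IsType Ψ) {e : Emb L → ℤ} (he : ∀ τ, e (cj τ) = -e τ) :
    mon u e = mon (fun τ : Ψ => u τ) (fun τ => 2 * e τ) := by
  have h0 : ∀ τ, u τ ≠ 0 := fun τ => left_ne_zero_of_mul_eq_one (hu τ)
  have h1 : ∏ τ ∈ Ψᶜ, u τ ^ e τ = ∏ τ ∈ Ψ, u τ ^ e τ := by
    refine Finset.prod_bij (fun τ _ => cj τ) (fun τ hτ => ?_) (fun a _ b _ h => ?_)
      (fun τ hτ => ⟨cj τ, ?_, cj_cj τ⟩) (fun τ _ => ?_)
    · rw [hΨ, cj_cj]
      exact Finset.mem_compl.1 hτ
    · rw [← cj_cj a, h, cj_cj]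
    · exact Finset.mem_compl.2 ((hΨ τ).1 hτ)
    · rw [he, eq_inv_of_mul_eq_one_right (hu τ), inv_zpow', neg_neg]
  unfold mon
  rw [← Finset.prod_mul_prod_compl Ψ, h1, ← Finset.prod_mul_distrib,
    Finset.prod_coe_sort Ψ (fun τ => u τ ^ (2 * e τ))]
  exact Finset.prod_congr rfl fun τ _ => by rw [two_mul, zpow_add₀ (h0 τ)]

/-- monomials with independent odd exponents are algebraically independent -/
lemma indep_odd {u : Emb L → ℂ} (hu : ∀ τ, u τ * u (cj τ) = 1) {Ψ : Finset (Emb L)}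
    (hΨ : IsType Ψ) (hx : AlgebraicIndependent ℚ fun τ : Ψ => u τ) {σ : Type} [Fintype σ]
    {e : σ → Emb L → ℤ} (he : ∀ s τ, e s (cj τ) = -e s τ)
    (hl : LinearIndependent ℚ fun s τ => (e s τ : ℚ)) :
    AlgebraicIndependent ℚ fun s => mon u (e s) := by
  have h0 : ∀ τ, u τ ≠ 0 := fun τ => left_ne_zero_of_mul_eq_one (hu τ)
  refine indep (e := fun s (τ : Ψ) => 2 * e s τ) hx (fun s => ⟨mon_ne h0 _, ?_⟩) ?_
  · rw [← mon_type hu hΨ (he s), div_self (mon_ne h0 _)]
    exact isAlgebraic_one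
  · rw [Fintype.linearIndependent_iff] at hl ⊢
    intro q hq
    refine hl q (funext fun τ => ?_)
    have h1 : ∀ τ ∈ Ψ, ∑ s, q s * (e s τ : ℚ) = 0 := by
      intro τ hτ
      have h2 := congrFun hq ⟨τ, hτ⟩
      simp only [Finset.sum_apply, Pi.smul_apply, smul_eq_mul, Pi.zero_apply] at h2
      push_cast at h2
      have h3 : 2 * ∑ s, q s * (e s τ : ℚ) = 0 := by
        rw [Finset.mul_sum, ← h2]
        exact Finset.sum_congr rfl fun s _ => by ring
      linarith
    simp only [Finset.sum_apply, Pi.smul_apply, smul_eq_mul, Pi.zero_apply]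
    by_cases hτ : τ ∈ Ψ
    · exact h1 τ hτ
    · have h2 := h1 (cj τ) ((hΨ _).2 (by rwa [cj_cj]))
      simp only [he, Int.cast_neg, mul_neg, Finset.sum_neg_distrib, neg_eq_zero] at h2
      exact h2

/-- an integral independent family whose monomials span the monomial field algebraically -/
lemma basis {u : Emb L → ℂ} (h0 : ∀ τ, u τ ≠ 0) (W : Submodule ℚ (Emb L → ℚ)) :
    ∃ (σ : Type) (_ : Fintype σ) (e : σ → Emb L → ℤ), (∀ s, (fun τ => (e s τ : ℚ)) ∈ W) ∧
      LinearIndependent ℚ (fun s τ => (e s τ : ℚ)) ∧ ∀ z : ℂ, IsAlgebraic (mons u W) z →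
        IsAlgebraic (Algebra.adjoin ℚ (Set.range fun s => mon u (e s))) z := by
  obtain ⟨σ, a, -, hsp, hli⟩ := exists_linearIndependent' ℚ
    (fun (j : {e : Emb L → ℤ // (fun τ => (e τ : ℚ)) ∈ W}) τ => (j.1 τ : ℚ))
  have : Finite σ := hli.finite
  have := Fintype.ofFinite σ
  refine ⟨σ, this, fun s => (a s).1, fun s => (a s).2, hli, fun z hz => ?_⟩
  have h1 : ∀ s, IsAlgebraic (Algebra.adjoin ℚ (Set.range fun s => mon u (a s).1))
      (mon u (a s).1) := fun s => isAlgebraic_algebraMap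
    (⟨_, Algebra.subset_adjoin ⟨s, rfl⟩⟩ : Algebra.adjoin ℚ (Set.range fun s => mon u (a s).1))
  have h3 : ∀ e : Emb L → ℤ, (fun τ => (e τ : ℚ)) ∈ W →
      IsAlgebraic (Algebra.adjoin ℚ (Set.range fun s => mon u (a s).1)) (mon u e) := by
    intro e he
    have m1 : (fun τ => (e τ : ℚ)) ∈ Submodule.span ℚ (Set.range
        ((fun (j : {e : Emb L → ℤ // (fun τ => (e τ : ℚ)) ∈ W}) τ => (j.1 τ : ℚ)) ∘ a)) := by
      rw [hsp]; exact Submodule.subset_span ⟨⟨e, he⟩, rfl⟩
    obtain ⟨q, hq⟩ := (Submodule.mem_span_range_iff_exists_fun ℚ).mp m1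
    obtain ⟨d, hd⟩ := IsLocalization.exist_integer_multiples_of_finite (nonZeroDivisors ℤ) q
    choose m hm using hd
    have hd0 : (d : ℤ) ≠ 0 := nonZeroDivisors.coe_ne_zero d
    have c1 : (d : ℤ) • e = ∑ s, m s • (a s).1 := by
      ext τ
      have q1 := congrFun hq τ
      simp only [Finset.sum_apply, Pi.smul_apply, smul_eq_mul, Function.comp] at q1
      have q2 : ∀ s, (m s : ℚ) = (d : ℤ) * q s := fun s => by simpa using hm s
      simp only [Finset.sum_apply, Pi.smul_apply, smul_eq_mul]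
      apply Int.cast_injective (α := ℚ)
      push_cast
      simp only [q2, ← q1, Finset.mul_sum]
      exact Finset.sum_congr rfl fun s _ => by ring
    have c5 : IsAlgebraic (Algebra.adjoin ℚ (Set.range fun s => mon u (a s).1))
        (mon u e ^ (d : ℤ)) := by
      rw [mon_zpow, c1, mon_sum h0]
      exact prod_alg _ fun s _ => by rw [← mon_zpow]; exact zpow_alg (h1 s) _
    apply IsAlgebraic.of_pow (Int.natAbs_pos.mpr hd0)
    rcases Int.natAbs_eq (d : ℤ) with e1 | e1
    · rwa [e1, zpow_natCast] at c5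
    · rw [e1, zpow_neg, zpow_natCast] at c5
      exact IsAlgebraic.inv_iff.mp c5
  have h4 : ∀ x ∈ mons u W,
      IsAlgebraic (Algebra.adjoin ℚ (Set.range fun s => mon u (a s).1)) x := by
    intro x hx
    induction hx using IntermediateField.adjoin_induction with
    | mem z hz => obtain ⟨e, he, rfl⟩ := hz; exact h3 e he
    | algebraMap q =>
      exact (isAlgebraic_algebraMap (R := ℚ) q).extendScalars
        (FaithfulSMul.algebraMap_injective _ _)
    | add u v hu hv a b => exact a.add b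
    | inv u hu a => exact IsAlgebraic.inv_iff.mpr a
    | mul u v hu hv a b => exact a.mul b
  have h5 : IsAlgebraic (Algebra.adjoin ℚ ((mons u W).toSubalgebra : Set ℂ)) z := by
    rw [Algebra.adjoin_eq]
    exact hz
  exact h5.adjoin_of_forall_isAlgebraic fun x hx => h4 x hx.1

end FreeL

open FreeL in
theorem free (hK : AllC) (_hT : Trd) : Free := by
  intro L _ _ c u W W' hc hu hx hW hW' hd z hz hz'
  obtain ⟨Ψ, hΨ⟩ := (hK L c hc).exType
  have h0 : ∀ τ, u τ ≠ 0 := fun τ => left_ne_zero_of_mul_eq_one (hu τ)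
  obtain ⟨σ, _, e, he, hl, ha⟩ := basis h0 W
  obtain ⟨σ', _, e', he', hl', ha'⟩ := basis h0 W'
  have hs : LinearIndependent ℚ fun (s : σ ⊕ σ') τ => (Sum.elim e e' s τ : ℚ) := by
    have h1 := hl.sum_type hl' (Disjoint.mono
      (Submodule.span_le.2 (by rintro _ ⟨s, rfl⟩; exact he s))
      (Submodule.span_le.2 (by rintro _ ⟨s, rfl⟩; exact he' s)) (disjoint_iff.2 hd))
    refine (congrArg (fun v : σ ⊕ σ' → Emb L → ℚ => LinearIndependent ℚ v)
      (funext fun s => ?_)).mpr h1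
    cases s <;> rfl
  have ho : ∀ s τ, Sum.elim e e' s (cj τ) = -Sum.elim e e' s τ := by
    rintro (s | s) τ
    · exact_mod_cast hW _ (he s) τ
    · exact_mod_cast hW' _ (he' s) τ
  have hi := indep_odd hu hΨ (hx Ψ hΨ) ho hs
  have hr : (Set.range fun s => mon u (Sum.elim e e' s)) =
      (Set.range fun s => mon u (e s)) ∪ Set.range fun s => mon u (e' s) := by
    ext y
    simp only [Set.mem_range, Sum.exists, Sum.elim_inl, Sum.elim_inr, Set.mem_union]
  have hI : (AlgebraicIndependent.matroid ℚ ℂ).Indep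
      ((Set.range fun s => mon u (e s)) ∪ Set.range fun s => mon u (e' s)) := by
    rw [← hr]
    exact AlgebraicIndependent.matroid_indep_iff.mpr hi.to_subtype_range
  have he0 : ((Set.range fun s => mon u (e s)) ∩ Set.range fun s => mon u (e' s)) = ∅ := by
    rw [Set.eq_empty_iff_forall_notMem]
    rintro y ⟨⟨s, hs⟩, ⟨s', hs'⟩⟩
    exact Sum.inl_ne_inr (hi.injective (a₁ := Sum.inl s) (a₂ := Sum.inr s') (hs.trans hs'.symm))
  have hc := hI.closure_inter_eq_inter_closure
  rw [he0] at hc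
  have hm : z ∈ (AlgebraicIndependent.matroid ℚ ℂ).closure ∅ := by
    rw [hc, AlgebraicIndependent.matroid_closure_eq, AlgebraicIndependent.matroid_closure_eq]
    exact ⟨ha z hz, ha' z hz'⟩
  rw [AlgebraicIndependent.matroid_closure_eq, Algebra.adjoin_empty] at hm
  have hb : IsAlgebraic (⊥ : Subalgebra ℚ ℂ) z := hm
  exact hb.restrictScalars ℚ

end

end Pool.Agent.GAM
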