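import Mathlib
import Pool.Agent.MP_cbf1af_ag.gam.BSpec

/-! IND: independent Mumford-Tate groups have disjoint odd characters. -/

namespace Pool.Agent.GAM

open Matrix Complex
open Pool.Agent.MTG

noncomputable section

namespace IndL

/-- the element of a subset with one element -/
def el (n : ℕ) (s : Sub n 1) : Fin n := s.1.orderEmbOfFin s.2 0

lemma el_mem {n : ℕ} (s : Sub n 1) : s.1 = {el n s} := by
  obtain ⟨a, ha⟩ := Finset.card_eq_one.1 s.2
  have h : el n s ∈ s.1 := Finset.orderEmbOfFin_mem _ _ _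
  rw [ha] at h ⊢
  rw [Finset.mem_singleton.1 h]

lemma el_bij (n : ℕ) : Function.Bijective (el n) := by
  constructor
  · intro s t h
    apply Subtype.ext
    rw [el_mem s, el_mem t, h]
  · intro k
    refine ⟨⟨{k}, Finset.card_singleton k⟩, ?_⟩
    have h := el_mem (⟨{k}, Finset.card_singleton k⟩ : Sub n 1)
    exact (Finset.singleton_injective h).symm

/-- subsets with one element -/
def ee (n : ℕ) : Sub n 1 ≃ Fin n := Equiv.ofBijective (el n) (el_bij n)

lemma minors_one {n : ℕ} (x : Matrix (Fin n) (Fin n) ℝ) :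
    ((minors 1 x).map fun r => (r : ℂ)) = (x.map fun r => (r : ℂ)).submatrix (ee n) (ee n) := by
  ext s t
  simp only [minors, Matrix.map_apply, Matrix.of_apply, Matrix.submatrix_apply, det_unique]
  rfl

variable {L : Type} [Field L] [NumberField L]

lemma eig_reindex {𝒥 : Type} {n : ℕ} {w : 𝒥 → Fin n → L} {p : 𝒥 → Emb L → ℕ} {z : ℂ}
    {x : Matrix (Fin n) (Fin n) ℂ} (h : Eig w p z x) :
    Eig (fun j s => w j (ee n s)) p z (x.submatrix (ee n) (ee n)) := by
  intro j σ
  rw [Matrix.submatrix_mulVec_equiv]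
  have h1 : ((fun s => σ (w j (ee n s))) ∘ (ee n).symm) = fun k => σ (w j k) := by
    funext k
    simp
  rw [h1, h j σ]
  rfl

lemma dim_one (hM : Mtd) [IsGalois ℚ L] {𝒥 : Type} [Fintype 𝒥] {g n : ℕ}
    (b : Fin n → Fin g → ℂ) (w : 𝒥 → Fin n → L) (p : 𝒥 → Emb L → ℕ) (h : Cmh w p 1 (hd1 b)) :
    dim (MT b 1) = Module.finrank ℚ (chars p) := by
  refine hM L (Sub n 1) 𝒥 (fun j s => w j (ee n s)) p 1
    {y | ∃ x, IsHodge b x ∧ y = (minors 1 x).map fun r => (r : ℂ)} inferInstance ?_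
  refine ⟨fun j hj => h.ne j ?_, ?_, h.wt, ?_, ?_⟩
  · funext k
    have h1 := congrFun hj ((ee n).symm k)
    simpa using h1
  · have h1 := congrArg (Submodule.map (LinearMap.funLeft L L (ee n))) h.span
    rw [Submodule.map_span, Submodule.map_top, ← Set.range_comp, LinearMap.range_eq_top.2
      (LinearMap.funLeft_surjective_of_injective L L _ (ee n).injective)] at h1
    exact h1
  · rintro y ⟨x, hx, rfl⟩
    obtain ⟨z, hz, hE⟩ := h.eig _ ⟨x, hx, rfl⟩
    refine ⟨z, hz, ?_⟩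
    rw [minors_one]
    exact eig_reindex hE
  · intro z hz
    obtain ⟨y, ⟨x, hx, rfl⟩, hE⟩ := h.ex z hz
    refine ⟨_, ⟨x, hx, rfl⟩, ?_⟩
    rw [minors_one]
    exact eig_reindex hE

lemma eig_of_lin {𝒥 : Type} {g n : ℕ} {b : Fin n → Fin g → ℂ} {w : 𝒥 → Fin n → L}
    {p : 𝒥 → Emb L → ℕ} (hw : ∀ j σ, p j σ + p j (cj σ) = 1) (hl : Lin b w p) {z : ℂ}
    {x : Matrix (Fin n) (Fin n) ℝ} (hx : ∀ k, z • b k = ∑ l, x k l • b l) :
    Eig w p z (x.map fun r => (r : ℂ)) := by
  have key : ∀ j (σ : Emb L), p j σ = 1 → ∀ k,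
      ∑ l, (x k l : ℂ) * σ (w j l) = z * σ (w j k) := by
    intro j σ h1 k
    obtain ⟨f, hf⟩ := hl j σ h1
    have h2 := congrArg f (hx k)
    rw [map_smul, map_sum, hf, smul_eq_mul] at h2
    rw [h2]
    refine Finset.sum_congr rfl fun l _ => ?_
    rw [LinearMap.map_smul_of_tower, hf, Complex.real_smul]
  intro j σ
  funext k
  have h0 := hw j σ
  simp only [Matrix.mulVec, dotProduct, Matrix.map_apply, Pi.smul_apply, smul_eq_mul]
  rcases Nat.eq_zero_or_pos (p j σ) with h1 | h1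
  · have h2 : p j (cj σ) = 1 := by omega
    have h3 := congrArg (starRingEnd ℂ) (key j (cj σ) h2 k)
    simp only [map_sum, map_mul, Complex.conj_ofReal,
      NumberField.ComplexEmbedding.conjugate_coe_eq, Complex.conj_conj] at h3
    rw [h3, h1, h2]
    simp
  · have h2 : p j σ = 1 := by omega
    have h3 : p j (cj σ) = 0 := by omega
    rw [key j σ h2 k, h2, h3]
    simp

section append
variable (R : Type) [CommSemiring R] (n n' : ℕ)

/-- first inclusion -/
def il : (Fin n → R) →ₗ[R] (Fin (n + n') → R) where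
  toFun v := Fin.append v 0
  map_add' u v := by
    funext k
    refine Fin.addCases (fun i => ?_) (fun i => ?_) k <;> simp
  map_smul' c v := by
    funext k
    refine Fin.addCases (fun i => ?_) (fun i => ?_) k <;> simp

/-- second inclusion -/
def ir : (Fin n' → R) →ₗ[R] (Fin (n + n') → R) where
  toFun v := Fin.append 0 v
  map_add' u v := by
    funext k
    refine Fin.addCases (fun i => ?_) (fun i => ?_) k <;> simp
  map_smul' c v := by
    funext k
    refine Fin.addCases (fun i => ?_) (fun i => ?_) k <;> simp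

lemma il_apply (v : Fin n → R) : il R n n' v = Fin.append v 0 := rfl

lemma ir_apply (v : Fin n' → R) : ir R n n' v = Fin.append 0 v := rfl

lemma il_add_ir (v : Fin (n + n') → R) :
    v = il R n n' (fun i => v (Fin.castAdd n' i)) + ir R n n' fun i => v (Fin.natAdd n i) := by
  funext k
  refine Fin.addCases (fun i => ?_) (fun i => ?_) k <;> simp [il_apply, ir_apply]

end append

lemma prod_left {g g' n n' : ℕ} (b : Fin n → Fin g → ℂ) (b' : Fin n' → Fin g' → ℂ) (k : Fin n) :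
    prodLat b b' (Fin.castAdd n' k) = il ℂ g g' (b k) := by
  simp [prodLat, il_apply]

lemma prod_right {g g' n n' : ℕ} (b : Fin n → Fin g → ℂ) (b' : Fin n' → Fin g' → ℂ)
    (k : Fin n') : prodLat b b' (Fin.natAdd n k) = ir ℂ g g' (b' k) := by
  simp [prodLat, ir_apply]

lemma prod_ex {g g' n n' : ℕ} (b : Module.Basis (Fin n) ℝ (Fin g → ℂ))
    (b' : Module.Basis (Fin n') ℝ (Fin g' → ℂ)) (z : ℂ) :
    ∃ x : Matrix (Fin (n + n')) (Fin (n + n')) ℝ,
      ∀ k, z • prodLat b b' k = ∑ l, x k l • prodLat b b' l := by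
  have h : ∀ k, z • prodLat b b' k ∈ Submodule.span ℝ (Set.range (prodLat b b')) := by
    intro k
    refine Fin.addCases (fun i => ?_) (fun i => ?_) k
    · rw [prod_left, ← map_smul, ← b.sum_repr (z • b i), map_sum]
      refine Submodule.sum_mem _ fun l _ => ?_
      rw [LinearMap.map_smul_of_tower, ← prod_left b b']
      exact Submodule.smul_mem _ _ (Submodule.subset_span ⟨_, rfl⟩)
    · rw [prod_right, ← map_smul, ← b'.sum_repr (z • b' i), map_sum]
      refine Submodule.sum_mem _ fun l _ => ?_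
      rw [LinearMap.map_smul_of_tower, ← prod_right b b']
      exact Submodule.smul_mem _ _ (Submodule.subset_span ⟨_, rfl⟩)
  choose x hx using fun k => (Submodule.mem_span_range_iff_exists_fun ℝ).1 (h k)
  exact ⟨Matrix.of x, fun k => (hx k).symm⟩

lemma prod_cmh {𝒥 𝒥' : Type} {g g' n n' : ℕ} (b : Module.Basis (Fin n) ℝ (Fin g → ℂ))
    (b' : Module.Basis (Fin n') ℝ (Fin g' → ℂ)) {w : 𝒥 → Fin n → L} {p : 𝒥 → Emb L → ℕ}
    {w' : 𝒥' → Fin n' → L} {p' : 𝒥' → Emb L → ℕ} (h : Cmh w p 1 (hd1 b)) (hl : Lin b w p)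
    (h' : Cmh w' p' 1 (hd1 b')) (hl' : Lin b' w' p') :
    Cmh (Sum.elim (fun j => il L n n' (w j)) fun j => ir L n n' (w' j)) (Sum.elim p p') 1
      (hd1 (prodLat b b')) := by
  have hw : ∀ (j : 𝒥 ⊕ 𝒥') σ, Sum.elim p p' j σ + Sum.elim p p' j (cj σ) = 1 := by
    rintro (j | j) σ
    · exact h.wt j σ
    · exact h'.wt j σ
  have hlin : Lin (prodLat b b')
      (Sum.elim (fun j => il L n n' (w j)) fun j => ir L n n' (w' j)) (Sum.elim p p') := by
    rintro (j | j) σ h1
    · obtain ⟨f, hf⟩ := hl j σ h1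
      refine ⟨f.comp (LinearMap.funLeft ℂ ℂ (Fin.castAdd g')), fun k => ?_⟩
      refine Fin.addCases (fun i => ?_) (fun i => ?_) k
      · have e : LinearMap.funLeft ℂ ℂ (Fin.castAdd g') (il ℂ g g' (b i)) = b i := by
          funext a
          simp [il_apply]
        rw [LinearMap.comp_apply, prod_left, e, hf]
        simp [il_apply]
      · have e : LinearMap.funLeft ℂ ℂ (Fin.castAdd g') (ir ℂ g g' (b' i)) = 0 := by
          funext a
          simp [ir_apply]
        rw [LinearMap.comp_apply, prod_right, e, map_zero]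
        simp [il_apply]
    · obtain ⟨f, hf⟩ := hl' j σ h1
      refine ⟨f.comp (LinearMap.funLeft ℂ ℂ (Fin.natAdd g)), fun k => ?_⟩
      refine Fin.addCases (fun i => ?_) (fun i => ?_) k
      · have e : LinearMap.funLeft ℂ ℂ (Fin.natAdd g) (il ℂ g g' (b i)) = 0 := by
          funext a
          simp [il_apply]
        rw [LinearMap.comp_apply, prod_left, e, map_zero]
        simp [ir_apply]
      · have e : LinearMap.funLeft ℂ ℂ (Fin.natAdd g) (ir ℂ g g' (b' i)) = b' i := by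
          funext a
          simp [ir_apply]
        rw [LinearMap.comp_apply, prod_right, e, hf]
        simp [ir_apply]
  refine ⟨?_, ?_, hw, ?_, ?_⟩
  · rintro (j | j) hj
    · refine h.ne j ?_
      funext k
      have h1 := congrFun hj (Fin.castAdd n' k)
      simpa [il_apply] using h1
    · refine h'.ne j ?_
      funext k
      have h1 := congrFun hj (Fin.natAdd n k)
      simpa [ir_apply] using h1
  · rw [eq_top_iff]
    intro v _
    rw [il_add_ir L n n' v]
    refine Submodule.add_mem _ ?_ ?_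
    · have h1 : (fun i => v (Fin.castAdd n' i)) ∈ Submodule.span L (Set.range w) := by
        rw [h.span]
        trivial
      have h2 := Submodule.mem_map_of_mem (f := il L n n') h1
      rw [Submodule.map_span] at h2
      refine Submodule.span_mono ?_ h2
      rintro _ ⟨_, ⟨j, rfl⟩, rfl⟩
      exact ⟨Sum.inl j, rfl⟩
    · have h1 : (fun i => v (Fin.natAdd n i)) ∈ Submodule.span L (Set.range w') := by
        rw [h'.span]
        trivial
      have h2 := Submodule.mem_map_of_mem (f := ir L n n') h1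
      rw [Submodule.map_span] at h2
      refine Submodule.span_mono ?_ h2
      rintro _ ⟨_, ⟨j, rfl⟩, rfl⟩
      exact ⟨Sum.inr j, rfl⟩
  · rintro y ⟨x, ⟨z, hz, hx⟩, rfl⟩
    exact ⟨z, hz, eig_of_lin hw hlin hx⟩
  · intro z hz
    obtain ⟨x, hx⟩ := prod_ex b b' z
    exact ⟨_, ⟨x, ⟨z, hz, hx⟩, rfl⟩, eig_of_lin hw hlin hx⟩

lemma chars_sum {𝒥 𝒥' : Type} (p : 𝒥 → Emb L → ℕ) (p' : 𝒥' → Emb L → ℕ) :
    chars (Sum.elim p p') = chars p ⊔ chars p' := by
  unfold chars
  rw [← Submodule.span_union]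
  congr 1
  ext f
  constructor
  · rintro ⟨⟨j | j, γ⟩, rfl⟩
    · exact Or.inl ⟨(j, γ), rfl⟩
    · exact Or.inr ⟨(j, γ), rfl⟩
  · rintro (⟨⟨j, γ⟩, rfl⟩ | ⟨⟨j, γ⟩, rfl⟩)
    · exact ⟨(Sum.inl j, γ), rfl⟩
    · exact ⟨(Sum.inr j, γ), rfl⟩

omit [NumberField L] in
lemma cj_cj (σ : Emb L) : cj (cj σ) = σ := star_star σ

omit [NumberField L] in
lemma cj_comp (σ : Emb L) (γ : L →+* L) : (cj σ).comp γ = cj (σ.comp γ) := rfl

lemma comp_bij [IsGalois ℚ L] (τ : Emb L) :
    Function.Bijective fun γ : L ≃ₐ[ℚ] L => τ.comp (γ : L →+* L) := by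
  rw [Fintype.bijective_iff_injective_and_card]
  constructor
  · intro γ γ' h
    ext x
    exact τ.injective (congrArg (fun f : Emb L => f x) h)
  · rw [NumberField.Embeddings.card L ℂ, ← Nat.card_eq_fintype_card,
      IsGalois.card_aut_eq_finrank]

lemma one_mem [IsGalois ℚ L] {𝒥 : Type} {p : 𝒥 → Emb L → ℕ} (j : 𝒥)
    (hw : ∀ σ, p j σ + p j (cj σ) = 1) : (1 : Emb L → ℚ) ∈ chars p := by
  set S : ℚ := ∑ σ : Emb L, (p j σ : ℚ) with hS
  have h1 : ∑ σ : Emb L, (p j (cj σ) : ℚ) = S :=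
    Fintype.sum_bijective cj (Function.Involutive.bijective cj_cj) _ _ fun _ => rfl
  have h2 : S + S = Fintype.card (Emb L) := by
    conv_lhs => rw [← h1]
    conv_lhs => lhs; rw [h1]
    rw [hS, ← Finset.sum_add_distrib, ← Finset.card_univ, Finset.card_eq_sum_ones]
    push_cast
    refine Finset.sum_congr rfl fun σ _ => ?_
    exact_mod_cast hw σ
  have h3 : S ≠ 0 := by
    intro h
    rw [h, add_zero] at h2
    have h4 : 0 < Fintype.card (Emb L) := Fintype.card_pos
    have h5 : (0 : ℚ) < Fintype.card (Emb L) := by exact_mod_cast h4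
    exact h5.ne h2
  have h4 : (1 : Emb L → ℚ) = S⁻¹ • ∑ γ : L ≃ₐ[ℚ] L,
      fun τ : Emb L => (p j (τ.comp (γ : L →+* L)) : ℚ) := by
    funext τ
    rw [Pi.smul_apply, Finset.sum_apply]
    have h5 : ∑ γ : L ≃ₐ[ℚ] L, (p j (τ.comp (γ : L →+* L)) : ℚ) = S :=
      Fintype.sum_bijective _ (comp_bij τ) _ _ fun _ => rfl
    rw [h5, smul_eq_mul, inv_mul_cancel₀ h3]
    rfl
  rw [h4]
  exact Submodule.smul_mem _ _ (Submodule.sum_mem _ fun γ _ =>
    Submodule.subset_span ⟨(j, γ), rfl⟩)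

lemma chars_eq [IsGalois ℚ L] {𝒥 : Type} {p : 𝒥 → Emb L → ℕ} (j₀ : 𝒥)
    (hw : ∀ j σ, p j σ + p j (cj σ) = 1) :
    chars p = chars0 p ⊔ Submodule.span ℚ {(1 : Emb L → ℚ)} := by
  have key : ∀ j (σ : Emb L), (p j σ : ℚ) - p j (cj σ) = 2 * p j σ - 1 := by
    intro j σ
    have h : (p j σ : ℚ) + p j (cj σ) = 1 := by exact_mod_cast hw j σ
    linarith
  apply le_antisymm
  · refine Submodule.span_le.2 ?_
    rintro _ ⟨⟨j, γ⟩, rfl⟩
    have e : (fun τ : Emb L => (p j (τ.comp (γ : L →+* L)) : ℚ)) = (1 / 2 : ℚ) •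
        ((fun τ : Emb L => (p j (τ.comp (γ : L →+* L)) : ℚ)
          - p j (cj (τ.comp (γ : L →+* L)))) + 1) := by
      funext τ
      simp only [Pi.smul_apply, Pi.add_apply, Pi.one_apply, smul_eq_mul, key]
      ring
    show (fun τ : Emb L => (p j (τ.comp (γ : L →+* L)) : ℚ)) ∈ _
    rw [e]
    exact Submodule.smul_mem _ _ (Submodule.add_mem_sup (Submodule.subset_span ⟨(j, γ), rfl⟩)
      (Submodule.mem_span_singleton_self _))
  · refine sup_le (Submodule.span_le.2 ?_) ?_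
    · rintro _ ⟨⟨j, γ⟩, rfl⟩
      have e : (fun τ : Emb L => (p j (τ.comp (γ : L →+* L)) : ℚ)
          - p j (cj (τ.comp (γ : L →+* L)))) = (2 : ℚ) •
          (fun τ : Emb L => (p j (τ.comp (γ : L →+* L)) : ℚ)) - 1 := by
        funext τ
        simp only [Pi.smul_apply, Pi.sub_apply, Pi.one_apply, smul_eq_mul, key]
      show (fun τ : Emb L => (p j (τ.comp (γ : L →+* L)) : ℚ)
          - p j (cj (τ.comp (γ : L →+* L)))) ∈ _
      rw [e]
      exact Submodule.sub_mem _ (Submodule.smul_mem _ _ (Submodule.subset_span ⟨(j, γ), rfl⟩))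
        (one_mem j₀ (hw j₀))
    · rw [Submodule.span_singleton_le_iff_mem]
      exact one_mem j₀ (hw j₀)

/-- odd functions -/
def odd (L : Type) [Field L] [NumberField L] : Submodule ℚ (Emb L → ℚ) where
  carrier := {e | ∀ τ, e (cj τ) = -e τ}
  add_mem' := fun {a b} ha hb τ => by
    rw [Pi.add_apply, Pi.add_apply, ha τ, hb τ]
    ring
  zero_mem' := fun τ => by simp
  smul_mem' := fun c a ha τ => by
    rw [Pi.smul_apply, Pi.smul_apply, ha τ, smul_neg]

lemma chars0_le {𝒥 : Type} (p : 𝒥 → Emb L → ℕ) : chars0 p ≤ odd L := by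
  refine Submodule.span_le.2 ?_
  rintro _ ⟨⟨j, γ⟩, rfl⟩ τ
  simp only [cj_comp, cj_cj]
  ring

lemma rank_succ {W : Submodule ℚ (Emb L → ℚ)} (h : W ≤ odd L) :
    Module.finrank ℚ ↥(W ⊔ Submodule.span ℚ {(1 : Emb L → ℚ)}) = Module.finrank ℚ W + 1 := by
  refine Submodule.finrank_sup_span_singleton fun h1 => ?_
  obtain ⟨τ⟩ : Nonempty (Emb L) := inferInstance
  have h2 := h h1 τ
  norm_num at h2

omit [NumberField L] in
lemma nonempty_of {𝒥 : Type} {n : ℕ} (hn : 0 < n) {w : 𝒥 → Fin n → L}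
    (h : Submodule.span L (Set.range w) = ⊤) : Nonempty 𝒥 := by
  by_contra hc
  rw [not_nonempty_iff] at hc
  rw [Set.range_eq_empty, Submodule.span_empty] at h
  have h1 : (1 : Fin n → L) ∈ (⊥ : Submodule L (Fin n → L)) := by
    rw [h]
    trivial
  have h2 := congrFun ((Submodule.mem_bot L).1 h1) ⟨0, hn⟩
  exact one_ne_zero h2

end IndL

open IndL in
theorem ind' (hM : Mtd) : Ind := by
  intro g g' b b' L _ _ 𝒥 𝒥' _ _ w p w' p' hG hg hg' h hl h' hl' hd
  obtain ⟨j⟩ := nonempty_of (by omega) h.span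
  obtain ⟨j'⟩ := nonempty_of (by omega) h'.span
  rw [dim_one hM _ _ _ (prod_cmh b b' h hl h' hl'), dim_one hM _ _ _ h, dim_one hM _ _ _ h',
    chars_sum, chars_eq j h.wt, chars_eq j' h'.wt, ← sup_sup_distrib_right,
    rank_succ (sup_le (chars0_le p) (chars0_le p')), rank_succ (chars0_le p),
    rank_succ (chars0_le p')] at hd
  have h1 : Module.finrank ℚ ↥(chars0 p ⊔ chars0 p') + 1 + 1
      = Module.finrank ℚ (chars0 p) + 1 + (Module.finrank ℚ (chars0 p') + 1) := by
    exact_mod_cast hd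
  have h2 := Submodule.finrank_sup_add_finrank_inf_eq (chars0 p) (chars0 p')
  rw [← Submodule.finrank_eq_zero]
  omega

end

end Pool.Agent.GAM
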