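import Mathlib
import Pool.Agent.MP_cbf1af_ag.gam.Spec

/-! PROJECT GAM, module NONALG, second proof: the incomplete beta integral is a transcendental function. -/

namespace Pool.Agent.GAM

open Filter Topology Polynomial
open scoped Polynomial.Bivariate

namespace NonA

theorem algG_mul {f g : ℂ → ℂ} (hf : AlgG f) (hg : AlgG g) : AlgG fun x => f x * g x := by
  obtain ⟨P, P0, hP⟩ := hf
  obtain ⟨Q, Q0, hQ⟩ := hg
  let U : Set ℂ := {x | P.evalEval x (f x) = 0 ∧ Q.evalEval x (g x) = 0}
  let _ : Algebra ℂ[X] (U → ℂ) := (RingHom.pi fun x : U => evalRingHom x.1).toAlgebra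
  have key : ∀ (R : ℂ[X][Y]) (h : U → ℂ) (x : U), aeval h R x = R.evalEval x.1 (h x) := by
    intro R h x
    induction R using Polynomial.induction_on' with
    | add p q hp hq => rw [map_add, Pi.add_apply, hp, hq, evalEval_add]
    | monomial n a =>
      rw [aeval_monomial, ← C_mul_X_pow_eq_monomial, evalEval_mul, evalEval_C, evalEval_pow,
        evalEval_X]
      rfl
  have h1 : IsAlgebraic ℂ[X] fun x : U => f x := ⟨P, P0, funext fun x => (key _ _ x).trans x.2.1⟩
  have h2 : IsAlgebraic ℂ[X] fun x : U => g x := ⟨Q, Q0, funext fun x => (key _ _ x).trans x.2.2⟩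
  obtain ⟨R, R0, hR⟩ := h1.mul h2
  refine ⟨R, R0, ?_⟩
  filter_upwards [hP, hQ] with x a b
  exact (key R _ ⟨x, a, b⟩).symm.trans (congrFun hR _)

theorem ex_der (P : ℂ[X][Y]) : ∃ Q : ℂ[X][Y], (∀ i, Q.coeff i = derivative (P.coeff i)) ∧
    ∀ (g : ℂ → ℂ) (g' x : ℂ), HasDerivAt g g' x → HasDerivAt (fun x => P.evalEval x (g x))
      (Q.evalEval x (g x) + (derivative P).evalEval x (g x) * g') x := by
  induction P using Polynomial.induction_on' with
  | add p q hp hq =>
    obtain ⟨p', a1, a2⟩ := hp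
    obtain ⟨q', b1, b2⟩ := hq
    refine ⟨p' + q', fun i => by simp [a1, b1], fun g g' x h => ?_⟩
    simp only [evalEval_add, derivative_add]
    exact ((a2 g g' x h).fun_add (b2 g g' x h)).congr_deriv (by ring)
  | monomial n a =>
    refine ⟨monomial n (derivative a), fun i => ?_, fun g g' x h => ?_⟩
    · rw [coeff_monomial, coeff_monomial]
      split_ifs <;> simp
    · rw [derivative_monomial]
      simp only [← C_mul_X_pow_eq_monomial, evalEval_mul, evalEval_C, evalEval_pow, evalEval_X]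
      refine ((a.hasDerivAt x).fun_mul (h.fun_pow n)).congr_deriv ?_
      simp
      ring

theorem no_rat {N A B n : ℕ} (hB : 0 < B) (hA : A ≤ N) (hBN : B ≤ N) (hn : 0 < n) (m : ℕ) :
    ∀ p q : ℂ[X], q.natDegree = m → q ≠ 0 →
      (1 - X ^ (N + 1)) * (q * derivative p - derivative q * p) +
        C ((n : ℂ) * (N + 1)) * X ^ (A - 1) * q ^ 2 - C (B : ℂ) * X ^ N * p * q ≠ 0 := by
  induction m with
  | zero =>
    intro p q h q0 e
    obtain ⟨c, rfl⟩ := natDegree_eq_zero.1 h
    have c0 : c ≠ 0 := fun h => q0 (by simp [h])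
    have N0 : (N : ℂ) + 1 ≠ 0 := by exact_mod_cast Nat.succ_ne_zero N
    have n0 : (n : ℂ) ≠ 0 := Nat.cast_ne_zero.2 hn.ne'
    have e1 : derivative p - X ^ N * (X * derivative p) +
        C ((n : ℂ) * (N + 1) * c) * X ^ (A - 1) - C (B : ℂ) * (X ^ N * p) = 0 := by
      refine mul_left_cancel₀ q0 ?_
      rw [derivative_C] at e
      rw [C_mul (a := (n : ℂ) * (N + 1))]
      linear_combination e
    by_cases p0 : p = 0
    · have := congrArg (coeff · (A - 1)) e1
      simp only [p0, derivative_zero, mul_zero, sub_zero, zero_add, coeff_C_mul, coeff_X_pow,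
        if_true, mul_one, coeff_zero] at this
      exact mul_ne_zero (mul_ne_zero n0 N0) c0 this
    · have h1 := congrArg (coeff · (p.natDegree + N)) e1
      have h2 : (X * derivative p).coeff p.natDegree = p.natDegree * p.leadingCoeff := by
        rw [leadingCoeff]
        rcases p.natDegree with _ | k
        · simp
        · rw [coeff_X_mul, coeff_derivative]
          push_cast
          ring
      have h3 : (derivative p).coeff (p.natDegree + N) = 0 := by
        rw [coeff_derivative, coeff_eq_zero_of_natDegree_lt (by omega), zero_mul]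
      have h4 : p.natDegree + N ≠ A - 1 := by omega
      simp only [coeff_sub, coeff_add, coeff_C_mul, coeff_X_pow_mul, coeff_X_pow, h2, h3, h4,
        if_false, coeff_zero, coeff_natDegree] at h1
      have h5 : ((p.natDegree + B : ℕ) : ℂ) * p.leadingCoeff = 0 := by
        push_cast
        linear_combination -h1
      exact mul_ne_zero (Nat.cast_ne_zero.2 (by omega)) (leadingCoeff_ne_zero.2 p0) h5
  | succ m ih =>
    intro p q h q0 e
    obtain ⟨c, hc⟩ := IsAlgClosed.exists_root q (degree_ne_of_natDegree_ne (n := 0) (by omega))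
    have X0 : X - C c ≠ 0 := X_sub_C_ne_zero c
    by_cases hp : p.IsRoot c
    · obtain ⟨p, rfl⟩ := dvd_iff_isRoot.2 hp
      obtain ⟨q, rfl⟩ := dvd_iff_isRoot.2 hc
      have q1 : q ≠ 0 := right_ne_zero_of_mul q0
      rw [natDegree_mul X0 q1, natDegree_X_sub_C] at h
      refine ih p q (by omega) q1 (mul_left_cancel₀ (pow_ne_zero 2 X0) ?_)
      simp only [derivative_mul, derivative_X_sub_C] at e
      linear_combination e
    · obtain ⟨q1, e1, h1⟩ := exists_eq_pow_rootMultiplicity_mul_and_not_dvd q q0 c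
      obtain ⟨k, hk⟩ := Nat.exists_eq_succ_of_ne_zero ((rootMultiplicity_pos q0).2 hc).ne'
      rw [hk] at e1
      rw [dvd_iff_isRoot] at h1
      have e2 : (1 - X ^ (N + 1)) * ((X - C c) * q1 * derivative p -
          (C ((k : ℂ) + 1) * q1 + (X - C c) * derivative q1) * p) +
          (X - C c) * (C ((n : ℂ) * (N + 1)) * X ^ (A - 1) * (X - C c) ^ (k + 1) * q1 ^ 2 -
            C (B : ℂ) * X ^ N * p * q1) = 0 := by
        refine mul_left_cancel₀ (pow_ne_zero k X0) ?_
        rw [e1, derivative_mul, derivative_X_sub_C_pow] at e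
        simp only [Nat.succ_eq_add_one, Nat.add_sub_cancel, Nat.cast_add, Nat.cast_one] at e
        linear_combination e
      have k0 : (k : ℂ) + 1 ≠ 0 := by exact_mod_cast Nat.succ_ne_zero k
      have h2 : 1 - c ^ (N + 1) = 0 := by
        have := congrArg (eval c) e2
        simp only [eval_add, eval_mul, eval_sub, eval_X, eval_C, sub_self, zero_mul, eval_pow,
          eval_one, eval_zero, add_zero, zero_sub, mul_neg, neg_eq_zero] at this
        exact (mul_eq_zero.1 this).resolve_right (mul_ne_zero (mul_ne_zero k0 h1) hp)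
      obtain ⟨d, hd⟩ := (dvd_iff_isRoot (a := c) (p := 1 - X ^ (N + 1))).2 (by simpa using h2)
      have h3 : d.eval c = -((N + 1) * c ^ N) := by
        have := congrArg (fun r => eval c (derivative r)) hd
        simpa [derivative_mul] using this.symm
      rw [hd, mul_assoc, ← mul_add] at e2
      have h4 := congrArg (eval c) ((mul_eq_zero.1 e2).resolve_left X0)
      simp only [eval_add, eval_mul, eval_sub, eval_X, eval_C, sub_self, zero_mul, eval_pow,
        eval_zero, add_zero, zero_sub, h3, zero_pow (Nat.succ_ne_zero k), mul_zero] at h4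
      have c0 : c ≠ 0 := fun h => by simp [h] at h2
      have h5 : ((N : ℂ) + 1) * (k + 1) = B := by
        refine mul_right_cancel₀ (mul_ne_zero (pow_ne_zero N c0) (mul_ne_zero h1 hp)) ?_
        linear_combination h4
      have h6 : (N + 1) * (k + 1) = B := by exact_mod_cast h5
      nlinarith

theorem ode {N A B : ℕ} (hB : 0 < B) (hA : A ≤ N) (hBN : B ≤ N) {g : ℂ → ℂ}
    (hg : ∀ᶠ x in 𝓝 (0 : ℂ), ∃ g', HasDerivAt g g' x ∧
      (1 - x ^ (N + 1)) * g' = (N + 1) * x ^ (A - 1) + B * x ^ N * g x) : ¬ AlgG g := by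
  classical
  intro h
  have h0 : ∃ n, ∃ P : ℂ[X][Y], P.natDegree = n ∧ P ≠ 0 ∧
      ∀ᶠ x in 𝓝 (0 : ℂ), P.evalEval x (g x) = 0 := by
    obtain ⟨P, h1, h2⟩ := h
    exact ⟨_, P, rfl, h1, h2⟩
  obtain ⟨P, hn, P0, hP⟩ := Nat.find_spec h0
  have hmin : ∀ R : ℂ[X][Y], R.natDegree < P.natDegree →
      (∀ᶠ x in 𝓝 (0 : ℂ), R.evalEval x (g x) = 0) → R = 0 := fun R h1 h2 => by
    by_contra h3
    exact Nat.find_min h0 (hn ▸ h1) ⟨R, rfl, h3, h2⟩
  clear hn
  have l0 := leadingCoeff_ne_zero.2 P0
  rcases hk : P.natDegree with _ | k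
  · obtain ⟨c, rfl⟩ := natDegree_eq_zero.1 hk
    refine P0 (C_eq_zero.2 (c.eq_zero_of_infinite_isRoot (infinite_of_mem_nhds (0 : ℂ) ?_)))
    filter_upwards [hP] with x hx
    rwa [evalEval_C] at hx
  obtain ⟨Q, q1, q2⟩ := ex_der P
  set R : ℂ[X][Y] := C (1 - X ^ (N + 1)) * Q + (C (C ((N : ℂ) + 1) * X ^ (A - 1)) * derivative P +
    C (C (B : ℂ) * X ^ N) * (X * derivative P)) with hR
  have r1 : ∀ i : ℕ, R.coeff i = (1 - X ^ (N + 1)) * derivative (P.coeff i) +
      (C ((N : ℂ) + 1) * X ^ (A - 1) * (P.coeff (i + 1) * ((i : ℂ[X]) + 1)) +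
        C (B : ℂ) * X ^ N * (P.coeff i * (i : ℂ[X]))) := by
    intro i
    rw [hR, coeff_add, coeff_add, coeff_C_mul, coeff_C_mul, coeff_C_mul, q1, coeff_derivative]
    congr 3
    rcases i with _ | i
    · simp
    · rw [coeff_X_mul, coeff_derivative]
      push_cast
      rfl
  have r2 : ∀ᶠ x in 𝓝 (0 : ℂ), R.evalEval x (g x) = 0 := by
    filter_upwards [hg, hP.eventually_nhds] with x ⟨g', h1⟩ h2
    have h3 := (q2 g _ x h1.1).unique ((hasDerivAt_const x (0 : ℂ)).congr_of_eventuallyEq h2)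
    simp only [hR, evalEval_add, evalEval_mul, evalEval_C, evalEval_X, eval_sub, eval_one,
      eval_pow, eval_X, eval_mul, eval_C]
    linear_combination (1 - x ^ (N + 1)) * h3 - (derivative P).evalEval x (g x) * h1.2
  have z : ∀ i, k + 1 < i → P.coeff i = 0 := fun i hi =>
    coeff_eq_zero_of_natDegree_lt (hk ▸ hi)
  have r3 : C (P.coeff (k + 1)) * R - C (R.coeff (k + 1)) * P = 0 := by
    refine hmin _ ((Nat.lt_succ_of_le (natDegree_le_iff_coeff_eq_zero.2
      fun i (hi : k < i) => ?_)).trans_eq hk.symm) ?_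
    · rw [coeff_sub, coeff_C_mul, coeff_C_mul]
      rcases (Nat.succ_le_of_lt hi).eq_or_lt with h1 | h1
      · rw [← h1]
        ring
      · rw [r1 i, z i h1, z (i + 1) (by omega)]
        simp
    · filter_upwards [r2, hP] with x h1 h2
      rw [evalEval_sub, evalEval_mul, evalEval_mul, h1, h2]
      simp
  have r4 := congrArg (coeff · k) r3
  simp only [coeff_sub, coeff_C_mul, r1, z (k + 1 + 1) (by omega), coeff_zero] at r4
  rw [leadingCoeff, hk] at l0
  refine no_rat hB hA hBN (Nat.succ_pos k) _ (P.coeff k) (P.coeff (k + 1)) rfl l0 ?_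
  simp only [map_mul, map_add, map_natCast, map_one, Nat.cast_add, Nat.cast_one,
    Nat.succ_eq_add_one] at r4 ⊢
  linear_combination r4

end NonA

open NonA in
theorem NonA.nonAlg (h : AllCh) : NonAlg := by
  intro N A B hA hB hN H
  obtain ⟨N, rfl⟩ := Nat.exists_eq_succ_of_ne_zero (by omega : N ≠ 0)
  have c := h (N + 1) A B (Nat.succ_pos N) hA
  have N0 : (N : ℂ) + 1 ≠ 0 := by exact_mod_cast Nat.succ_ne_zero N
  have hO : Om (N + 1) ∈ 𝓝 (0 : ℂ) := c.opn.mem_nhds (by simp [Om])
  have hu : AlgG fun x => (1 - x ^ (N + 1)) ^ (-((B : ℂ) / (N + 1))) := by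
    refine ⟨C ((1 - X ^ (N + 1)) ^ B) * X ^ (N + 1) - 1, fun e => ?_, ?_⟩
    · simpa using congrArg (coeff · 0) e
    · filter_upwards [hO] with x hx
      have h0 := Complex.slitPlane_ne_zero hx
      simp only [evalEval_sub, evalEval_mul, evalEval_C, evalEval_pow, evalEval_X, evalEval_one,
        eval_pow, eval_sub, eval_one, eval_X]
      rw [← Complex.cpow_nat_mul, ← Complex.cpow_natCast _ B, ← Complex.cpow_add _ _ h0]
      have e : (B : ℂ) + ((N + 1 : ℕ) : ℂ) * -((B : ℂ) / (N + 1)) = 0 := by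
        push_cast
        field_simp
        ring
      rw [e, Complex.cpow_zero, sub_self]
  refine ode (N := N) (A := A) hB (by omega) (by omega) ?_ (algG_mul H hu)
  · filter_upwards [hO] with x hx
    have h0 := Complex.slitPlane_ne_zero hx
    refine ⟨_, (c.der x hx).fun_mul (((hasDerivAt_pow (N + 1) x).const_sub 1).cpow_const hx), ?_⟩
    simp only [Nat.cast_add, Nat.cast_one, Nat.add_sub_cancel, Nat.succ_eq_add_one]
    have e1 : ∀ r : ℂ, (1 - x ^ (N + 1)) ^ (r - 1) = (1 - x ^ (N + 1)) ^ r / (1 - x ^ (N + 1)) :=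
      fun r => by rw [Complex.cpow_sub _ _ h0, Complex.cpow_one]
    have e2 : (1 - x ^ (N + 1)) ^ ((B : ℂ) / (N + 1)) ≠ 0 :=
      fun e => h0 (Complex.cpow_eq_zero_iff _ _ |>.1 e).1
    rw [e1, e1, Complex.cpow_neg]
    field_simp

end Pool.Agent.GAM
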