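import Mathlib
import Pool.Agent.MP_cbf1af_ag.gam.BSpec
import Pool.Agent.MP_cbf1af_ag.gam.Rat

/-! PROJECT GAM, module RAT2: the field of periods when `π` is free -/

namespace Pool.Agent.GAM

open Matrix Complex
open Pool.Agent.CMP (Qb)
open Pool.Agent.MTG

namespace Rt2

theorem trdeg_simple_ge (G : IntermediateField ℚ ℂ) {x : ℂ} (hx : ¬IsAlgebraic G x) :
    Algebra.trdeg ℚ G + 1 ≤
      Algebra.trdeg ℚ ((IntermediateField.adjoin G {x}).restrictScalars ℚ) := by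
  let L := IntermediateField.adjoin G {x}
  have h1 : Algebra.trdeg ℚ G + Algebra.trdeg G L = Algebra.trdeg ℚ L := trdeg_add_eq ℚ G
  have h2 : 1 ≤ Algebra.trdeg G L := by
    let x' : L := ⟨x, IntermediateField.mem_adjoin_simple_self G x⟩
    have : Algebra.Transcendental G L :=
      ⟨⟨x', fun h => hx (IntermediateField.isAlgebraic_iff.1 h)⟩⟩
    exact Cardinal.one_le_iff_pos.2 (trdeg_pos G L)
  change _ ≤ Algebra.trdeg ℚ L
  rw [← h1]
  exact add_le_add le_rfl h2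

theorem alg_trans {F G : IntermediateField ℚ ℂ} (h : ∀ x ∈ F, IsAlgebraic G x) {z : ℂ}
    (hz : IsAlgebraic F z) : IsAlgebraic G z := by
  let L := algebraicClosure G ℂ
  have hle : F ≤ L.restrictScalars ℚ := fun x hx => mem_algebraicClosure_iff.2 (h x hx)
  have h1 : IsAlgebraic L z := by
    obtain ⟨q, hq, h0⟩ := hz
    let φ : F →+* L := (IntermediateField.inclusion hle).toRingHom
    refine ⟨q.map φ, (Polynomial.map_ne_zero_iff φ.injective).2 hq, ?_⟩
    rw [Polynomial.aeval_def, Polynomial.eval₂_map]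
    exact h0
  exact h1.restrictScalars G

variable {L : Type} [Field L] [NumberField L]

theorem sq_prod {u : Emb L → ℂ} (hu : ∀ τ, u τ * u (cj τ) = 1) (f : Emb L → ℕ) :
    (∏ τ, u τ ^ f τ) ^ 2 = ∏ τ, u τ ^ ((f τ : ℤ) - f (cj τ)) := by
  have hu0 : ∀ τ, u τ ≠ 0 := fun τ => left_ne_zero_of_mul_eq_one (hu τ)
  have h1 : ∏ τ, u τ ^ f τ = ∏ τ, (u τ ^ f (cj τ))⁻¹ := by
    refine Finset.prod_nbij' cj cj (fun a _ => Finset.mem_univ _) (fun a _ => Finset.mem_univ _)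
      (fun a _ => Rt.cj_cj a) (fun a _ => Rt.cj_cj a) fun a _ => ?_
    rw [Rt.cj_cj, eq_inv_of_mul_eq_one_right (hu a), inv_pow, inv_inv]
  rw [sq]
  nth_rewrite 2 [h1]
  rw [← Finset.prod_mul_distrib]
  refine Finset.prod_congr rfl fun τ _ => ?_
  rw [zpow_sub₀ (hu0 τ), zpow_natCast, zpow_natCast, div_eq_mul_inv]

end Rt2

open Rt Rt2 in
theorem rat2 (hK : AllC) (_hT : Trd) (hR : Rat) : Rat2 := by
  intro L κ κ' 𝒥 _ _ _ _ _ c σ₀ u w p n P X W hc hG hn hJ hu hind hw hp hP hA hX hW hπ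
  obtain ⟨r1, -, r3⟩ := hR L κ κ' 𝒥 c σ₀ u w p n P X hc hG hn hJ hu hind hw hp hP hA hX
  obtain ⟨j₀⟩ := hJ
  have hC := hK L c hc
  let Pa : 𝒥 × (L ≃ₐ[ℚ] L) → ℂ := fun a => P a.1 (σ₀.comp (a.2 : L →+* L))
  let f : 𝒥 × (L ≃ₐ[ℚ] L) → Emb L → ℕ := fun a τ => p a.1 (τ.comp (a.2 : L →+* L))
  let a₀ : 𝒥 × (L ≃ₐ[ℚ] L) := (j₀, 1)
  have hPa : ∀ a, Pa a ≠ 0 := fun a => hP _ _
  have hu0 : ∀ τ, u τ ≠ 0 := fun τ => left_ne_zero_of_mul_eq_one (hu τ)
  have h2 : (2 * Real.pi * I : ℂ) ^ n ≠ 0 := pow_ne_zero _ two_pi_I_ne_zero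
  have h7 : ∀ a, ∏ τ, u τ ^ f a τ ≠ 0 := fun a =>
    Finset.prod_ne_zero_iff.2 fun τ _ => pow_ne_zero _ (hu0 τ)
  -- the monomials
  have hr : ∀ a, IsAlgebraic (mons u W) (∏ τ, u τ ^ f a τ) := by
    intro a
    refine IsAlgebraic.of_pow two_pos ?_
    rw [sq_prod hu]
    have h1 : (∏ τ, u τ ^ ((f a τ : ℤ) - f a (cj τ))) ∈ mons u W := by
      refine IntermediateField.subset_adjoin _ _ ⟨fun τ => (f a τ : ℤ) - f a (cj τ), hW ?_, rfl⟩
      refine Submodule.subset_span ⟨a, ?_⟩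
      ext τ
      push_cast
      rfl
    exact isAlgebraic_algebraMap (⟨_, h1⟩ : mons u W)
  have hq : ∀ a, IsAlgebraic (mons u W) (Pa a ^ 2 / (2 * Real.pi * I) ^ n) := by
    intro a
    have h4 : Alg (Pa a ^ 2 / ((2 * Real.pi * I) ^ n * ∏ τ, u τ ^ f a τ)) := hA a.1 a.2
    have h5 := (IsAlgebraic.tower_top (mons u W) h4).mul (hr a)
    rwa [← div_div, div_mul_cancel₀ _ (h7 a)] at h5
  have hy : ∀ a, IsAlgebraic (mons u W) (Pa a / Pa a₀) := by
    intro a
    refine IsAlgebraic.of_pow two_pos ?_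
    have h5 := (hq a).mul (IsAlgebraic.inv_iff.2 (hq a₀))
    rwa [← div_eq_mul_inv, div_div_div_cancel_right₀ h2, ← div_pow] at h5
  let G : IntermediateField ℚ ℂ := (algebraicClosure (mons u W) ℂ).restrictScalars ℚ
  have hG' : ∀ x ∈ G, IsAlgebraic (mons u W) x := fun x hx => mem_algebraicClosure_iff.1 hx
  -- the entries
  have hE : ∀ i j, X i j ∈ Submodule.span Qb (Set.range Pa) := by
    intro i j
    have h1 : (fun i => X i j) ∈ evs w P := hX ▸ Submodule.subset_span ⟨j, rfl⟩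
    refine apply_mem i ?_ h1
    rintro _ ⟨⟨j', σ⟩, rfl⟩
    obtain ⟨γ, hγ⟩ := exists_aut σ₀ σ
    have h2 : P j' σ ∈ Submodule.span Qb (Set.range Pa) :=
      Submodule.subset_span ⟨(j', γ), by rw [hγ]⟩
    have h3 := Submodule.smul_mem _
      (⟨σ (w j' i), mem_algebraicClosure_iff.2 (hC.alg _ _)⟩ : Qb) h2
    rwa [IntermediateField.smul_def, smul_eq_mul, mul_comm] at h3
  have hX1 : ∀ i j, IsAlgebraic (mons u W) (X i j / Pa a₀) := by
    intro i j
    have h1 : ∀ s ∈ Set.range Pa, s / Pa a₀ ∈ G := by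
      rintro _ ⟨a, rfl⟩
      exact mem_algebraicClosure_iff.2 (hy a)
    exact alg_trans hG' (mem_algebraicClosure_iff.1 (alg_of_span h1 (hE i j)))
  obtain ⟨i₀, k₀, h0⟩ : ∃ i k, X i k ≠ 0 := by
    by_contra h
    push Not at h
    obtain ⟨k, hk⟩ := Function.ne_iff.1 (hw j₀)
    have h1 : (fun k => P j₀ σ₀ * σ₀ (w j₀ k)) ∈ cols X :=
      hX ▸ Submodule.subset_span ⟨(j₀, σ₀), rfl⟩
    have h3 : P j₀ σ₀ * σ₀ (w j₀ k) ∈ (⊥ : Submodule Qb ℂ) := by
      refine apply_mem k ?_ h1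
      rintro _ ⟨j, rfl⟩
      exact h k j
    exact mul_ne_zero (hP _ _) ((map_ne_zero σ₀).2 hk) h3
  have hQ : ∀ x ∈ quotField X, IsAlgebraic (mons u W) x := by
    have hle : quotField X ≤ G := by
      refine IntermediateField.adjoin_le_iff.2 ?_
      rintro _ ⟨i, j, k, l, rfl⟩
      rw [← div_div_div_cancel_right₀ (hPa a₀), div_eq_mul_inv]
      exact mem_algebraicClosure_iff.2 ((hX1 i j).mul (IsAlgebraic.inv_iff.2 (hX1 k l)))
    exact fun x hx => hG' x (hle hx)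
  have hx : ¬IsAlgebraic (quotField X) (X i₀ k₀) := by
    intro h
    apply hπ
    have h1 := (alg_trans hQ h).mul (IsAlgebraic.inv_iff.2 (hX1 i₀ k₀))
    rw [← div_eq_mul_inv, div_div_cancel₀ h0] at h1
    have h3 := (h1.pow 2).mul (IsAlgebraic.inv_iff.2 (hq a₀))
    rw [← div_eq_mul_inv, div_div_cancel₀ (pow_ne_zero 2 (hPa a₀))] at h3
    have h4 := IsAlgebraic.of_pow hn h3
    have h5 : IsAlgebraic (mons u W) (2 * I : ℂ) := by
      refine IsAlgebraic.of_pow two_pos ?_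
      have e : (2 * I : ℂ) ^ 2 = algebraMap (mons u W) ℂ (-4) := by
        rw [mul_pow, I_sq, map_neg, map_ofNat]
        norm_num
      rw [e]
      exact isAlgebraic_algebraMap _
    have h6 := h4.mul (IsAlgebraic.inv_iff.2 h5)
    have e : (2 * Real.pi * I : ℂ) * (2 * I)⁻¹ = Real.pi := by
      field_simp
    rwa [e] at h6
  have hle : (IntermediateField.adjoin (quotField X) {X i₀ k₀}).restrictScalars ℚ ≤
      entryField X := by
    have h1 : quotField X ≤ entryField X := by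
      refine IntermediateField.adjoin_le_iff.2 ?_
      rintro _ ⟨i, j, k, l, rfl⟩
      exact div_mem (IntermediateField.subset_adjoin _ _ ⟨i, j, rfl⟩)
        (IntermediateField.subset_adjoin _ _ ⟨k, l, rfl⟩)
    intro z hz
    change z ∈ IntermediateField.adjoin (quotField X) {X i₀ k₀} at hz
    induction hz using IntermediateField.adjoin_induction with
    | mem z hz =>
      obtain rfl := hz
      exact IntermediateField.subset_adjoin _ _ ⟨i₀, k₀, rfl⟩
    | algebraMap q => exact h1 q.2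
    | add a b _ _ ha hb => exact add_mem ha hb
    | inv a _ ha => exact inv_mem ha
    | mul a b _ _ ha hb => exact mul_mem ha hb
  rw [← r1]
  exact le_antisymm r3 ((trdeg_simple_ge _ hx).trans (trdeg_mono hle))

end Pool.Agent.GAM
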