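import Pool.Agent.MP_cbf1af_ag.gam.Wedge
import Pool.Agent.MP_cbf1af_ag.gam.GamF
import Pool.Agent.MP_cbf1af_ag.cmp2.Quot
import Pool.Agent.MP_cbf1af_ag.ell.Pi

/-! PROJECT GAM: of two independent CM abelian varieties one satisfies the conjecture. -/

namespace Pool.Agent.GAM

open Matrix Complex Pool.Agent.ELL Pool.Agent.MTG Pool.Agent.SHP
open Pool.Agent.CMQ (IsTheta)

/-- the statement -/
def TwoStmt : Prop :=
  ∀ (g N : ℕ) (Θ : Fin (N + 1) → (Fin g → ℂ) → ℂ) (Λ : AddSubgroup (Fin g → ℂ))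
    (η : (Fin g → ℂ) → (Fin g → ℂ) →ₗ[ℂ] ℂ) (b : Module.Basis (Fin (2 * g)) ℝ (Fin g → ℂ))
    (g' N' : ℕ) (Θ' : Fin (N' + 1) → (Fin g' → ℂ) → ℂ) (Λ' : AddSubgroup (Fin g' → ℂ))
    (η' : (Fin g' → ℂ) → (Fin g' → ℂ) →ₗ[ℂ] ℂ) (b' : Module.Basis (Fin (2 * g')) ℝ (Fin g' → ℂ)),
    IsTheta Θ Λ η → Λ = AddSubgroup.closure (Set.range b) → IsCM b →
    IsTheta Θ' Λ' η' → Λ' = AddSubgroup.closure (Set.range b') → IsCM b' →
    dim (MT (g := g + g')
      (Fin.append (fun k => Fin.append (b k) 0) fun k => Fin.append 0 (b' k)) 1) + 1 =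
      dim (MT b 1) + dim (MT b' 1) →
    (∀ j : ℕ, 1 ≤ j → j ≤ 2 * g →
      Algebra.trdeg ℚ (entryField (minors j (period η b))) = dim (MT b j)) ∨
    ∀ j : ℕ, 1 ≤ j → j ≤ 2 * g' →
      Algebra.trdeg ℚ (entryField (minors j (period η' b'))) = dim (MT b' j)

namespace Two

/-- entries -/
def En {ι κ : Type} (x : Matrix ι κ ℂ) : Set ℂ := {r | ∃ i j, r = x i j}

/-- quotients of entries -/
def Qu {ι κ : Type} (x : Matrix ι κ ℂ) : Set ℂ := {r | ∃ i j k l, r = x i j / x k l}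

theorem qu_mem {ι κ : Type} {x : Matrix ι κ ℂ} {a b : ℂ} (ha : a ∈ En x) (hb : b ∈ En x) :
    a / b ∈ Qu x := by
  obtain ⟨i, j, rfl⟩ := ha
  obtain ⟨k, l, rfl⟩ := hb
  exact ⟨i, j, k, l, rfl⟩

theorem en_one {n m : ℕ} (x : Matrix (Fin n) (Fin m) ℂ) : En (minors 1 x) = En x := by
  ext r
  constructor
  · rintro ⟨s, t, rfl⟩
    exact ⟨_, _, det_fin_one _⟩
  · rintro ⟨i, j, rfl⟩
    exact ⟨⟨{i}, rfl⟩, ⟨{j}, rfl⟩, by simp [minors]⟩

theorem qu_eq {ι κ : Type} (x : Matrix ι κ ℂ) :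
    Qu x = {r | ∃ a ∈ En x, ∃ b ∈ En x, r = a / b} := by
  ext r
  constructor
  · rintro ⟨i, j, k, l, rfl⟩
    exact ⟨_, ⟨i, j, rfl⟩, _, ⟨k, l, rfl⟩, rfl⟩
  · rintro ⟨a, ha, b, hb, rfl⟩
    exact qu_mem ha hb

theorem qu_one {n m : ℕ} (x : Matrix (Fin n) (Fin m) ℂ) : Qu (minors 1 x) = Qu x := by
  rw [qu_eq, qu_eq, en_one]

theorem minor_mem {n m j : ℕ} {x : Matrix (Fin n) (Fin m) ℂ} {a d : ℂ} (ha : a ∈ En x)
    (hd : d ∈ En (minors j x)) : d / a ^ j ∈ cl ℚ (Qu x) := by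
  obtain ⟨s, t, rfl⟩ := hd
  have := det_smul (x.submatrix (s.1.orderEmbOfFin s.2) (t.1.orderEmbOfFin t.2)) a⁻¹
  rw [Fintype.card_fin, inv_pow, mul_comm, ← div_eq_mul_inv] at this
  rw [minors, of_apply, ← this, det_apply']
  refine sum_mem fun σ _ => mul_mem (intCast_mem _ _) (prod_mem fun i _ => ?_)
  rw [Matrix.smul_apply, smul_eq_mul, inv_mul_eq_div]
  exact sub_cl (qu_mem ⟨_, _, rfl⟩ ha)

theorem minor_ne {n m j : ℕ} {x : Matrix (Fin n) (Fin m) ℂ} (hx : LinearIndependent ℂ x.row)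
    (hm : n = m) (hj : j ≤ n) : ∃ d ∈ En (minors j x), d ≠ 0 := by
  subst hm
  by_contra! h
  obtain ⟨t, -, ht⟩ := Finset.exists_subset_card_eq (s := Finset.univ) (n := j)
    (hj.trans_eq (Finset.card_fin n).symm)
  obtain ⟨y, hy⟩ := (linearIndependent_rows_iff_isUnit.1 hx).exists_right_inv
  have h1 := Wg.minors_mulVec x fun k => y *ᵥ Pi.single (Wg.en ⟨t, ht⟩ k) 1
  simp only [mulVec_mulVec, hy, one_mulVec, Wg.wd_single] at h1
  rw [show minors j x = 0 from Matrix.ext fun s t => h _ ⟨s, t, rfl⟩, zero_mulVec] at h1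
  simpa using congrFun h1 ⟨t, ht⟩

variable {g N : ℕ} {Θ : Fin (N + 1) → (Fin g → ℂ) → ℂ} {Λ : AddSubgroup (Fin g → ℂ)}
  {η : (Fin g → ℂ) → (Fin g → ℂ) →ₗ[ℂ] ℂ} {b : Module.Basis (Fin (2 * g)) ℝ (Fin g → ℂ)}

theorem row_ind (h : IsTheta Θ Λ η) (hb : Λ = AddSubgroup.closure (Set.range b)) :
    LinearIndependent ℂ (period η b).row :=
  (per_indep h (fun k => hb ▸ AddSubgroup.subset_closure ⟨k, rfl⟩) b.linearIndependent).map'
    (app g g).toLinearMap (app g g).ker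

theorem pi_mem (h : IsTheta Θ Λ η) (hb : Λ = AddSubgroup.closure (Set.range b)) {a : ℂ}
    (ha : a ∈ En (period η b)) : Real.pi / a ^ 2 ∈ cl ℚ (Qu (period η b)) := by
  have hl : ∀ k, b k ∈ Λ := fun k => hb ▸ AddSubgroup.subset_closure ⟨k, rfl⟩
  obtain ⟨u, L, hW⟩ := CMQ.wt g N Θ Λ η h
  obtain ⟨k, l, h1⟩ : ∃ k l, η (b k) (b l) - η (b l) (b k) ≠ 0 := by
    by_contra! h1
    obtain ⟨k, -⟩ := ha
    have h2 : ∀ x y, L x y = L y x := fun x y => by
      let B : (Fin g → ℂ) →ₗ[ℝ] (Fin g → ℂ) →ₗ[ℝ] ℂ := LinearMap.mk₂ ℝ (fun x y => L x y)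
        (by simp) (by simp) (by simp) (by simp)
      exact LinearMap.congr_fun₂ (LinearMap.ext_basis b b (B := B) (B' := B.flip) fun k l => by
        simpa [B, hW.ext _ (hl _), sub_eq_zero] using h1 k l) x y
    have h3 := hW.pos (b k) (b.ne_zero k)
    rw [h2 (I • b k), map_smul, smul_eq_mul, ← mul_assoc, I_mul_I] at h3
    simp at h3
  obtain ⟨n, hn⟩ := hW.riem _ (hl k) _ (hl l)
  rw [hW.ext _ (hl k), hW.ext _ (hl l)] at hn
  have h2 : ∀ k l, η (b k) (b l) / a ^ 2 ∈ cl ℚ (Qu (period η b)) := fun k l => by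
    rw [← dot_qp, dotProduct, Finset.sum_div]
    refine sum_mem fun i _ => ?_
    rw [sq, ← div_mul_div_comm]
    exact mul_mem (sub_cl (qu_mem ⟨l, Fin.castAdd g i, by simp [period]⟩ ha))
      (sub_cl (qu_mem ⟨k, Fin.natAdd g i, (Fin.append_right _ _ i).symm⟩ ha))
  have h3 : (n : ℂ) ≠ 0 := fun h0 => h1 (by rw [hn, h0, zero_mul])
  have h4 := div_mem (sub_mem (h2 k l) (h2 l k)) (mul_mem (mul_mem (intCast_mem _ n)
    (ofNat_mem _ 2)) (alg_cl (IsAlgebraic.of_pow two_pos (by simpa using isAlgebraic_one.neg) :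
      IsAlgebraic ℚ I)))
  rwa [← sub_div, hn, show n * (2 * Real.pi * I) / a ^ 2 / (n * 2 * I) = Real.pi / a ^ 2 by
    field_simp] at h4

theorem tq {ι κ : Type} {x : Matrix ι κ ℂ} {n : ℕ} (h : rk ℚ (Qu x) = n) :
    Algebra.trdeg ℚ (quotField x) = n := trdeg_rat.2 h

theorem te {ι κ : Type} {x : Matrix ι κ ℂ} {n : ℕ} (h : rk ℚ (En x) = n) :
    Algebra.trdeg ℚ (entryField x) = n := trdeg_rat.2 h

theorem fin_rk {ι κ : Type} [Finite ι] [Finite κ] (x : Matrix ι κ ℂ) :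
    (∃ n : ℕ, rk ℚ (Qu x) = n) ∧ ∃ n : ℕ, rk ℚ (En x) = n := by
  have h : ∀ s : Set ℂ, s.Finite → ∃ n : ℕ, rk ℚ s = n := fun s hs =>
    ⟨_, (ENat.natCast_toNat ((Matroid.eRk_le_encard _ s).trans_lt hs.encard_lt_top).ne).symm⟩
  exact ⟨h _ ((Set.finite_range fun p : (ι × κ) × ι × κ => x p.1.1 p.1.2 / x p.2.1 p.2.2).subset
    fun _ ⟨i, j, k, l, h⟩ => ⟨((i, j), k, l), h.symm⟩), h _ ((Set.finite_range
      fun p : ι × κ => x p.1 p.2).subset fun _ ⟨i, j, h⟩ => ⟨(i, j), h.symm⟩)⟩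

theorem full (hC : CmFinal) (h : IsTheta Θ Λ η) (hb : Λ = AddSubgroup.closure (Set.range b))
    (hc : IsCM b) (hπ : (Real.pi : ℂ) ∉ cl ℚ (Qu (period η b))) (j : ℕ) (h1 : 1 ≤ j)
    (h2 : j ≤ 2 * g) : Algebra.trdeg ℚ (entryField (minors j (period η b))) = dim (MT b j) := by
  obtain ⟨h3, h4, -⟩ := hC g N Θ Λ η b h hb hc j h1 h2
  obtain ⟨⟨n, hn⟩, m, hm⟩ := fin_rk (minors j (period η b))
  obtain ⟨d, hd, hd0⟩ := minor_ne (row_ind h hb) (two_mul g) h2
  obtain ⟨a, ha, ha0⟩ := minor_ne (row_ind h hb) (two_mul g) (h1.trans h2)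
  rw [en_one] at ha
  have h5 : d ∉ cl ℚ (Qu (minors j (period η b))) := fun h5 => hπ <| by
    have h6 : d ∈ cl ℚ (Qu (period η b)) := cl_le (by
      rw [qu_eq]
      rintro _ ⟨c, hc, e, he, rfl⟩
      rw [← div_div_div_cancel_right₀ (pow_ne_zero j ha0)]
      exact div_mem (minor_mem ha hc) (minor_mem ha he)) h5
    have h7 := div_mem h6 (minor_mem ha hd)
    rw [div_div_cancel₀ hd0] at h7
    have h8 := mul_mem (pi_mem h hb ha) (pow_mem (pow_cl h1 h7) 2)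
    rwa [div_mul_cancel₀ _ (pow_ne_zero 2 ha0)] at h8
  have h6 : rk ℚ (insert d (Qu (minors j (period η b)))) ≤ rk ℚ (En (minors j (period η b))) :=
    rk_le <| by
      rw [qu_eq]
      rintro _ (rfl | ⟨c, hc, e, he, rfl⟩)
      exacts [sub_cl hd, div_mem (sub_cl hc) (sub_cl he)]
  rw [rk_insert h5, hn, hm] at h6
  refine h4.antisymm (h3.ge.trans ?_)
  rw [tq hn, te hm]
  exact_mod_cast h6

/-- block diagonal matrices -/
def blk (n m : ℕ) : (Matrix (Fin n) (Fin n) ℚ × Matrix (Fin m) (Fin m) ℚ) →ₐ[ℚ]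
    Matrix (Fin (n + m)) (Fin (n + m)) ℚ :=
  (reindexAlgEquiv ℚ ℚ finSumFinEquiv).toAlgHom.comp
    { toFun x := fromBlocks x.1 0 0 x.2
      map_one' := fromBlocks_one
      map_mul' x y := by simp [fromBlocks_multiply]
      map_zero' := fromBlocks_zero
      map_add' x y := by simp [fromBlocks_add]
      commutes' r := by
        simp only [Algebra.algebraMap_eq_smul_one, ← fromBlocks_one, fromBlocks_smul]
        simp }

theorem cm_prod {g g' n n' : ℕ} {b : Fin n → Fin g → ℂ} {b' : Fin n' → Fin g' → ℂ} (h : IsCM b)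
    (h' : IsCM b') : IsCM (g := g + g')
      (Fin.append (fun k => Fin.append (b k) 0) fun k => Fin.append 0 (b' k)) := by
  obtain ⟨T, h1, h2, h3, h4⟩ := h
  obtain ⟨T', h1', h2', h3', h4'⟩ := h'
  have hi : Function.Injective (blk n n') := (reindexAlgEquiv ℚ ℚ finSumFinEquiv).injective.comp
    fun x y hxy => Prod.ext (fromBlocks_inj.1 hxy).1 (fromBlocks_inj.1 hxy).2.2.2
  let F := (blk n n').comp (T.val.prodMap T'.val)
  have hF : Function.Injective F := hi.comp (Subtype.val_injective.prodMap Subtype.val_injective)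
  refine ⟨F.range, ?_, ?_, ?_, ?_⟩
  · rintro _ ⟨x, rfl⟩ _ ⟨y, rfl⟩
    rw [← map_mul, ← map_mul]
    exact congrArg _ (Prod.ext (Subtype.ext (h1 _ x.1.2 _ y.1.2))
      (Subtype.ext (h1' _ x.2.2 _ y.2.2)))
  · exact isReduced_of_injective _ (AlgEquiv.ofInjective F hF).symm.injective
  · rw [← (AlgEquiv.ofInjective F hF).toLinearEquiv.finrank_eq, Module.finrank_prod, h3, h3']
  · rintro _ ⟨x, rfl⟩
    obtain ⟨φ, h5⟩ := h4 _ x.1.2
    obtain ⟨φ', h5'⟩ := h4' _ x.2.2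
    refine ⟨(app g g').toLinearMap ∘ₗ φ.prodMap φ' ∘ₗ (app g g').symm.toLinearMap, fun k => ?_⟩
    refine Fin.addCases (fun k => ?_) (fun k => ?_) k <;> funext i <;>
      refine Fin.addCases (fun i => ?_) (fun i => ?_) i <;>
      simp [F, blk, Fin.sum_univ_add, ← app_apply (_, _), h5, h5'] <;> rfl

end Two

open Two in
theorem two (hC : CmFinal) : TwoStmt := by
  intro g N Θ Λ η b g' N' Θ' Λ' η' b' h hb hc h' hb' hc' hd
  by_contra! hne
  obtain ⟨⟨j, j1, j2, j3⟩, j', j1', j2', j3'⟩ := hne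
  have p1 := of_not_not fun hπ => j3 (full hC h hb hc hπ j j1 j2)
  have p2 := of_not_not fun hπ => j3' (full hC h' hb' hc' hπ j' j1' j2')
  obtain ⟨M, Ξ, hΞ⟩ := SHP.prod _ _ _ _ _ _ _ _ _ _ h h'
  have hC' : ∀ n, n = 2 * (g + g') → ∀ c : Module.Basis (Fin n) ℝ (Fin (g + g') → ℂ),
      plat Λ Λ' = AddSubgroup.closure (Set.range c) → IsCM c → Algebra.trdeg ℚ
        (quotField (minors 1 (period (peta η η') c))) + 1 = dim (MT c 1) := by
    rintro n rfl c h1 h2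
    exact (hC _ _ _ _ _ c hΞ h1 h2 1 le_rfl (by omega)).1
  let c := ((b.prod b').map ((app g g').restrictScalars ℝ)).reindex finSumFinEquiv
  have hcc : ⇑c = Fin.append (fun k => Fin.append (b k) 0) fun k => Fin.append 0 (b' k) :=
    funext fun k => Fin.addCases (fun k => by simp [c, app_apply]) (fun k => by
      simp [c, app_apply]) k
  have h1 := hC' _ (mul_add 2 g g').symm c (AddSubgroup.ext fun z => by
    rw [mem_plat, hb, hb', CMQ.Segre.mem_lat, CMQ.Segre.mem_lat, CMQ.Segre.mem_lat,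
      ← finSumFinEquiv.forall_congr_right, Sum.forall]
    simp only [c, Module.Basis.repr_reindex_apply, Equiv.symm_apply_apply, Module.Basis.map_repr,
      LinearEquiv.trans_apply, Module.Basis.prod_repr_inl, Module.Basis.prod_repr_inr]
    rfl) (hcc ▸ cm_prod hc hc')
  have h2 := (hC _ _ _ _ _ b h hb hc 1 le_rfl (j1.trans j2)).1
  have h3 := (hC _ _ _ _ _ b' h' hb' hc' 1 le_rfl (j1'.trans j2')).1
  obtain ⟨⟨n, hn⟩, -⟩ := fin_rk (minors 1 (period (peta η η') c))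
  obtain ⟨⟨m, hm⟩, -⟩ := fin_rk (minors 1 (period η b))
  obtain ⟨⟨m', hm'⟩, -⟩ := fin_rk (minors 1 (period η' b'))
  rw [← hcc, ← h1, ← h2, ← h3, tq hn, tq hm, tq hm'] at hd
  rw [qu_one] at hn hm hm'
  have h4 : ∀ a ∈ En (period (peta η η') c), a ≠ 0 →
      Real.pi / a ^ 2 ∈ cl ℚ (Qu (period η b) ∪ Qu (period η' b')) := by
    rintro _ ⟨k, i, rfl⟩ ha
    have h5 : ∀ k, period (peta η η') c k = Fin.append (c k) (qp (peta η η') (c k)) :=
      fun k => rfl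
    suffices period (peta η η') c k i ∈ En (period η b) ∪ En (period η' b') from this.elim
      (fun h6 => cl_le (fun _ hz => sub_cl (.inl hz)) (pi_mem h hb h6))
      fun h6 => cl_le (fun _ hz => sub_cl (.inr hz)) (pi_mem h' hb' h6)
    revert ha
    rw [h5, hcc]
    refine Fin.addCases (fun k => ?_) (fun k => ?_) k <;>
      refine Fin.addCases (fun i => ?_) (fun i => ?_) i <;>
      refine Fin.addCases (fun i => ?_) (fun i => ?_) i <;>
      simp only [Fin.append_left, Fin.append_right, ← app_apply (_, _), qp_peta, qp_zero h,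
        qp_zero h', app_left, app_right, Pi.zero_apply, ne_eq, not_true_eq_false, false_imp_iff]
    · exact fun _ => .inl ⟨k, Fin.castAdd g i, by simp [period]⟩
    · exact fun _ => .inl ⟨k, Fin.natAdd g i, (Fin.append_right _ _ i).symm⟩
    · exact fun _ => .inr ⟨k, Fin.castAdd g' i, by simp [period]⟩
    · exact fun _ => .inr ⟨k, Fin.natAdd g' i, (Fin.append_right _ _ i).symm⟩
  have h5 : rk ℚ (Qu (period (peta η η') c)) ≤ rk ℚ (Qu (period η b) ∪ Qu (period η' b')) :=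
    rk_le <| by
      rw [qu_eq]
      rintro _ ⟨a, ha, e, he, rfl⟩
      by_cases h6 : a / e = 0
      · exact h6 ▸ zero_mem _
      · obtain ⟨h7, h8⟩ := div_ne_zero_iff.1 h6
        refine pow_cl two_pos ?_
        rw [div_pow, ← div_div_div_cancel_left' _ _ (ofReal_ne_zero.2 Real.pi_ne_zero)]
        exact div_mem (h4 e he h8) (h4 a ha h7)
  have h6 : rk ℚ (Qu (period η b) ∪ Qu (period η' b')) ≤ m + m' :=
    hm ▸ hm' ▸ Matroid.eRk_union_le_eRk_add_eRk _ _ _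
  have h7 : n = m + m' := by
    norm_cast at hd
    omega
  refine transcendental_pi ((GamF.alg_real _).2 (alg_of_cl (s := ∅) (by simp) (modular (n₀ := 0)
    (n := n) (by simp) (by simp) (Matroid.eRk_empty _) (le_antisymm ?_ (hn ▸ h5)) ?_ p1 p2)))
  · exact h6.trans_eq (by rw [h7, Nat.cast_add])
  · rw [hm, hm', h7]
    simp

end Pool.Agent.GAM
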