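import Pool.Agent.MP_cbf1af_ag.gam.Final
import Pool.Agent.MP_cbf1af_ag.gam.Eta
import Pool.Agent.MP_cbf1af_ag.gam.Wedge
import Pool.Agent.MP_cbf1af_ag.gam.Two
import Pool.Agent.MP_cbf1af_ag.cmp2.Final

/-! PROJECT GAM: assembly of the statement on two CM abelian varieties. -/

namespace Pool.Agent.GAM.TwoFin

open Fin1

theorem hD : All Drel := drel tayS hFA
theorem hG' : Thg := thg CMQ.der_final
theorem hH : Hdr :=
  hdr hFA hK hTr cmt (ari0 hFA hFB hK hE) (ari1 derEx hFA hFB hD hG') (eta derEx hFA hFB hD hG')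
    CMQ.wt

theorem cm : CmFinal :=
  cmFinal hE hTr univ_final (cmd (cmj cmt CMQ.wt)) hH wedge mtd (rat hK trd)

theorem two_final : TwoStmt := two cm

end Pool.Agent.GAM.TwoFin
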